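import Pool.Agent.Lib.MP_f9c34c_al.G.Sy0

/-! Invariant cyclic words. -/

namespace Pool.Agent.Lib.MP_f9c34c_al.G

open Submodule Finset

attribute [local instance 100] LieRing.ofAssociativeRing

lemma cls_sup {A B C : Submodule ℚ T4} (h1 : A ≤ C) (h2 : B ≤ C) {s : T4} (hs : s ∈ A ⊔ B) :
    s ∈ C := (sup_le h1 h2 : A ⊔ B ≤ C) hs

lemma cls_dm_diag (e : X → ℚ) (w : List X) :
    dm (Matrix.diagonal e) (wd w) = (w.map e).sum • wd w := by
  induction w with
  | nil => rw [wd_nil, (dm_der _).one]; simp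
  | cons x w ih =>
    have h : dm (Matrix.diagonal e) (gx x) = e x • gx x := by
      rw [dm_gx, sum_eq_single x]
      · rw [Matrix.diagonal_apply_eq]
      · intro b _ hb
        rw [Matrix.diagonal_apply_ne _ hb, zero_smul]
      · intro h
        exact absurd (mem_univ x) h
    rw [wd_cons, dm_der, h, ih, List.map_cons, List.sum_cons, add_smul, smul_mul_assoc,
      mul_smul_comm]

lemma cls_scale_cm (e : X → ℚ) (g : ℚ → ℚ) {s : T4} (hs : s ∈ Cm X) :
    lin (fun w : List X => g (w.map e).sum • wd w) s ∈ Cm X := by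
  refine Cm_mem (fun a b => ?_) hs
  refine T_mem (f := lin (fun w : List X => g (w.map e).sum • wd w) ∘ₗ
    (LinearMap.mulRight ℚ b - LinearMap.mulLeft ℚ b)) (fun u => ?_) a
  refine T_mem (f := lin (fun w : List X => g (w.map e).sum • wd w) ∘ₗ
    (LinearMap.mulLeft ℚ (wd u) - LinearMap.mulRight ℚ (wd u))) (fun v => ?_) b
  simp only [LinearMap.comp_apply, LinearMap.sub_apply, LinearMap.mulLeft_apply,
    LinearMap.mulRight_apply]
  rw [← wd_append, ← wd_append, map_sub, lin_wd, lin_wd, List.map_append, List.map_append,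
    List.sum_append, List.sum_append, add_comm (v.map e).sum, ← smul_sub, wd_append, wd_append]
  exact smul_mem _ _ (cm_mem _ _)

lemma cls_diag (e : X → ℚ) {d : ℕ} {s : T4} (hs : s ∈ Hom X d)
    (h : dm (Matrix.diagonal e) s ∈ Cm X) :
    s ∈ span ℚ {x | ∃ w : List X, w.length = d ∧ (w.map e).sum = 0 ∧ x = wd w} ⊔ Cm X := by
  have h1 := cls_scale_cm e (fun q => q⁻¹) h
  have h2 : (LinearMap.id - lin (fun w : List X => ((w.map e).sum)⁻¹ • wd w) ∘ₗ
      dm (Matrix.diagonal e) : T4 →ₗ[ℚ] T4) s ∈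
      span ℚ {x | ∃ w : List X, w.length = d ∧ (w.map e).sum = 0 ∧ x = wd w} := by
    refine Hom_mem (fun w hw => ?_) hs
    rw [LinearMap.sub_apply, LinearMap.id_apply, LinearMap.comp_apply, cls_dm_diag, map_smul,
      lin_wd, smul_smul]
    by_cases h0 : (w.map e).sum = 0
    · rw [h0, zero_mul, zero_smul, sub_zero]
      exact subset_span ⟨w, hw, h0, rfl⟩
    · rw [mul_inv_cancel₀ h0, one_smul, sub_self]
      exact zero_mem _
  have h3 := add_mem (mem_sup_left h2) (mem_sup_right h1 : _ ∈ span ℚ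
    {x | ∃ w : List X, w.length = d ∧ (w.map e).sum = 0 ∧ x = wd w} ⊔ Cm X)
  simpa using h3

lemma cls_sum (w : List X) : (w.map fun x : X => if x.2 then (-1 : ℚ) else 1).sum =
    (w.length : ℚ) - 2 * (w.countP (·.2) : ℕ) := by
  induction w with
  | nil => simp
  | cons x w ih =>
    rw [List.map_cons, List.sum_cons, ih, List.countP_cons, List.length_cons]
    cases x.2 <;> simp <;> ring

/-- Elements of weight zero modulo commutators. -/
lemma cls_wt {d : ℕ} {s : T4} (hs : s ∈ Hom X d) (h : dm (hc 0 + hc 1) s ∈ Cm X) :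
    s ∈ span ℚ {x | ∃ w : List X, w.length = d ∧ 2 * w.countP (·.2) = d ∧ x = wd w} ⊔ Cm X := by
  have e : hc 0 + hc 1 = Matrix.diagonal fun x : X => if x.2 then (-1 : ℚ) else 1 := by
    decide +kernel
  rw [e] at h
  refine cls_sup (le_sup_of_le_left (span_mono ?_)) le_sup_right (cls_diag _ hs h)
  rintro _ ⟨w, h1, h2, rfl⟩
  refine ⟨w, h1, ?_, rfl⟩
  rw [cls_sum, h1, sub_eq_zero] at h2
  exact_mod_cast h2.symm

/-- The indicator function of a cyclic class of words. -/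
def clsI (v w : List X) : ℚ := if w ~r v then 1 else 0

lemma clsI_cm (v : List X) {s : T4} (hs : s ∈ Cm X) : lin (clsI v) s = 0 := by
  refine tr_of_Rot (T_ext' (f := lin (clsI v) ∘ₗ Rot) fun w => ?_) hs
  rw [LinearMap.comp_apply, Rot, lin_wd, lin_wd, lin_wd, clsI, clsI]
  refine if_congr ⟨fun h => ?_, fun h => ?_⟩ rfl rfl
  · exact (List.IsRotated.forall w 1).symm.trans h
  · exact (List.IsRotated.forall w 1).trans h

/-- The transposed action of a matrix on functions of words. -/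
def clsD (m : Matrix X X ℚ) : (List X → ℚ) → List X → ℚ
  | _, [] => 0
  | c, x :: w => ∑ b, m b x * c (b :: w) + clsD m (fun u => c (x :: u)) w

lemma clsD_eq (m : Matrix X X ℚ) (w : List X) :
    ∀ c : List X → ℚ, lin c (dm m (wd w)) = clsD m c w := by
  induction w with
  | nil => intro c; rw [wd_nil, (dm_der _).one, map_zero, clsD]
  | cons x w ih =>
    intro c
    have h : ∀ t : T4, lin c (gx x * t) = lin (fun u => c (x :: u)) t :=
      T_ext' (f := lin c ∘ₗ LinearMap.mulLeft ℚ (gx x)) fun u => by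
        rw [LinearMap.comp_apply, LinearMap.mulLeft_apply, ← wd_cons, lin_wd, lin_wd]
    rw [wd_cons, dm_der, map_add, h, ih, clsD, dm_gx, sum_mul, map_sum]
    congr 1
    refine sum_congr rfl fun b _ => ?_
    rw [smul_mul_assoc, map_smul, ← wd_cons, lin_wd, smul_eq_mul]

lemma cls_rot {u v : List X} (h : u ~r v) : wd u - wd v ∈ Cm X := by
  obtain ⟨n, rfl⟩ := h
  have h := cm_mem (wd (u.take (n % u.length))) (wd (u.drop (n % u.length)))
  rwa [← wd_append, ← wd_append, List.take_append_drop,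
    ← List.rotate_eq_drop_append_take_mod] at h

/-- A weight which detects the weights of both handles on short words. -/
def clsE : X → ℚ := fun x => (if x.2 then -1 else 1) * (if x.1 = 0 then 1 else 5)

lemma cls_red {d n : ℕ} (U : Fin n → List X)
    (hU : ∀ w : List X, w.length = d → (w.map clsE).sum = 0 → ∃ i, w ~r U i) {s : T4}
    (hs : s ∈ Hom X d) (h : ∀ f ∈ SS Set.univ, dm f s ∈ Cm X) :
    ∃ c : Fin n → ℚ, s - ∑ i, c i • wd (U i) ∈ Cm X ∧
      ∀ (j : Fin 5) (v : List X), ∑ i, c i * clsD (fm j) (clsI v) (U i) = 0 := by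
  have e : hc 0 + (5 : ℚ) • hc 1 = Matrix.diagonal clsE := by decide +kernel
  have m0 : hc 0 ∈ SS Set.univ :=
    LieSubalgebra.lieSpan_mono (Set.image_mono (Set.subset_univ _)) hc_zero
  have m1 : hc 1 ∈ SS Set.univ :=
    LieSubalgebra.lieSpan_mono (Set.image_mono (Set.subset_univ _)) hc_one
  have h1 := h _ (add_mem m0 ((SS Set.univ).smul_mem (5 : ℚ) m1))
  rw [e] at h1
  have h2 : span ℚ {x | ∃ w : List X, w.length = d ∧ (w.map clsE).sum = 0 ∧ x = wd w} ⊔ Cm X ≤
      span ℚ (Set.range fun i => wd (U i)) ⊔ Cm X := by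
    refine sup_le (span_le.2 ?_) le_sup_right
    rintro _ ⟨w, h1, h2, rfl⟩
    obtain ⟨i, hi⟩ := hU w h1 h2
    have h3 : wd (U i) ∈ span ℚ (Set.range fun i => wd (U i)) := subset_span ⟨i, rfl⟩
    have h4 := add_mem (mem_sup_left h3)
      (mem_sup_right (cls_rot hi) : _ ∈ span ℚ (Set.range fun i => wd (U i)) ⊔ Cm X)
    rwa [add_sub_cancel] at h4
  obtain ⟨a, ha, b, hb, rfl⟩ := mem_sup.1 (h2 (cls_diag _ hs h1))
  obtain ⟨c, rfl⟩ := (mem_span_range_iff_exists_fun ℚ).1 ha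
  refine ⟨c, by simpa using hb, fun j v => ?_⟩
  have h3 := h (fm j) (LieSubalgebra.subset_lieSpan ⟨j, Set.mem_univ j, rfl⟩)
  have h4 := clsI_cm v h3
  rw [map_add, map_add, clsI_cm v ((dm_der _).cm hb), add_zero, map_sum, map_sum] at h4
  rw [← h4]
  exact sum_congr rfl fun i _ => by rw [map_smul, map_smul, clsD_eq, smul_eq_mul]

lemma cls_two {s : T4} (hs : s ∈ Hom X 2) (h : ∀ f ∈ SS Set.univ, dm f s ∈ Cm X) : s ∈ Cm X := by
  have hU : ∀ x y : X, ([x, y].map clsE).sum = 0 →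
      ∃ i, [x, y] ~r (![[a0, b0], [a1, b1]] : Fin 2 → List X) i := by
    decide +kernel
  obtain ⟨c, h1, h2⟩ := cls_red ![[a0, b0], [a1, b1]] (fun w hw => by
    obtain ⟨x, y, rfl⟩ := List.length_eq_two.1 hw
    exact hU x y) hs h
  have e : clsD (fm 0) (clsI [a0, a0]) [a0, b0] = 1 ∧ clsD (fm 0) (clsI [a0, a0]) [a1, b1] = 0 ∧
      clsD (fm 4) (clsI [a1, a1]) [a0, b0] = 0 ∧ clsD (fm 4) (clsI [a1, a1]) [a1, b1] = 1 := by
    decide +kernel
  have h3 := h2 0 [a0, a0]
  have h4 := h2 4 [a1, a1]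
  simp only [Fin.sum_univ_two, Matrix.cons_val_zero, Matrix.cons_val_one, e, mul_one, mul_zero,
    add_zero, zero_add] at h3 h4
  simpa [h3, h4] using h1

/-- Representatives of the cyclic words of length four and weight zero. -/
def clsU : Fin 10 → List X :=
  ![[a0, b0, a1, b1], [a0, a0, b0, b0], [a0, a1, b0, b1], [a0, a1, b1, b0], [a0, b0, a0, b0],
    [a0, b0, b1, a1], [a0, b1, a1, b0], [a0, b1, b0, a1], [a1, a1, b1, b1], [a1, b1, a1, b1]]

/-- The generators used in the equations. -/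
def clsJ : Fin 9 → Fin 5 := ![0, 0, 0, 0, 2, 2, 2, 2, 2]

/-- The test words used in the equations. -/
def clsV : Fin 9 → List X :=
  ![[a0, a0, a0, b0], [a0, a0, a1, b1], [a0, a0, b1, a1], [a0, a1, a0, b1], [a0, a0, a1, b0],
    [a0, a0, b0, a1], [a0, a1, a1, b0], [a0, a1, a1, b1], [a0, a1, b1, a1]]

/-- The solution of the equations. -/
def clsA : Fin 10 → ℚ := ![1, -1, 0, -1, 1, -1, 1, 0, -1, 1]

/-- Twice the elimination matrix. -/
def clsB : Fin 10 → Fin 9 → ℚ :=
  ![![0, 0, 0, 0, 0, 0, 0, 0, 0],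
    ![0, 1, 0, -1, -1, -1, -1, 0, 0],
    ![0, 1, 0, 1, -1, 1, -1, 0, 0],
    ![0, 2, 0, 0, 0, 0, 0, 0, 0],
    ![1, -1, 0, 1, 1, 1, 1, 0, 0],
    ![0, 2, 2, 0, 0, 0, -2, 0, 0],
    ![0, -2, 0, 0, 0, 0, 2, 0, 0],
    ![0, -1, 0, 1, 1, -1, 1, 0, 0],
    ![0, -1, 0, -1, 1, -1, 1, -2, 0],
    ![0, -2, -1, 0, 0, 0, 1, 0, -1]]

lemma cls_cert : ∀ i k : Fin 10,
    ∑ j, clsB i j * clsD (fm (clsJ j)) (clsI (clsV j)) (clsU k) =
      (if k = i then 2 else 0) - (if k = 0 then 2 * clsA i else 0) := by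
  decide +kernel

lemma cls_rep : ∀ x y z t : X, ([x, y, z, t].map clsE).sum = 0 → ∃ i, [x, y, z, t] ~r clsU i := by
  decide +kernel

lemma cls_line {s : T4} (hs : s ∈ Hom X 4) (h : ∀ f ∈ SS Set.univ, dm f s ∈ Cm X) :
    ∃ c : ℚ, s - c • ∑ i, clsA i • wd (clsU i) ∈ Cm X := by
  obtain ⟨c, h1, h2⟩ := cls_red clsU (fun w hw => by
    match w, hw with
    | [x, y, z, t], _ => exact cls_rep x y z t) hs h
  refine ⟨c 0, ?_⟩
  have h3 : ∀ i, c i = c 0 * clsA i := by
    intro i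
    have h4 : ∑ k, c k * ∑ j, clsB i j * clsD (fm (clsJ j)) (clsI (clsV j)) (clsU k) = 0 := by
      simp_rw [mul_sum]
      rw [sum_comm]
      refine sum_eq_zero fun j _ => ?_
      have h5 := congrArg (fun q => clsB i j * q) (h2 (clsJ j) (clsV j))
      simp only [mul_sum, mul_zero] at h5
      rw [← h5]
      exact sum_congr rfl fun k _ => by ring
    simp only [cls_cert, mul_sub, sum_sub_distrib, mul_ite, mul_zero, sum_ite_eq', mem_univ,
      if_true] at h4
    linarith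
  rw [smul_sum]
  have h6 : ∑ i, c 0 • clsA i • wd (clsU i) = ∑ i, c i • wd (clsU i) :=
    sum_congr rfl fun i _ => by rw [smul_smul, ← h3 i]
  rwa [h6]

lemma cls_om : om = wd [a0, b0] - wd [b0, a0] + (wd [a1, b1] - wd [b1, a1]) := by
  rw [om, Fin.sum_univ_two, Ring.lie_def, Ring.lie_def]
  simp only [gx, ← wd_append, List.cons_append, List.nil_append]

lemma cls_om_hom : om ∈ Hom X 2 := by
  rw [cls_om]
  exact add_mem (sub_mem (wd_mem rfl) (wd_mem rfl)) (sub_mem (wd_mem rfl) (wd_mem rfl))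

lemma cls_om_sq : lin (clsI [a0, b0, a1, b1]) (om * om) = 2 := by
  rw [cls_om]
  simp only [mul_add, add_mul, mul_sub, _root_.sub_mul, ← wd_append, List.cons_append, List.nil_append,
    map_add, map_sub, lin_wd]
  decide +kernel

lemma cls_four {s : T4} (hs : s ∈ Hom X 4) (h : ∀ f ∈ SS Set.univ, dm f s ∈ Cm X) :
    s ∈ span ℚ {om * om} ⊔ Cm X := by
  obtain ⟨c, hc⟩ := cls_line hs h
  have h4 : om * om ∈ Hom X 4 := Hom_mul (p := 2) (q := 2) cls_om_hom cls_om_hom
  obtain ⟨c', hc'⟩ := cls_line h4 fun f hf => by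
    rw [dm_der f om om, dm_om hf, zero_mul, mul_zero, add_zero]
    exact zero_mem _
  have h0 : c' ≠ 0 := by
    rintro rfl
    rw [zero_smul, sub_zero] at hc'
    have h1 := clsI_cm [a0, b0, a1, b1] hc'
    rw [cls_om_sq] at h1
    norm_num at h1
  have h2 : s = (c / c') • (om * om) + ((s - c • ∑ i, clsA i • wd (clsU i)) -
      (c / c') • (om * om - c' • ∑ i, clsA i • wd (clsU i))) := by
    rw [smul_sub, smul_smul, div_mul_cancel₀ _ h0]
    abel
  rw [h2]
  exact add_mem (mem_sup_left (smul_mem _ _ (subset_span rfl)))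
    (mem_sup_right (sub_mem hc (smul_mem _ _ hc')))

theorem cls {d : ℕ} (hd : 2 ≤ d) {s : T4} (hs : s ∈ Hom X d)
    (h : ∀ f ∈ SS Set.univ, dm f s ∈ Cm X) :
    s ∈ Cm X ∨ (Even d ∧ s ∈ R12 ⊔ Cm X ⊔ span ℚ {om * om}) := by
  have m0 : hc 0 ∈ SS Set.univ :=
    LieSubalgebra.lieSpan_mono (Set.image_mono (Set.subset_univ _)) hc_zero
  have m1 : hc 1 ∈ SS Set.univ :=
    LieSubalgebra.lieSpan_mono (Set.image_mono (Set.subset_univ _)) hc_one
  have h1 := cls_wt hs (h _ (add_mem m0 m1))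
  rcases Nat.even_or_odd' d with ⟨k, rfl | rfl⟩
  · by_cases h2 : k = 1
    · subst h2
      exact Or.inl (cls_two hs h)
    refine Or.inr ⟨even_two_mul k, ?_⟩
    by_cases h3 : k = 2
    · subst h3
      exact cls_sup le_sup_right (le_sup_of_le_left le_sup_right) (cls_four hs h)
    refine mem_sup_left (cls_sup (le_sup_of_le_left (span_mono ?_)) le_sup_right h1)
    rintro _ ⟨w, h4, h5, rfl⟩
    exact ⟨w, by omega, rfl⟩
  · left
    refine cls_sup (span_le.2 ?_) le_rfl h1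
    rintro _ ⟨w, -, h5, rfl⟩
    omega

end Pool.Agent.Lib.MP_f9c34c_al.G
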