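import Pool.Agent.Lib.MP_f9c34c_al.G.Tr3

/-! Lie elements and linear derivations. -/

namespace Pool.Agent.Lib.MP_f9c34c_al.G

open Submodule Finset IsNilpotent

attribute [local instance 100] LieRing.ofAssociativeRing

variable {Y : Type} {N : ℕ}

/-- The Lie elements. -/
noncomputable def LT (Y : Type) (N : ℕ) : Submodule ℚ (TT Y N) := ⨆ n, len (xx N (Y := Y)) n

lemma LT_xx (a : Y) : xx N a ∈ LT Y N := mem_iSup_of_mem 0 (len_zero a)

lemma LT_lie {s t : TT Y N} (hs : s ∈ LT Y N) (ht : t ∈ LT Y N) : ⁅s, t⁆ ∈ LT Y N := by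
  refine (iSup_le fun m a ha => ?_ : LT Y N ≤ (LT Y N).comap
    ((LieModule.toEnd ℚ _ _).toLinearMap.flip t)) hs
  refine (iSup_le fun n b hb => ?_ : LT Y N ≤ (LT Y N).comap (LieModule.toEnd ℚ _ _ a)) ht
  exact mem_iSup_of_mem _ (lie_len m n ha hb)

lemma tr_len_surj {n : ℕ} {s : TT Y N} (hs : s ∈ len (xx N) n) :
    ∃ t ∈ len gx n, mkT N t = s := by
  have := len_map (x := gx) (mkT (Y := Y) N).toLieHom n
  exact this hs

lemma tr_mk_LT {n : ℕ} {s : T Y} (hs : s ∈ len gx n) : mkT N s ∈ LT Y N :=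
  mem_iSup_of_mem n (map_len (φ := (mkT N).toLinearMap) (y := xx N)
    (fun a b => by simp [Ring.lie_def]) (fun i => len_zero i) n hs)

lemma tr_sec_top {d : ℕ} (h : N < d) (s : TT Y N) : sec N d s = 0 := by
  obtain ⟨t, rfl⟩ := mkT_surj s
  rw [sec, LinearMap.comp_apply, tot_mk, map_sum]
  exact sum_eq_zero fun j hj => by
    rw [pj_hom d (pj_mem j t), if_neg (by have := mem_range.1 hj; omega)]

lemma LT_le : LT Y N ≤ FT Y N 1 := iSup_le fun n s hs => by
  obtain ⟨t, ht, rfl⟩ := tr_len_surj hs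
  exact ⟨t, Hom_le_Fl (Nat.le_add_left 1 n) (len_Hom n ht), rfl⟩

lemma mem_LT {s : TT Y N} :
    s ∈ LT Y N ↔ sec N 0 s = 0 ∧ ∀ n, sec N (n + 1) s ∈ len gx n := by
  refine ⟨fun h => ⟨mem_FT.1 (LT_le h) 0 one_pos, fun n => ?_⟩, fun h => ?_⟩
  · refine (iSup_le fun m s hs => ?_ : LT Y N ≤ (len gx n).comap (sec N (n + 1))) h
    obtain ⟨t, ht, rfl⟩ := tr_len_surj hs
    rw [mem_comap]
    by_cases hn : n + 1 ≤ N
    · rw [sec_mk hn, pj_hom _ (len_Hom m ht)]
      split_ifs with e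
      · exact Nat.succ_injective e ▸ ht
      · exact zero_mem _
    · rw [tr_sec_top (not_le.1 hn)]
      exact zero_mem _
  · obtain ⟨t, rfl⟩ := mkT_surj s
    rw [← mk_tot (mkT N t), tot_mk, map_sum]
    refine sum_mem fun j hj => ?_
    rw [← sec_mk (Nat.lt_succ_iff.1 (mem_range.1 hj))]
    rcases j with _ | j
    · rw [h.1, map_zero]
      exact zero_mem _
    · exact tr_mk_LT (h.2 j)

lemma mk_LT {n : ℕ} {s : T Y} (hs : s ∈ len gx n) : mkT N s ∈ LT Y N := tr_mk_LT hs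

lemma tr_der_LT {D : Module.End ℚ (TT Y N)} (h : D ∈ DD Y N) (h1 : ∀ a, D (xx N a) ∈ LT Y N)
    {s : TT Y N} (hs : s ∈ LT Y N) : D s ∈ LT Y N := by
  refine (iSup_le fun n => ?_ : LT Y N ≤ (LT Y N).comap D) hs
  induction n with
  | zero => exact len_le0 h1
  | succ n ih =>
    refine len_le fun i y hy => ?_
    rw [mem_comap, DD_lie h]
    exact add_mem (LT_lie (h1 i) (mem_iSup_of_mem n hy)) (LT_lie (LT_xx i) (ih hy))

/-- Derivations preserving the Lie elements. -/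
noncomputable def LD (Y : Type) (N : ℕ) : LieSubalgebra ℚ (Module.End ℚ (TT Y N)) where
  carrier := {D | D ∈ DD Y N ∧ ∀ a, D (xx N a) ∈ LT Y N}
  add_mem' h h' := ⟨add_mem h.1 h'.1, fun a => add_mem (h.2 a) (h'.2 a)⟩
  zero_mem' := ⟨zero_mem _, fun _ => zero_mem _⟩
  smul_mem' c _ h := ⟨(DD Y N).smul_mem c h.1, fun a => smul_mem _ c (h.2 a)⟩
  lie_mem' h h' := ⟨(DD Y N).lie_mem h.1 h'.1, fun a =>
    sub_mem (tr_der_LT h.1 h.2 (h'.2 a)) (tr_der_LT h'.1 h'.2 (h.2 a))⟩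

lemma LD_LT {D : Module.End ℚ (TT Y N)} (h : D ∈ LD Y N) {s : TT Y N} (hs : s ∈ LT Y N) :
    D s ∈ LT Y N := tr_der_LT h.1 h.2 hs

lemma mem_LD {D : Module.End ℚ (TT Y N)} :
    D ∈ LD Y N ↔ D ∈ DD Y N ∧ ∀ d a, cp N d D (gx a) ∈ len gx d := by
  refine and_congr_right fun h => ?_
  simp only [cp_gx, mem_LT]
  exact ⟨fun h1 d a => (h1 a).2 d, fun h1 a => ⟨mem_FT.1 (h.2 a) 0 one_pos, fun d => h1 d a⟩⟩

variable [Fintype Y] [DecidableEq Y]

/-- The derivation of degree zero given by a matrix. -/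
noncomputable def dm : Matrix Y Y ℚ →ₗ⁅ℚ⁆ Module.End ℚ (T Y) where
  toFun m := der fun a => ∑ b, m b a • gx b
  map_add' m m' := (isDer_der _).ext ((isDer_der _).add (isDer_der _)) fun a => by
    simp [add_smul, sum_add_distrib]
  map_smul' c m := (isDer_der _).ext ((isDer_der _).smul c) fun a => by
    simp [mul_smul, smul_sum]
  map_lie' {m m'} := (isDer_der _).ext ((isDer_der _).lie (isDer_der _)) fun a => by
    have e : ∀ m m' : Matrix Y Y ℚ, ∑ b, (m * m') b a • gx b =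
        ∑ c, m' c a • ∑ b, m b c • gx b := fun m m' => by
      simp only [Matrix.mul_apply, sum_smul, smul_sum, smul_smul]
      rw [sum_comm]
      simp only [mul_comm]
    simp only [Ring.lie_def, LinearMap.sub_apply, Module.End.mul_apply, der_gx, map_sum, map_smul,
      Matrix.sub_apply, sub_smul, sum_sub_distrib, e]

lemma dm_gx (m : Matrix Y Y ℚ) (a : Y) : dm m (gx a) = ∑ b, m b a • gx b := der_gx _ _

lemma dm_der (m : Matrix Y Y ℚ) : IsDer (dm m) := isDer_der _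

lemma dm_len (m : Matrix Y Y ℚ) (a : Y) : dm m (gx a) ∈ len gx 0 :=
  dm_gx m a ▸ sum_mem fun b _ => smul_mem _ _ (len_zero b)

lemma tr_dm_Fl (m : Matrix Y Y ℚ) (a : Y) : dm m (gx a) ∈ Fl Y 1 :=
  Hom_le_Fl le_rfl (len_Hom 0 (dm_len m a))

/-- The same on the truncated algebra. -/
noncomputable def dmT (N : ℕ) : Matrix Y Y ℚ →ₗ⁅ℚ⁆ Module.End ℚ (TT Y N) where
  toFun m := desc N (dm m)
  map_add' m m' := by rw [map_add, map_add]
  map_smul' c m := by rw [map_smul, map_smul, RingHom.id_apply]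
  map_lie' {m m'} := by
    rw [LieHom.map_lie, desc_lie (dm_der m) (tr_dm_Fl m) (dm_der m') (tr_dm_Fl m')]

lemma dmT_LD (m : Matrix Y Y ℚ) : dmT N m ∈ LD Y N :=
  ⟨desc_DD (dm_der m) (tr_dm_Fl m), fun a =>
    (desc_mk (N := N) (dm_der m) (tr_dm_Fl m) (gx a)).symm ▸ mk_LT (dm_len m a)⟩

lemma dmT_mk (m : Matrix Y Y ℚ) (s : T Y) : dmT N m (mkT N s) = mkT N (dm m s) :=
  desc_mk (dm_der m) (tr_dm_Fl m) s

lemma cp_dmT (m : Matrix Y Y ℚ) {d : ℕ} (hd : d < N) :
    cp N d (dmT N m) = if d = 0 then dm m else 0 :=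
  (cp_desc (dm_der m) (e := 0) (fun a => len_Hom 0 (dm_len m a)) hd).trans (by simp only [eq_comm])

lemma cp_dmT_lie (m : Matrix Y Y ℚ) {D : Module.End ℚ (TT Y N)} (h : D ∈ DD Y N) (d : ℕ) :
    cp N d ⁅dmT N m, D⁆ = ⁅dm m, cp N d D⁆ := by
  by_cases hd : d < N
  · rw [cp_lie (dmT_LD m).1 h hd, sum_eq_single 0 (fun i hi h0 => ?_) (by simp),
      cp_dmT m (by omega), if_pos rfl, Nat.sub_zero]
    rw [cp_dmT m (by have := mem_range.1 hi; omega), if_neg h0, zero_lie]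
  · rw [cp_top (not_lt.1 hd), cp_top (not_lt.1 hd), lie_zero]

lemma eu_dmT (m : Matrix Y Y ℚ) : ⁅eu Y N, dmT N m⁆ = 0 :=
  cp_ext ((DD Y N).lie_mem eu_DD (dmT_LD m).1) (zero_mem _) fun d hd => by
    rw [cp_eu_lie (dmT_LD m).1, cp_dmT m hd, map_zero]
    split_ifs with h <;> simp [h]

omit [Fintype Y] [DecidableEq Y] in
lemma tr_pow_mul {E : Module.End ℚ (T Y)} (h : IsDer E) (n : ℕ) : ∀ (p q : ℕ) (s t : T Y),
    p + q = n → (E ^ p) s = 0 → (E ^ q) t = 0 → (E ^ n) (s * t) = 0 := by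
  induction n with
  | zero =>
    intro p q s t e hs _
    obtain rfl : p = 0 := by omega
    rw [show s = 0 from hs, zero_mul, map_zero]
  | succ n ih =>
    rintro (_ | p) (_ | q) s t e hs ht
    · omega
    · rw [show s = 0 from hs, zero_mul, map_zero]
    · rw [show t = 0 from ht, mul_zero, map_zero]
    · rw [_root_.pow_succ, Module.End.mul_apply, h, map_add,
        ih p (q + 1) _ _ (by omega) (by rwa [_root_.pow_succ] at hs) ht,
        ih (p + 1) q _ _ (by omega) hs (by rwa [_root_.pow_succ] at ht), add_zero]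

lemma tr_dm_pow (m : Matrix Y Y ℚ) (p : ℕ) (a : Y) :
    (dm m ^ p) (gx a) = ∑ b, (m ^ p) b a • gx b := by
  induction p with
  | zero => simp [Matrix.one_apply]
  | succ p ih =>
    rw [pow_succ', Module.End.mul_apply, ih, pow_succ']
    simp only [map_sum, map_smul, dm_gx, Matrix.mul_apply, sum_smul, smul_sum, smul_smul]
    rw [sum_comm]
    simp only [mul_comm]

lemma tr_dmT_nil {m : Matrix Y Y ℚ} (hm : IsNilpotent m) : IsNilpotent (dmT N m) := by
  obtain ⟨p, hp⟩ := hm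
  have h1 : ∀ w : List Y, ∃ k, (dm m ^ k) (wd w) = 0 := fun w => by
    induction w with
    | nil => exact ⟨1, by rw [pow_one, wd_nil, (dm_der m).one]⟩
    | cons a w ih =>
      obtain ⟨k, hk⟩ := ih
      exact ⟨_, wd_cons a w ▸ tr_pow_mul (dm_der m) _ p k _ _ rfl (by simp [tr_dm_pow, hp]) hk⟩
  have h2 : ∀ k s, (dmT N m ^ k) (mkT N s) = mkT N ((dm m ^ k) s) := fun k => by
    induction k with
    | zero => exact fun _ => rfl
    | succ k ih =>
      intro s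
      rw [_root_.pow_succ, _root_.pow_succ, Module.End.mul_apply, dmT_mk, ih, Module.End.mul_apply]
  refine Module.End.isNilpotent_iff_of_finite.2 fun s => ?_
  obtain ⟨t, rfl⟩ := mkT_surj s
  have := T_mem (S := (dm m).maxGenEigenspace 0) (f := LinearMap.id)
    (fun w => by simpa using h1 w) t
  obtain ⟨k, hk⟩ : ∃ k, (dm m ^ k) t = 0 := by simpa using this
  exact ⟨k, by rw [h2, hk, map_zero]⟩

lemma nil_of_cp {D : Module.End ℚ (TT Y N)} (h : D ∈ DD Y N) {m : Matrix Y Y ℚ}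
    (e : cp N 0 D = dm m) (hm : IsNilpotent m) : IsNilpotent D := by
  have h0 := (dmT_LD (N := N) m).1
  have h1 : D - dmT N m ∈ FD Y N 1 := (cp_FD (sub_mem h h0)).2 fun d hd => by
    obtain rfl : d = 0 := by omega
    by_cases hN : 0 < N
    · rw [map_sub, e, cp_dmT m hN, if_pos rfl, sub_self]
    · exact cp_top (not_lt.1 hN) _
  have h2 : ∀ k, D ^ k - dmT N m ^ k ∈ FD Y N 1 ∧ D ^ k ∈ FD Y N 0 := fun k => by
    induction k with
    | zero => exact ⟨by simp, one_FD⟩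
    | succ k ih =>
      rw [_root_.pow_succ, _root_.pow_succ]
      have h3 := FD_mul ih.2 h1
      have h4 := FD_mul ih.1 (DD_FD0 h0)
      have h5 := FD_mul ih.2 (DD_FD0 h)
      rw [zero_add] at h3 h5
      rw [add_zero] at h4
      have h6 := add_mem h3 h4
      rw [mul_sub, sub_mul, sub_add_sub_cancel] at h6
      exact ⟨h6, h5⟩
  obtain ⟨k, hk⟩ := tr_dmT_nil (N := N) hm
  have h3 := (h2 k).1
  rw [hk, sub_zero] at h3
  exact (FD_nil h3).of_pow

end Pool.Agent.Lib.MP_f9c34c_al.G
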