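import Pool.Agent.Lib.MP_f9c34c_al.G.White
import Pool.Agent.Lib.MP_f9c34c_al.G.Trunc

/-! Conjugating a Lie algebra of derivations so that it contains the linear part. -/

namespace Pool.Agent.Lib.MP_f9c34c_al.G

attribute [local instance 100] LieRing.ofAssociativeRing

section aux

lemma lv_choice {V E : Type} [AddCommGroup V] [Module ℚ V] [AddCommGroup E] [Module ℚ E]
    (S : Submodule ℚ V) (W : Submodule ℚ (V × E)) (h : ∀ f ∈ S, ∃ x, (f, x) ∈ W) :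
    ∃ y : V →ₗ[ℚ] E, ∀ f ∈ S, (f, y f) ∈ W := by
  let W' : Submodule ℚ (V × E) := W ⊓ S.comap (LinearMap.fst ℚ V E)
  let φ : W' →ₗ[ℚ] S := ((LinearMap.fst ℚ V E) ∘ₗ W'.subtype).codRestrict S fun w => w.2.2
  have hφ : LinearMap.range φ = ⊤ := by
    rw [LinearMap.range_eq_top]
    intro f
    obtain ⟨x, hx⟩ := h f f.2
    exact ⟨⟨(f, x), hx, f.2⟩, rfl⟩
  obtain ⟨ψ, hψ⟩ := φ.exists_rightInverse_of_surjective hφ
  obtain ⟨y, hy⟩ := LinearMap.exists_extend ((LinearMap.snd ℚ V E) ∘ₗ W'.subtype ∘ₗ ψ)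
  refine ⟨y, fun f hf => ?_⟩
  have h1 : y f = (ψ ⟨f, hf⟩).1.2 := LinearMap.congr_fun hy ⟨f, hf⟩
  have h2 : (ψ ⟨f, hf⟩).1.1 = f := congrArg Subtype.val (LinearMap.congr_fun hψ ⟨f, hf⟩)
  have h3 : (f, y f) = (ψ ⟨f, hf⟩).1 := Prod.ext h2.symm h1
  rw [h3]
  exact (ψ ⟨f, hf⟩).2.1

variable {ι M : Type} [DecidableEq ι] [AddCommGroup M] [Module ℚ M] (b : Module.Basis ι ℚ M)

lemma lv_dual_self (s : M) : b.toDual s s = ∑ i ∈ (b.repr s).support, b.repr s i * b.repr s i := by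
  conv_lhs => enter [2]; rw [← b.linearCombination_repr s, Finsupp.linearCombination_apply,
    Finsupp.sum]
  simp only [map_sum, map_smul, b.toDual_apply_left, smul_eq_mul]

lemma lv_dual_symm (s t : M) : b.toDual s t = b.toDual t s := by
  have h : b.toDual = b.toDual.flip := by
    refine b.ext fun i => b.ext fun j => ?_
    rw [LinearMap.flip_apply, b.toDual_apply, b.toDual_apply]
    simp only [eq_comm]
  exact LinearMap.congr_fun (LinearMap.congr_fun h s) t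

lemma lv_dual_nonneg (s : M) : 0 ≤ b.toDual s s := by
  rw [lv_dual_self]
  exact Finset.sum_nonneg fun _ _ => mul_self_nonneg _

lemma lv_dual_zero {s : M} (h : b.toDual s s = 0) : s = 0 := by
  rw [lv_dual_self, Finset.sum_eq_zero_iff_of_nonneg fun _ _ => mul_self_nonneg _] at h
  rw [← b.repr.map_eq_zero_iff, ← Finsupp.support_eq_empty, Finset.eq_empty_iff_forall_notMem]
  intro i hi
  exact Finsupp.mem_support_iff.1 hi (mul_self_eq_zero.1 (h i hi))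

end aux

variable {Y : Type} [Fintype Y] [DecidableEq Y] {N : ℕ}

open Classical in
/-- The inner product for which the words are orthonormal. -/
noncomputable def lvT (Y : Type) : T Y →ₗ[ℚ] T Y →ₗ[ℚ] ℚ :=
  (MonoidAlgebra.basis (FreeMonoid Y) ℚ).toDual

omit [Fintype Y] in
lemma lvT_wd (u w : List Y) : lvT Y (wd u) (wd w) = if u = w then 1 else 0 := by
  classical
  have h := (MonoidAlgebra.basis (FreeMonoid Y) ℚ).toDual_apply (FreeMonoid.ofList u)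
    (FreeMonoid.ofList w)
  by_cases e : u = w
  · rw [if_pos e]
    rw [if_pos (congrArg _ e)] at h
    exact h
  · rw [if_neg e]
    rw [if_neg fun e' => e (FreeMonoid.ofList.injective e')] at h
    exact h

omit [Fintype Y] [DecidableEq Y] in
lemma lvT_symm (s t : T Y) : lvT Y s t = lvT Y t s := by
  classical
  exact lv_dual_symm _ s t

omit [Fintype Y] [DecidableEq Y] in
lemma lvT_nonneg (s : T Y) : 0 ≤ lvT Y s s := by
  classical
  exact lv_dual_nonneg _ s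

omit [Fintype Y] [DecidableEq Y] in
lemma lvT_zero {s : T Y} (h : lvT Y s s = 0) : s = 0 := by
  classical
  exact lv_dual_zero _ h

omit [Fintype Y] in
lemma lvT_cons (a c : Y) (s t : T Y) :
    lvT Y (gx a * s) (gx c * t) = if a = c then lvT Y s t else 0 := by
  have h : ((lvT Y) ∘ₗ LinearMap.mulLeft ℚ (gx a)).compl₂ (LinearMap.mulLeft ℚ (gx c)) =
      if a = c then lvT Y else 0 := by
    refine T_ext fun u => T_ext fun w => ?_
    simp only [LinearMap.compl₂_apply, LinearMap.comp_apply, LinearMap.mulLeft_apply, ← wd_cons,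
      lvT_wd]
    by_cases e : a = c
    · simp [e, lvT_wd]
    · simp [e]
  have h2 := LinearMap.congr_fun (LinearMap.congr_fun h s) t
  simp only [LinearMap.compl₂_apply, LinearMap.comp_apply, LinearMap.mulLeft_apply] at h2
  rw [h2]
  split_ifs <;> rfl

omit [Fintype Y] in
lemma lvT_one (c : Y) (t : T Y) : lvT Y 1 (gx c * t) = 0 := by
  refine T_ext' (f := lvT Y 1 ∘ₗ LinearMap.mulLeft ℚ (gx c)) (g := 0) (fun w => ?_) t
  rw [LinearMap.comp_apply, LinearMap.mulLeft_apply, ← wd_cons, ← wd_nil, lvT_wd]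
  simp

lemma lv_dm_cons (f : Matrix Y Y ℚ) (a : Y) (u : List Y) :
    dm f (wd (a :: u)) = ∑ b, f b a • (gx b * wd u) + gx a * dm f (wd u) := by
  rw [wd_cons, dm_der f, dm_gx, Finset.sum_mul]
  simp only [smul_mul_assoc]

lemma lvT_dm (f : Matrix Y Y ℚ) (s t : T Y) :
    lvT Y (dm f s) t = lvT Y s (dm f.transpose t) := by
  have key : ∀ u w : List Y, lvT Y (dm f (wd u)) (wd w) = lvT Y (wd u) (dm f.transpose (wd w)) := by
    intro u
    induction u with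
    | nil =>
      intro w
      rw [wd_nil, (dm_der f).one, map_zero, LinearMap.zero_apply]
      cases w with
      | nil => rw [wd_nil, (dm_der _).one, map_zero]
      | cons c w =>
        rw [lv_dm_cons]
        simp only [map_add, map_sum, map_smul, lvT_one, smul_zero, Finset.sum_const_zero, add_zero]
    | cons a u ih =>
      intro w
      cases w with
      | nil =>
        rw [wd_nil, (dm_der _).one, map_zero, lvT_symm, lv_dm_cons]
        simp only [map_add, map_sum, map_smul, lvT_one, smul_zero, Finset.sum_const_zero, add_zero]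
      | cons c w =>
        rw [lv_dm_cons, lv_dm_cons, wd_cons, wd_cons]
        simp only [map_add, map_sum, map_smul, LinearMap.add_apply, LinearMap.sum_apply,
          LinearMap.smul_apply, lvT_cons, ih, Matrix.transpose_apply, smul_eq_mul, mul_ite,
          mul_zero, Finset.sum_ite_eq', Finset.sum_ite_eq, Finset.mem_univ, if_true]
  have h : (lvT Y ∘ₗ dm f) = (lvT Y).compl₂ (dm f.transpose) :=
    T_ext fun u => T_ext fun w => key u w
  exact LinearMap.congr_fun (LinearMap.congr_fun h s) t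

/-- The inner product on families. -/
noncomputable def lvZ (Y : Type) [Fintype Y] : (Y → T Y) →ₗ[ℚ] (Y → T Y) →ₗ[ℚ] ℚ :=
  ∑ a, ((lvT Y) ∘ₗ LinearMap.proj a).compl₂ (LinearMap.proj a)

omit [DecidableEq Y] in
lemma lvZ_apply (v w : Y → T Y) : lvZ Y v w = ∑ a, lvT Y (v a) (w a) := by
  simp [lvZ, LinearMap.sum_apply]

/-- The values on the generators. -/
noncomputable def lvE (Y : Type) : Module.End ℚ (T Y) →ₗ[ℚ] (Y → T Y) :=
  LinearMap.pi fun a => LinearMap.applyₗ (gx a)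

omit [Fintype Y] [DecidableEq Y] in
lemma lvE_apply (D : Module.End ℚ (T Y)) (a : Y) : lvE Y D a = D (gx a) := rfl

omit [Fintype Y] [DecidableEq Y] in
lemma lv_der {D : Module.End ℚ (T Y)} (h : IsDer D) : derl (lvE Y D) = D :=
  (isDer_der _).ext h fun _ => der_gx _ _

/-- The action on families. -/
noncomputable def lvA (Y : Type) [Fintype Y] [DecidableEq Y] :
    Matrix Y Y ℚ →ₗ[ℚ] Module.End ℚ (Y → T Y) where
  toFun f := lvE Y ∘ₗ (LieAlgebra.ad ℚ _ (dm f)) ∘ₗ derl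
  map_add' f g := by
    refine LinearMap.ext fun v => ?_
    simp [map_add]
  map_smul' c f := by
    refine LinearMap.ext fun v => ?_
    simp [map_smul]

lemma lvA_apply (f : Matrix Y Y ℚ) (v : Y → T Y) : lvA Y f v = lvE Y ⁅dm f, derl v⁆ := rfl

lemma lvA_E (f : Matrix Y Y ℚ) {D : Module.End ℚ (T Y)} (h : IsDer D) :
    lvA Y f (lvE Y D) = lvE Y ⁅dm f, D⁆ := by
  rw [lvA_apply, lv_der h]

lemma lvA_lie (f g : Matrix Y Y ℚ) : lvA Y ⁅f, g⁆ = ⁅lvA Y f, lvA Y g⁆ := by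
  refine LinearMap.ext fun v => ?_
  have hv : IsDer (derl v) := isDer_der v
  rw [LieRing.of_associative_ring_bracket (lvA Y f), LinearMap.sub_apply, Module.End.mul_apply,
    Module.End.mul_apply, lvA_apply g, lvA_apply f v, lvA_E f ((dm_der g).lie hv),
    lvA_E g ((dm_der f).lie hv), lvA_apply, LieHom.map_lie, lie_lie, map_sub]

lemma lvA_val (f : Matrix Y Y ℚ) (v : Y → T Y) (a : Y) :
    lvA Y f v a = dm f (v a) - ∑ b, f b a • v b := by
  rw [lvA_apply, lvE_apply, LieRing.of_associative_ring_bracket, LinearMap.sub_apply,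
    Module.End.mul_apply, Module.End.mul_apply, dm_gx, map_sum]
  simp only [map_smul]
  have h : ∀ b, derl v (gx b) = v b := fun b => der_gx _ _
  simp only [h]

lemma lvA_adj (f : Matrix Y Y ℚ) (v w : Y → T Y) :
    lvZ Y (lvA Y f v) w = lvZ Y v (lvA Y f.transpose w) := by
  simp only [lvZ_apply, lvA_val, map_sub, map_sum, map_smul, LinearMap.sub_apply,
    LinearMap.sum_apply, LinearMap.smul_apply, lvT_dm, Finset.sum_sub_distrib,
    Matrix.transpose_apply]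
  rw [Finset.sum_comm]

lemma lv_step {S : LieSubalgebra ℚ (Matrix Y Y ℚ)} (hS : Red S)
    (m : LieSubalgebra ℚ (Module.End ℚ (TT Y N))) (hm : ∀ z ∈ m, z ∈ DD Y N ∧ z ∈ FD Y N 1)
    (hSm : ∀ f ∈ S, ∀ z ∈ m, ⁅dmT N f, z⁆ ∈ m) (g : LieSubalgebra ℚ (Module.End ℚ (TT Y N)))
    {k : ℕ} (hg : ∀ f ∈ S, ∃ D ∈ g, D - dmT N f ∈ m ∧ D - dmT N f ∈ FD Y N (k + 1)) :
    ∃ z ∈ m, ∀ f ∈ S, ∃ D ∈ g, (Ad (expU z)).1 D - dmT N f ∈ m ∧
      (Ad (expU z)).1 D - dmT N f ∈ FD Y N (k + 2) := by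
  classical
  let mk : Submodule ℚ (Module.End ℚ (TT Y N)) := m.toSubmodule ⊓ FD Y N (k + 1)
  let ev : Module.End ℚ (TT Y N) →ₗ[ℚ] (Y → T Y) := lvE Y ∘ₗ cp N (k + 1)
  have hdD : ∀ f : Matrix Y Y ℚ, dmT N f ∈ DD Y N := fun f => (dmT_LD f).1
  have hev : ∀ (f : Matrix Y Y ℚ), ∀ D ∈ m, lvA Y f (ev D) = ev ⁅dmT N f, D⁆ := by
    intro f D hD
    simp only [ev, LinearMap.comp_apply]
    rw [lvA_E f (cp_der _ _), cp_dmT_lie f (hm D hD).1]
  have hev0 : ∀ D ∈ m, D ∈ FD Y N (k + 2) → ev D = 0 := by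
    intro D hD h2
    simp only [ev, LinearMap.comp_apply]
    rw [(cp_FD (hm D hD).1).1 h2 (k + 1) (by omega), map_zero]
  have hev1 : ∀ D ∈ mk, ev D = 0 → D ∈ FD Y N (k + 2) := by
    intro D hD h2
    rw [cp_FD (hm D hD.1).1]
    intro d hd
    rcases Nat.lt_succ_iff_lt_or_eq.1 hd with h3 | rfl
    · exact (cp_FD (hm D hD.1).1).1 hD.2 d h3
    · rw [← lv_der (cp_der (k + 1) D)]
      exact (congrArg derl h2).trans (map_zero _)
  have hlie : ∀ f ∈ S, ∀ D ∈ mk, ⁅dmT N f, D⁆ ∈ mk := by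
    intro f hf D hD
    refine ⟨hSm f hf D hD.1, ?_⟩
    have h2 := FD_lie (DD_FD0 (hdD f)) hD.2
    rwa [zero_add] at h2
  have hmm : ∀ D ∈ m, ∀ D' ∈ mk, ⁅D, D'⁆ ∈ m ∧ ⁅D, D'⁆ ∈ FD Y N (k + 2) := by
    intro D hD D' hD'
    refine ⟨m.lie_mem hD hD'.1, ?_⟩
    have h2 := FD_lie (hm D hD).2 hD'.2
    rwa [show 1 + (k + 1) = k + 2 by omega] at h2
  have hmm' : ∀ D ∈ mk, ∀ D' ∈ mk, ⁅D, D'⁆ ∈ mk := fun D hD D' hD' =>
    ⟨(hmm D hD.1 D' hD').1, FD_mono (by omega) (hmm D hD.1 D' hD').2⟩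
  obtain ⟨y, hy⟩ := lv_choice S.toSubmodule
    (mk.comap (LinearMap.snd ℚ _ _) ⊓ g.toSubmodule.comap
      ((dmT N).toLinearMap ∘ₗ LinearMap.fst ℚ _ _ + LinearMap.snd ℚ _ _)) (by
    intro f hf
    obtain ⟨D, hD, h2⟩ := hg f hf
    refine ⟨D - dmT N f, h2, ?_⟩
    change dmT N f + (D - dmT N f) ∈ g
    rwa [add_sub_cancel])
  have hy1 : ∀ f ∈ S, y f ∈ mk := fun f hf => (hy f hf).1
  have hy2 : ∀ f ∈ S, dmT N f + y f ∈ g := fun f hf => (hy f hf).2
  obtain ⟨_, ⟨z, hz, rfl⟩, hw⟩ := whitehead hS (lvZ Y)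
    (fun v w => by simp only [lvZ_apply, lvT_symm (v _)])
    (fun v => by
      rw [lvZ_apply]
      exact Finset.sum_nonneg fun a _ => lvT_nonneg _)
    (fun v hv => by
      rw [lvZ_apply, Finset.sum_eq_zero_iff_of_nonneg fun a _ => lvT_nonneg _] at hv
      exact funext fun a => lvT_zero (hv a (Finset.mem_univ a)))
    (lvA Y) lvA_lie lvA_adj (Z0 := mk.map ev) (Z1 := (g.toSubmodule ⊓ mk).map ev)
    (Submodule.map_mono inf_le_right)
    (by
      rintro f hf _ ⟨D, hD, rfl⟩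
      exact ⟨_, hlie f hf D hD, (hev f D hD.1).symm⟩)
    (by
      rintro f hf _ ⟨D, hD, rfl⟩
      refine ⟨⁅dmT N f + y f, D⁆, ⟨g.lie_mem (hy2 f hf) hD.1, ?_⟩, ?_⟩
      · rw [add_lie]
        exact mk.add_mem (hlie f hf D hD.2) (hmm' _ (hy1 f hf) _ hD.2)
      · have h2 := hmm _ (hy1 f hf).1 _ hD.2
        rw [add_lie, map_add, hev0 _ h2.1 h2.2, add_zero, hev f D hD.2.1])
    (ev ∘ₗ y) (fun f hf => ⟨_, hy1 f hf, rfl⟩)
    (by
      intro f hf f' hf'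
      have e : dmT N ⁅f, f'⁆ + y ⁅f, f'⁆ - ⁅dmT N f + y f, dmT N f' + y f'⁆ =
          y ⁅f, f'⁆ - (⁅dmT N f, y f'⁆ - ⁅dmT N f', y f⁆) - ⁅y f, y f'⁆ := by
        rw [LieHom.map_lie, add_lie, lie_add, lie_add, ← lie_skew (y f) (dmT N f')]
        abel
      refine ⟨dmT N ⁅f, f'⁆ + y ⁅f, f'⁆ - ⁅dmT N f + y f, dmT N f' + y f'⁆,
        ⟨g.sub_mem (hy2 _ (S.lie_mem hf hf')) (g.lie_mem (hy2 f hf) (hy2 f' hf')), ?_⟩, ?_⟩
      · rw [e]
        exact mk.sub_mem (mk.sub_mem (hy1 _ (S.lie_mem hf hf'))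
          (mk.sub_mem (hlie f hf _ (hy1 f' hf')) (hlie f' hf' _ (hy1 f hf))))
          (hmm' _ (hy1 f hf) _ (hy1 f' hf'))
      · have h2 := hmm _ (hy1 f hf).1 _ (hy1 f' hf')
        simp only [LinearMap.comp_apply]
        rw [e, map_sub, hev0 _ h2.1 h2.2, sub_zero, map_sub, map_sub, hev f _ (hy1 f' hf').1,
          hev f' _ (hy1 f hf).1])
  refine ⟨z, hz.1, fun f hf => ?_⟩
  obtain ⟨D1, hD1, h1⟩ := hw f hf
  refine ⟨dmT N f + y f - D1, g.sub_mem (hy2 f hf) hD1.1, ?_⟩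
  let m2 : Submodule ℚ (Module.End ℚ (TT Y N)) := m.toSubmodule ⊓ FD Y N (k + 2)
  have hn : IsNilpotent z := FD_nil (hm z hz.1).2
  have h2 : y f - D1 ∈ mk := mk.sub_mem (hy1 f hf) hD1.2
  have h3 : y f - D1 - ⁅dmT N f, z⁆ ∈ m2 := by
    have h4 : y f - D1 - ⁅dmT N f, z⁆ ∈ mk := mk.sub_mem h2 (hlie f hf z hz)
    refine ⟨h4.1, hev1 _ h4 ?_⟩
    rw [map_sub, map_sub, h1, ← hev f z hz.1]
    simp only [LinearMap.comp_apply]
    abel
  have e1 : ⁅z, dmT N f + y f - D1⁆ = ⁅z, y f - D1⁆ - ⁅dmT N f, z⁆ := by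
    rw [add_sub_assoc, lie_add, ← lie_skew z (dmT N f)]
    abel
  have h4 : ⁅z, dmT N f + y f - D1⁆ ∈ mk := by
    rw [e1]
    exact mk.sub_mem (hmm' z hz _ h2) (hlie f hf z hz)
  have h5 := exp_sub_sub_mem (nil_ad hn) (S := m2)
    (fun x hx => hmm z hz.1 x ⟨hx.1, FD_mono (by omega) hx.2⟩)
    (x := dmT N f + y f - D1) (hmm z hz.1 _ h4)
  rw [← Ad_expU hn, LieAlgebra.ad_apply, e1] at h5
  have h6 := m2.add_mem (m2.add_mem h5 h3) (hmm z hz.1 _ h2)
  have e2 : (Ad (expU z)).1 (dmT N f + y f - D1) - (dmT N f + y f - D1) -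
      (⁅z, y f - D1⁆ - ⁅dmT N f, z⁆) + (y f - D1 - ⁅dmT N f, z⁆) + ⁅z, y f - D1⁆ =
      (Ad (expU z)).1 (dmT N f + y f - D1) - dmT N f := by abel
  rw [e2] at h6
  exact h6

theorem levi {S : LieSubalgebra ℚ (Matrix Y Y ℚ)} (hS : Red S)
    (m : LieSubalgebra ℚ (Module.End ℚ (TT Y N))) (hm : ∀ z ∈ m, z ∈ DD Y N ∧ z ∈ FD Y N 1)
    (hSm : ∀ f ∈ S, ∀ z ∈ m, ⁅dmT N f, z⁆ ∈ m) (g : LieSubalgebra ℚ (Module.End ℚ (TT Y N)))
    (hg : ∀ f ∈ S, ∃ D ∈ g, D - dmT N f ∈ m) :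
    ∃ zs : List (Module.End ℚ (TT Y N)), (∀ z ∈ zs, z ∈ m) ∧
      ∀ f ∈ S, ∃ D ∈ g, (Ad (expL zs)).1 D = dmT N f := by
  have key : ∀ k : ℕ, ∃ zs : List (Module.End ℚ (TT Y N)), (∀ z ∈ zs, z ∈ m) ∧
      ∀ f ∈ S, ∃ D ∈ g, (Ad (expL zs)).1 D - dmT N f ∈ m ∧
        (Ad (expL zs)).1 D - dmT N f ∈ FD Y N (k + 1) := by
    intro k
    induction k with
    | zero =>
      refine ⟨[], by simp, fun f hf => ?_⟩
      obtain ⟨D, hD, h⟩ := hg f hf
      refine ⟨D, hD, ?_⟩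
      rw [expL_nil, Ad_one]
      exact ⟨h, (hm _ h).2⟩
    | succ k ih =>
      obtain ⟨zs, h1, h2⟩ := ih
      obtain ⟨z, hz, h3⟩ := lv_step hS m hm hSm (g.map (AdL (expL zs))) (k := k) (by
        intro f hf
        obtain ⟨D, hD, h⟩ := h2 f hf
        exact ⟨_, ⟨D, hD, rfl⟩, h⟩)
      refine ⟨z :: zs, ?_, fun f hf => ?_⟩
      · intro x hx
        rcases List.mem_cons.1 hx with rfl | hx
        · exact hz
        · exact h1 x hx
      · obtain ⟨_, ⟨D, hD, rfl⟩, h⟩ := h3 f hf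
        refine ⟨D, hD, ?_⟩
        rw [expL_cons, Ad_mul]
        exact h
  obtain ⟨zs, h1, h2⟩ := key N
  refine ⟨zs, h1, fun f hf => ?_⟩
  obtain ⟨D, hD, h3, h4⟩ := h2 f hf
  exact ⟨D, hD, sub_eq_zero.1 (DD_top (hm _ h3).1 (FD_mono (Nat.le_succ N) h4))⟩

/-- The form with generators. -/
theorem levi_gen {ι : Type} (f : ι → Matrix Y Y ℚ) (e : ι → Module.End ℚ (TT Y N)) (I : Set ι)
    (hS : Red (LieSubalgebra.lieSpan ℚ _ (f '' I)))
    (m : LieSubalgebra ℚ (Module.End ℚ (TT Y N))) (hm : ∀ z ∈ m, z ∈ DD Y N ∧ z ∈ FD Y N 1)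
    (hSm : ∀ i ∈ I, ∀ z ∈ m, ⁅dmT N (f i), z⁆ ∈ m) (he : ∀ i ∈ I, e i - dmT N (f i) ∈ m) :
    ∃ zs : List (Module.End ℚ (TT Y N)), (∀ z ∈ zs, z ∈ m) ∧
      ∀ s ∈ LieSubalgebra.lieSpan ℚ _ (f '' I),
        dmT N s ∈ LieSubalgebra.lieSpan ℚ _ ((fun i => (Ad (expL zs)).1 (e i)) '' I) := by
  have h1 : ∀ s ∈ LieSubalgebra.lieSpan ℚ _ (f '' I), ∀ z ∈ m, ⁅dmT N s, z⁆ ∈ m := by
    intro s hs
    induction hs using LieSubalgebra.lieSpan_induction with
    | mem x hx =>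
      obtain ⟨i, hi, rfl⟩ := hx
      exact hSm i hi
    | zero => intro z _; rw [map_zero, zero_lie]; exact m.zero_mem
    | add x y _ _ hx hy =>
      intro z hz
      rw [map_add, add_lie]
      exact m.add_mem (hx z hz) (hy z hz)
    | smul a x _ hx =>
      intro z hz
      rw [map_smul, smul_lie]
      exact m.smul_mem a (hx z hz)
    | lie x y _ _ hx hy =>
      intro z hz
      rw [LieHom.map_lie, lie_lie]
      exact m.sub_mem (hx _ (hy z hz)) (hy _ (hx z hz))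
  have h2 : ∀ s ∈ LieSubalgebra.lieSpan ℚ _ (f '' I),
      ∃ D ∈ LieSubalgebra.lieSpan ℚ _ (e '' I), D - dmT N s ∈ m := by
    intro s hs
    induction hs using LieSubalgebra.lieSpan_induction with
    | mem x hx =>
      obtain ⟨i, hi, rfl⟩ := hx
      exact ⟨e i, LieSubalgebra.subset_lieSpan ⟨i, hi, rfl⟩, he i hi⟩
    | zero => exact ⟨0, LieSubalgebra.zero_mem _, by rw [map_zero, sub_zero]; exact m.zero_mem⟩
    | add x y _ _ hx hy =>
      obtain ⟨D, hD, hx⟩ := hx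
      obtain ⟨D', hD', hy⟩ := hy
      refine ⟨D + D', LieSubalgebra.add_mem _ hD hD', ?_⟩
      rw [map_add, add_sub_add_comm]
      exact m.add_mem hx hy
    | smul a x _ hx =>
      obtain ⟨D, hD, hx⟩ := hx
      refine ⟨a • D, LieSubalgebra.smul_mem _ a hD, ?_⟩
      rw [map_smul, ← smul_sub]
      exact m.smul_mem a hx
    | lie x y hx' hy' hx hy =>
      obtain ⟨D, hD, hx⟩ := hx
      obtain ⟨D', hD', hy⟩ := hy
      refine ⟨⁅D, D'⁆, LieSubalgebra.lie_mem _ hD hD', ?_⟩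
      have e1 : ⁅D, D'⁆ - dmT N ⁅x, y⁆ = ⁅dmT N x, D' - dmT N y⁆ - ⁅dmT N y, D - dmT N x⁆ +
          ⁅D - dmT N x, D' - dmT N y⁆ := by
        rw [LieHom.map_lie]
        simp only [LieRing.of_associative_ring_bracket]
        noncomm_ring
      rw [e1]
      exact m.add_mem (m.sub_mem (h1 x hx' _ hy) (h1 y hy' _ hx)) (m.lie_mem hx hy)
  obtain ⟨zs, h3, h4⟩ := levi hS m hm h1 _ h2
  refine ⟨zs, h3, fun s hs => ?_⟩
  obtain ⟨D, hD, h5⟩ := h4 s hs
  rw [← h5]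
  have h6 : LieSubalgebra.lieSpan ℚ _ (e '' I) ≤ (LieSubalgebra.lieSpan ℚ _
      ((fun i => (Ad (expL zs)).1 (e i)) '' I)).comap (AdL (expL zs)) := by
    rw [LieSubalgebra.lieSpan_le]
    rintro _ ⟨i, hi, rfl⟩
    exact LieSubalgebra.subset_lieSpan ⟨i, hi, rfl⟩
  exact h6 hD

end Pool.Agent.Lib.MP_f9c34c_al.G
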