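import Pool.Agent.Lib.MP_f9c34c_al.G.Par
import Pool.Agent.Lib.MP_f9c34c_al.G.Cls
import Pool.Agent.Lib.MP_f9c34c_al.G.Levi

/-! Normalized realizations. -/

namespace Pool.Agent.Lib.MP_f9c34c_al.G

attribute [local instance 100] LieRing.ofAssociativeRing

set_option maxRecDepth 4000

lemma good_Ad_sub {l : List E17} {S : Submodule ℚ E17} {x : E17}
    (h : ∀ a ∈ l, IsNilpotent a ∧ (∀ b ∈ S, ⁅a, b⁆ ∈ S) ∧ ⁅a, x⁆ ∈ S) :
    (Ad (expL l)).1 x - x ∈ S := by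
  induction l with
  | nil =>
    rw [expL_nil, Ad_one, sub_self]
    exact zero_mem _
  | cons a l ih =>
    obtain ⟨⟨h1, h2, h3⟩, h4⟩ := List.forall_mem_cons.1 h
    have e1 := Ad_expU_mem h1 h2 (ih h4)
    have e2 := exp_sub_mem (nil_ad h1) (S := S) h2 (x := x) h3
    rw [← Ad_expU h1] at e2
    have e3 := add_mem e1 e2
    rwa [map_sub, sub_add_sub_cancel, ← Ad_mul, ← expL_cons] at e3

lemma good_e_gen (R : Real) {I : Set (Fin 5)} {i : Fin 5} (hi : i ∈ I) : R.e i ∈ R.gen I :=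
  LieSubalgebra.subset_lieSpan ⟨i, hi, rfl⟩

lemma good_fm {I : Set (Fin 5)} {i : Fin 5} (hi : i ∈ I) : fm i ∈ SS I :=
  LieSubalgebra.subset_lieSpan ⟨i, hi, rfl⟩

lemma good_FD (R : Real) (i : Fin 5) : R.e i - dmT 17 (fm i) ∈ FD X 17 1 :=
  (cp_FD (sub_mem (R.e_DD i) (dmT_LD _).1)).2 fun d hd => by
    obtain rfl : d = 0 := by omega
    rw [map_sub, R.e0, cp_dmT _ (by norm_num), if_pos rfl, sub_self]

/-- One normalization step. -/
lemma good_step (R : Real) (I : Set (Fin 5)) (hI : Red (SS I)) (m : LieSubalgebra ℚ E17)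
    (hm : ∀ z ∈ m, z ∈ Sym ∧ z ∈ FD X 17 1) (hSm : ∀ i ∈ I, ∀ z ∈ m, ⁅dmT 17 (fm i), z⁆ ∈ m)
    (he : ∀ i ∈ I, R.e i - dmT 17 (fm i) ∈ m) :
    ∃ (R' : Real) (zs : List E17), (∀ z ∈ zs, z ∈ m) ∧ (∀ i, R'.e i = (Ad (expL zs)).1 (R.e i)) ∧
      ∀ f ∈ SS I, dmT 17 f ∈ R'.gen I := by
  obtain ⟨zs, h1, h2⟩ := levi_gen fm R.e I hI m (fun z hz => ⟨Sym_DD (hm z hz).1, (hm z hz).2⟩)
    hSm he
  obtain ⟨R', h3⟩ := R.conj (zs := zs) fun z hz => hm z (h1 z hz)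
  refine ⟨R', zs, h1, h3, fun f hf => ?_⟩
  have e : R'.e = fun i => (Ad (expL zs)).1 (R.e i) := funext h3
  rw [Real.gen, e]
  exact h2 f hf

/-- Symplectic derivations of positive degree. -/
noncomputable def goodP : LieSubalgebra ℚ E17 :=
  { Sym.toSubmodule ⊓ FD X 17 1 with
    lie_mem' := fun h h' => ⟨Sym.lie_mem h.1 h'.1, FD_mono (by norm_num) (FD_lie h.2 h'.2)⟩ }

lemma exists_real_S : ∃ R : Real, ∀ f ∈ SS Set.univ, dmT 17 f ∈ R.gen Set.univ := by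
  obtain ⟨R⟩ := exists_real
  obtain ⟨R', -, -, -, h⟩ := good_step R Set.univ red_univ goodP (fun z hz => hz)
    (fun i hi z hz => ⟨Sym.lie_mem (dmT_Sym (good_fm hi)) hz.1,
      FD_mono (by norm_num) (FD_lie (DD_FD0 (dmT_LD (fm i)).1) hz.2)⟩)
    fun i hi => ⟨Sym.sub_mem (R.eS i) (dmT_Sym (good_fm hi)), good_FD R i⟩
  exact ⟨R', h⟩

lemma good_dv_zero : dv (0 : Module.End ℚ T4) = 0 := by simp [dv]

lemma good_Cm {s : T4} (h : s ∈ Cm X) : s ∈ RR :=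
  Submodule.mem_sup_left (Submodule.mem_sup_left (Submodule.mem_sup_right h))

lemma good_r (R : Real) (hS : ∀ f ∈ SS Set.univ, dmT 17 f ∈ R.gen Set.univ) {k : ℕ} (h1 : 1 ≤ k)
    (hk : k < 17) : sec 17 k R.r ∈ RR := by
  rcases h1.eq_or_lt with rfl | h2
  · exact Submodule.mem_sup_right (sec_mem 1 _)
  have key : ∀ f ∈ SS Set.univ, dm f (sec 17 k R.r) ∈ Cm X := fun f hf => by
    have e := (R.gen_AA (hS f hf)).2 k h2 hk
    rw [cp_dmT f hk, if_neg (by omega), good_dv_zero, zero_sub, sec_apply (dmT_LD f).1 hk.le,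
      Finset.sum_eq_single 0 (fun i hi h0 => by
        rw [cp_dmT f (by have := Finset.mem_range.1 hi; omega), if_neg h0, LinearMap.zero_apply])
        (by simp), cp_dmT f (by norm_num), if_pos rfl, Nat.sub_zero] at e
    exact neg_mem_iff.1 e
  rcases cls h2 (sec_mem k R.r) key with h | ⟨-, h⟩
  · exact good_Cm h
  · refine Submodule.mem_sup_left (cls_sup le_sup_left (le_sup_of_le_right ?_) h)
    refine Submodule.span_le.2 ?_
    rintro _ rfl
    exact Submodule.subset_span ⟨om, 1, (mul_one _).symm⟩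

lemma good_fT (R : Real) (hS : ∀ f ∈ SS Set.univ, dmT 17 f ∈ R.gen Set.univ) (w : F5) {D : E17}
    (h : D ∈ R.gen Set.univ) : (Ad (fT w)).1 D ∈ R.gen Set.univ := by
  refine Ad_fT_mem (I := Set.univ) (P := (R.gen Set.univ).toSubmodule)
    (fun i hi D hD => (R.gen Set.univ).lie_mem (hS _ (good_fm hi)) hD) ?_ h
  have e : {x : F5 | ∃ i ∈ (Set.univ : Set (Fin 5)), x = FreeGroup.of i} =
      Set.range FreeGroup.of := by
    ext x
    simp [eq_comm]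
  rw [e, FreeGroup.closure_range_of]
  trivial

lemma good_K4 (R : Real) (hS : ∀ f ∈ SS Set.univ, dmT 17 f ∈ R.gen Set.univ) (d : ℕ) :
    d ≤ 15 → ∀ D ∈ R.gen Set.univ, D ∈ FD X 17 1 → cp 17 d D ∈ K4 d := by
  induction d using Nat.strong_induction_on with
  | _ d ih =>
  intro hd
  have key : ∀ D ∈ R.gen Set.univ, D ∈ FD X 17 1 → dv (cp 17 d D) ∈ RR := fun D h h1 => by
    have h0 := Sym_DD (R.gen_Sym h)
    have c0 := (cp_FD h0).1 h1 0 one_pos
    rcases Nat.lt_or_ge d 2 with h2 | h2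
    · interval_cases d
      · rw [c0, good_dv_zero]
        exact zero_mem _
      · exact Submodule.mem_sup_right (dv_hom (cp_hom 1 D))
    have e := good_Cm ((R.gen_AA h).2 d h2 (by omega))
    refine (Submodule.sub_mem_iff_left _ ?_).1 e
    rw [sec_apply h0 (by omega)]
    refine Submodule.sum_mem _ fun i hi => ?_
    have h3 := Finset.mem_range.1 hi
    rcases Nat.eq_zero_or_pos i with rfl | h4
    · rw [c0, LinearMap.zero_apply]
      exact zero_mem _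
    rcases Nat.lt_or_ge i d with h5 | h5
    · exact K4_RR h4 (ih i h5 (by omega) D h h1) (good_r R hS (by omega) (by omega))
    · refine Hom_mem (f := cp 17 i D) (fun w hw => ?_) (sec_mem (d - i) R.r)
      obtain rfl : w = [] := List.length_eq_zero_iff.1 (by omega)
      rw [wd_nil, (cp_der i D).one]
      exact zero_mem _
  intro D h h1
  refine ⟨Sym_cp (R.gen_Sym h) hd, fun o => R.odd_IIc hS h o, fun w => ?_⟩
  rw [← cp_fT w (Sym_DD (R.gen_Sym h))]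
  exact key _ (good_fT R hS w h) (FD_Ad (fT_FD w) h1)

lemma Real.gen_KK (R : Real) (hS : ∀ f ∈ SS Set.univ, dmT 17 f ∈ R.gen Set.univ) {D : E17}
    (h : D ∈ R.gen Set.univ) (h1 : D ∈ FD X 17 1) : D ∈ KK :=
  ⟨R.gen_Sym h, h1, fun d hd => good_K4 R hS d hd D h h1⟩

lemma exists_real_K : ∃ R : Real, ∀ i, R.e i - dmT 17 (fm i) ∈ KK := by
  obtain ⟨R, hS⟩ := exists_real_S
  exact ⟨R, fun i => R.gen_KK hS ((R.gen _).sub_mem (good_e_gen R trivial)
    (hS _ (good_fm trivial))) (good_FD R i)⟩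

lemma good_conj {R R' : Real} {zs : List E17} (hK : ∀ i, R.e i - dmT 17 (fm i) ∈ KK)
    (h : ∀ z ∈ zs, z ∈ KK) (e : ∀ i, R'.e i = (Ad (expL zs)).1 (R.e i)) (i : Fin 5) :
    R'.e i - dmT 17 (fm i) ∈ KK := by
  have h1 := good_Ad_sub (l := zs) (S := KK.toSubmodule) (x := R.e i) fun a ha =>
    ⟨FD_nil (h a ha).2.1, fun b hb => KK.lie_mem (h a ha) hb, by
      have := KK.sub_mem (KK.lie_mem (h a ha) (hK i))
        (KK_dmT (good_fm (Set.mem_univ i)) (h a ha))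
      rwa [lie_sub, ← lie_skew (dmT 17 (fm i)), sub_neg_eq_add, sub_add_cancel] at this⟩
  have h2 := KK.add_mem h1 (hK i)
  rwa [sub_add_sub_cancel, ← e] at h2

lemma exists_real_two : ∃ R : Real, (∀ i, R.e i - dmT 17 (fm i) ∈ KK) ∧
    ∀ f ∈ SS {3, 4}, dmT 17 f ∈ R.gen {3, 4} := by
  obtain ⟨R, hK⟩ := exists_real_K
  obtain ⟨R', zs, h1, h2, h3⟩ := good_step R {3, 4} red_two KK (fun z hz => ⟨hz.1, hz.2.1⟩)
    (fun i hi z hz => KK_dmT (good_fm hi) hz) fun i _ => hK i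
  exact ⟨R', good_conj hK h1 h2, h3⟩

lemma good_comm (R : Real) {I : Set (Fin 5)} {x D : E17} (h : D ∈ R.gen I)
    (e : ∀ j ∈ I, ⁅R.e j, x⁆ = 0) : ⁅D, x⁆ = 0 := by
  induction h using LieSubalgebra.lieSpan_induction with
  | mem y hy =>
    obtain ⟨j, hj, rfl⟩ := hy
    exact e j hj
  | zero => exact zero_lie _
  | add y z _ _ hy hz => rw [add_lie, hy, hz, add_zero]
  | smul c y _ hy => rw [smul_lie, hy, smul_zero]
  | lie y z _ _ hy hz => rw [lie_lie, hy, hz, lie_zero, lie_zero, sub_zero]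

lemma good_lt : ∀ i ∈ ({0, 1} : Set (Fin 5)), ∀ j ∈ ({3, 4} : Set (Fin 5)), i.val + 1 < j.val := by
  rintro _ (rfl | rfl) _ (rfl | rfl) <;> decide

lemma good_two (R : Real) (h : ∀ f ∈ SS {3, 4}, dmT 17 f ∈ R.gen {3, 4}) {i : Fin 5}
    (hi : i ∈ ({0, 1} : Set (Fin 5))) (f : Matrix X X ℚ) (hf : f ∈ SS {3, 4}) :
    ⁅dmT 17 f, R.e i - dmT 17 (fm i)⁆ = 0 := by
  rw [lie_sub, good_comm R (h f hf) fun j hj => by
      rw [← lie_skew, R.e_comm (good_lt i hi j hj), neg_zero],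
    ← LieHom.map_lie, ← lie_skew, SS_comm (good_fm hi) hf, neg_zero, map_zero, sub_zero]

lemma good_one (R : Real) (h : ∀ f ∈ SS {0, 1}, dmT 17 f ∈ R.gen {0, 1}) {i : Fin 5}
    (hi : i ∈ ({3, 4} : Set (Fin 5))) (f : Matrix X X ℚ) (hf : f ∈ SS {0, 1}) :
    ⁅dmT 17 f, R.e i - dmT 17 (fm i)⁆ = 0 := by
  rw [lie_sub, good_comm R (h f hf) fun j hj => R.e_comm (good_lt j hj i hi),
    ← LieHom.map_lie, SS_comm hf (good_fm hi), map_zero, sub_zero]

/-- The centralizer of the second handle in the positive part. -/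
noncomputable def goodC : LieSubalgebra ℚ E17 where
  carrier := {D | D ∈ KK ∧ ∀ f ∈ SS {3, 4}, ⁅dmT 17 f, D⁆ = 0}
  add_mem' h h' := ⟨add_mem h.1 h'.1, fun f hf => by rw [lie_add, h.2 f hf, h'.2 f hf, add_zero]⟩
  zero_mem' := ⟨zero_mem _, fun _ _ => lie_zero _⟩
  smul_mem' c _ h := ⟨KK.smul_mem c h.1, fun f hf => by rw [lie_smul, h.2 f hf, smul_zero]⟩
  lie_mem' h h' := ⟨KK.lie_mem h.1 h'.1, fun f hf => by
    rw [leibniz_lie, h.2 f hf, h'.2 f hf, zero_lie, lie_zero, add_zero]⟩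

lemma exists_real_one : ∃ R : Real, (∀ i, R.e i - dmT 17 (fm i) ∈ KK) ∧
    (∀ f ∈ SS {0, 1}, dmT 17 f ∈ R.gen {0, 1}) ∧ ∀ f ∈ SS {3, 4}, dmT 17 f ∈ R.gen {3, 4} := by
  obtain ⟨R, hK, h2⟩ := exists_real_two
  obtain ⟨R', zs, h3, h4, h5⟩ := good_step R {0, 1} red_one goodC (fun z hz => ⟨hz.1.1, hz.1.2.1⟩)
    (fun i hi z hz => ⟨KK_dmT (good_fm hi) hz.1, fun f hf => by
      rw [leibniz_lie, hz.2 f hf, lie_zero, add_zero, ← LieHom.map_lie, ← lie_skew f,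
        SS_comm (good_fm hi) hf, neg_zero, map_zero, zero_lie]⟩)
    fun i hi => ⟨hK i, good_two R h2 hi⟩
  refine ⟨R', good_conj hK (fun z hz => (h3 z hz).1) h4, h5, fun f hf => ?_⟩
  have e := good_Ad_sub (l := zs) (S := ⊥) (x := dmT 17 f) fun a ha =>
    ⟨FD_nil (h3 a ha).1.2.1, fun b hb => by
      rw [(Submodule.mem_bot ℚ).1 hb, lie_zero]
      exact zero_mem _, by
      rw [← lie_skew, (h3 a ha).2 f hf, neg_zero]
      exact zero_mem _⟩
  rw [Submodule.mem_bot, sub_eq_zero] at e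
  have h6 : R.gen {3, 4} ≤ (R'.gen {3, 4}).comap (AdL (expL zs)) := by
    rw [Real.gen, LieSubalgebra.lieSpan_le]
    rintro _ ⟨i, hi, rfl⟩
    have := good_e_gen R' hi
    rwa [h4] at this
  rw [← e]
  exact h6 (h2 f hf)

theorem exists_good : ∃ R : Real, (∀ i, R.e i - dmT 17 (fm i) ∈ KK) ∧
    ∀ i ≠ 2, R.e i - dmT 17 (fm i) ∈ MM := by
  obtain ⟨R, hK, h1, h2⟩ := exists_real_one
  refine ⟨R, hK, fun i hi => ?_⟩
  have : i ∈ ({0, 1} : Set (Fin 5)) ∨ i ∈ ({3, 4} : Set (Fin 5)) := by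
    fin_cases i <;> simp_all
  rcases this with h | h
  · exact MM_of_comm_two (hK i) (good_two R h2 h)
  · exact MM_of_comm_one (hK i) (good_one R h1 h)

end Pool.Agent.Lib.MP_f9c34c_al.G
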