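import Pool.Agent.Lib.MP_f9c34c_al.G.LAD5

/-! Checks of the covectors that use all cells. -/

namespace Pool.Agent.Lib.MP_f9c34c_al.G.LA

theorem B0_ok_5 : stg tbl2 P2 0 149 76 B0 [5] = true := by
  decide +kernel

theorem B0_ok_6 : stg tbl2 P2 0 149 76 B0 [6] = true := by
  decide +kernel

end Pool.Agent.Lib.MP_f9c34c_al.G.LA
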