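import Pool.Agent.Lib.MP_f9c34c_al.G.LASem
import Pool.Agent.Lib.MP_f9c34c_al.G.LAD1
import Pool.Agent.Lib.MP_f9c34c_al.G.LAD2
import Pool.Agent.Lib.MP_f9c34c_al.G.LAD3
import Pool.Agent.Lib.MP_f9c34c_al.G.LAD4
import Pool.Agent.Lib.MP_f9c34c_al.G.LAD6
import Pool.Agent.Lib.MP_f9c34c_al.G.LAD7
import Pool.Agent.Lib.MP_f9c34c_al.G.LAD8
import Pool.Agent.Lib.MP_f9c34c_al.G.LAD9

/-! The linear algebra certificate. -/

namespace Pool.Agent.Lib.MP_f9c34c_al.G

namespace LA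

open Finset Module

variable {A : Type} [CommRing A] [Algebra ℚ A] {p : Fin 5 → A} {φ : Fin 5 → A →ₐ[ℚ] A}

lemma mo_mem {z a b c e : ℕ} (h : z + a + b + c + e = 10) :
    mo (p 0) (p 1) (p 2) (p 3) (p 4) z a b c e ∈ Vn p 10 ∧
      (1 ≤ e → mo (p 0) (p 1) (p 2) (p 3) (p 4) z a b c e ∈ Vp p 10) :=
  ⟨Submodule.subset_span ⟨![z, a, b, c, e], by simpa [Fin.sum_univ_five] using h,
    (mon_mo ..).symm⟩, fun he => Submodule.subset_span ⟨![z, a, b, c, e],
    by simpa [Fin.sum_univ_five] using h, he, (mon_mo ..).symm⟩⟩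

lemma indep {n N : ℕ} (T : (Fin n → Vn p 10) →ₗ[ℚ] Fin 10 → Vn p 10) {tbl : List Ex}
    {P : List (List ℕ)} (hP : P.length = n)
    (hT : ∀ (l : ℕ → A →ₗ[ℚ] ℕ → ℚ) z, ∑ c : Fin 10, l c.val (T z c).1 =
      ∑ r : Fin n, semA φ l (nth .zero r.val tbl) (z r).1)
    (cv : Nat.beq (cvr P) (Nat.sub (Nat.pow 2 N) 1) = true) {J : List ℕ}
    (ok : ∀ r < n, allL (okx (nth 0 r J)) (nth [] r P) = true)
    (good : ∀ α < N, Good p φ tbl P α) :
    ∃ u : Fin N → Fin n → Vn p 10, (∀ κ r, nth 0 r.val J = 1 → (u κ r).1 ∈ Vp p 10) ∧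
      LinearIndependent ℚ fun κ => T (u κ) := by
  have cv : cvr P = 2 ^ N - 1 := Nat.eq_of_beq_eq_true cv
  choose r hr x hx hk using fun κ : Fin N => cvr_mem P κ (by simp [cv])
  have hr' : ∀ κ, r κ < n := fun κ => hP ▸ hr κ
  have ho := fun κ => (okx_iff _ _).1 ((allL_iff _ _).1 (ok _ (hr' κ)) _ (hx κ))
  have hm : ∀ κ, mx p (x κ) ∈ Vn p 10 ∧ (1 ≤ dg (x κ) 12 → mx p (x κ) ∈ Vp p 10) :=
    fun κ => mo_mem (by have := ho κ; omega)
  refine ⟨fun κ => Pi.single ⟨r κ, hr' κ⟩ ⟨mx p (x κ), (hm κ).1⟩, fun κ s hs => ?_,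
    tri _ fun α => ?_⟩
  · by_cases e : s = ⟨r κ, hr' κ⟩
    · subst e
      simp only [Pi.single_eq_same]
      exact (hm κ).2 (hs ▸ (ho κ).1)
    · simp only [Pi.single_eq_of_ne e]
      exact zero_mem _
  · obtain ⟨l, j, h⟩ := good α α.2
    refine ⟨LinearMap.proj j ∘ₗ ∑ c : Fin 10, l c.val ∘ₗ (Vn p 10).subtype ∘ₗ LinearMap.proj c,
      fun κ => ?_⟩
    obtain ⟨k, h1, h2⟩ := h _ (hr κ) _ (hx κ) ((okx_iff _ _).2 ⟨Nat.zero_le _, (ho κ).2⟩)
    refine ⟨k, ?_, fun h => ?_⟩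
    · have := hT l (Pi.single ⟨r κ, hr' κ⟩ ⟨mx p (x κ), (hm κ).1⟩)
      rw [sum_eq_single (⟨r κ, hr' κ⟩ : Fin n) (fun s _ e => by simp [Pi.single_eq_of_ne e])
        (by simp), Pi.single_eq_same] at this
      rw [← h1, ← this]
      simp
    · simpa [hk, Fin.ext_iff] using h2 (hk κ ▸ h)

lemma rank_le (hrel : p 1 * p 2 = p 0 * p 3 + p 4 ^ 2) (j : ℕ) (W : Submodule ℚ A)
    (hW : W ≤ Submodule.span ℚ {x | ∃ e, ∑ c, e c = 10 ∧ j ≤ e 4 ∧ x = mon p e}) :
    Module.Finite ℚ W ∧ finrank ℚ W ≤ ((range 11 ×ˢ range 11 ×ˢ range 11 ×ˢ range 2).filter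
      fun x => x.1 + x.2.1 + x.2.2.1 + (j + x.2.2.2) ≤ 10).card := by
  classical
  set S := (range 11 ×ˢ range 11 ×ˢ range 11 ×ˢ range 2).filter
    fun x => x.1 + x.2.1 + x.2.2.1 + (j + x.2.2.2) ≤ 10 with hS
  let F : ℕ × ℕ × ℕ × ℕ → A := fun x => mo (p 0) (p 1) (p 2) (p 3) (p 4)
    (10 - (x.1 + x.2.1 + x.2.2.1 + (j + x.2.2.2))) x.1 x.2.1 x.2.2.1 (j + x.2.2.2)
  have key : ∀ e z a b c, z + a + b + c + (j + e) = 10 →
      mo (p 0) (p 1) (p 2) (p 3) (p 4) z a b c (j + e) ∈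
        Submodule.span ℚ (S.image F : Set A) := by
    have base : ∀ e < 2, ∀ z a b c, z + a + b + c + (j + e) = 10 →
        mo (p 0) (p 1) (p 2) (p 3) (p 4) z a b c (j + e) ∈
          Submodule.span ℚ (S.image F : Set A) := fun e he z a b c h =>
      Submodule.subset_span (mem_coe.2 (mem_image.2 ⟨(a, b, c, e), by
        simp only [hS, mem_filter, mem_product, mem_range]; omega, by
        simp only [F]; congr 1; omega⟩))
    intro e
    induction e using Nat.twoStepInduction with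
    | zero => exact base 0 (by omega)
    | one => exact base 1 (by omega)
    | more e ih _ =>
      intro z a b c h
      have := sub_mem (ih z (a + 1) (b + 1) c (by omega)) (ih (z + 1) a b (c + 1) (by omega))
      refine Set.mem_of_eq_of_mem (Eq.symm ?_) this
      simp only [mo, ← add_assoc]
      linear_combination (p 0 ^ z * p 1 ^ a * p 2 ^ b * p 3 ^ c * p 4 ^ (j + e)) * hrel
  have hle : W ≤ Submodule.span ℚ (S.image F : Set A) := hW.trans (Submodule.span_le.2 (by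
    rintro _ ⟨e, h1, h2, rfl⟩
    rw [Fin.sum_univ_five] at h1
    have := key (e 4 - j) (e 0) (e 1) (e 2) (e 3) (by omega)
    rw [show j + (e 4 - j) = e 4 by omega] at this
    simpa [mon, mo, Fin.prod_univ_five] using this))
  exact ⟨Submodule.finiteDimensional_of_le hle, (Submodule.finrank_mono hle).trans
    ((finrank_span_finset_le_card _).trans card_image_le)⟩

lemma mul_mem_Vn {n : ℕ} {x : A} (h : x ∈ Vn p n) (c : Fin 5) :
    p c * x ∈ Vn p (n + 1) ∧ p 4 * x ∈ Vp p (n + 1) := by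
  have e : ∀ c e, p c * mon p e = mon p (e + Pi.single c 1) := fun c e => by
    fin_cases c <;> simp [mon, Fin.prod_univ_five, pow_succ] <;> ring
  induction h using Submodule.span_induction with
  | mem x h =>
    obtain ⟨f, h, rfl⟩ := h
    exact ⟨Submodule.subset_span ⟨_, by simp [sum_add_distrib, h], e c f⟩,
      Submodule.subset_span ⟨_, by simp [sum_add_distrib, h], by simp, e 4 f⟩⟩
  | zero => simp
  | add x y _ _ h h' => exact ⟨mul_add (p c) x y ▸ add_mem h.1 h'.1,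
      mul_add (p 4) x y ▸ add_mem h.2 h'.2⟩
  | smul a x _ h => exact ⟨mul_smul_comm a (p c) x ▸ Submodule.smul_mem _ a h.1,
      mul_smul_comm a (p 4) x ▸ Submodule.smul_mem _ a h.2⟩

lemma map_Vp (hφ : ∀ i c, φ i (p c) = ∑ c', (Wm i c c' : ℚ) • p c') {i : Fin 5} (hi : i ≠ 2)
    {x : A} (h : x ∈ Vp p 10) : φ i x ∈ Vp p 10 := by
  have h1 : ∀ c k n x, x ∈ Vn p n → φ i (p c) ^ k * x ∈ Vn p (n + k) := by
    intro c k n x h
    induction k with
    | zero => simpa using h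
    | succ k ih =>
      rw [pow_succ', mul_assoc, hφ i c, sum_mul, ← hφ i c]
      exact sum_mem fun c' _ => smul_mul_assoc (Wm i c c' : ℚ) (p c') _ ▸
        Submodule.smul_mem _ _ (mul_mem_Vn ih c').1
  have h4 : φ i (p 4) = p 4 := by
    rw [hφ]
    fin_cases i <;> simp_all [Wm, Fin.sum_univ_five]
  induction h using Submodule.span_induction with
  | mem x h =>
    obtain ⟨e, h, h', rfl⟩ := h
    rw [Fin.sum_univ_five] at h
    obtain ⟨k, hk⟩ : ∃ k, e 4 = k + 1 := ⟨e 4 - 1, by omega⟩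
    have := (mul_mem_Vn (h1 0 (e 0) _ _ (h1 1 (e 1) _ _ (h1 2 (e 2) _ _ (h1 3 (e 3) _ _
      (h1 4 k 0 1 (Submodule.subset_span ⟨0, by simp, by simp [mon]⟩)))))) 0).2
    rw [show 0 + k + e 3 + e 2 + e 1 + e 0 + 1 = 10 by omega] at this
    refine Set.mem_of_eq_of_mem ?_ this
    simp only [mon, Fin.prod_univ_five, map_mul, map_pow, hk, h4]
    ring
  | zero => simp
  | add x y _ _ h h' => exact map_add (φ i) x y ▸ add_mem h h'
  | smul a x _ h => exact map_smul (φ i) a x ▸ Submodule.smul_mem _ a h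

lemma sum_ten {M : Type} [AddCommMonoid M] (f : Fin 10 → M) :
    ∑ c, f c = f 0 + f 1 + f 2 + f 3 + f 4 + f 5 + f 6 + f 7 + f 8 + f 9 := by
  rw [Fin.sum_univ_castSucc, Fin.sum_univ_castSucc, Fin.sum_univ_eight]
  rfl

section Lin
variable {V : Type} [AddCommGroup V] [Module ℚ V] (ρ : F5 →* Module.End ℚ V)

lemma fox_lin (w : List (Fin 5)) : IsLinearMap ℚ fun v => fox ρ v w := by
  induction w with
  | nil => exact ⟨by simp [fox], by simp [fox]⟩
  | cons i w ih =>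
    exact ⟨fun v v' => by simp only [fox, ih.1, map_add, Pi.add_apply]; abel,
      fun c v => by simp only [fox, ih.2, map_smul, Pi.smul_apply, smul_add]⟩

/-- The first differential as a linear map. -/
def D1 : (Fin 5 → V) →ₗ[ℚ] Fin 10 → V := IsLinearMap.mk' (d1 ρ)
  ⟨fun v v' => funext fun r => by simp only [d1, (fox_lin ρ _).1, Pi.add_apply]; abel,
    fun c v => funext fun r => by simp only [d1, (fox_lin ρ _).2, Pi.smul_apply, smul_sub]⟩

/-- The second differential as a linear map. -/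
def D2 : (Fin 10 → V) →ₗ[ℚ] Fin 10 → V := IsLinearMap.mk' (d2 ρ)
  ⟨fun v v' => funext fun r => by
    simp only [d2, Pi.add_apply, map_add, smul_add, List.sum_map_add],
    fun c v => funext fun r => by
      simp only [d2, Pi.smul_apply, map_smul, List.smul_sum, List.map_map, Function.comp_def,
        smul_comm c]⟩

lemma count {V1 : Submodule ℚ V} [Module.Finite ℚ V] (hV : finrank ℚ V ≤ 506)
    (hV1 : finrank ℚ V1 ≤ 385) (hb : ∀ r, ρ (wg (lhs r)) = ρ (wg (rhs r)))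
    (hs : ∀ i, i ≠ 2 → ∀ x ∈ V1, ρ (FreeGroup.of i) x ∈ V1)
    (u : Fin 1661 → Fin 5 → V) (hu : ∀ κ i, i ≠ 2 → u κ i ∈ V1)
    (hu' : LinearIndependent ℚ fun κ => D1 ρ (u κ))
    (v : Fin 2673 → Fin 10 → V) (hv : ∀ κ r, (rp r).1 ≠ 2 → (rp r).2 ≠ 2 → v κ r ∈ V1)
    (hv' : LinearIndependent ℚ fun κ => D2 ρ (v κ)) : LAst ρ V1 := by
  let W : Fin 10 → Submodule ℚ V := fun r => if (rp r).1 ≠ 2 ∧ (rp r).2 ≠ 2 then V1 else ⊤
  let E : Submodule ℚ (Fin 10 → V) := Submodule.pi Set.univ W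
  have hE : ∀ z : Fin 10 → V, (∀ r, (rp r).1 ≠ 2 → (rp r).2 ≠ 2 → z r ∈ V1) → z ∈ E :=
    fun z h r _ => by
      simp only [W]
      split_ifs with hr
      exacts [h r hr.1 hr.2, trivial]
  have h1 : finrank ℚ E ≤ 4334 := by
    refine (LinearMap.finrank_le_finrank_of_injective (f := LinearMap.pi fun r =>
      (LinearMap.proj r ∘ₗ E.subtype).codRestrict (W r) fun z => z.2 r trivial)
      fun z z' h => Subtype.ext (funext fun r => congrArg Subtype.val (congrFun h r))).trans ?_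
    rw [finrank_pi_fintype]
    refine (sum_le_sum (g := fun r => if (rp r).1 ≠ 2 ∧ (rp r).2 ≠ 2 then 385 else 506)
      fun r _ => ?_).trans (by decide)
    split_ifs with hr
    · exact (congrArg (fun S : Submodule ℚ V => finrank ℚ S) (if_pos hr)).trans_le hV1
    · exact (Submodule.finrank_le _).trans hV
  have h2 := ((D2 ρ).domRestrict E).finrank_range_add_finrank_ker
  have h3 : 2673 ≤ finrank ℚ (LinearMap.range ((D2 ρ).domRestrict E)) := by
    simpa using (LinearIndependent.of_comp (Submodule.subtype _) (v := fun κ =>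
      (⟨D2 ρ (v κ), ⟨v κ, hE _ (hv κ)⟩, rfl⟩ : LinearMap.range ((D2 ρ).domRestrict E)))
      hv').fintype_card_le_finrank
  have h4 : ∀ (v : Fin 5 → V), (∀ i, i ≠ 2 → v i ∈ V1) → ∀ w : List (Fin 5),
      (∀ i ∈ w, i ≠ 2) → fox ρ v w ∈ V1 := by
    intro v hv w
    induction w with
    | nil => exact fun _ => zero_mem _
    | cons i w ih =>
      exact fun h => add_mem (hv i (h i List.mem_cons_self)) (hs i (h i List.mem_cons_self) _
        (ih fun j hj => h j (List.mem_cons_of_mem _ hj)))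
  have h5 : ∀ r, (rp r).1 ≠ 2 → (rp r).2 ≠ 2 → (∀ i ∈ lhs r, i ≠ 2) ∧ ∀ i ∈ rhs r, i ≠ 2 := by
    decide
  have h6 : Submodule.span ℚ (Set.range fun κ => D1 ρ (u κ)) =
      (LinearMap.ker ((D2 ρ).domRestrict E)).map E.subtype := by
    refine Submodule.eq_of_le_of_finrank_le (Submodule.span_le.2 ?_) ?_
    · rintro _ ⟨κ, rfl⟩
      exact ⟨⟨_, hE (d1 ρ (u κ)) fun r a b => sub_mem (h4 _ (hu κ) _ (h5 r a b).1)
        (h4 _ (hu κ) _ (h5 r a b).2)⟩, funext (d2_d1 ρ hb _), rfl⟩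
    · rw [Submodule.finrank_map_subtype_eq, finrank_span_eq_card hu', Fintype.card_fin]
      omega
  intro z hz hz'
  have : z ∈ LinearMap.range (D1 ρ) := by
    refine (Submodule.span_le.2 ?_ : _ ≤ _) (h6.ge ⟨⟨z, hE z hz⟩, funext hz', rfl⟩)
    rintro _ ⟨κ, rfl⟩
    exact ⟨_, rfl⟩
  obtain ⟨v, rfl⟩ := this
  exact ⟨v, fun r => rfl⟩

end Lin

variable {ρ : F5 →* Module.End ℚ (Vn p 10)}

lemma tr1 (hρ : ∀ i v, (ρ (FreeGroup.of i) v).1 = φ i v.1) (l : ℕ → A →ₗ[ℚ] ℕ → ℚ)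
    (z : Fin 5 → Vn p 10) : ∑ c : Fin 10, l c.val (D1 ρ z c).1 =
      ∑ r : Fin 5, semA φ l (nth .zero r.val tbl1) (z r).1 := by
  rw [sum_ten, Fin.sum_univ_five]
  simp [D1, d1, fox, lhs, rhs, rp, tbl1, semA, nth_eq, hρ]
  abel

lemma tr2 (hρ : ∀ i v, (ρ (FreeGroup.of i) v).1 = φ i v.1) (l : ℕ → A →ₗ[ℚ] ℕ → ℚ)
    (z : Fin 10 → Vn p 10) : ∑ c : Fin 10, l c.val (D2 ρ z c).1 =
      ∑ r : Fin 10, semA φ l (nth .zero r.val tbl2) (z r).1 := by
  rw [sum_ten, sum_ten]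
  simp [D2, d2, cells, tbl2, semA, nth_eq, hρ]
  abel

variable (hrel : p 1 * p 2 = p 0 * p 3 + p 4 ^ 2)
  (hind : LinearIndependent ℚ fun e : {e : Fin 5 → ℕ // ∑ c, e c = 10 ∧ e 4 ≤ 1} => mon p e.1)
  (hφ : ∀ i c, φ i (p c) = ∑ c', (Wm i c c' : ℚ) • p c')
include hrel hind hφ

lemma good1 (α : ℕ) (h : α < 1661) : Good p φ tbl1 P1 α := by
  have key : ∀ {k0 m w D}, stg tbl1 P1 k0 m w D [0, 1, 2, 3, 4] = true → 4 ≤ w → k0 ≤ α →
      α < k0 + m → Good p φ tbl1 P1 α := fun h hw => stg_sound hrel hind hφ hw fun r hr =>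
    ⟨_, by have : r < 5 := hr; simp; omega, h⟩
  by_cases h0 : α < 75
  · refine stg_sound hrel hind hφ (k0 := 0) (m := 75) (w := 44) (D := A0) (by omega)
      (fun r hr => ?_) (by omega) (by omega)
    have : r < 5 := hr
    interval_cases r
    exacts [⟨_, by simp, A0_oka⟩, ⟨_, by simp, A0_oka⟩, ⟨_, by simp, A0_okb⟩,
      ⟨_, by simp, A0_okc⟩, ⟨_, by simp, A0_oka⟩]
  by_cases h1 : α < 145
  · exact key A1_ok (by omega) (by omega) (by omega)
  by_cases h2 : α < 461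
  · exact key A2_ok (by omega) (by omega) (by omega)
  by_cases h3 : α < 836
  · exact key A3_ok (by omega) (by omega) (by omega)
  by_cases h4 : α < 1176
  · exact key A4_ok (by omega) (by omega) (by omega)
  exact key A5_ok (by omega) (by omega) (by omega)

lemma good2 (α : ℕ) (h : α < 2673) : Good p φ tbl2 P2 α := by
  have key : ∀ {k0 m w D}, stg tbl2 P2 k0 m w D [0, 1, 2, 3, 4, 5, 6, 7, 8, 9] = true → 4 ≤ w →
      k0 ≤ α → α < k0 + m → Good p φ tbl2 P2 α := fun h hw => stg_sound hrel hind hφ hw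
    fun r hr => ⟨_, by have : r < 10 := hr; simp; omega, h⟩
  by_cases h0 : α < 149
  · refine stg_sound hrel hind hφ (k0 := 0) (m := 149) (w := 76) (D := B0) (by omega)
      (fun r hr => ?_) (by omega) (by omega)
    have : r < 10 := hr
    interval_cases r
    exacts [⟨_, by simp, B0_ok_0⟩, ⟨_, by simp, B0_ok_1⟩, ⟨_, by simp, B0_ok_2⟩,
      ⟨_, by simp, B0_ok_3⟩, ⟨_, by simp, B0_ok_4⟩, ⟨_, by simp, B0_ok_5⟩, ⟨_, by simp, B0_ok_6⟩,
      ⟨_, by simp, B0_ok_7⟩, ⟨_, by simp, B0_ok_8⟩, ⟨_, by simp, B0_ok_9⟩]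
  by_cases h1 : α < 541
  · exact key B1_ok (by omega) (by omega) (by omega)
  by_cases h2 : α < 617
  · exact key B2_ok (by omega) (by omega) (by omega)
  by_cases h3 : α < 928
  · exact key B3_ok (by omega) (by omega) (by omega)
  by_cases h4 : α < 1304
  · exact key B4_ok (by omega) (by omega) (by omega)
  by_cases h5 : α < 1803
  · exact key B5_ok (by omega) (by omega) (by omega)
  by_cases h6 : α < 2174
  · exact key B6_ok (by omega) (by omega) (by omega)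
  exact key B7_ok (by omega) (by omega) (by omega)

end LA

open LA in
theorem la_main {A : Type} [CommRing A] [Algebra ℚ A] (p : Fin 5 → A)
    (hrel : p 1 * p 2 = p 0 * p 3 + p 4 ^ 2)
    (hind : LinearIndependent ℚ fun e : {e : Fin 5 → ℕ // ∑ c, e c = 10 ∧ e 4 ≤ 1} => mon p e.1)
    (φ : Fin 5 → A →ₐ[ℚ] A) (hφ : ∀ i c, φ i (p c) = ∑ c', (Wm i c c' : ℚ) • p c')
    (ρ : F5 →* Module.End ℚ (Vn p 10)) (hρ : ∀ i v, (ρ (FreeGroup.of i) v).1 = φ i v.1)
    (hb : ∀ r, ρ (wg (lhs r)) = ρ (wg (rhs r))) :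
    LAst ρ ((Vp p 10).comap (Vn p 10).subtype) := by
  obtain ⟨f0, h0⟩ := rank_le hrel 0 (Vn p 10)
    (Submodule.span_mono fun x ⟨e, h, h'⟩ => ⟨e, h, Nat.zero_le _, h'⟩)
  obtain ⟨-, h1⟩ := rank_le hrel 1 _ (Submodule.map_comap_le (Vn p 10).subtype (Vp p 10))
  rw [Submodule.finrank_map_subtype_eq] at h1
  obtain ⟨u, hu, hu'⟩ := indep (D1 ρ) (P := P1) rfl (tr1 hρ) cvr1
    (fun r hr => (allL_iff _ _).1 ok1 r (by simp; omega)) (good1 hrel hind hφ)
  obtain ⟨v, hv, hv'⟩ := indep (D2 ρ) (P := P2) rfl (tr2 hρ) cvr2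
    (fun r hr => (allL_iff _ _).1 ok2 r (by simp; omega)) (good2 hrel hind hφ)
  refine count ρ (h0.trans (by decide +kernel)) (h1.trans (by decide +kernel)) hb
    (fun i hi x hx => ?_) u (fun κ i hi => hu κ i ?_) hu' v (fun κ r a b => hv κ r ?_) hv'
  · exact Submodule.mem_comap.2 (Set.mem_of_eq_of_mem (hρ i x) (map_Vp hφ hi hx))
  · revert i
    decide +kernel
  · revert r
    decide +kernel

end Pool.Agent.Lib.MP_f9c34c_al.G
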