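import Pool.Agent.Lib.MP_f9c34c_al.G.Lift1

/-! Lifting the action of the mapping class group to the extension. -/

namespace Pool.Agent.Lib.MP_f9c34c_al.G

variable {W V : Type} [LieRing W] [LieAlgebra ℚ W] [AddCommGroup V] [Module ℚ V]
  {c : Cyc W V} {e : W} {α F : F5 →* Module.End ℚ W} {ρ : F5 →* Module.End ℚ V}

private lemma hom_eq_of_rel {G : Type*} [Monoid G] (β : F5 →* G) {x y : F5}
    (h : β (x * y⁻¹) = 1) : β x = β y := by
  have : x = x * y⁻¹ * y := by simp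
  rw [this, map_mul, h, one_mul]

private lemma hom_rel_of_eq {G : Type*} [Monoid G] (β : F5 →* G) {x y : F5}
    (h : β x = β y) : β (x * y⁻¹) = 1 := by
  rw [map_mul, h, ← map_mul, mul_inv_cancel, map_one]

private lemma hom_cancel {G : Type*} [Monoid G] (β : F5 →* G) (x : F5) {s t : G}
    (h : s * β x = t * β x) : s = t := by
  have h' := congrArg (· * β x⁻¹) h
  simpa only [mul_assoc, ← map_mul, mul_inv_cancel, map_one, mul_one] using h'

private lemma tau_inj (h : c.Gd e) {y z : V} (hyz : tau c y = tau c z) : y = z := by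
  have h1 := p2_tau (c := c) y (mkE c e 0)
  have h2 := p2_tau (c := c) z (mkE c e 0)
  rw [hyz, h2, p1_mk, h.ep_e, sub_right_inj] at h1
  have h16 : (16 * 1 : ℚ) ≠ 0 := by norm_num
  exact (smul_right_injective V h16 h1).symm

/-- The inner automorphisms given by the kernel, as units. -/
private noncomputable def tauU (c : Cyc W V) (v : V) : (Module.End ℚ (Ext c))ˣ :=
  ⟨tau c v, tau c (-v), by rw [← tau_add, add_neg_cancel, tau_zero],
    by rw [← tau_add, neg_add_cancel, tau_zero]⟩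

private lemma letters_ne : ∀ r, (rp r).1 ≠ 2 → (rp r).2 ≠ 2 →
    (∀ i ∈ lhs r, i ≠ 2) ∧ ∀ i ∈ rhs r, i ≠ 2 := by decide

private lemma exists_lf_two (h : Act c e α F ρ) (w : F5) :
    ∃ φ : (Module.End ℚ (Ext c))ˣ, Lf c e α F ρ w φ.1 := by
  have h0 : e ∈ GF e 0 := by rw [h.gd.top]; exact Submodule.mem_top
  have k1 : ∀ x ∈ GF e 1, ∀ y ∈ GF e 1, ⁅x, y⁆ ∈ GF e 1 := fun x hx y hy =>
    GF_mono (k := 1) (j := 1 + 1) (by norm_num) (GF_lie h.gd.top hx hy)
  have k2 : ∀ x ∈ GF e 1, ⁅e, x⁆ ∈ GF e 1 := fun x hx =>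
    GF_mono (k := 1) (j := 0 + 1) (by norm_num) (GF_lie h.gd.top h0 hx)
  have k3 : ∀ x ∈ GF e 1, F w x ∈ GF e 1 := fun x hx =>
    GF_mono (k := 1) (j := 1 + 0) (by norm_num) ((h.fL w).raise (h.fe w) 1 x hx)
  have k4 : α w e - e ∈ GF e 1 := by
    have := h.aF w 0 e h0
    rw [LinearMap.sub_apply, h.fe] at this
    exact GF_mono (k := 1) (j := 0 + 1) (by norm_num) this
  obtain ⟨φ, hφ, -⟩ := exists_lf h w (M := GF e 1) (V1 := ⊤) le_rfl k1 k2
    (fun _ _ _ _ => Submodule.mem_top) k3 (fun _ _ => Submodule.mem_top) k4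
  exact ⟨φ, hφ⟩

/-- Lifts satisfying the braid relations. -/
theorem lift_braid (h : Act c e α F ρ) (hr : ∀ r ∈ rels, α r = 1 ∧ F r = 1 ∧ ρ r = 1)
    {M : Submodule ℚ W} {V1 : Submodule ℚ V}
    (h1 : M ≤ GF e 1) (hl : ∀ x ∈ M, ∀ y ∈ M, ⁅x, y⁆ ∈ M) (he : ∀ x ∈ M, ⁅e, x⁆ ∈ M)
    (hc : ∀ x ∈ M, ∀ y ∈ M, c.ch x y ∈ V1)
    (hF : ∀ i ≠ 2, ∀ x ∈ M, F (FreeGroup.of i) x ∈ M)
    (hρ : ∀ i ≠ 2, ∀ v ∈ V1, ρ (FreeGroup.of i) v ∈ V1)
    (ha : ∀ i ≠ 2, α (FreeGroup.of i) e - e ∈ M) (la : LAst ρ V1) :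
    ∃ a : F5 →* Module.End ℚ (Ext c), (∀ w, Lf c e α F ρ w (a w)) ∧
      ∀ r, a (wg (lhs r)) = a (wg (rhs r)) := by
  have hex : ∀ i : Fin 5, ∃ φ : (Module.End ℚ (Ext c))ˣ, Lf c e α F ρ (FreeGroup.of i) φ.1 ∧
      (i ≠ 2 → ∀ x, p1 c x - e ∈ M → p2 c x ∈ V1 →
        p1 c (φ.1 x) - e ∈ M ∧ p2 c (φ.1 x) ∈ V1) := by
    intro i
    by_cases hi : i = 2
    · obtain ⟨φ, hφ⟩ := exists_lf_two h (FreeGroup.of i)
      exact ⟨φ, hφ, fun h' => absurd hi h'⟩
    · obtain ⟨φ, hφ, hφ'⟩ := exists_lf h (FreeGroup.of i) h1 hl he hc (hF i hi) (hρ i hi) (ha i hi)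
      exact ⟨φ, hφ, fun _ => hφ'⟩
  choose φ hφ hφ' using hex
  let a0 : F5 →* Module.End ℚ (Ext c) := (Units.coeHom _).comp (FreeGroup.lift φ)
  have a0_of : ∀ i, a0 (FreeGroup.of i) = (φ i).1 := fun i => by simp [a0]
  have ha0 : ∀ w, Lf c e α F ρ w (a0 w) := Lf.all h a0 fun i => by rw [a0_of]; exact hφ i
  have hz : ∀ r, ∃ z, a0 (wg (lhs r)) = tau c z * a0 (wg (rhs r)) := fun r =>
    Lf.diff h a0 ha0 (hom_eq_of_rel α (hr _ (lr_mem r)).1)
      (hom_eq_of_rel F (hr _ (lr_mem r)).2.1) (hom_eq_of_rel ρ (hr _ (lr_mem r)).2.2)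
  choose z hz using hz
  let Φ : List (Fin 5) → V := fun w => (-1 / 16 : ℚ) • p2 c (a0 (wg w) (mkE c e 0))
  have hΦ : ∀ u r v, Φ (u ++ lhs r ++ v) - Φ (u ++ rhs r ++ v) = ρ (wg u) (z r) := by
    intro u r v
    have e1 : a0 (wg (u ++ lhs r ++ v)) = tau c (ρ (wg u) (z r)) * a0 (wg (u ++ rhs r ++ v)) := by
      simp only [wg_append, map_mul]
      rw [hz, ← mul_assoc (a0 (wg u)), (ha0 (wg u)).mul_tau h]
      simp only [mul_assoc]
    simp only [Φ]
    rw [e1, Module.End.mul_apply, p2_tau, (ha0 _).cov, h.ep_a, p1_mk, h.gd.ep_e]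
    module
  have hS : ∀ l : List (Fin 5), (∀ i ∈ l, i ≠ 2) →
      p1 c (a0 (wg l) (mkE c e 0)) - e ∈ M ∧ p2 c (a0 (wg l) (mkE c e 0)) ∈ V1 := by
    intro l
    induction l with
    | nil => intro _; simp
    | cons i l ih =>
      intro hl
      obtain ⟨i1, i2⟩ := ih fun j hj => hl j (List.mem_cons_of_mem _ hj)
      rw [wg_cons, map_mul, Module.End.mul_apply, a0_of]
      exact hφ' i (hl i List.mem_cons_self) _ i1 i2
  have hz1 : ∀ r, (rp r).1 ≠ 2 → (rp r).2 ≠ 2 → z r ∈ V1 := by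
    intro r r1 r2
    obtain ⟨l1, l2⟩ := letters_ne r r1 r2
    have := hΦ [] r []
    simp only [List.nil_append, List.append_nil, wg_nil, map_one, Module.End.one_apply] at this
    rw [← this]
    exact sub_mem (V1.smul_mem _ (hS _ l1).2) (V1.smul_mem _ (hS _ l2).2)
  obtain ⟨v, hv⟩ := la z hz1 (d2_of_pot ρ Φ hΦ)
  let a : F5 →* Module.End ℚ (Ext c) :=
    (Units.coeHom _).comp (FreeGroup.lift fun i => tauU c (-v i) * φ i)
  have a_of : ∀ i, a (FreeGroup.of i) = tau c (-v i) * (φ i).1 := fun i => by simp [a, tauU]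
  have haw : ∀ l : List (Fin 5), a (wg l) = tau c (-fox ρ v l) * a0 (wg l) := by
    intro l
    induction l with
    | nil => simp [fox, tau_zero]
    | cons i l ih =>
      rw [wg_cons, map_mul, map_mul, ih, a_of, a0_of, mul_assoc, ← mul_assoc (φ i).1,
        (hφ i).mul_tau h, ← mul_assoc, ← mul_assoc, ← tau_add, fox, map_neg, neg_add, mul_assoc]
  refine ⟨a, Lf.all h a fun i => ?_, fun r => ?_⟩
  · rw [a_of]
    exact (hφ i).tau_mul h _
  · rw [haw, haw, hz, ← mul_assoc, ← tau_add, hv, d1]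
    congr 2
    abel

/-- The remaining relations hold automatically. -/
theorem lift_sphere (h : Act c e α F ρ) (hr : ∀ r ∈ rels, α r = 1 ∧ F r = 1 ∧ ρ r = 1)
    (hy : ρ hyp = 1) (hi : ∀ v, (∀ i ≠ 0, ρ (FreeGroup.of i) v = v) → v = 0)
    (a : F5 →* Module.End ℚ (Ext c)) (ha : ∀ w, Lf c e α F ρ w (a w))
    (hb : ∀ r, a (wg (lhs r)) = a (wg (rhs r))) : ∀ r ∈ rels, a r = 1 := by
  have hz : ∀ r ∈ rels, ∃ z, a r = tau c z := by
    intro r hr'
    obtain ⟨r1, r2, r3⟩ := hr r hr'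
    obtain ⟨z, hz⟩ := Lf.diff h a ha (w := r) (w' := 1) (by rw [r1, map_one])
      (by rw [r2, map_one]) (by rw [r3, map_one])
    exact ⟨z, by rw [hz, map_one, mul_one]⟩
  have key : ∀ r ∈ rels, (∀ i ≠ 0, Commute (a r) (a (FreeGroup.of i))) → a r = 1 := by
    intro r hr' hc
    obtain ⟨z, hz⟩ := hz r hr'
    have z0 : z = 0 := by
      refine hi z fun i i0 => tau_inj h.gd (hom_cancel a (FreeGroup.of i) ?_)
      rw [← (ha _).mul_tau h, ← hz, (hc i i0).eq]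
    rw [hz, z0, tau_zero]
  have hyp2 : a (hyp ^ 2) = 1 := by
    refine key _ (Or.inr (Or.inr (Or.inl rfl))) fun i i0 => ?_
    rw [map_pow]
    exact (hyp_comm a hb i0).pow_left 2
  intro r hr'
  rcases hr' with ⟨i, j, hij, rfl⟩ | rfl | rfl | ⟨i, rfl⟩
  · obtain ⟨r, hr⟩ := exists_rp i j hij
    have := brd_rp r
    rw [hr] at this
    rw [this]
    exact hom_rel_of_eq a (hb r)
  · exact key _ (Or.inr (Or.inl rfl)) fun i _ => chain_comm a hb i
  · exact hyp2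
  · by_cases i0 : i = 0
    · obtain ⟨z, hz⟩ := hz _ (Or.inr (Or.inr (Or.inr ⟨i, rfl⟩)))
      have e1 : a hyp * a (FreeGroup.of i) = tau c z * (a (FreeGroup.of i) * a hyp) := by
        rw [← hz, ← map_mul, ← map_mul, ← map_mul, inv_mul_cancel_right]
      have e2 : a hyp * a hyp = 1 := by rw [← map_mul, ← sq, hyp2]
      have e3 : tau c 0 * a (FreeGroup.of i) = tau c (z + z) * a (FreeGroup.of i) := by
        calc tau c 0 * a (FreeGroup.of i) = a hyp * (a hyp * a (FreeGroup.of i)) := by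
              rw [← mul_assoc, e2, tau_zero]
          _ = tau c z * (a hyp * a (FreeGroup.of i)) * a hyp := by
              conv_lhs => rw [e1, ← mul_assoc, (ha hyp).mul_tau h, hy, Module.End.one_apply]
              simp only [mul_assoc]
          _ = tau c (z + z) * a (FreeGroup.of i) := by
              rw [e1, tau_add]
              simp only [mul_assoc, e2, mul_one]
      have e4 : (0 : V) = z + z := tau_inj h.gd (hom_cancel a _ e3)
      have z0 : z = 0 := by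
        have : (2 : ℚ) • z = 0 := by rw [two_smul, ← e4]
        exact (smul_eq_zero.1 this).resolve_left (by norm_num)
      rw [hz, z0, tau_zero]
    · refine hom_rel_of_eq a ?_
      rw [map_mul, map_mul]
      exact (hyp_comm a hb i0).eq

end Pool.Agent.Lib.MP_f9c34c_al.G
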