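import Pool.Agent.Lib.MP_f9c34c_al.G.Wq
import Pool.Agent.Lib.MP_f9c34c_al.G.Good
import Pool.Agent.Lib.MP_f9c34c_al.G.Lift2
import Pool.Agent.Lib.MP_f9c34c_al.G.LA

/-! The representation of the mapping class group on the extension. -/

namespace Pool.Agent.Lib.MP_f9c34c_al.G

attribute [local instance 100] LieRing.ofAssociativeRing

set_option maxRecDepth 4000

namespace Real
variable (R : Real) (hK : ∀ i, R.e i - dmT 17 (fm i) ∈ KK)
include hK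

lemma e_WW (i : Fin 5) {D : E17} (h : D ∈ WW) : ⁅R.e i, D⁆ ∈ WW := by
  obtain ⟨c, hc⟩ := h
  have h1 : ⁅dmT 17 (fm i), D⁆ ∈ KK := by
    have := KK_dmT (I := Set.univ) (LieSubalgebra.subset_lieSpan ⟨i, trivial, rfl⟩) hc
    rwa [lie_sub, lie_smul, ← lie_skew _ (eu X 17), eu_dmT, neg_zero, smul_zero, sub_zero] at this
  have := add_mem (WW_lie (KK_WW (hK i)) ⟨c, hc⟩) h1
  rw [sub_lie, sub_add_cancel] at this
  exact KK_WW this

lemma e_JS (i : Fin 5) {D : E17} (h : D ∈ JS) : ⁅R.e i, D⁆ ∈ JS := by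
  have := add_mem (JS_lie (KK_WW (hK i)) h)
    (JS_dmT (I := Set.univ) (LieSubalgebra.subset_lieSpan ⟨i, trivial, rfl⟩) h)
  rwa [sub_lie, sub_add_cancel] at this

lemma sig_WW (w : F5) {D : E17} (h : D ∈ WW) : (Ad (R.sig w)).1 D ∈ WW :=
  R.Ad_sig_mem (P := WW.toSubmodule) (fun i _ => R.e_WW hK i) w h

lemma sig_JS (w : F5) {D : E17} (h : D ∈ JS) : (Ad (R.sig w)).1 D ∈ JS :=
  R.Ad_sig_mem (fun i _ => R.e_JS hK i) w h

lemma rel_JS {r : F5} (hr : r ∈ rels) {D : E17} (h : D ∈ WW) : (Ad (R.sig r)).1 D - D ∈ JS := by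
  have h0 := (WW_PJ h).1
  have h1 := (cp_lead r (R.sig_isA r) (R.sig_fT r) h0 (DD_FD0 h0)).1
  rw [fT_triv (fh_rel hr), Ad_one] at h1
  have h2 := sub_mem (R.sig_WW hK r h) h
  exact ⟨KK_of_WW h2 h1, fun d _ =>
    (mem_IT (WW_PJ h2).1).1 ((R.sig_rel hr).Ad_sub (WW_PJ h)) d⟩

end Real

lemma rV_triv {w : F5} (h : fh w = 1) : rV w = 1 := by
  ext v x
  exact Opoly_congr (Vn_Opoly v.2) (by rw [map_mul, h, mul_one])

theorem la_V : LAst rV ((Vp pl 10).comap (Vn pl 10).subtype) := by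
  refine la_main pl pl_rel pl_ind (fun i => AlgHom.pi fun x =>
    Pi.evalAlgHom ℚ (fun _ => ℚ) (x * FreeGroup.of i)) (fun i c => pl_Rt i c) rV
    (fun i v => rfl) fun r => ?_
  have := rV_triv (fh_rel (lr_mem r))
  rw [← inv_mul_cancel_right (wg (lhs r)) (wg (rhs r)), map_mul, this, one_mul]

lemma QD.Ind.ex {q : QD} {f : Module.End ℚ E17} {φ : Module.End ℚ q.Q} (h : q.Ind f φ) (x : q.a) :
    ∃ y : q.a, y.1 = f x.1 ∧ φ (q.pr x) = q.pr y :=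
  let ⟨h1, h2⟩ := h x
  ⟨⟨_, h1⟩, rfl, h2⟩

/-- The Euler derivation in the Lie algebra. -/
noncomputable def euW : qW.a := ⟨eu X 17, eu_WW⟩

lemma euW_val : euW.1 = eu X 17 := rfl

lemma qW_e : qW.e = qW.pr euW := rfl

/-- The image of the subalgebra adapted to the handles. -/
noncomputable def MQ : Submodule ℚ qW.Q :=
  (MM.toSubmodule.comap qW.a.toSubmodule.subtype).map qW.pr.toLinearMap

lemma mem_MQ {y : qW.Q} : y ∈ MQ ↔ ∃ x : qW.a, x.1 ∈ MM ∧ qW.pr x = y := Iff.rfl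

variable (R : Real) (hK : ∀ i, R.e i - dmT 17 (fm i) ∈ KK) {c : Cyc qW.Q (Vn pl 10)}
  (hc : c.Gd qW.e) (hch : ∀ x y : qW.a, (c.ch (qW.pr x) (qW.pr y)).1 = Cf x.1 y.1)
  {α F : F5 →* Module.End ℚ qW.Q} (hα : ∀ w, qW.Ind (Ad (R.sig w)).1 (α w))
  (hF : ∀ w, qW.Ind (Ad (fT w)).1 (F w))

include hc hch hα hF in
lemma act_W : Act c qW.e α F rV := by
  refine ⟨hc, fun x => qW_zero, fun w => (hα w).isL, fun w => (hF w).isL, fun w => ?_,
    fun w => (hα w).raise (hF w) fun d D h e =>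
      (cp_lead w (R.sig_isA w) (R.sig_fT w) (qW.dd D h) e).1, fun w x y => ?_⟩
  · obtain ⟨y, h, e⟩ := (hF w).ex euW
    rw [euW_val, fT_eu] at h
    rw [qW_e, e, show y = euW from Subtype.ext h]
  · obtain ⟨x, rfl⟩ := qW.pr_surj x
    obtain ⟨y, rfl⟩ := qW.pr_surj y
    obtain ⟨x', h, e⟩ := (hF w).ex x
    obtain ⟨y', h', e'⟩ := (hF w).ex y
    refine Subtype.ext ?_
    rw [e, e', hch, rV_val, hch, h, h', Cf_fT w (qW.dd _ x.2) (qW.dd _ y.2)]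

include hK hα hF in
lemma rel_W : ∀ r ∈ rels, α r = 1 ∧ F r = 1 ∧ rV r = 1 := fun r hr =>
  ⟨(hα r).eq_one fun _ => R.rel_JS hK hr, (hF r).eq_one fun D _ => by
    rw [fT_triv (fh_rel hr), Ad_one, sub_self]; exact zero_mem _, rV_triv (fh_rel hr)⟩

lemma Real.sig_MM {i : Fin 5} (hi : i ≠ 2) (hM : R.e i - dmT 17 (fm i) ∈ MM) :
    (Ad (R.sig (FreeGroup.of i))).1 (eu X 17) - eu X 17 ∈ MM := by
  have hd : ∀ D ∈ MM, ⁅dmT 17 (fm i), D⁆ ∈ MM := fun D =>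
    lie_mem_of_fT (I := {i}) (P := MM.toSubmodule) (by
      rintro _ rfl D
      exact MM_fT (Subgroup.subset_closure ⟨_, hi, rfl⟩))
      (LieSubalgebra.subset_lieSpan ⟨i, rfl, rfl⟩)
  rw [R.sig_of, Ad_expU (R.e_nil i)]
  refine exp_sub_mem (S := MM.toSubmodule) (nil_ad (R.e_nil i)) (fun D hD => ?_) ?_
  · have := add_mem (MM.lie_mem hM hD) (hd D hD)
    rwa [sub_lie, sub_add_cancel] at this
  · have := neg_mem (MM_eu hM)
    rwa [lie_sub, eu_dmT, sub_zero, lie_skew] at this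

include hK hc hch hα hF in
theorem exists_rep (hM : ∀ i ≠ 2, R.e i - dmT 17 (fm i) ∈ MM) :
    ∃ a : F5 →* Module.End ℚ (Ext c), (∀ w, Lf c qW.e α F rV w (a w)) ∧ ∀ r ∈ rels, a r = 1 := by
  have hA := act_W R hc hch hα hF
  have hr := rel_W R hK hα hF
  obtain ⟨a, ha, hb⟩ := lift_braid hA hr (M := MQ) (V1 := (Vp pl 10).comap (Vn pl 10).subtype)
    (fun y hy => by
      obtain ⟨x, hx, rfl⟩ := mem_MQ.1 hy
      exact qW.pr_GF hx.1.2.1)
    (fun x hx y hy => by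
      obtain ⟨x, h1, rfl⟩ := mem_MQ.1 hx
      obtain ⟨y, h2, rfl⟩ := mem_MQ.1 hy
      exact mem_MQ.2 ⟨⁅x, y⁆, MM.lie_mem h1 h2, qW.pr.map_lie _ _⟩)
    (fun x hx => by
      obtain ⟨x, h1, rfl⟩ := mem_MQ.1 hx
      exact mem_MQ.2 ⟨⁅euW, x⁆, MM_eu h1, qW.pr.map_lie _ _⟩)
    (fun x hx y hy => by
      obtain ⟨x, h1, rfl⟩ := mem_MQ.1 hx
      obtain ⟨y, h2, rfl⟩ := mem_MQ.1 hy
      rw [Submodule.mem_comap, Submodule.subtype_apply, hch]
      exact Cf_MM h1 h2)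
    (fun i hi x hx => by
      obtain ⟨x, h1, rfl⟩ := mem_MQ.1 hx
      obtain ⟨y, h, e⟩ := (hF (FreeGroup.of i)).ex x
      refine mem_MQ.2 ⟨y, ?_, e.symm⟩
      rw [h]
      exact MM_fT (Subgroup.subset_closure ⟨i, hi, rfl⟩) h1)
    (fun i hi v hv => Vp_Rt hi hv)
    (fun i hi => by
      obtain ⟨y, h, e⟩ := (hα (FreeGroup.of i)).ex euW
      refine mem_MQ.2 ⟨y - euW, ?_, by rw [map_sub, qW_e, e]⟩
      rw [AddSubgroupClass.coe_sub, h, euW_val]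
      exact R.sig_MM hi (hM i hi)) la_V
  refine ⟨a, ha, lift_sphere hA hr ?_ (fun v hv => ?_) a ha hb⟩
  · ext v : 2
    exact Rt_hyp v.2
  · exact Subtype.ext (Vn_inv v.2 fun i hi => congrArg Subtype.val (hv i hi))

end Pool.Agent.Lib.MP_f9c34c_al.G
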