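import Pool.Agent.Lib.MP_f9c34c_al.G.Niel

/-! The divergence cocycle. -/

namespace Pool.Agent.Lib.MP_f9c34c_al.G

open Submodule Finset IsNilpotent

attribute [local instance 100] LieRing.ofAssociativeRing

variable {Y : Type} [Fintype Y] [DecidableEq Y] {N : ℕ}

lemma dv_coc {D D' : Module.End ℚ (T Y)} (h : IsDer D) (h' : IsDer D') {m m' : ℕ}
    (hm : ∀ x, D (gx x) ∈ Hom Y (m + 1)) (hm' : ∀ x, D' (gx x) ∈ Hom Y (m' + 1)) :
    dv ⁅D, D'⁆ - (D (dv D') - D' (dv D)) ∈ Cm Y := by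
  have := sum_mem fun x (_ : x ∈ univ) =>
    sum_mem fun y (_ : y ∈ univ) => cm_mem (dR y (D' (gx x))) (dR x (D (gx y)))
  convert this using 1
  have e1 := fun x => h.dR hm x (D' (gx x))
  have e2 := fun x => h'.dR hm' x (D (gx x))
  simp only [dv, Ring.lie_def, LinearMap.sub_apply, Module.End.mul_apply, map_sub, e1, e2,
    sum_sub_distrib, sum_add_distrib, map_sum]
  rw [sum_comm (f := fun x y => dR y (D (gx x)) * dR x (D' (gx y)))]
  abel

lemma dv_hom {D : Module.End ℚ (T Y)} {m : ℕ} (hm : ∀ x, D (gx x) ∈ Hom Y (m + 1)) :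
    dv D ∈ Hom Y m :=
  sum_mem fun x _ => Hom_mem (f := dR x) (fun w hw => by
    rw [dR, lin_wd]
    split_ifs
    · exact wd_mem (by simp [hw])
    · exact zero_mem _) (hm x)

omit [Fintype Y] [DecidableEq Y] in
lemma len_cm {n : ℕ} {s : T Y} (hs : s ∈ len gx (n + 1)) : s ∈ Cm Y :=
  len_le (S := Cm Y) (fun i y _ => cm_mem (gx i) y) hs

/-- The divergence as a linear map. -/
noncomputable def affDv : Module.End ℚ (T Y) →ₗ[ℚ] T Y :=
  ∑ x, dR x ∘ₗ LinearMap.applyₗ (gx x)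

lemma affDv_apply (D : Module.End ℚ (T Y)) : affDv D = dv D := by simp [affDv, dv]

/-- The total divergence. -/
noncomputable def affT (N : ℕ) : Module.End ℚ (TT Y N) →ₗ[ℚ] TT Y N :=
  (mkT N).toLinearMap ∘ₗ ∑ d ∈ range N, affDv ∘ₗ cp N d

lemma sec_affT {d : ℕ} (hd : d < N) (D : Module.End ℚ (TT Y N)) :
    sec N d (affT N D) = dv (cp N d D) := by
  simp only [affT, LinearMap.comp_apply, AlgHom.toLinearMap_apply, LinearMap.sum_apply,
    affDv_apply]
  rw [sec_mk hd.le, map_sum]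
  simp only [fun j => pj_hom d (dv_hom (cp_hom j D)), sum_ite_eq', mem_range]
  rw [if_pos hd]

/-- Elements whose components of degree at least two are sums of commutators. -/
noncomputable def affC (Y : Type) (N : ℕ) : Submodule ℚ (TT Y N) where
  carrier := {s | ∀ d, 2 ≤ d → d < N → sec N d s ∈ Cm Y}
  add_mem' h h' d a b := by
    rw [map_add]
    exact add_mem (h d a b) (h' d a b)
  zero_mem' d _ _ := by
    rw [map_zero]
    exact zero_mem _
  smul_mem' c s h d a b := by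
    rw [map_smul]
    exact smul_mem _ c (h d a b)

lemma aff_iff {D : Module.End ℚ (TT Y N)} {r : TT Y N} :
    (∀ d, 2 ≤ d → d < N → dv (cp N d D) - sec N d (D r) ∈ Cm Y) ↔ affT N D - D r ∈ affC Y N :=
  forall₃_congr fun d _ hd => by rw [map_sub, sec_affT hd]

omit [Fintype Y] [DecidableEq Y] in
lemma affC_comm (s t : TT Y N) : s * t - t * s ∈ affC Y N := fun d _ hd => by
  obtain ⟨s, rfl⟩ := mkT_surj s
  obtain ⟨t, rfl⟩ := mkT_surj t
  rw [← map_mul, ← map_mul, ← map_sub, sec_mk hd.le]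
  exact pj_cm d (cm_mem s t)

omit [Fintype Y] [DecidableEq Y] in
lemma affC_LD {D : Module.End ℚ (TT Y N)} (h : D ∈ LD Y N) {s : TT Y N} (hs : s ∈ affC Y N) :
    D s ∈ affC Y N := fun d h2 hd => by
  obtain ⟨h3, h4⟩ := mem_LD.1 h
  rw [sec_apply h3 hd.le]
  refine sum_mem fun i hi => ?_
  have := mem_range.1 hi
  rcases le_or_gt 2 (d - i) with c | c
  · exact (cp_der i D).cm (hs _ c (by omega))
  · refine Hom_mem (f := cp N i D) (fun w hw => ?_) (sec_mem (d - i) s)
    match w, hw with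
    | [], _ =>
      rw [wd_nil, (cp_der i D).one]
      exact zero_mem _
    | [a], hw =>
      obtain ⟨j, rfl⟩ : ∃ j, i = j + 1 := ⟨i - 1, by simp at hw; omega⟩
      exact len_cm (h4 _ a)
    | _ :: _ :: _, hw => simp at hw; omega

lemma aff_coc {D D' : Module.End ℚ (TT Y N)} (h : D ∈ DD Y N) (h' : D' ∈ DD Y N) :
    affT N ⁅D, D'⁆ - (D (affT N D') - D' (affT N D)) ∈ affC Y N := fun d _ hd => by
  rw [map_sub, map_sub, sec_affT hd, sec_apply h hd.le, sec_apply h' hd.le, cp_lie h h' hd,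
    ← affDv_apply, map_sum, ← sum_range_reflect (fun i => cp N i D' (sec N (d - i) (affT N D))),
    ← sum_sub_distrib, ← sum_sub_distrib]
  refine sum_mem fun i hi => ?_
  have := mem_range.1 hi
  rw [show d + 1 - 1 - i = d - i by omega, show d - (d - i) = i by omega, sec_affT (by omega),
    sec_affT (by omega), affDv_apply]
  exact dv_coc (cp_der _ _) (cp_der _ _) (cp_hom _ _) (cp_hom _ _)

/-- Lie derivations whose divergence is the derivative of `r`, in degrees at least two and modulo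
commutators. -/
noncomputable def AA (r : TT Y N) : LieSubalgebra ℚ (Module.End ℚ (TT Y N)) where
  carrier := {D | D ∈ LD Y N ∧ ∀ d, 2 ≤ d → d < N → dv (cp N d D) - sec N d (D r) ∈ Cm Y}
  add_mem' := fun {D D'} h h' => ⟨add_mem h.1 h'.1, aff_iff.2 (by
    convert add_mem (aff_iff.1 h.2) (aff_iff.1 h'.2) using 1
    rw [map_add, LinearMap.add_apply]
    abel)⟩
  zero_mem' := ⟨zero_mem _, aff_iff.2 (by simp)⟩
  smul_mem' := fun c D h => ⟨(LD Y N).smul_mem c h.1, aff_iff.2 (by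
    convert smul_mem _ c (aff_iff.1 h.2) using 1
    rw [map_smul, LinearMap.smul_apply, smul_sub])⟩
  lie_mem' := fun {D D'} h h' => ⟨(LD Y N).lie_mem h.1 h'.1, aff_iff.2 (by
    convert add_mem (aff_coc h.1.1 h'.1.1) (sub_mem (affC_LD h.1 (aff_iff.1 h'.2))
      (affC_LD h'.1 (aff_iff.1 h.2))) using 1
    simp only [Ring.lie_def, LinearMap.sub_apply, Module.End.mul_apply, map_sub]
    abel)⟩

lemma aff_bil {M M' M'' : Type*} [AddCommGroup M] [Module ℚ M] [AddCommGroup M'] [Module ℚ M']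
    [AddCommGroup M''] [Module ℚ M''] {a : Module.End ℚ M} {a' : Module.End ℚ M'}
    (ha : IsNilpotent a) (ha' : IsNilpotent a') (β : M →ₗ[ℚ] M' →ₗ[ℚ] M'') {S : Submodule ℚ M''}
    {c : Module.End ℚ M''} (hc : ∀ y ∈ S, c y ∈ S)
    (e : ∀ x y, β (a x) y + β x (a' y) - c (β x y) ∈ S) {x : M} {y : M'} (h : β x y ∈ S) :
    β (exp a x) (exp a' y) ∈ S := by
  let DL : Module.End ℚ (TensorProduct ℚ M M') := a'.lTensor M
  let DR : Module.End ℚ (TensorProduct ℚ M M') := a.rTensor M'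
  have hL : IsNilpotent DL := ha'.map (Module.End.lTensorAlgHom ℚ M' M)
  have hR : IsNilpotent DR := ha.map (Module.End.rTensorAlgHom ℚ M M')
  have hcomm : Commute DL DR := by
    ext
    simp [DL, DR]
  have eL : exp DL = (exp a').lTensor M := (ha'.map_exp (Module.End.lTensorAlgHom ℚ M' M)).symm
  have eR : exp DR = (exp a).rTensor M' := (ha.map_exp (Module.End.rTensorAlgHom ℚ M M')).symm
  have h1 : ∀ t, TensorProduct.lift β ((DL + DR) t) - c (TensorProduct.lift β t) ∈ S := by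
    intro t
    induction t with
    | zero => simp
    | tmul x y => simpa [DL, DR, add_comm] using e x y
    | add t t' ht ht' =>
      convert add_mem ht ht' using 1
      simp only [map_add]
      abel
  have h2 := exp_mem (hcomm.isNilpotent_add hL hR) (S := S.comap (TensorProduct.lift β))
    (fun t ht => by simpa using add_mem (h1 t) (hc _ ht)) (x := x ⊗ₜ y) (by simpa using h)
  rw [exp_add_of_commute hcomm hL hR, eL, eR] at h2
  simpa using h2

theorem AA_conj {z : Module.End ℚ (TT Y N)} (hz : z ∈ LD Y N) (hn : IsNilpotent z) (r : TT Y N) :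
    ∃ r', ∀ D ∈ AA r, (Ad (expU z)).1 D ∈ AA r' := by
  let β : Module.End ℚ (TT Y N) →ₗ[ℚ] (TT Y N × ℚ) →ₗ[ℚ] TT Y N :=
    LinearMap.mk₂ ℚ (fun D v => D v.1 - v.2 • affT N D)
      (fun D D' v => by simp only [LinearMap.add_apply, map_add, smul_add]; abel)
      (fun c D v => by simp only [LinearMap.smul_apply, map_smul, smul_sub, smul_comm c v.2])
      (fun D v w => by simp only [Prod.fst_add, Prod.snd_add, map_add, add_smul]; abel)
      (fun c D v => by simp only [Prod.smul_fst, Prod.smul_snd, map_smul, smul_sub, smul_smul,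
        smul_eq_mul])
  have hβ : ∀ D v, β D v = D v.1 - v.2 • affT N D := fun _ _ => rfl
  let a' : Module.End ℚ (TT Y N × ℚ) := LinearMap.inl ℚ _ _ ∘ₗ β z
  have h1 : ∀ v, a' v = (β z v, 0) := fun _ => rfl
  have ha' : IsNilpotent a' := by
    obtain ⟨k, hk⟩ := hn
    refine ⟨k + 1, LinearMap.ext fun v => ?_⟩
    have e := log_pow_map (N := z) (N' := a') (LinearMap.inl ℚ (TT Y N) ℚ)
      (fun x => by simp [h1, hβ]) k (β z v)
    rw [hk, LinearMap.zero_apply, map_zero] at e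
    exact e.symm
  have hL : ∀ D ∈ (LD Y N).toSubmodule, LieAlgebra.ad ℚ _ z D ∈ (LD Y N).toSubmodule :=
    fun D hD => (LD Y N).lie_mem hz hD
  have ha : IsNilpotent ((LieAlgebra.ad ℚ _ z).restrict hL) :=
    Module.End.isNilpotent.restrict hL (nil_ad hn)
  have h2 : (exp a' (r, 1)).2 = 1 := by
    have := exp_sub_mem ha' (S := LinearMap.ker (LinearMap.snd ℚ _ _)) (x := (r, 1))
      (fun y _ => rfl) rfl
    simpa [sub_eq_zero] using this
  refine ⟨(exp a' (r, 1)).1, fun D hD => ⟨Ad_expU_mem hn (S := (LD Y N).toSubmodule) hL hD.1,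
    aff_iff.2 ?_⟩⟩
  have h3 := aff_bil ha ha' (β ∘ₗ (LD Y N).toSubmodule.subtype) (S := affC Y N) (c := z)
    (fun y hy => affC_LD hz hy) (fun E v => by
      convert smul_mem _ (-v.2) (aff_coc hz.1 E.2.1) using 1
      simp only [LinearMap.comp_apply, subtype_apply, LinearMap.coe_restrict_apply,
        LieAlgebra.ad_apply, hβ, h1, map_sub, map_smul, zero_smul, smul_sub, neg_smul]
      rw [Ring.lie_def z, LinearMap.sub_apply, Module.End.mul_apply, Module.End.mul_apply]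
      abel) (x := ⟨D, hD.1⟩) (y := (r, 1)) (by
      simpa [hβ] using neg_mem (aff_iff.1 hD.2))
  rw [LinearMap.comp_apply, exp_nat ha (nil_ad hn) _ (fun _ => rfl), ← Ad_expU hn, hβ, h2,
    one_smul] at h3
  simpa using neg_mem h3

/-- The function of Duflo type. -/
noncomputable def r0 (Y : Type) [Fintype Y] (N : ℕ) : TT Y N :=
  -∑ x : Y, ∑ k ∈ Ico 2 (N + 1), (bernoulli k / (k * k.factorial) : ℚ) • xx N x ^ k

omit [Fintype Y] [DecidableEq Y] in
lemma aff_ad_hom (b a : Y) (k : ℕ) : (LieAlgebra.ad ℚ (T Y) (gx b) ^ k) (gx a) ∈ Hom Y (k + 1) := by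
  refine len_Hom k ?_
  induction k with
  | zero => exact len_zero a
  | succ k ih =>
    rw [pow_succ', Module.End.mul_apply]
    exact len_succ b ih

omit [Fintype Y] [DecidableEq Y] in
lemma aff_pow_ad {A : Type*} [Ring A] [Algebra ℚ A] (B C : A) (j k : ℕ) :
    B ^ j * (LieAlgebra.ad ℚ A B ^ (k + 1)) C = B * (B ^ j * (LieAlgebra.ad ℚ A B ^ k) C) -
      B ^ j * (LieAlgebra.ad ℚ A B ^ k) C * B := by
  rw [pow_succ', Module.End.mul_apply, LieAlgebra.ad_apply, Ring.lie_def, mul_sub, ← mul_assoc,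
    ← mul_assoc, ← mul_assoc, ← _root_.pow_succ, ← _root_.pow_succ']

omit [Fintype Y] in
lemma aff_dR {b a : Y} (h : a ≠ b) (k : ℕ) : ∀ j, gx b ^ j *
    dR b ((LieAlgebra.ad ℚ (T Y) (gx b) ^ (k + 1)) (gx a)) + gx b ^ (j + k) * gx a ∈ Cm Y := by
  have e : ∀ k, dR b ((LieAlgebra.ad ℚ (T Y) (gx b) ^ (k + 1)) (gx a)) =
      gx b * dR b ((LieAlgebra.ad ℚ (T Y) (gx b) ^ k) (gx a)) -
        (LieAlgebra.ad ℚ (T Y) (gx b) ^ k) (gx a) := fun k => by
    rw [pow_succ', Module.End.mul_apply, LieAlgebra.ad_apply, Ring.lie_def, map_sub,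
      dR_mul _ _ (aff_ad_hom b a k), dR_gx, if_pos rfl]
  induction k with
  | zero =>
    intro j
    have := dR_gx b a (1 : T Y)
    rw [one_mul, if_neg h] at this
    rw [e 0]
    simp [this]
  | succ k ih =>
    intro j
    have c := cm_mem (gx b) (gx b ^ j * (LieAlgebra.ad ℚ (T Y) (gx b) ^ k) (gx a))
    rw [← aff_pow_ad] at c
    convert sub_mem (ih (j + 1)) c using 1
    rw [e (k + 1), mul_sub, ← mul_assoc, ← _root_.pow_succ, show j + 1 + k = j + (k + 1) by ring]
    abel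

omit [Fintype Y] [DecidableEq Y] in
lemma aff_der_pow {D : Module.End ℚ (TT Y N)} (h : D ∈ DD Y N) (B : TT Y N) (k : ℕ) : ∀ j,
    B ^ j * D (B ^ (k + 1)) - ((k + 1 : ℕ) : ℚ) • (B ^ (j + k) * D B) ∈ affC Y N := by
  induction k with
  | zero => intro j; simp
  | succ k ih =>
    intro j
    convert sub_mem (ih (j + 1)) (affC_comm B (B ^ j * D (B ^ (k + 1)))) using 1
    rw [_root_.pow_succ B (k + 1), h.1, mul_add, ← mul_assoc, ← mul_assoc, ← mul_assoc, ← pow_add,
      ← _root_.pow_succ', show j + 1 + k = j + (k + 1) by ring, Nat.cast_succ (k + 1), add_smul,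
      one_smul]
    abel

omit [Fintype Y] [DecidableEq Y] in
lemma aff_ser (c : ℕ → ℚ) (hc : c 0 = 1) (B A : TT Y N) (j : ℕ) :
    B ^ j * ser c B A - B ^ j * A ∈ affC Y N := by
  rw [ser, sum_range_succ', hc, mul_add, mul_sum]
  simp only [Nat.factorial_zero, Nat.cast_one, div_one, one_smul, pow_zero, Module.End.one_apply,
    add_sub_cancel_right]
  refine sum_mem fun k _ => ?_
  rw [mul_smul_comm, aff_pow_ad]
  exact smul_mem _ _ (affC_comm _ _)

lemma aff_AA (c : ℕ → ℚ) (hc : c 0 = 1) (hc' : ∀ k, 2 ≤ k → c k = bernoulli k) {b a : Y}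
    (h : a ≠ b) {D : Module.End ℚ (TT Y N)} (hD : D ∈ LD Y N)
    (hx : ∀ x, D (xx N x) = if x = b then ser c (xx N b) (xx N a) else 0) : D ∈ AA (r0 Y N) := by
  refine ⟨hD, fun d h2 hd => ?_⟩
  obtain ⟨k, rfl⟩ : ∃ k, d = k + 1 := ⟨d - 1, by omega⟩
  have e1 : ∀ j, (LieAlgebra.ad ℚ (TT Y N) (xx N b) ^ j) (xx N a) =
      mkT N ((LieAlgebra.ad ℚ (T Y) (gx b) ^ j) (gx a)) := fun j =>
    (log_pow_map (mkT N).toLinearMap (fun s => by simp [Ring.lie_def, xx]) j (gx a)).symm
  have e2 : dv (cp N (k + 1) D) = (c (k + 1) / (k + 1).factorial) •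
      dR b ((LieAlgebra.ad ℚ (T Y) (gx b) ^ (k + 1)) (gx a)) := by
    rw [dv, sum_eq_single b (fun x _ hb => by rw [cp_gx, hx, if_neg hb, map_zero, map_zero])
      (by simp), cp_gx, hx, if_pos rfl, ser, map_sum, sum_eq_single (k + 1), map_smul, map_smul,
      e1, sec_mk (by omega), pj_hom _ (aff_ad_hom b a _), if_pos rfl]
    · intro j _ hj
      rw [map_smul, e1, sec_mk (by omega), pj_hom _ (aff_ad_hom b a _), if_neg (by omega),
        smul_zero]
    · intro hj
      exact absurd (mem_range.2 (by omega)) hj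
  have e3 : ∀ x, x ≠ b → ∀ j, D (xx N x ^ j) = 0 := fun x hb j => by
    induction j with
    | zero => rw [pow_zero, der_one hD.1.1]
    | succ j ih => rw [_root_.pow_succ, hD.1.1, ih, hx, if_neg hb, zero_mul, mul_zero, add_zero]
  have e4 : D (r0 Y N) + ∑ j ∈ Ico 2 (N + 1), (bernoulli j / (j * j.factorial) : ℚ) •
      (j : ℚ) • (xx N b ^ (j - 1) * xx N a) ∈ affC Y N := by
    rw [r0, map_neg, map_sum, sum_eq_single b (fun x _ hb => by simp [e3 x hb]) (by simp),
      map_sum, neg_add_eq_sub, ← sum_sub_distrib]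
    refine sum_mem fun j hj => ?_
    obtain ⟨i, rfl⟩ : ∃ i, j = i + 1 := ⟨j - 1, by have := (mem_Ico.1 hj).1; omega⟩
    rw [map_smul, ← smul_sub]
    refine smul_mem _ _ ?_
    have a1 := aff_der_pow hD.1 (xx N b) i 0
    rw [hx, if_pos rfl, pow_zero, one_mul, zero_add] at a1
    convert neg_mem (add_mem a1 (smul_mem _ ((i + 1 : ℕ) : ℚ)
      (aff_ser c hc (xx N b) (xx N a) i))) using 1
    rw [smul_sub, Nat.add_sub_cancel]
    abel
  have e5 : ∀ j, gx b ^ j * gx a ∈ Hom Y (j + 1) := fun j => by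
    refine Hom_mul ?_ (gx_mem a)
    induction j with
    | zero => exact wd_mem (w := []) rfl
    | succ j ih => exact _root_.pow_succ (gx b) j ▸ Hom_mul ih (gx_mem b)
  have e6 : ∀ j, sec N (k + 1) (xx N b ^ j * xx N a) =
      if j + 1 = k + 1 then gx b ^ j * gx a else 0 := fun j => by
    rw [xx, xx, ← map_pow, ← map_mul, sec_mk hd.le, pj_hom _ (e5 j)]
  have a2 := e4 (k + 1) h2 hd
  rw [map_add, map_sum, sum_eq_single (k + 1) (fun j hj hb => by
    rw [map_smul, map_smul, e6, if_neg (by have := (mem_Ico.1 hj).1; omega), smul_zero, smul_zero])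
    (fun hj => absurd (mem_Ico.2 ⟨h2, by omega⟩) hj), map_smul, map_smul, e6, Nat.add_sub_cancel,
    if_pos rfl, smul_smul] at a2
  have a3 := smul_mem _ (c (k + 1) / (k + 1).factorial) (aff_dR h k 0)
  rw [pow_zero, one_mul, zero_add, smul_add, ← e2, hc' _ h2] at a3
  convert sub_mem a3 a2 using 1
  have : (bernoulli (k + 1) / (((k + 1 : ℕ) : ℚ) * (k + 1).factorial)) * ((k + 1 : ℕ) : ℚ) =
      bernoulli (k + 1) / (k + 1).factorial := by field_simp
  rw [this]
  abel

lemma NL_AA {b a : Y} (h : a ≠ b) : NL N b a ∈ AA (r0 Y N) :=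
  aff_AA bernoulli bernoulli_zero (fun _ _ => rfl) h (NL_LD b a) (NL_xx b a)

lemma NR_AA {b a : Y} (h : a ≠ b) : NR N b a ∈ AA (r0 Y N) :=
  aff_AA bernoulli' bernoulli'_zero
    (fun _ hk => (bernoulli_eq_bernoulli'_of_ne_one (by omega)).symm) h (NR_LD b a) (NR_xx b a)

end Pool.Agent.Lib.MP_f9c34c_al.G
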