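import Pool.Agent.Lib.MP_f9c34c_al.G.Niel

/-! The exponential expansion of the free group. -/

namespace Pool.Agent.Lib.MP_f9c34c_al.G

open Submodule Finset IsNilpotent

attribute [local instance 100] LieRing.ofAssociativeRing

variable {Y : Type} {N : ℕ}

/-- The expansion. -/
noncomputable def th0 (N : ℕ) : FreeGroup Y →* (TT Y N)ˣ := FreeGroup.lift fun a => expU (xx N a)

lemma th0_of (a : Y) : (th0 N (FreeGroup.of a)).1 = exp (xx N a) := by
  rw [th0, FreeGroup.lift_apply_of, expU_val (FT_nil (xx_mem a))]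

lemma th0_inv_of (a : Y) : (th0 N (FreeGroup.of a)⁻¹).1 = exp (-xx N a) := by
  rw [map_inv, th0, FreeGroup.lift_apply_of, expU_inv (FT_nil (xx_mem a)),
    expU_val (FT_nil (xx_mem a)).neg]

lemma FT_mul_left {k : ℕ} (s : TT Y N) {t : TT Y N} (ht : t ∈ FT Y N k) : s * t ∈ FT Y N k :=
  zero_add k ▸ FT_mul (FT_zero (Y := Y) (N := N) ▸ mem_top) ht

lemma FT_mul_right {k : ℕ} {s : TT Y N} (hs : s ∈ FT Y N k) (t : TT Y N) : s * t ∈ FT Y N k :=
  FT_mul (j := 0) hs (FT_zero (Y := Y) (N := N) ▸ mem_top)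

lemma FT_mul_le {i j : ℕ} (k : ℕ) {s t : TT Y N} (hs : s ∈ FT Y N i) (ht : t ∈ FT Y N j)
    (h : k ≤ i + j) : s * t ∈ FT Y N k :=
  FT_mono h (FT_mul hs ht)

lemma exp_lead {k : ℕ} (j : ℕ) {s : TT Y N} (hn : IsNilpotent s) (hs : s ∈ FT Y N k)
    (h : j ≤ k + k) : exp s - 1 - s ∈ FT Y N j := by
  obtain ⟨n, hn⟩ := hn
  rw [exp_eq_sum (pow_eq_zero_of_le (Nat.le_add_right n 2) hn), sum_range_succ', sum_range_succ']
  simp only [zero_add, Nat.factorial_one, Nat.cast_one, inv_one, pow_one, one_smul,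
    Nat.factorial_zero, pow_zero, add_sub_cancel_right]
  refine sum_mem fun i _ => smul_mem _ _ ?_
  rw [_root_.pow_succ, _root_.pow_succ, mul_assoc]
  exact FT_mul_left _ (FT_mul_le j hs hs h)

lemma exp_sub_one_FT {s : TT Y N} (hs : s ∈ FT Y N 1) : exp s - 1 ∈ FT Y N 1 := by
  have := add_mem (exp_lead 1 (FT_nil hs) hs one_le_two) hs
  rwa [sub_add_cancel] at this

lemma unit_mul_FT {u v : TT Y N} (hu : u - 1 ∈ FT Y N 1) (hv : v - 1 ∈ FT Y N 1) :
    u * v - 1 ∈ FT Y N 1 := by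
  rw [show u * v - 1 = (u - 1) * v + (v - 1) by noncomm_ring]
  exact add_mem (FT_mul_right hu v) hv

lemma unit_inv_FT {u : (TT Y N)ˣ} (hu : u.1 - 1 ∈ FT Y N 1) : (u⁻¹).1 - 1 ∈ FT Y N 1 := by
  have := neg_mem (FT_mul_left (u⁻¹).1 hu)
  rwa [mul_sub, Units.inv_mul, mul_one, neg_sub] at this

lemma th0_sub_one (g : FreeGroup Y) : (th0 N g).1 - 1 ∈ FT Y N 1 := by
  induction g using FreeGroup.induction_on with
  | C1 => simp
  | of a => exact th0_of (N := N) a ▸ exp_sub_one_FT (xx_mem a)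
  | inv_of a ih => rw [map_inv]; exact unit_inv_FT ih
  | mul a b ha hb => rw [map_mul, Units.val_mul]; exact unit_mul_FT ha hb

lemma th0_span : span ℚ (Set.range fun g : FreeGroup Y => (th0 N g).1) = ⊤ := by
  set S := span ℚ (Set.range fun g : FreeGroup Y => (th0 N g).1)
  have h1 : (1 : TT Y N) ∈ S := subset_span ⟨1, by simp⟩
  have hm : ∀ s ∈ S, ∀ t ∈ S, s * t ∈ S := mul_le.1 (by
    rw [span_mul_span]
    refine span_le.2 ?_
    rintro _ ⟨_, ⟨g, rfl⟩, _, ⟨g', rfl⟩, rfl⟩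
    exact subset_span ⟨g * g', by simp⟩)
  have hx : ∀ a, xx N a ∈ S := fun a => by
    have hn := FT_nil (xx_mem (N := N) a)
    obtain ⟨y, h2, h3, h4⟩ := exists_log (isNilpotent_exp_sub_one hn)
    rw [add_sub_cancel] at h4
    rw [← exp_inj h3 hn h4]
    refine (span_le.2 ?_ : _ ≤ S) h2
    rintro _ ⟨k, rfl⟩
    have h5 : exp (xx N a) - 1 ∈ S := sub_mem (subset_span ⟨_, th0_of a⟩) h1
    induction k with
    | zero => simpa using h5
    | succ k ih => exact _root_.pow_succ (exp (xx N a) - 1) (k + 1) ▸ hm _ ih _ h5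
  refine eq_top_iff.2 fun s _ => FT_ind (f := LinearMap.id) (k := 0) (fun w _ => ?_)
    (FT_zero (Y := Y) (N := N) ▸ mem_top)
  induction w with
  | nil => exact mk_wd_nil (N := N) (Y := Y) ▸ h1
  | cons a w ih => exact mk_wd_cons (N := N) a w ▸ hm _ (hx a) _ (ih (Nat.zero_le _))

lemma IsA.ext_th {g g' : Module.End ℚ (TT Y N)} (h : IsA g) (h' : IsA g')
    (e : ∀ a, g (IsNilpotent.exp (xx N a)) = g' (IsNilpotent.exp (xx N a))) : g = g' :=
  h.ext h' fun a => by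
    have hn := FT_nil (xx_mem (N := N) a)
    refine exp_inj (hn.map (AlgHom.ofLinearMap g h.1 h.2))
      (hn.map (AlgHom.ofLinearMap g' h'.1 h'.2)) ?_
    rw [← h.exp hn, ← h'.exp hn, e]

/-- An algebra endomorphism inducing a group endomorphism on the generators. -/
lemma IsA.th {g : Module.End ℚ (TT Y N)} (h : IsA g) (θ : FreeGroup Y →* (TT Y N)ˣ)
    (φ : FreeGroup Y →* FreeGroup Y)
    (e : ∀ a, g (θ (FreeGroup.of a)).1 = (θ (φ (FreeGroup.of a))).1) (x : FreeGroup Y) :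
    g (θ x).1 = (θ (φ x)).1 := by
  induction x using FreeGroup.induction_on with
  | C1 => simpa using h.1
  | of a => exact e a
  | inv_of a ih =>
    rw [map_inv, map_inv, map_inv]
    refine (Units.inv_eq_of_mul_eq_one_right ?_).symm
    rw [← ih, ← h.2, Units.mul_inv, h.1]
  | mul a b ha hb => rw [map_mul, map_mul, map_mul, Units.val_mul, Units.val_mul, h.2, ha, hb]

/-- The Baker-Campbell-Hausdorff theorem. -/
theorem bch {s t : TT Y N} (hs : s ∈ LT Y N) (ht : t ∈ LT Y N) :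
    ∃ z ∈ LT Y N, exp s * exp t = exp z := by
  have hy : ∀ a : Fin 2, ![s, t] a ∈ LT Y N := Fin.forall_fin_two.2 ⟨hs, ht⟩
  obtain ⟨φ, hφ⟩ := exists_liftT (N := N) ![s, t] fun w hw => by
    have key : ∀ w : List (Fin 2), (w.map ![s, t]).prod ∈ FT Y N w.length := fun w => by
      induction w with
      | nil => exact FT_zero (Y := Y) (N := N) ▸ mem_top
      | cons a w ih =>
        rw [List.map_cons, List.prod_cons, List.length_cons, add_comm]
        exact FT_mul (LT_le (hy a)) ih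
    have := key w
    rwa [hw, FT_top (Nat.lt_succ_self N), mem_bot] at this
  have hL : ∀ n, len (xx N (Y := Fin 2)) n ≤ (LT Y N).comap φ.toLinearMap := fun n => by
    induction n with
    | zero => exact len_le0 fun a => mem_comap.2 ((hφ a).symm ▸ hy a : φ (xx N a) ∈ _)
    | succ n ih =>
      refine len_le fun a y h => mem_comap.2 ?_
      have := LT_lie (hy a) (ih h)
      rw [← hφ a] at this
      simpa only [Ring.lie_def, AlgHom.toLinearMap_apply, map_sub, map_mul] using this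
  have h01 : (1 : Fin 2) ≠ 0 := one_ne_zero
  have hD := NR_LD (N := N) (0 : Fin 2) 1
  have hn := NR_nil (N := N) h01
  have h1 := exp_NR (N := N) h01 1 0
  have h2 : exp (NR N (0 : Fin 2) 1) (xx N 0) ∈ LT (Fin 2) N :=
    exp_mem hn (fun _ h => LD_LT hD h) (LT_xx 0)
  rw [if_pos rfl, one_smul, one_smul, (DD_exp hD.1 hn).1.exp (FT_nil (xx_mem 0))] at h1
  refine ⟨_, iSup_le hL h2, ?_⟩
  have h3 := congrArg φ h1
  rw [map_mul, map_exp (FT_nil (LT_le h2)), map_exp (FT_nil (xx_mem 0)),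
    map_exp (FT_nil (xx_mem 1)), hφ, hφ] at h3
  exact h3.symm

lemma th0_log (g : FreeGroup Y) : ∃ z ∈ LT Y N, (th0 N g).1 = exp z := by
  induction g using FreeGroup.induction_on with
  | C1 => exact ⟨0, zero_mem _, by simp⟩
  | of a => exact ⟨_, LT_xx a, th0_of a⟩
  | inv_of a _ => exact ⟨_, neg_mem (LT_xx a), th0_inv_of a⟩
  | mul a b ha hb =>
    obtain ⟨y, h1, h2⟩ := ha
    obtain ⟨z, h3, h4⟩ := hb
    rw [map_mul, Units.val_mul, h2, h4]
    exact bch h1 h3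

lemma comm_lead {u v : (TT Y N)ˣ} {s t : TT Y N} (hs : s ∈ FT Y N 1) (ht : t ∈ FT Y N 1)
    (hu : u.1 - 1 - s ∈ FT Y N 2) (hv : v.1 - 1 - t ∈ FT Y N 2) :
    (u * v * u⁻¹ * v⁻¹).1 - 1 - ⁅s, t⁆ ∈ FT Y N 3 := by
  have hp : u.1 - 1 ∈ FT Y N 1 := sub_add_cancel (u.1 - 1) s ▸ add_mem (FT_mono one_le_two hu) hs
  have hq : v.1 - 1 ∈ FT Y N 1 := sub_add_cancel (v.1 - 1) t ▸ add_mem (FT_mono one_le_two hv) ht
  have e : (u * v * u⁻¹ * v⁻¹).1 - 1 = (u.1 * v.1 - v.1 * u.1) * ((u⁻¹).1 * (v⁻¹).1) := by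
    simp only [Units.val_mul, sub_mul, mul_assoc, Units.mul_inv_cancel_left, Units.mul_inv]
  have h1 := FT_mul_le 3 (sub_mem (FT_mul hp hq) (FT_mul hq hp))
    (unit_mul_FT (unit_inv_FT hp) (unit_inv_FT hq)) le_rfl
  have h2 := sub_mem (add_mem (FT_mul_le 3 hu hq le_rfl) (FT_mul_le 3 hs hv le_rfl))
    (add_mem (FT_mul_le 3 hv hp le_rfl) (FT_mul_le 3 ht hu le_rfl))
  have h3 := add_mem h1 h2
  rw [e, Ring.lie_def]
  generalize (u⁻¹).1 * (v⁻¹).1 = w at h3 ⊢
  exact (congrArg (· ∈ FT Y N 3) (by noncomm_ring)).mp h3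

lemma log_lead {z s : TT Y N} (hz : z ∈ FT Y N 1) (hs : s ∈ FT Y N 2)
    (h : exp z - 1 - s ∈ FT Y N 3) : z - s ∈ FT Y N 3 := by
  have h1 : z ∈ FT Y N 2 := by
    have := sub_mem (add_mem (FT_mono (Nat.le_succ 2) h) hs) (exp_lead 2 (FT_nil hz) hz le_rfl)
    rwa [sub_add_cancel, sub_sub_cancel] at this
  have := sub_mem h (exp_lead 3 (FT_nil hz) h1 (Nat.le_succ 3))
  rwa [sub_sub_sub_cancel_left] at this

end Pool.Agent.Lib.MP_f9c34c_al.G
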