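import Pool.Agent.Lib.MP_f9c34c_al.G.St

namespace Pool.Agent.Lib.MP_f9c34c_al.St

theorem alg_iff {T : Type} (S : (T → ℚ) → Prop) (f : T → ℚ) :
    Alg S f ↔ f ∈ Algebra.adjoin ℚ {f | S f} := by
  constructor
  · intro h
    induction h with
    | gen f h => exact Algebra.subset_adjoin h
    | const c => exact Subalgebra.algebraMap_mem _ c
    | add f g _ _ h h' => exact add_mem h h'
    | mul f g _ _ h h' => exact mul_mem h h'
  · intro h
    induction h using Algebra.adjoin_induction with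
    | mem f h => exact .gen f h
    | algebraMap c => exact .const c
    | add f g _ _ h h' => exact .add f g h h'
    | mul f g _ _ h h' => exact .mul f g h h'

section

variable {Γ : Type} [Group Γ] (A : Subalgebra ℚ (Γ → ℚ))

theorem og_iff (f : Γ → ℚ) : OG (fun f => f ∈ A) f ↔ f ∈ G.OG A := alg_iff _ f

open Classical in
/-- Extension by zero. -/
noncomputable def ex (D : Derivation ℚ (G.OG A) (G.OG A)) (f : Γ → ℚ) : Γ → ℚ :=
  if h : f ∈ G.OG A then (D ⟨f, h⟩).1 else 0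

variable {A}

theorem ex_pos (D : Derivation ℚ (G.OG A) (G.OG A)) {f : Γ → ℚ} (h : f ∈ G.OG A) :
    ex A D f = (D ⟨f, h⟩).1 := dif_pos h

theorem ex_val (D : Derivation ℚ (G.OG A) (G.OG A)) (f : G.OG A) : ex A D f.1 = (D f).1 :=
  dif_pos f.2

theorem ex_neg (D : Derivation ℚ (G.OG A) (G.OG A)) {f : Γ → ℚ} (h : f ∉ G.OG A) :
    ex A D f = 0 := dif_neg h

theorem inU_ex (D : G.UG A) : InU (fun f => f ∈ A) (ex A D.1) where
  mem f hf := by
    rw [og_iff] at hf ⊢
    rw [ex_pos _ hf]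
    exact (D.1 ⟨f, hf⟩).2
  add f g hf hg x := by
    rw [og_iff] at hf hg
    have := ex_val D.1 (⟨f, hf⟩ + ⟨g, hg⟩)
    rw [map_add] at this
    rw [ex_pos _ hf, ex_pos _ hg]
    exact congrFun this x
  smul c f hf x := by
    rw [og_iff] at hf
    have := ex_val D.1 (c • ⟨f, hf⟩)
    rw [Derivation.map_smul] at this
    rw [ex_pos _ hf]
    exact congrFun this x
  leibniz f g hf hg x := by
    rw [og_iff] at hf hg
    have := ex_val D.1 (⟨f, hf⟩ * ⟨g, hg⟩)
    rw [Derivation.leibniz] at this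
    rw [ex_pos _ hf, ex_pos _ hg]
    exact congrFun this x
  left γ f hf hg x := by
    rw [og_iff] at hf hg
    rw [ex_pos _ hf, ex_pos _ hg]
    exact D.2.1 γ ⟨f, hf⟩ ⟨_, hg⟩ (fun _ => rfl) x
  kill f hf ha x := by
    rw [og_iff] at hf
    rw [ex_pos _ hf, D.2.2 ⟨f, hf⟩ ha]
    rfl

theorem lcs_ex (n : ℕ) : ∀ D ∈ LieModule.lowerCentralSeries ℚ (G.UG A) (G.UG A) n,
    Lcs (fun f => f ∈ A) n (ex A D.1) := by
  induction n with
  | zero => exact fun D _ => .base _ (inU_ex D)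
  | succ n ih =>
    intro D hD
    rw [LieModule.lowerCentralSeries_succ, ← LieSubmodule.mem_toSubmodule,
      LieSubmodule.lieIdeal_oper_eq_linear_span'] at hD
    induction hD using Submodule.span_induction with
    | mem D hD =>
      obtain ⟨x, -, y, hy, rfl⟩ := hD
      have := Lcs.lie n _ _ (inU_ex x) (ih y hy)
      convert this using 1
      funext f p
      by_cases h : f ∈ G.OG A
      · rw [ex_pos _ h, ex_pos _ h, ex_pos _ h, ex_val, ex_val]
        simp [Derivation.commutator_apply]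
      · have h0 : ∀ z : G.UG A, ex A z.1 0 = 0 := fun z => by
          have := ex_val z.1 0
          rw [map_zero] at this
          exact this
        rw [ex_neg _ h, ex_neg _ h, ex_neg _ h, h0, h0]
        simp
    | zero =>
      convert Lcs.zero (A := fun f => f ∈ A) (n + 1) using 1
      funext f p
      by_cases h : f ∈ G.OG A
      · rw [ex_pos _ h]; simp
      · rw [ex_neg _ h]; rfl
    | add x y _ _ hx hy =>
      convert Lcs.add _ _ _ hx hy using 1
      funext f p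
      by_cases h : f ∈ G.OG A
      · rw [ex_pos _ h, ex_pos _ h, ex_pos _ h]; simp
      · rw [ex_neg _ h, ex_neg _ h, ex_neg _ h]; simp
    | smul c x _ hx =>
      convert Lcs.smul _ c _ hx using 1
      funext f p
      by_cases h : f ∈ G.OG A
      · rw [ex_pos _ h, ex_pos _ h]; simp
      · rw [ex_neg _ h, ex_neg _ h]; simp

theorem exists_res {D : (Γ → ℚ) → Γ → ℚ} (h : InU (fun f => f ∈ A) D) :
    ∃ E : G.UG A, ∀ f : G.OG A, D f.1 = (E.1 f).1 := by
  have o : ∀ f : G.OG A, OG (fun f => f ∈ A) f.1 := fun f => (og_iff A _).2 f.2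
  let L : G.OG A →ₗ[ℚ] G.OG A :=
    { toFun := fun f => ⟨D f.1, (og_iff A _).1 (h.mem _ (o f))⟩
      map_add' := fun f g => Subtype.ext (funext fun x => h.add _ _ (o f) (o g) x)
      map_smul' := fun c f => Subtype.ext (funext fun x => h.smul c _ (o f) x) }
  let E : Derivation ℚ (G.OG A) (G.OG A) := Derivation.mk' L fun f g =>
    Subtype.ext (funext fun x => h.leibniz _ _ (o f) (o g) x)
  refine ⟨⟨E, fun γ f f' e x => ?_, fun f hf => Subtype.ext (funext fun x => ?_)⟩, fun f => rfl⟩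
  · have e' : f'.1 = fun y => f.1 (γ * y) := funext e
    show D f'.1 x = D f.1 (γ * x)
    rw [e']
    exact h.left γ _ (o f) (e' ▸ o f') x
  · exact h.kill _ (o f) hf x

theorem lcs_res {n : ℕ} {D : (Γ → ℚ) → Γ → ℚ} (h : Lcs (fun f => f ∈ A) n D) :
    ∃ E ∈ LieModule.lowerCentralSeries ℚ (G.UG A) (G.UG A) n,
      ∀ f : G.OG A, D f.1 = (E.1 f).1 := by
  induction h with
  | base D h =>
    obtain ⟨E, hE⟩ := exists_res h
    exact ⟨E, by simp, hE⟩
  | lie n D E hD _ ih =>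
    obtain ⟨D', hD'⟩ := exists_res hD
    obtain ⟨E', hm, hE'⟩ := ih
    refine ⟨⁅D', E'⁆, ?_, fun f => funext fun x => ?_⟩
    · rw [LieModule.lowerCentralSeries_succ]
      exact LieSubmodule.lie_mem_lie (LieSubmodule.mem_top _) hm
    · show D (E f.1) x - E (D f.1) x = _
      rw [hE' f, hD' f, hD', hE']
      simp [Derivation.commutator_apply]
  | zero n => exact ⟨0, zero_mem _, fun f => funext fun x => by simp⟩
  | add n D E _ _ ih ih' =>
    obtain ⟨D', hm, hD'⟩ := ih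
    obtain ⟨E', hm', hE'⟩ := ih'
    exact ⟨D' + E', add_mem hm hm', fun f => funext fun x => by simp [hD' f, hE' f]⟩
  | smul n c D _ ih =>
    obtain ⟨D', hm, hD'⟩ := ih
    exact ⟨c • D', SMulMemClass.smul_mem c hm, fun f => funext fun x => by simp [hD' f]⟩

end

theorem outAct_eq (γ : G.MCG) : outAct G.rels tw holds γ = G.act γ := by
  have : outAct G.rels tw holds = G.act := PresentedGroup.ext fun i => by
    have e : G.act (PresentedGroup.of i) = QuotientGroup.mk (G.alP (FreeGroup.of i)) := by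
      rw [G.act]
      exact PresentedGroup.toGroup.of _
    rw [outAct, PresentedGroup.toGroup.of, tw_eq]
    exact e.symm
  exact DFunLike.congr_fun this γ

theorem j_eq (m : ℕ) : J m = fun f => f ∈ G.JF m := by
  funext f
  apply propext
  constructor
  · rintro ⟨F, hF, h⟩
    exact ⟨F, (alg_iff _ F).1 hF, fun γ α e => h γ α (e.trans (outAct_eq γ).symm)⟩
  · rintro ⟨F, hF, h⟩
    exact ⟨F, (alg_iff _ F).2 hF, fun γ α e => h γ α (e.trans (outAct_eq γ))⟩

theorem transfer {Γ : Type} [Group Γ] (A B : Subalgebra ℚ (Γ → ℚ)) (n : ℕ)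
    (h : B ≤ G.OG A ∧
      ∃ ξ ∈ LieModule.lowerCentralSeries ℚ (G.UG A) (G.UG A) n,
        (∃ f : G.OG A, (∀ η ∈ LieModule.lowerCentralSeries ℚ (G.UG A) (G.UG A) (n + 1),
          η.1 f = 0) ∧ ξ.1 f ≠ 0) ∧ ∀ f : G.OG A, f.1 ∈ B → ξ.1 f = 0) :
    (∀ f, f ∈ B → OG (fun f => f ∈ A) f) ∧
      ∃ ξ, Lcs (fun f => f ∈ A) n ξ ∧
        (∃ f, OG (fun f => f ∈ A) f ∧ (∀ η, Lcs (fun f => f ∈ A) (n + 1) η → ∀ x, η f x = 0) ∧
          ∃ x, ξ f x ≠ 0) ∧ ∀ f, f ∈ B → ∀ x, ξ f x = 0 := by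
  obtain ⟨hB, ξ, hξ, ⟨f, hf, hne⟩, hk⟩ := h
  refine ⟨fun f hf => (og_iff A f).2 (hB hf), ex A ξ.1, lcs_ex n ξ hξ,
    ⟨f.1, (og_iff A _).2 f.2, fun η hη x => ?_, ?_⟩, fun g hg x => ?_⟩
  · obtain ⟨E, hm, hE⟩ := lcs_res hη
    rw [hE f, hf E hm]
    rfl
  · by_contra hc
    push Not at hc
    rw [ex_val] at hc
    exact hne (Subtype.ext (funext hc))
  · rw [ex_pos _ (hB hg), hk ⟨g, hB hg⟩ hg]
    rfl

end Pool.Agent.Lib.MP_f9c34c_al.St
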