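import Pool.Agent.Lib.MP_f9c34c_al.G.Tw

/-! The beginning of the Salvetti complex of the braid group on six strands. -/

namespace Pool.Agent.Lib.MP_f9c34c_al.G

/-- The free group on the five twists. -/
abbrev F5 : Type := FreeGroup (Fin 5)

/-- The pairs of generators. -/
def rp : Fin 10 → Fin 5 × Fin 5
  | 0 => (0, 1) | 1 => (0, 2) | 2 => (0, 3) | 3 => (0, 4) | 4 => (1, 2)
  | 5 => (1, 3) | 6 => (1, 4) | 7 => (2, 3) | 8 => (2, 4) | 9 => (3, 4)

/-- The left side of a braid relation. -/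
def lhs (r : Fin 10) : List (Fin 5) :=
  if (rp r).1.val + 1 = (rp r).2.val then [(rp r).1, (rp r).2, (rp r).1] else [(rp r).1, (rp r).2]

/-- The right side of a braid relation. -/
def rhs (r : Fin 10) : List (Fin 5) :=
  if (rp r).1.val + 1 = (rp r).2.val then [(rp r).2, (rp r).1, (rp r).2] else [(rp r).2, (rp r).1]

/-- A positive word as a group element. -/
def wg (l : List (Fin 5)) : F5 := (l.map FreeGroup.of).prod

@[simp] lemma wg_nil : wg [] = 1 := rfl

@[simp] lemma wg_cons (i : Fin 5) (l : List (Fin 5)) : wg (i :: l) = FreeGroup.of i * wg l := rfl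

lemma wg_append (u v : List (Fin 5)) : wg (u ++ v) = wg u * wg v := by simp [wg]

lemma brd_rp : ∀ r, brd (rp r).1 (rp r).2 = wg (lhs r) * (wg (rhs r))⁻¹ := by decide +kernel

lemma rp_lt : ∀ r, (rp r).1 < (rp r).2 := by decide

lemma exists_rp : ∀ i j, i < j → ∃ r, rp r = (i, j) := by decide

lemma lr_mem (r : Fin 10) : wg (lhs r) * (wg (rhs r))⁻¹ ∈ rels :=
  Or.inl ⟨_, _, rp_lt r, (brd_rp r).symm⟩

/-- Closed paths of positive words; a step `(s, u, r, v)` goes from `u ++ lhs r ++ v` to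
`u ++ rhs r ++ v` if `s` is true, and back otherwise. -/
def cells : Fin 10 → List (Bool × List (Fin 5) × Fin 10 × List (Fin 5))
  | 0 => [(true, [], 0, [2, 1, 0]), (true, [1, 0], 4, [0]), (true, [1], 1, [1, 2, 0]), (false, [1,
      2, 0, 1], 1, []), (true, [1, 2], 0, [2]), (true, [], 4, [0, 1, 2]), (false, [2, 1], 1, [1,
      2]), (false, [2, 1, 0], 4, []), (false, [2], 0, [2, 1]), (false, [], 1, [1, 0, 2, 1]),
      (true, [0, 2, 1], 1, [1]), (false, [0], 4, [0, 1]), (false, [0, 1, 2], 0, []), (false, [0,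
      1], 1, [1, 0])]
  | 1 => [(true, [], 0, [3]), (true, [1, 0], 5, []), (true, [1], 2, [1]), (true, [], 5, [0, 1]),
      (false, [3], 0, []), (false, [], 2, [1, 0]), (false, [0], 5, [0]), (false, [0, 1], 2, [])]
  | 2 => [(true, [], 0, [4]), (true, [1, 0], 6, []), (true, [1], 3, [1]), (true, [], 6, [0, 1]),
      (false, [4], 0, []), (false, [], 3, [1, 0]), (false, [0], 6, [0]), (false, [0, 1], 3, [])]
  | 3 => [(true, [], 1, [3, 2]), (true, [2], 2, [2]), (true, [2, 3], 1, []), (true, [], 7, [0]),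
      (false, [3, 2], 2, []), (false, [3], 1, [3]), (false, [], 2, [2, 3]), (false, [0], 7, [])]
  | 4 => [(true, [], 1, [4]), (true, [2], 3, []), (true, [], 8, [0]), (false, [4], 1, []), (false,
      [], 3, [2]), (false, [0], 8, [])]
  | 5 => [(true, [], 2, [4, 3]), (true, [3], 3, [3]), (true, [3, 4], 2, []), (true, [], 9, [0]),
      (false, [4, 3], 3, []), (false, [4], 2, [4]), (false, [], 3, [3, 4]), (false, [0], 9, [])]
  | 6 => [(true, [], 4, [3, 2, 1]), (true, [2, 1], 7, [1]), (true, [2], 5, [2, 3, 1]), (false, [2,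
      3, 1, 2], 5, []), (true, [2, 3], 4, [3]), (true, [], 7, [1, 2, 3]), (false, [3, 2], 5, [2,
      3]), (false, [3, 2, 1], 7, []), (false, [3], 4, [3, 2]), (false, [], 5, [2, 1, 3, 2]),
      (true, [1, 3, 2], 5, [2]), (false, [1], 7, [1, 2]), (false, [1, 2, 3], 4, []), (false, [1,
      2], 5, [2, 1])]
  | 7 => [(true, [], 4, [4]), (true, [2, 1], 8, []), (true, [2], 6, [2]), (true, [], 8, [1, 2]),
      (false, [4], 4, []), (false, [], 6, [2, 1]), (false, [1], 8, [1]), (false, [1, 2], 6, [])]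
  | 8 => [(true, [], 5, [4, 3]), (true, [3], 6, [3]), (true, [3, 4], 5, []), (true, [], 9, [1]),
      (false, [4, 3], 6, []), (false, [4], 5, [4]), (false, [], 6, [3, 4]), (false, [1], 9, [])]
  | 9 => [(true, [], 7, [4, 3, 2]), (true, [3, 2], 9, [2]), (true, [3], 8, [3, 4, 2]), (false, [3,
      4, 2, 3], 8, []), (true, [3, 4], 7, [4]), (true, [], 9, [2, 3, 4]), (false, [4, 3], 8, [3,
      4]), (false, [4, 3, 2], 9, []), (false, [4], 7, [4, 3]), (false, [], 8, [3, 2, 4, 3]),
      (true, [2, 4, 3], 8, [3]), (false, [2], 9, [2, 3]), (false, [2, 3, 4], 7, []), (false, [2,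
      3], 8, [3, 2])]

variable {V : Type} [AddCommGroup V] [Module ℚ V] (ρ : F5 →* Module.End ℚ V)

/-- The crossed homomorphism with given values, on positive words. -/
def fox (v : Fin 5 → V) : List (Fin 5) → V
  | [] => 0
  | i :: w => v i + ρ (FreeGroup.of i) (fox v w)

/-- The first differential. -/
def d1 (v : Fin 5 → V) (r : Fin 10) : V := fox ρ v (lhs r) - fox ρ v (rhs r)

/-- The second differential. -/
def d2 (z : Fin 10 → V) (c : Fin 10) : V :=
  ((cells c).map fun s => (if s.1 then (1 : ℚ) else -1) • ρ (wg s.2.1) (z s.2.2.1)).sum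

lemma fox_append (v : Fin 5 → V) (u w : List (Fin 5)) :
    fox ρ v (u ++ w) = fox ρ v u + ρ (wg u) (fox ρ v w) := by
  induction u with
  | nil => simp [fox]
  | cons i u ih => simp [fox, ih, add_assoc]

/-- The word at which a step starts. -/
private def src (s : Bool × List (Fin 5) × Fin 10 × List (Fin 5)) : List (Fin 5) :=
  s.2.1 ++ (if s.1 then lhs s.2.2.1 else rhs s.2.2.1) ++ s.2.2.2

/-- The word at which a step ends. -/
private def tgt (s : Bool × List (Fin 5) × Fin 10 × List (Fin 5)) : List (Fin 5) :=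
  s.2.1 ++ (if s.1 then rhs s.2.2.1 else lhs s.2.2.1) ++ s.2.2.2

/-- The steps form a path from `w` to `e`. -/
private def pth (e : List (Fin 5)) :
    List (Fin 5) → List (Bool × List (Fin 5) × Fin 10 × List (Fin 5)) → Bool
  | w, [] => w == e
  | w, s :: l => src s == w && pth e (tgt s) l

private lemma pth_cells : ∀ c, pth (src (cells c).head!) (src (cells c).head!) (cells c) = true := by
  decide +kernel

/-- A cochain with a potential is a cocycle. -/
lemma d2_of_pot {z : Fin 10 → V} (Φ : List (Fin 5) → V)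
    (h : ∀ u r v, Φ (u ++ lhs r ++ v) - Φ (u ++ rhs r ++ v) = ρ (wg u) (z r)) (c : Fin 10) :
    d2 ρ z c = 0 := by
  have key : ∀ e l w, pth e w l = true → (l.map fun s =>
      (if s.1 then (1 : ℚ) else -1) • ρ (wg s.2.1) (z s.2.2.1)).sum = Φ w - Φ e := by
    intro e l
    induction l with
    | nil => intro w hw; simp_all [pth]
    | cons s l ih =>
      intro w hw
      simp only [pth, Bool.and_eq_true, beq_iff_eq] at hw
      rw [List.map_cons, List.sum_cons, ih _ hw.2, ← hw.1, ← h _ _ s.2.2.2]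
      obtain ⟨b, u, r, v⟩ := s
      cases b <;> simp [src, tgt]
  rw [d2, key _ _ _ (pth_cells c), sub_self]

lemma d2_d1 (h : ∀ r, ρ (wg (lhs r)) = ρ (wg (rhs r))) (v : Fin 5 → V) (c : Fin 10) :
    d2 ρ (d1 ρ v) c = 0 :=
  d2_of_pot ρ (fox ρ v) (fun u r w => by simp [fox_append, d1, h r]) c

/-- Cocycles whose values on the relations among the outer generators lie in `V1` are
coboundaries. -/
def LAst (V1 : Submodule ℚ V) : Prop :=
  ∀ z : Fin 10 → V, (∀ r, (rp r).1 ≠ 2 → (rp r).2 ≠ 2 → z r ∈ V1) → (∀ c, d2 ρ z c = 0) →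
    ∃ v : Fin 5 → V, ∀ r, z r = d1 ρ v r

section Braid
variable {G : Type*} [Monoid G] (a : F5 →* G) (h : ∀ r, a (wg (lhs r)) = a (wg (rhs r)))
include h

private lemma semi (i : Fin 4) :
    SemiconjBy (a chain) (a (FreeGroup.of i.castSucc)) (a (FreeGroup.of i.succ)) ∧
    SemiconjBy (a (.of 4 * .of 3 * .of 2 * .of 1 * .of 0)) (a (FreeGroup.of i.succ))
      (a (FreeGroup.of i.castSucc)) := by
  have k : ∀ r x, a (wg (lhs r)) * x = a (wg (rhs r)) * x := fun r x => by rw [h r]
  have k0 := k 0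
  have k1 := k 1
  have k2 := k 2
  have k3 := k 3
  have k4 := k 4
  have k5 := k 5
  have k6 := k 6
  have k7 := k 7
  have k8 := k 8
  have k9 := k 9
  simp [lhs, rhs, rp, mul_assoc] at k0 k1 k2 k3 k4 k5 k6 k7 k8 k9
  simp only [SemiconjBy, chain, map_mul]
  constructor <;> refine (mul_one _).symm.trans (Eq.trans ?_ (mul_one _)) <;> fin_cases i <;>
    simp only [Fin.zero_eta, Fin.mk_one, Fin.reduceFinMk, Fin.reduceCastSucc, Fin.reduceSucc,
      Fin.isValue, mul_assoc]
  · simp only [k0, ← k1, ← k2, ← k3]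
  · simp only [k4, ← k1, ← k5, ← k6]
  · simp only [k7, ← k2, ← k5, ← k8]
  · simp only [k9, ← k3, ← k6, ← k8]
  · simp only [k0, k1, k2, k3]
  · simp only [k4, k1, k5, k6]
  · simp only [k7, k2, k5, k8]
  · simp only [k9, k3, k6, k8]

lemma chain_comm (i : Fin 5) : Commute (a (chain ^ 6)) (a (FreeGroup.of i)) := by
  have s0 : SemiconjBy (a chain) (a (.of 0)) (a (.of 1)) := (semi a h 0).1
  have s1 : SemiconjBy (a chain) (a (.of 1)) (a (.of 2)) := (semi a h 1).1
  have s2 : SemiconjBy (a chain) (a (.of 2)) (a (.of 3)) := (semi a h 2).1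
  have s3 : SemiconjBy (a chain) (a (.of 3)) (a (.of 4)) := (semi a h 3).1
  have e : a chain = a (.of 0) * a (.of 1) * a (.of 2) * a (.of 3) * a (.of 4) := by
    simp only [chain, map_mul]
  have s4 : SemiconjBy (a chain * a chain) (a (.of 4)) (a (.of 0)) := by
    have := (((s0.mul_right s1).mul_right s2).mul_right s3).eq
    calc a chain * a chain * a (.of 4)
        = a (.of 0) * (a (.of 1) * a (.of 2) * a (.of 3) * a (.of 4) * a chain) * a (.of 4) := by
          nth_rw 1 [e]; simp only [mul_assoc]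
      _ = a (.of 0) * (a chain * a chain) := by
          rw [← this]; nth_rw 3 [e]; simp only [mul_assoc]
  rw [map_pow, show a chain ^ 6 = a chain * a chain * a chain * a chain * a chain * a chain by
    simp only [pow_succ, pow_zero, one_mul]]
  fin_cases i
  · exact (((s4.mul_left s3).mul_left s2).mul_left s1).mul_left s0
  · simpa only [mul_assoc, Commute, Fin.mk_one, Fin.reduceFinMk] using
      (((s0.mul_left s4).mul_left s3).mul_left s2).mul_left s1
  · simpa only [mul_assoc, Commute, Fin.mk_one, Fin.reduceFinMk] using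
      (((s1.mul_left s0).mul_left s4).mul_left s3).mul_left s2
  · simpa only [mul_assoc, Commute, Fin.mk_one, Fin.reduceFinMk] using
      (((s2.mul_left s1).mul_left s0).mul_left s4).mul_left s3
  · simpa only [mul_assoc, Commute, Fin.mk_one, Fin.reduceFinMk] using
      (((s3.mul_left s2).mul_left s1).mul_left s0).mul_left s4

lemma hyp_comm {i : Fin 5} (hi : i ≠ 0) : Commute (a hyp) (a (FreeGroup.of i)) := by
  obtain ⟨j, rfl⟩ := Fin.exists_succ_eq.2 hi
  rw [hyp, map_mul]
  exact (semi a h j).1.mul_left (semi a h j).2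

end Braid

/-- The action of the twists on the five coordinates: row `c` gives the image of coordinate
`c`. -/
def Wm : Fin 5 → Fin 5 → Fin 5 → ℤ
  | 0 => ![![1, 0, 0, 0, 0], ![0, 1, 0, 0, 0], ![1, 0, 1, 0, 0], ![0, 1, 0, 1, 0], ![0, 0, 0, 0, 1]]
  | 1 => ![![1, 0, -1, 0, 0], ![0, 1, 0, -1, 0], ![0, 0, 1, 0, 0], ![0, 0, 0, 1, 0],
      ![0, 0, 0, 0, 1]]
  | 2 => ![![1, 0, 0, 0, 0], ![1, 1, 0, 0, 0], ![1, 0, 1, 0, 0], ![0, 1, 1, 1, 2],
      ![-1, 0, 0, 0, 1]]
  | 3 => ![![1, -1, 0, 0, 0], ![0, 1, 0, 0, 0], ![0, 0, 1, -1, 0], ![0, 0, 0, 1, 0],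
      ![0, 0, 0, 0, 1]]
  | 4 => ![![1, 0, 0, 0, 0], ![1, 1, 0, 0, 0], ![0, 0, 1, 0, 0], ![0, 0, 1, 1, 0], ![0, 0, 0, 0, 1]]

section Mon
variable {A : Type} [CommRing A] [Algebra ℚ A] (p : Fin 5 → A)

/-- A monomial in five elements. -/
def mon (e : Fin 5 → ℕ) : A := ∏ c, p c ^ e c

/-- The span of the monomials of degree `n`. -/
def Vn (n : ℕ) : Submodule ℚ A := Submodule.span ℚ {x | ∃ e, ∑ c, e c = n ∧ x = mon p e}

/-- The span of the monomials of degree `n` divisible by the last element. -/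
def Vp (n : ℕ) : Submodule ℚ A :=
  Submodule.span ℚ {x | ∃ e, ∑ c, e c = n ∧ 1 ≤ e 4 ∧ x = mon p e}

end Mon

end Pool.Agent.Lib.MP_f9c34c_al.G
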