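import Pool.Agent.Lib.MP_f9c34c_al.Trie

namespace Pool.Agent.Lib.MP_f9c34c_al.G

open Tr

theorem chk_e : vanX 12 (pull 0 15 (dT 1 (pre 0 (lf 1))) lamT) = true := by
  decide +kernel

theorem chk_f : vanX 12 (pull 0 15 (dT 0 (pre 1 (lf 1))) lamT) = true := by
  decide +kernel

end Pool.Agent.Lib.MP_f9c34c_al.G
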