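import Pool.Agent.Lib.MP_f9c34c_al.Form

/-! The first fundamental theorem of invariant theory for two by two matrices of determinant
one. -/

namespace Pool.Agent.Lib.MP_f9c34c_al.G

open Submodule Finset

attribute [local instance 100] LieRing.ofAssociativeRing

/-- The inner product for which the words are orthonormal. -/
noncomputable def ip2 : T2 →ₗ[ℚ] T2 →ₗ[ℚ] ℚ :=
  lin fun u => lin fun v => if u = v then 1 else 0

lemma ip2_wd (u v : List (Fin 2)) : ip2 (wd u) (wd v) = if u = v then 1 else 0 := by simp [ip2]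

lemma ip2_symm (s t : T2) : ip2 s t = ip2 t s :=
  T_ext' (f := ip2.flip t) (g := ip2 t) (fun u => T_ext' (f := ip2 (wd u)) (g := ip2.flip (wd u))
    (fun v => by simp only [LinearMap.flip_apply, ip2_wd, eq_comm]) t) s

lemma ip2_repr (s : T2) (v : FreeMonoid (Fin 2)) :
    ip2 s (MonoidAlgebra.basis (FreeMonoid (Fin 2)) ℚ v) =
      (MonoidAlgebra.basis (FreeMonoid (Fin 2)) ℚ).repr s v :=
  T_ext' (f := ip2.flip (wd v.toList))
    (g := (MonoidAlgebra.basis (FreeMonoid (Fin 2)) ℚ).coord v) (fun u => by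
      have : wd u = MonoidAlgebra.basis (FreeMonoid (Fin 2)) ℚ (FreeMonoid.ofList u) := rfl
      rw [LinearMap.flip_apply, ip2_wd, this, Module.Basis.coord_apply, Module.Basis.repr_self]
      split_ifs with h
      · rw [h]; exact Finsupp.single_eq_same.symm
      · exact (Finsupp.single_eq_of_ne fun e => h (congrArg FreeMonoid.toList e).symm).symm) s

lemma ip2_pos {s : T2} (h : ip2 s s = 0) : s = 0 := by
  have e : ip2 s s = ((MonoidAlgebra.basis (FreeMonoid (Fin 2)) ℚ).repr s).sum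
      fun w c => c * (MonoidAlgebra.basis (FreeMonoid (Fin 2)) ℚ).repr s w := by
    conv_lhs => arg 2; rw [← (MonoidAlgebra.basis (FreeMonoid (Fin 2)) ℚ).linearCombination_repr s]
    rw [Finsupp.linearCombination_apply, map_finsuppSum]
    simp only [map_smul, ip2_repr, smul_eq_mul]
  rw [e, Finsupp.sum, sum_eq_zero_iff_of_nonneg fun _ _ => mul_self_nonneg _] at h
  refine (MonoidAlgebra.basis (FreeMonoid (Fin 2)) ℚ).repr.injective (Finsupp.ext fun w => ?_)
  rw [map_zero, Finsupp.zero_apply]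
  by_contra hw
  exact hw (mul_self_eq_zero.1 (h w (Finsupp.mem_support_iff.2 hw)))

lemma ip2_gx (a : Fin 2) (s t : T2) : ip2 (gx a * s) t = ip2 s (dL a t) :=
  T_ext' (f := ip2.flip t ∘ₗ LinearMap.mulLeft ℚ (gx a)) (g := ip2.flip (dL a t)) (fun u =>
    T_ext' (f := ip2 (gx a * wd u)) (g := ip2 (wd u) ∘ₗ dL a) (fun v => by
      rw [← wd_cons, ip2_wd, LinearMap.comp_apply, dL, lin_wd]
      cases v with
      | nil => simp
      | cons b v =>
        by_cases h : b = a
        · simp [h, ip2_wd]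
        · simp [h, Ne.symm h]) t) s

lemma ip2_gx_gx (a b : Fin 2) (s t : T2) :
    ip2 (gx a * s) (gx b * t) = if b = a then ip2 s t else 0 := by
  rw [ip2_gx, dL_gx]
  split_ifs <;> simp

lemma ip2_gx_one (a : Fin 2) (s : T2) : ip2 (gx a * s) 1 = 0 := by
  rw [ip2_gx, ← wd_nil, dL, lin_wd]
  simp

lemma Hom_fin (p : ℕ) : FiniteDimensional ℚ (Hom (Fin 2) p) := by
  refine FiniteDimensional.span_of_finite ℚ
    (((List.finite_length_eq (Fin 2) p).image wd).subset ?_)
  rintro _ ⟨w, hw, rfl⟩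
  exact ⟨w, hw, rfl⟩

lemma riesz {p : ℕ} {S : Submodule ℚ T2} (hS : S ≤ Hom (Fin 2) p) (φ : T2 →ₗ[ℚ] ℚ) :
    ∃ v ∈ S, ∀ s ∈ S, φ s = ip2 v s := by
  have := Hom_fin p
  have : FiniteDimensional ℚ S := Submodule.finiteDimensional_of_le hS
  have hi : Function.Injective (ip2.domRestrict₁₂ S S) :=
    (injective_iff_map_eq_zero _).2 fun v hv =>
      Subtype.ext (ip2_pos (LinearMap.congr_fun hv v))
  obtain ⟨v, hv⟩ := (LinearMap.injective_iff_surjective_of_finrank_eq_finrank
    (Subspace.dual_finrank_eq (K := ℚ) (V := S)).symm).1 hi (φ.domRestrict S)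
  exact ⟨v, v.2, fun s hs => (LinearMap.congr_fun hv ⟨s, hs⟩).symm⟩

/-- Insert the commutator at position `i`. -/
noncomputable def ins (i : ℕ) : Module.End ℚ T2 :=
  lin fun w => wd (w.take i) * cc * wd (w.drop i)

/-- The span of the iterated insertions. -/
noncomputable def PQ : ℕ → Submodule ℚ T2
  | 0 => span ℚ {1}
  | n + 1 => span ℚ {s | ∃ i ≤ 2 * n, ∃ u ∈ PQ n, s = ins i u}

lemma cc_hom : cc ∈ Hom (Fin 2) 2 := len_Hom 1 cc_len

lemma ins_mul {i : ℕ} {s : T2} (hs : s ∈ Hom (Fin 2) i) (t : T2) : ins i (s * t) = s * cc * t :=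
  Hom_ext (f := ins i ∘ₗ LinearMap.mulRight ℚ t) (g := LinearMap.mulRight ℚ (cc * t)) (fun u hu =>
    T_ext' (f := ins i ∘ₗ LinearMap.mulLeft ℚ (wd u)) (g := LinearMap.mulLeft ℚ (wd u * cc))
      (fun v => by
        simp only [LinearMap.comp_apply, LinearMap.mulLeft_apply]
        rw [← wd_append, ins, lin_wd, List.take_left' hu, List.drop_left' hu]) t |>.trans
      (mul_assoc _ _ _)) hs |>.trans (mul_assoc _ _ _).symm

lemma ins_hom (i : ℕ) {p : ℕ} {s : T2} (hs : s ∈ Hom (Fin 2) p) : ins i s ∈ Hom (Fin 2) (p + 2) :=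
  Hom_mem (fun w hw => by
    have := Hom_mul (Hom_mul (wd_mem (w := w.take i) rfl) cc_hom) (wd_mem (w := w.drop i) rfl)
    rw [show (w.take i).length + 2 + (w.drop i).length = p + 2 by
      rw [add_right_comm, ← List.length_append, List.take_append_drop, hw]] at this
    rwa [ins, lin_wd]) hs

lemma PQ_hom {n : ℕ} {s : T2} (hs : s ∈ PQ n) : s ∈ Hom (Fin 2) (2 * n) := by
  induction n generalizing s with
  | zero =>
    refine (span_le.2 ?_ : span ℚ {1} ≤ Hom (Fin 2) (2 * 0)) hs
    rintro _ rfl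
    exact wd_mem (w := []) rfl
  | succ n ih =>
    refine (span_le.2 ?_ : span ℚ {s | ∃ i ≤ 2 * n, ∃ u ∈ PQ n, s = ins i u} ≤
      Hom (Fin 2) (2 * (n + 1))) hs
    rintro _ ⟨i, -, u, hu, rfl⟩
    exact ins_hom i (ih hu)

lemma perm_inv {p : ℕ} {φ : T2 →ₗ[ℚ] ℚ}
    (h : ∀ a b : List (Fin 2), a.length + b.length + 2 = p → φ (wd a * cc * wd b) = 0)
    {w w' : List (Fin 2)} (hw : w.Perm w') :
    ∀ a : List (Fin 2), a.length + w.length = p → φ (wd (a ++ w)) = φ (wd (a ++ w')) := by
  induction hw with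
  | nil => intro a _; rfl
  | cons x _ ih =>
    intro a ha
    have := ih (a ++ [x]) (by simp only [List.length_append, List.length_cons, List.length_nil] at *
                              omega)
    simpa only [List.append_assoc, List.singleton_append] using this
  | swap x y l =>
    intro a ha
    have := h a l (by simp only [List.length_cons] at ha; omega)
    rw [cc, Ring.lie_def, mul_sub, sub_mul, map_sub, sub_eq_zero] at this
    simp only [wd_append, wd_cons, ← mul_assoc] at this ⊢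
    fin_cases x <;> fin_cases y
    exacts [rfl, this.symm, this, rfl]
  | trans h1 _ ih1 ih2 =>
    intro a ha
    exact (ih1 a ha).trans (ih2 a (by rw [← h1.length_eq, ha]))

variable (E : Fin 2 → Module.End ℚ T2) (hE : ∀ i, IsDer (E i))
  (hx : ∀ i j, E i (gx j) = if j = i then 0 else gx i)
include hE hx

lemma ip2_adj (s t : T2) : ip2 (E 0 s) t = ip2 s (E 1 t) := by
  have key : ∀ u v : List (Fin 2), ip2 (E 0 (wd u)) (wd v) = ip2 (wd u) (E 1 (wd v)) := fun u => by
    induction u with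
    | nil =>
      intro v
      rw [wd_nil, (hE 0).one, map_zero, LinearMap.zero_apply, ip2_symm]
      cases v with
      | nil => rw [wd_nil, (hE 1).one, map_zero, LinearMap.zero_apply]
      | cons b v =>
        rw [wd_cons, hE 1, hx, map_add, LinearMap.add_apply, ip2_gx_one]
        split_ifs
        · simp
        · rw [ip2_gx_one, add_zero]
    | cons a u ih =>
      intro v
      rw [wd_cons, hE 0, hx, map_add, LinearMap.add_apply]
      cases v with
      | nil =>
        rw [wd_nil, (hE 1).one, map_zero, ip2_gx_one]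
        split_ifs
        · simp
        · rw [ip2_gx_one, add_zero]
      | cons b v =>
        rw [wd_cons, hE 1, hx, map_add, ip2_gx_gx, ip2_gx_gx, ih]
        fin_cases a <;> fin_cases b <;> simp [ip2_gx_gx]
  exact T_ext' (f := ip2.flip t ∘ₗ E 0) (g := ip2.flip (E 1 t)) (fun u =>
    T_ext' (f := ip2 (E 0 (wd u))) (g := ip2 (wd u) ∘ₗ E 1) (key u) t) s

lemma ip2_adj' (i : Fin 2) (s t : T2) : ip2 (E i s) t = ip2 s (E (i + 1) t) := by
  fin_cases i
  · exact ip2_adj E hE hx s t
  · exact (ip2_symm _ _).trans ((ip2_adj E hE hx t s).symm.trans (ip2_symm _ _))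

lemma E_hom (i : Fin 2) {p : ℕ} {s : T2} (hs : s ∈ Hom (Fin 2) p) : E i s ∈ Hom (Fin 2) p :=
  (hE i).hom (m := 0) (fun x => by
    rw [hx]
    split_ifs
    exacts [zero_mem _, gx_mem i]) hs

lemma E_cc (i : Fin 2) : E i cc = 0 := by
  rw [cc, (hE i).br, hx, hx]
  fin_cases i <;> simp

lemma E_ins (j : Fin 2) {i p : ℕ} (hi : i ≤ p) {s : T2} (hs : s ∈ Hom (Fin 2) p) :
    E j (ins i s) = ins i (E j s) :=
  Hom_ext (f := E j ∘ₗ ins i) (g := ins i ∘ₗ E j) (fun w hw => by
    have h1 : wd (w.take i) ∈ Hom (Fin 2) i := wd_mem (by rw [List.length_take]; omega)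
    simp only [LinearMap.comp_apply]
    rw [← List.take_append_drop i w, wd_append, ins_mul h1, hE j, hE j, hE j, E_cc E hE hx, map_add,
      ins_mul h1, ins_mul (E_hom E hE hx j h1), mul_zero, add_zero]) hs

lemma E_PQ (j : Fin 2) {n : ℕ} {s : T2} (hs : s ∈ PQ n) : E j s = 0 := by
  induction n generalizing s with
  | zero =>
    refine (span_le.2 ?_ : span ℚ {1} ≤ LinearMap.ker (E j)) hs
    rintro _ rfl
    exact (hE j).one
  | succ n ih =>
    refine (span_le.2 ?_ : span ℚ {s | ∃ i ≤ 2 * n, ∃ u ∈ PQ n, s = ins i u} ≤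
      LinearMap.ker (E j)) hs
    rintro _ ⟨i, hi, u, hu, rfl⟩
    rw [SetLike.mem_coe, LinearMap.mem_ker, E_ins E hE hx j hi (PQ_hom hu), ih hu, map_zero]

lemma sym_count {p : ℕ} {φ : T2 →ₗ[ℚ] ℚ}
    (h : ∀ w w' : List (Fin 2), w.Perm w' → w.length = p → φ (wd w) = φ (wd w')) (x : Fin 2)
    (z : List (Fin 2)) (w : List (Fin 2)) : ∀ a : List (Fin 2),
    (x :: (a ++ w)).Perm ((x + 1) :: z) → a.length + w.length = p →
      φ (wd a * E x (wd w)) = (w.count (x + 1) : ℚ) * φ (wd z) := by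
  have hne : x ≠ x + 1 := by fin_cases x <;> decide
  induction w with
  | nil => intro a _ _; simp [wd_nil, (hE x).one]
  | cons y w ih =>
    intro a ha hl
    have := ih (a ++ [y]) (by simpa only [List.append_assoc, List.singleton_append] using ha)
      (by simp only [List.length_append, List.length_cons, List.length_nil] at *; omega)
    rw [wd_append, ← gx] at this
    rw [wd_cons, hE x, hx, mul_add, map_add, ← mul_assoc (wd a) (gx y), this]
    by_cases hy : y = x
    · rw [if_pos hy, zero_mul, mul_zero, map_zero, zero_add, hy, List.count_cons_of_ne hne]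
    · obtain rfl : y = x + 1 := by
        revert hy
        fin_cases x <;> fin_cases y <;> decide
      rw [if_neg hy, List.count_cons_self, ← wd_cons, ← wd_append, h (a ++ x :: w) z ?_
        (by simpa only [List.length_append, List.length_cons] using hl)]
      · push_cast; ring
      · refine List.perm_middle.trans (List.Perm.cons_inv (a := x + 1) ?_)
        exact (List.Perm.swap _ _ _).trans ((List.perm_middle.cons x).symm.trans ha)

lemma rep_of_span {n : ℕ}
    (ih : ∀ v ∈ Hom (Fin 2) (2 * n), (∀ i, E i v = 0) → v ∈ PQ n)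
    {S : Submodule ℚ T2} (hS : S ≤ Hom (Fin 2) (2 * n))
    (hES : ∀ i, ∀ s ∈ S, E i s ∈ S) (φ : T2 →ₗ[ℚ] ℚ) (h : ∀ i, ∀ s ∈ S, φ (E i s) = 0) :
    ∃ v ∈ PQ n, ∀ s ∈ S, φ s = ip2 v s := by
  obtain ⟨v, hv, e⟩ := riesz hS φ
  refine ⟨v, ih v (hS hv) fun i => ip2_pos ?_, e⟩
  rw [ip2_adj' E hE hx, ← e _ (hES _ _ (hES _ _ hv)), h _ _ (hES _ _ hv)]

theorem fft_span {n : ℕ} {v : T2} (hv : v ∈ Hom (Fin 2) (2 * n)) (h : ∀ i, E i v = 0) :
    v ∈ PQ n := by
  induction n generalizing v with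
  | zero =>
    refine (span_le.2 ?_ : Hom (Fin 2) (2 * 0) ≤ PQ 0) hv
    rintro _ ⟨w, hw, rfl⟩
    obtain rfl := List.length_eq_zero_iff.1 hw
    exact subset_span rfl
  | succ n ih =>
    obtain ⟨u, hu, e⟩ := riesz (S := PQ (n + 1)) (fun _ => PQ_hom) (ip2 v)
    have h1 : ∀ i s, ip2 (v - u) (E i s) = 0 := fun i s => by
      rw [ip2_symm, ip2_adj' E hE hx, map_sub, h, E_PQ E hE hx _ hu, sub_zero, map_zero]
    have h2 : ∀ a b : List (Fin 2), a.length + b.length + 2 = 2 * (n + 1) →
        ip2 (v - u) (wd a * cc * wd b) = 0 := fun a b hab => by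
      have hi : a.length ≤ 2 * n := by omega
      obtain ⟨y, hy, e'⟩ := rep_of_span E hE hx (fun _ => ih) le_rfl
        (fun i s hs => E_hom E hE hx i hs) (ip2 (v - u) ∘ₗ ins a.length) fun i s hs => by
          rw [LinearMap.comp_apply, ← E_ins E hE hx i hi hs, h1]
      obtain rfl : y = 0 := ip2_pos (by
        rw [← e' y (PQ_hom hy), LinearMap.comp_apply, map_sub, LinearMap.sub_apply,
          e _ (subset_span ⟨_, hi, y, hy, rfl⟩), sub_self])
      have := e' (wd a * wd b) (by
        rw [← wd_append]; exact wd_mem (by rw [List.length_append]; omega))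
      rwa [LinearMap.comp_apply, ins_mul (wd_mem rfl), map_zero, LinearMap.zero_apply] at this
    have h3 : ∀ w w' : List (Fin 2), w.Perm w' → w.length = 2 * (n + 1) →
        ip2 (v - u) (wd w) = ip2 (v - u) (wd w') := fun w w' hw hl =>
      perm_inv h2 hw [] (by simpa using hl)
    have h4 : ip2 (v - u) (v - u) = 0 := by
      refine Hom_ext (f := ip2 (v - u)) (g := 0) (fun w hw => ?_) (sub_mem hv (PQ_hom hu))
      obtain ⟨x, w, rfl⟩ := List.exists_cons_of_length_eq_add_one
        (n := 2 * n + 1) (hw.trans (by ring))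
      have := sym_count E hE hx h3 x (x :: w) ((x + 1) :: w) [] (List.Perm.swap _ _ _)
        (by simpa using hw)
      rw [wd_nil, one_mul, h1, List.count_cons_self] at this
      exact (mul_eq_zero.1 this.symm).resolve_left (by positivity)
    rw [sub_eq_zero.1 (ip2_pos h4)]
    exact hu

theorem fft_rep {n : ℕ} {S : Submodule ℚ T2} (hS : S ≤ Hom (Fin 2) (2 * n))
    (hES : ∀ i, ∀ s ∈ S, E i s ∈ S) (φ : T2 →ₗ[ℚ] ℚ) (h : ∀ i, ∀ s ∈ S, φ (E i s) = 0) :
    ∃ v ∈ PQ n, ∀ s ∈ S, φ s = ip2 v s :=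
  rep_of_span E hE hx (fun _ hv h => fft_span E hE hx hv h) hS hES φ h

end Pool.Agent.Lib.MP_f9c34c_al.G
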