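import Pool.Agent.Lib.MP_f9c34c_al.G.Poly

/-! The Pluecker coordinates of the Lagrangian. -/

namespace Pool.Agent.Lib.MP_f9c34c_al.G

open Finset

/-- The minors of the rows of the first kind. -/
def mn (x y : X) : F5 → ℚ := fun w => fh w a0 x * fh w a1 y - fh w a1 x * fh w a0 y

/-- The five coordinates. -/
def pl : Fin 5 → F5 → ℚ
  | 0 => mn a0 a1
  | 1 => mn a0 b1
  | 2 => mn b0 a1
  | 3 => mn b0 b1
  | 4 => mn a0 b0

lemma mn_lag : mn a1 b1 = -mn a0 b0 := by
  funext w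
  have h := congrFun (congrFun (fh_symp w) a0) a1
  simp [JM, Matrix.mul_apply, Fintype.sum_prod_type, Fin.sum_univ_two, Matrix.single_apply] at h
  simp only [mn, Pi.neg_apply]
  linear_combination h

section Gen
variable {A : Type} [CommRing A] [Algebra ℚ A] (p : Fin 5 → A)

omit [Algebra ℚ A] in
lemma std_add (e e' : Fin 5 → ℕ) : mon p (e + e') = mon p e * mon p e' := by
  simp only [mon, Pi.add_apply, pow_add, prod_mul_distrib]

omit [Algebra ℚ A] in
lemma std_single (c : Fin 5) : mon p (Pi.single c 1) = p c := by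
  rw [mon, prod_eq_single c (fun b _ hb => by rw [Pi.single_eq_of_ne hb, pow_zero]) (by simp),
    Pi.single_eq_same, pow_one]

lemma std_mon (e : Fin 5 → ℕ) : mon p e ∈ Vn p (∑ c, e c) := Submodule.subset_span ⟨e, rfl, rfl⟩

lemma std_gen (c : Fin 5) : p c ∈ Vn p 1 :=
  Submodule.subset_span ⟨Pi.single c 1, by simp, (std_single p c).symm⟩

lemma std_one : (1 : A) ∈ Vn p 0 := Submodule.subset_span ⟨0, by simp, by simp [mon]⟩

lemma std_split {e : Fin 5 → ℕ} {c : Fin 5} (h : 1 ≤ e c) :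
    ∃ e' : Fin 5 → ℕ, e = e' + Pi.single c 1 :=
  ⟨e - Pi.single c 1, funext fun b => by
    by_cases hb : b = c
    · subst hb
      simp only [Pi.add_apply, Pi.sub_apply, Pi.single_eq_same]
      omega
    · simp [Pi.single_eq_of_ne hb]⟩

lemma std_sum (e : Fin 5 → ℕ) (c : Fin 5) :
    ∑ b, (e + Pi.single c 1 : Fin 5 → ℕ) b = ∑ b, e b + 1 := by
  simp [sum_add_distrib]

end Gen

lemma std_anti (x y : X) : mn x y = -mn y x := by
  funext w
  simp only [mn, Pi.neg_apply]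
  ring

lemma std_self (x : X) : mn x x = 0 := by
  funext w
  simp only [mn, Pi.zero_apply]
  ring

lemma mn_mem (x y : X) : mn x y ∈ Vn pl 1 := by
  have h0 : mn a0 a1 ∈ Vn pl 1 := std_gen pl 0
  have h1 : mn a0 b1 ∈ Vn pl 1 := std_gen pl 1
  have h2 : mn b0 a1 ∈ Vn pl 1 := std_gen pl 2
  have h3 : mn b0 b1 ∈ Vn pl 1 := std_gen pl 3
  have h4 : mn a0 b0 ∈ Vn pl 1 := std_gen pl 4
  have h5 : mn a1 b1 ∈ Vn pl 1 := mn_lag ▸ neg_mem h4
  have hs : ∀ x, mn x x ∈ Vn pl 1 := fun x => std_self x ▸ zero_mem _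
  have ha : ∀ {x y}, mn x y ∈ Vn pl 1 → mn y x ∈ Vn pl 1 := fun {x y} h =>
    std_anti y x ▸ neg_mem h
  have hx : ∀ x : X, x = a0 ∨ x = b0 ∨ x = a1 ∨ x = b1 := by decide
  rcases hx x with rfl | rfl | rfl | rfl <;> rcases hx y with rfl | rfl | rfl | rfl
  exacts [hs _, h4, h0, h1, ha h4, hs _, h2, h3, ha h0, ha h2, hs _, h5, ha h1, ha h3, ha h5, hs _]

lemma pl_rel : pl 1 * pl 2 = pl 0 * pl 3 + pl 4 ^ 2 := by
  funext w
  have h := congrFun mn_lag w
  simp only [pl, mn, Pi.mul_apply, Pi.add_apply, Pi.pow_apply, Pi.neg_apply] at h ⊢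
  linear_combination (-(fh w a0 a0 * fh w a1 b0 - fh w a1 a0 * fh w a0 b0)) * h

/-- The column operations. -/
def stdCol (t : ℚ) (u : X → ℚ) : Fin 5 → X → ℚ
  | 0, (0, true) => u b0 + t * u a0
  | 1, (0, false) => u a0 - t * u b0
  | 2, (0, true) => u b0 + t * (u a0 - u a1)
  | 2, (1, true) => u b1 + t * (u a1 - u a0)
  | 3, (1, false) => u a1 - t * u b1
  | 4, (1, true) => u b1 + t * u a1
  | _, x => u x

lemma std_zpow (i : Fin 5) (n : ℤ) : fh (FreeGroup.of i ^ n) = 1 + (n : ℚ) • fm i := by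
  induction n using Int.induction_on with
  | zero => simp
  | succ n ih =>
    rw [zpow_add_one, map_mul, ih, fh_of, add_mul, mul_add, mul_add, smul_mul_assoc,
      smul_mul_assoc, fm_sq]
    push_cast
    simp only [mul_one, one_mul, smul_zero, add_zero, add_smul, one_smul]
    abel
  | pred n ih =>
    rw [zpow_sub_one, map_mul, ih, fh_inv_of, add_mul, mul_sub, mul_sub, smul_mul_assoc,
      smul_mul_assoc, fm_sq]
    push_cast
    simp only [mul_one, one_mul, smul_zero, sub_zero, sub_smul, one_smul]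
    abel

lemma std_col (w : F5) (i : Fin 5) (n : ℤ) (r : X) :
    fh (w * FreeGroup.of i ^ n) r = stdCol n (fh w r) i := by
  funext x
  rw [map_mul, std_zpow, mul_add, mul_one, mul_smul_comm, Matrix.add_apply, Matrix.smul_apply,
    Matrix.mul_apply]
  have hx : ∀ x : X, x = a0 ∨ x = b0 ∨ x = a1 ∨ x = b1 := by decide
  fin_cases i <;> rcases hx x with rfl | rfl | rfl | rfl <;>
    simp [fm, stdCol, Fintype.sum_prod_type, Fin.sum_univ_two, Matrix.single_apply,
      sub_eq_add_neg, add_comm]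

lemma std_col1 (w : F5) (i : Fin 5) (r : X) :
    fh (w * FreeGroup.of i) r = stdCol 1 (fh w r) i := by
  have := std_col w i 1 r
  rwa [zpow_one, Int.cast_one] at this

lemma pl_Rt (i c : Fin 5) : Rt (FreeGroup.of i) (pl c) = ∑ c', (Wm i c c' : ℚ) • pl c' := by
  funext w
  have h := congrFun mn_lag w
  simp only [mn, Pi.neg_apply] at h
  rw [Rt_apply, Fin.sum_univ_five]
  fin_cases i <;> fin_cases c <;>
    simp [pl, mn, std_col1, stdCol, Wm, -map_mul] <;>
    first | ring1 | linear_combination h | linear_combination -h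

lemma Vn_mul {A : Type} [CommRing A] [Algebra ℚ A] {p : Fin 5 → A} {m n : ℕ} {x y : A}
    (hx : x ∈ Vn p m) (hy : y ∈ Vn p n) : x * y ∈ Vn p (m + n) := by
  have h : Vn p m * Vn p n ≤ Vn p (m + n) := by
    rw [Vn, Vn, Submodule.span_mul_span]
    refine Submodule.span_mono ?_
    rintro _ ⟨_, ⟨e, rfl, rfl⟩, _, ⟨e', rfl, rfl⟩, rfl⟩
    exact ⟨e + e', by simp [sum_add_distrib], (std_add p e e').symm⟩
  exact h (Submodule.mul_mem_mul hx hy)

section Gen
variable {A : Type} [CommRing A] [Algebra ℚ A] {p : Fin 5 → A}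

lemma std_pow {x : A} (hx : x ∈ Vn p 1) (k : ℕ) : x ^ k ∈ Vn p k := by
  induction k with
  | zero => rw [pow_zero]; exact std_one p
  | succ k ih => rw [pow_succ]; exact Vn_mul ih hx

lemma std_prod {q : Fin 5 → A} (hq : ∀ c, q c ∈ Vn p 1) (e : Fin 5 → ℕ) :
    mon q e ∈ Vn p (∑ c, e c) := by
  rw [mon, Fin.prod_univ_five, Fin.sum_univ_five]
  exact Vn_mul (Vn_mul (Vn_mul (Vn_mul (std_pow (hq 0) _) (std_pow (hq 1) _)) (std_pow (hq 2) _))
    (std_pow (hq 3) _)) (std_pow (hq 4) _)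

lemma std_Vp {n : ℕ} {x : A} (hx : x ∈ Vn p n) : x * p 4 ∈ Vp p (n + 1) := by
  induction hx using Submodule.span_induction with
  | mem x hx =>
    obtain ⟨e, rfl, rfl⟩ := hx
    exact Submodule.subset_span ⟨e + Pi.single 4 1, std_sum e 4, by simp,
      by rw [std_add, std_single]⟩
  | zero => rw [zero_mul]; exact zero_mem _
  | add x y _ _ h h' => rw [add_mul]; exact add_mem h h'
  | smul c x _ h => rw [smul_mul_assoc]; exact Submodule.smul_mem _ c h

end Gen

lemma std_Rt_mon (w : F5) (e : Fin 5 → ℕ) : Rt w (mon pl e) = mon (fun c => Rt w (pl c)) e := by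
  funext v
  simp only [mon, Rt_apply, Finset.prod_apply, Pi.pow_apply]

lemma std_mn_Opoly (x y : X) : mn x y ∈ Opoly :=
  sub_mem (pol_mul (entry_Opoly a0 x) (entry_Opoly a1 y))
    (pol_mul (entry_Opoly a1 x) (entry_Opoly a0 y))

lemma std_pl (c : Fin 5) : ∃ x y, pl c = mn x y := by
  fin_cases c <;> exact ⟨_, _, rfl⟩

lemma Vn_Opoly {n : ℕ} {φ : F5 → ℚ} (h : φ ∈ Vn pl n) : φ ∈ Opoly := by
  refine (Submodule.span_le (p := Subalgebra.toSubmodule Opoly)).2 ?_ h
  rintro _ ⟨e, -, rfl⟩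
  refine Subalgebra.prod_mem Opoly fun c _ => Subalgebra.pow_mem Opoly ?_ _
  obtain ⟨x, y, h⟩ := std_pl c
  exact h ▸ std_mn_Opoly x y

lemma std_Rt_mn (w : F5) (x y : X) :
    Rt w (mn x y) = ∑ x', ∑ y', (fh w x' x * fh w y' y) • mn x' y' := by
  funext v
  simp only [Rt_apply, mn, map_mul, Matrix.mul_apply, Finset.sum_apply, Pi.smul_apply,
    smul_eq_mul, Finset.sum_mul_sum, ← sum_sub_distrib]
  exact sum_congr rfl fun x' _ => sum_congr rfl fun y' _ => by ring

lemma Vn_Rt (w : F5) {n : ℕ} {φ : F5 → ℚ} (h : φ ∈ Vn pl n) : Rt w φ ∈ Vn pl n := by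
  refine (Submodule.span_le (p := (Vn pl n).comap (Rt w))).2 ?_ h
  rintro _ ⟨e, rfl, rfl⟩
  change Rt w (mon pl e) ∈ Vn pl _
  rw [std_Rt_mon]
  refine std_prod (fun c => ?_) e
  obtain ⟨x, y, h⟩ := std_pl c
  rw [h, std_Rt_mn]
  exact Submodule.sum_mem _ fun x' _ => Submodule.sum_mem _ fun y' _ =>
    Submodule.smul_mem _ _ (mn_mem x' y')

lemma std_four {i : Fin 5} (hi : i ≠ 2) : Rt (FreeGroup.of i) (pl 4) = pl 4 := by
  rw [pl_Rt, Fin.sum_univ_five]
  fin_cases i <;> first | exact absurd rfl hi | simp [Wm]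

lemma Vp_Rt {i : Fin 5} (hi : i ≠ 2) {n : ℕ} {φ : F5 → ℚ} (h : φ ∈ Vp pl n) :
    Rt (FreeGroup.of i) φ ∈ Vp pl n := by
  refine (Submodule.span_le (p := (Vp pl n).comap (Rt (FreeGroup.of i)))).2 ?_ h
  rintro _ ⟨e, rfl, h4, rfl⟩
  obtain ⟨e', rfl⟩ := std_split h4
  change Rt (FreeGroup.of i) (mon pl _) ∈ Vp pl _
  rw [std_Rt_mon, std_add, std_single, std_four hi, ← std_Rt_mon, std_sum]
  exact std_Vp (Vn_Rt _ (std_mon pl e'))

lemma Rt_hyp {n : ℕ} {φ : F5 → ℚ} (h : φ ∈ Vn pl n) : Rt hyp φ = φ := by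
  have h1 : (fun c => Rt hyp (pl c)) = pl := by
    funext c w
    obtain ⟨x, y, h⟩ := std_pl c
    rw [h]
    simp only [Rt_apply, mn, map_mul, fh_hyp, mul_neg_one, Matrix.neg_apply, neg_mul_neg]
  refine LinearMap.eqOn_span (f := Rt hyp) (g := LinearMap.id) ?_ h
  rintro _ ⟨e, -, rfl⟩
  rw [std_Rt_mon, h1]
  rfl

instance Vn_fin (n : ℕ) : FiniteDimensional ℚ (Vn pl n) := by
  refine FiniteDimensional.span_of_finite ℚ
    (((Nat.antidiagonalTuple 5 n).finite_toSet.image (mon pl)).subset ?_)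
  rintro _ ⟨e, he, rfl⟩
  exact ⟨e, Nat.mem_antidiagonalTuple.2 he, rfl⟩

lemma std_cell (i j k : ℤ) (c : Fin 5) :
    pl c (FreeGroup.of 0 ^ i * FreeGroup.of 2 ^ j * FreeGroup.of 4 ^ k) =
      ![1, (j : ℚ) + k, i + j, (i + j) * (j + k) - j ^ 2, -j] c := by
  rw [← one_mul (FreeGroup.of 0 ^ i : F5)]
  have h : fh 1 = 1 := map_one fh
  fin_cases c <;> simp [pl, mn, std_col, stdCol, h, -map_mul, -one_mul]
  ring

/-- The values on the big cell. -/
lemma pl_cell (i j k : ℕ) (c : Fin 5) :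
    pl c (FreeGroup.of 0 ^ i * FreeGroup.of 2 ^ j * FreeGroup.of 4 ^ k) =
      ![1, (j : ℚ) + k, i + j, (i + j) * (j + k) - j ^ 2, -j] c := by
  have := std_cell i j k c
  simpa only [zpow_natCast, Int.cast_natCast] using this

lemma std_li (U : Fin 5 → Polynomial ℚ) (hU : ∀ c, U c ≠ 0) (w : ℕ → F5) (S : Set (Fin 5 → ℕ))
    (hw : ∀ e ∈ S, ∀ t c, pl c (w t) ^ e c = (U c).eval (t : ℚ) ^ e c)
    (hS : Set.InjOn (fun e : Fin 5 → ℕ => ∑ c, e c * (U c).natDegree) S) :
    LinearIndependent ℚ fun e : S => LinearMap.funLeft ℚ ℚ w (mon pl e.1) := by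
  have h0 : ∀ e, mon U e ≠ 0 := fun e => prod_ne_zero_iff.2 fun c _ => pow_ne_zero _ (hU c)
  have h1 : ∀ e, (mon U e).natDegree = ∑ c, e c * (U c).natDegree := fun e => by
    rw [mon, Polynomial.natDegree_prod _ _ fun c _ => pow_ne_zero _ (hU c)]
    simp only [Polynomial.natDegree_pow]
  refine linearIndependent_iff'.2 fun s g h i hi => ?_
  have h2 : ∑ e ∈ s, g e • mon U e.1 = 0 := by
    refine Polynomial.eq_zero_of_infinite_isRoot _
      (Set.infinite_of_injective_forall_mem (f := fun t : ℕ => (t : ℚ)) Nat.cast_injective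
        fun t => ?_)
    have h3 := congrFun h t
    rw [Finset.sum_apply] at h3
    change Polynomial.eval _ _ = 0
    rw [Polynomial.eval_finsetSum]
    refine Eq.trans (sum_congr rfl fun e _ => ?_) h3
    rw [Polynomial.eval_smul, Pi.smul_apply, LinearMap.funLeft_apply, mon, mon,
      Polynomial.eval_prod, Finset.prod_apply]
    simp only [Polynomial.eval_pow, Pi.pow_apply, hw e.1 e.2]
  have h4 : ∀ e : S, g e • mon U e.1 ≠ 0 → (g e • mon U e.1).degree = (mon U e.1).natDegree := by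
    intro e he
    rw [Polynomial.smul_eq_C_mul, Polynomial.degree_C_mul (left_ne_zero_of_smul he),
      Polynomial.degree_eq_natDegree (h0 _)]
  have h5 := Polynomial.degree_sum_eq_of_disjoint (fun e : S => g e • mon U e.1) s (by
    intro e he e' he' hne h6
    simp only [Function.comp_apply, h4 e he.2, h4 e' he'.2, Nat.cast_inj, h1] at h6
    exact hne (Subtype.ext (hS e.2 e'.2 h6)))
  rw [h2, Polynomial.degree_zero, eq_comm, Finset.sup_eq_bot_iff] at h5
  exact (smul_eq_zero.1 (Polynomial.degree_eq_bot.1 (h5 i hi))).resolve_right (h0 _)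

lemma std_van {w : ℕ → F5} {S : Set (Fin 5 → ℕ)}
    (h : LinearIndependent ℚ fun e : S => LinearMap.funLeft ℚ ℚ w (mon pl e.1)) {χ : F5 → ℚ}
    (hχ : χ ∈ Submodule.span ℚ (Set.range fun e : S => mon pl e.1)) (h0 : ∀ t, χ (w t) = 0) :
    χ = 0 := by
  rw [← Finsupp.range_linearCombination] at hχ
  obtain ⟨l, rfl⟩ := hχ
  have h1 := Finsupp.apply_linearCombination ℚ (LinearMap.funLeft ℚ ℚ w)
    (fun e : S => mon pl e.1) l
  have h2 : l = 0 := linearIndependent_iff.1 h l (h1.symm.trans (funext h0))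
  rw [h2, map_zero]

lemma std_digit {a a' b b' : ℕ} (h1 : a < 11) (h2 : a' < 11) (h : a + 11 * b = a' + 11 * b') :
    a = a' ∧ b = b' := by
  omega

/-- Points of the big cell. -/
def stdPt (t : ℕ) : F5 := FreeGroup.of 0 ^ (2 * ((t : ℤ) - t ^ 121)) *
  FreeGroup.of 2 ^ (2 * (t : ℤ) ^ 121) * FreeGroup.of 4 ^ ((t : ℤ) ^ 11 - 2 * t ^ 121)

set_option maxRecDepth 4000 in
open Polynomial in
lemma std_big : LinearIndependent ℚ fun e : {e : Fin 5 → ℕ | ∑ c, e c = 10 ∧ e 4 ≤ 1} =>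
    LinearMap.funLeft ℚ ℚ stdPt (mon pl e.1) := by
  have d1 : (Polynomial.X ^ 11 : ℚ[X]).natDegree = 11 := natDegree_X_pow 11
  have d2 : (C 2 * Polynomial.X : ℚ[X]).natDegree = 1 := natDegree_C_mul_X _ two_ne_zero
  have d3 : (C 2 * Polynomial.X ^ 12 - C 4 * Polynomial.X ^ 242 : ℚ[X]).natDegree = 242 := by
    have a1 := natDegree_C_mul_X_pow 12 (2 : ℚ) two_ne_zero
    have a2 := natDegree_C_mul_X_pow 242 (4 : ℚ) four_ne_zero
    rw [natDegree_sub_eq_right_of_natDegree_lt (by rw [a1, a2]; norm_num), a2]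
  have d4 : (C (-2) * Polynomial.X ^ 121 : ℚ[X]).natDegree = 121 :=
    natDegree_C_mul_X_pow 121 (-2 : ℚ) (by norm_num)
  have hne : ∀ {q : ℚ[X]} {n : ℕ}, q.natDegree = n + 1 → q ≠ 0 := fun h h0 => by
    rw [h0, natDegree_zero] at h
    omega
  refine std_li ![1, Polynomial.X ^ 11, C 2 * Polynomial.X,
    C 2 * Polynomial.X ^ 12 - C 4 * Polynomial.X ^ 242, C (-2) * Polynomial.X ^ 121] ?_ _ _ ?_ ?_
  · intro c
    fin_cases c
    exacts [one_ne_zero, hne (n := 10) d1, hne (n := 0) d2, hne (n := 241) d3, hne (n := 120) d4]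
  · intro e _ t c
    congr 1
    rw [stdPt, std_cell]
    fin_cases c <;> simp <;> ring
  · rintro e ⟨h1, h2⟩ e' ⟨h3, h4⟩ h
    simp only [Fin.sum_univ_five] at h h1 h3
    simp only [Matrix.cons_val, d1, d2, d3, d4, natDegree_one] at h
    obtain ⟨a1, a2⟩ := std_digit (a := e 2) (a' := e' 2) (b := e 1 + 11 * (2 * e 3 + e 4))
      (b' := e' 1 + 11 * (2 * e' 3 + e' 4)) (by omega) (by omega) (by omega)
    obtain ⟨a3, a4⟩ := std_digit (by omega) (by omega) a2
    clear h a2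
    funext c
    fin_cases c
    · change e 0 = e' 0
      omega
    · change e 1 = e' 1
      omega
    · change e 2 = e' 2
      omega
    · change e 3 = e' 3
      omega
    · change e 4 = e' 4
      omega

theorem pl_ind :
    LinearIndependent ℚ fun e : {e : Fin 5 → ℕ // ∑ c, e c = 10 ∧ e 4 ≤ 1} => mon pl e.1 :=
  LinearIndependent.of_comp (LinearMap.funLeft ℚ ℚ stdPt) std_big

/-- Points preserving the handles. -/
def stdPt0 (t : ℕ) : F5 := FreeGroup.of 0 ^ t * FreeGroup.of 2 ^ 0 * FreeGroup.of 4 ^ t ^ 11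

open Polynomial in
lemma std_small : LinearIndependent ℚ
    fun e : {e : Fin 5 → ℕ | ∑ c, e c = 10 ∧ e 4 = 0 ∧ (e 1 = 0 ∨ e 2 = 0)} =>
    LinearMap.funLeft ℚ ℚ stdPt0 (mon pl e.1) := by
  refine std_li ![1, Polynomial.X ^ 11, Polynomial.X, Polynomial.X ^ 12, 1] ?_ _ _ ?_ ?_
  · intro c
    fin_cases c <;> simp
  · rintro e ⟨-, h, -⟩ t c
    rw [stdPt0, pl_cell]
    by_cases hc : c = 4
    · rw [hc, h, pow_zero, pow_zero]
    · congr 1
      fin_cases c <;> first | exact absurd rfl hc | simp <;> ring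
  · rintro e ⟨h1, h2, h5⟩ e' ⟨h3, h4, h6⟩ h
    simp only [Fin.sum_univ_five] at h h1 h3
    simp only [Matrix.cons_val, natDegree_X_pow, natDegree_X, natDegree_one] at h
    obtain ⟨a1, a2⟩ := std_digit (a := e 2 + e 3) (a' := e' 2 + e' 3) (b := e 1 + e 3)
      (b' := e' 1 + e' 3) (by omega) (by omega) (by omega)
    clear h
    funext c
    fin_cases c
    · change e 0 = e' 0
      omega
    · change e 1 = e' 1
      omega
    · change e 2 = e' 2
      omega
    · change e 3 = e' 3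
      omega
    · change e 4 = e' 4
      omega

lemma std_red1 (n : ℕ) : ∀ e : Fin 5 → ℕ, e 1 = n → ∑ c, e c = 10 →
    mon pl e ∈ Vp pl 10 ⊔ Submodule.span ℚ (Set.range
      fun e : {e : Fin 5 → ℕ | ∑ c, e c = 10 ∧ e 4 = 0 ∧ (e 1 = 0 ∨ e 2 = 0)} => mon pl e.1) := by
  induction n using Nat.strong_induction_on with
  | _ n ih =>
    intro e hn he
    by_cases h4 : 1 ≤ e 4
    · exact Submodule.mem_sup_left (Submodule.subset_span ⟨e, he, h4, rfl⟩)
    by_cases h : e 1 = 0 ∨ e 2 = 0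
    · exact Submodule.mem_sup_right (Submodule.subset_span ⟨⟨e, he, by omega, h⟩, rfl⟩)
    obtain ⟨e1, rfl⟩ := std_split (e := e) (c := 1) (by omega)
    obtain ⟨e2, rfl⟩ := std_split (e := e1) (c := 2) (by
      have : (e1 + Pi.single 1 1 : Fin 5 → ℕ) 2 = e1 2 := by simp
      omega)
    rw [std_sum, std_sum] at he
    have e3 : mon pl (e2 + Pi.single 2 1 + Pi.single 1 1) =
        mon pl (e2 + Pi.single 0 1 + Pi.single 3 1) +
          mon pl (e2 + Pi.single 4 1 + Pi.single 4 1) := by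
      simp only [std_add, std_single]
      linear_combination mon pl e2 * pl_rel
    rw [e3]
    refine add_mem (ih (e2 1) ?_ _ (by simp) (by rw [std_sum, std_sum, he]))
      (Submodule.mem_sup_left (Submodule.subset_span
        ⟨_, by rw [std_sum, std_sum, he], by simp, rfl⟩))
    rw [← hn]
    simp

lemma std_red4 (n : ℕ) : ∀ e : Fin 5 → ℕ, e 4 = n → ∑ c, e c = 10 →
    mon pl e ∈ Submodule.span ℚ (Set.range
      fun e : {e : Fin 5 → ℕ | ∑ c, e c = 10 ∧ e 4 ≤ 1} => mon pl e.1) := by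
  induction n using Nat.strong_induction_on with
  | _ n ih =>
    intro e hn he
    by_cases h4 : e 4 ≤ 1
    · exact Submodule.subset_span ⟨⟨e, he, h4⟩, rfl⟩
    obtain ⟨e1, rfl⟩ := std_split (e := e) (c := 4) (by omega)
    obtain ⟨e2, rfl⟩ := std_split (e := e1) (c := 4) (by
      have : (e1 + Pi.single 4 1 : Fin 5 → ℕ) 4 = e1 4 + 1 := by simp
      omega)
    rw [std_sum, std_sum] at he
    have e3 : mon pl (e2 + Pi.single 4 1 + Pi.single 4 1) =
        mon pl (e2 + Pi.single 1 1 + Pi.single 2 1) -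
          mon pl (e2 + Pi.single 0 1 + Pi.single 3 1) := by
      simp only [std_add, std_single]
      linear_combination (-mon pl e2) * pl_rel
    have h5 : e2 4 < n := by
      rw [← hn]
      simp only [Pi.add_apply, Pi.single_eq_same]
      omega
    rw [e3]
    exact sub_mem (ih _ h5 _ (by simp) (by rw [std_sum, std_sum, he]))
      (ih _ h5 _ (by simp) (by rw [std_sum, std_sum, he]))

/-- The stabilizer of a function. -/
def stdStab (φ : F5 → ℚ) : Subgroup F5 where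
  carrier := {w | Rt w φ = φ}
  mul_mem' {a b} ha hb := by
    change Rt (a * b) φ = φ
    rw [map_mul, Module.End.mul_apply, hb, ha]
  one_mem' := by
    change Rt 1 φ = φ
    rw [map_one, Module.End.one_apply]
  inv_mem' {a} ha := by
    change Rt a⁻¹ φ = φ
    conv_lhs => rw [← ha]
    rw [← Module.End.mul_apply, ← map_mul, inv_mul_cancel, map_one, Module.End.one_apply]

lemma std_val {φ : F5 → ℚ} {w : F5} (h : w ∈ stdStab φ) : φ w = φ 1 := by
  have := congrFun (show Rt w φ = φ from h) 1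
  rwa [Rt_apply, one_mul] at this

lemma std_HH {w : F5} (hw : w ∈ HH) {φ : F5 → ℚ} (h : φ ∈ Vp pl 10) : φ w = 0 := by
  have h1 : pl 4 w = 0 := by
    have h2 : HH ≤ stdStab (pl 4) := (Subgroup.closure_le _).2 (by
      rintro _ ⟨i, hi, rfl⟩
      exact std_four hi)
    have h3 := pl_cell 0 0 0 4
    rw [std_val (h2 hw)]
    simpa using h3
  refine (Submodule.span_le (p := LinearMap.ker (LinearMap.proj w : (F5 → ℚ) →ₗ[ℚ] ℚ))).2 ?_ h
  rintro _ ⟨e, -, h4, rfl⟩
  obtain ⟨e', rfl⟩ := std_split h4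
  change mon pl _ w = 0
  rw [std_add, std_single, Pi.mul_apply, h1, mul_zero]

theorem mem_Vp {φ : F5 → ℚ} (h : φ ∈ Vn pl 10) (h0 : ∀ w ∈ HH, φ w = 0) : φ ∈ Vp pl 10 := by
  have h1 := (Submodule.span_le.2 (by
    rintro _ ⟨e, he, rfl⟩
    exact std_red1 _ e rfl he) : Vn pl 10 ≤ _) h
  obtain ⟨ψ, hψ, χ, hχ, rfl⟩ := Submodule.mem_sup.1 h1
  have h2 : χ = 0 := std_van std_small hχ fun t => by
    have h3 : stdPt0 t ∈ HH := by
      have hm : ∀ i : Fin 5, i ≠ 2 → FreeGroup.of i ∈ HH := fun i hi =>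
        Subgroup.subset_closure ⟨i, hi, rfl⟩
      rw [stdPt0, pow_zero, mul_one]
      exact mul_mem (pow_mem (hm 0 (by decide)) _) (pow_mem (hm 4 (by decide)) _)
    have h4 := h0 _ h3
    rwa [Pi.add_apply, std_HH h3 hψ, zero_add] at h4
  rw [h2, add_zero]
  exact hψ

theorem Vn_inv {φ : F5 → ℚ} (h : φ ∈ Vn pl 10) (e : ∀ i ≠ 0, Rt (FreeGroup.of i) φ = φ) :
    φ = 0 := by
  have h1 : ∀ i ≠ 0, FreeGroup.of i ∈ stdStab φ := e
  have h2 : FreeGroup.of 0 ^ 2 ∈ stdStab φ := by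
    obtain ⟨w, hw, hf⟩ := exists_fh_zero
    have h3 : w ∈ stdStab φ := (Subgroup.closure_le _).2 (by
      rintro _ ⟨i, hi, rfl⟩
      exact h1 i hi) hw
    refine Eq.trans (funext fun v => ?_) (show Rt w φ = φ from h3)
    exact Opoly_congr (Vn_Opoly h) (by rw [map_mul, map_mul, hf])
  have h3 : φ - φ 1 • pl 0 ^ 10 ∈ Vn pl 10 :=
    sub_mem h (Submodule.smul_mem _ _ (std_pow (std_gen pl 0) 10))
  have h4 := (Submodule.span_le.2 (by
    rintro _ ⟨e, he, rfl⟩
    exact std_red4 _ e rfl he) : Vn pl 10 ≤ _) h3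
  have h5 := std_van std_big h4 fun t => by
    have h6 : stdPt t ∈ stdStab φ := by
      rw [stdPt, zpow_mul]
      exact mul_mem (mul_mem (zpow_mem h2 _) (zpow_mem (h1 2 (by decide)) _))
        (zpow_mem (h1 4 (by decide)) _)
    have h7 : pl 0 (stdPt t) = 1 := std_cell _ _ _ 0
    rw [Pi.sub_apply, Pi.smul_apply, Pi.pow_apply, h7, std_val h6, one_pow, smul_eq_mul, mul_one,
      sub_self]
  have h8 : pl 0 (FreeGroup.of 2 * FreeGroup.of 1) = 0 := by
    rw [← one_mul (FreeGroup.of 2 : F5)]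
    have h : fh 1 = 1 := map_one fh
    simp [pl, mn, std_col1, stdCol, h, -map_mul, -one_mul]
  have h9 := congrFun h5 (FreeGroup.of 2 * FreeGroup.of 1)
  rw [Pi.sub_apply, Pi.smul_apply, Pi.pow_apply, h8,
    std_val (mul_mem (h1 2 (by decide)) (h1 1 (by decide)))] at h9
  have h10 : φ 1 = 0 := by simpa using h9
  rwa [h10, zero_smul, sub_zero] at h5

/-- The representation. -/
def rV : F5 →* Module.End ℚ (Vn pl 10) where
  toFun w := (Rt w).restrict fun _ => Vn_Rt w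
  map_one' := by ext; simp
  map_mul' a b := by ext; simp [mul_assoc]

lemma rV_val (w : F5) (v : Vn pl 10) : (rV w v).1 = Rt w v.1 := rfl

end Pool.Agent.Lib.MP_f9c34c_al.G
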