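import Pool.Agent.Lib.MP_f9c34c_al.G.White
import Pool.Agent.Lib.MP_f9c34c_al.G.Cells

/-! The symplectic representation. -/

namespace Pool.Agent.Lib.MP_f9c34c_al.G

open Matrix

attribute [local instance 100] LieRing.ofAssociativeRing

/-- The letters. -/
abbrev a0 : X := (0, false)
/-- The letters. -/
abbrev b0 : X := (0, true)
/-- The letters. -/
abbrev a1 : X := (1, false)
/-- The letters. -/
abbrev b1 : X := (1, true)

/-- The logarithms of the transvections; column `x` is the image of the letter `x`. -/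
def fm : Fin 5 → Matrix X X ℚ
  | 0 => single a0 b0 1
  | 1 => single b0 a0 (-1)
  | 2 => single a0 b0 1 - single a1 b0 1 + single a1 b1 1 - single a0 b1 1
  | 3 => single b1 a1 (-1)
  | 4 => single a1 b1 1

lemma fm_sq (i : Fin 5) : fm i * fm i = 0 := by
  revert i
  decide +kernel

lemma fm_nil (i : Fin 5) : IsNilpotent (fm i) := ⟨2, by rw [pow_two, fm_sq]⟩

/-- The transvections. -/
def rm (i : Fin 5) : (Matrix X X ℚ)ˣ :=
  ⟨1 + fm i, 1 - fm i, by simp [mul_sub, add_mul, fm_sq], by simp [mul_add, sub_mul, fm_sq]⟩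

/-- The symplectic representation. -/
def fh : F5 →* Matrix X X ℚ := (Units.coeHom _).comp (FreeGroup.lift rm)

lemma fh_of (i : Fin 5) : fh (FreeGroup.of i) = 1 + fm i := by simp [fh, rm]

lemma fh_inv_of (i : Fin 5) : fh (FreeGroup.of i)⁻¹ = 1 - fm i := by
  simp [fh, rm]

/-- The matrix of the symplectic form. -/
def JM : Matrix X X ℚ := single a0 b0 1 - single b0 a0 1 + single a1 b1 1 - single b1 a1 1

lemma lin_symp_gen : ∀ i : Fin 5, (1 + fm i) * JM * (1 + fm i)ᵀ = JM ∧
    (1 - fm i) * JM * (1 - fm i)ᵀ = JM ∧ fm i * JM + JM * (fm i)ᵀ = 0 := by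
  decide +kernel

lemma lin_JM_sq : JM * JM = -1 := by
  decide +kernel

lemma fh_symp (w : F5) : fh w * JM * (fh w)ᵀ = JM := by
  induction w using FreeGroup.induction_on with
  | C1 => simp
  | of i => rw [fh_of]; exact (lin_symp_gen i).1
  | inv_of i _ => rw [fh_inv_of]; exact (lin_symp_gen i).2.1
  | mul x y hx hy =>
    rw [map_mul, transpose_mul]
    calc fh x * fh y * JM * ((fh y)ᵀ * (fh x)ᵀ) = fh x * (fh y * JM * (fh y)ᵀ) * (fh x)ᵀ := by
          simp only [Matrix.mul_assoc]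
      _ = JM := by rw [hy, hx]

lemma fh_inv (w : F5) : fh w⁻¹ = -(JM * (fh w)ᵀ * JM) := by
  have h1 : fh w * -(JM * (fh w)ᵀ * JM) = 1 := by
    rw [mul_neg, ← mul_assoc, ← mul_assoc, fh_symp, lin_JM_sq, neg_neg]
  have h2 : fh w⁻¹ * fh w = 1 := by rw [← map_mul, inv_mul_cancel, map_one]
  rw [← mul_one (fh w⁻¹), ← h1, ← mul_assoc, h2, one_mul]

/-- The abelianization. -/
def ab : FreeGroup X →* Multiplicative (X → ℚ) :=
  FreeGroup.lift fun x => Multiplicative.ofAdd (Pi.single x 1)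

/-- The exponent sum of a letter in a word. -/
def linW : List (X × Bool) → X → ℤ
  | [], _ => 0
  | (x, s) :: l, y => (if x = y then (if s then 1 else -1) else 0) + linW l y

lemma lin_ab_of (x : X) : (ab (FreeGroup.of x)).toAdd = Pi.single x 1 := by
  simp [ab]

lemma lin_ab_mk : ∀ (l : List (X × Bool)) (y : X), (ab (FreeGroup.mk l)).toAdd y = linW l y
  | [], y => by rw [← FreeGroup.one_eq_mk, map_one]; simp [linW]
  | (x, s) :: l, y => by
    rw [← List.singleton_append, ← FreeGroup.mul_mk, map_mul, toAdd_mul, Pi.add_apply,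
      lin_ab_mk l y, List.singleton_append, linW]
    push_cast
    congr 1
    cases s
    · rw [show (FreeGroup.mk [(x, false)] : FreeGroup X) = (FreeGroup.of x)⁻¹ from rfl, map_inv,
        toAdd_inv, lin_ab_of]
      simp [Pi.single_apply, eq_comm]
      split_ifs <;> simp
    · rw [show (FreeGroup.mk [(x, true)] : FreeGroup X) = FreeGroup.of x from rfl, lin_ab_of]
      simp [Pi.single_apply, eq_comm]

lemma lin_ab (g : FreeGroup X) (y : X) : (ab g).toAdd y = linW g.toWord y := by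
  rw [← lin_ab_mk, FreeGroup.mk_toWord]

lemma lin_gen : ∀ (i : Fin 5) (x y : X),
    ((linW (twF 1 i x).toWord y : ℤ) : ℚ) = (1 + fm i) y x := by
  decide +kernel

lemma ab_al (w : F5) (x : FreeGroup X) :
    (ab (al w x)).toAdd = fh w *ᵥ (ab x).toAdd := by
  induction w using FreeGroup.induction_on generalizing x with
  | C1 => simp
  | of i =>
    induction x using FreeGroup.induction_on with
    | C1 => simp
    | of x =>
      ext y
      have h : al (FreeGroup.of i) (FreeGroup.of x) = twF 1 i x := by simp [al, twA]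
      rw [h, lin_ab, lin_gen, lin_ab_of, fh_of, mulVec_single_one]
      rfl
    | inv_of x h => rw [map_inv, map_inv ab, map_inv ab, toAdd_inv, toAdd_inv, h, mulVec_neg]
    | mul x y hx hy =>
      rw [map_mul, map_mul ab, map_mul ab, toAdd_mul, toAdd_mul, hx, hy, mulVec_add]
  | inv_of i h =>
    have h1 := h (al (FreeGroup.of i)⁻¹ x)
    rw [← MulAut.mul_apply, ← map_mul, mul_inv_cancel, map_one, MulAut.one_apply] at h1
    rw [h1, mulVec_mulVec, ← map_mul, inv_mul_cancel, map_one, one_mulVec]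
  | mul u v hu hv => rw [map_mul, MulAut.mul_apply, hu, hv, mulVec_mulVec, map_mul]

lemma lin_entry (w : F5) (y x : X) :
    fh w y x = linW (app w.toWord (FreeGroup.of x)).toWord y := by
  rw [← lin_ab, ← app_eq', ab_al, lin_ab_of, mulVec_single_one]
  rfl

lemma lin_one {w : F5} (h : ∀ x, ab (al w (FreeGroup.of x)) = ab (FreeGroup.of x)) :
    fh w = 1 := by
  ext y x
  have h1 := congrFun (ab_al w (FreeGroup.of x)) y
  rw [h, lin_ab_of, mulVec_single_one] at h1
  rw [Matrix.one_apply, ← Pi.single_apply]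
  exact h1.symm

lemma lin_conj (g x : FreeGroup X) : ab (g⁻¹ * x * g) = ab x := by
  rw [map_mul, map_mul, mul_right_comm, ← map_mul, inv_mul_cancel, map_one, one_mul]

lemma lin_hyp : fh hyp = -1 := by
  have h : ∀ y x : X, linW (app hyp.toWord (FreeGroup.of x)).toWord y =
      if y = x then -1 else 0 := by
    decide +kernel
  ext y x
  rw [lin_entry, h, Matrix.neg_apply, Matrix.one_apply]
  split_ifs <;> simp

/-- The separating twist. -/
def tw : F5 := (FreeGroup.of 0 * FreeGroup.of 1) ^ 6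

lemma fh_rel {r : F5} (hr : r ∈ rels) : fh r = 1 := by
  rcases hr with ⟨i, j, h, rfl⟩ | rfl | rfl | ⟨i, rfl⟩
  · exact lin_one fun x => by rw [al_brd i j h]
  · exact lin_one fun x => by rw [al_chain, lin_conj]
  · exact lin_one fun x => by rw [al_hyp, lin_conj]
  · have h : fh (hyp * FreeGroup.of i) = fh (FreeGroup.of i * hyp) := by
      rw [map_mul, map_mul, lin_hyp, neg_one_mul, mul_neg_one]
    rw [map_mul, h, ← map_mul, mul_inv_cancel, map_one]

lemma fh_hyp : fh hyp = -1 := lin_hyp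

lemma al_tw : ∀ x : X, al tw (FreeGroup.of x) = if x.1 = 0 then
    (fa 0 * fb 0 * (fa 0)⁻¹ * (fb 0)⁻¹)⁻¹ * FreeGroup.of x * (fa 0 * fb 0 * (fa 0)⁻¹ * (fb 0)⁻¹)
    else FreeGroup.of x := by
  simp only [app_eq']
  decide +kernel

lemma fh_tw : fh tw = 1 := lin_one fun x => by
  rw [al_tw]
  split_ifs
  · exact lin_conj _ _
  · rfl

lemma lin_zero_word : ∀ y x : X, linW (app
    ((FreeGroup.of 1 * FreeGroup.of 2 * FreeGroup.of 3 * FreeGroup.of 4) ^ 5 *
      (FreeGroup.of 1 * FreeGroup.of 2 * FreeGroup.of 3 * FreeGroup.of 4 *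
        (FreeGroup.of 4 * FreeGroup.of 3 * FreeGroup.of 2 * FreeGroup.of 1))⁻¹ : F5).toWord
      (FreeGroup.of x)).toWord y =
    linW (app (FreeGroup.of 0 ^ 2 : F5).toWord (FreeGroup.of x)).toWord y := by
  decide +kernel

/-- The square of the first transvection is a product of the others; take
`(s1 s2 s3 s4) ^ 5 * (s1 s2 s3 s4 s4 s3 s2 s1)⁻¹`. -/
lemma exists_fh_zero : ∃ w ∈ Subgroup.closure {x : F5 | ∃ i ≠ 0, x = FreeGroup.of i},
    fh w = fh (FreeGroup.of 0 ^ 2) := by
  have hm : ∀ i : Fin 5, i ≠ 0 →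
      FreeGroup.of i ∈ Subgroup.closure {x : F5 | ∃ i ≠ 0, x = FreeGroup.of i} :=
    fun i hi => Subgroup.subset_closure ⟨i, hi, rfl⟩
  have h1 := hm 1 (by decide)
  have h2 := hm 2 (by decide)
  have h3 := hm 3 (by decide)
  have h4 := hm 4 (by decide)
  refine ⟨(FreeGroup.of 1 * FreeGroup.of 2 * FreeGroup.of 3 * FreeGroup.of 4) ^ 5 *
    (FreeGroup.of 1 * FreeGroup.of 2 * FreeGroup.of 3 * FreeGroup.of 4 *
      (FreeGroup.of 4 * FreeGroup.of 3 * FreeGroup.of 2 * FreeGroup.of 1))⁻¹,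
    mul_mem (pow_mem (mul_mem (mul_mem (mul_mem h1 h2) h3) h4) 5)
      (inv_mem (mul_mem (mul_mem (mul_mem (mul_mem h1 h2) h3) h4)
        (mul_mem (mul_mem (mul_mem h4 h3) h2) h1))), ?_⟩
  ext y x
  rw [lin_entry, lin_entry, lin_zero_word]

/-- The Lie algebra generated by some of the logarithms. -/
def SS (I : Set (Fin 5)) : LieSubalgebra ℚ (Matrix X X ℚ) := LieSubalgebra.lieSpan ℚ _ (fm '' I)

lemma lin_gen_mem {I : Set (Fin 5)} {i : Fin 5} (hi : i ∈ I) : fm i ∈ SS I :=
  LieSubalgebra.subset_lieSpan ⟨i, hi, rfl⟩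

lemma lin_SS_mono {I I' : Set (Fin 5)} (h : I ⊆ I') : SS I ≤ SS I' :=
  LieSubalgebra.lieSpan_mono (Set.image_mono h)

/-- The Cartan element of a handle. -/
def hc (j : Fin 2) : Matrix X X ℚ := single (j, false) (j, false) 1 - single (j, true) (j, true) 1

lemma hc_zero : hc 0 ∈ SS {0, 1} := by
  have h : hc 0 = ⁅fm 1, fm 0⁆ := by
    rw [Ring.lie_def]
    decide +kernel
  rw [h]
  exact LieSubalgebra.lie_mem _ (lin_gen_mem (by simp)) (lin_gen_mem (by simp))

lemma hc_one : hc 1 ∈ SS {3, 4} := by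
  have h : hc 1 = ⁅fm 3, fm 4⁆ := by
    rw [Ring.lie_def]
    decide +kernel
  rw [h]
  exact LieSubalgebra.lie_mem _ (lin_gen_mem (by simp)) (lin_gen_mem (by simp))

lemma lin_red {I : Set (Fin 5)} (hT : ∀ i ∈ I, (fm i)ᵀ ∈ SS I) {g : Matrix X X ℚ}
    (hg : g ∈ SS I) (hP : ∀ i ∈ I, fm i = (1 / 2 : ℚ) • (g * fm i - fm i * g) ∨
      fm i = (-1 / 2 : ℚ) • (g * fm i - fm i * g)) : Red (SS I) := by
  constructor
  · intro f hf
    induction hf using LieSubalgebra.lieSpan_induction with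
    | mem x hx =>
      obtain ⟨i, hi, rfl⟩ := hx
      exact hT i hi
    | zero => exact zero_mem _
    | add x y _ _ hx hy => rw [transpose_add]; exact add_mem hx hy
    | smul c x _ hx => rw [transpose_smul]; exact (SS I).smul_mem c hx
    | lie x y _ _ hx hy =>
      rw [Ring.lie_def, transpose_sub, transpose_mul, transpose_mul, ← Ring.lie_def]
      exact LieSubalgebra.lie_mem _ hy hx
  · intro f hf
    induction hf using LieSubalgebra.lieSpan_induction with
    | mem x hx =>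
      obtain ⟨i, hi, rfl⟩ := hx
      have h : g * fm i - fm i * g ∈
          Submodule.span ℚ {x | ∃ g ∈ SS I, ∃ g' ∈ SS I, x = ⁅g, g'⁆} :=
        Submodule.subset_span ⟨g, hg, fm i, lin_gen_mem hi, rfl⟩
      rcases hP i hi with e | e
      · rw [e]
        exact Submodule.smul_mem _ _ h
      · rw [e]
        exact Submodule.smul_mem _ _ h
    | zero => exact zero_mem _
    | add x y _ _ hx hy => exact add_mem hx hy
    | smul c x _ hx => exact Submodule.smul_mem _ c hx
    | lie x y hx hy _ _ => exact Submodule.subset_span ⟨x, hx, y, hy, rfl⟩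

lemma lin_tr : (fm 0)ᵀ = -fm 1 ∧ (fm 1)ᵀ = -fm 0 ∧ (fm 3)ᵀ = -fm 4 ∧ (fm 4)ᵀ = -fm 3 ∧
    (fm 2)ᵀ = -fm 1 - fm 3 - (fm 1 * (fm 3 * fm 2 - fm 2 * fm 3) -
      (fm 3 * fm 2 - fm 2 * fm 3) * fm 1) := by
  decide +kernel

lemma red_univ : Red (SS Set.univ) := by
  have hm : ∀ i, fm i ∈ SS Set.univ := fun i => lin_gen_mem (Set.mem_univ i)
  refine lin_red (fun i _ => ?_) (add_mem (lin_SS_mono (Set.subset_univ _) hc_zero)
    (lin_SS_mono (Set.subset_univ _) hc_one)) (fun i _ => ?_)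
  · obtain ⟨h0, h1, h3, h4, h2⟩ := lin_tr
    fin_cases i
    · exact h0 ▸ neg_mem (hm 1)
    · exact h1 ▸ neg_mem (hm 0)
    · exact h2 ▸ sub_mem (sub_mem (neg_mem (hm 1)) (hm 3))
        (LieSubalgebra.lie_mem _ (hm 1) (LieSubalgebra.lie_mem _ (hm 3) (hm 2)))
    · exact h3 ▸ neg_mem (hm 4)
    · exact h4 ▸ neg_mem (hm 3)
  · clear * -
    revert i
    decide +kernel

lemma red_one : Red (SS {0, 1}) := by
  obtain ⟨h0, h1, -⟩ := lin_tr
  refine lin_red ?_ hc_zero ?_
  · rintro i (rfl | rfl)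
    · exact h0 ▸ neg_mem (lin_gen_mem (by simp))
    · exact h1 ▸ neg_mem (lin_gen_mem (by simp))
  · rintro i (rfl | rfl) <;> decide +kernel

lemma red_two : Red (SS {3, 4}) := by
  obtain ⟨-, -, h3, h4, -⟩ := lin_tr
  refine lin_red ?_ hc_one ?_
  · rintro i (rfl | rfl)
    · exact h3 ▸ neg_mem (lin_gen_mem (by simp))
    · exact h4 ▸ neg_mem (lin_gen_mem (by simp))
  · rintro i (rfl | rfl) <;> decide +kernel

lemma SS_comm {f g : Matrix X X ℚ} (hf : f ∈ SS {0, 1}) (hg : g ∈ SS {3, 4}) : ⁅f, g⁆ = 0 := by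
  induction hg using LieSubalgebra.lieSpan_induction with
  | mem y hy =>
    induction hf using LieSubalgebra.lieSpan_induction with
    | mem x hx =>
      rw [Ring.lie_def]
      obtain ⟨i, rfl | rfl, rfl⟩ := hx <;> obtain ⟨j, rfl | rfl, rfl⟩ := hy <;> decide +kernel
    | zero => exact zero_lie _
    | add x x' _ _ h h' => rw [add_lie, h, h', add_zero]
    | smul c x _ h => rw [smul_lie, h, smul_zero]
    | lie x x' _ _ h h' => rw [lie_lie, h, h', lie_zero, lie_zero, sub_zero]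
  | zero => exact lie_zero _
  | add y y' _ _ h h' => rw [lie_add, h, h', add_zero]
  | smul c y _ h => rw [lie_smul, h, smul_zero]
  | lie y y' _ _ h h' => rw [leibniz_lie, h, h', zero_lie, lie_zero, add_zero]

lemma SS_symp {I : Set (Fin 5)} {f : Matrix X X ℚ} (hf : f ∈ SS I) : f * JM + JM * fᵀ = 0 := by
  induction hf using LieSubalgebra.lieSpan_induction with
  | mem x hx =>
    obtain ⟨i, -, rfl⟩ := hx
    exact (lin_symp_gen i).2.2
  | zero => simp
  | add x y _ _ hx hy =>
    rw [transpose_add, add_mul, mul_add, add_add_add_comm, hx, hy, add_zero]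
  | smul c x _ hx => rw [transpose_smul, smul_mul_assoc, mul_smul_comm, ← smul_add, hx, smul_zero]
  | lie x y _ _ hx hy =>
    have h1 : x * JM = -(JM * xᵀ) := eq_neg_of_add_eq_zero_left hx
    have h2 : y * JM = -(JM * yᵀ) := eq_neg_of_add_eq_zero_left hy
    rw [Ring.lie_def, transpose_sub, transpose_mul, transpose_mul, sub_mul, mul_sub, mul_assoc,
      mul_assoc, h1, h2, mul_neg, mul_neg, ← mul_assoc x, ← mul_assoc y, h1, h2]
    simp only [neg_mul, neg_neg, mul_assoc]
    abel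

/-- The subgroup preserving the handles. -/
def HH : Subgroup F5 := Subgroup.closure {x | ∃ i ≠ 2, x = FreeGroup.of i}

end Pool.Agent.Lib.MP_f9c34c_al.G
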