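import Pool.Agent.Lib.MP_f9c34c_al.Symp
import Pool.Agent.Lib.MP_f9c34c_al.G.Trunc
import Pool.Agent.Lib.MP_f9c34c_al.G.Lin

/-! Linear substitutions in the free algebra. -/

namespace Pool.Agent.Lib.MP_f9c34c_al.G

open Submodule Finset

attribute [local instance 100] LieRing.ofAssociativeRing

section Gen
variable {Y : Type} [Fintype Y] [DecidableEq Y]

/-- The linear substitution given by a matrix. -/
noncomputable def sub (m : Matrix Y Y ℚ) : T Y →ₐ[ℚ] T Y :=
  MonoidAlgebra.lift ℚ (T Y) _ (FreeMonoid.lift fun x => ∑ b, m b x • gx b)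

lemma sub_gx (m : Matrix Y Y ℚ) (x : Y) : sub m (gx x) = ∑ b, m b x • gx b := by
  simp [sub, gx, wd]

omit [Fintype Y] [DecidableEq Y] in
lemma sub_alg_ext {A : Type*} [Ring A] [Algebra ℚ A] {f g : T Y →ₐ[ℚ] A}
    (h : ∀ x, f (gx x) = g (gx x)) (s : T Y) : f s = g s :=
  T_ext' (f := f.toLinearMap) (g := g.toLinearMap) (fun w => by
    simp only [AlgHom.toLinearMap_apply]
    induction w with
    | nil => rw [wd_nil, map_one, map_one]
    | cons x w ih => rw [wd_cons, map_mul, map_mul, h, ih]) s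

lemma sub_mul (m m' : Matrix Y Y ℚ) (s : T Y) : sub (m * m') s = sub m (sub m' s) :=
  sub_alg_ext (f := sub (m * m')) (g := (sub m).comp (sub m')) (fun x => by
    simp only [AlgHom.comp_apply, sub_gx, map_sum, map_smul, Matrix.mul_apply, sum_smul, smul_sum,
      smul_smul]
    rw [sum_comm]
    exact sum_congr rfl fun _ _ => sum_congr rfl fun _ _ => by rw [mul_comm]) s

lemma sub_one (s : T Y) : sub (1 : Matrix Y Y ℚ) s = s :=
  sub_alg_ext (f := sub 1) (g := AlgHom.id ℚ _) (fun x => by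
    simp [sub_gx, Matrix.one_apply]) s

lemma sub_gx_len (m : Matrix Y Y ℚ) (x : Y) : sub m (gx x) ∈ len gx 0 := by
  rw [sub_gx]
  exact sum_mem fun b _ => smul_mem _ _ (len_zero b)

lemma sub_gx_hom (m : Matrix Y Y ℚ) (x : Y) : sub m (gx x) ∈ Hom Y 1 :=
  len_Hom 0 (sub_gx_len m x)

lemma sub_hom (m : Matrix Y Y ℚ) {p : ℕ} {s : T Y} (hs : s ∈ Hom Y p) : sub m s ∈ Hom Y p := by
  refine Hom_mem (f := (sub m).toLinearMap) (fun w hw => ?_) hs
  subst hw
  clear hs
  rw [AlgHom.toLinearMap_apply]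
  induction w with
  | nil =>
    rw [wd_nil, map_one]
    exact wd_mem (w := []) rfl
  | cons x w ih =>
    rw [wd_cons, map_mul, List.length_cons, add_comm]
    exact Hom_mul (sub_gx_hom m x) ih

lemma sub_Fl (m : Matrix Y Y ℚ) {k : ℕ} {s : T Y} (hs : s ∈ Fl Y k) : sub m s ∈ Fl Y k :=
  Fl_mem (f := (sub m).toLinearMap) (fun _ hw => Hom_le_Fl hw (sub_hom m (wd_mem rfl))) hs

lemma sub_len (m : Matrix Y Y ℚ) {n : ℕ} {s : T Y} (hs : s ∈ len gx n) : sub m s ∈ len gx n :=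
  map_len (φ := (sub m).toLinearMap) (fun a b => by simp [Ring.lie_def]) (sub_gx_len m) n hs

lemma sub_cm (m : Matrix Y Y ℚ) {s : T Y} (hs : s ∈ Cm Y) : sub m s ∈ Cm Y :=
  Cm_mem (f := (sub m).toLinearMap) (fun a b => by simpa using cm_mem (sub m a) (sub m b)) hs

lemma sub_pj (m : Matrix Y Y ℚ) (k : ℕ) (s : T Y) : sub m (pj k s) = pj k (sub m s) :=
  T_ext' (f := (sub m).toLinearMap ∘ₗ pj k) (g := pj k ∘ₗ (sub m).toLinearMap) (fun w => by
    simp only [LinearMap.comp_apply, AlgHom.toLinearMap_apply]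
    rw [pj_wd, pj_hom k (sub_hom m (wd_mem (w := w) rfl))]
    split_ifs
    · rfl
    · exact map_zero _) s

lemma sub_neg {p : ℕ} {s : T Y} (hs : s ∈ Hom Y p) :
    sub (-1 : Matrix Y Y ℚ) s = (-1 : ℚ) ^ p • s := by
  refine Hom_ext (f := (sub (-1 : Matrix Y Y ℚ)).toLinearMap) (g := (-1 : ℚ) ^ p • LinearMap.id)
    (fun w hw => ?_) hs
  subst hw
  clear hs
  rw [AlgHom.toLinearMap_apply, LinearMap.smul_apply, LinearMap.id_apply]
  have h1 : ∀ x : Y, sub (-1 : Matrix Y Y ℚ) (gx x) = -gx x := fun x => by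
    simp [sub_gx, Matrix.one_apply]
  induction w with
  | nil => rw [wd_nil, map_one, List.length_nil, pow_zero, one_smul]
  | cons x w ih =>
    rw [wd_cons, map_mul, ih, h1, List.length_cons, _root_.pow_succ, mul_smul_comm, neg_mul]
    module

lemma dm_sub (m m' : Matrix Y Y ℚ) (x : Y) :
    dm m (sub m' (gx x)) = sub (m * m') (gx x) := by
  rw [sub_mul, sub_gx, map_sum, map_sum]
  exact sum_congr rfl fun b _ => by rw [map_smul, map_smul, dm_gx, sub_gx]

lemma sub_bil (J m m' : Matrix Y Y ℚ) (u v : Y → T Y) :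
    ∑ a, ∑ b, J a b • ((∑ c, m c a • u c) * ∑ d, m' d b • v d) =
      ∑ c, ∑ d, (m * J * m'.transpose) c d • (u c * v d) := by
  simp only [sum_mul, mul_sum, smul_sum, smul_mul_assoc, mul_smul_comm, smul_smul, Matrix.mul_apply,
    Matrix.transpose_apply, sum_smul]
  calc _ = ∑ a, ∑ d, ∑ b, ∑ c, (J a b * (m' d b * m c a)) • (u c * v d) :=
        sum_congr rfl fun a _ => sum_comm
    _ = ∑ d, ∑ a, ∑ b, ∑ c, (J a b * (m' d b * m c a)) • (u c * v d) := sum_comm
    _ = ∑ d, ∑ a, ∑ c, ∑ b, (J a b * (m' d b * m c a)) • (u c * v d) :=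
        sum_congr rfl fun d _ => sum_congr rfl fun a _ => sum_comm
    _ = ∑ d, ∑ c, ∑ a, ∑ b, (J a b * (m' d b * m c a)) • (u c * v d) :=
        sum_congr rfl fun d _ => sum_comm
    _ = ∑ c, ∑ d, ∑ a, ∑ b, (J a b * (m' d b * m c a)) • (u c * v d) := sum_comm
    _ = _ := by
      refine sum_congr rfl fun c _ => sum_congr rfl fun d _ => ?_
      rw [sum_comm]
      refine sum_congr rfl fun b _ => sum_congr rfl fun a _ => ?_
      congr 1
      ring

lemma desc_sub (N : ℕ) (m : Matrix Y Y ℚ) (s : T Y) :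
    desc N (sub m).toLinearMap (mkT N s) = mkT N (sub m s) := by
  rw [desc_apply, tot_mk, AlgHom.toLinearMap_apply, eq_comm, ← sub_eq_zero, ← map_sub, ← map_sub,
    mkT_eq_zero]
  exact sub_Fl m (sub_sum_pj (N + 1) s)

lemma isA_of_mk {N : ℕ} {g : Module.End ℚ (TT Y N)} {m : Matrix Y Y ℚ}
    (h : ∀ s, g (mkT N s) = mkT N (sub m s)) : IsA g := by
  refine ⟨by rw [← map_one (mkT N), h, map_one], fun s t => ?_⟩
  obtain ⟨s, rfl⟩ := mkT_surj s
  obtain ⟨t, rfl⟩ := mkT_surj t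
  rw [← map_mul, h, h, h, map_mul, map_mul]

end Gen

/-- The truncated algebra. -/
abbrev T17 : Type := TT X 17

/-- Its operators. -/
abbrev E17 : Type := Module.End ℚ (TT X 17)

/-- Conjugation by the symplectic representation. -/
noncomputable def cj (w : F5) : Module.End ℚ (Module.End ℚ T4) :=
  LinearMap.mulLeft ℚ (sub (fh w)).toLinearMap ∘ₗ LinearMap.mulRight ℚ (sub (fh w⁻¹)).toLinearMap

lemma cj_apply (w : F5) (E : Module.End ℚ T4) (s : T4) :
    cj w E s = sub (fh w) (E (sub (fh w⁻¹) s)) := rfl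

lemma cj_mul (w w' : F5) (E : Module.End ℚ T4) : cj (w * w') E = cj w (cj w' E) :=
  LinearMap.ext fun s => by
    simp only [cj_apply, mul_inv_rev, map_mul, sub_mul]

lemma sub_fh_inv (w : F5) (s : T4) : sub (fh w⁻¹) (sub (fh w) s) = s := by
  rw [← sub_mul, ← map_mul, inv_mul_cancel, map_one, sub_one]

lemma sub_fh_inv' (w : F5) (s : T4) : sub (fh w) (sub (fh w⁻¹) s) = s := by
  rw [← sub_mul, ← map_mul, mul_inv_cancel, map_one, sub_one]

lemma cj_triv {w : F5} (h : fh w = 1) (E : Module.End ℚ T4) : cj w E = E :=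
  LinearMap.ext fun s => by
    have := sub_fh_inv w s
    rw [h, sub_one] at this
    rw [cj_apply, this, h, sub_one]

lemma cj_lie (w : F5) (E E' : Module.End ℚ T4) : cj w ⁅E, E'⁆ = ⁅cj w E, cj w E'⁆ :=
  LinearMap.ext fun s => by
    simp only [cj_apply, Ring.lie_def, LinearMap.sub_apply, Module.End.mul_apply, map_sub,
      sub_fh_inv]

lemma cj_der (w : F5) {E : Module.End ℚ T4} (h : IsDer E) : IsDer (cj w E) := fun s t => by
  simp only [cj_apply, map_mul, h _ _, map_add, sub_fh_inv']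

lemma cj_hom (w : F5) {E : Module.End ℚ T4} {p : ℕ} (h : ∀ x, E (gx x) ∈ Hom X p) (x : X) :
    cj w E (gx x) ∈ Hom X p := by
  rw [cj_apply, sub_gx, map_sum]
  exact sub_hom _ (sum_mem fun b _ => by rw [map_smul]; exact smul_mem _ _ (h b))

lemma cj_len (w : F5) {E : Module.End ℚ T4} {n : ℕ} (h : ∀ x, E (gx x) ∈ len gx n) (x : X) :
    cj w E (gx x) ∈ len gx n := by
  rw [cj_apply, sub_gx, map_sum]
  exact sub_len _ (sum_mem fun b _ => by rw [map_smul]; exact smul_mem _ _ (h b))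

lemma cj_eu (w : F5) : cj w (der gx) = der gx :=
  (cj_der w (isDer_der _)).ext (isDer_der _) fun x => by
    rw [cj_apply, eu_hom (sub_gx_hom _ x), Nat.cast_one, one_smul, sub_fh_inv', der_gx]

lemma cj_dm (w : F5) (m : Matrix X X ℚ) : cj w (dm m) = dm (fh w * m * fh w⁻¹) :=
  (cj_der w (dm_der _)).ext (dm_der _) fun x => by
    rw [cj_apply, dm_sub, ← sub_mul, ← mul_assoc, sub_gx, dm_gx]

lemma cj_hyp {E : Module.End ℚ T4} (h : IsDer E) {d : ℕ} (hd : ∀ x, E (gx x) ∈ Hom X (d + 1)) :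
    cj hyp E = (-1 : ℚ) ^ d • E := by
  have h1 : fh hyp⁻¹ = -1 := by
    have : fh hyp⁻¹ * fh hyp = 1 := by rw [← map_mul, inv_mul_cancel, map_one]
    rw [fh_hyp, mul_neg, mul_one] at this
    exact neg_eq_iff_eq_neg.1 this
  refine (cj_der _ h).ext (h.smul _) fun x => ?_
  rw [cj_apply, h1, fh_hyp, sub_neg (gx_mem x), map_smul, map_smul, sub_neg (hd x),
    LinearMap.smul_apply, smul_smul]
  congr 1
  ring

lemma sum_JM (u v : X → T4) : ∑ a, ∑ b, JM a b • (u a * v b) =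
    ∑ i : Fin 2, (u (i, false) * v (i, true) - u (i, true) * v (i, false)) := by
  simp [JM, Fintype.sum_prod_type, Fin.sum_univ_two, Matrix.single]
  abel

lemma om_eq : om = ∑ a, ∑ b, JM a b • (gx a * gx b) := by
  rw [sum_JM]
  rfl

lemma UU_eq (E : Module.End ℚ T4) : UU E = ∑ a, ∑ b, JM a b • (gx a * E (gx b)) := by
  rw [sum_JM gx fun b => E (gx b)]
  rfl

lemma sub_om (w : F5) : sub (fh w) om = om := by
  have := sub_bil JM (fh w) (fh w) gx gx
  rw [fh_symp, ← om_eq] at this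
  refine Eq.trans ?_ this
  rw [om_eq]
  simp only [map_sum, map_smul, map_mul, sub_gx]

lemma dm_om {I : Set (Fin 5)} {f : Matrix X X ℚ} (hf : f ∈ SS I) : dm f om = 0 := by
  have h1 := sub_bil JM f 1 gx gx
  have h2 := sub_bil JM 1 f gx gx
  have h3 : ∀ x : X, ∑ c, (1 : Matrix X X ℚ) c x • gx c = gx x := fun x => by
    rw [← sub_gx, sub_one]
  simp only [h3, Matrix.transpose_one, mul_one, one_mul] at h1 h2
  rw [om_eq]
  simp only [map_sum, map_smul, dm_der f _ _, dm_gx, smul_add, sum_add_distrib]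
  rw [h1, h2, ← sum_add_distrib]
  refine sum_eq_zero fun a _ => ?_
  rw [← sum_add_distrib]
  refine sum_eq_zero fun b _ => ?_
  rw [← add_smul, ← Matrix.add_apply, SS_symp hf, Matrix.zero_apply, zero_smul]

lemma UU_cj (w : F5) (E : Module.End ℚ T4) : UU (cj w E) = sub (fh w) (UU E) := by
  have := sub_bil JM (fh w⁻¹) (fh w⁻¹) gx fun b => E (gx b)
  rw [fh_symp, ← UU_eq] at this
  rw [← this, UU_eq, map_sum]
  refine sum_congr rfl fun a _ => ?_
  rw [map_sum]
  refine sum_congr rfl fun b _ => ?_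
  rw [map_smul, map_mul, ← sub_gx, sub_fh_inv', cj_apply, sub_gx (fh w⁻¹) b, map_sum E]
  simp only [map_smul]

/-- The graded action on the truncated algebra. -/
noncomputable def fT : F5 →* E17ˣ := FreeGroup.lift fun i => expU (dmT 17 (fm i))

lemma dmT_nil (i : Fin 5) : IsNilpotent (dmT 17 (fm i)) :=
  nil_of_cp (dmT_LD _).1 (by rw [cp_dmT _ (by norm_num), if_pos rfl]) (fm_nil i)

lemma fT_of (i : Fin 5) : fT (FreeGroup.of i) = expU (dmT 17 (fm i)) := by simp [fT]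

lemma fT_mk (w : F5) (s : T4) : (fT w).1 (mkT 17 s) = mkT 17 (sub (fh w) s) := by
  induction w using FreeGroup.induction_on generalizing s with
  | C1 => rw [map_one, map_one, sub_one]; rfl
  | of i =>
    rw [← desc_sub, fT_of, expU_val (dmT_nil i), fh_of]
    refine LinearMap.congr_fun (IsA.ext (DD_exp (dmT_LD _).1 (dmT_nil i)).1
      (isA_of_mk (desc_sub 17 _)) fun a => ?_) _
    have h1 := exp_sub_sub_mem (dmT_nil i) (S := ⊥) (fun y hy => by
      rw [(mem_bot ℚ).1 hy, map_zero]; exact zero_mem _) (x := xx 17 a) (by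
      rw [xx, dmT_mk, dmT_mk, dm_gx, ← sub_gx, dm_sub, fm_sq, sub_gx]
      simp)
    rw [mem_bot, sub_sub, sub_eq_zero] at h1
    rw [h1, xx, desc_sub, dmT_mk, ← map_add, dm_gx, sub_gx]
    congr 1
    simp [Matrix.add_apply, add_smul, sum_add_distrib, Matrix.one_apply]
  | inv_of i h =>
    conv_lhs => rw [← sub_fh_inv' (FreeGroup.of i) s, ← h, map_inv, unit_inv_apply]
  | mul x y hx hy => rw [map_mul, Units.val_mul, Module.End.mul_apply, hy, hx, map_mul, sub_mul]

lemma fT_isA (w : F5) : IsA (fT w).1 := isA_of_mk (fT_mk w)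

lemma fT_FD (w : F5) : (fT w).1 ∈ FD X 17 0 :=
  (fT_isA w).mem_FD fun a => by
    rw [xx, fT_mk]
    exact mk_FT (Hom_le_Fl le_rfl (sub_gx_hom _ a))

lemma fT_triv {w : F5} (h : fh w = 1) : fT w = 1 :=
  Units.ext (LinearMap.ext fun s => by
    obtain ⟨s, rfl⟩ := mkT_surj s
    rw [fT_mk, h, sub_one]
    rfl)

lemma sec_fT (w : F5) (d : ℕ) (s : T17) : sec 17 d ((fT w).1 s) = sub (fh w) (sec 17 d s) := by
  rcases le_or_gt d 17 with hd | hd
  · obtain ⟨s, rfl⟩ := mkT_surj s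
    rw [fT_mk, sec_mk hd, sec_mk hd, sub_pj]
  · rw [sec_top hd, sec_top hd, map_zero]

lemma cp_fT (w : F5) {D : E17} (h : D ∈ DD X 17) (d : ℕ) :
    cp 17 d ((Ad (fT w)).1 D) = cj w (cp 17 d D) := by
  refine (cp_der _ _).ext (cj_der w (cp_der _ _)) fun a => ?_
  rw [cp_gx, Ad_apply, Module.End.mul_apply, Module.End.mul_apply, sec_fT, ← map_inv, xx, fT_mk,
    cj_apply, sub_gx]
  simp only [map_sum, map_smul, cp_gx, xx]

lemma fT_eu (w : F5) : (Ad (fT w)).1 (eu X 17) = eu X 17 := by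
  refine cp_ext (DD_Ad (fT_isA w) (fT_FD w) eu_DD) eu_DD fun d hd => ?_
  rw [cp_fT w eu_DD, eu, cp_desc (isDer_der _) eu_gx hd]
  split_ifs
  · exact cj_eu w
  · exact map_zero _

/-- Leading terms under conjugation by a unit congruent to the graded action. -/
lemma cp_lead (w : F5) {g : E17ˣ} (hg : IsA g.1) (h1 : g.1 - (fT w).1 ∈ FD X 17 1) {D : E17}
    (h : D ∈ DD X 17) {d : ℕ} (hd : D ∈ FD X 17 d) :
    (Ad g).1 D - (Ad (fT w)).1 D ∈ FD X 17 (d + 1) ∧
      cp 17 d ((Ad g).1 D) = cj w (cp 17 d D) := by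
  have hu := fT_FD w
  have hg0 : g.1 ∈ FD X 17 0 := by
    have := add_mem (FD_mono (Nat.zero_le 1) h1) hu
    rwa [sub_add_cancel] at this
  have hgi := FD_inv hg0
  have hui := FD_inv hu
  have e : (Ad g).1 D - (Ad (fT w)).1 D = (g.1 - (fT w).1) * D * (g⁻¹).1 -
      (fT w).1 * D * ((g⁻¹).1 * (g.1 - (fT w).1) * ((fT w)⁻¹).1) := by
    rw [Ad_apply, Ad_apply, mul_sub (g⁻¹).1, Units.inv_mul, _root_.sub_mul 1, one_mul,
      mul_assoc (g⁻¹).1, Units.mul_inv, mul_one]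
    noncomm_ring
  have h2 : (Ad g).1 D - (Ad (fT w)).1 D ∈ FD X 17 (d + 1) := by
    rw [e]
    refine sub_mem ?_ ?_
    · have := FD_mul (FD_mul h1 hd) hgi
      rwa [show 1 + d + 0 = d + 1 by ring] at this
    · have := FD_mul (FD_mul hu hd) (FD_mul (FD_mul hgi h1) hui)
      rwa [show 0 + d + (0 + 1 + 0) = d + 1 by ring] at this
  refine ⟨h2, ?_⟩
  have h3 := (cp_FD (sub_mem (DD_Ad hg hg0 h) (DD_Ad (fT_isA w) hu h))).1 h2 d (Nat.lt_succ_self d)
  rw [map_sub, sub_eq_zero] at h3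
  rw [h3, cp_fT w h]

/-- A subspace stable under the logarithms is stable under the group. -/
lemma Ad_fT_mem {I : Set (Fin 5)} {P : Submodule ℚ E17}
    (h : ∀ i ∈ I, ∀ D ∈ P, ⁅dmT 17 (fm i), D⁆ ∈ P) {w : F5}
    (hw : w ∈ Subgroup.closure {x : F5 | ∃ i ∈ I, x = FreeGroup.of i}) {D : E17} (hD : D ∈ P) :
    (Ad (fT w)).1 D ∈ P := by
  induction hw using Subgroup.closure_induction'' generalizing D with
  | one =>
    rw [map_one, Ad_one]
    exact hD
  | mem x hx =>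
    obtain ⟨i, hi, rfl⟩ := hx
    rw [fT_of]
    exact Ad_expU_mem (dmT_nil i) (h i hi) hD
  | inv_mem x hx =>
    obtain ⟨i, hi, rfl⟩ := hx
    rw [map_inv, fT_of, expU_inv (dmT_nil i)]
    exact Ad_expU_mem (dmT_nil i).neg (fun b hb => by
      rw [neg_lie]
      exact neg_mem (h i hi b hb)) hD
  | mul x y _ _ hx hy =>
    rw [map_mul, Ad_mul]
    exact hx (hy hD)

/-- A subspace stable under the group is stable under the Lie algebra. -/
lemma lie_mem_of_fT {I : Set (Fin 5)} {P : Submodule ℚ E17}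
    (h : ∀ i ∈ I, ∀ D ∈ P, (Ad (fT (FreeGroup.of i))).1 D ∈ P) {f : Matrix X X ℚ} (hf : f ∈ SS I)
    {D : E17} (hD : D ∈ P) : ⁅dmT 17 f, D⁆ ∈ P := by
  induction hf using LieSubalgebra.lieSpan_induction generalizing D with
  | mem x hx =>
    obtain ⟨i, hi, rfl⟩ := hx
    have h1 := mem_of_exp (nil_ad (dmT_nil i)) (S := P) (fun y hy => by
      have := h i hi y hy
      rwa [fT_of, Ad_expU (dmT_nil i)] at this) hD
    rwa [LieAlgebra.ad_apply] at h1
  | zero =>
    rw [map_zero, zero_lie]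
    exact zero_mem _
  | add x y _ _ hx hy =>
    rw [map_add, add_lie]
    exact add_mem (hx hD) (hy hD)
  | smul c x _ hx =>
    rw [map_smul, smul_lie]
    exact smul_mem _ _ (hx hD)
  | lie x y _ _ hx hy =>
    rw [LieHom.map_lie, lie_lie]
    exact sub_mem (hx (hy hD)) (hy (hx hD))

end Pool.Agent.Lib.MP_f9c34c_al.G
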