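import Pool.Agent.Lib.MP_f9c34c_al.G.Aff
import Pool.Agent.Lib.MP_f9c34c_al.G.Sub

/-! Symplectic derivations of the free algebra on four letters. -/

namespace Pool.Agent.Lib.MP_f9c34c_al.G

open Submodule Finset

attribute [local instance 100] LieRing.ofAssociativeRing

/-- Symplectic Lie derivations of degree `m`. -/
noncomputable def Sy0 (m : ℕ) : Submodule ℚ (Module.End ℚ T4) where
  carrier := {D | IsDer D ∧ (∀ x, D (gx x) ∈ len gx m) ∧ D om = 0}
  add_mem' h h' := ⟨h.1.add h'.1, fun x => add_mem (h.2.1 x) (h'.2.1 x), by simp [h.2.2, h'.2.2]⟩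
  zero_mem' := ⟨IsDer.zero, fun _ => zero_mem _, rfl⟩
  smul_mem' c D h := ⟨h.1.smul c, fun x => smul_mem _ _ (h.2.1 x), by simp [h.2.2]⟩

variable {D D' : Module.End ℚ T4} {m m' : ℕ}

lemma Sy0_lie (h : D ∈ Sy0 m) (h' : D' ∈ Sy0 m') : ⁅D, D'⁆ ∈ Sy0 (m + m') :=
  ⟨h.1.lie h'.1, fun x => sub_mem (add_comm m m' ▸ der_len h.1.br h.2.1 _ (h'.2.1 x))
      (der_len h'.1.br h'.2.1 _ (h.2.1 x)), by simp [Ring.lie_def, h.2.2, h'.2.2]⟩

lemma Sy0_cj (w : F5) (h : D ∈ Sy0 m) : cj w D ∈ Sy0 m :=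
  ⟨cj_der w h.1, cj_len w h.2.1, by rw [cj_apply, sub_om, h.2.2, map_zero]⟩

lemma del_len0 (h : D ∈ Sy0 m) (i : Fin 2) : del D (gx i) ∈ len gx m :=
  del_gx D i ▸ rho_len m (h.2.1 _)

lemma del_es0 (h : D ∈ Sy0 m) (e : rho (dv D) ∈ Cm (Fin 2)) :
    ∑ i, (dL i (del D (gx i)) - dR i (del D (gx i))) ∈ Cm (Fin 2) := by
  have := neg_mem e
  rw [dv_eq h.1 h.2.1 h.2.2] at this
  simpa [del_gx, rho_dR, rho_dL, add_comm] using this

lemma uu_hom0 (h : D ∈ Sy0 m) : rho (UU D) ∈ Hom _ (m + 2) := by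
  rw [rho_UU, show m + 2 = 1 + (m + 1) by ring]
  exact sum_mem fun i _ => Hom_mul (gx_mem i) (len_Hom _ (rho_len _ (h.2.1 _)))

lemma hh_eq0 (h : D ∈ Sy0 m) : rho (UU D) = ((m : ℚ) + 2) • hh D := by
  have := Hom_ext (f := LinearMap.id) (g := ((m : ℚ) + 2) • lin fun w => (w.length : ℚ)⁻¹ • wd w)
    (fun w hw => by
      rw [LinearMap.smul_apply, lin_wd, hw, smul_smul]
      push_cast
      rw [mul_inv_cancel₀ (by positivity), one_smul]
      rfl) (uu_hom0 h)
  rw [LinearMap.id_apply] at this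
  rw [this, rho_UU]
  simp [hh]

lemma der_hh0 (h : D ∈ Sy0 m) {E : Module.End ℚ T2} (hE : IsDer E) :
    E (hh D) - ∑ i, E (gx i) * rho (D (gb i)) ∈ Cm _ := by
  have := hE.inv (uu_hom0 h) (by
    have := congrArg rho (h.2.2.symm.trans (der_om h.1))
    rw [rho_UU, map_sum]
    simp only [Rot_mul]
    rw [eq_comm, ← sub_eq_zero, ← sum_sub_distrib]
    simpa [-sum_sub_distrib] using this.symm)
  rw [← smul_mem_iff (s := (m : ℚ) + 2) _ (by positivity), smul_sub, ← map_smul, ← hh_eq0 h]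
  simpa [rho_UU, fst_mul] using this

lemma der_UU0 (h : D ∈ Sy0 m) (h' : IsDer D') : D' (UU D) -
    ((m : ℚ) + 2) • ∑ i, (D' (ga i) * D (gb i) - D' (gb i) * D (ga i)) ∈ Cm _ := by
  have := h'.inv (s := UU D) (p := 1 + (m + 1)) (sum_mem fun i _ => sub_mem
    (Hom_mul (gx_mem _) (len_Hom _ (h.2.1 _))) (Hom_mul (gx_mem _) (len_Hom _ (h.2.1 _)))) (by
      have := h.2.2.symm.trans (der_om h.1)
      rw [UU, map_sum, ← sub_eq_zero, ← sum_sub_distrib, ← neg_eq_zero, this, ← sum_neg_distrib]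
      refine sum_congr rfl fun i _ => ?_
      rw [map_sub, Rot_mul, Rot_mul]
      abel)
  rw [show ((1 + (m + 1) : ℕ) : ℚ) = m + 2 by push_cast; ring] at this
  simpa only [UU, map_sum, map_sub, fst_mul] using this

lemma hh_lie0 (h : D ∈ Sy0 m) (h' : D' ∈ Sy0 m') :
    hh ⁅D, D'⁆ - (del D (hh D') - del D' (hh D)) ∈ Cm (Fin 2) := by
  have c1 := sum_mem fun i (_ : i ∈ univ) => sub_mem (cm_mem (D' (ga i)) (D (gb i)))
    (cm_mem (D' (gb i)) (D (ga i)))
  have e1 : UU ⁅D, D'⁆ - (((m + m' : ℕ) : ℚ) + 2) •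
      ∑ i, (D (ga i) * D' (gb i) - D (gb i) * D' (ga i)) ∈ Cm _ := by
    convert sub_mem (sub_mem (der_UU0 h' h.1) (der_UU0 h h'.1))
      (smul_mem _ ((m : ℚ) + 1) c1) using 1
    simp only [UU, Ring.lie_def, Fin.sum_univ_two, map_add, map_sub, h.1 _ _, h'.1 _ _,
      LinearMap.sub_apply, Module.End.mul_apply, mul_sub]
    push_cast
    module
  have e2 := rho_cm e1
  rw [map_sub, map_smul, hh_eq0 (Sy0_lie h h'), ← smul_sub, smul_mem_iff _ (by positivity)] at e2
  convert sub_mem (sub_mem e2 (sub_mem (der_hh0 h' (isDer_del D)) (der_hh0 h (isDer_del D'))))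
    (sum_mem fun i (_ : i ∈ univ) => cm_mem (rho (D (gb i))) (rho (D' (ga i)))) using 1
  simp only [del_gx, Fin.sum_univ_two, map_add, map_sub, map_mul]
  abel

/-- The ideal of the symplectic element. -/
noncomputable def J4 : Submodule ℚ T4 := span ℚ {x | ∃ s t, x = s * om * t}

lemma J4_gen (s t : T4) : s * om * t ∈ J4 := subset_span ⟨s, t, rfl⟩

lemma J4_mem {M : Type*} [AddCommGroup M] [Module ℚ M] {S : Submodule ℚ M} {f : T4 →ₗ[ℚ] M}
    (h : ∀ s t, f (s * om * t) ∈ S) {x : T4} (hx : x ∈ J4) : f x ∈ S :=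
  (span_le.2 (by rintro _ ⟨s, t, rfl⟩; exact h s t) : J4 ≤ S.comap f) hx

lemma J4_mul {x : T4} (h : x ∈ J4) (s t : T4) : s * x * t ∈ J4 :=
  J4_mem (f := LinearMap.mulRight ℚ t ∘ₗ LinearMap.mulLeft ℚ s) (fun a b => by
    simpa [mul_assoc] using J4_gen (s * a) (b * t)) h

lemma rho_J4 {x : T4} (h : x ∈ J4) : rho x = 0 :=
  J4_mem (S := ⊥) (f := rho.toLinearMap) (fun a b => by simp [om, Ring.lie_def]) h

lemma pj_J4 (k : ℕ) {x : T4} (h : x ∈ J4) : pj k x ∈ J4 := by
  have ho : om ∈ Hom X 2 := by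
    unfold om
    exact sum_mem fun i _ => len_Hom 1 (len_succ (x := gx) (i, false) (len_zero (i, true)))
  refine J4_mem (fun a b => ?_) h
  rw [pj_mul]
  refine sum_mem fun i _ => ?_
  rw [pj_mul, sum_mul]
  refine sum_mem fun j _ => ?_
  rw [pj_hom _ ho]
  split_ifs
  · exact J4_gen _ _
  · simp

lemma sub_J4 (w : F5) {x : T4} (h : x ∈ J4) : sub (fh w) x ∈ J4 :=
  J4_mem (f := (sub (fh w)).toLinearMap) (fun a b => by
    simpa [sub_om] using J4_gen (sub (fh w) a) (sub (fh w) b)) h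

lemma der_J4 (h : IsDer D) (e : D om = 0) {x : T4} (hx : x ∈ J4) : D x ∈ J4 :=
  J4_mem (fun a b => by
    rw [h, h, e, mul_zero, add_zero]
    exact add_mem (J4_gen _ _) (J4_gen _ _)) hx

/-- Operators that are inner derivations modulo the ideal. -/
noncomputable def IIc : Submodule ℚ (Module.End ℚ T4) where
  carrier := {E | ∃ l : T4, ∀ s, E s - ⁅l, s⁆ ∈ J4}
  add_mem' := by
    rintro a b ⟨l, hl⟩ ⟨l', hl'⟩
    refine ⟨l + l', fun s => ?_⟩
    convert add_mem (hl s) (hl' s) using 1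
    rw [add_lie, LinearMap.add_apply]
    abel
  zero_mem' := ⟨0, by simp⟩
  smul_mem' := by
    rintro c a ⟨l, hl⟩
    refine ⟨c • l, fun s => ?_⟩
    convert smul_mem _ c (hl s) using 1
    simp [Ring.lie_def, smul_sub]

lemma IIc_of_gx (h : IsDer D) {l : T4} (e : ∀ x, D (gx x) - ⁅l, gx x⁆ ∈ J4) : D ∈ IIc := by
  refine ⟨l, T_mem (f := D - (LinearMap.mulLeft ℚ l - LinearMap.mulRight ℚ l)) fun w => ?_⟩
  change D (wd w) - ⁅l, wd w⁆ ∈ J4
  induction w with
  | nil => simp [wd_nil, h.one, Ring.lie_def]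
  | cons x w ih =>
    convert add_mem (J4_mul (e x) 1 (wd w)) (J4_mul ih (gx x) 1) using 1
    rw [wd_cons, h]
    simp only [Ring.lie_def]
    noncomm_ring

lemma IIc_lie (h : IsDer D) (e : D om = 0) (h' : D' ∈ IIc) : ⁅D, D'⁆ ∈ IIc := by
  obtain ⟨l, hl⟩ := h'
  refine ⟨D l, fun s => ?_⟩
  convert sub_mem (der_J4 h e (hl s)) (hl (D s)) using 1
  rw [map_sub, h.br, Ring.lie_def D, LinearMap.sub_apply, Module.End.mul_apply,
    Module.End.mul_apply]
  abel

lemma IIc_cj (w : F5) (h : D ∈ IIc) : cj w D ∈ IIc := by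
  obtain ⟨l, hl⟩ := h
  refine ⟨sub (fh w) l, fun s => ?_⟩
  have e : sub (fh w) (sub (fh w⁻¹) s) = s := by
    rw [← sub_mul, ← map_mul, mul_inv_cancel, map_one, sub_one]
  simpa [cj_apply, Ring.lie_def, e] using sub_J4 w (hl (sub (fh w⁻¹) s))

lemma IIc_hh (h : D ∈ IIc) : hh D = 0 := by
  obtain ⟨l, hl⟩ := h
  exact hh_zero fun i => by simpa [Ring.lie_def] using rho_J4 (hl (gb i))

/-- The span of the words with many letters of the second kind. -/
noncomputable def R12 : Submodule ℚ T4 :=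
  span ℚ {s | ∃ w : List X, 12 ≤ w.length + 2 * w.countP (·.2) ∧ s = wd w}

/-- The allowed values of the divergence. -/
noncomputable def RR : Submodule ℚ T4 := R12 ⊔ Cm X ⊔ J4 ⊔ Hom X 1

/-- The span of the words of weight at least `k`. -/
noncomputable def Wt (k : ℕ) : Submodule ℚ T4 :=
  span ℚ {s | ∃ w : List X, k ≤ w.length + 2 * w.countP (·.2) ∧ s = wd w}

lemma Wt_wd {k : ℕ} {w : List X} (h : k ≤ w.length + 2 * w.countP (·.2)) : wd w ∈ Wt k :=
  subset_span ⟨w, h, rfl⟩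

lemma Wt_mem {M : Type*} [AddCommGroup M] [Module ℚ M] {S : Submodule ℚ M} {f : T4 →ₗ[ℚ] M} {k : ℕ}
    (h : ∀ w : List X, k ≤ w.length + 2 * w.countP (·.2) → f (wd w) ∈ S) {x : T4} (hx : x ∈ Wt k) :
    f x ∈ S :=
  (span_le.2 (by rintro _ ⟨w, hw, rfl⟩; exact h w hw) : Wt k ≤ S.comap f) hx

lemma Wt_mul {a b k : ℕ} {s t : T4} (hs : s ∈ Wt a) (ht : t ∈ Wt b) (hk : k ≤ a + b) :
    s * t ∈ Wt k :=
  Wt_mem (f := LinearMap.mulRight ℚ t) (fun u hu => Wt_mem (f := LinearMap.mulLeft ℚ (wd u))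
    (fun v hv => by
      rw [LinearMap.mulLeft_apply, ← wd_append]
      exact Wt_wd (by rw [List.length_append, List.countP_append]; omega)) ht) hs

lemma der_R12 (h : IsDer D) (hm : ∀ x, D (gx x) ∈ Hom X (m + 3)) {s : T4} (hs : s ∈ R12) :
    D s ∈ R12 := by
  have key : ∀ (w : List X) (k : ℕ), k ≤ w.length + 2 * w.countP (·.2) → D (wd w) ∈ Wt k := by
    intro w
    induction w with
    | nil => simp [wd_nil, h.one]
    | cons x w ih =>
      intro k hk
      have h1 : D (gx x) ∈ Wt (m + 3) :=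
        Hom_mem (f := LinearMap.id) (fun u hu => Wt_wd (by omega)) (hm x)
      rw [List.length_cons, List.countP_cons] at hk
      rw [wd_cons, h]
      refine add_mem (Wt_mul h1 (Wt_wd le_rfl) (by split_ifs at hk <;> omega))
        (Wt_mul (Wt_wd (w := [x]) le_rfl) (ih _ le_rfl) ?_)
      rw [List.length_singleton, List.countP_singleton]
      omega
  exact Wt_mem (S := Wt 12) (fun w hw => key w 12 hw) hs

lemma rho_wd_eq_zero {w : List X} (h : 0 < w.countP (·.2)) : rho (wd w) = 0 := by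
  induction w with
  | nil => simp at h
  | cons x w ih =>
    rw [wd_cons, map_mul, rho_gx]
    rw [List.countP_cons] at h
    split_ifs at h ⊢ with hx
    · simp
    · rw [ih h, mul_zero]

lemma rho_RR {d : ℕ} (h2 : 2 ≤ d) (h : d ≤ 11) {s : T4} (hs : s ∈ Hom X d) (hr : s ∈ RR) :
    rho s ∈ Cm (Fin 2) := by
  have key : RR ≤ (Cm (Fin 2)).comap (rho.toLinearMap ∘ₗ pj d) := by
    refine sup_le (sup_le (sup_le (fun x hx => mem_comap.2 (Wt_mem (k := 12) (fun w hw => ?_) hx))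
      fun x hx => rho_cm (pj_cm d hx)) fun x hx => ?_) fun x hx => ?_
    · rw [LinearMap.comp_apply, pj_wd]
      split_ifs with hd
      · rw [AlgHom.toLinearMap_apply, rho_wd_eq_zero (by omega)]
        exact zero_mem _
      · simp
    · change rho (pj d x) ∈ Cm (Fin 2)
      rw [rho_J4 (pj_J4 d hx)]
      exact zero_mem _
    · change rho (pj d x) ∈ Cm (Fin 2)
      rw [pj_hom d hx, if_neg (by omega), map_zero]
      exact zero_mem _
  have := key hr
  rwa [mem_comap, LinearMap.comp_apply, pj_hom d hs, if_pos rfl] at this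

/-- The graded Lie algebra containing the components. -/
noncomputable def K4 (d : ℕ) : Submodule ℚ (Module.End ℚ T4) where
  carrier := {E | E ∈ Sy0 d ∧ (Odd d → E ∈ IIc) ∧ ∀ w, dv (cj w E) ∈ RR}
  add_mem' h h' := ⟨add_mem h.1 h'.1, fun o => add_mem (h.2.1 o) (h'.2.1 o), fun w => by
    simpa [dv, sum_add_distrib] using add_mem (h.2.2 w) (h'.2.2 w)⟩
  zero_mem' := ⟨zero_mem _, fun _ => zero_mem _, fun w => by simp [dv]⟩
  smul_mem' c D h := ⟨smul_mem _ c h.1, fun o => smul_mem _ c (h.2.1 o), fun w => by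
    simpa [dv, smul_sum] using smul_mem _ c (h.2.2 w)⟩

lemma K4_cj (w : F5) (h : D ∈ K4 m) : cj w D ∈ K4 m :=
  ⟨Sy0_cj w h.1, fun o => IIc_cj w (h.2.1 o), fun w' => cj_mul w' w D ▸ h.2.2 (w' * w)⟩

lemma R12_RR {s : T4} (h : s ∈ R12) : s ∈ RR := mem_sup_left (mem_sup_left (mem_sup_left h))

lemma Cm_RR {s : T4} (h : s ∈ Cm X) : s ∈ RR := mem_sup_left (mem_sup_left (mem_sup_right h))

lemma J4_RR {s : T4} (h : s ∈ J4) : s ∈ RR := mem_sup_left (mem_sup_right h)

lemma K4_RR (hm : 1 ≤ m) (h : D ∈ K4 m) {s : T4} (hs : s ∈ RR) : D s ∈ RR := by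
  rcases hm.eq_or_lt with rfl | h2
  · obtain ⟨l, hl⟩ := h.2.1 odd_one
    simpa [Ring.lie_def] using add_mem (J4_RR (hl s)) (Cm_RR (cm_mem l s))
  obtain ⟨k, rfl⟩ : ∃ k, m = k + 2 := ⟨m - 2, by omega⟩
  refine (sup_le (sup_le (sup_le (fun x hx => ?_) fun x hx => Cm_RR (h.1.1.cm hx))
    fun x hx => J4_RR (der_J4 h.1.1 h.1.2.2 hx)) fun x hx => ?_ : RR ≤ RR.comap D) hs
  · exact R12_RR (der_R12 h.1.1 (fun y => len_Hom _ (h.1.2.1 y)) hx)
  · refine Hom_mem (S := RR) (fun w hw => ?_) hx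
    obtain ⟨y, rfl⟩ := List.length_eq_one_iff.1 hw
    exact Cm_RR (len_cm (h.1.2.1 y))

lemma K4_lie (hm : 1 ≤ m) (hm' : 1 ≤ m') (h : D ∈ K4 m) (h' : D' ∈ K4 m') :
    ⁅D, D'⁆ ∈ K4 (m + m') := by
  refine ⟨Sy0_lie h.1 h'.1, fun o => ?_, fun w => ?_⟩
  · rcases Nat.even_or_odd m' with e | e
    · rw [← lie_skew]
      exact neg_mem (IIc_lie h'.1.1 h'.1.2.2 (h.2.1 ((Nat.odd_add.1 o).2 e)))
    · exact IIc_lie h.1.1 h.1.2.2 (h'.2.1 e)
  · have k := K4_cj w h
    have k' := K4_cj w h'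
    have := add_mem (Cm_RR (dv_coc k.1.1 k'.1.1 (fun y => len_Hom _ (k.1.2.1 y))
      fun y => len_Hom _ (k'.1.2.1 y))) (sub_mem (K4_RR hm k (h'.2.2 w)) (K4_RR hm' k' (h.2.2 w)))
    rwa [sub_add_cancel, ← cj_lie] at this

/-- The derivation counting the letter `j`. -/
noncomputable def cntD (j : Fin 2) : Module.End ℚ T2 := der fun i => if i = j then gx i else 0

lemma cntD_wd (j : Fin 2) (w : List (Fin 2)) : cntD j (wd w) = (w.count j : ℚ) • wd w := by
  induction w with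
  | nil => simp [wd_nil, cntD, (isDer_der _).one]
  | cons x w ih =>
    rw [wd_cons, show cntD j (gx x * wd w) = _ from isDer_der _ _ _]
    change cntD j (gx x) * wd w + gx x * cntD j (wd w) = _
    rw [ih, cntD, der_gx, List.count_cons]
    by_cases hx : x = j <;> simp [hx, add_smul, add_comm]

lemma dm_hc_gx (j : Fin 2) (x : X) :
    dm (hc j) (gx x) = if x.1 = j then (if x.2 then -gx x else gx x) else 0 := by
  obtain ⟨i, b⟩ := x
  rw [dm_gx]
  fin_cases i <;> fin_cases j <;> cases b <;> simp [hc, Matrix.single]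

lemma rho_dm_hc (j : Fin 2) (s : T4) : rho (dm (hc j) s) = cntD j (rho s) := by
  refine T_ext' (f := rho.toLinearMap ∘ₗ dm (hc j)) (g := cntD j ∘ₗ rho.toLinearMap)
    (fun w => ?_) s
  change rho (dm (hc j) (wd w)) = cntD j (rho (wd w))
  have hd : IsDer (cntD j) := isDer_der _
  induction w with
  | nil => simp [wd_nil, (dm_der _).one, hd.one]
  | cons x w ih =>
    have : rho (dm (hc j) (gx x)) = cntD j (rho (gx x)) := by
      rw [dm_hc_gx, rho_gx]
      split_ifs with h1 h2 h2 <;> simp [rho_gx, cntD, h1, h2]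
    rw [wd_cons, dm_der, map_add, map_mul, map_mul, map_mul, hd, ih, this]

/-- Kill the letter `j`. -/
noncomputable def kil (j : Fin 2) : T2 →ₐ[ℚ] T2 :=
  MonoidAlgebra.lift ℚ T2 _ (FreeMonoid.lift fun i => if i = j then 0 else gx i)

lemma kil_gx (j i : Fin 2) : kil j (gx i) = if i = j then 0 else gx i := by
  simp [kil, gx, wd]

lemma kil_wd (j : Fin 2) (w : List (Fin 2)) : kil j (wd w) = if w.count j = 0 then wd w else 0 := by
  induction w with
  | nil => simp [wd_nil]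
  | cons x w ih =>
    rw [wd_cons, map_mul, ih, kil_gx, List.count_cons]
    by_cases hx : x = j <;> simp [hx]

lemma kil_len (j : Fin 2) : ∀ (n : ℕ) {y : T2}, y ∈ len gx (n + 1) → kil j y = 0
  | 0, _, hy => len_le (S := LinearMap.ker (kil j).toLinearMap) (fun a z hz =>
      len_le0 (S := (LinearMap.ker (kil j).toLinearMap).comap (LieModule.toEnd ℚ T2 T2 (gx a)))
        (fun b => by
          change kil j (gx a * gx b - gx b * gx a) = 0
          rw [map_sub, map_mul, map_mul, kil_gx, kil_gx]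
          fin_cases a <;> fin_cases b <;> fin_cases j <;> simp) hz) hy
  | n + 1, _, hy => len_le (S := LinearMap.ker (kil j).toLinearMap) (fun a z hz => by
      change kil j (gx a * z - z * gx a) = 0
      simp [kil_len j n hz]) hy

/-- A Lie derivation commuting with the Cartan element of a handle. -/
lemma hh_of_comm (j : Fin 2) (h : IsDer D) (hm : ∀ x, D (gx x) ∈ len gx (m + 1))
    (e : ⁅dm (hc j), D⁆ = 0) : hh D = 0 := by
  refine hh_zero fun i => ?_
  have h1 : cntD j (rho (D (gb i))) = rho (D (dm (hc j) (gb i))) := by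
    rw [← rho_dm_hc]
    exact congrArg rho (sub_eq_zero.1 (LinearMap.congr_fun e (gb i)))
  rw [dm_hc_gx] at h1
  have h2 := kil_len j m (rho_len _ (hm (i, true)))
  generalize hy : rho (D (gb i)) = y at h1 h2
  by_cases hi : i = j
  · have h3 := T_ext' (f := (lin fun w => ((w.count j : ℚ) + 1)⁻¹ • wd w) ∘ₗ (cntD j + 1))
      (g := LinearMap.id) (fun w => by
        have : (w.count j : ℚ) + 1 ≠ 0 := by positivity
        rw [LinearMap.comp_apply, LinearMap.add_apply, cntD_wd, Module.End.one_apply,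
          map_add, map_smul, lin_wd, smul_smul, ← add_smul, ← add_one_mul, mul_inv_cancel₀ this,
          one_smul]
        rfl) y
    rw [LinearMap.comp_apply, LinearMap.add_apply, h1] at h3
    simpa [hi, ← hy] using h3.symm
  · have h3 := T_ext' (f := (lin fun w => (w.count j : ℚ)⁻¹ • wd w) ∘ₗ cntD j)
      (g := LinearMap.id - (kil j).toLinearMap) (fun w => by
        rw [LinearMap.comp_apply, cntD_wd, map_smul, lin_wd, smul_smul, LinearMap.sub_apply,
          AlgHom.toLinearMap_apply, kil_wd]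
        by_cases hw : w.count j = 0 <;> simp [hw]) y
    rw [LinearMap.comp_apply, h1] at h3
    simpa [hi, h2] using h3.symm

end Pool.Agent.Lib.MP_f9c34c_al.G
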