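import Pool.Agent.Lib.MP_f9c34c_al.G.Inv
import Pool.Agent.Lib.MP_f9c34c_al.G.Fft
import Pool.Agent.Lib.MP_f9c34c_al.G.Std
import Pool.Agent.Lib.MP_f9c34c_al.G.Sy0

/-! The cocycle on homogeneous derivations. -/

namespace Pool.Agent.Lib.MP_f9c34c_al.G

open Submodule Finset

attribute [local instance 100] LieRing.ofAssociativeRing

lemma hh_TH {k : ℕ} {E : Module.End ℚ T4} (h : E ∈ Sy0 (2 * k + 2)) : hh E ∈ TH k := by
  rw [← smul_mem_iff (s := ((2 * k + 2 : ℕ) : ℚ) + 2) _ (by positivity), ← hh_eq0 h, rho_UU]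
  exact sum_mem fun i _ =>
    subset_span ⟨0, 2 * k + 2, zero_add _, gx i, len_zero i, _, rho_len _ (h.2.1 _), rfl⟩

private lemma coc_ip2_mul {p : ℕ} {s s' : T2} (hs : s ∈ Hom (Fin 2) p) (hs' : s' ∈ Hom (Fin 2) p)
    (t t' : T2) : ip2 (s * t) (s' * t') = ip2 s s' * ip2 t t' := by
  refine Hom_ext (f := ip2.flip (s' * t') ∘ₗ LinearMap.mulRight ℚ t)
    (g := ip2 t t' • ip2.flip s') (fun u hu => ?_) hs |>.trans (by simp [mul_comm])
  refine Hom_ext (f := ip2 (wd u * t) ∘ₗ LinearMap.mulRight ℚ t')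
    (g := ip2 t t' • ip2 (wd u)) (fun u' hu' => ?_) hs'
  refine T_ext' (f := ip2.flip (wd u' * t') ∘ₗ LinearMap.mulLeft ℚ (wd u))
    (g := ip2 (wd u) (wd u') • ip2.flip t') (fun v => ?_) t |>.trans (by simp [mul_comm])
  refine T_ext' (f := ip2 (wd u * wd v) ∘ₗ LinearMap.mulLeft ℚ (wd u'))
    (g := ip2 (wd u) (wd u') • ip2 (wd v)) (fun v' => ?_) t'
  simp only [LinearMap.comp_apply, LinearMap.mulLeft_apply, ← wd_append, ip2_wd,
    LinearMap.smul_apply, smul_eq_mul]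
  by_cases e : u = u'
  · subst e
    simp
  · rw [if_neg e, zero_mul, if_neg]
    intro e'
    exact e (List.append_inj_left e' (hu.trans hu'.symm))

private lemma coc_ip2_ins {p i : ℕ} (hi : i ≤ p) {u s c : T2} (hu : u ∈ Hom (Fin 2) p)
    (hs : s ∈ Hom (Fin 2) i) (hc : c ∈ Hom (Fin 2) 2) (t : T2) :
    ip2 (ins i u) (s * c * t) = ip2 cc c * ip2 u (s * t) := by
  refine Hom_ext (f := ip2.flip (s * c * t) ∘ₗ ins i) (g := ip2 cc c • ip2.flip (s * t))
    (fun w hw => ?_) hu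
  have h1 : wd (w.take i) ∈ Hom (Fin 2) i := wd_mem (by simp [hw, hi])
  have h2 : ip2 (wd w) (s * t) = ip2 (wd (w.take i)) s * ip2 (wd (w.drop i)) t := by
    rw [← coc_ip2_mul h1 hs, ← wd_append, List.take_append_drop]
  simp only [LinearMap.comp_apply, LinearMap.flip_apply, LinearMap.smul_apply, smul_eq_mul, ins,
    lin_wd]
  rw [h2, mul_assoc, mul_assoc s, coc_ip2_mul h1 hs, coc_ip2_mul (len_Hom 1 cc_len) hc]
  ring

private lemma coc_rho_hom {p : ℕ} {s : T4} (hs : s ∈ Hom X p) : rho s ∈ Hom (Fin 2) p := by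
  refine Hom_mem (f := rho.toLinearMap) (fun w hw => ?_) hs
  subst hw
  clear hs
  rw [AlgHom.toLinearMap_apply]
  induction w with
  | nil => rw [wd_nil, map_one]; exact wd_mem (w := []) rfl
  | cons x w ih =>
    rw [wd_cons, map_mul, List.length_cons, add_comm]
    exact Hom_mul (len_Hom 0 (rho_len 0 (len_zero x))) ih

private lemma coc_rho_sub (m : Matrix X X ℚ) (x : X) :
    rho (sub m (gx x)) = m a0 x • gx 0 + m a1 x • gx 1 := by
  rw [sub_gx, map_sum, Fintype.sum_prod_type]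
  simp [rho_gx]

private lemma coc_ip2_cc (a b c d : ℚ) :
    ip2 cc ((a • gx 0 + b • gx 1) * (c • gx 0 + d • gx 1)) = a * d - b * c := by
  have e : ∀ x y : Fin 2, gx x * gx y = wd [x, y] := fun x y => (wd_append [x] [y]).symm
  simp only [cc, Ring.lie_def, add_mul, mul_add, smul_mul_assoc, mul_smul_comm, e, map_add,
    map_smul, map_sub, LinearMap.sub_apply, ip2_wd]
  simp
  ring

lemma PQ_fun {n : ℕ} {v : T2} (hv : v ∈ PQ n) {x : T4} (hx : x ∈ Hom X (2 * n)) :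
    (fun w => ip2 v (rho (sub (fh w) x))) ∈ Vn pl n := by
  let G : T2 →ₗ[ℚ] T4 →ₗ[ℚ] F5 → ℚ := LinearMap.mk₂ ℚ (fun v x w => ip2 v (rho (sub (fh w) x)))
    (fun _ _ _ => by ext; simp) (fun _ _ _ => by ext; simp) (fun _ _ _ => by ext; simp)
    (fun _ _ _ => by ext; simp)
  change G v x ∈ Vn pl n
  induction n generalizing v x with
  | zero =>
    refine (span_le.2 ?_ : span ℚ {1} ≤ (Vn pl 0).comap (G.flip x)) hv
    rintro _ rfl
    change G 1 x ∈ Vn pl 0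
    refine Hom_mem (f := G 1) (fun w hw => ?_) hx
    obtain rfl := List.length_eq_zero_iff.1 hw
    refine subset_span ⟨0, by simp, ?_⟩
    ext w
    have := ip2_wd [] []
    simp only [wd_nil, if_true] at this
    simp [G, wd_nil, mon, this]
  | succ n ih =>
    refine (span_le.2 ?_ : span ℚ _ ≤ (Vn pl (n + 1)).comap (G.flip x)) hv
    rintro _ ⟨i, hi, u, hu, rfl⟩
    change G (ins i u) x ∈ Vn pl (n + 1)
    refine Hom_mem (f := G (ins i u)) (fun w hw => ?_) hx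
    obtain ⟨p, r, rfl, hp⟩ : ∃ p r, w = p ++ r ∧ p.length = i :=
      ⟨w.take i, w.drop i, (List.take_append_drop _ _).symm, by simp [hw]; omega⟩
    rw [List.length_append] at hw
    obtain ⟨a, r, rfl⟩ := List.exists_cons_of_ne_nil (l := r) (by rintro rfl; simp at hw; omega)
    obtain ⟨b, r, rfl⟩ := List.exists_cons_of_ne_nil (l := r) (by rintro rfl; simp at hw; omega)
    have h1 := Vn_mul (mn_mem a b) (ih hu (x := wd (p ++ r)) (wd_mem (by
      simp at hw ⊢; omega)))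
    rw [add_comm] at h1
    convert h1 using 1
    ext w
    have := coc_ip2_ins hi (PQ_hom hu) (coc_rho_hom (sub_hom (fh w) (wd_mem hp)))
      (coc_rho_hom (sub_hom (fh w) (Hom_mul (p := 1) (q := 1) (gx_mem a) (gx_mem b))))
      (rho (sub (fh w) (wd r)))
    have e : ip2 cc (rho (sub (fh w) (gx a * gx b))) = mn a b w := by
      rw [map_mul (sub (fh w)), map_mul rho, coc_rho_sub, coc_rho_sub]
      exact coc_ip2_cc _ _ _ _
    rw [e, ← map_mul rho, ← map_mul rho, ← map_mul rho, ← map_mul (sub (fh w)),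
      ← map_mul (sub (fh w)), ← map_mul (sub (fh w))] at this
    rw [Pi.mul_apply, wd_append, wd_append, wd_cons, wd_cons, ← mul_assoc (gx a), ← mul_assoc]
    exact this

/-- The form as a function on the group. -/
noncomputable def Bf : Module.End ℚ T4 →ₗ[ℚ] Module.End ℚ T4 →ₗ[ℚ] F5 → ℚ :=
  LinearMap.mk₂ ℚ (fun E E' w => B (hh (cj w E)) (hh (cj w E'))) (fun _ _ _ => by ext; simp)
    (fun _ _ _ => by ext; simp) (fun _ _ _ => by ext; simp) (fun _ _ _ => by ext; simp)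

lemma Bf_apply (E E' : Module.End ℚ T4) (w : F5) :
    Bf E E' w = B (hh (cj w E)) (hh (cj w E')) := rfl

lemma Bf_skew (E E' : Module.End ℚ T4) : Bf E E' = -Bf E' E := by
  ext w
  rw [Pi.neg_apply, Bf_apply, Bf_apply, B_skew]

lemma Bf_II {E : Module.End ℚ T4} (h : E ∈ IIc) (E' : Module.End ℚ T4) : Bf E E' = 0 := by
  ext w
  rw [Bf_apply, IIc_hh (IIc_cj w h), map_zero, LinearMap.zero_apply, Pi.zero_apply]

lemma Bf_eu (E' : Module.End ℚ T4) : Bf (der gx) E' = 0 := by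
  ext w
  rw [Bf_apply, cj_eu, hh_zero fun i => by rw [der_gx, rho_b], map_zero, LinearMap.zero_apply,
    Pi.zero_apply]

lemma Bf_cj (u : F5) (E E' : Module.End ℚ T4) : Bf (cj u E) (cj u E') = Rt u (Bf E E') := by
  ext w
  rw [Rt_apply, Bf_apply, Bf_apply, cj_mul, cj_mul]

private lemma coc_UU_hom {m : ℕ} {E : Module.End ℚ T4} (h : E ∈ Sy0 m) :
    UU E ∈ Hom X (m + 2) := by
  rw [show m + 2 = 1 + (m + 1) by ring]
  exact sum_mem fun i _ => sub_mem (Hom_mul (gx_mem _) (len_Hom _ (h.2.1 _)))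
    (Hom_mul (gx_mem _) (len_Hom _ (h.2.1 _)))

private lemma coc_even {i : ℕ} (hi : 1 ≤ i) (h : ¬ Odd i) : ∃ a, i = 2 * a + 2 := by
  obtain ⟨r, rfl⟩ := Nat.not_odd_iff_even.1 h
  exact ⟨r - 1, by omega⟩

theorem Bf_mem {i j : ℕ} (hi : 1 ≤ i) (hj : 1 ≤ j) (h : i + j = 16) {E E' : Module.End ℚ T4}
    (hE : E ∈ K4 i) (hE' : E' ∈ K4 j) : Bf E E' ∈ Vn pl 10 := by
  by_cases o : Odd i
  · rw [Bf_II (hE.2.1 o)]
    exact zero_mem _
  obtain ⟨a, rfl⟩ := coc_even hi o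
  obtain ⟨b, rfl⟩ : ∃ b, j = 2 * b + 2 := ⟨6 - a, by omega⟩
  let φ : T2 →ₗ[ℚ] ℚ := lin fun u => B (wd (u.take (2 * a + 4))) (wd (u.drop (2 * a + 4)))
  have hφ : ∀ s ∈ TH a, ∀ t, φ (s * t) = B s t := fun s hs t =>
    Hom_ext (f := φ ∘ₗ LinearMap.mulRight ℚ t) (g := B.flip t) (fun u hu =>
      T_ext' (f := φ ∘ₗ LinearMap.mulLeft ℚ (wd u)) (g := B (wd u)) (fun v => by
        simp [φ, ← wd_append, ← hu]) t) (TH_hom hs)
  have hx : ∀ c d, el c (gx d) = if d = c then 0 else gx c := fun c d => der_gx _ _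
  have hl : ∀ c d, el c (gx d) ∈ len gx (2 * 0) := fun c d => by
    rw [hx]
    split_ifs
    exacts [zero_mem _, len_zero _]
  have hd : ∀ c, IsDer (el c) := fun _ => isDer_der _
  let S : Submodule ℚ T2 := span ℚ {x | ∃ s ∈ TH a, ∃ t ∈ TH b, x = s * t}
  obtain ⟨v, hv, e⟩ := fft_rep el hd hx (n := 10) (S := S)
    (span_le.2 (by
      rintro _ ⟨s, hs, t, ht, rfl⟩
      have := Hom_mul (TH_hom hs) (TH_hom ht)
      rwa [show 2 * a + 4 + (2 * b + 4) = 2 * 10 by omega] at this))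
    (fun c => (span_le.2 (by
      rintro _ ⟨s, hs, t, ht, rfl⟩
      change el c (s * t) ∈ S
      rw [hd c s t]
      exact add_mem (subset_span ⟨_, der_TH (hd c) (hl c) hs, t, ht, rfl⟩)
        (subset_span ⟨s, hs, _, der_TH (hd c) (hl c) ht, rfl⟩)) : S ≤ S.comap (el c))) φ
    (fun c => (span_le.2 (by
      rintro _ ⟨s, hs, t, ht, rfl⟩
      change φ (el c (s * t)) = 0
      rw [hd c s t, map_add, hφ _ (der_TH (hd c) (hl c) hs), hφ _ hs]
      exact inv_el c hs ht) : S ≤ LinearMap.ker (φ ∘ₗ el c)))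
  have h1 := PQ_fun hv (x := UU E * UU E') (by
    have := Hom_mul (coc_UU_hom hE.1) (coc_UU_hom hE'.1)
    rwa [show 2 * a + 2 + 2 + (2 * b + 2 + 2) = 2 * 10 by omega] at this)
  rw [← smul_mem_iff (s := (((2 * a + 2 : ℕ) : ℚ) + 2) * (((2 * b + 2 : ℕ) : ℚ) + 2)) _
    (by positivity)]
  convert h1 using 1
  ext w
  have s1 := Sy0_cj w hE.1
  have s2 := Sy0_cj w hE'.1
  rw [Pi.smul_apply, Bf_apply, ← hφ _ (hh_TH s1), e _ (subset_span ⟨_, hh_TH s1, _, hh_TH s2, rfl⟩),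
    map_mul (sub (fh w)), ← UU_cj, ← UU_cj, map_mul rho, hh_eq0 s1, hh_eq0 s2, smul_mul_assoc, mul_smul_comm,
    map_smul, map_smul, smul_smul]

private lemma coc_dv_hom {m : ℕ} {E : Module.End ℚ T4} (h : E ∈ Sy0 m) : dv E ∈ Hom X m :=
  sum_mem fun x _ => Hom_mem (f := dR x) (fun w hw => by
    rw [dR, lin_wd]
    split_ifs
    exacts [wd_mem (by simp [hw]), zero_mem _]) (len_Hom _ (h.2.1 x))

private lemma coc_inv {a : ℕ} {E : Module.End ℚ T4} (h : E ∈ K4 (2 * a + 2)) (w : F5) {i j : ℕ}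
    {s t : T2} (hs : s ∈ N i) (ht : t ∈ N j) :
    B (del (cj w E) s) t + B s (del (cj w E) t) = 0 :=
  inv_all (isDer_del _) (del_len0 (Sy0_cj w h.1)) (fun ha => del_es0 (Sy0_cj w h.1)
    (rho_RR (by omega) (by omega) (coc_dv_hom (Sy0_cj w h.1)) (h.2.2 w))) hs ht

theorem Bf_jac {i j k : ℕ} (hi : 1 ≤ i) (hj : 1 ≤ j) (hk : 1 ≤ k) (h : i + j + k = 16)
    {E E' E'' : Module.End ℚ T4} (hE : E ∈ K4 i) (hE' : E' ∈ K4 j) (hE'' : E'' ∈ K4 k) :
    Bf E ⁅E', E''⁆ = Bf ⁅E, E'⁆ E'' + Bf E' ⁅E, E''⁆ := by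
  have sk : ∀ {D D' : Module.End ℚ T4} {m : ℕ}, D ∈ IIc → D' ∈ K4 m → ⁅D, D'⁆ ∈ IIc :=
    fun {D D' m} h h' => by
      rw [← lie_skew]
      exact neg_mem (IIc_lie h'.1.1 h'.1.2.2 h)
  by_cases o : Odd i
  · have := hE.2.1 o
    rw [Bf_II this, Bf_II (sk this hE'), Bf_skew, Bf_II (sk this hE''), neg_zero, add_zero]
  by_cases o' : Odd j
  · have := hE'.2.1 o'
    rw [Bf_II this, Bf_II (IIc_lie hE.1.1 hE.1.2.2 this), Bf_skew, Bf_II (sk this hE''), neg_zero,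
      add_zero]
  obtain ⟨a, rfl⟩ := coc_even hi o
  obtain ⟨b, rfl⟩ := coc_even hj o'
  obtain ⟨c, rfl⟩ : ∃ c, k = 2 * c + 2 := ⟨5 - a - b, by omega⟩
  ext w
  have s1 := Sy0_cj w hE.1
  have s2 := Sy0_cj w hE'.1
  have s3 := Sy0_cj w hE''.1
  have n1 := TH_N (hh_TH s1)
  have n2 := TH_N (hh_TH s2)
  have n3 := TH_N (hh_TH s3)
  have r : ∀ s : T2, s - s ∈ Cm _ := by simp
  have h1 := coc_inv hE w n2 n3
  have h2 := coc_inv hE' w n1 n3
  have h3 := coc_inv hE'' w n2 n1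
  rw [B_skew] at h3
  rw [Pi.add_apply, Bf_apply, Bf_apply, Bf_apply, cj_lie, cj_lie, cj_lie,
    B_congr (r _) (hh_lie0 s2 s3), B_congr (hh_lie0 s1 s2) (r _), B_congr (r _) (hh_lie0 s1 s3)]
  simp only [map_sub, LinearMap.sub_apply]
  linarith

end Pool.Agent.Lib.MP_f9c34c_al.G
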