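import Pool.Agent.Lib.MP_f9c34c_al.G.Tw

namespace Pool.Agent.Lib.MP_f9c34c_al.G

section Completion

variable {Γ : Type} [Group Γ]

/-- A matrix representation that is block triangular with diagonal blocks having entries in `A`.
For `A` the polynomial functions in the entries of a Zariski dense representation to a reductive
group `R`, these are the iterated extensions of algebraic representations of `R`. -/
def RelUni (A : Subalgebra ℚ (Γ → ℚ)) {n : ℕ} (σ : Γ →* Matrix (Fin n) (Fin n) ℚ) : Prop :=
  ∃ b : Fin n → ℕ, (∀ g, (σ g).BlockTriangular b) ∧ ∀ i j, b i = b j → (fun g => σ g i j) ∈ A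

/-- The coordinate ring of the relative completion, as an algebra of functions on the group. -/
def OG (A : Subalgebra ℚ (Γ → ℚ)) : Subalgebra ℚ (Γ → ℚ) :=
  Algebra.adjoin ℚ {f | ∃ (n : ℕ) (σ : Γ →* Matrix (Fin n) (Fin n) ℚ), RelUni A σ ∧
    ∃ i j, f = fun g => σ g i j}

/-- The Lie algebra of the relative completion: left invariant derivations. -/
def LG (A : Subalgebra ℚ (Γ → ℚ)) : LieSubalgebra ℚ (Derivation ℚ (OG A) (OG A)) where
  carrier := {D | ∀ (g : Γ) (f f' : OG A), (∀ x, f'.1 x = f.1 (g * x)) →
    ∀ x, (D f').1 x = (D f).1 (g * x)}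
  add_mem' {D D'} h h' g f f' e x := by simp [h g f f' e x, h' g f f' e x]
  zero_mem' g f f' e x := by simp
  smul_mem' c D h g f f' e x := by simp [h g f f' e x]
  lie_mem' {D D'} h h' g f f' e x := by
    simp [Derivation.commutator_apply, h g _ _ (h' g f f' e) x, h' g _ _ (h g f f' e) x]

/-- The Lie algebra of the prounipotent radical: left invariant derivations that vanish on `A`. -/
def UG (A : Subalgebra ℚ (Γ → ℚ)) : LieSubalgebra ℚ (Derivation ℚ (OG A) (OG A)) where
  carrier := {D | D ∈ LG A ∧ ∀ f : OG A, f.1 ∈ A → D f = 0}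
  add_mem' {D D'} h h' := ⟨add_mem h.1 h'.1, fun f e => by simp [h.2 f e, h'.2 f e]⟩
  zero_mem' := ⟨zero_mem _, fun f e => by simp⟩
  smul_mem' c D h := ⟨(LG A).smul_mem c h.1, fun f e => by simp [h.2 f e]⟩
  lie_mem' {D D'} h h' := ⟨(LG A).lie_mem h.1 h'.1, fun f e => by
    simp [Derivation.commutator_apply, h.2 f e, h'.2 f e]⟩

end Completion

open FreeGroup

/-- The fundamental group of the closed surface of genus two. -/
abbrev Pi2 : Type := PresentedGroup ({zeta} : Set (FreeGroup X))

/-- The mapping class group of genus two, by the Birman-Hilden presentation. -/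
abbrev MCG : Type := PresentedGroup rels

instance inner_normal (G : Type) [Group G] : (MulAut.conj : G →* MulAut G).range.Normal :=
  ⟨by
    rintro _ ⟨g, rfl⟩ α
    exact ⟨α g, by ext x; simp⟩⟩

/-- The outer automorphism group. -/
abbrev Out (G : Type) [Group G] : Type := MulAut G ⧸ (MulAut.conj : G →* MulAut G).range

lemma mk_zeta : (PresentedGroup.mk {zeta} zeta : Pi2) = 1 := PresentedGroup.one_of_mem rfl

/-- The endomorphism of the surface group induced by a word in the twists. -/
def alE (w : FreeGroup (Fin 5)) : Pi2 →* Pi2 :=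
  PresentedGroup.toGroup (f := fun x => PresentedGroup.mk {zeta} (al w (of x))) (by
    rintro _ rfl
    have : lift (fun x => (PresentedGroup.mk {zeta} (al w (of x)) : Pi2)) =
        (PresentedGroup.mk {zeta}).comp (al w).toMonoidHom := ext_hom _ _ fun x => by simp
    rw [this]
    simp [al_zeta, mk_zeta])

lemma alE_mk (w : FreeGroup (Fin 5)) (x : FreeGroup X) :
    alE w (PresentedGroup.mk {zeta} x) = PresentedGroup.mk {zeta} (al w x) :=
  DFunLike.congr_fun (ext_hom ((alE w).comp (PresentedGroup.mk {zeta}))
    ((PresentedGroup.mk {zeta}).comp (al w).toMonoidHom)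
    fun a => by
      rw [MonoidHom.comp_apply, alE]
      exact PresentedGroup.toGroup.of _) x

lemma alE_mul (u v : FreeGroup (Fin 5)) (x : Pi2) : alE (u * v) x = alE u (alE v x) := by
  obtain ⟨x, rfl⟩ := PresentedGroup.mk_surjective _ x
  simp [alE_mk]

lemma alE_one (x : Pi2) : alE 1 x = x := by
  obtain ⟨x, rfl⟩ := PresentedGroup.mk_surjective _ x
  simp [alE_mk]

/-- The action of words in the twists on the surface group. -/
def alP : FreeGroup (Fin 5) →* MulAut Pi2 where
  toFun w := MonoidHom.toMulEquiv (alE w) (alE w⁻¹)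
    (MonoidHom.ext fun x => by simp [← alE_mul, alE_one])
    (MonoidHom.ext fun x => by simp [← alE_mul, alE_one])
  map_one' := MulEquiv.ext alE_one
  map_mul' u v := MulEquiv.ext (alE_mul u v)

lemma alP_mk (w : FreeGroup (Fin 5)) (x : FreeGroup X) :
    alP w (PresentedGroup.mk {zeta} x) = PresentedGroup.mk {zeta} (al w x) := alE_mk w x

lemma alP_rel {r : FreeGroup (Fin 5)} (hr : r ∈ rels) : ∃ g, alP r = MulAut.conj g := by
  have key : ∀ g : FreeGroup X, (∀ x, (PresentedGroup.mk {zeta} (al r (of x)) : Pi2) =
      PresentedGroup.mk {zeta} (g * of x * g⁻¹)) → ∃ g, alP r = MulAut.conj g := fun g h =>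
    ⟨PresentedGroup.mk {zeta} g, MulEquiv.toMonoidHom_injective (PresentedGroup.ext fun x =>
      (alP_mk r (of x)).trans ((h x).trans (by simp; rfl)))⟩
  rcases hr with ⟨i, j, h, rfl⟩ | rfl | rfl | ⟨i, rfl⟩
  · exact key 1 fun x => by simp [al_brd i j h]
  · exact key 1 fun x => by simp [al_chain, mk_zeta, -map_pow]
  · exact key 1 fun x => by simp [al_hyp, mk_zeta, -map_pow]
  · by_cases h : i = 0
    · subst h
      refine key (fa 0) fun x => ?_
      rw [al_hyp0]
      split_ifs with h1 h2
      · simp [h1, fa]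
      all_goals simp [mk_zeta]
    · exact key 1 fun x => by rw [al_hypc i h]; simp

/-- The outer action of the mapping class group on the surface group. -/
def act : MCG →* Out Pi2 :=
  PresentedGroup.toGroup (f := fun i => QuotientGroup.mk (alP (of i))) (by
    intro r hr
    have : lift (fun i => (QuotientGroup.mk (alP (of i)) : Out Pi2)) =
        (QuotientGroup.mk' _).comp alP := ext_hom _ _ fun x => by simp
    obtain ⟨g, hg⟩ := alP_rel hr
    rw [this]
    exact (QuotientGroup.eq_one_iff _).2 ⟨g, hg.symm⟩)

/-- The augmentation ideal of the rational group algebra of the surface group. -/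
noncomputable def aug : Submodule ℚ (MonoidAlgebra ℚ Pi2) :=
  Submodule.span ℚ {y | ∃ g : Pi2, y = MonoidAlgebra.single g 1 - 1}

/-- Polynomials in the matrix coefficients of the action of the automorphisms of the surface
group on the group algebra modulo the power `m + 1` of the augmentation ideal. -/
noncomputable def coef (m : ℕ) : Subalgebra ℚ (MulAut Pi2 → ℚ) :=
  Algebra.adjoin ℚ {F | ∃ (g : Pi2) (l : MonoidAlgebra ℚ Pi2 →ₗ[ℚ] ℚ),
    (∀ y ∈ aug ^ (m + 1), l y = 0) ∧ F = fun α => l (MonoidAlgebra.single (α g) 1)}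

/-- The functions on the mapping class group that are given by such a polynomial on all
automorphisms representing the mapping class: the coordinate ring of the Zariski closure of the
image in the outer automorphism group of the Malcev completion of nilpotency class `m`. -/
noncomputable def JF (m : ℕ) : Subalgebra ℚ (MCG → ℚ) where
  carrier := {f | ∃ F ∈ coef m, ∀ γ α, QuotientGroup.mk α = act γ → f γ = F α}
  mul_mem' := by
    rintro f f' ⟨F, hF, h⟩ ⟨F', hF', h'⟩
    exact ⟨F * F', mul_mem hF hF', fun γ α e => by simp [h γ α e, h' γ α e]⟩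
  add_mem' := by
    rintro f f' ⟨F, hF, h⟩ ⟨F', hF', h'⟩
    exact ⟨F + F', add_mem hF hF', fun γ α e => by simp [h γ α e, h' γ α e]⟩
  algebraMap_mem' c := ⟨algebraMap ℚ _ c, algebraMap_mem _ c, fun γ α e => rfl⟩

end Pool.Agent.Lib.MP_f9c34c_al.G
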