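import Pool.Agent.Lib.MP_f9c34c_al.G.Frame

/-! Descent of functions along a surjection of groups. -/

namespace Pool.Agent.Lib.MP_f9c34c_al.G

section Nice
open Submodule

variable {Γ : Type} [Group Γ] {A : Subalgebra ℚ (Γ → ℚ)}

/-- A finite invariant filtration of a finite dimensional space of functions. -/
structure FCh (A : Subalgebra ℚ (Γ → ℚ)) (n : ℕ) (F : ℕ → Submodule ℚ (Γ → ℚ)) : Prop where
  fin : FiniteDimensional ℚ (F 0)
  bot : F n = ⊥
  anti : Antitone F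
  inv : ∀ k g, ∀ v ∈ F k, Rt g v ∈ F k
  gr : ∀ k, ∀ v ∈ F k, ∀ l : (Γ → ℚ) →ₗ[ℚ] ℚ, (∀ y ∈ F (k + 1), l y = 0) → co Rt l v ∈ A

lemma FCh.bot_of_le {n m : ℕ} {F : ℕ → Submodule ℚ (Γ → ℚ)} (h : FCh A n F) (hm : n ≤ m) :
    F m = ⊥ :=
  le_bot_iff.1 (h.bot ▸ h.anti hm)

lemma FCh.mem_OG {n : ℕ} {F : ℕ → Submodule ℚ (Γ → ℚ)} (h : FCh A n F) {f : Γ → ℚ}
    (hf : f ∈ F 0) : f ∈ OG A := by
  have := h.fin
  let σ : Γ →* Module.End ℚ (F 0) :=
    { toFun := fun g => (Rt g).restrict (h.inv 0 g)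
      map_one' := by ext v x; simp
      map_mul' := fun a b => by ext v x; simp [mul_assoc] }
  have hc : Ch A σ n fun k => (F k).comap (F 0).subtype := by
    refine ⟨comap_subtype_self _, by rw [h.bot, comap_bot, ker_subtype],
      fun k => comap_mono (h.anti k.le_succ), fun k g v hv => h.inv k g _ hv,
      fun k v hv l hl => ?_⟩
    obtain ⟨l', rfl⟩ := l.exists_extend
    exact h.gr k v hv l' fun y hy => hl ⟨y, h.anti (Nat.zero_le _) hy⟩ hy
  have e : co σ (LinearMap.proj (1 : Γ) ∘ₗ (F 0).subtype) ⟨f, hf⟩ = f := by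
    funext g
    change f (1 * g) = f g
    rw [one_mul]
  exact e ▸ hc.bridge _ _

lemma co_span {ι : Type*} {u : ι → Γ → ℚ} {s : Set ι} {l : (Γ → ℚ) →ₗ[ℚ] ℚ}
    (h : ∀ i ∈ s, co Rt l (u i) ∈ A) {v : Γ → ℚ} (hv : v ∈ span ℚ (u '' s)) : co Rt l v ∈ A := by
  induction hv using span_induction with
  | mem _ hx => obtain ⟨i, hi, rfl⟩ := hx; exact h i hi
  | zero =>
    rw [show co Rt l 0 = 0 by funext g; simp [co]]
    exact zero_mem A
  | add x y _ _ hx hy =>
    exact (show co Rt l (x + y) = co Rt l x + co Rt l y by funext g; simp [co]) ▸ add_mem hx hy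
  | smul c x _ hx =>
    exact (show co Rt l (c • x) = c • co Rt l x by funext g; simp [co]) ▸ A.smul_mem hx c

lemma fch_gen {n : ℕ} {σ : Γ →* Matrix (Fin n) (Fin n) ℚ} (h : RelUni A σ) (i j : Fin n) :
    ∃ m F, FCh A m F ∧ (fun g => σ g i j) ∈ F 0 := by
  obtain ⟨b, hb, hA⟩ := h
  let u : Fin n → Γ → ℚ := fun k g => σ g i k
  have hu : ∀ g k, Rt g (u k) = ∑ t, σ g t k • u t := fun g k => by
    funext x
    simp [u, Matrix.mul_apply, mul_comm]
  let B := Finset.univ.sup b + 1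
  refine ⟨B, fun m => span ℚ (u '' {k | b k + m < B}), ⟨?_, ?_, fun m m' e => ?_,
    fun m g v hv => ?_, fun m v hv l hl => co_span (fun k hk => ?_) hv⟩,
    subset_span ⟨j, Nat.lt_succ_of_le (Finset.le_sup (f := b) (Finset.mem_univ j)), rfl⟩⟩
  · exact FiniteDimensional.span_of_finite ℚ (Set.toFinite _)
  · simp
  · exact span_mono (Set.image_mono fun k hk => lt_of_le_of_lt (Nat.add_le_add_left e _) hk)
  · refine (span_le.2 ?_ : _ ≤ (span ℚ (u '' {k | b k + m < B})).comap (Rt g)) hv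
    rintro _ ⟨k, hk, rfl⟩
    rw [SetLike.mem_coe, mem_comap, hu]
    refine sum_mem fun t _ => ?_
    rcases lt_or_ge (b k) (b t) with e | e
    · rw [hb g e, zero_smul]
      exact zero_mem _
    · exact smul_mem _ _ (subset_span ⟨t, lt_of_le_of_lt (Nat.add_le_add_right e _) hk, rfl⟩)
  · have e : co Rt l (u k) = ∑ t, l (u t) • fun g => σ g t k := by
      funext g
      simp [co, hu, mul_comm]
    rw [e]
    refine sum_mem fun t _ => ?_
    rcases lt_trichotomy (b k) (b t) with e | e | e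
    · rw [show (fun g => σ g t k) = 0 from funext fun g => hb g e, smul_zero]
      exact zero_mem _
    · exact A.smul_mem (hA t k e.symm) _
    · have hk' : b k + m < B := hk
      rw [hl _ (subset_span ⟨t, show b t + (m + 1) < B by omega, rfl⟩), zero_smul]
      exact zero_mem _

lemma FCh.sup {n n' : ℕ} {F F' : ℕ → Submodule ℚ (Γ → ℚ)} (h : FCh A n F) (h' : FCh A n' F') :
    FCh A (n + n') fun k => F k ⊔ F' k := by
  have := h.fin
  have := h'.fin
  refine ⟨inferInstance, ?_, fun m m' e => sup_le_sup (h.anti e) (h'.anti e),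
    fun k g v hv => ?_, fun k v hv l hl => ?_⟩
  · rw [h.bot_of_le (Nat.le_add_right _ _), h'.bot_of_le (Nat.le_add_left _ _), sup_idem]
  · obtain ⟨x, hx, y, hy, rfl⟩ := mem_sup.1 hv
    rw [map_add]
    exact add_mem_sup (h.inv k g x hx) (h'.inv k g y hy)
  · obtain ⟨x, hx, y, hy, rfl⟩ := mem_sup.1 hv
    rw [show co Rt l (x + y) = co Rt l x + co Rt l y by funext g; simp [co]]
    exact add_mem (h.gr k x hx l fun z hz => hl z (mem_sup_left hz))
      (h'.gr k y hy l fun z hz => hl z (mem_sup_right hz))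

lemma exists_coord {M : Type*} [AddCommGroup M] [Module ℚ M] (V N : Submodule ℚ M)
    [FiniteDimensional ℚ V] : ∃ (d : ℕ) (l : Fin d → M →ₗ[ℚ] ℚ) (v : Fin d → M),
      (∀ a, ∀ y ∈ N, l a y = 0) ∧ (∀ a, v a ∈ V) ∧ ∀ y ∈ V, y - ∑ a, l a y • v a ∈ N := by
  let b := Module.finBasis ℚ (V.map N.mkQ)
  choose v hv e using fun a => (b a).2
  choose l hl using fun a => (b.coord a).exists_extend
  refine ⟨_, fun a => l a ∘ₗ N.mkQ, v, fun a y hy => ?_, hv, fun y hy => ?_⟩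
  · rw [LinearMap.comp_apply, mkQ_apply, (Quotient.mk_eq_zero N).2 hy, map_zero]
  · have h1 := congrArg Subtype.val (b.sum_repr ⟨N.mkQ y, mem_map_of_mem hy⟩)
    rw [← Quotient.mk_eq_zero, ← mkQ_apply, map_sub, map_sum, sub_eq_zero]
    refine h1.symm.trans ?_
    rw [AddSubmonoidClass.coe_finsetSum]
    refine Finset.sum_congr rfl fun a _ => ?_
    rw [map_smul, e, coe_smul, ← b.coord_apply, ← hl]
    rfl

lemma FCh.mul {n n' : ℕ} {F F' : ℕ → Submodule ℚ (Γ → ℚ)} (h : FCh A n F) (h' : FCh A n' F') :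
    FCh A (n + n') fun k => ⨆ (i : ℕ) (j : ℕ) (_ : k ≤ i + j), F i * F' j := by
  have hin : ∀ {k i j : ℕ} {x y : Γ → ℚ}, k ≤ i + j → x ∈ F i → y ∈ F' j →
      x * y ∈ ⨆ (i : ℕ) (j : ℕ) (_ : k ≤ i + j), F i * F' j := fun {k i j _ _} e hx hy =>
    mem_iSup_of_mem i (mem_iSup_of_mem j (mem_iSup_of_mem e (mul_mem_mul hx hy)))
  have hle : ∀ {k : ℕ} {S : Submodule ℚ (Γ → ℚ)},
      (∀ i j, k ≤ i + j → ∀ x ∈ F i, ∀ y ∈ F' j, x * y ∈ S) →
      ⨆ (i : ℕ) (j : ℕ) (_ : k ≤ i + j), F i * F' j ≤ S := fun e =>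
    iSup_le fun i => iSup_le fun j => iSup_le fun e' => mul_le.2 (e i j e')
  refine ⟨?_, le_bot_iff.1 (hle fun i j e x hx y hy => ?_),
    fun m m' e => hle fun i j e' x hx y hy => hin (e.trans e') hx hy,
    fun k g v hv => mem_comap.1 (hle (fun i j e x hx y hy => (mem_comap (f := Rt g)).2 ?_) hv),
    fun k v hv l hl => ?_⟩
  · have : FiniteDimensional ℚ (F 0 * F' 0 : Submodule ℚ (Γ → ℚ)) :=
      Module.Finite.iff_fg.2 ((Module.Finite.iff_fg.1 h.fin).mul (Module.Finite.iff_fg.1 h'.fin))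
    exact finiteDimensional_of_le (S₂ := F 0 * F' 0) (hle fun i j _ x hx y hy =>
      mul_mem_mul (h.anti (Nat.zero_le _) hx) (h'.anti (Nat.zero_le _) hy))
  · rcases le_total n i with e' | e'
    · rw [h.bot_of_le e', mem_bot] at hx
      rw [hx, zero_mul]
      exact zero_mem _
    · rcases le_or_gt n' j with e'' | e''
      · rw [h'.bot_of_le e'', mem_bot] at hy
        rw [hy, mul_zero]
        exact zero_mem _
      · omega
  · exact hin (x := Rt g x) (y := Rt g y) e (h.inv i g x hx) (h'.inv j g y hy)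
  let C : (Γ → ℚ) →ₗ[ℚ] Γ → ℚ := LinearMap.pi fun g => l ∘ₗ Rt g
  refine hle (S := A.toSubmodule.comap C) (fun i j e x hx y hy => ?_) hv
  have := h.fin
  have : FiniteDimensional ℚ (F i) := finiteDimensional_of_le (h.anti (Nat.zero_le i))
  obtain ⟨d, c, w, hc, hw, hs⟩ := exists_coord (F i) (F (i + 1))
  have e1 : C (x * y) = ∑ a, co Rt (c a) x * co Rt (l ∘ₗ LinearMap.mulLeft ℚ (w a)) y := by
    funext g
    have h1 := hl _ (hin (by omega) (hs _ (h.inv i g x hx)) (h'.inv j g y hy))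
    rw [sub_mul, map_sub, sub_eq_zero, Finset.sum_mul, map_sum] at h1
    rw [Finset.sum_apply]
    refine h1.trans (Finset.sum_congr rfl fun a _ => ?_)
    rw [smul_mul_assoc, map_smul]
    rfl
  change C (x * y) ∈ A
  rw [e1]
  exact sum_mem fun a _ => mul_mem (h.gr i x hx _ (hc a))
    (h'.gr j y hy _ fun z hz => hl _ (hin (by omega) (hw a) hz))

lemma exists_fch {f : Γ → ℚ} (hf : f ∈ OG A) : ∃ m F, FCh A m F ∧ f ∈ F 0 := by
  induction hf using Algebra.adjoin_induction with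
  | mem _ hx =>
    obtain ⟨n, σ, h, i, j, rfl⟩ := hx
    exact fch_gen h i j
  | algebraMap c =>
    obtain ⟨m, F, h, h1⟩ := fch_gen (A := A) (n := 1) (σ := 1)
      ⟨fun _ => 0, fun _ _ _ e => absurd e (lt_irrefl _), fun i j _ =>
        A.algebraMap_mem ((1 : Matrix (Fin 1) (Fin 1) ℚ) i j)⟩ 0 0
    refine ⟨m, F, h, ?_⟩
    rw [Algebra.algebraMap_eq_smul_one]
    exact smul_mem _ c h1
  | add x y _ _ hx hy =>
    obtain ⟨_, _, h, h1⟩ := hx
    obtain ⟨_, _, h', h2⟩ := hy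
    exact ⟨_, _, h.sup h', add_mem_sup h1 h2⟩
  | mul x y _ _ hx hy =>
    obtain ⟨_, _, h, h1⟩ := hx
    obtain ⟨_, _, h', h2⟩ := hy
    exact ⟨_, _, h.mul h', mem_iSup_of_mem 0 (mem_iSup_of_mem 0 (mem_iSup_of_mem le_rfl
      (mul_mem_mul h1 h2)))⟩

end Nice

theorem OG_descent {Γ Γ' : Type} [Group Γ] [Group Γ'] (π : Γ' →* Γ) (hπ : Function.Surjective π)
    {A : Subalgebra ℚ (Γ → ℚ)} {A' : Subalgebra ℚ (Γ' → ℚ)}
    (h : ∀ f : Γ → ℚ, f ∘ π ∈ A' → f ∈ A) {f : Γ → ℚ} (hf : f ∘ π ∈ OG A') : f ∈ OG A := by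
  obtain ⟨n, F, hF, h0⟩ := exists_fch hf
  let P : (Γ → ℚ) →ₗ[ℚ] Γ' → ℚ := LinearMap.funLeft ℚ ℚ π
  have hP : Function.Injective P := LinearMap.funLeft_injective_of_surjective ℚ ℚ π hπ
  have hR : ∀ g v, P (Rt (π g) v) = Rt g (P v) := fun g v => by
    funext x
    simp [P]
  refine FCh.mem_OG (n := n) (F := fun k => (F k).comap P) ⟨?_, ?_,
    fun m m' e => Submodule.comap_mono (hF.anti e), fun k g v hv => ?_, fun k v hv l hl => ?_⟩ h0
  · have := hF.fin
    exact FiniteDimensional.of_injective (P.restrict (p := (F 0).comap P) (q := F 0) fun _ e => e)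
      fun a b e => Subtype.ext (hP (congrArg Subtype.val e))
  · rw [hF.bot, Submodule.comap_bot, LinearMap.ker_eq_bot.2 hP]
  · obtain ⟨g, rfl⟩ := hπ g
    rw [Submodule.mem_comap, hR]
    exact hF.inv k g _ hv
  · have h1 : l ∈ (LinearMap.ker ((F (k + 1)).mkQ ∘ₗ P)).dualAnnihilator := by
      rw [Submodule.mem_dualAnnihilator, LinearMap.ker_comp, Submodule.ker_mkQ]
      exact hl
    rw [← LinearMap.range_dualMap_eq_dualAnnihilator_ker] at h1
    obtain ⟨l', rfl⟩ := h1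
    have h2 := hF.gr k _ hv (l' ∘ₗ (F (k + 1)).mkQ) fun y hy => by
      rw [LinearMap.comp_apply, Submodule.mkQ_apply, (Submodule.Quotient.mk_eq_zero _).2 hy,
        map_zero]
    refine h _ (Eq.mp (congrArg (· ∈ A') (funext fun g => ?_)) h2)
    simp only [co, Function.comp_apply, LinearMap.dualMap_apply, LinearMap.comp_apply, hR]

end Pool.Agent.Lib.MP_f9c34c_al.G
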