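import Pool.Agent.Lib.MP_f9c34c_al.G.Log

/-! Exponentials of nilpotent elements. -/

namespace Pool.Agent.Lib.MP_f9c34c_al.G

open IsNilpotent Finset

attribute [local instance 100] LieRing.ofAssociativeRing

section Alg
variable {A : Type*} [Ring A] [Algebra ℚ A]

open Classical in
/-- The exponential as a unit. -/
noncomputable def expU (a : A) : Aˣ :=
  if h : IsNilpotent a then ⟨exp a, exp (-a), exp_mul_exp_neg_self h, exp_neg_mul_exp_self h⟩
  else 1

lemma expU_val {a : A} (h : IsNilpotent a) : (expU a : A) = exp a := by simp [expU, h]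

lemma expU_inv {a : A} (h : IsNilpotent a) : ((expU a)⁻¹ : Aˣ) = expU (-a) := by
  ext; simp [expU, h, h.neg]

/-- Conjugation by a unit. -/
noncomputable def Ad : Aˣ →* (Module.End ℚ A)ˣ where
  toFun u := ⟨LinearMap.mulLeft ℚ (u : A) ∘ₗ LinearMap.mulRight ℚ (u⁻¹ : Aˣ),
    LinearMap.mulLeft ℚ ((u⁻¹ : Aˣ) : A) ∘ₗ LinearMap.mulRight ℚ (u : A),
    by ext; simp [mul_assoc], by ext; simp [mul_assoc]⟩
  map_one' := by ext; simp
  map_mul' u v := by ext; simp [mul_assoc]

lemma Ad_apply (u : Aˣ) (b : A) : (Ad u : Module.End ℚ A) b = u * b * (u⁻¹ : Aˣ) := by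
  simp [Ad, mul_assoc]

lemma Ad_lie (u : Aˣ) (b c : A) : (Ad u : Module.End ℚ A) ⁅b, c⁆ =
    ⁅(Ad u : Module.End ℚ A) b, (Ad u : Module.End ℚ A) c⁆ := by
  simp [Ad_apply, Ring.lie_def, mul_sub, sub_mul, mul_assoc]

lemma nil_ad {a : A} (h : IsNilpotent a) : IsNilpotent (LieAlgebra.ad ℚ A a) :=
  LieAlgebra.ad_nilpotent_of_nilpotent h

lemma exp_mulLeft {a : A} (h : IsNilpotent a) :
    exp (LinearMap.mulLeft ℚ a) = LinearMap.mulLeft ℚ (exp a) :=
  (map_exp h (Algebra.lmul ℚ A)).symm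

lemma exp_mulRight {a : A} (h : IsNilpotent a) :
    exp (LinearMap.mulRight ℚ a) = LinearMap.mulRight ℚ (exp a) := by
  obtain ⟨k, hk⟩ := h
  have hk' : LinearMap.mulRight ℚ a ^ k = 0 := by rw [LinearMap.pow_mulRight, hk]; ext; simp
  rw [exp_eq_sum hk, exp_eq_sum hk']
  ext b
  simp [mul_sum]

lemma Ad_expU {a : A} (h : IsNilpotent a) :
    (Ad (expU a) : Module.End ℚ A) = exp (LieAlgebra.ad ℚ A a) := by
  have e : LieAlgebra.ad ℚ A a = LinearMap.mulLeft ℚ a + LinearMap.mulRight ℚ (-a) := by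
    ext b
    simp [Ring.lie_def, sub_eq_add_neg]
  rw [e, exp_add_of_commute (LinearMap.commute_mulLeft_right a (-a))
    ((LinearMap.isNilpotent_mulLeft_iff ℚ a).2 h) ((LinearMap.isNilpotent_mulRight_iff ℚ _).2 h.neg),
    exp_mulLeft h, exp_mulRight h.neg]
  ext b
  rw [Ad_apply, expU_inv h, expU_val h, expU_val h.neg]
  simp [mul_assoc]

/-- Conjugation as a ring morphism. -/
noncomputable def adRing (u : Aˣ) : A →+* A where
  toFun := (Ad u : Module.End ℚ A)
  map_one' := by simp [Ad_apply]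
  map_mul' b c := by simp [Ad_apply, mul_assoc]
  map_zero' := map_zero _
  map_add' := map_add _

lemma nil_Ad (u : Aˣ) {a : A} (h : IsNilpotent a) : IsNilpotent ((Ad u : Module.End ℚ A) a) :=
  h.map (adRing u)

lemma expU_Ad (u : Aˣ) {a : A} (h : IsNilpotent a) :
    expU ((Ad u : Module.End ℚ A) a) = u * expU a * u⁻¹ := by
  ext
  rw [expU_val (nil_Ad u h), Units.val_mul, Units.val_mul, expU_val h, ← Ad_apply]
  exact (map_exp h (adRing u)).symm

lemma exp_inj {a b : A} (ha : IsNilpotent a) (hb : IsNilpotent b) (h : exp a = exp b) : a = b := by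
  have h1 := lgp_exp ((LinearMap.isNilpotent_mulLeft_iff ℚ a).2 ha) 1
  have h2 := lgp_exp ((LinearMap.isNilpotent_mulLeft_iff ℚ b).2 hb) 1
  rw [exp_mulLeft ha, h, ← exp_mulLeft hb, h2] at h1
  simpa using h1.symm

lemma commute_of_exp {a b : A} (ha : IsNilpotent a) (h : Commute (exp a) b) : Commute a b := by
  have h1 : exp (LieAlgebra.ad ℚ A a) b = b := by
    rw [← Ad_expU ha, Ad_apply, expU_val ha, h.eq, ← expU_val ha, Units.mul_inv_cancel_right]
  exact sub_eq_zero.1 ((exp_fix (nil_ad ha)).1 h1)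

lemma commute_exp {a b : A} (ha : IsNilpotent a) (h : Commute a b) : Commute (exp a) b := by
  obtain ⟨k, hk⟩ := ha
  rw [exp_eq_sum hk]
  exact Commute.sum_left _ _ _ fun i _ => (h.pow_left i).smul_left _

/-- A Lie subalgebra normalized by `a` is stable under conjugation by `exp a`. -/
lemma Ad_expU_mem {a : A} (h : IsNilpotent a) {S : Submodule ℚ A} (hS : ∀ b ∈ S, ⁅a, b⁆ ∈ S)
    {b : A} (hb : b ∈ S) : (Ad (expU a) : Module.End ℚ A) b ∈ S := by
  rw [Ad_expU h]
  exact exp_mem (nil_ad h) hS hb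

lemma sq_dvd_exp {B : Type*} [CommRing B] [Algebra ℚ B] {d : B} (h : IsNilpotent d) :
    d ^ 2 ∣ exp d - 1 - d := by
  obtain ⟨k, hk⟩ := h
  rw [exp_eq_sum (pow_eq_zero_of_le (Nat.le_add_right k 2) hk), sum_range_succ', sum_range_succ']
  simp only [zero_add, Nat.factorial_one, Nat.cast_one, inv_one, pow_one, one_smul,
    Nat.factorial_zero, pow_zero, add_sub_cancel_right]
  exact dvd_sum fun i _ => dvd_smul_of_dvd _ (pow_dvd_pow d (by omega))

lemma exists_log_comm {B : Type*} [CommRing B] [Algebra ℚ B] {n : B} (h : IsNilpotent n) (k : ℕ) :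
    ∃ y, n ∣ y ∧ n ^ (k + 1) ∣ 1 + n - exp y := by
  have nil : ∀ y, n ∣ y → IsNilpotent y := by
    rintro _ ⟨c, rfl⟩
    exact (Commute.all _ _).isNilpotent_mul_right h
  induction k with
  | zero => exact ⟨0, dvd_zero _, by simp⟩
  | succ k ih =>
    obtain ⟨y, h1, h2⟩ := ih
    set d := 1 + n - exp y with hd
    have h3 : n ∣ d := (dvd_pow_self n (Nat.succ_ne_zero k)).trans h2
    refine ⟨y + d, dvd_add h1 h3, ?_⟩
    have h4 : n ∣ exp y - 1 := by
      have := dvd_add ((h1.trans (dvd_pow_self y two_ne_zero)).trans (sq_dvd_exp (nil y h1))) h1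
      rwa [sub_add_cancel] at this
    have h5 : n ^ (k + 1 + 1) ∣ exp d - 1 - d := by
      refine dvd_trans ?_ (sq_dvd_exp (nil d h3))
      rw [_root_.pow_succ, sq]
      exact mul_dvd_mul h2 h3
    rw [exp_add_of_commute (Commute.all _ _) (nil y h1) (nil d h3),
      show 1 + n - exp y * exp d = -(d * (exp y - 1)) - exp y * (exp d - 1 - d) by
        rw [show 1 + n = d + exp y by rw [hd, sub_add_cancel]]; ring]
    exact dvd_sub (dvd_neg.2 (_root_.pow_succ n (k + 1) ▸ mul_dvd_mul h2 h4)) (h5.mul_left _)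

/-- Every unipotent element is an exponential, and the logarithm is a polynomial without constant
term. -/
lemma exists_log {n : A} (h : IsNilpotent n) :
    ∃ y ∈ Submodule.span ℚ {z | ∃ k : ℕ, z = n ^ (k + 1)}, IsNilpotent y ∧ exp y = 1 + n := by
  obtain ⟨N, hN⟩ := h
  let I : Ideal (Polynomial ℚ) := Ideal.span {Polynomial.X ^ N}
  let φ : (Polynomial ℚ ⧸ I) →ₐ[ℚ] A := Ideal.Quotient.liftₐ I (Polynomial.aeval n) fun p hp => by
    obtain ⟨q, rfl⟩ := Ideal.mem_span_singleton.1 hp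
    simp [hN]
  have hφ : ∀ p, φ (Ideal.Quotient.mk I p) = Polynomial.aeval n p := fun p => rfl
  have hx : Ideal.Quotient.mk I Polynomial.X ^ N = 0 := by
    rw [← map_pow]
    exact Ideal.Quotient.eq_zero_iff_mem.2 (Ideal.mem_span_singleton_self _)
  obtain ⟨_, ⟨c, rfl⟩, h2⟩ := exists_log_comm ⟨N, hx⟩ N
  have h3 : IsNilpotent (Ideal.Quotient.mk I Polynomial.X * c) :=
    (Commute.all _ _).isNilpotent_mul_right ⟨N, hx⟩
  rw [_root_.pow_succ, hx, zero_mul, zero_dvd_iff, sub_eq_zero] at h2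
  refine ⟨φ (Ideal.Quotient.mk I Polynomial.X * c), ?_, h3.map φ, ?_⟩
  · obtain ⟨q, rfl⟩ := Ideal.Quotient.mk_surjective c
    rw [map_mul, hφ, hφ, Polynomial.aeval_X, Polynomial.aeval_eq_sum_range, mul_sum]
    refine Submodule.sum_mem _ fun i _ => ?_
    rw [mul_smul_comm, ← pow_succ']
    exact Submodule.smul_mem _ _ (Submodule.subset_span ⟨i, rfl⟩)
  · rw [← map_exp h3 φ, ← h2, map_add, map_one, hφ, Polynomial.aeval_X]

/-- The product of the exponentials of a list. -/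
noncomputable def expL (l : List A) : Aˣ := (l.map expU).prod

lemma expL_nil : expL ([] : List A) = 1 := rfl

lemma expL_cons (a : A) (l : List A) : expL (a :: l) = expU a * expL l := rfl

lemma expL_append (l l' : List A) : expL (l ++ l') = expL l * expL l' := by simp [expL]

/-- Conjugation as a morphism of Lie algebras. -/
noncomputable def AdL (u : Aˣ) : A →ₗ⁅ℚ⁆ A :=
  { (Ad u : Module.End ℚ A) with map_lie' := fun {b c} => Ad_lie u b c }

lemma AdL_apply (u : Aˣ) (b : A) : AdL u b = (Ad u : Module.End ℚ A) b := rfl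

lemma Ad_mul (u v : Aˣ) (b : A) :
    (Ad (u * v) : Module.End ℚ A) b = (Ad u : Module.End ℚ A) ((Ad v : Module.End ℚ A) b) := by
  simp [Ad_apply, mul_assoc]

lemma Ad_one (b : A) : (Ad (1 : Aˣ) : Module.End ℚ A) b = b := by simp

lemma Ad_expL_mem {l : List A} {S : Submodule ℚ A}
    (h : ∀ a ∈ l, IsNilpotent a ∧ ∀ b ∈ S, ⁅a, b⁆ ∈ S) {b : A} (hb : b ∈ S) :
    (Ad (expL l) : Module.End ℚ A) b ∈ S := by
  induction l with
  | nil => rwa [expL_nil, Ad_one]
  | cons a l ih =>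
    rw [expL_cons, Ad_mul]
    have ha := h a List.mem_cons_self
    exact Ad_expU_mem ha.1 ha.2 (ih fun c hc => h c (List.mem_cons_of_mem a hc))

end Alg

end Pool.Agent.Lib.MP_f9c34c_al.G
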