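import Pool.Agent.Lib.MP_f9c34c_al.G.Gr

/-! The extension of a graded Lie algebra by a cocycle of degree sixteen. -/

namespace Pool.Agent.Lib.MP_f9c34c_al.G

attribute [local instance 100] LieRing.ofAssociativeRing

/-- The data of an extension of `W` by `V`, where `W` acts on `V` through `16 * ep`. -/
structure Cyc (W V : Type) [LieRing W] [LieAlgebra ℚ W] [AddCommGroup V] [Module ℚ V] where
  /-- The character. -/
  ep : W →ₗ[ℚ] ℚ
  /-- The cocycle. -/
  ch : W →ₗ[ℚ] W →ₗ[ℚ] V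
  ep_lie : ∀ a b : W, ep ⁅a, b⁆ = 0
  ch_self : ∀ a, ch a a = 0
  ch_jac : ∀ a b c : W, ch a ⁅b, c⁆ + (16 * ep a) • ch b c =
    ch ⁅a, b⁆ c - (16 * ep c) • ch a b + (ch b ⁅a, c⁆ + (16 * ep b) • ch a c)

variable {W V : Type} [LieRing W] [LieAlgebra ℚ W] [AddCommGroup V] [Module ℚ V]

/-- The extension. -/
def Ext (_c : Cyc W V) : Type := W × V

variable (c : Cyc W V)

instance Ext_add : AddCommGroup (Ext c) := inferInstanceAs (AddCommGroup (W × V))

instance Ext_mod : Module ℚ (Ext c) := inferInstanceAs (Module ℚ (W × V))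

instance Ext_fin [FiniteDimensional ℚ W] [FiniteDimensional ℚ V] : FiniteDimensional ℚ (Ext c) :=
  inferInstanceAs (FiniteDimensional ℚ (W × V))

/-- The first projection. -/
def p1 : Ext c →ₗ[ℚ] W := LinearMap.fst ℚ W V

/-- The second projection. -/
def p2 : Ext c →ₗ[ℚ] V := LinearMap.snd ℚ W V

/-- The element with given projections. -/
def mkE (a : W) (v : V) : Ext c := (a, v)

@[simp] lemma p1_mk (a : W) (v : V) : p1 c (mkE c a v) = a := rfl

@[simp] lemma p2_mk (a : W) (v : V) : p2 c (mkE c a v) = v := rfl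

lemma Ext_ext {x y : Ext c} (h1 : p1 c x = p1 c y) (h2 : p2 c x = p2 c y) : x = y :=
  Prod.ext h1 h2

instance Ext_lie : LieRing (Ext c) where
  bracket x y := mkE c ⁅p1 c x, p1 c y⁆ (c.ch (p1 c x) (p1 c y) +
    ((16 * c.ep (p1 c x)) • p2 c y - (16 * c.ep (p1 c y)) • p2 c x))
  add_lie x y z := by
    apply Ext_ext c
    · simp only [p1_mk, map_add, add_lie]
    · simp only [p2_mk, map_add, LinearMap.add_apply]
      module
  lie_add x y z := by
    apply Ext_ext c
    · simp only [p1_mk, map_add, lie_add]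
    · simp only [p2_mk, map_add]
      module
  lie_self x := by
    apply Ext_ext c
    · simp only [p1_mk, lie_self, map_zero]
    · simp only [p2_mk, c.ch_self, sub_self, add_zero, map_zero]
  leibniz_lie x y z := by
    apply Ext_ext c
    · simp only [p1_mk, map_add]
      exact leibniz_lie _ _ _
    · simp only [p1_mk, p2_mk, map_add, c.ep_lie]
      have h := c.ch_jac (p1 c x) (p1 c y) (p1 c z)
      linear_combination (norm := module) h

lemma p1_lie (x y : Ext c) : p1 c ⁅x, y⁆ = ⁅p1 c x, p1 c y⁆ := rfl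

lemma p2_lie (x y : Ext c) : p2 c ⁅x, y⁆ = c.ch (p1 c x) (p1 c y) +
    ((16 * c.ep (p1 c x)) • p2 c y - (16 * c.ep (p1 c y)) • p2 c x) := rfl

instance Ext_alg : LieAlgebra ℚ (Ext c) where
  lie_smul t x y := by
    apply Ext_ext c
    · simp only [p1_lie, map_smul, lie_smul]
    · simp only [p2_lie, map_smul, smul_eq_mul]
      module

/-- The block diagonal operators. -/
def blk (f : Module.End ℚ W) (g : Module.End ℚ V) : Module.End ℚ (Ext c) := f.prodMap g

@[simp] lemma p1_blk (f : Module.End ℚ W) (g : Module.End ℚ V) (x : Ext c) :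
    p1 c (blk c f g x) = f (p1 c x) := rfl

@[simp] lemma p2_blk (f : Module.End ℚ W) (g : Module.End ℚ V) (x : Ext c) :
    p2 c (blk c f g x) = g (p2 c x) := rfl

lemma blk_mul (f f' : Module.End ℚ W) (g g' : Module.End ℚ V) :
    blk c (f * f') (g * g') = blk c f g * blk c f' g' := rfl

lemma blk_one : blk c 1 1 = 1 := rfl

/-- The grading element and the cocycle are compatible. -/
structure Cyc.Gd (e : W) : Prop where
  top : GF e 0 = ⊤
  ep_e : c.ep e = 1
  ch_e : ∀ b, c.ch e b = 0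

variable {c} {e : W}

lemma mem_eig_ext (h : c.Gd e) {d : ℕ} {x : Ext c} :
    x ∈ eig (mkE c e 0) d ↔ p1 c x ∈ eig e d ∧ (d ≠ 16 → p2 c x = 0) := by
  have h2 : p2 c ⁅mkE c e 0, x⁆ = (16 : ℚ) • p2 c x := by
    rw [p2_lie, p1_mk, p2_mk, h.ch_e, h.ep_e, smul_zero, sub_zero, zero_add, mul_one]
  change ⁅mkE c e 0, x⁆ = (d : ℚ) • x ↔ ⁅e, p1 c x⁆ = (d : ℚ) • p1 c x ∧ _
  constructor
  · intro hx
    refine ⟨by simpa only [p1_lie, p1_mk, map_smul] using congrArg (p1 c) hx, fun hd => ?_⟩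
    have h3 := congrArg (p2 c) hx
    rw [h2, map_smul, ← sub_eq_zero, ← sub_smul, smul_eq_zero] at h3
    refine h3.resolve_left fun h4 => hd ?_
    exact_mod_cast (sub_eq_zero.1 h4).symm
  · rintro ⟨h3, h4⟩
    apply Ext_ext c
    · rw [p1_lie, p1_mk, h3, map_smul]
    · rw [h2, map_smul]
      by_cases hd : d = 16
      · rw [hd]; norm_num
      · rw [h4 hd, smul_zero, smul_zero]

lemma mem_GF_ext (h : c.Gd e) {k : ℕ} (hk : k ≤ 16) {x : Ext c} :
    x ∈ GF (mkE c e 0) k ↔ p1 c x ∈ GF e k := by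
  constructor
  · intro hx
    have h1 : GF (mkE c e 0) k ≤ (GF e k).comap (p1 c) := by
      refine iSup₂_le fun d hd y hy => ?_
      have hd' := Finset.mem_Ico.1 hd
      exact eig_le_GF hd'.1 hd'.2 ((mem_eig_ext h).1 hy).1
    exact h1 hx
  · intro hx
    let j : W →ₗ[ℚ] Ext c := LinearMap.inl ℚ W V
    have h1 : GF e k ≤ (GF (mkE c e 0) k).comap j := by
      refine iSup₂_le fun d hd y hy => ?_
      have hd' := Finset.mem_Ico.1 hd
      exact eig_le_GF hd'.1 hd'.2 ((mem_eig_ext h).2 ⟨hy, fun _ => rfl⟩)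
    have h2 : mkE c 0 (p2 c x) ∈ GF (mkE c e 0) k :=
      eig_le_GF hk (by norm_num) ((mem_eig_ext h).2 ⟨zero_mem _, fun hd => absurd rfl hd⟩)
    have h3 : x = j (p1 c x) + mkE c 0 (p2 c x) := by
      apply Ext_ext c
      · rw [map_add, p1_mk, add_zero]; rfl
      · rw [map_add, p2_mk]
        exact (zero_add _).symm
    rw [h3]
    exact add_mem (h1 hx) h2

lemma GF_ext_top (h : c.Gd e) : GF (mkE c e 0) 0 = ⊤ := by
  rw [eq_top_iff]
  intro x _
  rw [mem_GF_ext h (by norm_num), h.top]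
  trivial

lemma ep_GF {a : W} (ha : a ∈ GF e 1) : c.ep a = 0 := by
  have h1 : GF e 1 ≤ LinearMap.ker c.ep := by
    refine iSup₂_le fun d hd y hy => ?_
    have hd' := (Finset.mem_Ico.1 hd).1
    have h2 : ⁅e, y⁆ = (d : ℚ) • y := hy
    have h3 := c.ep_lie e y
    rw [h2, map_smul, smul_eq_zero] at h3
    exact h3.resolve_left (by exact_mod_cast (by omega : d ≠ 0))
  exact h1 ha

/-- The inner automorphisms given by the kernel. -/
noncomputable def tau (c : Cyc W V) (v : V) : Module.End ℚ (Ext c) :=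
  1 + LieAlgebra.ad ℚ (Ext c) (mkE c 0 v)

lemma p1_tau (v : V) (x : Ext c) : p1 c (tau c v x) = p1 c x := by
  change p1 c (x + ⁅mkE c 0 v, x⁆) = _
  rw [map_add, p1_lie, p1_mk, zero_lie, add_zero]

lemma p2_tau (v : V) (x : Ext c) : p2 c (tau c v x) = p2 c x - (16 * c.ep (p1 c x)) • v := by
  change p2 c (x + ⁅mkE c 0 v, x⁆) = _
  rw [map_add, p2_lie, p1_mk, p2_mk, map_zero, map_zero, LinearMap.zero_apply, mul_zero, zero_smul,
    zero_add, zero_sub, sub_eq_add_neg]

lemma tau_add (v w : V) : tau c (v + w) = tau c v * tau c w := by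
  refine LinearMap.ext fun x => Ext_ext c ?_ ?_
  · rw [Module.End.mul_apply, p1_tau, p1_tau, p1_tau]
  · rw [Module.End.mul_apply, p2_tau, p2_tau, p2_tau, p1_tau]
    module

lemma tau_zero : tau c 0 = 1 := by
  refine LinearMap.ext fun x => Ext_ext c ?_ ?_
  · rw [p1_tau, Module.End.one_apply]
  · rw [p2_tau, Module.End.one_apply, smul_zero, sub_zero]

lemma tau_isL (v : V) : IsL (tau c v) := by
  intro x y
  apply Ext_ext c
  · rw [p1_tau, p1_lie, p1_lie, p1_tau, p1_tau]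
  · rw [p2_tau, p1_lie, c.ep_lie, p2_lie, p2_lie, p1_tau, p1_tau, p2_tau, p2_tau]
    module

lemma tau_raise (h : c.Gd e) (v : V) : tau c v - 1 ∈ Raise (mkE c e 0) 1 := by
  rw [tau, add_sub_cancel_left]
  exact Raise_ad (GF_ext_top h) ((mem_GF_ext h (by norm_num)).2 (zero_mem _))

/-- A unipotent automorphism covering the identity. -/
lemma eq_tau (h : c.Gd e) {φ : Module.End ℚ (Ext c)} (hφ : IsL φ)
    (h1 : φ - 1 ∈ Raise (mkE c e 0) 1) (h2 : ∀ x, p1 c (φ x) = p1 c x) : ∃ v, φ = tau c v := by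
  set w : V := (1 / 16 : ℚ) • p2 c (φ (mkE c e 0)) with hw
  have h3 : tau c w * φ - 1 ∈ Raise (mkE c e 0) 1 := by
    have h4 : tau c w * φ - 1 = (tau c w - 1) * (φ - 1) + (tau c w - 1) + (φ - 1) := by
      noncomm_ring
    rw [h4]
    exact add_mem (add_mem (Raise_mono (by norm_num) (Raise_mul (tau_raise h w) h1))
      (tau_raise h w)) h1
  have h5 : (tau c w * φ) (mkE c e 0) = mkE c e 0 := by
    apply Ext_ext c
    · rw [Module.End.mul_apply, p1_tau, h2]
    · rw [Module.End.mul_apply, p2_tau, h2, p1_mk, p2_mk, h.ep_e, hw]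
      module
  have h6 := rigid (GF_ext_top h) ((tau_isL w).mul hφ) h3 h5
  refine ⟨-w, ?_⟩
  calc φ = tau c (-w + w) * φ := by rw [neg_add_cancel, tau_zero, one_mul]
    _ = tau c (-w) := by rw [tau_add, mul_assoc, h6, mul_one]

/-- The value of a commutator of two derivations raising the filtration. -/
theorem ext_val (h : c.Gd e) {D D' : Module.End ℚ (Ext c)} (hD : IsD D) (hD' : IsD D')
    (r : D ∈ Raise (mkE c e 0) 1) (r' : D' ∈ Raise (mkE c e 0) 1) {x y : W} (hx : x ∈ GF e 1)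
    (hy : y ∈ GF e 1) (ex : p1 c (D (mkE c e 0)) = ⁅x, e⁆) (ey : p1 c (D' (mkE c e 0)) = ⁅y, e⁆) :
    p2 c (⁅D, D'⁆ (mkE c e 0)) = (-16 : ℚ) • c.ch x y := by
  obtain ⟨X, hX, rfl⟩ := inner_der (GF_ext_top h) hD r
  obtain ⟨Y, hY, rfl⟩ := inner_der (GF_ext_top h) hD' r'
  have key : ∀ {Z : Ext c} {z : W}, Z ∈ GF (mkE c e 0) 1 → z ∈ GF e 1 →
      p1 c (LieAlgebra.ad ℚ (Ext c) Z (mkE c e 0)) = ⁅z, e⁆ → p1 c Z = z := by
    intro Z z hZ hz hh
    rw [LieAlgebra.ad_apply, p1_lie, p1_mk] at hh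
    have h1 : p1 c Z - z ∈ eig e 0 := by
      change ⁅e, p1 c Z - z⁆ = ((0 : ℕ) : ℚ) • (p1 c Z - z)
      rw [Nat.cast_zero, zero_smul, ← lie_skew, sub_lie, hh, sub_self, neg_zero]
    exact sub_eq_zero.1 (eig_inf_GF zero_lt_one h1
      (sub_mem ((mem_GF_ext h (by norm_num)).1 hZ) hz))
  have e1 := key hX hx ex
  have e2 := key hY hy ey
  have e3 : ∀ b, c.ch b e = 0 := by
    intro b
    have h1 := c.ch_self (b + e)
    simpa only [map_add, LinearMap.add_apply, c.ch_self, h.ch_e, zero_add, add_zero] using h1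
  rw [← LieHom.map_lie, LieAlgebra.ad_apply, p2_lie, p1_mk, p2_mk, e3, h.ep_e, p2_lie, e1, e2,
    ep_GF hx, ep_GF hy]
  module

end Pool.Agent.Lib.MP_f9c34c_al.G
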