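import Mathlib

/-! Logarithms of locally unipotent operators. -/

namespace Pool.Agent.Lib.MP_f9c34c_al.G

open IsNilpotent Finset

attribute [local instance 100] LieRing.ofAssociativeRing

section Log
variable {M M' M'' : Type*} [AddCommGroup M] [Module ℚ M] [AddCommGroup M'] [Module ℚ M']
  [AddCommGroup M''] [Module ℚ M'']

/-- `R` is unipotent at `x`. -/
def UA (R : Module.End ℚ M) (x : M) : Prop := ∃ k : ℕ, ((R - 1) ^ k) x = 0

/-- The logarithm series at a point. -/
noncomputable def lgp (R : Module.End ℚ M) (x : M) : M :=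
  ∑ᶠ k : ℕ, ((-1 : ℚ) ^ k / (k + 1)) • ((R - 1) ^ (k + 1)) x

lemma log_pow_zero {N : Module.End ℚ M} {x : M} {K L : ℕ} (h : (N ^ K) x = 0) (hKL : K ≤ L) :
    (N ^ L) x = 0 := by
  obtain ⟨d, rfl⟩ := Nat.exists_eq_add_of_le' hKL
  rw [pow_add, Module.End.mul_apply, h, map_zero]

lemma log_pow_mem {N : Module.End ℚ M} {S : Submodule ℚ M} (hS : ∀ y ∈ S, N y ∈ S) (k : ℕ)
    {x : M} (hx : x ∈ S) : (N ^ k) x ∈ S := by
  induction k with
  | zero => simpa using hx
  | succ k ih =>
    rw [pow_succ', Module.End.mul_apply]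
    exact hS _ ih

lemma log_sub_mem {R : Module.End ℚ M} {S : Submodule ℚ M} (hS : ∀ y ∈ S, R y ∈ S) :
    ∀ y ∈ S, (R - 1) y ∈ S := fun y hy => by
  rw [LinearMap.sub_apply, Module.End.one_apply]
  exact S.sub_mem (hS y hy) hy

lemma log_pow_map {N : Module.End ℚ M} {N' : Module.End ℚ M'} (φ : M →ₗ[ℚ] M')
    (e : ∀ x, φ (N x) = N' (φ x)) (k : ℕ) (x : M) : φ ((N ^ k) x) = (N' ^ k) (φ x) := by
  induction k with
  | zero => simp
  | succ k ih => rw [pow_succ', pow_succ', Module.End.mul_apply, Module.End.mul_apply, e, ih]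

lemma log_sub_map {R : Module.End ℚ M} {R' : Module.End ℚ M'} (φ : M →ₗ[ℚ] M')
    (e : ∀ x, φ (R x) = R' (φ x)) (k : ℕ) (x : M) :
    φ (((R - 1) ^ k) x) = ((R' - 1) ^ k) (φ x) :=
  log_pow_map φ (fun y => by
    rw [LinearMap.sub_apply, LinearMap.sub_apply, Module.End.one_apply, Module.End.one_apply,
      map_sub, e]) k x

lemma lgp_eq {R : Module.End ℚ M} {x : M} {K : ℕ} (h : ((R - 1) ^ K) x = 0) :
    lgp R x = ∑ k ∈ range K, ((-1 : ℚ) ^ k / (k + 1)) • ((R - 1) ^ (k + 1)) x := by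
  unfold lgp
  refine finsum_eq_sum_of_support_subset _ fun k hk => ?_
  rw [Function.mem_support] at hk
  rw [mem_coe, mem_range]
  by_contra hK
  exact hk (by rw [log_pow_zero h (by omega), smul_zero])

lemma UA.add {R : Module.End ℚ M} {x y : M} (hx : UA R x) (hy : UA R y) : UA R (x + y) := by
  obtain ⟨k, hk⟩ := hx
  obtain ⟨l, hl⟩ := hy
  exact ⟨k + l, by rw [map_add, log_pow_zero hk (by omega), log_pow_zero hl (by omega), add_zero]⟩

lemma UA.smul {R : Module.End ℚ M} {x : M} (c : ℚ) (hx : UA R x) : UA R (c • x) := by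
  obtain ⟨k, hk⟩ := hx
  exact ⟨k, by rw [map_smul, hk, smul_zero]⟩

lemma UA.map {R : Module.End ℚ M} {R' : Module.End ℚ M'} (φ : M →ₗ[ℚ] M')
    (e : ∀ x, φ (R x) = R' (φ x)) {x : M} (hx : UA R x) : UA R' (φ x) := by
  obtain ⟨k, hk⟩ := hx
  exact ⟨k, by rw [← log_sub_map φ e, hk, map_zero]⟩

lemma UA.of_inj {R : Module.End ℚ M} {R' : Module.End ℚ M'} (φ : M →ₗ[ℚ] M')
    (hφ : Function.Injective φ) (e : ∀ x, φ (R x) = R' (φ x)) {x : M} (hx : UA R' (φ x)) :
    UA R x := by
  obtain ⟨k, hk⟩ := hx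
  exact ⟨k, hφ (by rw [log_sub_map φ e, hk, map_zero])⟩

lemma log_bil_zero {R : Module.End ℚ M} {R' : Module.End ℚ M'} {R'' : Module.End ℚ M''}
    (β : M →ₗ[ℚ] M' →ₗ[ℚ] M'') (e : ∀ x y, R'' (β x y) = β (R x) (R' y)) (n : ℕ) :
    ∀ (i j : ℕ) (x : M) (y : M'), i + j = n → ((R - 1) ^ i) x = 0 → ((R' - 1) ^ j) y = 0 →
      ((R'' - 1) ^ n) (β x y) = 0 := by
  induction n with
  | zero =>
    intro i j x y hij hx _
    obtain rfl : i = 0 := by omega
    have : x = 0 := by simpa using hx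
    simp [this]
  | succ n ih =>
    intro i j x y hij hx hy
    rcases i with _ | i
    · have : x = 0 := by simpa using hx
      simp [this]
    rcases j with _ | j
    · have : y = 0 := by simpa using hy
      simp [this]
    have h1 : (R'' - 1) (β x y) =
        β ((R - 1) x) ((R' - 1) y) + β ((R - 1) x) y + β x ((R' - 1) y) := by
      simp only [LinearMap.sub_apply, Module.End.one_apply, map_sub, e]
      abel
    have hx' : ((R - 1) ^ i) ((R - 1) x) = 0 := by
      rw [← Module.End.mul_apply, ← _root_.pow_succ, hx]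
    have hy' : ((R' - 1) ^ j) ((R' - 1) y) = 0 := by
      rw [← Module.End.mul_apply, ← _root_.pow_succ, hy]
    rw [_root_.pow_succ, Module.End.mul_apply, h1, map_add, map_add,
      ih i (j + 1) _ _ (by omega) hx' (log_pow_zero hy' (Nat.le_succ j)),
      ih i (j + 1) _ _ (by omega) hx' hy, ih (i + 1) j _ _ (by omega) hx hy', add_zero, add_zero]

lemma UA.bil {R : Module.End ℚ M} {R' : Module.End ℚ M'} {R'' : Module.End ℚ M''}
    (β : M →ₗ[ℚ] M' →ₗ[ℚ] M'') (e : ∀ x y, R'' (β x y) = β (R x) (R' y)) {x : M} {y : M'}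
    (hx : UA R x) (hy : UA R' y) : UA R'' (β x y) := by
  obtain ⟨k, hk⟩ := hx
  obtain ⟨l, hl⟩ := hy
  exact ⟨k + l, log_bil_zero β e _ k l x y rfl hk hl⟩

lemma lgp_add {R : Module.End ℚ M} {x y : M} (hx : UA R x) (hy : UA R y) :
    lgp R (x + y) = lgp R x + lgp R y := by
  obtain ⟨k, hk⟩ := hx
  obtain ⟨l, hl⟩ := hy
  have h1 : ((R - 1) ^ (k + l)) x = 0 := log_pow_zero hk (by omega)
  have h2 : ((R - 1) ^ (k + l)) y = 0 := log_pow_zero hl (by omega)
  have h3 : ((R - 1) ^ (k + l)) (x + y) = 0 := by rw [map_add, h1, h2, add_zero]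
  rw [lgp_eq h1, lgp_eq h2, lgp_eq h3, ← sum_add_distrib]
  exact sum_congr rfl fun i _ => by rw [map_add, smul_add]

lemma lgp_smul {R : Module.End ℚ M} {x : M} (c : ℚ) (hx : UA R x) :
    lgp R (c • x) = c • lgp R x := by
  obtain ⟨k, hk⟩ := hx
  have h3 : ((R - 1) ^ k) (c • x) = 0 := by rw [map_smul, hk, smul_zero]
  rw [lgp_eq hk, lgp_eq h3, smul_sum]
  exact sum_congr rfl fun i _ => by rw [map_smul, smul_comm]

lemma lgp_map {R : Module.End ℚ M} {R' : Module.End ℚ M'} (φ : M →ₗ[ℚ] M')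
    (e : ∀ x, φ (R x) = R' (φ x)) {x : M} (hx : UA R x) : φ (lgp R x) = lgp R' (φ x) := by
  obtain ⟨k, hk⟩ := hx
  have h3 : ((R' - 1) ^ k) (φ x) = 0 := by rw [← log_sub_map φ e, hk, map_zero]
  rw [lgp_eq hk, lgp_eq h3, map_sum]
  exact sum_congr rfl fun i _ => by rw [map_smul, log_sub_map φ e]

lemma lgp_fix {R : Module.End ℚ M} {x : M} (h : R x = x) : lgp R x = 0 := by
  have h1 : ((R - 1) ^ (1 : ℕ)) x = 0 := by
    rw [pow_one, LinearMap.sub_apply, Module.End.one_apply, h, sub_self]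
  rw [lgp_eq h1]
  exact sum_eq_zero fun i _ => by rw [log_pow_zero h1 (by omega), smul_zero]

/-- If `R - 1` maps `x` into an invariant subspace, so does the logarithm. -/
lemma lgp_mem {R : Module.End ℚ M} {S : Submodule ℚ M} (hS : ∀ y ∈ S, R y ∈ S) {x : M}
    (hx : UA R x) (h : R x - x ∈ S) : lgp R x ∈ S := by
  obtain ⟨k, hk⟩ := hx
  rw [lgp_eq hk]
  refine S.sum_mem fun i _ => S.smul_mem _ ?_
  rw [_root_.pow_succ, Module.End.mul_apply]
  exact log_pow_mem (log_sub_mem hS) i h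

lemma lgp_congr {R R' : Module.End ℚ M} {S L : Submodule ℚ M} (hS : ∀ y ∈ S, R y ∈ S)
    (hL : ∀ y ∈ L, R' y ∈ L) (e : ∀ y ∈ L, R y - R' y ∈ S) {x : M} (hxL : x ∈ L)
    (hx : UA R x) (hx' : UA R' x) : lgp R x - lgp R' x ∈ S := by
  obtain ⟨k, hk⟩ := hx
  obtain ⟨l, hl⟩ := hx'
  have key : ∀ i : ℕ, ((R - 1) ^ i) x - ((R' - 1) ^ i) x ∈ S := by
    intro i
    induction i with
    | zero => simp
    | succ i ih =>
      have h1 := log_pow_mem (log_sub_mem hL) i hxL
      have h2 : ((R - 1) ^ (i + 1)) x - ((R' - 1) ^ (i + 1)) x =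
          (R - 1) (((R - 1) ^ i) x - ((R' - 1) ^ i) x) +
            (R (((R' - 1) ^ i) x) - R' (((R' - 1) ^ i) x)) := by
        rw [pow_succ', pow_succ', Module.End.mul_apply, Module.End.mul_apply, map_sub]
        simp only [LinearMap.sub_apply, Module.End.one_apply]
        abel
      rw [h2]
      exact S.add_mem (log_sub_mem hS _ ih) (e _ h1)
  rw [lgp_eq (log_pow_zero hk (Nat.le_add_right k l)),
    lgp_eq (log_pow_zero hl (Nat.le_add_left l k)), ← sum_sub_distrib]
  refine S.sum_mem fun i _ => ?_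
  rw [← smul_sub]
  exact S.smul_mem _ (key _)

/-- The binomial coefficient as a polynomial. -/
noncomputable def logBin (j : ℕ) : Polynomial ℚ :=
  Polynomial.C ((j.factorial : ℚ)⁻¹) * descPochhammer ℚ j

lemma logBin_eval (j k : ℕ) : (logBin j).eval (k : ℚ) = (k.choose j : ℚ) := by
  rw [logBin, Polynomial.eval_mul, Polynomial.eval_C, Nat.cast_choose_eq_descPochhammer_div,
    div_eq_inv_mul]

lemma log_desc_neg_one (j : ℕ) :
    (descPochhammer ℚ j).eval (-1) = (-1) ^ j * (j.factorial : ℚ) := by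
  induction j with
  | zero => simp
  | succ j ih =>
    rw [descPochhammer_succ_eval, ih, Nat.factorial_succ]
    push_cast
    ring

lemma logBin_coeff_one (j : ℕ) : (logBin (j + 1)).coeff 1 = (-1 : ℚ) ^ j / (j + 1) := by
  rw [logBin, Polynomial.coeff_C_mul, descPochhammer_succ_left, Polynomial.coeff_X_mul,
    Polynomial.coeff_zero_eq_eval_zero, Polynomial.eval_comp, Polynomial.eval_sub,
    Polynomial.eval_X, Polynomial.eval_one, zero_sub, log_desc_neg_one, Nat.factorial_succ]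
  have h : (j.factorial : ℚ) ≠ 0 := by exact_mod_cast j.factorial_ne_zero
  push_cast
  field_simp

lemma logBin_zero : logBin 0 = 1 := by simp [logBin]

lemma log_pow_expand {R : Module.End ℚ M} {x : M} {K : ℕ} (h : ((R - 1) ^ K) x = 0) (k : ℕ) :
    (R ^ k) x = ∑ j ∈ range K, (logBin j).eval (k : ℚ) • ((R - 1) ^ j) x := by
  have h1 : R ^ k = ∑ m ∈ range (k + 1), (R - 1) ^ m * 1 ^ (k - m) * (k.choose m : _) := by
    rw [← (Commute.one_right (R - 1)).add_pow, sub_add_cancel]
  have h2 : (R ^ k) x = ∑ j ∈ range (k + 1), (k.choose j : ℚ) • ((R - 1) ^ j) x := by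
    rw [h1, LinearMap.sum_apply]
    refine sum_congr rfl fun j _ => ?_
    rw [one_pow, mul_one, Module.End.mul_apply, Module.End.natCast_apply, map_nsmul,
      Nat.cast_smul_eq_nsmul]
  have h3 : ∑ j ∈ range (k + 1), (k.choose j : ℚ) • ((R - 1) ^ j) x =
      ∑ j ∈ range (k + 1 + K), (k.choose j : ℚ) • ((R - 1) ^ j) x := by
    refine sum_subset (range_mono (by omega)) fun j _ hj => ?_
    rw [mem_range] at hj
    rw [Nat.choose_eq_zero_of_lt (by omega), Nat.cast_zero, zero_smul]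
  have h4 : ∑ j ∈ range K, (k.choose j : ℚ) • ((R - 1) ^ j) x =
      ∑ j ∈ range (k + 1 + K), (k.choose j : ℚ) • ((R - 1) ^ j) x := by
    refine sum_subset (range_mono (by omega)) fun j _ hj => ?_
    rw [mem_range] at hj
    rw [log_pow_zero h (by omega), smul_zero]
  rw [h2, h3, ← h4]
  exact sum_congr rfl fun j _ => by rw [logBin_eval]

lemma log_lgp_coeff {R : Module.End ℚ M} {x : M} {K : ℕ} (h : ((R - 1) ^ K) x = 0) :
    lgp R x = ∑ j ∈ range (K + 1), (logBin j).coeff 1 • ((R - 1) ^ j) x := by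
  rw [lgp_eq h, sum_range_succ', logBin_zero, Polynomial.coeff_one, if_neg one_ne_zero, zero_smul,
    add_zero]
  exact sum_congr rfl fun j _ => by rw [logBin_coeff_one]

/-- Comparison of coefficients of two polynomial functions with values in a vector space. -/
lemma log_coeff_eq {ι κ : Type*} (s : Finset ι) (t : Finset κ) (p : ι → Polynomial ℚ)
    (q : κ → Polynomial ℚ) (v : ι → M) (w : κ → M)
    (h : ∀ k : ℕ, ∑ i ∈ s, (p i).eval (k : ℚ) • v i = ∑ j ∈ t, (q j).eval (k : ℚ) • w j)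
    (n : ℕ) : ∑ i ∈ s, (p i).coeff n • v i = ∑ j ∈ t, (q j).coeff n • w j := by
  rw [← sub_eq_zero, ← Module.forall_dual_apply_eq_zero_iff ℚ]
  intro l
  have h1 : ∑ i ∈ s, p i * Polynomial.C (l (v i)) = ∑ j ∈ t, q j * Polynomial.C (l (w j)) := by
    refine Polynomial.eq_of_infinite_eval_eq _ _ ?_
    refine Set.Infinite.mono ?_ (Set.infinite_range_of_injective (Nat.cast_injective (R := ℚ)))
    rintro _ ⟨k, rfl⟩
    have h2 := congrArg l (h k)
    simp only [map_sum, map_smul, smul_eq_mul] at h2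
    simp only [Set.mem_ofPred_eq, Polynomial.eval_finsetSum, Polynomial.eval_mul,
      Polynomial.eval_C]
    exact h2
  have h3 := congrArg (fun r => Polynomial.coeff r n) h1
  simp only [Polynomial.finsetSum_coeff, Polynomial.coeff_mul_C] at h3
  simp only [map_sub, map_sum, map_smul, smul_eq_mul]
  rw [h3, sub_self]

/-- The logarithm is the linear coefficient of the polynomial function `k ↦ R ^ k x`. -/
lemma log_char {ι : Type*} {R : Module.End ℚ M} {x : M} (hx : UA R x) (s : Finset ι)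
    (p : ι → Polynomial ℚ) (v : ι → M)
    (h : ∀ k : ℕ, (R ^ k) x = ∑ i ∈ s, (p i).eval (k : ℚ) • v i) :
    lgp R x = ∑ i ∈ s, (p i).coeff 1 • v i := by
  obtain ⟨K, hK⟩ := hx
  rw [log_lgp_coeff hK]
  refine log_coeff_eq _ _ _ _ _ _ (fun k => ?_) 1
  rw [← h k, ← log_pow_expand (log_pow_zero hK (Nat.le_succ K))]

lemma lgp_bil {R : Module.End ℚ M} {R' : Module.End ℚ M'} {R'' : Module.End ℚ M''}
    (β : M →ₗ[ℚ] M' →ₗ[ℚ] M'') (e : ∀ x y, R'' (β x y) = β (R x) (R' y)) {x : M} {y : M'}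
    (hx : UA R x) (hy : UA R' y) : lgp R'' (β x y) = β (lgp R x) y + β x (lgp R' y) := by
  have hu := UA.bil β e hx hy
  obtain ⟨K, hK⟩ := hx
  obtain ⟨L, hL⟩ := hy
  have hK1 := log_pow_zero hK (Nat.le_succ K)
  have hL1 := log_pow_zero hL (Nat.le_succ L)
  have hpow : ∀ k : ℕ, (R'' ^ k) (β x y) = β ((R ^ k) x) ((R' ^ k) y) := by
    intro k
    induction k with
    | zero => simp
    | succ k ih =>
      rw [pow_succ', pow_succ', pow_succ', Module.End.mul_apply, Module.End.mul_apply,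
        Module.End.mul_apply, ih, e]
  have hexp : ∀ (a b : ℕ → ℚ), β (∑ i ∈ range (K + 1), a i • ((R - 1) ^ i) x)
      (∑ j ∈ range (L + 1), b j • ((R' - 1) ^ j) y) =
      ∑ z ∈ range (K + 1) ×ˢ range (L + 1),
        (a z.1 * b z.2) • β (((R - 1) ^ z.1) x) (((R' - 1) ^ z.2) y) := by
    intro a b
    rw [sum_product, map_sum β, LinearMap.sum_apply]
    refine sum_congr rfl fun i _ => ?_
    rw [map_sum]
    refine sum_congr rfl fun j _ => ?_
    rw [map_smul, map_smul, LinearMap.smul_apply, smul_smul, mul_comm]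
  have hx0 : x = ∑ i ∈ range (K + 1), (logBin i).coeff 0 • ((R - 1) ^ i) x := by
    have := log_pow_expand hK1 0
    simpa [Polynomial.coeff_zero_eq_eval_zero] using this
  have hy0 : y = ∑ j ∈ range (L + 1), (logBin j).coeff 0 • ((R' - 1) ^ j) y := by
    have := log_pow_expand hL1 0
    simpa [Polynomial.coeff_zero_eq_eval_zero] using this
  have h1 : β (lgp R x) y = ∑ z ∈ range (K + 1) ×ˢ range (L + 1),
      ((logBin z.1).coeff 1 * (logBin z.2).coeff 0) •
        β (((R - 1) ^ z.1) x) (((R' - 1) ^ z.2) y) := by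
    rw [← hexp (fun i => (logBin i).coeff 1) (fun j => (logBin j).coeff 0), ← hy0,
      ← log_lgp_coeff hK]
  have h2 : β x (lgp R' y) = ∑ z ∈ range (K + 1) ×ˢ range (L + 1),
      ((logBin z.1).coeff 0 * (logBin z.2).coeff 1) •
        β (((R - 1) ^ z.1) x) (((R' - 1) ^ z.2) y) := by
    rw [← hexp (fun i => (logBin i).coeff 0) (fun j => (logBin j).coeff 1), ← hx0,
      ← log_lgp_coeff hL]
  rw [h1, h2, ← sum_add_distrib, log_char hu (range (K + 1) ×ˢ range (L + 1))
    (fun z => logBin z.1 * logBin z.2) (fun z => β (((R - 1) ^ z.1) x) (((R' - 1) ^ z.2) y))]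
  · refine sum_congr rfl fun z _ => ?_
    rw [← add_smul, Polynomial.mul_coeff_one, add_comm]
  · intro k
    rw [hpow, log_pow_expand hK1, log_pow_expand hL1, hexp]
    exact sum_congr rfl fun z _ => by rw [Polynomial.eval_mul]

lemma UA_exp {a : Module.End ℚ M} (ha : IsNilpotent a) (x : M) : UA (exp a) x := by
  obtain ⟨k, hk⟩ := isNilpotent_exp_sub_one ha
  exact ⟨k, by rw [hk, LinearMap.zero_apply]⟩

lemma log_exp_pow {a : Module.End ℚ M} (ha : IsNilpotent a) (k : ℕ) :
    exp a ^ k = exp ((k : ℚ) • a) := by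
  induction k with
  | zero => simp [IsNilpotent.exp_zero]
  | succ k ih =>
    rw [_root_.pow_succ, ih, Nat.cast_succ, add_smul, one_smul,
      exp_add_of_commute ((Commute.refl a).smul_left _) (ha.smul _) ha]

lemma log_exp_apply {a : Module.End ℚ M} {n : ℕ} (h : a ^ n = 0) (x : M) :
    exp a x = ∑ i ∈ range n, (i.factorial : ℚ)⁻¹ • (a ^ i) x := by
  rw [exp_eq_sum h, LinearMap.sum_apply]
  exact sum_congr rfl fun i _ => LinearMap.smul_apply _ _ _

lemma lgp_exp {a : Module.End ℚ M} (ha : IsNilpotent a) (x : M) : lgp (exp a) x = a x := by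
  have hu := UA_exp ha x
  obtain ⟨n, hn⟩ := id ha
  have hn2 : a ^ (n + 2) = 0 := pow_eq_zero_of_le (by omega) hn
  rw [log_char hu (range (n + 2))
    (fun i => Polynomial.C ((i.factorial : ℚ)⁻¹) * Polynomial.X ^ i) (fun i => (a ^ i) x)]
  · rw [sum_eq_single 1]
    · simp
    · intro i _ hi
      rw [Polynomial.coeff_C_mul, Polynomial.coeff_X_pow, if_neg (Ne.symm hi), mul_zero,
        zero_smul]
    · intro h
      exact absurd (mem_range.2 (by omega)) h
  · intro k
    have h1 : ((k : ℚ) • a) ^ (n + 2) = 0 := by rw [smul_pow, hn2, smul_zero]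
    rw [log_exp_pow ha, log_exp_apply h1]
    refine sum_congr rfl fun i _ => ?_
    rw [smul_pow, LinearMap.smul_apply, smul_smul, Polynomial.eval_mul, Polynomial.eval_C,
      Polynomial.eval_pow, Polynomial.eval_X]

lemma exp_mem {a : Module.End ℚ M} (ha : IsNilpotent a) {S : Submodule ℚ M}
    (hS : ∀ y ∈ S, a y ∈ S) {x : M} (hx : x ∈ S) : exp a x ∈ S := by
  obtain ⟨n, hn⟩ := ha
  rw [log_exp_apply hn]
  exact S.sum_mem fun i _ => S.smul_mem _ (log_pow_mem hS i hx)

lemma exp_sub_mem {a : Module.End ℚ M} (ha : IsNilpotent a) {S : Submodule ℚ M}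
    (hS : ∀ y ∈ S, a y ∈ S) {x : M} (hx : a x ∈ S) : exp a x - x ∈ S := by
  obtain ⟨n, hn⟩ := ha
  have hn1 : a ^ (n + 1) = 0 := pow_eq_zero_of_le (by omega) hn
  rw [log_exp_apply hn1, sum_range_succ']
  simp only [Nat.factorial_zero, Nat.cast_one, inv_one, pow_zero, Module.End.one_apply, one_smul,
    add_sub_cancel_right]
  refine S.sum_mem fun i _ => S.smul_mem _ ?_
  rw [_root_.pow_succ, Module.End.mul_apply]
  exact log_pow_mem hS i hx

/-- The first two terms of the exponential. -/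
lemma exp_sub_sub_mem {a : Module.End ℚ M} (ha : IsNilpotent a) {S : Submodule ℚ M}
    (hS : ∀ y ∈ S, a y ∈ S) {x : M} (hx : a (a x) ∈ S) : exp a x - x - a x ∈ S := by
  obtain ⟨n, hn⟩ := ha
  have hn1 : a ^ (n + 1 + 1) = 0 := pow_eq_zero_of_le (by omega) hn
  rw [log_exp_apply hn1, sum_range_succ', sum_range_succ']
  simp only [Nat.factorial_zero, Nat.cast_one, inv_one, pow_zero, Module.End.one_apply, one_smul,
    add_sub_cancel_right, zero_add, Nat.factorial_one, pow_one]
  refine S.sum_mem fun i _ => S.smul_mem _ ?_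
  rw [_root_.pow_succ, _root_.pow_succ, Module.End.mul_apply, Module.End.mul_apply]
  exact log_pow_mem hS i hx

lemma mem_of_exp {a : Module.End ℚ M} (ha : IsNilpotent a) {S : Submodule ℚ M}
    (hS : ∀ y ∈ S, exp a y ∈ S) {x : M} (hx : x ∈ S) : a x ∈ S := by
  rw [← lgp_exp ha x]
  exact lgp_mem hS (UA_exp ha x) (S.sub_mem (hS x hx) hx)

lemma exp_fix {a : Module.End ℚ M} (ha : IsNilpotent a) {x : M} : exp a x = x ↔ a x = 0 := by
  constructor
  · intro h
    rw [← lgp_exp ha x]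
    exact lgp_fix h
  · intro h
    have h1 : exp a x - x ∈ (⊥ : Submodule ℚ M) :=
      exp_sub_mem ha (fun y hy => by
        rw [Submodule.mem_bot] at hy ⊢
        rw [hy, map_zero]) (by rw [h]; exact Submodule.zero_mem _)
    rwa [Submodule.mem_bot, sub_eq_zero] at h1

lemma exp_nat {a : Module.End ℚ M} {a' : Module.End ℚ M'} (ha : IsNilpotent a)
    (ha' : IsNilpotent a') (φ : M →ₗ[ℚ] M') (e : ∀ x, φ (a x) = a' (φ x)) (x : M) :
    φ (exp a x) = exp a' (φ x) :=
  (LinearMap.congr_fun (Module.End.commute_exp_left_of_commute (g := φ) ha ha'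
    (LinearMap.ext fun y => (e y).symm)) x).symm

lemma exp_bil {a : Module.End ℚ M} (ha : IsNilpotent a) (β : M →ₗ[ℚ] M →ₗ[ℚ] M)
    (e : ∀ x y, a (β x y) = β (a x) y + β x (a y)) (x y : M) :
    exp a (β x y) = β (exp a x) (exp a y) := by
  let DL : Module.End ℚ (TensorProduct ℚ M M) := a.lTensor M
  let DR : Module.End ℚ (TensorProduct ℚ M M) := a.rTensor M
  have hL : IsNilpotent DL := ha.map (Module.End.lTensorAlgHom ℚ M M)
  have hR : IsNilpotent DR := ha.map (Module.End.rTensorAlgHom ℚ M M)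
  have hc : Commute DL DR := by ext; simp [DL, DR]
  have h1 : TensorProduct.lift β (exp (DL + DR) (TensorProduct.tmul ℚ x y)) =
      exp a (TensorProduct.lift β (TensorProduct.tmul ℚ x y)) := by
    refine exp_nat (hc.isNilpotent_add hL hR) ha (TensorProduct.lift β) (fun z => ?_) _
    induction z using TensorProduct.induction_on with
    | zero => simp
    | tmul u v => simp [DL, DR, e, add_comm]
    | add u v hu hv => simp only [map_add, hu, hv]
  have h2 : exp DL = (exp a).lTensor M := (ha.map_exp (Module.End.lTensorAlgHom ℚ M M)).symm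
  have h3 : exp DR = (exp a).rTensor M := (ha.map_exp (Module.End.rTensorAlgHom ℚ M M)).symm
  rw [exp_add_of_commute hc hL hR, h2, h3] at h1
  simpa using h1.symm

end Log

end Pool.Agent.Lib.MP_f9c34c_al.G
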