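import Pool.Agent.Lib.MP_f9c34c_al.G.Defs
import Pool.Agent.Lib.MP_f9c34c_al.G.Log

/-! Matrix coefficients of representations. -/

namespace Pool.Agent.Lib.MP_f9c34c_al.G

variable {Γ : Type} [Group Γ] {A : Subalgebra ℚ (Γ → ℚ)}
  {E : Type} [AddCommGroup E] [Module ℚ E]

/-- Right translation of functions. -/
def Rt : Γ →* Module.End ℚ (Γ → ℚ) where
  toFun γ := LinearMap.funLeft ℚ ℚ (· * γ)
  map_one' := by ext f x; simp
  map_mul' a b := by ext f x; simp [mul_assoc]

@[simp] lemma Rt_apply (γ : Γ) (f : Γ → ℚ) (x : Γ) : Rt γ f x = f (x * γ) := rfl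

/-- A matrix coefficient. -/
def co (σ : Γ →* Module.End ℚ E) (l : E →ₗ[ℚ] ℚ) (v : E) : Γ → ℚ := fun g => l (σ g v)

/-- An invariant filtration of length `n` whose graded pieces have coefficients in `A`. -/
structure Ch (A : Subalgebra ℚ (Γ → ℚ)) (σ : Γ →* Module.End ℚ E) (n : ℕ)
    (F : ℕ → Submodule ℚ E) : Prop where
  top : F 0 = ⊤
  bot : F n = ⊥
  anti : ∀ k, F (k + 1) ≤ F k
  inv : ∀ k g, ∀ v ∈ F k, σ g v ∈ F k
  gr : ∀ k, ∀ v ∈ F k, ∀ l : E →ₗ[ℚ] ℚ, (∀ y ∈ F (k + 1), l y = 0) → co σ l v ∈ A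

lemma fr_gen {n : ℕ} {σ : Γ →* Matrix (Fin n) (Fin n) ℚ} (h : RelUni A σ) (i j : Fin n) :
    (fun g => σ g i j) ∈ OG A :=
  Algebra.subset_adjoin ⟨n, σ, h, i, j, rfl⟩

lemma fr_sets (n : ℕ) : ∀ F : ℕ → Submodule ℚ E, F n = ⊥ → (∀ k, F (k + 1) ≤ F k) →
    ∃ S : ℕ → Set E, (∀ k, S (k + 1) ⊆ S k) ∧ (∀ k, Submodule.span ℚ (S k) = F k) ∧
      LinearIndepOn ℚ id (S 0) := by
  induction n with
  | zero =>
    intro F h0 ha
    refine ⟨fun _ => ∅, fun _ => subset_rfl, fun k => ?_, linearIndepOn_empty _ _⟩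
    rw [Submodule.span_empty]
    exact (le_bot_iff.1 (h0 ▸ antitone_nat_of_succ_le ha (Nat.zero_le k))).symm
  | succ n ih =>
    intro F h0 ha
    obtain ⟨S, h1, h2, h3⟩ := ih (fun k => F (k + 1)) h0 fun k => ha (k + 1)
    have h4 : S 0 ⊆ (F 0 : Set E) := fun x hx => ha 0 (h2 0 ▸ Submodule.subset_span hx)
    obtain ⟨b, hb1, hb2, hb3, hb4⟩ := exists_linearIndepOn_id_extension h3 h4
    refine ⟨fun k => Nat.casesOn k b S, fun k => ?_, fun k => ?_, hb4⟩
    · cases k with
      | zero => exact hb2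
      | succ k => exact h1 k
    · cases k with
      | zero => exact le_antisymm (Submodule.span_le.2 hb1) hb3
      | succ k => exact h2 k

lemma fr_basis [FiniteDimensional ℚ E] {n : ℕ} {F : ℕ → Submodule ℚ E} (ht : F 0 = ⊤)
    (hb : F n = ⊥) (ha : ∀ k, F (k + 1) ≤ F k) :
    ∃ (N : ℕ) (B : Module.Basis (Fin N) ℚ E) (lev : Fin N → ℕ), (∀ i, lev i ≤ n) ∧
      (∀ i, B i ∈ F (lev i)) ∧ ∀ i k, lev i < k → ∀ y ∈ F k, B.coord i y = 0 := by
  classical
  obtain ⟨S, h1, h2, h3⟩ := fr_sets n F hb ha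
  have hanti : Antitone S := antitone_nat_of_succ_le h1
  let B0 : Module.Basis (S 0) ℚ E := Module.Basis.mk (v := fun x : S 0 => (x : E)) h3 (by
    rw [Subtype.range_coe, h2, ht])
  have hB0 : ∀ x : S 0, B0 x = x := fun x => Module.Basis.mk_apply _ _ x
  have : Finite (S 0) := Module.Finite.finite_basis B0
  have : Fintype (S 0) := Fintype.ofFinite _
  let e := Fintype.equivFin (S 0)
  have hB : ∀ i, (B0.reindex e) i = (e.symm i : E) := fun i => by
    rw [Module.Basis.reindex_apply, hB0]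
  refine ⟨_, B0.reindex e, fun i => Nat.findGreatest (fun k => (e.symm i : E) ∈ S k) n,
    fun i => Nat.findGreatest_le n, fun i => ?_, fun i k hk y hy => ?_⟩
  · rw [hB, ← h2]
    exact Submodule.subset_span
      (Nat.findGreatest_spec (P := fun k => (e.symm i : E) ∈ S k) (Nat.zero_le n) (e.symm i).2)
  · rcases le_or_gt k n with hkn | hkn
    · have hi : (e.symm i : E) ∉ S k := Nat.findGreatest_is_greatest hk hkn
      rw [← h2] at hy
      refine (Submodule.span_le (p := LinearMap.ker ((B0.reindex e).coord i))).2 ?_ hy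
      intro x hx
      have hx0 : x ∈ S 0 := hanti (Nat.zero_le k) hx
      have hxe : x = (B0.reindex e) (e ⟨x, hx0⟩) := by rw [hB, e.symm_apply_apply]
      have hne : e ⟨x, hx0⟩ ≠ i := by
        rintro rfl
        rw [e.symm_apply_apply] at hi
        exact hi hx
      change (B0.reindex e).coord i x = 0
      rw [hxe, Module.Basis.coord_apply, Module.Basis.repr_self, Finsupp.single_eq_of_ne hne.symm]
    · have : y ∈ F n := antitone_nat_of_succ_le ha hkn.le hy
      rw [hb, Submodule.mem_bot] at this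
      rw [this, map_zero]

/-- The coefficients of a representation with such a filtration lie in `OG A`. -/
theorem Ch.bridge [FiniteDimensional ℚ E] {σ : Γ →* Module.End ℚ E} {n : ℕ}
    {F : ℕ → Submodule ℚ E} (h : Ch A σ n F) (l : E →ₗ[ℚ] ℚ) (v : E) : co σ l v ∈ OG A := by
  obtain ⟨N, B, lev, h1, h2, h3⟩ := fr_basis h.top h.bot h.anti
  let τ : Γ →* Matrix (Fin N) (Fin N) ℚ :=
    ((LinearMap.toMatrixAlgEquiv B).toAlgHom.toRingHom.toMonoidHom).comp σ
  have hτ : ∀ g i j, τ g i j = B.coord i (σ g (B j)) := fun g i j =>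
    LinearMap.toMatrixAlgEquiv_apply B (σ g) i j
  have hrel : RelUni A τ := by
    refine ⟨fun i => n - lev i, fun g i j hij => ?_, fun i j hij => ?_⟩
    · rw [hτ]
      refine h3 i (lev j) ?_ _ (h.inv _ g _ (h2 j))
      have : n - lev j < n - lev i := hij
      omega
    · have e : lev i = lev j := by
        have := h1 i
        have := h1 j
        have : n - lev i = n - lev j := hij
        omega
      have := h.gr (lev j) (B j) (h2 j) (B.coord i) (h3 i _ (by omega))
      rwa [show co σ (B.coord i) (B j) = fun g => τ g i j from funext fun g => (hτ g i j).symm]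
        at this
  have key : co σ l v = ∑ j, ∑ i, (B.repr v j * l (B i)) • fun g => τ g i j := by
    funext g
    simp only [co, Finset.sum_apply, Pi.smul_apply, smul_eq_mul, hτ]
    conv_lhs => rw [← B.sum_repr v]
    rw [map_sum, map_sum]
    refine Finset.sum_congr rfl fun j _ => ?_
    rw [map_smul, map_smul]
    conv_lhs => rw [← B.sum_repr (σ g (B j))]
    rw [map_sum, smul_eq_mul, Finset.mul_sum]
    refine Finset.sum_congr rfl fun i _ => ?_
    rw [map_smul, smul_eq_mul, Module.Basis.coord_apply]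
    ring
  rw [key]
  exact Subalgebra.sum_mem _ fun j _ => Subalgebra.sum_mem _ fun i _ =>
    Subalgebra.smul_mem _ (fr_gen hrel i j) _

lemma fr_mul (γ : Γ) (f f' : Γ → ℚ) : Rt γ (f * f') = Rt γ f * Rt γ f' := rfl

lemma OG_right (γ : Γ) {f : Γ → ℚ} (hf : f ∈ OG A) : Rt γ f ∈ OG A := by
  induction hf using Algebra.adjoin_induction with
  | mem f hf =>
    obtain ⟨n, σ, h, i, j, rfl⟩ := hf
    have : Rt γ (fun g => σ g i j) = ∑ k, σ γ k j • fun g => σ g i k := by
      funext g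
      simp only [Rt_apply, map_mul, Matrix.mul_apply, Finset.sum_apply, Pi.smul_apply,
        smul_eq_mul]
      exact Finset.sum_congr rfl fun k _ => mul_comm _ _
    rw [this]
    exact Subalgebra.sum_mem _ fun k _ => Subalgebra.smul_mem _ (fr_gen h i k) _
  | algebraMap c => exact Subalgebra.algebraMap_mem (OG A) c
  | add f f' _ _ h h' => rw [map_add]; exact add_mem h h'
  | mul f f' _ _ h h' => rw [fr_mul]; exact mul_mem h h'

lemma OG_comp {Γ' : Type} [Group Γ'] (π : Γ' →* Γ) {A' : Subalgebra ℚ (Γ' → ℚ)}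
    (h : ∀ f ∈ A, f ∘ π ∈ A') {f : Γ → ℚ} (hf : f ∈ OG A) : f ∘ π ∈ OG A' := by
  induction hf using Algebra.adjoin_induction with
  | mem f hf =>
    obtain ⟨n, σ, ⟨b, h1, h2⟩, i, j, rfl⟩ := hf
    exact fr_gen (σ := σ.comp π) ⟨b, fun g => h1 (π g), fun i j e => h _ (h2 i j e)⟩ i j
  | algebraMap c => exact Subalgebra.algebraMap_mem (OG A') c
  | add f f' _ _ h h' => exact add_mem h h'
  | mul f f' _ _ h h' => exact mul_mem h h'

lemma fr_pow {n : ℕ} (σ : Γ →* Matrix (Fin n) (Fin n) ℚ) (γ : Γ) (i : Fin n) (k : ℕ) :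
    ∀ (M : Matrix (Fin n) (Fin n) ℚ) (j : Fin n),
      ((Rt γ - 1) ^ k) (fun g => (σ g * M) i j) = fun g => (σ g * ((σ γ - 1) ^ k * M)) i j := by
  induction k with
  | zero => intro M j; simp
  | succ k ih =>
    intro M j
    have e : (Rt γ - 1 : Module.End ℚ (Γ → ℚ)) (fun g => (σ g * M) i j) =
        fun g => (σ g * ((σ γ - 1) * M)) i j := by
      funext g
      simp only [LinearMap.sub_apply, Module.End.one_apply, Pi.sub_apply, Rt_apply, map_mul,
        sub_mul, one_mul, mul_sub, mul_assoc, Matrix.sub_apply]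
    rw [pow_succ, Module.End.mul_apply, e, ih, pow_succ, mul_assoc]

lemma fr_strict {n : ℕ} {b : Fin n → ℕ} {N : Matrix (Fin n) (Fin n) ℚ}
    (h : ∀ i j, b j ≤ b i → N i j = 0) (m : ℕ) : ∀ i j, b j < b i + m → (N ^ m) i j = 0 := by
  induction m with
  | zero =>
    intro i j hij
    rw [pow_zero, Matrix.one_apply_ne]
    rintro rfl
    omega
  | succ m ih =>
    intro i j hij
    rw [pow_succ, Matrix.mul_apply]
    refine Finset.sum_eq_zero fun k _ => ?_
    rcases lt_or_ge (b k) (b i + m) with hk | hk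
    · rw [ih i k hk, zero_mul]
    · rw [h k j (by omega), mul_zero]

lemma fr_tri_pow {n : ℕ} {b : Fin n → ℕ} {N : Matrix (Fin n) (Fin n) ℚ}
    (h : N.BlockTriangular b) (m : ℕ) : (N ^ m).BlockTriangular b := by
  induction m with
  | zero => rw [pow_zero]; exact Matrix.blockTriangular_one
  | succ m ih => rw [pow_succ]; exact ih.mul h

/-- Right translation by an element acting unipotently on `A` is unipotent on `OG A`. -/
lemma OG_UA {γ : Γ} (h : ∀ f ∈ A, UA (Rt γ) f) {f : Γ → ℚ} (hf : f ∈ OG A) : UA (Rt γ) f := by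
  induction hf using Algebra.adjoin_induction with
  | mem f hf =>
    obtain ⟨n, σ, ⟨b, h1, h2⟩, i, j, rfl⟩ := hf
    have hp : ∀ (i j : Fin n) (k : ℕ), ((Rt γ - 1) ^ k) (fun g => σ g i j) =
        fun g => (σ g * (σ γ - 1) ^ k) i j := fun i j k => by
      simpa only [mul_one] using fr_pow σ γ i k 1 j
    have hk : ∀ p : Fin n × Fin n, ∃ k : ℕ, b p.1 = b p.2 → ∀ k' ≥ k,
        ((σ γ - 1) ^ k') p.1 p.2 = 0 := by
      rintro ⟨i, j⟩
      by_cases e : b i = b j
      · obtain ⟨k, hk⟩ := h _ (h2 i j e)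
        refine ⟨k, fun _ k' hk' => ?_⟩
        obtain ⟨d, rfl⟩ := Nat.exists_eq_add_of_le' hk'
        have h3 : ((Rt γ - 1) ^ (d + k)) (fun g => σ g i j) = 0 := by
          rw [pow_add, Module.End.mul_apply, hk, map_zero]
        have h4 := congrFun ((hp i j (d + k)).symm.trans h3) 1
        simpa only [map_one, one_mul, Pi.zero_apply] using h4
      · exact ⟨0, fun e' => absurd e' e⟩
    choose k hk using hk
    have hs : ∀ i j, b j ≤ b i → ((σ γ - 1) ^ (Finset.univ.sup k)) i j = 0 := by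
      intro i j hij
      rcases hij.lt_or_eq with hij | hij
      · exact fr_tri_pow ((h1 γ).sub Matrix.blockTriangular_one) _ hij
      · exact hk (i, j) hij.symm _ (Finset.le_sup (Finset.mem_univ _))
    have hz : (σ γ - 1) ^ (Finset.univ.sup k * (Finset.univ.sup b + 1)) = 0 := by
      rw [pow_mul]
      ext i j
      refine fr_strict hs _ i j ?_
      have : b j ≤ Finset.univ.sup b := Finset.le_sup (Finset.mem_univ _)
      omega
    refine ⟨Finset.univ.sup k * (Finset.univ.sup b + 1), ?_⟩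
    rw [hp, hz]
    funext g
    simp
  | algebraMap c =>
    refine ⟨1, ?_⟩
    funext g
    simp
  | add f f' _ _ h h' => exact h.add h'
  | mul f f' _ _ h h' => exact UA.bil (LinearMap.mul ℚ (Γ → ℚ)) (fr_mul γ) h h'

/-- The logarithm of a right translation. -/
theorem exists_lg {γ : Γ} (h : ∀ f ∈ A, UA (Rt γ) f) :
    ∃ D : LG A, ∀ f : OG A, (D.1 f).1 = lgp (Rt γ) f.1 := by
  have hm : ∀ f : OG A, lgp (Rt γ) f.1 ∈ OG A := fun f =>
    lgp_mem (S := Subalgebra.toSubmodule (OG A)) (fun y hy => OG_right γ hy) (OG_UA h f.2)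
      (sub_mem (OG_right γ f.2) f.2)
  let L : OG A →ₗ[ℚ] OG A :=
    { toFun := fun f => ⟨lgp (Rt γ) f.1, hm f⟩
      map_add' := fun f f' => Subtype.ext (lgp_add (OG_UA h f.2) (OG_UA h f'.2))
      map_smul' := fun c f => Subtype.ext (lgp_smul c (OG_UA h f.2)) }
  have hL : ∀ f, (L f).1 = lgp (Rt γ) f.1 := fun _ => rfl
  let D : Derivation ℚ (OG A) (OG A) := Derivation.mk' L fun f f' => Subtype.ext (by
    have := lgp_bil (LinearMap.mul ℚ (Γ → ℚ)) (fr_mul γ) (OG_UA h f.2) (OG_UA h f'.2)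
    change lgp (Rt γ) (f.1 * f'.1) = f.1 * lgp (Rt γ) f'.1 + f'.1 * lgp (Rt γ) f.1
    rw [add_comm, mul_comm f'.1]
    exact this)
  refine ⟨⟨D, fun g f f' e x => ?_⟩, fun f => rfl⟩
  have e' : f'.1 = LinearMap.funLeft ℚ ℚ (g * ·) f.1 := funext e
  have := lgp_map (R := Rt γ) (R' := Rt γ) (LinearMap.funLeft ℚ ℚ (g * ·))
    (fun y => funext fun x => congrArg y (mul_assoc g x γ)) (OG_UA h f.2)
  change lgp (Rt γ) f'.1 x = lgp (Rt γ) f.1 (g * x)
  rw [e', ← this]
  rfl

end Pool.Agent.Lib.MP_f9c34c_al.G
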