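import Pool.Agent.Lib.MP_f9c34c_al.G.Sub
import Pool.Agent.Lib.MP_f9c34c_al.G.Frame

/-! Polynomial functions in the entries of the symplectic representation. -/

namespace Pool.Agent.Lib.MP_f9c34c_al.G

open Matrix

/-- Polynomials in the entries. -/
def Opoly : Subalgebra ℚ (F5 → ℚ) := Algebra.adjoin ℚ {φ | ∃ x y, φ = fun w => fh w x y}

lemma entry_Opoly (x y : X) : (fun w => fh w x y) ∈ Opoly := Algebra.subset_adjoin ⟨x, y, rfl⟩

lemma pol_comp {τ : F5 → F5} (h : ∀ x y, (fun w => fh (τ w) x y) ∈ Opoly) {φ : F5 → ℚ}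
    (hφ : φ ∈ Opoly) : (fun w => φ (τ w)) ∈ Opoly := by
  induction hφ using Algebra.adjoin_induction with
  | mem f hf =>
    obtain ⟨x, y, rfl⟩ := hf
    exact h x y
  | algebraMap c => exact Subalgebra.algebraMap_mem Opoly c
  | add f g _ _ h1 h2 => exact add_mem h1 h2
  | mul f g _ _ h1 h2 => exact mul_mem h1 h2

lemma pol_const (c : ℚ) : (fun _ : F5 => c) ∈ Opoly := Subalgebra.algebraMap_mem Opoly c

lemma pol_sum {ι : Type*} (s : Finset ι) {φ : ι → F5 → ℚ} (h : ∀ i, φ i ∈ Opoly) :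
    (fun w => ∑ i ∈ s, φ i w) ∈ Opoly := by
  have : (fun w => ∑ i ∈ s, φ i w) = ∑ i ∈ s, φ i := by
    funext w
    rw [Finset.sum_apply]
  rw [this]
  exact Subalgebra.sum_mem _ fun i _ => h i

lemma pol_mul {φ ψ : F5 → ℚ} (h : φ ∈ Opoly) (h' : ψ ∈ Opoly) : (fun w => φ w * ψ w) ∈ Opoly :=
  mul_mem h h'

lemma pol_add {φ ψ : F5 → ℚ} (h : φ ∈ Opoly) (h' : ψ ∈ Opoly) : (fun w => φ w + ψ w) ∈ Opoly :=
  add_mem h h'

lemma pol_lin (l : Matrix X X ℚ →ₗ[ℚ] ℚ) : (fun w => l (fh w)) ∈ Opoly := by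
  have : (fun w => l (fh w)) = fun w => ∑ x, ∑ y, fh w x y * l (single x y 1) := by
    funext w
    conv_lhs => rw [matrix_eq_sum_single (fh w)]
    rw [map_sum]
    refine Finset.sum_congr rfl fun x _ => ?_
    rw [map_sum]
    refine Finset.sum_congr rfl fun y _ => ?_
    rw [← smul_eq_mul, ← map_smul, smul_single, smul_eq_mul, mul_one]
  rw [this]
  exact pol_sum _ fun x => pol_sum _ fun y => pol_mul (entry_Opoly x y) (pol_const _)

lemma inv_Opoly {φ : F5 → ℚ} (h : φ ∈ Opoly) : (fun w => φ w⁻¹) ∈ Opoly := by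
  refine pol_comp (fun x y => ?_) h
  simp only [fh_inv]
  exact pol_lin
    { toFun := fun m => (-(JM * mᵀ * JM)) x y
      map_add' := fun m m' => by
        rw [transpose_add, mul_add, add_mul, neg_add, Matrix.add_apply]
      map_smul' := fun c m => by
        rw [transpose_smul, mul_smul_comm, smul_mul_assoc, ← smul_neg, Matrix.smul_apply]
        rfl }

lemma tr_Opoly {φ : F5 → ℚ} (h : φ ∈ Opoly) (u u' : F5) : (fun w => φ (u * w * u')) ∈ Opoly := by
  refine pol_comp (fun x y => ?_) h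
  simp only [map_mul]
  exact pol_lin
    { toFun := fun m => (fh u * m * fh u') x y
      map_add' := fun m m' => by rw [mul_add, add_mul, Matrix.add_apply]
      map_smul' := fun c m => by
        rw [mul_smul_comm, smul_mul_assoc, Matrix.smul_apply]
        rfl }

lemma Opoly_congr {φ : F5 → ℚ} (h : φ ∈ Opoly) {w w' : F5} (e : fh w = fh w') : φ w = φ w' := by
  induction h using Algebra.adjoin_induction with
  | mem f hf =>
    obtain ⟨x, y, rfl⟩ := hf
    exact congrFun (congrFun e x) y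
  | algebraMap c => rfl
  | add f g _ _ h1 h2 => rw [Pi.add_apply, Pi.add_apply, h1, h2]
  | mul f g _ _ h1 h2 => rw [Pi.mul_apply, Pi.mul_apply, h1, h2]

lemma Opoly_UA (i : Fin 5) {φ : F5 → ℚ} (h : φ ∈ Opoly) : UA (Rt (FreeGroup.of i)) φ := by
  induction h using Algebra.adjoin_induction with
  | mem f hf =>
    obtain ⟨x, y, rfl⟩ := hf
    refine ⟨2, ?_⟩
    funext w
    have e : fh w * (1 + fm i) * (1 + fm i) - fh w * (1 + fm i) - (fh w * (1 + fm i) - fh w) =
        0 := by
      have : fh w * (1 + fm i) * (1 + fm i) - fh w * (1 + fm i) - (fh w * (1 + fm i) - fh w) =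
        fh w * (fm i * fm i) := by noncomm_ring
      rw [this, fm_sq, mul_zero]
    have e' := congrFun (congrFun e x) y
    simpa only [pow_two, Module.End.mul_apply, LinearMap.sub_apply, Module.End.one_apply,
      map_sub, Pi.sub_apply, Rt_apply, map_mul, fh_of, Matrix.sub_apply, Matrix.zero_apply,
      Pi.zero_apply] using e'
  | algebraMap c =>
    refine ⟨1, ?_⟩
    funext g
    simp
  | add f f' _ _ h h' => exact h.add h'
  | mul f f' _ _ h h' => exact UA.bil (LinearMap.mul ℚ (F5 → ℚ)) (fr_mul _) h h'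

lemma Opoly_tw {φ : F5 → ℚ} (h : φ ∈ Opoly) : Rt tw φ = φ :=
  funext fun w => Opoly_congr h (by rw [map_mul, fh_tw, mul_one])

lemma pol_wd : ∀ (u : List X) (l : T4 →ₗ[ℚ] ℚ), (fun w => l (sub (fh w) (wd u))) ∈ Opoly
  | [], l => by
    simp only [wd_nil, map_one]
    exact pol_const _
  | a :: u, l => by
    have : (fun w => l (sub (fh w) (wd (a :: u)))) = fun w => ∑ b, fh w b a *
        (l ∘ₗ LinearMap.mulLeft ℚ (gx b)) (sub (fh w) (wd u)) := by
      funext w
      rw [wd_cons, map_mul, sub_gx, Finset.sum_mul, map_sum]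
      refine Finset.sum_congr rfl fun b _ => ?_
      rw [smul_mul_assoc, map_smul, smul_eq_mul]
      rfl
    rw [this]
    exact pol_sum _ fun b => pol_mul (entry_Opoly b a) (pol_wd u _)

lemma pol_sub (l : T4 →ₗ[ℚ] ℚ) (s : T4) : (fun w => l (sub (fh w) s)) ∈ Opoly :=
  T_mem (S := Subalgebra.toSubmodule Opoly)
    (f := LinearMap.pi fun w => l ∘ₗ (sub (fh w)).toLinearMap) (fun u => pol_wd u l) s

lemma fT_Opoly (l : T17 →ₗ[ℚ] ℚ) (s : T17) : (fun w => l ((fT w).1 s)) ∈ Opoly := by
  obtain ⟨s, rfl⟩ := mkT_surj s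
  simp only [fT_mk]
  exact pol_sub (l ∘ₗ (mkT 17).toLinearMap) s

section Fam
variable {V : Type} [AddCommGroup V] [Module ℚ V]

/-- Families of operators with polynomial coefficients. -/
def PFam (a : F5 → Module.End ℚ V) : Prop :=
  ∀ (l : V →ₗ[ℚ] ℚ) (s : V), (fun w => l (a w s)) ∈ Opoly

lemma PFam.const (D : Module.End ℚ V) : PFam fun _ => D := fun _ _ => pol_const _

lemma PFam.mul [FiniteDimensional ℚ V] {a a' : F5 → Module.End ℚ V} (h : PFam a) (h' : PFam a') :
    PFam fun w => a w * a' w := by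
  intro l s
  let B := Module.finBasis ℚ V
  have : (fun w => l ((a w * a' w) s)) = fun w => ∑ k, B.coord k (a' w s) * l (a w (B k)) := by
    funext w
    rw [Module.End.mul_apply]
    conv_lhs => rw [← B.sum_repr (a' w s)]
    rw [map_sum, map_sum]
    refine Finset.sum_congr rfl fun k _ => ?_
    rw [map_smul, map_smul, smul_eq_mul, Module.Basis.coord_apply]
  rw [this]
  exact pol_sum _ fun k => pol_mul (h' _ _) (h _ _)

lemma PFam.lin [FiniteDimensional ℚ V] {a : F5 → Module.End ℚ V} (h : PFam a)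
    (l : Module.End ℚ V →ₗ[ℚ] ℚ) : (fun w => l (a w)) ∈ Opoly := by
  let B := Module.finBasis ℚ V
  have e : ∀ D : Module.End ℚ V,
      D = ∑ j, ∑ i, B.coord i (D (B j)) • (B.coord j).smulRight (B i) := fun D => by
    refine B.ext fun k => ?_
    rw [LinearMap.sum_apply, Finset.sum_eq_single k]
    · rw [LinearMap.sum_apply]
      conv_lhs => rw [← B.sum_repr (D (B k))]
      refine Finset.sum_congr rfl fun i _ => ?_
      simp
    · intro j _ hj
      rw [LinearMap.sum_apply]
      refine Finset.sum_eq_zero fun i _ => ?_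
      simp [hj]
    · simp
  have : (fun w => l (a w)) = fun w => ∑ j, ∑ i, B.coord i (a w (B j)) *
      l ((B.coord j).smulRight (B i)) := by
    funext w
    conv_lhs => rw [e (a w)]
    rw [map_sum]
    refine Finset.sum_congr rfl fun j _ => ?_
    rw [map_sum]
    refine Finset.sum_congr rfl fun i _ => ?_
    rw [map_smul, smul_eq_mul]
  rw [this]
  exact pol_sum _ fun j => pol_sum _ fun i => pol_mul (h _ _) (pol_const _)

end Fam

lemma Ad_fT_Opoly (l : E17 →ₗ[ℚ] ℚ) (D : E17) : (fun w => l ((Ad (fT w)).1 D)) ∈ Opoly := by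
  have h1 : PFam fun w => (fT w).1 := fT_Opoly
  have h2 : PFam fun w => ((fT w)⁻¹ : E17ˣ).1 := fun l s => by
    simp only [← map_inv]
    exact inv_Opoly (fT_Opoly l s)
  simp only [Ad_apply]
  exact ((h1.mul (PFam.const D)).mul h2).lin l

/-- Functionals on a finite dimensional space of polynomial functions. -/
lemma Rt_Opoly {V : Submodule ℚ (F5 → ℚ)} [FiniteDimensional ℚ V] (h : ∀ φ ∈ V, φ ∈ Opoly)
    (ρ : F5 →* Module.End ℚ V) (hρ : ∀ w v, (ρ w v).1 = Rt w v.1) (l : V →ₗ[ℚ] ℚ) (v : V) :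
    (fun w => l (ρ w v)) ∈ Opoly := by
  have hs : Submodule.span ℚ {f : V →ₗ[ℚ] ℚ | ∃ x, f = LinearMap.proj x ∘ₗ V.subtype} = ⊤ := by
    refine Submodule.span_eq_top_of_ne_zero fun z hz => ?_
    by_contra hc
    refine hz (Subtype.ext (funext fun x => ?_))
    by_contra hx
    exact hc ⟨_, ⟨x, rfl⟩, hx⟩
  have hl : l ∈ Submodule.span ℚ {f : V →ₗ[ℚ] ℚ | ∃ x, f = LinearMap.proj x ∘ₗ V.subtype} :=
    hs ▸ Submodule.mem_top
  induction hl using Submodule.span_induction with
  | mem f hf =>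
    obtain ⟨x, rfl⟩ := hf
    have : (fun w => (LinearMap.proj x ∘ₗ V.subtype : V →ₗ[ℚ] ℚ) (ρ w v)) =
        fun w => v.1 (x * w * 1) := by
      funext w
      change (ρ w v).1 x = _
      rw [hρ, Rt_apply, mul_one]
    rw [this]
    exact tr_Opoly (h _ v.2) x 1
  | zero => exact pol_const 0
  | add f g _ _ h1 h2 => exact pol_add h1 h2
  | smul c f _ h1 => exact pol_mul (pol_const c) h1

/-- The projection to the mapping class group. -/
abbrev pr5 : F5 →* MCG := PresentedGroup.mk rels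

lemma act_pr5 (w : F5) : act (pr5 w) = QuotientGroup.mk (alP w) :=
  DFunLike.congr_fun (FreeGroup.ext_hom (act.comp pr5) ((QuotientGroup.mk' _).comp alP)
    fun i => by
      rw [MonoidHom.comp_apply, act]
      exact PresentedGroup.toGroup.of _) w

lemma aug_gen (g : Pi2) : MonoidAlgebra.single g (1 : ℚ) - 1 ∈ aug := Submodule.subset_span ⟨g, rfl⟩

lemma aug_mul (g h : Pi2) : (MonoidAlgebra.single g (1 : ℚ) - 1) * (MonoidAlgebra.single h 1 - 1) =
    MonoidAlgebra.single (g * h) 1 - MonoidAlgebra.single g 1 - MonoidAlgebra.single h 1 + 1 := by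
  rw [_root_.sub_mul, mul_sub, mul_sub, MonoidAlgebra.single_mul_single, mul_one, mul_one,
    one_mul, one_mul]
  abel

lemma coef_pol {F : MulAut Pi2 → ℚ} (hF : F ∈ coef 1) : (fun w => F (alP w)) ∈ Opoly := by
  induction hF using Algebra.adjoin_induction with
  | mem F hF =>
    obtain ⟨g, l, hl, rfl⟩ := hF
    obtain ⟨z, rfl⟩ := PresentedGroup.mk_surjective _ g
    have hm : ∀ g h : Pi2, l (MonoidAlgebra.single (g * h) 1) - l 1 =
        l (MonoidAlgebra.single g 1) - l 1 + (l (MonoidAlgebra.single h 1) - l 1) := by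
      intro g h
      have := hl _ (by
        rw [show 1 + 1 = 2 from rfl, pow_two]
        exact Submodule.mul_mem_mul (aug_gen g) (aug_gen h))
      rw [aug_mul, map_add, map_sub, map_sub] at this
      linarith
    let lam : Pi2 →* Multiplicative ℚ := MonoidHom.mk'
      (fun g => Multiplicative.ofAdd (l (MonoidAlgebra.single g 1) - l 1))
      fun g h => by rw [hm, ofAdd_add]
    let L : (X → ℚ) →ₗ[ℚ] ℚ := ∑ x, (lam (PresentedGroup.mk {zeta} (FreeGroup.of x))).toAdd •
      LinearMap.proj x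
    have hL : ∀ y : FreeGroup X, (lam (PresentedGroup.mk {zeta} y)).toAdd = L (ab y).toAdd := by
      intro y
      have := DFunLike.congr_fun (FreeGroup.ext_hom (lam.comp (PresentedGroup.mk {zeta}))
        ((AddMonoidHom.toMultiplicative L.toAddMonoidHom).comp ab) fun x => by
          apply Multiplicative.toAdd.injective
          simp [L, ab, Pi.single_apply]) y
      exact congrArg Multiplicative.toAdd this
    have : (fun w => l (MonoidAlgebra.single (alP w (PresentedGroup.mk {zeta} z)) 1)) =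
        fun w => l 1 + L (fh w *ᵥ (ab z).toAdd) := by
      funext w
      rw [alP_mk, ← ab_al, ← hL]
      change _ = l 1 + (l _ - l 1)
      ring
    rw [this]
    exact pol_add (pol_const _) (pol_lin
      { toFun := fun m => L (m *ᵥ (ab z).toAdd)
        map_add' := fun m m' => by rw [add_mulVec, map_add]
        map_smul' := fun c m => by rw [smul_mulVec, map_smul]; rfl })
  | algebraMap c => exact pol_const c
  | add f g _ _ h1 h2 => exact pol_add h1 h2
  | mul f g _ _ h1 h2 => exact pol_mul h1 h2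

/-- The abelianization of the surface group. -/
def abP : Pi2 →* Multiplicative (X → ℚ) :=
  PresentedGroup.toGroup (f := fun x => Multiplicative.ofAdd (Pi.single x 1)) (by
    rintro _ rfl
    simp only [zeta, map_mul, map_inv, mul_inv_cancel_comm, mul_inv_cancel, mul_one])

lemma abP_mk (y : FreeGroup X) : abP (PresentedGroup.mk {zeta} y) = ab y :=
  DFunLike.congr_fun (FreeGroup.ext_hom (abP.comp (PresentedGroup.mk {zeta})) ab
    fun x => by
      rw [MonoidHom.comp_apply, abP, ab, FreeGroup.lift_apply_of]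
      exact PresentedGroup.toGroup.of _) y

lemma pol_coef {φ : F5 → ℚ} (h : φ ∈ Opoly) :
    ∃ F ∈ coef 1, ∀ w α, QuotientGroup.mk α = act (pr5 w) → φ w = F α := by
  induction h using Algebra.adjoin_induction with
  | mem f hf =>
    obtain ⟨x, y, rfl⟩ := hf
    let l : MonoidAlgebra ℚ Pi2 →ₗ[ℚ] ℚ :=
      (MonoidAlgebra.basis Pi2 ℚ).constr ℚ fun g => (abP g).toAdd x
    have hl : ∀ g, l (MonoidAlgebra.single g 1) = (abP g).toAdd x := fun g =>
      (MonoidAlgebra.basis Pi2 ℚ).constr_basis ℚ _ g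
    have hl1 : l 1 = 0 := by
      rw [MonoidAlgebra.one_def, hl, map_one]
      rfl
    refine ⟨fun α => l (MonoidAlgebra.single (α (PresentedGroup.mk {zeta} (FreeGroup.of y))) 1),
      Algebra.subset_adjoin ⟨_, l, ?_, rfl⟩, fun w α e => ?_⟩
    · rw [show 1 + 1 = 2 from rfl, pow_two, aug, Submodule.span_mul_span]
      refine (Submodule.span_le (p := LinearMap.ker l)).2 ?_
      rintro _ ⟨_, ⟨g, rfl⟩, _, ⟨h, rfl⟩, rfl⟩
      change l (_ * _) = 0
      rw [aug_mul, map_add, map_sub, map_sub, hl, hl, hl, hl1, map_mul, toAdd_mul, Pi.add_apply]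
      ring
    · rw [act_pr5, QuotientGroup.eq] at e
      obtain ⟨c, hc⟩ := e
      have e1 : alP w = α * MulAut.conj c := by rw [hc, mul_inv_cancel_left]
      have e2 : abP (alP w (PresentedGroup.mk {zeta} (FreeGroup.of y))) =
          abP (α (PresentedGroup.mk {zeta} (FreeGroup.of y))) := by
        rw [e1, MulAut.mul_apply, MulAut.conj_apply, map_mul, map_mul, map_mul, map_mul, map_inv,
          map_inv, mul_inv_cancel_comm]
      change fh w x y = l _
      rw [hl, ← e2, alP_mk, abP_mk, ab_al]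
      simp [ab]
  | algebraMap c => exact ⟨algebraMap ℚ _ c, algebraMap_mem _ c, fun _ _ _ => rfl⟩
  | add f g _ _ h1 h2 =>
    obtain ⟨F, hF, h1⟩ := h1
    obtain ⟨F', hF', h2⟩ := h2
    exact ⟨F + F', add_mem hF hF', fun w α e => by simp [h1 w α e, h2 w α e]⟩
  | mul f g _ _ h1 h2 =>
    obtain ⟨F, hF, h1⟩ := h1
    obtain ⟨F', hF', h2⟩ := h2
    exact ⟨F * F', mul_mem hF hF', fun w α e => by simp [h1 w α e, h2 w α e]⟩

theorem JF_one {f : MCG → ℚ} : f ∈ JF 1 ↔ f ∘ pr5 ∈ Opoly := by
  constructor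
  · rintro ⟨F, hF, h⟩
    have : f ∘ pr5 = fun w => F (alP w) := funext fun w => h _ _ (act_pr5 w).symm
    rw [this]
    exact coef_pol hF
  · intro h
    obtain ⟨F, hF, h⟩ := pol_coef h
    refine ⟨F, hF, fun γ α e => ?_⟩
    obtain ⟨w, rfl⟩ := PresentedGroup.mk_surjective _ γ
    exact h w α e

end Pool.Agent.Lib.MP_f9c34c_al.G
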