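import Pool.Agent.Lib.MP_f9c34c_al.G.Sig
import Pool.Agent.Lib.MP_f9c34c_al.G.Poly
import Pool.Agent.Lib.MP_f9c34c_al.G.Descent

/-! The functions of the outer action on the Malcev completion. -/

namespace Pool.Agent.Lib.MP_f9c34c_al.G

lemma john_gen (g : Pi2) : MonoidAlgebra.single g (1 : ℚ) - 1 ∈ aug :=
  Submodule.subset_span ⟨g, rfl⟩

lemma john_mul_gen (g h : Pi2) :
    MonoidAlgebra.single h (1 : ℚ) * (MonoidAlgebra.single g 1 - 1) ∈ aug ∧
      (MonoidAlgebra.single g (1 : ℚ) - 1) * MonoidAlgebra.single h 1 ∈ aug := by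
  constructor
  · have : MonoidAlgebra.single h (1 : ℚ) * (MonoidAlgebra.single g 1 - 1) =
        (MonoidAlgebra.single (h * g) 1 - 1) - (MonoidAlgebra.single h 1 - 1) := by
      rw [mul_sub, MonoidAlgebra.single_mul_single, mul_one, mul_one, sub_sub_sub_cancel_right]
    rw [this]
    exact sub_mem (john_gen _) (john_gen _)
  · have : (MonoidAlgebra.single g (1 : ℚ) - 1) * MonoidAlgebra.single h 1 =
        (MonoidAlgebra.single (g * h) 1 - 1) - (MonoidAlgebra.single h 1 - 1) := by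
      rw [_root_.sub_mul, MonoidAlgebra.single_mul_single, mul_one, one_mul, sub_sub_sub_cancel_right]
    rw [this]
    exact sub_mem (john_gen _) (john_gen _)

lemma john_aug_mul (b : MonoidAlgebra ℚ Pi2) {y : MonoidAlgebra ℚ Pi2} (hy : y ∈ aug) :
    b * y ∈ aug ∧ y * b ∈ aug := by
  induction hy using Submodule.span_induction with
  | mem y hy =>
    obtain ⟨g, rfl⟩ := hy
    induction b using MonoidAlgebra.induction_on with
    | of h => exact john_mul_gen g h
    | add a b ha hb =>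
      rw [add_mul, mul_add]
      exact ⟨add_mem ha.1 hb.1, add_mem ha.2 hb.2⟩
    | smul c a ha =>
      rw [smul_mul_assoc, mul_smul_comm]
      exact ⟨aug.smul_mem c ha.1, aug.smul_mem c ha.2⟩
  | zero => simp
  | add x y _ _ hx hy =>
    rw [add_mul, mul_add]
    exact ⟨add_mem hx.1 hy.1, add_mem hx.2 hy.2⟩
  | smul c x _ hx =>
    rw [smul_mul_assoc, mul_smul_comm]
    exact ⟨aug.smul_mem c hx.1, aug.smul_mem c hx.2⟩

lemma john_pow_left (n : ℕ) (b : MonoidAlgebra ℚ Pi2) {y : MonoidAlgebra ℚ Pi2}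
    (hy : y ∈ aug ^ (n + 1)) : b * y ∈ aug ^ (n + 1) := by
  rw [pow_succ'] at hy ⊢
  refine Submodule.mul_induction_on hy (fun s hs t ht => ?_) fun s t hs ht => ?_
  · rw [← mul_assoc]
    exact Submodule.mul_mem_mul (john_aug_mul b hs).1 ht
  · rw [mul_add]
    exact add_mem hs ht

lemma john_pow_right (n : ℕ) (b : MonoidAlgebra ℚ Pi2) {y : MonoidAlgebra ℚ Pi2}
    (hy : y ∈ aug ^ (n + 1)) : y * b ∈ aug ^ (n + 1) := by
  rw [pow_succ] at hy ⊢
  refine Submodule.mul_induction_on hy (fun s hs t ht => ?_) fun s t hs ht => ?_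
  · rw [mul_assoc]
    exact Submodule.mul_mem_mul hs (john_aug_mul b ht).2
  · rw [add_mul]
    exact add_mem hs ht

/-- A positive power of the augmentation ideal as an ideal. -/
noncomputable def johnI (n : ℕ) : Ideal (MonoidAlgebra ℚ Pi2) where
  carrier := (aug ^ (n + 1) : Submodule ℚ (MonoidAlgebra ℚ Pi2))
  add_mem' := add_mem
  zero_mem' := zero_mem _
  smul_mem' b _ h := john_pow_left n b h

instance johnI_two (n : ℕ) : (johnI n).IsTwoSided := ⟨fun b h => john_pow_right n b h⟩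

theorem exists_mu (l : MonoidAlgebra ℚ Pi2 →ₗ[ℚ] ℚ) (h : ∀ y ∈ aug ^ 18, l y = 0) :
    ∃ l' : T17 →ₗ[ℚ] ℚ, ∀ x : FreeGroup X,
      l' (th0 17 x).1 = l (MonoidAlgebra.single (PresentedGroup.mk {zeta} x) 1) := by
  let π : MonoidAlgebra ℚ Pi2 →ₐ[ℚ] MonoidAlgebra ℚ Pi2 ⧸ johnI 17 := Ideal.Quotient.mkₐ ℚ _
  have hπ : ∀ y, π y = 0 ↔ y ∈ aug ^ 18 := fun y => Ideal.Quotient.eq_zero_iff_mem
  let n : X → MonoidAlgebra ℚ Pi2 := fun a =>
    MonoidAlgebra.single (PresentedGroup.mk {zeta} (FreeGroup.of a)) 1 - 1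
  have hn : ∀ a, IsNilpotent (π (n a)) := fun a =>
    ⟨18, by rw [← map_pow, hπ]; exact Submodule.pow_mem_pow _ (john_gen _) 18⟩
  choose y hy1 hy2 hy3 using fun a => exists_log (hn a)
  have hy : ∀ a, y a ∈ aug.map π.toLinearMap := fun a => by
    refine (Submodule.span_le.2 ?_ : _ ≤ aug.map π.toLinearMap) (hy1 a)
    rintro _ ⟨k, rfl⟩
    refine ⟨n a ^ (k + 1), ?_, map_pow π _ _⟩
    rw [pow_succ]
    exact (john_aug_mul _ (john_gen _)).1
  have hw : ∀ w : List X, (w.map y).prod ∈ (aug ^ w.length).map π.toLinearMap := fun w => by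
    induction w with
    | nil =>
      refine ⟨1, ?_, map_one π⟩
      rw [List.length_nil, pow_zero]
      exact Submodule.one_le.1 le_rfl
    | cons a w ih =>
      obtain ⟨s, hs, e1⟩ := hy a
      obtain ⟨t, ht, e2⟩ := ih
      refine ⟨s * t, ?_, ?_⟩
      · rw [List.length_cons, pow_succ']
        exact Submodule.mul_mem_mul hs ht
      · rw [List.map_cons, List.prod_cons, ← e1, ← e2]
        exact map_mul π s t
  obtain ⟨φ, hφ⟩ := exists_liftT (N := 17) y fun w e => by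
    obtain ⟨s, hs, e1⟩ := hw w
    rw [← e1]
    rw [e] at hs
    exact (hπ s).2 hs
  obtain ⟨σ, hσ⟩ := π.toLinearMap.exists_rightInverse_of_surjective
    (LinearMap.range_eq_top.2 (Ideal.Quotient.mkₐ_surjective ℚ _))
  have key : (φ.toRingHom.toMonoidHom.comp (Units.coeHom _)).comp (th0 17) =
      (π.toRingHom.toMonoidHom.comp (MonoidAlgebra.of ℚ Pi2)).comp (PresentedGroup.mk {zeta}) := by
    refine FreeGroup.ext_hom _ _ fun a => ?_
    change φ (th0 17 (FreeGroup.of a)).1 =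
      π (MonoidAlgebra.single (PresentedGroup.mk {zeta} (FreeGroup.of a)) 1)
    rw [th0_of, IsNilpotent.map_exp (FT_nil (xx_mem a)) φ, hφ, hy3, ← map_one π, ← map_add]
    congr 1
    exact add_sub_cancel _ _
  refine ⟨l ∘ₗ σ ∘ₗ φ.toLinearMap, fun x => ?_⟩
  have e1 : φ (th0 17 x).1 = π (MonoidAlgebra.single (PresentedGroup.mk {zeta} x) 1) :=
    DFunLike.congr_fun key x
  change l (σ (φ (th0 17 x).1)) = _
  rw [e1, ← sub_eq_zero, ← map_sub]
  refine h _ ((hπ _).1 ?_)
  rw [map_sub, sub_eq_zero]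
  exact LinearMap.congr_fun hσ _

lemma Real.ch (R : Real) : Ch Opoly R.sg 18 (FT X 17) := by
  refine ⟨FT_zero, FT_top (by norm_num), fun k => FT_mono k.le_succ,
    fun k g v hv => R.sig_FD g k v hv, fun k v hv l hl => ?_⟩
  have e : co R.sg l v = fun w => l ((fT w).1 v) := by
    funext w
    have := hl _ (R.sig_fT w k v hv)
    rw [LinearMap.sub_apply, map_sub, sub_eq_zero] at this
    exact this
  rw [e]
  exact fT_Opoly l v

lemma john_act (w : F5) : QuotientGroup.mk (alP w) = act (pr5 w) :=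
  DFunLike.congr_fun (FreeGroup.ext_hom ((QuotientGroup.mk' _).comp alP) (act.comp pr5)
    fun i => by
      rw [MonoidHom.comp_apply, MonoidHom.comp_apply, act]
      exact (PresentedGroup.toGroup.of (rels := rels)
        (f := fun i => (QuotientGroup.mk (alP (FreeGroup.of i)) : Out Pi2)) _ (x := i)).symm) w

lemma Real.JF_co (R : Real) {f : MCG → ℚ} (hf : f ∈ JF 17) :
    f ∘ pr5 ∈ Algebra.adjoin ℚ {φ | ∃ l v, φ = co R.sg l v} := by
  obtain ⟨F, hF, h⟩ := hf
  have e : f ∘ pr5 = fun w => F (alP w) := funext fun w => h _ _ (john_act w)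
  rw [e]
  clear e h
  induction hF using Algebra.adjoin_induction with
  | mem F hF =>
    obtain ⟨g, l, hl, rfl⟩ := hF
    obtain ⟨x, rfl⟩ := PresentedGroup.mk_surjective _ g
    obtain ⟨l', hl'⟩ := exists_mu l hl
    refine Algebra.subset_adjoin ⟨l' ∘ₗ (R.u⁻¹).1, R.u.1 (th0 17 x).1, funext fun w => ?_⟩
    change l (MonoidAlgebra.single (alP w (PresentedGroup.mk {zeta} x)) 1) =
      l' ((R.u⁻¹).1 ((R.sig w).1 (R.u.1 (th0 17 x).1)))
    rw [R.sig_th, unit_inv_apply, hl', alP_mk]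
  | algebraMap c => exact Subalgebra.algebraMap_mem _ c
  | add F F' _ _ h1 h2 => exact add_mem h1 h2
  | mul F F' _ _ h1 h2 => exact mul_mem h1 h2

theorem JF_le : JF 17 ≤ OG (JF 1) := by
  intro f hf
  obtain ⟨R⟩ := exists_real
  refine OG_descent pr5 (PresentedGroup.mk_surjective _) (A' := Opoly)
    (fun _ h => JF_one.2 h) ?_
  refine (Algebra.adjoin_le ?_ : _ ≤ OG Opoly) (R.JF_co hf)
  rintro _ ⟨l, v, rfl⟩
  exact R.ch.bridge l v

end Pool.Agent.Lib.MP_f9c34c_al.G
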