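import Pool.Agent.Lib.MP_f9c34c_al.G.Th
import Pool.Agent.Lib.MP_f9c34c_al.G.Defs

/-! The action of words in the twists on the truncated algebra. -/

namespace Pool.Agent.Lib.MP_f9c34c_al.G

open Submodule Finset IsNilpotent

attribute [local instance 100] LieRing.ofAssociativeRing

/-- The ideal of the symplectic element. -/
noncomputable def JT : Submodule ℚ T17 := span ℚ {x | ∃ s t, x = s * omT * t}

lemma JT_mul {x : T17} (h : x ∈ JT) (s t : T17) : s * x * t ∈ JT :=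
  (span_le.2 (by
    rintro _ ⟨a, b, rfl⟩
    exact subset_span ⟨s * a, b * t, by simp [mul_assoc]⟩) :
    JT ≤ JT.comap (LinearMap.mulRight ℚ t ∘ₗ LinearMap.mulLeft ℚ s)) h

lemma sg_FD {i j k : ℕ} {D D' : E17} (h : D ∈ FD X 17 i) (h' : D' ∈ FD X 17 j)
    (e : i + j = k) : D * D' ∈ FD X 17 k := e ▸ FD_mul h h'

lemma sg_FT {i j k : ℕ} {s t : T17} (h : s ∈ FT X 17 i) (h' : t ∈ FT X 17 j)
    (e : i + j = k) : ⁅s, t⁆ ∈ FT X 17 k :=
  sub_mem (e ▸ FT_mul h h') ((add_comm j i).trans e ▸ FT_mul h' h)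

lemma sg_exp_om : exp omT - 1 ∈ JT := by
  have hn : IsNilpotent omT := FT_nil (mk_FT (Hom_le_Fl one_le_two (sum_mem fun i _ =>
    len_Hom 1 (len_succ (x := gx) _ (len_zero (x := gx) _)))))
  have h := exp_sub_mem ((LinearMap.isNilpotent_mulLeft_iff ℚ omT).2 hn) (S := JT)
    (fun y hy => by simpa using JT_mul hy omT 1) (x := 1) (subset_span ⟨1, 1, by simp⟩)
  rw [exp_mulLeft hn] at h
  simpa using h

lemma sg_pow_FD {a b : E17} (ha : a ∈ FD X 17 0) (hb : b ∈ FD X 17 0) (h : a - b ∈ FD X 17 1)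
    (k : ℕ) : b ^ k ∈ FD X 17 0 ∧ a ^ k - b ^ k ∈ FD X 17 1 := by
  induction k with
  | zero => exact ⟨one_FD, by simp⟩
  | succ k ih =>
    refine ⟨pow_succ' b k ▸ sg_FD hb ih.1 rfl, ?_⟩
    have e : a ^ (k + 1) - b ^ (k + 1) = a * (a ^ k - b ^ k) + (a - b) * b ^ k := by
      rw [pow_succ' a, pow_succ' b]
      noncomm_ring
    rw [e]
    exact add_mem (sg_FD ha ih.2 rfl) (sg_FD h ih.1 rfl)

lemma sg_exp_FD {a b : E17} (ha : a ∈ FD X 17 0) (hb : b ∈ FD X 17 0) (h : a - b ∈ FD X 17 1)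
    (na : IsNilpotent a) (nb : IsNilpotent b) : exp a - exp b ∈ FD X 17 1 := by
  obtain ⟨k, hk⟩ := na
  obtain ⟨l, hl⟩ := nb
  rw [exp_eq_sum (pow_eq_zero_of_le (Nat.le_add_right k l) hk),
    exp_eq_sum (pow_eq_zero_of_le (Nat.le_add_left l k) hl), ← sum_sub_distrib]
  refine sum_mem fun i _ => ?_
  rw [← smul_sub]
  exact smul_mem _ _ (sg_pow_FD ha hb h i).2

/-- The elements on which a derivation is a given inner derivation. -/
noncomputable def sgIn {D : E17} (hD : D ∈ DD X 17) (l : T17) : Subalgebra ℚ T17 where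
  carrier := {s | D s = ⁅l, s⁆}
  mul_mem' {s t} hs ht := by
    have hs' : D s = ⁅l, s⁆ := hs
    have ht' : D t = ⁅l, t⁆ := ht
    change D (s * t) = ⁅l, s * t⁆
    rw [hD.1, hs', ht']
    simp only [Ring.lie_def]
    noncomm_ring
  add_mem' {s t} hs ht := by
    have hs' : D s = ⁅l, s⁆ := hs
    have ht' : D t = ⁅l, t⁆ := ht
    change D (s + t) = ⁅l, s + t⁆
    rw [map_add, hs', ht', lie_add]
  algebraMap_mem' c := by
    change D (algebraMap ℚ T17 c) = ⁅l, algebraMap ℚ T17 c⁆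
    rw [Algebra.algebraMap_eq_smul_one, map_smul, der_one hD.1, smul_zero, lie_smul, Ring.lie_def,
      mul_one, one_mul, sub_self, smul_zero]

lemma sg_exp_mem {S : Subalgebra ℚ T17} {s : T17} (hs : s ∈ S) (hn : IsNilpotent s) :
    exp s ∈ S := by
  obtain ⟨k, hk⟩ := hn
  rw [exp_eq_sum hk]
  exact sum_mem fun i _ => S.smul_mem (pow_mem hs i) _

lemma sg_log_mem {S : Subalgebra ℚ T17} {s : T17} (hn : IsNilpotent s)
    (hn' : IsNilpotent (exp s - 1)) (hs : exp s ∈ S) : s ∈ S := by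
  obtain ⟨y, hy, h1, h2⟩ := exists_log hn'
  rw [add_sub_cancel] at h2
  rw [← exp_inj h1 hn h2]
  refine (span_le.2 ?_ : _ ≤ Subalgebra.toSubmodule S) hy
  rintro _ ⟨k, rfl⟩
  exact pow_mem (sub_mem hs (one_mem S)) _

lemma sg_exp_in {D : E17} (hD : D ∈ DD X 17) (hn : IsNilpotent D) {l : T17} (hl : IsNilpotent l)
    (h0 : l ∈ sgIn hD l) {s : T17} (hs : s ∈ sgIn hD l) :
    exp D s = exp l * s * exp (-l) := by
  have hS : ∀ y ∈ Subalgebra.toSubmodule (sgIn hD l),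
      LieAlgebra.ad ℚ T17 l y ∈ Subalgebra.toSubmodule (sgIn hD l) := fun y hy =>
    (sgIn hD l).sub_mem ((sgIn hD l).mul_mem h0 hy) ((sgIn hD l).mul_mem hy h0)
  have h1 := Module.End.isNilpotent.restrict hS (nil_ad hl)
  have h2 := exp_nat h1 hn (Subalgebra.toSubmodule (sgIn hD l)).subtype
    (fun x => Eq.symm x.2) ⟨s, hs⟩
  have h3 := exp_nat h1 (nil_ad hl) (Subalgebra.toSubmodule (sgIn hD l)).subtype
    (fun x => rfl) ⟨s, hs⟩
  rw [h2, ← Ad_expU hl, Ad_apply, expU_inv hl, expU_val hl, expU_val hl.neg] at h3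
  exact h3

lemma sg_exp_xx (a : X) : (th0 17 (FreeGroup.of a)).1 - 1 - xx 17 a ∈ FT X 17 2 := by
  have hn := FT_nil (xx_mem (N := 17) a)
  have h := exp_sub_sub_mem ((LinearMap.isNilpotent_mulLeft_iff ℚ (xx 17 a)).2 hn)
    (S := FT X 17 2) (fun y hy => FT_mono (by omega) (FT_mul (xx_mem a) hy)) (x := 1)
    (by simpa using FT_mul (xx_mem (N := 17) a) (xx_mem a))
  rw [exp_mulLeft hn] at h
  rw [th0_of]
  simpa using h

/-- The leading term of the logarithm of the separating twist. -/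
noncomputable def tau2 : Module.End ℚ T4 :=
  der fun x => if x.1 = 0 then -⁅⁅ga 0, gb 0⁆, gx x⁆ else 0

/-- Units acting as inner automorphisms modulo the ideal. -/
def InnJ (g : E17ˣ) : Prop := ∃ c : T17ˣ, ∀ s, g.1 s - c.1 * s * (c⁻¹).1 ∈ JT

/-- The logarithm of the separating twist for the exponential expansion. -/
lemma sg_t0 : ∃ t ∈ DD X 17, t ∈ FD X 17 2 ∧ cp 17 2 t = tau2 ∧
    ∀ x, exp t (th0 17 x).1 = (th0 17 (al tw x)).1 := by
  obtain ⟨l, hl, e⟩ := th0_log (N := 17) (fa 0 * fb 0 * (fa 0)⁻¹ * (fb 0)⁻¹)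
  have hl1 := LT_le hl
  have h2 : ⁅xx 17 a0, xx 17 b0⁆ ∈ FT X 17 2 :=
    sg_FT (xx_mem _) (xx_mem _) rfl
  have h3 : l - ⁅xx 17 a0, xx 17 b0⁆ ∈ FT X 17 3 := by
    refine log_lead hl1 h2 ?_
    rw [← e, map_mul, map_mul, map_mul, map_inv, map_inv]
    exact comm_lead (xx_mem _) (xx_mem _) (sg_exp_xx a0) (sg_exp_xx b0)
  have hl2 : l ∈ FT X 17 2 := by simpa using add_mem (FT_mono (by omega) h3) h2
  have h4 : ∀ x : X, (if x.1 = 0 then ⁅-l, xx 17 x⁆ else 0) ∈ FT X 17 3 := fun x => by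
    split_ifs
    · exact sg_FT (neg_mem hl2) (xx_mem x) rfl
    · exact zero_mem _
  have h5 : ∀ x : X, (if x.1 = 0 then ⁅-l, xx 17 x⁆ else 0) ∈ FT X 17 1 := fun x =>
    FT_mono (by omega) (h4 x)
  have hD := dT_DD h5
  have hx := dT_xx h5
  generalize dT (fun x : X => if x.1 = 0 then ⁅-l, xx 17 x⁆ else 0) = t at hD hx
  have hF : t ∈ FD X 17 2 := (DD_FD hD).2 fun a => hx a ▸ h4 a
  have hn : IsNilpotent t := FD_nil (FD_mono one_le_two hF)
  refine ⟨t, hD, hF, (cp_der 2 t).ext (isDer_der _) fun x => ?_, ?_⟩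
  · rw [cp_gx, hx, tau2, der_gx]
    split_ifs
    · have e1 : ⁅-l, xx 17 x⁆ = mkT 17 (-⁅⁅ga 0, gb 0⁆, gx x⁆) -
          ⁅l - ⁅xx 17 a0, xx 17 b0⁆, xx 17 x⁆ := by
        simp only [Ring.lie_def, map_neg, map_sub, map_mul, xx]
        noncomm_ring
      have e2 : ⁅l - ⁅xx 17 a0, xx 17 b0⁆, xx 17 x⁆ ∈ FT X 17 4 :=
        sg_FT h3 (xx_mem x) rfl
      have e3 : -⁅⁅ga 0, gb 0⁆, gx x⁆ ∈ Hom X 3 := by
        rw [lie_skew]
        exact len_Hom 2 (len_succ (x := gx) _ (len_succ (x := gx) _ (len_zero (x := gx) _)))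
      rw [e1, map_sub, mem_FT.1 e2 _ (by omega), sub_zero, sec_mk (by omega), pj_hom _ e3,
        if_pos rfl]
    · exact map_zero _
  · have hA := (DD_exp hD hn).1
    have h6 : ∀ x : X, x.1 = 0 → xx 17 x ∈ sgIn hD (-l) := fun x h =>
      (hx x).trans (if_pos h)
    have h7 : ∀ x : X, x.1 = 0 → (th0 17 (FreeGroup.of x)).1 ∈ sgIn hD (-l) := fun x h =>
      th0_of (N := 17) x ▸ sg_exp_mem (h6 x h) (FT_nil (xx_mem x))
    have h8 : ∀ x : X, x.1 = 0 → (th0 17 (FreeGroup.of x)⁻¹).1 ∈ sgIn hD (-l) := fun x h =>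
      th0_inv_of (N := 17) x ▸ sg_exp_mem (neg_mem (h6 x h)) (FT_nil (xx_mem x)).neg
    have h9 : l ∈ sgIn hD (-l) := by
      refine sg_log_mem (FT_nil hl1) (e ▸ FT_nil (th0_sub_one _)) ?_
      rw [← e, map_mul, map_mul, map_mul, Units.val_mul, Units.val_mul, Units.val_mul]
      exact mul_mem (mul_mem (mul_mem (h7 a0 rfl) (h7 b0 rfl)) (h8 a0 rfl)) (h8 b0 rfl)
    have e' : (th0 17 (fa 0 * fb 0 * (fa 0)⁻¹ * (fb 0)⁻¹)⁻¹).1 = exp (-l) := by
      rw [map_inv, Units.ext (e.trans (expU_val (FT_nil hl1)).symm), expU_inv (FT_nil hl1),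
        expU_val (FT_nil hl1).neg]
    refine hA.th (th0 17) (al tw).toMonoidHom fun x => ?_
    change _ = (th0 17 (al tw (FreeGroup.of x))).1
    rw [al_tw]
    split_ifs with h
    · rw [sg_exp_in hD hn (FT_nil hl1).neg (neg_mem h9) (h7 x h), neg_neg, map_mul (th0 17),
        map_mul (th0 17), Units.val_mul, Units.val_mul, e, e']
    · rw [th0_of, hA.exp (FT_nil (xx_mem x)), (exp_fix hn).2 ((hx x).trans (if_neg h))]

namespace Real
variable (R : Real)

lemma e_DD (i : Fin 5) : R.e i ∈ DD X 17 := (R.eS i).1.1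

lemma e_nil (i : Fin 5) : IsNilpotent (R.e i) := nil_of_cp (R.e_DD i) (R.e0 i) (fm_nil i)

/-- The action. -/
noncomputable def sig : F5 →* E17ˣ := FreeGroup.lift fun i => expU (R.e i)

lemma sig_of (i : Fin 5) : R.sig (FreeGroup.of i) = expU (R.e i) := by simp [sig]

/-- The action as a representation. -/
noncomputable def sg : F5 →* E17 := (Units.coeHom _).comp R.sig

lemma sg_apply (w : F5) : R.sg w = (R.sig w).1 := rfl

lemma sig_of_val (i : Fin 5) : (R.sig (FreeGroup.of i)).1 = exp (R.e i) := by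
  rw [sig_of, expU_val (R.e_nil i)]

lemma sig_isA (w : F5) : IsA (R.sig w).1 := by
  induction w using FreeGroup.induction_on with
  | C1 => rw [map_one]; exact IsA.one
  | of i => rw [sig_of_val]; exact (DD_exp (R.e_DD i) (R.e_nil i)).1
  | inv_of i h => rw [map_inv]; exact h.inv
  | mul x y hx hy => rw [map_mul]; exact hx.mul hy

lemma sig_th (w : F5) (x : FreeGroup X) :
    (R.sig w).1 (R.u.1 (th0 17 x).1) = R.u.1 (th0 17 (al w x)).1 := by
  induction w using FreeGroup.induction_on generalizing x with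
  | C1 => simp
  | of i => rw [sig_of_val, R.act, al, FreeGroup.lift_apply_of]
  | inv_of i h =>
    have h1 := h ((al (FreeGroup.of i))⁻¹ x)
    rw [MulAut.apply_inv_self] at h1
    rw [map_inv, map_inv, ← h1, unit_inv_apply]
  | mul v w hv hw => rw [map_mul, map_mul, Units.val_mul, Module.End.mul_apply, hw, hv,
      MulAut.mul_apply]

lemma sig_FD' (w : F5) : (R.sig w).1 ∈ FD X 17 0 := by
  induction w using FreeGroup.induction_on with
  | C1 => rw [map_one]; exact one_FD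
  | of i => rw [sig_of_val]; exact (DD_exp (R.e_DD i) (R.e_nil i)).2
  | inv_of i h => rw [map_inv]; exact FD_inv h
  | mul x y hx hy => rw [map_mul]; exact sg_FD hx hy rfl

lemma sig_fT (w : F5) : (R.sig w).1 - (fT w).1 ∈ FD X 17 1 := by
  induction w using FreeGroup.induction_on with
  | C1 => simp
  | of i =>
    rw [sig_of_val, fT_of, expU_val (dmT_nil i)]
    have hd := (dmT_LD (N := 17) (fm i)).1
    refine sg_exp_FD (DD_FD0 (R.e_DD i)) (DD_FD0 hd)
      ((cp_FD (sub_mem (R.e_DD i) hd)).2 fun d hd' => ?_) (R.e_nil i) (dmT_nil i)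
    obtain rfl : d = 0 := by omega
    rw [map_sub, R.e0, cp_dmT _ (by omega), if_pos rfl, sub_self]
  | inv_of i h =>
    have e : (R.sig (FreeGroup.of i)⁻¹).1 - (fT (FreeGroup.of i)⁻¹).1 =
        -((R.sig (FreeGroup.of i)⁻¹).1 * ((R.sig (FreeGroup.of i)).1 - (fT (FreeGroup.of i)).1) *
          (fT (FreeGroup.of i)⁻¹).1) := by
      rw [map_inv, map_inv, mul_sub, _root_.sub_mul, Units.inv_mul, one_mul, Units.mul_inv_cancel_right,
        neg_sub]
    rw [e]
    exact neg_mem (sg_FD (sg_FD (R.sig_FD' _) h rfl) (fT_FD _) rfl)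
  | mul x y hx hy =>
    have e : (R.sig (x * y)).1 - (fT (x * y)).1 =
        (R.sig x).1 * ((R.sig y).1 - (fT y).1) + ((R.sig x).1 - (fT x).1) * (fT y).1 := by
      rw [map_mul, map_mul, Units.val_mul, Units.val_mul]
      noncomm_ring
    rw [e]
    exact add_mem (sg_FD (R.sig_FD' x) hy rfl) (sg_FD hx (fT_FD y) rfl)

lemma sig_FD (w : F5) : (R.sig w).1 ∈ FD X 17 0 := R.sig_FD' w

lemma sig_om (w : F5) : (R.sig w).1 omT = omT := by
  induction w using FreeGroup.induction_on with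
  | C1 => simp
  | of i => rw [sig_of_val]; exact (exp_fix (R.e_nil i)).2 (R.eS i).2
  | inv_of i h =>
    rw [map_inv]
    exact (congrArg _ h.symm).trans (unit_inv_apply _ _)
  | mul x y hx hy => rw [map_mul, Units.val_mul, Module.End.mul_apply, hy, hx]

lemma sig_JT (w : F5) {x : T17} (h : x ∈ JT) : (R.sig w).1 x ∈ JT :=
  (span_le.2 (by
    rintro _ ⟨a, b, rfl⟩
    refine subset_span ⟨(R.sig w).1 a, (R.sig w).1 b, ?_⟩
    rw [(R.sig_isA w).2, (R.sig_isA w).2, sig_om]) : JT ≤ JT.comap (R.sig w).1) h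

/-- A property of linear type is checked on the image of the expansion. -/
lemma th_mem {M : Type} [AddCommGroup M] [Module ℚ M] {S : Submodule ℚ M} {f : T17 →ₗ[ℚ] M}
    (h : ∀ x, f (R.u.1 (th0 17 x).1) ∈ S) (s : T17) : f s ∈ S := by
  have h1 : span ℚ (Set.range fun g : FreeGroup X => (th0 17 g).1) ≤ S.comap (f ∘ₗ R.u.1) :=
    span_le.2 (by rintro _ ⟨x, rfl⟩; exact h x)
  have h2 := h1 (th0_span ▸ mem_top (x := (R.u⁻¹).1 s))
  rwa [mem_comap, LinearMap.comp_apply, unit_apply_inv] at h2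

lemma th_ext {g g' : E17ˣ} (h : ∀ x, g.1 (R.u.1 (th0 17 x).1) = g'.1 (R.u.1 (th0 17 x).1)) :
    g = g' :=
  Units.ext (LinearMap.ext fun s => sub_eq_zero.1 ((mem_bot ℚ).1
    (R.th_mem (f := g.1 - g'.1) (fun x => (mem_bot ℚ).2 (sub_eq_zero.2 (h x))) s)))

lemma sig_triv {w : F5} (h : ∀ x, al w (FreeGroup.of x) = FreeGroup.of x) : R.sig w = 1 := by
  have e : (al w).toMonoidHom = MonoidHom.id _ := FreeGroup.ext_hom _ _ h
  refine R.th_ext fun x => ?_
  rw [sig_th, show al w x = x from DFunLike.congr_fun e x]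
  rfl

lemma e_comm {i j : Fin 5} (h : i.val + 1 < j.val) : ⁅R.e i, R.e j⁆ = 0 := by
  have h1 := R.sig_triv (al_brd i j (Fin.lt_def.2 (by omega)))
  rw [brd, if_neg (by omega), map_mul, map_inv, mul_inv_eq_one, map_mul, map_mul] at h1
  have h2 := congrArg Units.val h1
  rw [Units.val_mul, Units.val_mul, sig_of_val, sig_of_val] at h2
  exact sub_eq_zero.2
    (commute_of_exp (R.e_nil j) (commute_of_exp (R.e_nil i) h2).symm).symm.eq

/-- A subspace stable under the logarithms is stable under the group. -/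
lemma Ad_sig_mem {P : Submodule ℚ E17} (h : ∀ i, ∀ D ∈ P, ⁅R.e i, D⁆ ∈ P) (w : F5) {D : E17}
    (hD : D ∈ P) : (Ad (R.sig w)).1 D ∈ P := by
  induction w using FreeGroup.induction_on generalizing D with
  | C1 => rw [map_one, Ad_one]; exact hD
  | of i => rw [sig_of]; exact Ad_expU_mem (R.e_nil i) (h i) hD
  | inv_of i _ =>
    rw [map_inv, sig_of, expU_inv (R.e_nil i)]
    exact Ad_expU_mem (R.e_nil i).neg (fun b hb => neg_lie (R.e i) b ▸ neg_mem (h i b hb)) hD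
  | mul x y hx hy => rw [map_mul, Ad_mul]; exact hx (hy hD)

/-- The corrected expansion. -/
noncomputable def th : FreeGroup X →* T17ˣ :=
  (Units.map (AlgHom.ofLinearMap R.u.1 R.uA.1 R.uA.2 : T17 →ₐ[ℚ] T17).toMonoidHom).comp (th0 17)

lemma th_val (x : FreeGroup X) : (R.th x).1 = R.u.1 (th0 17 x).1 := rfl

/-- The elements whose expansion is trivial modulo the ideal. -/
noncomputable def thK : Subgroup (FreeGroup X) where
  carrier := {g | (R.th g).1 - 1 ∈ JT}
  one_mem' := by simp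
  mul_mem' {g g'} h h' := by
    have h1 := add_mem (JT_mul h 1 (R.th g').1) h'
    change (R.th (g * g')).1 - 1 ∈ JT
    rwa [one_mul, _root_.sub_mul, one_mul, sub_add_sub_cancel, ← Units.val_mul, ← map_mul] at h1
  inv_mem' {g} h := by
    have h1 := neg_mem (JT_mul h ((R.th g)⁻¹).1 1)
    change (R.th g⁻¹).1 - 1 ∈ JT
    rwa [mul_one, mul_sub, Units.inv_mul, mul_one, neg_sub, ← map_inv] at h1

instance thK_normal : R.thK.Normal :=
  ⟨fun g h c => by
    have h1 := JT_mul h (R.th c).1 ((R.th c)⁻¹).1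
    change (R.th (c * g * c⁻¹)).1 - 1 ∈ JT
    rwa [mul_sub, _root_.sub_mul, mul_one, Units.mul_inv, ← Units.val_mul, ← Units.val_mul, ← map_inv,
      ← map_mul, ← map_mul] at h1⟩

lemma th_congr {g g' : FreeGroup X}
    (h : (PresentedGroup.mk {zeta} g : Pi2) = PresentedGroup.mk {zeta} g') :
    (R.th g).1 - (R.th g').1 ∈ JT := by
  have h1 : Subgroup.normalClosure {zeta} ≤ R.thK := Subgroup.normalClosure_le_normal (by
    rintro _ rfl
    change R.u.1 (th0 17 zeta).1 - 1 ∈ JT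
    rw [R.uz]
    exact sg_exp_om)
  have h2 : (R.th (g * g'⁻¹)).1 - 1 ∈ JT := h1 (PresentedGroup.mk_eq_one_iff.1 (by
    rw [map_mul, map_inv, h, mul_inv_cancel]))
  have h3 := JT_mul h2 1 (R.th g').1
  rwa [one_mul, _root_.sub_mul, one_mul, ← Units.val_mul, ← map_mul, inv_mul_cancel_right] at h3

lemma sig_rel {r : F5} (hr : r ∈ rels) : InnJ (R.sig r) := by
  obtain ⟨g, hg⟩ := alP_rel hr
  obtain ⟨c, rfl⟩ := PresentedGroup.mk_surjective _ g
  refine ⟨R.th c, R.th_mem (f := (R.sig r).1 -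
    LinearMap.mulRight ℚ ((R.th c)⁻¹).1 ∘ₗ LinearMap.mulLeft ℚ (R.th c).1) fun x => ?_⟩
  have h1 := R.th_congr (g := al r x) (g' := c * x * c⁻¹) (by
    rw [← alP_mk, hg, MulAut.conj_apply, map_mul, map_mul, map_inv])
  rw [map_mul, map_mul, map_inv, Units.val_mul, Units.val_mul, th_val, ← sig_th] at h1
  exact h1

lemma exists_t : ∃ t ∈ DD X 17, t ∈ FD X 17 2 ∧ cp 17 2 t = tau2 ∧ t omT = 0 ∧
    R.sig tw = expU t := by
  obtain ⟨t, hD, hF, h2, h⟩ := sg_t0
  have hn : IsNilpotent t := FD_nil (FD_mono one_le_two hF)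
  have u0 : R.u.1 ∈ FD X 17 0 := by
    simpa using add_mem (FD_mono zero_le_one R.u1) one_FD
  have e : R.sig tw = expU ((Ad R.u).1 t) := R.th_ext fun x => by
    rw [sig_th, expU_Ad _ hn, Units.val_mul, Units.val_mul, Module.End.mul_apply,
      Module.End.mul_apply, unit_inv_apply, expU_val hn, h]
  refine ⟨(Ad R.u).1 t, DD_Ad R.uA u0 hD, FD_Ad u0 hF, ?_, ?_, e⟩
  · rw [(cp_lead 1 R.uA (by simpa using R.u1) hD hF).2, cj_triv (map_one _), h2]
  · have h1 := R.sig_om tw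
    rw [e, expU_val (nil_Ad _ hn)] at h1
    exact (exp_fix (nil_Ad _ hn)).1 h1

end Real

end Pool.Agent.Lib.MP_f9c34c_al.G
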