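import Pool.Agent.Lib.MP_f9c34c_al.G.Frame2
import Pool.Agent.Lib.MP_f9c34c_al.Alg

/-! The bracket words. -/

namespace Pool.Agent.Lib.MP_f9c34c_al.G

section Gen
variable {L : Type*} [LieRing L] (E : Fin 5 → L) (t : L)

/-- The highest weight vector. -/
def wX : L := ⁅E 2, ⁅E 2, t⁆⁆

/-- The lowering operators. -/
def wZ : Fin 3 → L
  | 0 => ⁅E 1, ⁅E 3, E 2⁆⁆
  | 1 => E 1
  | 2 => E 3

/-- The iterated brackets. -/
def wG : List (Fin 3) → L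
  | [] => wX E t
  | s :: w => ⁅⁅wZ E s, wX E t⁆, wG w⁆

variable {L' : Type*} [LieRing L'] {E' : Fin 5 → L'} {t' : L'} {E t}

lemma wZ_rel (P : L → L' → Prop) (h : ∀ a a' b b', P a a' → P b b' → P ⁅a, b⁆ ⁅a', b'⁆)
    (hE : ∀ i, P (E i) (E' i)) : ∀ s, P (wZ E s) (wZ E' s)
  | 0 => h _ _ _ _ (hE 1) (h _ _ _ _ (hE 3) (hE 2))
  | 1 => hE 1
  | 2 => hE 3

lemma wG_rel (P : L → L' → Prop) (h : ∀ a a' b b', P a a' → P b b' → P ⁅a, b⁆ ⁅a', b'⁆)
    (hE : ∀ i, P (E i) (E' i)) (ht : P t t') : ∀ w, P (wG E t w) (wG E' t' w)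
  | [] => h _ _ _ _ (hE 2) (h _ _ _ _ (hE 2) ht)
  | s :: w => h _ _ _ _ (h _ _ _ _ (wZ_rel P h hE s) (h _ _ _ _ (hE 2) (h _ _ _ _ (hE 2) ht)))
      (wG_rel P h hE ht w)

end Gen

variable {Γ : Type} [Group Γ] {A : Subalgebra ℚ (Γ → ℚ)}

lemma word_lie {D U : LG A} (hD : ∀ f : OG A, f.1 ∈ A → (D.1 f).1 ∈ A) (hU : U.1 ∈ UG A) :
    (⁅D, U⁆ : LG A).1 ∈ UG A :=
  ⟨(⁅D, U⁆ : LG A).2, fun f hf => by
    rw [LieSubalgebra.coe_bracket, Derivation.commutator_apply, hU.2 f hf, hU.2 _ (hD f hf),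
      map_zero, sub_zero]⟩

lemma word_Y {E : Fin 5 → LG A} {t : LG A} (hE : ∀ i (f : OG A), f.1 ∈ A → ((E i).1 f).1 ∈ A)
    (ht : t.1 ∈ UG A) (s : Fin 3) : (⁅wZ E s, wX E t⁆ : LG A).1 ∈ UG A :=
  word_lie (wZ_rel (E' := E) (fun (D _ : LG A) => ∀ f : OG A, f.1 ∈ A → (D.1 f).1 ∈ A)
    (fun a _ b _ ha hb f hf => by
      rw [LieSubalgebra.coe_bracket, Derivation.commutator_apply]
      exact sub_mem (ha _ (hb f hf)) (hb _ (ha f hf))) hE s)
    (word_lie (hE 2) (word_lie (hE 2) ht))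

lemma word_len {L : Type*} [LieRing L] [LieAlgebra ℚ L] :
    ∀ (n : ℕ) {y : L}, y ∈ len id n → y ∈ LieModule.lowerCentralSeries ℚ L L n
  | 0, _, _ => LieSubmodule.mem_top _
  | n + 1, _, hy => len_le (S := (LieModule.lowerCentralSeries ℚ L L (n + 1)).toSubmodule)
      (fun i y hy => by
        rw [LieModule.lowerCentralSeries_succ]
        exact LieSubmodule.lie_mem_lie (LieSubmodule.mem_top i) (word_len n hy)) hy

lemma wG_UG {E : Fin 5 → LG A} {t : LG A} (hE : ∀ i (f : OG A), f.1 ∈ A → ((E i).1 f).1 ∈ A)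
    (ht : t.1 ∈ UG A) (w : List (Fin 3)) : (wG E t w).1 ∈ UG A := by
  induction w with
  | nil => exact word_lie (hE 2) (word_lie (hE 2) ht)
  | cons s w ih => exact (UG A).lie_mem (word_Y hE ht s) ih

/-- The bracket of two words of length three has bracket length eight. -/
lemma wG_lcs {E : Fin 5 → LG A} {t : LG A} (hE : ∀ i (f : OG A), f.1 ∈ A → ((E i).1 f).1 ∈ A)
    (ht : t.1 ∈ UG A) {w w' : List (Fin 3)} (hw : w.length = 3) (hw' : w'.length = 3) :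
    ∃ ξ ∈ LieModule.lowerCentralSeries ℚ (UG A) (UG A) 7, ξ.1 = (⁅wG E t w, wG E t w'⁆ : LG A).1 := by
  have key : ∀ w : List (Fin 3), ∃ y ∈ len (id : UG A → UG A) w.length, y.1 = (wG E t w).1 :=
    fun w => by
      induction w with
      | nil => exact ⟨⟨_, wG_UG hE ht []⟩, len_zero (x := id) _, rfl⟩
      | cons s w ih =>
        obtain ⟨y, hy, e⟩ := ih
        refine ⟨_, len_succ (⟨_, word_Y hE ht s⟩ : UG A) hy, ?_⟩
        rw [wG, LieSubalgebra.coe_bracket, LieSubalgebra.coe_bracket _ _ (wG E t w), e, id]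
  obtain ⟨y, hy, e⟩ := key w
  obtain ⟨y', hy', e'⟩ := key w'
  have h := lie_len _ _ hy hy'
  rw [hw, hw'] at h
  refine ⟨_, word_len 7 h, ?_⟩
  rw [LieSubalgebra.coe_bracket, LieSubalgebra.coe_bracket, e, e']

end Pool.Agent.Lib.MP_f9c34c_al.G
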