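import Pool.Agent.Lib.MP_f9c34c_al.Main
import Pool.Agent.Lib.MP_f9c34c_al.G.Word
import Pool.Agent.Lib.MP_f9c34c_al.G.Sy0
import Pool.Agent.Lib.MP_f9c34c_al.G.Sig

/-! The leading terms of the bracket words. -/

namespace Pool.Agent.Lib.MP_f9c34c_al.G

open Submodule Finset

attribute [local instance 100] LieRing.ofAssociativeRing

/-- The bracket words in the free algebra. -/
noncomputable def g4 (w : List (Fin 3)) : Module.End ℚ T4 := wG (fun i => dm (fm i)) tau2 w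

lemma dm_eval (m : Matrix X X ℚ) (x : X) :
    dm m (gx x) = m a0 x • ga 0 + m b0 x • gb 0 + m a1 x • ga 1 + m b1 x • gb 1 := by
  rw [dm_gx, Fintype.sum_prod_type, Fin.sum_univ_two, Fintype.sum_bool, Fintype.sum_bool]
  abel

lemma X_ind {P : X → Prop} (h0 : P a0) (h1 : P b0) (h2 : P a1) (h3 : P b1) (x : X) : P x := by
  obtain ⟨i, b⟩ := x
  fin_cases i <;> cases b
  exacts [h0, h1, h2, h3]

lemma dmH_a (i : Fin 2) : dm (hc 0 + hc 1) (ga i) = ga i := by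
  rw [dm_eval]
  fin_cases i <;> simp [hc]

lemma dmH_b (i : Fin 2) : dm (hc 0 + hc 1) (gb i) = -gb i := by
  rw [dm_eval]
  fin_cases i <;> simp [hc]

lemma F1_a0 : dm (fm 1) (ga 0) = -gb 0 := by rw [dm_eval]; simp [fm]
lemma F1_a1 : dm (fm 1) (ga 1) = 0 := by rw [dm_eval]; simp [fm]
lemma F1_b (i : Fin 2) : dm (fm 1) (gb i) = 0 := by rw [dm_eval]; simp [fm]
lemma F3_a0 : dm (fm 3) (ga 0) = 0 := by rw [dm_eval]; simp [fm]
lemma F3_a1 : dm (fm 3) (ga 1) = -gb 1 := by rw [dm_eval]; simp [fm]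
lemma F3_b (i : Fin 2) : dm (fm 3) (gb i) = 0 := by rw [dm_eval]; simp [fm]
lemma F2_a (i : Fin 2) : dm (fm 2) (ga i) = 0 := by rw [dm_eval]; simp [fm]

lemma F2_b0 : dm (fm 2) (gb 0) = ga 0 - ga 1 := by
  rw [dm_eval]; simp [fm, sub_eq_add_neg]

lemma F2_b1 : dm (fm 2) (gb 1) = ga 1 - ga 0 := by
  rw [dm_eval]; simp [fm, neg_add_eq_sub]

lemma tau2_der : IsDer tau2 := isDer_der _

lemma tau2_zero (b : Bool) : tau2 (gx (0, b)) = -⁅⁅ga 0, gb 0⁆, gx (0, b)⁆ := by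
  rw [tau2, der_gx, if_pos rfl]

lemma tau2_one (b : Bool) : tau2 (gx (1, b)) = 0 := by
  rw [tau2, der_gx, if_neg one_ne_zero]

lemma tau2_Sy0 : tau2 ∈ Sy0 2 := by
  refine ⟨tau2_der, fun x => ?_, ?_⟩
  · rw [tau2, der_gx]
    split_ifs
    · exact neg_mem (lie_len 1 0 (len_succ _ (len_zero _)) (len_zero _))
    · exact zero_mem _
  · rw [om, Fin.sum_univ_two, map_add, tau2_der.br, tau2_der.br, tau2_zero, tau2_zero, tau2_one,
      tau2_one, neg_lie, lie_neg, ← neg_add, ← leibniz_lie, lie_self, zero_lie, lie_zero]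
    simp

lemma fm_Sy0 (i : Fin 5) : dm (fm i) ∈ Sy0 0 :=
  ⟨dm_der _, dm_len _, dm_om (I := Set.univ) (LieSubalgebra.subset_lieSpan ⟨i, trivial, rfl⟩)⟩

lemma wZ_Sy0 (s : Fin 3) : wZ (fun i => dm (fm i)) s ∈ Sy0 0 :=
  wZ_rel (E := fun i => dm (fm i)) (E' := fun i => dm (fm i)) (fun a _ => a ∈ Sy0 0)
    (fun _ _ _ _ h h' => Sy0_lie h h') fm_Sy0 s

lemma g4_nil : g4 [] = ⁅dm (fm 2), ⁅dm (fm 2), tau2⁆⁆ := rfl

lemma g4_cons (s : Fin 3) (w : List (Fin 3)) :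
    g4 (s :: w) = ⁅⁅wZ (fun i => dm (fm i)) s, g4 []⁆, g4 w⁆ := rfl

lemma g4_nil_Sy0 : g4 [] ∈ Sy0 2 := Sy0_lie (fm_Sy0 2) (Sy0_lie (fm_Sy0 2) tau2_Sy0)

lemma g4_Sy0 (w : List (Fin 3)) : g4 w ∈ Sy0 (2 * w.length + 2) := by
  induction w with
  | nil => exact g4_nil_Sy0
  | cons s w ih =>
    have := Sy0_lie (Sy0_lie (wZ_Sy0 s) g4_nil_Sy0) ih
    rwa [show 0 + 2 + (2 * w.length + 2) = 2 * (s :: w).length + 2 by
      rw [List.length_cons]; ring] at this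

lemma dmH_wd (w : List X) :
    ∃ a : ℚ, a ≤ w.length ∧ dm (hc 0 + hc 1) (wd w) = a • wd w := by
  induction w with
  | nil => exact ⟨0, by simp, by rw [wd_nil, (dm_der _).one, zero_smul]⟩
  | cons x w ih =>
    obtain ⟨a, h1, h2⟩ := ih
    obtain ⟨i, _ | _⟩ := x
    · refine ⟨a + 1, by simpa using h1, ?_⟩
      rw [wd_cons, dm_der, dmH_a, h2, mul_smul_comm, add_smul, one_smul, add_comm]
    · refine ⟨a - 1, by rw [List.length_cons]; push_cast; linarith, ?_⟩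
      rw [wd_cons, dm_der, dmH_b, h2, mul_smul_comm, sub_smul, one_smul, neg_mul, neg_add_eq_sub]

lemma wt_zero {p : ℕ} {s : T4} (hs : s ∈ Hom X p) {c : ℚ} (hc' : (p : ℚ) < c)
    (h : dm (hc 0 + hc 1) s = c • s) : s = 0 := by
  choose a h1 h2 using dmH_wd
  have := Hom_ext (f := LinearMap.id) (g := (lin fun w => (a w - c)⁻¹ • wd w) ∘ₗ
    (dm (hc 0 + hc 1) - c • LinearMap.id)) (fun w hw => by
      have : a w - c ≠ 0 := by have := h1 w; rw [hw] at this; linarith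
      rw [LinearMap.comp_apply, LinearMap.sub_apply, h2, LinearMap.smul_apply, LinearMap.id_apply,
        ← sub_smul, map_smul, lin_wd, smul_smul, mul_inv_cancel₀ this, one_smul]) hs
  rwa [LinearMap.comp_apply, LinearMap.sub_apply, h, LinearMap.smul_apply, LinearMap.id_apply,
    sub_self, map_zero] at this

lemma wt_lie {H a b : Module.End ℚ T4} {c d : ℚ} (h : ⁅H, a⁆ = c • a) (h' : ⁅H, b⁆ = d • b) :
    ⁅H, ⁅a, b⁆⁆ = (c + d) • ⁅a, b⁆ := by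
  rw [leibniz_lie, h, h', add_smul]
  simp only [Ring.lie_def, smul_mul_assoc, mul_smul_comm, smul_sub]

lemma End_lie (D D' : Module.End ℚ T4) (s : T4) : ⁅D, D'⁆ s = D (D' s) - D' (D s) := rfl

lemma wt_F1 : ⁅dm (hc 0 + hc 1), dm (fm 1)⁆ = (-2 : ℚ) • dm (fm 1) :=
  ((dm_der _).lie (dm_der _)).ext ((dm_der _).smul _) (X_ind
    (by simp only [End_lie, LinearMap.smul_apply, F1_a0, dmH_a, dmH_b, map_neg]; module)
    (by simp only [End_lie, LinearMap.smul_apply, F1_b, dmH_b, map_neg, map_zero]; module)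
    (by simp only [End_lie, LinearMap.smul_apply, F1_a1, dmH_a, map_zero]; module)
    (by simp only [End_lie, LinearMap.smul_apply, F1_b, dmH_b, map_neg, map_zero]; module))

lemma wt_F3 : ⁅dm (hc 0 + hc 1), dm (fm 3)⁆ = (-2 : ℚ) • dm (fm 3) :=
  ((dm_der _).lie (dm_der _)).ext ((dm_der _).smul _) (X_ind
    (by simp only [End_lie, LinearMap.smul_apply, F3_a0, dmH_a, map_zero]; module)
    (by simp only [End_lie, LinearMap.smul_apply, F3_b, dmH_b, map_neg, map_zero]; module)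
    (by simp only [End_lie, LinearMap.smul_apply, F3_a1, dmH_a, dmH_b, map_neg]; module)
    (by simp only [End_lie, LinearMap.smul_apply, F3_b, dmH_b, map_neg, map_zero]; module))

lemma wt_F2 : ⁅dm (hc 0 + hc 1), dm (fm 2)⁆ = (2 : ℚ) • dm (fm 2) :=
  ((dm_der _).lie (dm_der _)).ext ((dm_der _).smul _) (X_ind
    (by simp only [End_lie, LinearMap.smul_apply, F2_a, dmH_a, map_zero]; module)
    (by simp only [End_lie, LinearMap.smul_apply, F2_b0, dmH_a, dmH_b, map_neg, map_sub]; module)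
    (by simp only [End_lie, LinearMap.smul_apply, F2_a, dmH_a, map_zero]; module)
    (by simp only [End_lie, LinearMap.smul_apply, F2_b1, dmH_a, dmH_b, map_neg, map_sub]; module))

lemma wt_tau : ⁅dm (hc 0 + hc 1), tau2⁆ = (0 : ℚ) • tau2 :=
  ((dm_der _).lie tau2_der).ext (tau2_der.smul _) (X_ind
    (by simp only [End_lie, LinearMap.smul_apply, tau2_zero, dmH_a, dmH_b, map_neg, (dm_der _).br,
          lie_neg, add_lie, neg_lie]; module)
    (by simp only [End_lie, LinearMap.smul_apply, tau2_zero, dmH_a, dmH_b, map_neg, (dm_der _).br,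
          lie_neg, add_lie, neg_lie]; module)
    (by simp only [End_lie, LinearMap.smul_apply, tau2_one, dmH_a, map_zero]; module)
    (by simp only [End_lie, LinearMap.smul_apply, tau2_one, dmH_b, map_neg, map_zero]; module))

lemma wt_Z : ∀ s, ⁅dm (hc 0 + hc 1), wZ (fun i => dm (fm i)) s⁆ =
    (-2 : ℚ) • wZ (fun i => dm (fm i)) s
  | 0 => (wt_lie wt_F1 (wt_lie wt_F3 wt_F2)).trans (by norm_num [wZ])
  | 1 => wt_F1
  | 2 => wt_F3

lemma wt_X : ⁅dm (hc 0 + hc 1), g4 []⁆ = (4 : ℚ) • g4 [] :=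
  (wt_lie wt_F2 (wt_lie wt_F2 wt_tau)).trans (by rw [g4_nil]; norm_num)

lemma g4_wt (w : List (Fin 3)) :
    ⁅dm (hc 0 + hc 1), g4 w⁆ = (2 * w.length + 4 : ℚ) • g4 w := by
  induction w with
  | nil => exact wt_X.trans (by norm_num)
  | cons s w ih =>
    rw [g4_cons, wt_lie (wt_lie (wt_Z s) wt_X) ih, List.length_cons]
    congr 1
    push_cast
    ring

lemma wt_a {D : Module.End ℚ T4} {m : ℕ} (hD : D ∈ Sy0 m) {c : ℚ}
    (h : ⁅dm (hc 0 + hc 1), D⁆ = c • D) (hm : (m : ℚ) < c) (i : Fin 2) : D (ga i) = 0 := by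
  have := LinearMap.congr_fun h (ga i)
  rw [End_lie, dmH_a, sub_eq_iff_eq_add, LinearMap.smul_apply] at this
  refine wt_zero (len_Hom _ (hD.2.1 _)) (c := c + 1) (by push_cast; linarith) ?_
  rw [this, add_smul, one_smul]

lemma wt_b {D : Module.End ℚ T4} {m : ℕ} (hD : D ∈ Sy0 m) {c : ℚ}
    (h : ⁅dm (hc 0 + hc 1), D⁆ = c • D) (hm : (m : ℚ) + 2 < c) (i : Fin 2) : D (gb i) = 0 := by
  have := LinearMap.congr_fun h (gb i)
  rw [End_lie, dmH_b, map_neg, sub_neg_eq_add, ← eq_sub_iff_add_eq, LinearMap.smul_apply] at this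
  refine wt_zero (len_Hom _ (hD.2.1 _)) (c := c - 1) (by push_cast; linarith) ?_
  rw [this, sub_smul, one_smul]

theorem g4_comm {w w' : List (Fin 3)} : ⁅g4 w, g4 w'⁆ = 0 := by
  have h1 := Sy0_lie (g4_Sy0 w) (g4_Sy0 w')
  have h2 := wt_lie (g4_wt w) (g4_wt w')
  refine h1.1.ext IsDer.zero ?_
  rintro ⟨i, _ | _⟩
  · exact wt_a h1 h2 (by push_cast; linarith) i
  · exact wt_b h1 h2 (by push_cast; linarith) i

lemma g4_a (w : List (Fin 3)) (i : Fin 2) : g4 w (ga i) = 0 :=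
  wt_a (g4_Sy0 w) (g4_wt w) (by push_cast; linarith) i

lemma g4_b0 : g4 [] (gb 0) = (2 : ℚ) • ⁅ga 1, ⁅ga 0, ga 1⁆⁆ := by
  simp only [g4_nil, End_lie, map_sub, map_neg, map_add, map_zero, tau2_zero, tau2_one,
    (dm_der _).br, F2_a, F2_b0, zero_lie, lie_zero, lie_sub, lie_self, sub_lie, add_lie]
  rw [← lie_skew (ga 1) ⁅ga 0, ga 1⁆]
  module

lemma g4_b1 : g4 [] (gb 1) = (-2 : ℚ) • ⁅ga 0, ⁅ga 0, ga 1⁆⁆ := by
  simp only [g4_nil, End_lie, map_sub, map_neg, map_zero, tau2_zero, tau2_one,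
    (dm_der _).br, F2_a, F2_b1, F2_b0, zero_lie, lie_zero, lie_sub, lie_self, sub_lie, add_lie]
  rw [← lie_skew (ga 0) ⁅ga 0, ga 1⁆]
  module

lemma rho_b0 : rho (g4 [] (gb 0)) = (2 : ℚ) • ⁅(gx 1 : T2), cc⁆ := by
  rw [g4_b0, map_smul, rho_lie, rho_lie, rho_a, rho_a, cc]

lemma rho_b1 : rho (g4 [] (gb 1)) = (-2 : ℚ) • ⁅(gx 0 : T2), cc⁆ := by
  rw [g4_b1, map_smul, rho_lie, rho_lie, rho_a, rho_a, cc]

lemma Z0_a0 : wZ (fun i => dm (fm i)) 0 (ga 0) = gb 1 := by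
  simp only [wZ, End_lie, F1_a0, F2_a, F3_a0, F3_a1, F3_b, F2_b0, map_zero, map_neg, map_sub]
  abel

lemma Z0_a1 : wZ (fun i => dm (fm i)) 0 (ga 1) = gb 0 := by
  simp only [wZ, End_lie, F1_a0, F1_a1, F2_a, F3_a1, F2_b1, map_zero, map_neg, map_sub]
  abel

lemma Y_gx (s : Fin 3) (i : Fin 2) : Y s (gx i) = if i = yj s then ⁅gx (yk s), cc⁆ else 0 := by
  rw [Y_eq, ← Pi.single_apply]
  exact der_gx _ i

lemma del_Y (s : Fin 3) : ∃ c : ℚ, c ≠ 0 ∧ ∃ z : T2,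
    del ⁅wZ (fun i => dm (fm i)) s, g4 []⁆ = c • Y s + der fun i => ⁅z, gx i⁆ := by
  have key : ∀ (c : ℚ) (z : T2), (∀ i, -rho (g4 [] (wZ (fun i => dm (fm i)) s (ga i))) =
      c • (if i = yj s then ⁅gx (yk s), cc⁆ else 0) + ⁅z, gx i⁆) →
      del ⁅wZ (fun i => dm (fm i)) s, g4 []⁆ = c • Y s + der fun i => ⁅z, gx i⁆ := fun c z h =>
    (isDer_del _).ext (((isDer_Y s).smul c).add (isDer_der _)) fun i => by
      rw [del_gx, End_lie, g4_a, map_zero, zero_sub, map_neg, h, LinearMap.add_apply, der_gx,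
        LinearMap.smul_apply, Y_gx]
  fin_cases s
  · refine ⟨4, by norm_num, (2 : ℚ) • cc, key _ _ (Fin.forall_fin_two.2 ⟨?_, ?_⟩)⟩
    · change -rho (g4 [] (wZ (fun i => dm (fm i)) 0 (ga 0))) = (4 : ℚ) • ⁅(gx 0 : T2), cc⁆ + _
      rw [Z0_a0, rho_b1, smul_lie, ← lie_skew cc]
      module
    · change -rho (g4 [] (wZ (fun i => dm (fm i)) 0 (ga 1))) = (4 : ℚ) • (0 : T2) + _
      rw [Z0_a1, rho_b0, smul_lie, ← lie_skew cc]
      module
  · refine ⟨2, by norm_num, 0, key _ _ (Fin.forall_fin_two.2 ⟨?_, ?_⟩)⟩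
    · change -rho (g4 [] (dm (fm 1) (ga 0))) = (2 : ℚ) • ⁅(gx 1 : T2), cc⁆ + _
      rw [F1_a0, map_neg, map_neg, rho_b0, zero_lie]
      module
    · change -rho (g4 [] (dm (fm 1) (ga 1))) = (2 : ℚ) • (0 : T2) + _
      rw [F1_a1, map_zero, map_zero, zero_lie]
      module
  · refine ⟨-2, by norm_num, 0, key _ _ (Fin.forall_fin_two.2 ⟨?_, ?_⟩)⟩
    · change -rho (g4 [] (dm (fm 3) (ga 0))) = (-2 : ℚ) • (0 : T2) + _
      rw [F3_a0, map_zero, map_zero, zero_lie]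
      module
    · change -rho (g4 [] (dm (fm 3) (ga 1))) = (-2 : ℚ) • ⁅(gx 0 : T2), cc⁆ + _
      rw [F3_a1, map_neg, map_neg, rho_b1, zero_lie]
      module

theorem g4_hh (w : List (Fin 3)) : ∃ c : ℚ, c ≠ 0 ∧ hh (g4 w) - c • nn w ∈ Cm (Fin 2) := by
  induction w with
  | nil =>
    refine ⟨1, one_ne_zero, ?_⟩
    have := hh_eq0 g4_nil_Sy0
    have e : (4 : ℚ) • (hh (g4 []) - (1 : ℚ) • nn []) =
        (2 : ℚ) • ((gx 1 * (cc * gx 0) - cc * gx 0 * gx 1) -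
          (gx 0 * (cc * gx 1) - cc * gx 1 * gx 0)) := by
      rw [smul_sub, show (4 : ℚ) • hh (g4 []) = rho (UU (g4 [])) by rw [this]; norm_num, rho_UU,
        Fin.sum_univ_two, rho_b0, rho_b1, nn, mul_smul_comm, mul_smul_comm]
      have e1 : gx 0 * ⁅(gx 1 : T2), cc⁆ - gx 1 * ⁅(gx 0 : T2), cc⁆ - (cc * cc + cc * cc) =
          (gx 1 * (cc * gx 0) - cc * gx 0 * gx 1) - (gx 0 * (cc * gx 1) - cc * gx 1 * gx 0) := by
        simp only [cc, Ring.lie_def]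
        noncomm_ring
      rw [← e1]
      module
    rw [← smul_mem_iff (s := (4 : ℚ)) _ (by norm_num), e]
    exact smul_mem _ _ (sub_mem (cm_mem _ _) (cm_mem _ _))
  | cons s w ih =>
    obtain ⟨c, hc0, h⟩ := ih
    obtain ⟨d, hd, z, e⟩ := del_Y s
    refine ⟨d * c, mul_ne_zero hd hc0, ?_⟩
    have e1 : del (g4 w) = 0 := (isDer_del _).ext IsDer.zero fun i => by
      rw [del_gx, g4_a, map_zero, LinearMap.zero_apply]
    have := add_mem (add_mem (hh_lie0 (Sy0_lie (wZ_Sy0 s) g4_nil_Sy0) (g4_Sy0 w))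
      (der_inner z (hh (g4 w)))) (smul_mem _ d ((isDer_Y s).cm h))
    rw [e, e1, ← g4_cons] at this
    have e2 : hh (g4 (s :: w)) - (d * c) • nn (s :: w) = hh (g4 (s :: w)) -
        ((d • Y s + der fun i => ⁅z, gx i⁆ : Module.End ℚ T2) (hh (g4 w)) -
          (0 : Module.End ℚ T2) (hh ⁅wZ (fun i => dm (fm i)) s, g4 []⁆)) +
        (der fun x => ⁅z, gx x⁆) (hh (g4 w)) + d • Y s (hh (g4 w) - c • nn w) := by
      simp only [nn, map_sub, map_smul, LinearMap.add_apply, LinearMap.smul_apply,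
        LinearMap.zero_apply]
      module
    rw [e2]
    exact this

theorem g4_ne : B (hh (g4 [0, 0, 0])) (hh (g4 [0, 1, 2])) ≠ 0 := by
  obtain ⟨c, hc0, h⟩ := g4_hh [0, 0, 0]
  obtain ⟨d, hd, h'⟩ := g4_hh [0, 1, 2]
  rw [B_congr h h', map_smul, map_smul, LinearMap.smul_apply, smul_eq_mul, smul_eq_mul]
  exact mul_ne_zero hd (mul_ne_zero hc0 B_ne)

lemma lead_lie {D D' : E17} {E E' : Module.End ℚ T4} {i j : ℕ} (k : ℕ)
    (h : D ∈ DD X 17 ∧ D ∈ FD X 17 i ∧ cp 17 i D = E)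
    (h' : D' ∈ DD X 17 ∧ D' ∈ FD X 17 j ∧ cp 17 j D' = E') (hk : i + j = k) (hd : k < 17) :
    ⁅D, D'⁆ ∈ DD X 17 ∧ ⁅D, D'⁆ ∈ FD X 17 k ∧ cp 17 k ⁅D, D'⁆ = ⁅E, E'⁆ := by
  subst hk
  exact ⟨(DD X 17).lie_mem h.1 h'.1, FD_lie h.2.1 h'.2.1, by
    rw [cp_lie_lead h.1 h'.1 h.2.1 h'.2.1 hd, h.2.2, h'.2.2]⟩

lemma wG_lead {e : Fin 5 → E17} {t : E17} (he : ∀ i, e i ∈ DD X 17 ∧ cp 17 0 (e i) = dm (fm i))
    (ht : t ∈ DD X 17 ∧ t ∈ FD X 17 2 ∧ cp 17 2 t = tau2) {w : List (Fin 3)} (hw : w.length ≤ 3) :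
    wG e t w ∈ DD X 17 ∧ wG e t w ∈ FD X 17 (2 * w.length + 2) ∧
      cp 17 (2 * w.length + 2) (wG e t w) = g4 w := by
  have h0 : ∀ i, e i ∈ DD X 17 ∧ e i ∈ FD X 17 0 ∧ cp 17 0 (e i) = dm (fm i) :=
    fun i => ⟨(he i).1, DD_FD0 (he i).1, (he i).2⟩
  have hX := lead_lie 2 (h0 2) (lead_lie 2 (h0 2) ht rfl (by norm_num)) rfl (by norm_num)
  have hZ := wZ_rel (E := e) (E' := fun i => dm (fm i))
    (fun D E => D ∈ DD X 17 ∧ D ∈ FD X 17 0 ∧ cp 17 0 D = E)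
    (fun _ _ _ _ h h' => lead_lie 0 h h' rfl (by norm_num)) h0
  induction w with
  | nil => exact hX
  | cons s w ih =>
    rw [List.length_cons] at hw
    exact lead_lie (2 * (s :: w).length + 2) (lead_lie 2 (hZ s) hX rfl (by norm_num))
      (ih (by omega)) (by rw [List.length_cons]; ring) (by rw [List.length_cons]; omega)

lemma wG_comm' {e : Fin 5 → E17} {t : E17} (he : ∀ i, e i ∈ DD X 17 ∧ cp 17 0 (e i) = dm (fm i))
    (ht : t ∈ DD X 17 ∧ t ∈ FD X 17 2 ∧ cp 17 2 t = tau2) {w w' : List (Fin 3)}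
    (hw : w.length = 3) (hw' : w'.length = 3) : ⁅wG e t w, wG e t w'⁆ = 0 := by
  obtain ⟨h1, h2, h3⟩ := lead_lie 16 (wG_lead he ht hw.le) (wG_lead he ht hw'.le) (by omega)
    (by norm_num)
  rw [g4_comm] at h3
  have h4 : ∀ d < 17, cp 17 d ⁅wG e t w, wG e t w'⁆ = 0 := fun d hd => by
    by_cases h : d = 16
    · rw [h, h3]
    · exact (cp_FD h1).1 h2 d (by omega)
  exact DD_top h1 ((cp_FD (k := 17) h1).2 h4)

theorem wG_comm {e : Fin 5 → E17} {t : E17} (he : ∀ i, e i ∈ DD X 17 ∧ cp 17 0 (e i) = dm (fm i))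
    (ht : t ∈ DD X 17 ∧ t ∈ FD X 17 2 ∧ cp 17 2 t = tau2) :
    ⁅wG e t [0, 0, 0], wG e t [0, 1, 2]⁆ = 0 :=
  wG_comm' he ht rfl rfl

end Pool.Agent.Lib.MP_f9c34c_al.G
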