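import Pool.Agent.Lib.MP_f9c34c_al.G.Act
import Pool.Agent.Lib.MP_f9c34c_al.G.John
import Pool.Agent.Lib.MP_f9c34c_al.G.Xi

/-! The element of the kernel. -/

namespace Pool.Agent.Lib.MP_f9c34c_al.G

attribute [local instance 100] LieRing.ofAssociativeRing

set_option maxRecDepth 4000

lemma pr5_surj : Function.Surjective pr5 := PresentedGroup.mk_surjective _

lemma desc_rep {E : Type} [Monoid E] (a : F5 →* E) (h : ∀ r ∈ rels, a r = 1) :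
    ∃ σ : MCG →* E, ∀ w, σ (pr5 w) = a w := by
  have e : FreeGroup.lift (fun i => a.toHomUnits (FreeGroup.of i)) = a.toHomUnits :=
    FreeGroup.ext_hom _ _ fun i => by simp
  let σ : MCG →* Eˣ := PresentedGroup.toGroup (f := fun i => a.toHomUnits (FreeGroup.of i))
    fun r hr => by rw [e]; exact Units.ext (h r hr)
  have e' : σ.comp pr5 = a.toHomUnits := FreeGroup.ext_hom _ _ fun i => by
    rw [MonoidHom.comp_apply]
    exact PresentedGroup.toGroup.of _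
  exact ⟨(Units.coeHom E).comp σ, fun w => congrArg Units.val (DFunLike.congr_fun e' w)⟩

/-- Pull-back of functions. -/
def pb : (MCG → ℚ) →ₗ[ℚ] (F5 → ℚ) := LinearMap.funLeft ℚ ℚ pr5

lemma pb_inj : Function.Injective pb := LinearMap.funLeft_injective_of_surjective _ _ _ pr5_surj

lemma pb_Rt (w : F5) (f : MCG → ℚ) : pb (Rt (pr5 w) f) = Rt w (pb f) := by
  ext x
  simp [pb]

lemma JF_UA {w : F5} (h : ∀ φ ∈ Opoly, UA (Rt w) φ) : ∀ f ∈ JF 1, UA (Rt (pr5 w)) f :=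
  fun _ hf => UA.of_inj pb pb_inj (pb_Rt w) (h _ (JF_one.1 hf))

lemma JF_Rt (γ : MCG) {f : MCG → ℚ} (hf : f ∈ JF 1) : Rt γ f ∈ JF 1 := by
  obtain ⟨w, rfl⟩ := pr5_surj γ
  refine JF_one.2 ?_
  convert tr_Opoly (JF_one.1 hf) 1 w using 1
  ext x
  simp

lemma tw_UA : ∀ φ ∈ Opoly, UA (Rt tw) φ := fun φ h => ⟨1, by simp [Opoly_tw h]⟩

/-- Derivations related by the projection. -/
def Rel (D' : LG Opoly) (D : LG (JF 1)) : Prop :=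
  ∀ (f : OG (JF 1)) (f' : OG Opoly), f'.1 = pb f.1 → (D'.1 f').1 = pb (D.1 f).1

lemma Rel.lie {a b : LG Opoly} {a' b' : LG (JF 1)} (h : Rel a a') (h' : Rel b b') :
    Rel ⁅a, b⁆ ⁅a', b'⁆ := fun f f' e => by
  have h1 := h _ _ (h' f f' e)
  have h2 := h' _ _ (h f f' e)
  simp only [LieSubalgebra.coe_bracket, Derivation.commutator_apply, AddSubgroupClass.coe_sub,
    map_sub, h1, h2]

lemma Rel.lg {w : F5} (h : ∀ φ ∈ Opoly, UA (Rt w) φ) {D' : LG Opoly} {D : LG (JF 1)}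
    (h' : ∀ f : OG Opoly, (D'.1 f).1 = lgp (Rt w) f.1)
    (hD : ∀ f : OG (JF 1), (D.1 f).1 = lgp (Rt (pr5 w)) f.1) : Rel D' D := fun f f' e => by
  rw [h', hD, e, lgp_map pb (pb_Rt w) (OG_UA (JF_UA h) f.2)]

section Ext
variable {c : Cyc qW.Q (Vn pl 10)} (hc : c.Gd qW.e)
include hc

lemma GF_odd (k : ℕ) : GF (mkE c qW.e 0) (2 * k + 1) ≤ GF (mkE c qW.e 0) (2 * (k + 1)) := by
  by_cases h : 2 * k + 1 < 17
  · rw [GF_succ h]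
    refine sup_le (fun x hx => ?_) le_rfl
    obtain ⟨h1, h2⟩ := (mem_eig_ext hc).1 hx
    rw [qW_odd ⟨k, rfl⟩] at h1
    rw [show x = 0 from Ext_ext c h1 (h2 (by omega))]
    exact zero_mem _
  · rw [GF_top (by omega)]
    exact bot_le

lemma raise_of_step {φ : Module.End ℚ (Ext c)} (h : ∀ k, ∀ v ∈ GF (mkE c qW.e 0) (2 * k),
    φ v ∈ GF (mkE c qW.e 0) (2 * (k + 1))) : φ ∈ Raise (mkE c qW.e 0) 1 := fun d x hx => by
  obtain ⟨k, rfl | rfl⟩ := Nat.even_or_odd' d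
  · exact GF_mono (by omega) (h k x hx)
  · exact GF_mono (by omega) (h _ x (GF_odd hc k hx))

omit hc in
lemma blk_Opoly {F : F5 →* Module.End ℚ qW.Q} (hF : ∀ w, qW.Ind (Ad (fT w)).1 (F w))
    (l : Ext c →ₗ[ℚ] ℚ) (v : Ext c) : (fun w => l (blk c (F w) (rV w) v)) ∈ Opoly := by
  let l1 : qW.Q →ₗ[ℚ] ℚ := l ∘ₗ (LinearMap.inl ℚ _ _ : qW.Q →ₗ[ℚ] qW.Q × Vn pl 10)
  let l2 : Vn pl 10 →ₗ[ℚ] ℚ := l ∘ₗ (LinearMap.inr ℚ _ _ : Vn pl 10 →ₗ[ℚ] qW.Q × Vn pl 10)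
  have e : ∀ x : Ext c, l x = l1 (p1 c x) + l2 (p2 c x) := fun x =>
    (congrArg l (Ext_ext c (add_zero _).symm (zero_add _).symm)).trans (map_add l _ _)
  obtain ⟨y, hy⟩ := qW.pr_surj (p1 c v)
  obtain ⟨l3, h3⟩ := LinearMap.exists_extend (p := qW.a.toSubmodule) (l1 ∘ₗ qW.pr.toLinearMap)
  convert add_mem (Ad_fT_Opoly l3 y.1)
    (Rt_Opoly (fun _ => Vn_Opoly) rV rV_val l2 (p2 c v)) using 1
  ext w
  obtain ⟨y', h, h'⟩ := (hF w).ex y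
  rw [e, p1_blk, p2_blk, ← hy, h', Pi.add_apply, ← h]
  exact congrArg (· + _) (LinearMap.congr_fun h3 y').symm

end Ext

/-- `φ` is a derivation of the extension covering the bracket with `Z`. -/
def Cov {c : Cyc qW.Q (Vn pl 10)} (φ : Module.End ℚ (Ext c)) (Z : E17) : Prop :=
  IsD φ ∧ ∀ (x : Ext c) (y : qW.a), p1 c x = qW.pr y →
    ∃ y' : qW.a, y'.1 = ⁅Z, y.1⁆ ∧ p1 c (φ x) = qW.pr y'

lemma Cov.lie {c : Cyc qW.Q (Vn pl 10)} {φ φ' : Module.End ℚ (Ext c)} {Z Z' : E17} (h : Cov φ Z)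
    (h' : Cov φ' Z') : Cov ⁅φ, φ'⁆ ⁅Z, Z'⁆ := by
  refine ⟨h.1.lie h'.1, fun x y e => ?_⟩
  obtain ⟨y1, a1, b1⟩ := h.2 x y e
  obtain ⟨y2, a2, b2⟩ := h'.2 x y e
  obtain ⟨y3, a3, b3⟩ := h.2 _ _ b2
  obtain ⟨y4, a4, b4⟩ := h'.2 _ _ b1
  refine ⟨y3 - y4, ?_, ?_⟩
  · rw [AddSubgroupClass.coe_sub, a3, a4, a1, a2, lie_lie]
  · rw [map_sub, ← b3, ← b4, ← map_sub]
    rfl

lemma Cov.lg {c : Cyc qW.Q (Vn pl 10)} {a φ : Module.End ℚ (Ext c)} {α : Module.End ℚ qW.Q}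
    {z : E17} (hz : IsNilpotent z) (hα : qW.Ind (Ad (expU z)).1 α) (ha : IsL a)
    (hc : ∀ x, p1 c (a x) = α (p1 c x)) (h : ∀ v, UA a v ∧ φ v = lgp a v) : Cov φ z := by
  refine ⟨fun x y => ?_, fun x y e => ?_⟩
  · rw [(h _).2, (h _).2, (h _).2]
    exact lgp_bil (LieAlgebra.ad ℚ (Ext c)).toLinearMap ha (h x).1 (h y).1
  · obtain ⟨h1, h2⟩ := hα.lg hz y
    exact ⟨⟨_, h1⟩, rfl, by rw [(h x).2, lgp_map (p1 c) hc (h x).1, e, h2]⟩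

lemma Cov.ex {c : Cyc qW.Q (Vn pl 10)} {φ : Module.End ℚ (Ext c)} {Z : E17} (h : Cov φ Z)
    (h0 : Z ∈ DD X 17) (h1 : Z ∈ FD X 17 1) : ∃ x : qW.a, x.1 = Z ∧ qW.pr x ∈ GF qW.e 1 ∧
      p1 c (φ (mkE c qW.e 0)) = ⁅qW.pr x, qW.e⁆ := by
  obtain ⟨y, a, b⟩ := h.2 (mkE c qW.e 0) euW ((p1_mk c _ _).trans qW_e)
  rw [euW_val] at a
  have h2 : ⁅eu X 17, Z⁆ ∈ WW := by
    rw [← lie_skew, ← a]
    exact neg_mem y.2
  have h4 := FD_lie (DD_FD0 eu_DD) h1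
  rw [zero_add] at h4
  have h3 := KK_WW (KK_of_eu h0 h1 (KK_of_WW h2 h4))
  obtain ⟨x, hx⟩ : ∃ x : qW.a, x.1 = Z := ⟨⟨Z, h3⟩, rfl⟩
  refine ⟨x, hx, qW.pr_GF (hx ▸ h1), ?_⟩
  rw [b, qW_e, ← qW.pr.map_lie]
  refine congrArg qW.pr (Subtype.ext ?_)
  rw [a, LieSubalgebra.coe_bracket, hx, euW_val]

lemma Cf_ne {Z Z' : E17} (a1 : Z ∈ DD X 17) (b1 : Z' ∈ DD X 17) (a2 : Z ∈ FD X 17 8)
    (b2 : Z' ∈ FD X 17 8) (a3 : cp 17 8 Z = g4 [0, 0, 0]) (b3 : cp 17 8 Z' = g4 [0, 1, 2]) :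
    Cf Z Z' 1 ≠ 0 := by
  rw [Cf_lead a1 b1 a2 b2, a3, b3]
  exact g4_ne

theorem main : JF 17 ≤ OG (JF 1) ∧
    ∃ ξ ∈ LieModule.lowerCentralSeries ℚ (UG (JF 1)) (UG (JF 1)) 7,
      (∃ f : OG (JF 1), (∀ η ∈ LieModule.lowerCentralSeries ℚ (UG (JF 1)) (UG (JF 1)) 8,
        η.1 f = 0) ∧ ξ.1 f ≠ 0) ∧ ∀ f : OG (JF 1), f.1 ∈ JF 17 → ξ.1 f = 0 := by
  refine ⟨JF_le, ?_⟩
  obtain ⟨R, hK, hM⟩ := exists_good
  obtain ⟨c, hc, hch⟩ := exists_cyc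
  obtain ⟨α, hα⟩ := qW.exists_ind R.sig (fun w _ => R.sig_WW hK w) fun w _ _ => R.sig_JS hK w
  obtain ⟨F, hF⟩ := qW.exists_ind fT (fun w _ => WW_fT w) fun w _ _ => JS_fT w
  obtain ⟨a, ha, hr⟩ := exists_rep R hK hc hch hα hF hM
  have hA := act_W R hc hch hα hF
  obtain ⟨σ, hσ⟩ := desc_rep a hr
  have hC : Ch (JF 1) σ (8 + 1) fun k => GF (mkE c qW.e 0) (2 * k) := by
    refine ⟨GF_ext_top hc, GF_top (by norm_num), fun k => GF_mono (by omega), fun k g v hv => ?_,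
      fun k v hv l hl => JF_one.2 ?_⟩
    · obtain ⟨w, rfl⟩ := pr5_surj g
      rw [hσ]
      exact (ha w).raise0 hA _ v hv
    · convert blk_Opoly hF l v using 1
      ext w
      have := hl _ (GF_odd hc k ((ha w).gr _ v hv))
      rwa [LinearMap.sub_apply, map_sub, sub_eq_zero, ← hσ] at this
  obtain ⟨M, hM⟩ := exists_M hC.bridge
  obtain ⟨M', hM'⟩ := exists_M R.ch.bridge
  choose E hE using fun i => exists_lg (JF_UA fun _ => Opoly_UA i)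
  choose E' hE' using fun i => exists_lg (A := Opoly) fun _ => Opoly_UA i
  obtain ⟨L, hL⟩ := exists_lg (JF_UA tw_UA)
  obtain ⟨L', hL'⟩ := exists_lg tw_UA
  obtain ⟨t, t1, t2, t3, -, t4⟩ := R.exists_t
  have tn : IsNilpotent t := FD_nil (FD_mono (by norm_num) t2)
  have hEA : ∀ i (f : OG (JF 1)), f.1 ∈ JF 1 → ((E i).1 f).1 ∈ JF 1 := fun i f hf => by
    rw [hE]
    exact lgp_mem (S := (JF 1).toSubmodule) (fun _ => JF_Rt _) (JF_UA (fun _ => Opoly_UA i) _ hf)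
      (sub_mem (JF_Rt _ hf) hf)
  have hLU : L.1 ∈ UG (JF 1) := ⟨L.2, fun f hf => Subtype.ext (by
    rw [hL]
    exact lgp_fix (pb_inj ((pb_Rt _ _).trans (Opoly_tw (JF_one.1 hf)))))⟩
  have he : ∀ i, R.e i ∈ DD X 17 ∧ cp 17 0 (R.e i) = dm (fm i) := fun i => ⟨R.e_DD i, R.e0 i⟩
  have h1 := wG_rel (fun D Z => M' D = Z) (E := E') (E' := R.e) (t := L') (t' := t)
    (fun _ _ _ _ h h' => by rw [M'.map_lie, h, h'])
    (fun i => LinearMap.ext fun v => by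
      rw [(hM'.lg R.ch.bridge (fun _ => Opoly_UA i) (hE' i) v).2, R.sg_apply, R.sig_of,
        expU_val (R.e_nil i), lgp_exp (R.e_nil i)])
    (LinearMap.ext fun v => by
      rw [(hM'.lg R.ch.bridge tw_UA hL' v).2, R.sg_apply, t4, expU_val tn, lgp_exp tn])
  have h2 := wG_rel Rel (E := E') (E' := E) (t := L') (t' := L) (fun _ _ _ _ => Rel.lie)
    (fun i => Rel.lg (fun _ => Opoly_UA i) (hE' i) (hE i)) (Rel.lg tw_UA hL' hL)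
  have h3 := wG_rel (fun D Z => Cov (M D) Z) (E := E) (E' := R.e) (t := L) (t' := t)
    (fun _ _ _ _ h h' => by rw [M.map_lie]; exact h.lie h')
    (fun i => Cov.lg (R.e_nil i) (R.sig_of i ▸ hα _) (ha _).isL (ha _).cov fun v =>
      hσ _ ▸ hM.lg hC.bridge (JF_UA fun _ => Opoly_UA i) (hE i) v)
    (Cov.lg tn (t4 ▸ hα _) (ha _).isL (ha _).cov fun v =>
      hσ _ ▸ hM.lg hC.bridge (JF_UA tw_UA) hL v)
  obtain ⟨ξ, x1, x2⟩ := wG_lcs hEA hLU (w := [0, 0, 0]) (w' := [0, 1, 2]) rfl rfl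
  refine ⟨ξ, x1, ?_, fun f hf => ?_⟩
  · let l : Ext c →ₗ[ℚ] ℚ := LinearMap.proj 1 ∘ₗ (Vn pl 10).subtype ∘ₗ p2 c
    refine ⟨⟨co σ l (mkE c qW.e 0), hC.bridge _ _⟩, fun η hη => hC.lcs hη _ rfl, fun h => ?_⟩
    have hx := hM ⁅wG E L [0, 0, 0], wG E L [0, 1, 2]⁆ ⟨_, hC.bridge l (mkE c qW.e 0)⟩ l _ rfl
    rw [← x2, h, M.map_lie] at hx
    obtain ⟨a1, a2, a3⟩ := wG_lead he ⟨t1, t2, t3⟩ (w := [0, 0, 0]) le_rfl
    obtain ⟨b1, b2, b3⟩ := wG_lead he ⟨t1, t2, t3⟩ (w := [0, 1, 2]) le_rfl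
    rw [show 2 * ([0, 0, 0] : List (Fin 3)).length + 2 = 8 from rfl] at a2 a3
    rw [show 2 * ([0, 1, 2] : List (Fin 3)).length + 2 = 8 from rfl] at b2 b3
    obtain ⟨x, e1, e2, e3⟩ := (h3 _).ex a1 (FD_mono (by norm_num) a2)
    obtain ⟨y, f1, f2, f3⟩ := (h3 _).ex b1 (FD_mono (by norm_num) b2)
    have r := fun w => raise_of_step hc fun k v => hM.step hC (wG_UG hEA hLU w) k (v := v)
    have hv := ext_val hc (h3 _).1 (h3 _).1 (r _) (r _) e2 f2 e3 f3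
    have h4 := congrFun hx 1
    rw [co, map_one, Module.End.one_apply, LinearMap.comp_apply, LinearMap.comp_apply, hv, map_smul,
      Submodule.subtype_apply, hch, map_smul, LinearMap.proj_apply] at h4
    rw [← e1] at a1 a2 a3
    rw [← f1] at b1 b2 b3
    exact smul_ne_zero (by norm_num) (Cf_ne a1 b1 a2 b2 a3 b3) h4.symm
  · have hf' := R.JF_co hf
    have h5 := hM'.kill R.ch.bridge (D := ⁅wG E' L' [0, 0, 0], wG E' L' [0, 1, 2]⁆)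
      (by rw [M'.map_lie, h1, h1]; exact wG_comm he ⟨t1, t2, t3⟩)
      ⟨pb f.1, OG_comp pr5 (fun _ => JF_one.1) f.2⟩ hf'
    have h6 := ((h2 [0, 0, 0]).lie (h2 [0, 1, 2])) f ⟨_, OG_comp pr5 (fun _ => JF_one.1) f.2⟩ rfl
    rw [x2]
    exact Subtype.ext (pb_inj (h6.symm.trans (congrArg Subtype.val h5)))

end Pool.Agent.Lib.MP_f9c34c_al.G
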