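import Pool.Agent.Lib.MP_f9c34c_al.G.Frame

/-! The differential of a representation. -/

namespace Pool.Agent.Lib.MP_f9c34c_al.G

attribute [local instance 100] LieRing.ofAssociativeRing

variable {Γ : Type} [Group Γ] {A : Subalgebra ℚ (Γ → ℚ)}
  {E : Type} [AddCommGroup E] [Module ℚ E] {σ : Γ →* Module.End ℚ E}

/-- `M` is the differential of `σ`. -/
def IsM (σ : Γ →* Module.End ℚ E) (M : LG A →ₗ⁅ℚ⁆ Module.End ℚ E) : Prop :=
  ∀ (D : LG A) (f : OG A) (l : E →ₗ[ℚ] ℚ) (v : E), f.1 = co σ l v → (D.1 f).1 = co σ l (M D v)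

lemma fr2_ext {a b : E} (h : ∀ l : E →ₗ[ℚ] ℚ, l a = l b) : a = b := by
  rw [← sub_eq_zero, ← Module.forall_dual_apply_eq_zero_iff ℚ]
  intro l
  rw [map_sub, h l, sub_self]

lemma fr2_co_one (σ : Γ →* Module.End ℚ E) (l : E →ₗ[ℚ] ℚ) (v : E) : co σ l v 1 = l v := by
  simp [co]

/-- A matrix coefficient is linear in the vector. -/
def fr2_coL (σ : Γ →* Module.End ℚ E) (l : E →ₗ[ℚ] ℚ) : E →ₗ[ℚ] (Γ → ℚ) where
  toFun v := co σ l v
  map_add' v w := by ext g; simp [co]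
  map_smul' c v := by ext g; simp [co]

lemma fr2_coL_Rt (σ : Γ →* Module.End ℚ E) (l : E →ₗ[ℚ] ℚ) (γ : Γ) (v : E) :
    fr2_coL σ l (σ γ v) = Rt γ (fr2_coL σ l v) := by
  ext g
  simp [fr2_coL, co]

/-- The matrix coefficients as a bilinear map to the coordinate ring. -/
def fr2_cO (h : ∀ l v, co σ l v ∈ OG A) : E →ₗ[ℚ] (E →ₗ[ℚ] ℚ) →ₗ[ℚ] OG A :=
  LinearMap.mk₂ ℚ (fun v l => ⟨co σ l v, h l v⟩)
    (fun v w l => Subtype.ext (by ext g; simp [co]))
    (fun c v l => Subtype.ext (by ext g; simp [co]))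
    (fun v l l' => Subtype.ext (by ext g; simp [co]))
    (fun c v l => Subtype.ext (by ext g; simp [co]))

lemma fr2_exists [FiniteDimensional ℚ E] (h : ∀ l v, co σ l v ∈ OG A) (D : LG A) (v : E) :
    ∃ w : E, ∀ l : E →ₗ[ℚ] ℚ, l w = (D.1 (fr2_cO h v l)).1 1 := by
  let φ : Module.Dual ℚ (Module.Dual ℚ E) :=
    { toFun := fun l => (D.1 (fr2_cO h v l)).1 1
      map_add' := fun l l' => by simp
      map_smul' := fun c l => by simp }
  refine ⟨(Module.evalEquiv ℚ E).symm φ, fun l => ?_⟩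
  exact Module.apply_evalEquiv_symm_apply ℚ E l φ

theorem exists_M [FiniteDimensional ℚ E] (h : ∀ l v, co σ l v ∈ OG A) :
    ∃ M : LG A →ₗ⁅ℚ⁆ Module.End ℚ E, IsM σ M := by
  choose m hm using fr2_exists h
  have key : ∀ (D : LG A) (l : E →ₗ[ℚ] ℚ) (v : E),
      D.1 (fr2_cO h v l) = fr2_cO h (m D v) l := by
    intro D l v
    refine Subtype.ext (funext fun g => ?_)
    have h1 := D.2 g (fr2_cO h v l) (fr2_cO h v (l ∘ₗ σ g)) (fun x => by
      show co σ (l ∘ₗ σ g) v x = co σ l v (g * x)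
      simp [co]) 1
    rw [mul_one, ← hm] at h1
    exact h1.symm
  let m1 : LG A → Module.End ℚ E := fun D =>
    { toFun := m D
      map_add' := fun v w => fr2_ext fun l => by
        rw [map_add, hm, hm, hm]
        simp
      map_smul' := fun c v => fr2_ext fun l => by
        rw [map_smul, hm, hm]
        simp }
  have hm1 : ∀ D v, m1 D v = m D v := fun _ _ => rfl
  refine ⟨{ toFun := m1
            map_add' := fun D D' => LinearMap.ext fun v => fr2_ext fun l => ?_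
            map_smul' := fun c D => LinearMap.ext fun v => fr2_ext fun l => ?_
            map_lie' := fun {D D'} => LinearMap.ext fun v => fr2_ext fun l => ?_ }, ?_⟩
  · rw [LinearMap.add_apply, map_add, hm1, hm1, hm1, hm, hm, hm]
    simp
  · rw [LinearMap.smul_apply, map_smul, hm1, hm1, hm, hm]
    simp
  · show l (m ⁅D, D'⁆ v) = l (m D (m D' v) - m D' (m D v))
    rw [map_sub, hm, hm D, hm D', ← key, ← key]
    simp [Derivation.commutator_apply]
  · intro D f l v e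
    have h1 : f = fr2_cO h v l := Subtype.ext e
    rw [h1, key]
    rfl

variable {M : LG A →ₗ⁅ℚ⁆ Module.End ℚ E}

lemma IsM.lg [FiniteDimensional ℚ E] (hM : IsM σ M) (h : ∀ l v, co σ l v ∈ OG A) {γ : Γ}
    (hγ : ∀ f ∈ A, UA (Rt γ) f) {D : LG A} (hD : ∀ f : OG A, (D.1 f).1 = lgp (Rt γ) f.1) (v : E) :
    UA (σ γ) v ∧ M D v = lgp (σ γ) v := by
  have hu : UA (σ γ) v := by
    let b := Module.finBasis ℚ E
    choose k hk using fun i => OG_UA hγ (h (b.coord i) v)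
    refine ⟨∑ i, k i, b.forall_coord_eq_zero_iff.1 fun i => ?_⟩
    have h1 := log_pow_zero (hk i)
      (Finset.single_le_sum (f := k) (fun _ _ => Nat.zero_le _) (Finset.mem_univ i))
    have h2 := log_sub_map (fr2_coL σ (b.coord i)) (fr2_coL_Rt σ (b.coord i) γ) (∑ i, k i) v
    have h3 : fr2_coL σ (b.coord i) (((σ γ - 1) ^ ∑ i, k i) v) = 0 := h2.trans h1
    rw [← fr2_co_one σ]
    exact congrFun h3 1
  refine ⟨hu, fr2_ext fun l => ?_⟩
  have h1 := hM D ⟨co σ l v, h l v⟩ l v rfl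
  have h2 := lgp_map (fr2_coL σ l) (fr2_coL_Rt σ l γ) hu
  rw [hD] at h1
  rw [← fr2_co_one σ, ← fr2_co_one σ l (lgp _ _), ← h1]
  exact (congrFun h2 1).symm

lemma IsM.step [FiniteDimensional ℚ E] (hM : IsM σ M) {n : ℕ} {F : ℕ → Submodule ℚ E}
    (h : Ch A σ n F) {D : LG A} (hD : D.1 ∈ UG A) (k : ℕ) {v : E} (hv : v ∈ F k) :
    M D v ∈ F (k + 1) := by
  rw [← Subspace.forall_mem_dualAnnihilator_apply_eq_zero_iff]
  intro l hl
  rw [Submodule.mem_dualAnnihilator] at hl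
  have h1 := hM D ⟨co σ l v, h.bridge l v⟩ l v rfl
  rw [hD.2 _ (h.gr k v hv l hl)] at h1
  rw [← fr2_co_one σ, ← h1]
  rfl

lemma fr2_lcs [FiniteDimensional ℚ E] (hM : IsM σ M) {n : ℕ} {F : ℕ → Submodule ℚ E}
    (h : Ch A σ n F) (j : ℕ) : ∀ η : UG A,
      η ∈ LieModule.lowerCentralSeries ℚ (UG A) (UG A) j → ∀ k, ∀ v ∈ F k,
        M ⟨η.1, η.2.1⟩ v ∈ F (k + j + 1) := by
  induction j with
  | zero => exact fun η _ k v hv => hM.step h η.2 k hv
  | succ j ih =>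
    intro η hη
    rw [LieModule.lowerCentralSeries_succ, ← LieSubmodule.mem_toSubmodule,
      LieSubmodule.lieIdeal_oper_eq_linear_span'] at hη
    induction hη using Submodule.span_induction with
    | mem x hx =>
      obtain ⟨a, -, b, hb, rfl⟩ := hx
      intro k v hv
      have e : (⟨(⁅a, b⁆ : UG A).1, (⁅a, b⁆ : UG A).2.1⟩ : LG A) =
          ⁅(⟨a.1, a.2.1⟩ : LG A), (⟨b.1, b.2.1⟩ : LG A)⁆ := rfl
      rw [e, LieHom.map_lie, Ring.lie_def, LinearMap.sub_apply, Module.End.mul_apply,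
        Module.End.mul_apply]
      refine Submodule.sub_mem _ (hM.step h a.2 _ (ih b hb k v hv)) ?_
      have h1 := ih b hb (k + 1) _ (hM.step (D := ⟨a.1, a.2.1⟩) h a.2 k hv)
      rwa [show k + 1 + j + 1 = k + (j + 1) + 1 by ring] at h1
    | zero =>
      intro k v _
      have e : (⟨(0 : UG A).1, (0 : UG A).2.1⟩ : LG A) = 0 := rfl
      rw [e, map_zero, LinearMap.zero_apply]
      exact Submodule.zero_mem _
    | add x y _ _ hx hy =>
      intro k v hv
      have e : (⟨(x + y).1, (x + y).2.1⟩ : LG A) = ⟨x.1, x.2.1⟩ + ⟨y.1, y.2.1⟩ := rfl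
      rw [e, map_add, LinearMap.add_apply]
      exact Submodule.add_mem _ (hx k v hv) (hy k v hv)
    | smul c x _ hx =>
      intro k v hv
      have e : (⟨(c • x).1, (c • x).2.1⟩ : LG A) = c • (⟨x.1, x.2.1⟩ : LG A) := rfl
      rw [e, map_smul, LinearMap.smul_apply]
      exact Submodule.smul_mem _ _ (hx k v hv)

/-- The term of the lower central series beyond the length of the filtration kills the
coefficients. -/
theorem Ch.lcs [FiniteDimensional ℚ E] {n : ℕ} {F : ℕ → Submodule ℚ E} (h : Ch A σ (n + 1) F)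
    {η : UG A} (hη : η ∈ LieModule.lowerCentralSeries ℚ (UG A) (UG A) n) (f : OG A)
    {l : E →ₗ[ℚ] ℚ} {v : E} (e : f.1 = co σ l v) : η.1 f = 0 := by
  obtain ⟨M, hM⟩ := exists_M (A := A) (σ := σ) h.bridge
  have h1 := fr2_lcs hM h n η hη 0 v (by rw [h.top]; exact Submodule.mem_top)
  rw [zero_add, h.bot, Submodule.mem_bot] at h1
  have h2 := hM ⟨η.1, η.2.1⟩ f l v e
  rw [h1] at h2
  refine Subtype.ext (h2.trans ?_)
  ext g
  simp [co]

lemma IsM.kill (hM : IsM σ M) (h : ∀ l v, co σ l v ∈ OG A) {D : LG A} (hD : M D = 0) (f : OG A)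
    (hf : f.1 ∈ Algebra.adjoin ℚ {φ | ∃ l v, φ = co σ l v}) : D.1 f = 0 := by
  have key : ∀ x ∈ Algebra.adjoin ℚ {φ | ∃ l v, φ = co σ l v},
      ∃ y : OG A, y.1 = x ∧ D.1 y = 0 := by
    intro x hx
    induction hx using Algebra.adjoin_induction with
    | mem x hx =>
      obtain ⟨l, v, rfl⟩ := hx
      refine ⟨⟨co σ l v, h l v⟩, rfl, Subtype.ext ?_⟩
      rw [hM D ⟨co σ l v, h l v⟩ l v rfl, hD]
      ext g
      simp [co]
    | algebraMap c => exact ⟨algebraMap ℚ _ c, rfl, Derivation.map_algebraMap _ c⟩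
    | add x y _ _ hx hy =>
      obtain ⟨a, rfl, ha⟩ := hx
      obtain ⟨b, rfl, hb⟩ := hy
      exact ⟨a + b, rfl, by rw [map_add, ha, hb, add_zero]⟩
    | mul x y _ _ hx hy =>
      obtain ⟨a, rfl, ha⟩ := hx
      obtain ⟨b, rfl, hb⟩ := hy
      exact ⟨a * b, rfl, by rw [Derivation.leibniz, ha, hb, smul_zero, smul_zero, add_zero]⟩
  obtain ⟨y, hy, hy0⟩ := key _ hf
  rwa [Subtype.ext hy] at hy0

end Pool.Agent.Lib.MP_f9c34c_al.G
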