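import Pool.Agent.Lib.MP_f9c34c_al.G.Exp

/-! Lie algebras graded by the eigenspaces of an element. -/

namespace Pool.Agent.Lib.MP_f9c34c_al.G

attribute [local instance 100] LieRing.ofAssociativeRing

variable {L : Type} [LieRing L] [LieAlgebra ℚ L]

/-- The eigenspaces of the adjoint action of `e`. -/
def eig (e : L) (d : ℕ) : Submodule ℚ L where
  carrier := {x | ⁅e, x⁆ = (d : ℚ) • x}
  add_mem' {x y} hx hy := by
    change _ = _ at hx hy ⊢
    rw [lie_add, hx, hy, smul_add]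
  zero_mem' := by simp
  smul_mem' c x hx := by
    change _ = _ at hx ⊢
    rw [lie_smul, hx, smul_comm]

/-- The filtration. -/
def GF (e : L) (k : ℕ) : Submodule ℚ L := ⨆ d ∈ Finset.Ico k 17, eig e d

/-- Operators raising the filtration by `k`. -/
def Raise (e : L) (k : ℕ) : Submodule ℚ (Module.End ℚ L) where
  carrier := {φ | ∀ d, ∀ x ∈ GF e d, φ x ∈ GF e (d + k)}
  add_mem' h h' d x hx := add_mem (h d x hx) (h' d x hx)
  zero_mem' _ _ _ := zero_mem _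
  smul_mem' c _ h d x hx := Submodule.smul_mem _ c (h d x hx)

/-- Endomorphisms of a Lie algebra among the linear maps. -/
def IsL (φ : Module.End ℚ L) : Prop := ∀ x y, φ ⁅x, y⁆ = ⁅φ x, φ y⁆

/-- Derivations of a Lie algebra among the linear maps. -/
def IsD (φ : Module.End ℚ L) : Prop := ∀ x y, φ ⁅x, y⁆ = ⁅φ x, y⁆ + ⁅x, φ y⁆

variable {e : L}

lemma mem_eig {d : ℕ} {x : L} : x ∈ eig e d ↔ ⁅e, x⁆ = (d : ℚ) • x := Iff.rfl

lemma mem_Raise {k : ℕ} {φ : Module.End ℚ L} :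
    φ ∈ Raise e k ↔ ∀ d, ∀ x ∈ GF e d, φ x ∈ GF e (d + k) := Iff.rfl

lemma GF_le_iff {k : ℕ} {S : Submodule ℚ L} :
    GF e k ≤ S ↔ ∀ d, k ≤ d → d < 17 → eig e d ≤ S := by
  simp only [GF, iSup_le_iff, Finset.mem_Ico, and_imp]

lemma eig_lie {i j : ℕ} {x y : L} (hx : x ∈ eig e i) (hy : y ∈ eig e j) :
    ⁅x, y⁆ ∈ eig e (i + j) := by
  rw [mem_eig] at hx hy ⊢
  rw [leibniz_lie, hx, hy, smul_lie, lie_smul, Nat.cast_add, add_smul]

lemma eig_le_GF {k d : ℕ} (h : k ≤ d) (h' : d < 17) : eig e d ≤ GF e k :=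
  GF_le_iff.1 le_rfl d h h'

lemma GF_mono {k j : ℕ} (h : k ≤ j) : GF e j ≤ GF e k :=
  GF_le_iff.2 fun _ h1 h2 => eig_le_GF (h.trans h1) h2

lemma GF_top {k : ℕ} (h : 17 ≤ k) : GF e k = ⊥ :=
  le_bot_iff.1 (GF_le_iff.2 fun d h1 h2 => by omega)

lemma GF_succ {k : ℕ} (h : k < 17) : GF e k = eig e k ⊔ GF e (k + 1) := by
  apply le_antisymm
  · refine GF_le_iff.2 fun d h1 h2 => ?_
    rcases h1.eq_or_lt with rfl | h3
    · exact le_sup_left
    · exact (eig_le_GF h3 h2).trans le_sup_right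
  · exact sup_le (eig_le_GF le_rfl h) (GF_mono (Nat.le_succ k))

lemma eig_eq (d : ℕ) :
    eig e d = Module.End.eigenspace (LieAlgebra.ad ℚ L e) (d : ℚ) := by
  ext x
  rw [Module.End.mem_eigenspace_iff, mem_eig, LieAlgebra.ad_apply]

lemma eig_indep {d k : ℕ} (h : d < k ∨ 17 ≤ d) {x : L} (hx : x ∈ eig e d) (hx' : x ∈ GF e k) :
    x = 0 := by
  have h1 := Module.End.eigenspaces_iSupIndep (LieAlgebra.ad ℚ L e) (d : ℚ)
  rw [← eig_eq] at h1
  refine (Submodule.disjoint_def.1 h1) x hx ?_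
  refine (GF_le_iff.2 fun j h2 h3 => ?_ : GF e k ≤ _) hx'
  rw [eig_eq]
  refine le_iSup₂_of_le (j : ℚ) ?_ le_rfl
  intro h4
  have : j = d := by exact_mod_cast h4
  omega

lemma eig_top (hG : GF e 0 = ⊤) {d : ℕ} (h : 17 ≤ d) : eig e d = ⊥ := by
  rw [eq_bot_iff]
  intro x hx
  exact eig_indep (k := 0) (Or.inr h) hx (hG ▸ Submodule.mem_top)

lemma eig_inf_GF {d k : ℕ} (h : d < k) {x : L} (hx : x ∈ eig e d) (hx' : x ∈ GF e k) : x = 0 :=
  eig_indep (Or.inl h) hx hx'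

lemma eig_le_GF' (hG : GF e 0 = ⊤) {k d : ℕ} (h : k ≤ d) : eig e d ≤ GF e k := by
  rcases lt_or_ge d 17 with h' | h'
  · exact eig_le_GF h h'
  · rw [eig_top hG h']
    exact bot_le

lemma mem_GF_zero (hG : GF e 0 = ⊤) (x : L) : x ∈ GF e 0 := hG ▸ Submodule.mem_top

lemma GF_lie (hG : GF e 0 = ⊤) {i j : ℕ} {x y : L} (hx : x ∈ GF e i) (hy : y ∈ GF e j) :
    ⁅x, y⁆ ∈ GF e (i + j) := by
  have h1 : GF e i ≤ (GF e (i + j)).comap ((LieAlgebra.ad ℚ L).toLinearMap.flip y) := by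
    refine GF_le_iff.2 fun a ha _ u hu => ?_
    have h2 : GF e j ≤ (GF e (i + j)).comap (LieAlgebra.ad ℚ L u) := by
      refine GF_le_iff.2 fun b hb _ v hv => ?_
      exact eig_le_GF' hG (Nat.add_le_add ha hb) (eig_lie hu hv)
    exact h2 hy
  exact h1 hx

lemma Raise_mul {i j : ℕ} {φ ψ : Module.End ℚ L} (h : φ ∈ Raise e i) (h' : ψ ∈ Raise e j) :
    φ * ψ ∈ Raise e (i + j) := by
  intro d x hx
  have := h _ _ (h' d x hx)
  rwa [add_assoc, add_comm j i] at this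

lemma Raise_mono {k j : ℕ} (h : k ≤ j) : Raise e j ≤ Raise e k :=
  fun _ hφ d x hx => GF_mono (Nat.add_le_add_left h d) (hφ d x hx)

lemma Raise_one : (1 : Module.End ℚ L) ∈ Raise e 0 := fun _ _ hx => hx

lemma Raise_pow {φ : Module.End ℚ L} (h : φ ∈ Raise e 1) (n : ℕ) : φ ^ n ∈ Raise e n := by
  induction n with
  | zero => simpa using Raise_one
  | succ n ih =>
    rw [pow_succ]
    exact Raise_mul ih h

lemma Raise_nil (hG : GF e 0 = ⊤) {φ : Module.End ℚ L} (h : φ ∈ Raise e 1) : IsNilpotent φ := by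
  refine ⟨17, ?_⟩
  ext x
  have := Raise_pow h 17 0 x (mem_GF_zero hG x)
  rw [GF_top (by omega)] at this
  simpa using this

lemma Raise_ad (hG : GF e 0 = ⊤) {k : ℕ} {y : L} (hy : y ∈ GF e k) :
    LieAlgebra.ad ℚ L y ∈ Raise e k := by
  intro d x hx
  rw [LieAlgebra.ad_apply, add_comm]
  exact GF_lie hG hy hx

lemma Raise_of_eig {k : ℕ} {φ : Module.End ℚ L}
    (h : ∀ d < 17, ∀ x ∈ eig e d, φ x ∈ GF e (d + k)) : φ ∈ Raise e k := by
  intro d x hx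
  have h1 : GF e d ≤ (GF e (d + k)).comap φ :=
    GF_le_iff.2 fun j h2 h3 u hu => GF_mono (Nat.add_le_add_right h2 k) (h j h3 u hu)
  exact h1 hx

lemma ext_eig (hG : GF e 0 = ⊤) {N : Type} [AddCommGroup N] [Module ℚ N] {φ ψ : L →ₗ[ℚ] N}
    (h : ∀ d < 17, ∀ x ∈ eig e d, φ x = ψ x) : φ = ψ := by
  have h1 : GF e 0 ≤ LinearMap.eqLocus φ ψ := GF_le_iff.2 fun j _ h3 u hu => h j h3 u hu
  ext x
  exact h1 (mem_GF_zero hG x)

lemma IsL.eig {φ : Module.End ℚ L} (h : IsL φ) (he : φ e = e) {d : ℕ} {x : L} (hx : x ∈ eig e d) :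
    φ x ∈ eig e d := by
  rw [mem_eig] at hx ⊢
  have := h e x
  rw [he, hx, map_smul] at this
  exact this.symm

lemma IsL.raise {φ : Module.End ℚ L} (h : IsL φ) (he : φ e = e) : φ ∈ Raise e 0 :=
  Raise_of_eig fun _ hd _ hx => eig_le_GF le_rfl hd (h.eig he hx)

lemma IsL.mul {φ ψ : Module.End ℚ L} (h : IsL φ) (h' : IsL ψ) : IsL (φ * ψ) := by
  intro x y
  simp only [Module.End.mul_apply]
  rw [h' x y, h]

lemma gr_inv_apply (φ : (Module.End ℚ L)ˣ) (x : L) : (φ⁻¹).1 (φ.1 x) = x := by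
  rw [← Module.End.mul_apply, Units.inv_mul, Module.End.one_apply]

lemma gr_apply_inv (φ : (Module.End ℚ L)ˣ) (x : L) : φ.1 ((φ⁻¹).1 x) = x := by
  rw [← Module.End.mul_apply, Units.mul_inv, Module.End.one_apply]

lemma IsL.inv {φ : (Module.End ℚ L)ˣ} (h : IsL φ.1) : IsL (φ⁻¹).1 := by
  intro x y
  have := h ((φ⁻¹).1 x) ((φ⁻¹).1 y)
  rw [gr_apply_inv, gr_apply_inv] at this
  rw [← this, gr_inv_apply]

lemma IsD.lie {φ ψ : Module.End ℚ L} (h : IsD φ) (h' : IsD ψ) : IsD ⁅φ, ψ⁆ := by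
  intro x y
  simp only [Ring.lie_def, LinearMap.sub_apply, Module.End.mul_apply]
  rw [h x y, h' x y, map_add, map_add, h, h, h', h', sub_lie, lie_sub]
  abel

lemma isD_ad (y : L) : IsD (LieAlgebra.ad ℚ L y) := by
  intro a b
  simp only [LieAlgebra.ad_apply]
  exact leibniz_lie y a b

lemma IsD.exp {φ : Module.End ℚ L} (h : IsD φ) (hn : IsNilpotent φ) :
    IsL (IsNilpotent.exp φ) := by
  intro x y
  let D : LieDerivation ℚ L L :=
    { toLinearMap := φ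
      leibniz' := fun a b => by rw [h a b, ← lie_skew (φ a) b]; abel }
  exact (D.exp hn).map_lie x y

lemma Raise_exp (hG : GF e 0 = ⊤) {φ : Module.End ℚ L} (h : φ ∈ Raise e 1) :
    IsNilpotent.exp φ - 1 ∈ Raise e 1 := by
  intro d x hx
  exact exp_sub_mem (Raise_nil hG h)
    (fun y hy => GF_mono (Nat.le_succ _) (h _ y hy)) (h d x hx)

lemma Raise_inv_zero (hG : GF e 0 = ⊤) {φ ψ : (Module.End ℚ L)ˣ} (h : φ.1 - ψ.1 ∈ Raise e 1)
    (h1 : (ψ⁻¹).1 ∈ Raise e 0) : (φ⁻¹).1 ∈ Raise e 0 := by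
  intro d x hx
  have key : ∀ j ≤ d, (φ⁻¹).1 x ∈ GF e j := by
    intro j
    induction j with
    | zero => exact fun _ => mem_GF_zero hG _
    | succ j ih =>
      intro hj
      have h2 := h j _ (ih (by omega))
      rw [LinearMap.sub_apply, gr_apply_inv] at h2
      have h3 : ψ.1 ((φ⁻¹).1 x) ∈ GF e (j + 1) := by
        have := sub_mem (GF_mono hj hx) h2
        rwa [sub_sub_cancel] at this
      have h4 := h1 _ _ h3
      rwa [gr_inv_apply] at h4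
  exact key d le_rfl

/-- A unit congruent to a filtered unit has an inverse congruent to its inverse. -/
lemma Raise_inv (hG : GF e 0 = ⊤) {φ ψ : (Module.End ℚ L)ˣ} (h : φ.1 - ψ.1 ∈ Raise e 1)
    (h0 : ψ.1 ∈ Raise e 0) (h1 : (ψ⁻¹).1 ∈ Raise e 0) : (φ⁻¹).1 - (ψ⁻¹).1 ∈ Raise e 1 := by
  have _h0 := h0
  have h2 := Raise_mul (Raise_mul h1 h) (Raise_inv_zero hG h h1)
  have h3 : (φ⁻¹).1 - (ψ⁻¹).1 = -((ψ⁻¹).1 * (φ.1 - ψ.1) * (φ⁻¹).1) := by
    rw [mul_sub, sub_mul, mul_assoc, Units.mul_inv, Units.inv_mul, mul_one, one_mul, neg_sub]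
  rw [h3]
  exact neg_mem h2

/-- Rigidity. -/
theorem rigid (hG : GF e 0 = ⊤) {φ : Module.End ℚ L} (h : IsL φ) (h1 : φ - 1 ∈ Raise e 1)
    (he : φ e = e) : φ = 1 := by
  refine ext_eig hG fun d hd x hx => ?_
  have h2 := h1 d x (eig_le_GF le_rfl hd hx)
  exact sub_eq_zero.1 (eig_inf_GF (Nat.lt_succ_self d) (sub_mem (h.eig he hx) hx) h2)

lemma ad_surj {z : L} (hz : z ∈ GF e 1) : ∃ y ∈ GF e 1, ⁅e, y⁆ = z := by
  have h1 : GF e 1 ≤ (GF e 1).map (LieAlgebra.ad ℚ L e) := by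
    refine GF_le_iff.2 fun d h2 h3 u hu => ?_
    refine ⟨(d : ℚ)⁻¹ • u, Submodule.smul_mem _ _ (eig_le_GF h2 h3 hu), ?_⟩
    have h4 : (d : ℚ) ≠ 0 := by exact_mod_cast (by omega : d ≠ 0)
    rw [map_smul, LieAlgebra.ad_apply, mem_eig.1 hu, smul_smul, inv_mul_cancel₀ h4, one_smul]
  exact h1 hz

/-- Derivations raising the filtration are inner. -/
theorem inner_der (hG : GF e 0 = ⊤) {φ : Module.End ℚ L} (h : IsD φ) (h1 : φ ∈ Raise e 1) :
    ∃ y ∈ GF e 1, φ = LieAlgebra.ad ℚ L y := by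
  obtain ⟨y, hy, hy'⟩ := ad_surj (neg_mem (h1 0 e (mem_GF_zero hG e)))
  refine ⟨y, hy, ext_eig hG fun d hd x hx => ?_⟩
  have h2 : φ x - ⁅y, x⁆ ∈ GF e (d + 1) :=
    sub_mem (h1 d x (eig_le_GF le_rfl hd hx)) (Raise_ad hG hy d x (eig_le_GF le_rfl hd hx))
  have h3 : φ x - ⁅y, x⁆ ∈ eig e d := by
    rw [mem_eig] at hx ⊢
    have h4 := h e x
    rw [hx, map_smul] at h4
    rw [lie_sub, leibniz_lie e y x, hy', hx, lie_smul, smul_sub, h4, neg_lie]
    abel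
  exact sub_eq_zero.1 (eig_inf_GF (Nat.lt_succ_self d) h3 h2)

lemma lie_sub_mem {k : ℕ} {x : L} (hx : x ∈ GF e k) : ⁅e, x⁆ - (k : ℚ) • x ∈ GF e (k + 1) := by
  have h1 : GF e k ≤ (GF e (k + 1)).comap (LieAlgebra.ad ℚ L e - (k : ℚ) • 1) := by
    refine GF_le_iff.2 fun d h2 h3 u hu => ?_
    change ⁅e, u⁆ - (k : ℚ) • u ∈ GF e (k + 1)
    rw [mem_eig.1 hu]
    rcases h2.eq_or_lt with rfl | h4
    · rw [sub_self]
      exact zero_mem _
    · rw [← sub_smul]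
      exact Submodule.smul_mem _ _ (eig_le_GF h4 h3 hu)
  exact h1 hx

/-- Transitivity on the translates of `e`. -/
theorem transit (hG : GF e 0 = ⊤) {M : Submodule ℚ L} (h1 : M ≤ GF e 1)
    (hl : ∀ x ∈ M, ∀ y ∈ M, ⁅x, y⁆ ∈ M) (he : ∀ x ∈ M, ⁅e, x⁆ ∈ M) {m : L} (hm : m ∈ M) :
    ∃ ys : List L, (∀ y ∈ ys, y ∈ M) ∧
      (expL (ys.map (LieAlgebra.ad ℚ L))).1 e = e + m := by
  have key : ∀ k : ℕ, ∃ ys : List L, (∀ y ∈ ys, y ∈ M) ∧ ∃ δ ∈ M, δ ∈ GF e (k + 1) ∧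
      (expL (ys.map (LieAlgebra.ad ℚ L))).1 e = e + m - δ := by
    intro k
    induction k with
    | zero => exact ⟨[], by simp, m, hm, h1 hm, by simp [expL_nil]⟩
    | succ k ih =>
      obtain ⟨ys, hys, δ, hδ, hδ', hu⟩ := ih
      have hk : ((k + 1 : ℕ) : ℚ) ≠ 0 := by exact_mod_cast Nat.succ_ne_zero k
      set y : L := -(((k + 1 : ℕ) : ℚ)⁻¹ • δ) with hydef
      have hyM : y ∈ M := neg_mem (M.smul_mem _ hδ)
      have hyG : y ∈ GF e (k + 1) := neg_mem (Submodule.smul_mem _ _ hδ')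
      have hR : LieAlgebra.ad ℚ L y ∈ Raise e 1 := Raise_ad hG (h1 hyM)
      have hn := Raise_nil hG hR
      set u : L := e + m - δ with hudef
      have hyu : ⁅y, u⁆ = -⁅e, y⁆ + ⁅y, m - δ⁆ := by
        rw [hudef, add_sub_assoc, lie_add, lie_skew]
      have a1 : IsNilpotent.exp (LieAlgebra.ad ℚ L y) u - u ∈ M := by
        refine exp_sub_mem hn (fun z hz => hl y hyM z hz) ?_
        rw [LieAlgebra.ad_apply, hyu]
        exact add_mem (neg_mem (he y hyM)) (hl y hyM _ (sub_mem hm hδ))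
      have a2 : IsNilpotent.exp (LieAlgebra.ad ℚ L y) u - u - ⁅y, u⁆ ∈ GF e (k + 1 + 1) := by
        refine exp_sub_sub_mem hn (fun z hz => GF_mono (Nat.le_succ _) (hR _ z hz)) ?_
        refine hR _ _ ?_
        have := GF_lie hG hyG (mem_GF_zero hG u)
        exact this
      have a3 : δ + ⁅e, y⁆ ∈ GF e (k + 1 + 1) := by
        have h2 := lie_sub_mem hyG
        have h3 : ((k + 1 : ℕ) : ℚ) • y = -δ := by
          rw [hydef, smul_neg, smul_smul, mul_inv_cancel₀ hk, one_smul]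
        rwa [h3, sub_neg_eq_add, add_comm _ δ] at h2
      have a4 : ⁅y, m - δ⁆ ∈ GF e (k + 1 + 1) := GF_lie hG hyG (h1 (sub_mem hm hδ))
      refine ⟨y :: ys, ?_, δ - (IsNilpotent.exp (LieAlgebra.ad ℚ L y) u - u), sub_mem hδ a1, ?_, ?_⟩
      · intro z hz
        rcases List.mem_cons.1 hz with rfl | hz
        · exact hyM
        · exact hys z hz
      · have h5 := sub_mem (sub_mem a3 a4) a2
        rw [hyu] at h5
        have h6 : δ - (IsNilpotent.exp (LieAlgebra.ad ℚ L y) u - u) =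
            δ + ⁅e, y⁆ - ⁅y, m - δ⁆ -
              (IsNilpotent.exp (LieAlgebra.ad ℚ L y) u - u - (-⁅e, y⁆ + ⁅y, m - δ⁆)) := by abel
        rw [h6]
        exact h5
      · rw [List.map_cons, expL_cons, Units.val_mul, Module.End.mul_apply, hu, expU_val hn, hudef]
        abel
  obtain ⟨ys, hys, δ, -, hδ, hu⟩ := key 16
  rw [GF_top le_rfl, Submodule.mem_bot] at hδ
  exact ⟨ys, hys, by rw [hu, hδ, sub_zero]⟩

/-- Parity. -/
theorem parity (hG : GF e 0 = ⊤) {φ P : (Module.End ℚ L)ˣ} (hφ : IsL φ.1)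
    (hP : ∀ d, ∀ x ∈ eig e d, P.1 x = (-1 : ℚ) ^ d • x) (h : φ.1 - P.1 ∈ Raise e 1)
    (he : P.1 (φ.1 e) = φ.1 e) {x : L} (hx : φ.1 x = x) : P.1 x = x := by
  have hee : e ∈ eig e 0 := by rw [mem_eig]; simp
  have hPe : P.1 e = e := by simpa using hP 0 e hee
  have hPL : IsL P.1 := by
    intro a b
    have h1 : ((LieAlgebra.ad ℚ L).toLinearMap.compr₂ P.1 : L →ₗ[ℚ] L →ₗ[ℚ] L) =
        (LieAlgebra.ad ℚ L).toLinearMap.compl₁₂ P.1 P.1 := by
      refine ext_eig hG fun i _ u hu => ext_eig hG fun j _ v hv => ?_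
      change P.1 ⁅u, v⁆ = ⁅P.1 u, P.1 v⁆
      rw [hP _ _ (eig_lie hu hv), hP _ _ hu, hP _ _ hv, smul_lie, lie_smul, smul_smul, pow_add]
    exact LinearMap.congr_fun (LinearMap.congr_fun h1 a) b
  have hPP : P.1 * P.1 = 1 := by
    refine ext_eig hG fun i _ u hu => ?_
    rw [Module.End.mul_apply, hP _ _ hu, map_smul, hP _ _ hu, smul_smul, ← mul_pow]
    simp
  have hPi : (P⁻¹).1 = P.1 := by
    rw [← mul_one (P⁻¹).1, ← hPP, ← mul_assoc, Units.inv_mul, one_mul]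
  have hP0 : P.1 ∈ Raise e 0 := hPL.raise hPe
  have hφ0 : (φ⁻¹).1 ∈ Raise e 0 := Raise_inv_zero hG h (hPi ▸ hP0)
  have hψ : (φ⁻¹).1 * (P.1 * φ.1) * P.1 = 1 := by
    refine rigid hG ((hφ.inv.mul (hPL.mul hφ)).mul hPL) ?_ ?_
    · have h1 : (φ⁻¹).1 * (P.1 * φ.1) * P.1 - 1 =
          (φ⁻¹).1 * (P.1 * (φ.1 - P.1) - (φ.1 - P.1) * P.1) * P.1 := by
        have h2 : P.1 * (φ.1 - P.1) - (φ.1 - P.1) * P.1 = P.1 * φ.1 - φ.1 * P.1 := by
          rw [mul_sub, sub_mul]; abel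
        rw [h2, mul_sub, sub_mul, ← mul_assoc (φ⁻¹).1 φ.1, Units.inv_mul, one_mul, hPP]
      rw [h1]
      have b1 : P.1 * (φ.1 - P.1) ∈ Raise e 1 := by simpa using Raise_mul hP0 h
      have b2 : (φ.1 - P.1) * P.1 ∈ Raise e 1 := by simpa using Raise_mul h hP0
      have b3 := Raise_mul (Raise_mul hφ0 (sub_mem b1 b2)) hP0
      rwa [zero_add, add_zero] at b3
    · simp only [Module.End.mul_apply]
      rw [hPe, he, gr_inv_apply]
  have hc : ∀ z, P.1 (φ.1 z) = φ.1 (P.1 z) := by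
    intro z
    have h1 := LinearMap.congr_fun hψ (P.1 z)
    have h2 : P.1 (P.1 z) = z := LinearMap.congr_fun hPP z
    simp only [Module.End.mul_apply, Module.End.one_apply] at h1
    rw [h2] at h1
    rw [← h1, gr_apply_inv]
  have hPP' : ∀ z, P.1 (P.1 z) = z := fun z => LinearMap.congr_fun hPP z
  have hy : (φ.1 - P.1) (x - P.1 x) = (2 : ℚ) • (x - P.1 x) := by
    rw [LinearMap.sub_apply, map_sub, map_sub, ← hc, hx, hPP', two_smul]
    abel
  have key : ∀ k : ℕ, x - P.1 x ∈ GF e k := by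
    intro k
    induction k with
    | zero => exact mem_GF_zero hG _
    | succ k ih =>
      have h1 := h k _ ih
      rw [hy] at h1
      exact (Submodule.smul_mem_iff _ (by norm_num : (2 : ℚ) ≠ 0)).1 h1
  have h1 := key 17
  rw [GF_top le_rfl, Submodule.mem_bot] at h1
  exact (sub_eq_zero.1 h1).symm

end Pool.Agent.Lib.MP_f9c34c_al.G
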