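import Pool.Agent.Lib.MP_f9c34c_al.Main
import Pool.Agent.Lib.MP_f9c34c_al.G.ChkS

/-! Invariance of the alternating form on trees. -/

namespace Pool.Agent.Lib.MP_f9c34c_al.G

open Submodule Finset

attribute [local instance 100] LieRing.ofAssociativeRing

/-- Products of two Lie elements of total degree `2 * k + 4`. -/
noncomputable def TH (k : ℕ) : Submodule ℚ T2 :=
  span ℚ {s | ∃ m n, m + n = 2 * k + 2 ∧ ∃ y ∈ len gx m, ∃ z ∈ len gx n, s = y * z}

lemma inv_TH_mem {k m n : ℕ} (h : m + n = 2 * k + 2) {y z : T2} (hy : y ∈ len gx m)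
    (hz : z ∈ len gx n) : y * z ∈ TH k := subset_span ⟨m, n, h, y, hy, z, hz, rfl⟩

lemma inv_TH_le {k : ℕ} {S : Submodule ℚ T2} (h : ∀ m n, m + n = 2 * k + 2 → ∀ y ∈ len gx m,
    ∀ z ∈ len gx n, y * z ∈ S) : TH k ≤ S :=
  span_le.2 (by rintro _ ⟨m, n, e, y, hy, z, hz, rfl⟩; exact h m n e y hy z hz)

lemma TH_hom {k : ℕ} {s : T2} (hs : s ∈ TH k) : s ∈ Hom (Fin 2) (2 * k + 4) :=
  inv_TH_le (fun m n e y hy z hz => by
    have := Hom_mul (len_Hom m hy) (len_Hom n hz)
    rwa [show m + 1 + (n + 1) = 2 * k + 4 by omega] at this) hs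

lemma der_TH {D : Module.End ℚ T2} (hD : IsDer D) {l k : ℕ} (h : ∀ i, D (gx i) ∈ len gx (2 * l))
    {s : T2} (hs : s ∈ TH k) : D s ∈ TH (k + l) :=
  inv_TH_le (S := (TH (k + l)).comap D) (fun m n e y hy z hz => by
    rw [mem_comap, hD]
    exact add_mem (inv_TH_mem (by omega) (der_len hD.br h m hy) hz)
      (inv_TH_mem (by omega) hy (der_len hD.br h n hz))) hs

lemma inv_Y_len (a : Fin 3) (i : Fin 2) : Y a (gx i) ∈ len gx 2 := by
  rw [Y_eq]
  change der _ _ ∈ _
  rw [der_gx, Pi.single_apply]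
  split_ifs
  exacts [len_succ _ cc_len, zero_mem _]

lemma nn_TH (w : List (Fin 3)) : nn w ∈ TH w.length := by
  induction w with
  | nil => exact inv_TH_mem (m := 1) (n := 1) rfl cc_len cc_len
  | cons a w ih => exact der_TH (l := 1) (isDer_Y a) (inv_Y_len a) ih

/-- The images of the square of the commutator, up to commutators. -/
noncomputable def inv_CH (k : ℕ) : Submodule ℚ T2 where
  carrier := {s | ∃ D : Module.End ℚ T2, IsDer D ∧ (∀ i, D (gx i) ∈ len gx (2 * k)) ∧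
    s - D (nn []) ∈ Cm (Fin 2)}
  zero_mem' := ⟨0, IsDer.zero, fun _ => zero_mem _, by simp⟩
  add_mem' := by
    rintro s t ⟨D, h1, h2, h3⟩ ⟨D', k1, k2, k3⟩
    refine ⟨D + D', h1.add k1, fun i => add_mem (h2 i) (k2 i), ?_⟩
    have := add_mem h3 k3
    rwa [sub_add_sub_comm] at this
  smul_mem' := by
    rintro c s ⟨D, h1, h2, h3⟩
    refine ⟨c • D, h1.smul c, fun i => smul_mem _ c (h2 i), ?_⟩
    have := smul_mem _ c h3
    rwa [smul_sub] at this

lemma inv_CH_cm {k : ℕ} {s : T2} (h : s ∈ Cm (Fin 2)) : s ∈ inv_CH k :=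
  ⟨0, IsDer.zero, fun _ => zero_mem _, by simpa using h⟩

lemma inv_CH_der {k : ℕ} {D : Module.End ℚ T2} (hD : IsDer D)
    (h : ∀ i, D (gx i) ∈ len gx (2 * k)) : cc * D cc ∈ inv_CH k := by
  refine ⟨(1 / 2 : ℚ) • D, hD.smul _, fun i => smul_mem _ _ (h i), ?_⟩
  have := smul_mem _ (1 / 2 : ℚ) (cm_mem cc (D cc))
  rw [nn, LinearMap.smul_apply, hD]
  convert this using 1
  module

lemma inv_CH_cc {k : ℕ} {y : T2} (hy : y ∈ len gx (2 * k + 1)) : cc * y ∈ inv_CH k := by
  refine len_le (S := (inv_CH k).comap (LinearMap.mulLeft ℚ cc)) (fun j y hy => ?_) hy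
  rw [mem_comap, LinearMap.mulLeft_apply]
  fin_cases j
  · have := inv_CH_der (k := k) (isDer_der fun i : Fin 2 => if i = 0 then 0 else y) fun i => by
      rw [der_gx]
      split_ifs
      exacts [zero_mem _, hy]
    have e : der (fun i : Fin 2 => if i = 0 then 0 else y) cc = ⁅(gx 0 : T2), y⁆ := by
      rw [cc, (isDer_der _).br]
      simp
    rwa [e] at this
  · have := inv_CH_der (k := k) (isDer_der fun i : Fin 2 => if i = 0 then -y else 0) fun i => by
      rw [der_gx]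
      split_ifs
      exacts [neg_mem hy, zero_mem _]
    have e : der (fun i : Fin 2 => if i = 0 then -y else 0) cc = ⁅(gx 1 : T2), y⁆ := by
      rw [cc, (isDer_der _).br]
      simp
    rwa [e] at this

lemma inv_CH_gx {k : ℕ} (i : Fin 2) {y : T2} (hy : y ∈ len gx (2 * k + 2)) :
    gx i * y ∈ inv_CH k := by
  refine len_le (S := (inv_CH k).comap (LinearMap.mulLeft ℚ (gx i))) (fun j y hy => ?_) hy
  obtain ⟨r, h⟩ := mem_span_singleton.1 (len_cc (len_succ i (len_zero j)))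
  have := add_mem (smul_mem _ r (inv_CH_cc hy)) (inv_CH_cm (cm_mem (gx j) (gx i * y)))
  rw [← smul_mul_assoc, h] at this
  rw [mem_comap, LinearMap.mulLeft_apply]
  convert this using 1
  simp only [Ring.lie_def]
  noncomm_ring

lemma inv_CH_mul {k : ℕ} : ∀ (m n : ℕ), m + n = 2 * k + 2 → ∀ y ∈ len gx m, ∀ z ∈ len gx n,
    y * z ∈ inv_CH k
  | 0, n, e, y, hy, z, hz =>
    len_le0 (S := (inv_CH k).comap (LinearMap.mulRight ℚ z))
      (fun i => inv_CH_gx i (by rwa [← e, zero_add])) hy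
  | m + 1, n, e, y, hy, z, hz => by
    refine len_le (S := (inv_CH k).comap (LinearMap.mulRight ℚ z)) (fun i y hy => ?_) hy
    have := sub_mem (inv_CH_cm (cm_mem (gx i) (y * z)))
      (inv_CH_mul (k := k) m (n + 1) (by omega) y hy _ (len_succ i hz))
    rw [mem_comap, LinearMap.mulRight_apply]
    convert this using 1
    simp only [Ring.lie_def]
    noncomm_ring

/-- Every tree has a cherry. -/
lemma TH_cherry {k : ℕ} {s : T2} (hs : s ∈ TH k) : ∃ D : Module.End ℚ T2, IsDer D ∧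
    (∀ i, D (gx i) ∈ len gx (2 * k)) ∧ s - D (nn []) ∈ Cm (Fin 2) :=
  inv_TH_le (S := inv_CH k) inv_CH_mul hs

lemma TH_N {k : ℕ} {s : T2} (hs : s ∈ TH k) : s ∈ N k := by
  obtain ⟨D, h1, h2, h3⟩ := TH_cherry hs
  have h4 : D (nn []) ∈ N k := by
    rcases k with _ | k
    · obtain ⟨r, hr⟩ := mem_span_singleton.1 (len_cc (der_len h1.br h2 1 cc_len))
      have := smul_mem _ r (nn_N (k := 0) (w := []) rfl)
      have := add_mem this this
      rw [nn] at this ⊢
      rwa [h1, ← hr, smul_mul_assoc, mul_smul_comm]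
    · exact der_N1 h1 h2 (nn_N rfl)
  have := add_mem (cm_N h3) h4
  rwa [sub_add_cancel] at this

lemma der_N_all {D : Module.End ℚ T2} (hD : IsDer D) {l k : ℕ}
    (h : ∀ i, D (gx i) ∈ len gx (2 * l + 2)) {s : T2} (hs : s ∈ N k) : D s ∈ N (k + l + 1) := by
  by_cases hk : k ≤ 3
  · refine N_le' hk (S := (N (k + l + 1)).comap D) (fun y hy => cm_N (hD.cm hy))
      (fun w hw => ?_) hs
    subst hw
    exact TH_N (der_TH (l := l + 1) hD h (nn_TH w))
  · exact der_N hD h (by omega) hs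

/-- The trace. -/
noncomputable def es (D : Module.End ℚ T2) : T2 := ∑ i, (dL i (D (gx i)) - dR i (D (gx i)))

lemma inv_dL_one (x : Fin 2) : dL x (1 : T2) = 0 := by rw [← wd_nil, dL, lin_wd]; simp

lemma inv_dL {D : Module.End ℚ T2} (h : IsDer D) {m : ℕ}
    (hm : ∀ x, D (gx x) ∈ Hom (Fin 2) (m + 1)) (x : Fin 2) (t : T2) :
    dL x (D t) = D (dL x t) + ∑ y, dL x (D (gx y)) * dL y t := by
  refine T_ext' (f := dL x ∘ₗ D) (g := D ∘ₗ dL x +
    ∑ y, LinearMap.mulLeft ℚ (dL x (D (gx y))) ∘ₗ dL y) (fun w => ?_) t |>.trans (by simp)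
  rcases w with _ | ⟨y, u⟩
  · simp [wd_nil, h.one, inv_dL_one]
  · simp only [LinearMap.comp_apply, LinearMap.add_apply, LinearMap.sum_apply, wd_cons,
      LinearMap.mulLeft_apply]
    rw [h, map_add, dL_gx, dL_gx, dL_mul _ _ (hm y)]
    simp only [dL_gx, mul_ite, mul_zero, sum_ite_eq, mem_univ, if_true]
    split_ifs <;> simp [add_comm]

lemma es_lie {D D' : Module.End ℚ T2} (h : IsDer D) (h' : IsDer D') {m m' : ℕ}
    (hm : ∀ x, D (gx x) ∈ Hom (Fin 2) (m + 1)) (hm' : ∀ x, D' (gx x) ∈ Hom (Fin 2) (m' + 1))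
    (e : es D ∈ Cm (Fin 2)) (e' : es D' ∈ Cm (Fin 2)) : es ⁅D, D'⁆ ∈ Cm (Fin 2) := by
  have := sub_mem (add_mem (sub_mem (h.cm e') (h'.cm e)) (sum_mem fun x (_ : x ∈ univ) =>
    sum_mem fun y (_ : y ∈ univ) => cm_mem (dL x (D (gx y))) (dL y (D' (gx x)))))
    (sum_mem fun x (_ : x ∈ univ) =>
      sum_mem fun y (_ : y ∈ univ) => cm_mem (dR y (D' (gx x))) (dR x (D (gx y))))
  have e1 := fun x => h.dR hm x (D' (gx x))
  have e2 := fun x => h'.dR hm' x (D (gx x))
  have e3 := fun x => inv_dL h hm x (D' (gx x))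
  have e4 := fun x => inv_dL h' hm' x (D (gx x))
  refine (congrArg (· ∈ Cm (Fin 2)) ?_).mp this
  simp only [es, Ring.lie_def, LinearMap.sub_apply, Module.End.mul_apply, map_sub, e1, e2, e3, e4,
    Fin.sum_univ_two, map_add]
  abel

lemma es_two {D : Module.End ℚ T2} (h : ∀ i, D (gx i) ∈ len gx 2) : es D ∈ Cm (Fin 2) := by
  refine sum_mem fun i _ => len_le (S := (Cm (Fin 2)).comap (dL i - dR i)) (fun j y hy => ?_) (h i)
  obtain ⟨r, rfl⟩ := mem_span_singleton.1 (len_cc hy)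
  rw [lie_smul]
  refine smul_mem _ _ ?_
  have hc : cc ∈ Hom (Fin 2) (1 + 1) := len_Hom 1 cc_len
  have hcm : cc ∈ Cm (Fin 2) := cm_mem _ _
  have e : dL i cc = -dR i cc := by
    simp only [cc, Ring.lie_def, map_sub, dL_gx, dR_gx]
    abel
  rw [mem_comap, LinearMap.sub_apply, Ring.lie_def, map_sub, map_sub, dL_gx, dR_gx,
    dL_mul _ _ hc, dR_mul _ _ hc, e]
  have h1 : (if j = i then cc else 0) ∈ Cm (Fin 2) := by
    split_ifs
    exacts [hcm, zero_mem _]
  have := add_mem (add_mem h1 h1) (cm_mem (dR i cc) (gx j))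
  convert this using 1
  noncomm_ring

lemma inv_lie_len {D D' : Module.End ℚ T2} (h : IsDer D) (h' : IsDer D') {m m' : ℕ}
    (hm : ∀ x, D (gx x) ∈ len gx m) (hm' : ∀ x, D' (gx x) ∈ len gx m') (x : Fin 2) :
    ⁅D, D'⁆ (gx x) ∈ len gx (m + m') := by
  rw [Ring.lie_def, LinearMap.sub_apply, Module.End.mul_apply, Module.End.mul_apply]
  exact sub_mem (add_comm m m' ▸ der_len h.br hm m' (hm' x)) (der_len h'.br hm' m (hm x))

lemma inv_step {D E : Module.End ℚ T2} {n t : T2} (h1 : B (E (D n)) t + B (D n) (E t) = 0)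
    (h2 : B (E n) (D t) + B n (E (D t)) = 0) (h3 : B (D n) (E t) + B n (D (E t)) = 0)
    (h4 : B (⁅D, E⁆ n) t + B n (⁅D, E⁆ t) = 0) : B (D (E n)) t + B (E n) (D t) = 0 := by
  simp only [Ring.lie_def, LinearMap.sub_apply, Module.End.mul_apply, map_sub] at h4
  linarith

lemma inv_nn (w : List (Fin 3)) : ∀ {D : Module.End ℚ T2}, IsDer D → ∀ {l : ℕ},
    (∀ i, D (gx i) ∈ len gx (2 * l + 2)) → (l ≤ 4 → es D ∈ Cm (Fin 2)) → ∀ {j : ℕ} {t : T2},
    t ∈ N j → B (D (nn w)) t + B (nn w) (D t) = 0 := by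
  induction w with
  | nil =>
    intro D hD l h he j t ht
    have hs := nn_N (k := 0) (w := []) rfl
    by_cases hl : l ≤ 4
    · have := inv_two hD h (he hl) ht hs
      rw [B_skew (D t), B_skew t] at this
      linarith
    by_cases hj : j = 0
    · subst hj
      refine N_le' (by omega) (S := LinearMap.ker (B (D (nn [])) + B (nn []) ∘ₗ D))
        (fun t ht => by simp [B_cm' _ ht, B_cm' _ (hD.cm ht)]) (fun w hw => ?_) ht
      obtain rfl := List.length_eq_zero_iff.1 hw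
      change B (D (nn [])) (nn []) + B (nn []) (D (nn [])) = 0
      rw [B_skew, neg_add_cancel]
    · rw [B_deg (der_H hD h hs) (N_H ht) (by omega), B_deg (N_H hs) (der_H hD h ht) (by omega),
        add_zero]
  | cons a w ih =>
    intro D hD l h he j t ht
    have hs := nn_N (w := w) rfl
    have hY := isDer_Y a
    exact inv_step (inv_one hY (inv_Y_len a) (der_N_all hD h hs) ht)
      (inv_one hY (inv_Y_len a) hs (der_N_all hD h ht))
      (ih hD h he (der_N0 hY (inv_Y_len a) ht))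
      (ih (hD.lie hY) (l := l + 1) (inv_lie_len hD hY h (inv_Y_len a)) (fun hl =>
        es_lie hD hY (fun x => len_Hom _ (h x)) (fun x => len_Hom _ (inv_Y_len a x))
          (he (by omega)) (es_two (inv_Y_len a))) ht)

theorem inv_all {D : Module.End ℚ T2} (hD : IsDer D) {l : ℕ}
    (h : ∀ i, D (gx i) ∈ len gx (2 * l + 2)) (he : l ≤ 4 → es D ∈ Cm (Fin 2)) {i j : ℕ} {s t : T2}
    (hs : s ∈ N i) (ht : t ∈ N j) : B (D s) t + B s (D t) = 0 := by
  have key : ∀ {i j : ℕ} {s t : T2}, i ≤ 3 → s ∈ N i → t ∈ N j → B (D s) t + B s (D t) = 0 :=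
    fun {i j s t} hi hs ht =>
      N_le' hi (S := LinearMap.ker (B.flip t ∘ₗ D + B.flip (D t)))
        (fun s hs => by simp [B_cm hs, B_cm (hD.cm hs)]) (fun w _ => inv_nn w hD h he ht) hs
  by_cases hi : i ≤ 3
  · exact key hi hs ht
  by_cases hj : j ≤ 3
  · have := key hj ht hs
    rw [B_skew (D t), B_skew t] at this
    linarith
  · rw [B_deg (der_H hD h hs) (N_H ht) (by omega), B_deg (N_H hs) (der_H hD h ht) (by omega),
      add_zero]

/-- The elementary derivations of degree zero: the letter `1 - i` is sent to the letter `i`. -/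
noncomputable def el (i : Fin 2) : Module.End ℚ T2 := der fun j => if j = i then 0 else gx i

lemma inv_el_der (a : Fin 2) : IsDer (el a) := isDer_der _

lemma inv_el_len (a i : Fin 2) : el a (gx i) ∈ len gx (2 * 0) := by
  rw [el, der_gx]
  split_ifs
  exacts [zero_mem _, len_zero a]

lemma inv_el_TH (a : Fin 2) {k : ℕ} {s : T2} (hs : s ∈ TH k) : el a s ∈ TH k :=
  der_TH (l := 0) (inv_el_der a) (inv_el_len a) hs

lemma inv_el_cc (a : Fin 2) : el a cc = 0 := by
  rw [cc, (inv_el_der a).br]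
  fin_cases a <;> simp [el]

lemma inv_el_lam (a : Fin 2) {t : T2} (ht : t ∈ TH 6) : Lam [] (el a t) = 0 := by
  obtain ⟨D, h1, h2, h3⟩ := TH_cherry ht
  have hE := inv_el_der a
  have key : ∀ d : Fin 2 → Tr, vanX 12 (Tr.pull 0 15 d lamT) = true →
      (∀ i, el a (gx i) = Tr.V (0 + 1) (d i)) → Lam [] (el a (D (nn []))) = 0 := fun d hc hd => by
    have e := Tr.pull_sound 0 15 d lamT hE hd (Lam_cm [])
    have := vanX_sound hc (fun s hs => (LinearMap.congr_fun e s).trans (Lam_cm [] _ (hE.cm hs)))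
      h1 h2
    exact (LinearMap.congr_fun e _).symm.trans this
  have v : ∀ b : Fin 2, Tr.V (0 + 1) (Tr.pre b (Tr.lf 1)) = gx b := fun b => by
    rw [Tr.V_pre, Tr.V_zero]; simp [Tr.root]
  have h4 : Lam [] (el a (D (nn []))) = 0 := by
    fin_cases a
    · refine key _ chk_e fun i => ?_
      rw [V_dT, v, el, der_gx]
      fin_cases i <;> simp
    · refine key _ chk_f fun i => ?_
      rw [V_dT, v, el, der_gx]
      fin_cases i <;> simp
  have := Lam_cm [] _ (hE.cm h3)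
  rwa [map_sub, map_sub, h4, sub_zero] at this

lemma inv_el_nn (a : Fin 2) (w : List (Fin 3)) : ∀ {j : ℕ} {t : T2}, t ∈ TH j →
    B (el a (nn w)) t + B (nn w) (el a t) = 0 := by
  have hE := inv_el_der a
  induction w with
  | nil =>
    intro j t ht
    have e : el a (nn []) = 0 := by rw [nn, hE, inv_el_cc, zero_mul, mul_zero, add_zero]
    rw [e, map_zero, LinearMap.zero_apply, zero_add]
    by_cases hj : j = 6
    · subst hj
      rw [B_nn [] rfl (by simp) (TH_N (inv_el_TH a ht)), inv_el_lam a ht]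
    · exact B_deg (N_H (nn_N (k := 0) rfl)) (N_H (TH_N (inv_el_TH a ht))) (by omega)
  | cons b w ih =>
    intro j t ht
    have hs := nn_TH w
    have hY := isDer_Y b
    exact inv_step (inv_one hY (inv_Y_len b) (TH_N (inv_el_TH a hs)) (TH_N ht))
      (inv_one hY (inv_Y_len b) (TH_N hs) (TH_N (inv_el_TH a ht)))
      (ih (der_TH (l := 1) hY (inv_Y_len b) ht))
      (inv_one (hE.lie hY) (inv_lie_len hE hY (inv_el_len a) (inv_Y_len b)) (TH_N hs) (TH_N ht))

theorem inv_el (a : Fin 2) {i j : ℕ} {s t : T2} (hs : s ∈ TH i) (ht : t ∈ TH j) :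
    B (el a s) t + B s (el a t) = 0 := by
  have hE := inv_el_der a
  have key : ∀ {i j : ℕ} {s t : T2}, i ≤ 3 → s ∈ TH i → t ∈ TH j →
      B (el a s) t + B s (el a t) = 0 := fun {i j s t} hi hs ht =>
    N_le' hi (S := LinearMap.ker (B.flip t ∘ₗ el a + B.flip (el a t)))
      (fun s hs => by simp [B_cm hs, B_cm (hE.cm hs)]) (fun w _ => inv_el_nn a w ht) (TH_N hs)
  by_cases hi : i ≤ 3
  · exact key hi hs ht
  by_cases hj : j ≤ 3
  · have := key hj ht hs
    rw [B_skew (el a t), B_skew t] at this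
    linarith
  · rw [B_deg (N_H (TH_N (inv_el_TH a hs))) (N_H (TH_N ht)) (by omega),
      B_deg (N_H (TH_N hs)) (N_H (TH_N (inv_el_TH a ht))) (by omega), add_zero]

end Pool.Agent.Lib.MP_f9c34c_al.G
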