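import Pool.Agent.Lib.MP_f9c34c_al.G.Sy0
import Pool.Agent.Lib.MP_f9c34c_al.G.Sig

/-! The Lie algebras of derivations of the truncated algebra used for the extension. -/

namespace Pool.Agent.Lib.MP_f9c34c_al.G

open Submodule Finset

attribute [local instance 100] LieRing.ofAssociativeRing

lemma kpp_mk_JT {x : T4} (h : x ∈ J4) : mkT 17 x ∈ JT :=
  (span_le (p := JT.comap (mkT 17).toLinearMap)).2 (by
    rintro _ ⟨s, t, rfl⟩
    exact subset_span ⟨mkT 17 s, mkT 17 t, by simp [omT]⟩) h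

lemma kpp_JT_ex {s : T17} (h : s ∈ JT) : s ∈ J4.map (mkT 17).toLinearMap :=
  (span_le (p := J4.map (mkT 17).toLinearMap)).2 (by
    rintro _ ⟨s, t, rfl⟩
    obtain ⟨s, rfl⟩ := mkT_surj s
    obtain ⟨t, rfl⟩ := mkT_surj t
    exact ⟨s * om * t, subset_span ⟨s, t, rfl⟩, by simp [omT]⟩) h

lemma mem_JT {s : T17} : s ∈ JT ↔ ∀ d, sec 17 d s ∈ J4 := by
  refine ⟨fun h d => ?_, fun h => ?_⟩
  · obtain ⟨x, hx, rfl⟩ := kpp_JT_ex h
    rcases le_or_gt d 17 with hd | hd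
    · rw [AlgHom.toLinearMap_apply, sec_mk hd]; exact pj_J4 d hx
    · rw [sec_top hd]; exact zero_mem _
  · rw [← mk_tot s, tot_eq]
    exact kpp_mk_JT (sum_mem fun j _ => h j)

lemma kpp_om_hom : om ∈ Hom X 2 := by
  refine sum_mem fun i _ => ?_
  rw [Ring.lie_def]
  exact sub_mem (Hom_mul (p := 1) (q := 1) (gx_mem _) (gx_mem _))
    (Hom_mul (p := 1) (q := 1) (gx_mem _) (gx_mem _))

lemma kpp_om_JT : omT ∈ JT := subset_span ⟨1, 1, by simp⟩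

lemma kpp_cp_om {D : E17} (h : D ∈ DD X 17) {d : ℕ} (hd : d ≤ 15) :
    sec 17 (d + 2) (D omT) = cp 17 d D om := by
  rw [sec_apply h (by omega), sum_eq_single d]
  · rw [omT, sec_mk (by omega), pj_hom _ kpp_om_hom, if_pos (by omega)]
  · intro i hi hne
    rw [omT, sec_mk (by omega), pj_hom _ kpp_om_hom, if_neg (by
      have := mem_range.1 hi; omega), map_zero]
  · intro hi
    exact absurd (mem_range.2 (by omega)) hi

lemma Sym_cp {D : E17} (h : D ∈ Sym) {d : ℕ} (hd : d ≤ 15) : cp 17 d D ∈ Sy0 d :=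
  ⟨cp_der _ _, (mem_LD.1 h.1).2 d, by rw [← kpp_cp_om (Sym_DD h) hd, h.2, map_zero]⟩

lemma Sym_desc {D : E17} (h : D ∈ Sym) (d : ℕ) : desc 17 (cp 17 d D) ∈ Sym := by
  refine ⟨mem_LD.2 ⟨desc_DD (cp_der _ _) (cp_Fl _ _), fun e a => ?_⟩, ?_⟩
  · rcases lt_or_ge e 17 with he | he
    · rw [cp_desc (cp_der _ _) (cp_hom _ _) he]
      split_ifs with h1
      · subst h1; exact (mem_LD.1 h.1).2 d a
      · exact zero_mem _
    · rw [cp_top he]; exact zero_mem _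
  · rw [omT, desc_mk (cp_der _ _) (cp_Fl _ _)]
    rcases le_or_gt d 15 with hd | hd
    · rw [(Sym_cp h hd).2.2, map_zero]
    · exact mkT_eq_zero.2 (Hom_le_Fl (by omega) ((cp_der d D).hom (cp_hom d D) kpp_om_hom))

lemma kpp_eu_om : eu X 17 omT = (2 : ℚ) • omT := by
  rw [omT, eu, desc_mk (isDer_der _) fun a => Hom_le_Fl le_rfl (eu_gx a), eu_hom kpp_om_hom,
    map_smul]
  norm_num

lemma kpp_eu_LD : eu X 17 ∈ LD X 17 := ⟨eu_DD, fun a => by rw [eu_xx]; exact LT_xx a⟩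

lemma Sym_eu {D : E17} (h : D ∈ Sym) : ⁅eu X 17, D⁆ ∈ Sym :=
  ⟨(LD X 17).lie_mem kpp_eu_LD h.1, by simp [Ring.lie_def, h.2, kpp_eu_om]⟩

lemma kpp_fT_om (w : F5) : (fT w).1 omT = omT := by rw [omT, fT_mk, sub_om]

lemma Sym_fT (w : F5) {D : E17} (h : D ∈ Sym) : (Ad (fT w)).1 D ∈ Sym := by
  refine ⟨mem_LD.2 ⟨DD_Ad (fT_isA w) (fT_FD w) (Sym_DD h), fun d a => ?_⟩, ?_⟩
  · rw [cp_fT w (Sym_DD h)]
    exact cj_len w ((mem_LD.1 h.1).2 d) a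
  · rw [Ad_apply, ← map_inv, Module.End.mul_apply, Module.End.mul_apply, kpp_fT_om, h.2, map_zero]

/-- Operators that are inner derivations modulo the ideal. -/
noncomputable def IT : Submodule ℚ E17 where
  carrier := {D | ∃ l : T17, ∀ s, D s - ⁅l, s⁆ ∈ JT}
  add_mem' := by
    rintro D D' ⟨l, h⟩ ⟨l', h'⟩
    refine ⟨l + l', fun s => ?_⟩
    have e : (D + D') s - ⁅l + l', s⁆ = (D s - ⁅l, s⁆) + (D' s - ⁅l', s⁆) := by
      rw [add_lie, LinearMap.add_apply]; abel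
    rw [e]
    exact add_mem (h s) (h' s)
  zero_mem' := ⟨0, by simp⟩
  smul_mem' := by
    rintro c D ⟨l, h⟩
    refine ⟨c • l, fun s => ?_⟩
    rw [smul_lie, LinearMap.smul_apply, ← smul_sub]
    exact smul_mem _ c (h s)

lemma kpp_pj_mul {Y : Type} (d : ℕ) (a : Y) (l : T Y) :
    pj (d + 1) (l * gx a) = pj d l * gx a := by
  have := T_ext' (f := pj (d + 1) ∘ₗ LinearMap.mulRight ℚ (gx a))
    (g := LinearMap.mulRight ℚ (gx a) ∘ₗ pj d) (fun w => by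
      simp only [LinearMap.comp_apply, LinearMap.mulRight_apply]
      rw [pj_hom _ (Hom_mul (wd_mem rfl) (gx_mem a)), pj_wd]
      by_cases h : w.length = d <;> simp [h]) l
  simpa only [LinearMap.comp_apply, LinearMap.mulRight_apply] using this

lemma kpp_mul_pj {Y : Type} (d : ℕ) (a : Y) (l : T Y) :
    pj (d + 1) (gx a * l) = gx a * pj d l := by
  have := T_ext' (f := pj (d + 1) ∘ₗ LinearMap.mulLeft ℚ (gx a))
    (g := LinearMap.mulLeft ℚ (gx a) ∘ₗ pj d) (fun w => by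
      simp only [LinearMap.comp_apply, LinearMap.mulLeft_apply]
      rw [← wd_cons, pj_wd, pj_wd]
      by_cases h : w.length = d <;> simp [h, wd_cons]) l
  simpa only [LinearMap.comp_apply, LinearMap.mulLeft_apply] using this

lemma mem_IT {D : E17} (h : D ∈ DD X 17) : D ∈ IT ↔ ∀ d, cp 17 d D ∈ IIc := by
  refine ⟨?_, fun h' => ?_⟩
  · rintro ⟨l, hl⟩ d
    rcases lt_or_ge d 17 with hd | hd
    · obtain ⟨l, rfl⟩ := mkT_surj l
      refine IIc_of_gx (cp_der _ _) (l := pj d l) fun x => ?_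
      have := mem_JT.1 (hl (xx 17 x)) (d + 1)
      rwa [map_sub, ← cp_gx, xx, Ring.lie_def, ← map_mul, ← map_mul, ← map_sub,
        sec_mk (by omega), map_sub, kpp_pj_mul, kpp_mul_pj, ← Ring.lie_def] at this
    · rw [cp_top hd]; exact zero_mem _
  · choose l hl using h'
    refine ⟨mkT 17 (∑ d ∈ range 17, l d), fun s => ?_⟩
    obtain ⟨s, rfl⟩ := mkT_surj s
    have e : D (mkT 17 s) - ⁅mkT 17 (∑ d ∈ range 17, l d), mkT 17 s⁆ =
        mkT 17 (∑ d ∈ range 17, (cp 17 d D s - ⁅l d, s⁆)) := by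
      conv_lhs => rw [← sum_cp h]
      rw [LinearMap.sum_apply, sum_congr rfl fun d _ => desc_mk (cp_der d D) (cp_Fl d D) s,
        sum_sub_distrib, map_sub, ← sum_lie, ← map_sum]
      simp only [Ring.lie_def, map_sub, map_mul]
    rw [e]
    exact kpp_mk_JT (sum_mem fun d _ => hl d s)

/-- Derivations preserving the ideal. -/
noncomputable def PJ : LieSubalgebra ℚ E17 where
  carrier := {D | D ∈ DD X 17 ∧ ∀ x ∈ JT, D x ∈ JT}
  add_mem' h h' := ⟨add_mem h.1 h'.1, fun x hx => add_mem (h.2 x hx) (h'.2 x hx)⟩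
  zero_mem' := ⟨zero_mem _, fun _ _ => zero_mem _⟩
  smul_mem' c _ h := ⟨(DD X 17).smul_mem c h.1, fun x hx => smul_mem _ c (h.2 x hx)⟩
  lie_mem' h h' := ⟨(DD X 17).lie_mem h.1 h'.1, fun x hx =>
    sub_mem (h.2 _ (h'.2 x hx)) (h'.2 _ (h.2 x hx))⟩

lemma kpp_PJ {D : E17} (h : D ∈ DD X 17) (e : D omT ∈ JT) : D ∈ PJ :=
  ⟨h, fun x hx => (span_le (p := JT.comap D)).2 (by
    rintro _ ⟨s, t, rfl⟩
    change D _ ∈ JT
    rw [h.1, h.1, add_mul]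
    exact add_mem (add_mem (JT_mul kpp_om_JT _ _) (JT_mul e _ _)) (JT_mul kpp_om_JT _ _)) hx⟩

lemma Sym_PJ {D : E17} (h : D ∈ Sym) : D ∈ PJ := kpp_PJ (Sym_DD h) (by rw [h.2]; exact zero_mem _)

lemma eu_PJ : eu X 17 ∈ PJ := kpp_PJ eu_DD (by rw [kpp_eu_om]; exact smul_mem _ _ kpp_om_JT)

lemma IT_lie {D D' : E17} (h : D ∈ PJ) (h' : D' ∈ IT) : ⁅D, D'⁆ ∈ IT := by
  obtain ⟨l, hl⟩ := h'
  refine ⟨D l, fun s => ?_⟩
  have e : ⁅D, D'⁆ s - ⁅D l, s⁆ = D (D' s - ⁅l, s⁆) - (D' (D s) - ⁅l, D s⁆) := by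
    rw [map_sub, DD_lie h.1, Ring.lie_def D, LinearMap.sub_apply, Module.End.mul_apply,
      Module.End.mul_apply]
    abel
  rw [e]
  exact sub_mem (h.2 _ (hl s)) (hl _)

lemma InnJ.Ad_sub {g : E17ˣ} (h : InnJ g) {D : E17} (hD : D ∈ PJ) : (Ad g).1 D - D ∈ IT := by
  obtain ⟨c, hc⟩ := h
  refine ⟨-(D c.1 * (c⁻¹).1), fun s => ?_⟩
  obtain ⟨t, rfl⟩ : ∃ t, s = g.1 t := ⟨(g⁻¹).1 s, (unit_apply_inv g s).symm⟩
  have e0 : D c.1 * (c⁻¹).1 + c.1 * D (c⁻¹).1 = 0 := by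
    rw [← hD.1.1, Units.mul_inv, der_one hD.1.1]
  have e1 : D (c⁻¹).1 = -((c⁻¹).1 * (D c.1 * (c⁻¹).1)) := by
    rw [eq_neg_of_add_eq_zero_left e0, mul_neg, neg_neg, Units.inv_mul_cancel_left]
  have e2 : D c.1 * t = D c.1 * (c⁻¹).1 * c.1 * t := by rw [Units.inv_mul_cancel_right]
  have e : ((Ad g).1 D - D) (g.1 t) - ⁅-(D c.1 * (c⁻¹).1), g.1 t⁆ =
      (g.1 (D t) - c.1 * D t * (c⁻¹).1) - D (g.1 t - c.1 * t * (c⁻¹).1) +
      ((D c.1 * (c⁻¹).1) * (g.1 t - c.1 * t * (c⁻¹).1) * 1 -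
        1 * (g.1 t - c.1 * t * (c⁻¹).1) * (D c.1 * (c⁻¹).1)) := by
    rw [LinearMap.sub_apply, Ad_apply, Module.End.mul_apply, Module.End.mul_apply, unit_inv_apply,
      map_sub, hD.1.1, hD.1.1, e1, e2, Ring.lie_def]
    noncomm_ring
  rw [e]
  exact add_mem (sub_mem (hc _) (hD.2 _ (hc t))) (sub_mem (JT_mul (hc t) _ _) (JT_mul (hc t) _ _))

/-- The positive part. -/
noncomputable def KK : LieSubalgebra ℚ E17 where
  carrier := {D | D ∈ Sym ∧ D ∈ FD X 17 1 ∧ ∀ d ≤ 15, cp 17 d D ∈ K4 d}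
  add_mem' h h' := ⟨add_mem h.1 h'.1, add_mem h.2.1 h'.2.1, fun d hd => by
    rw [map_add]; exact add_mem (h.2.2 d hd) (h'.2.2 d hd)⟩
  zero_mem' := ⟨zero_mem _, zero_mem _, fun d _ => by rw [map_zero]; exact zero_mem _⟩
  smul_mem' c _ h := ⟨Sym.smul_mem c h.1, smul_mem _ c h.2.1, fun d hd => by
    rw [map_smul]; exact smul_mem _ c (h.2.2 d hd)⟩
  lie_mem' {D D'} h h' := ⟨Sym.lie_mem h.1 h'.1, FD_mono (by omega) (FD_lie h.2.1 h'.2.1),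
    fun d hd => by
      rw [cp_lie (Sym_DD h.1) (Sym_DD h'.1) (by omega)]
      refine sum_mem fun i hi => ?_
      have hi := mem_range.1 hi
      rcases Nat.eq_zero_or_pos i with rfl | h1
      · rw [(cp_FD (Sym_DD h.1)).1 h.2.1 0 one_pos, zero_lie]; exact zero_mem _
      rcases Nat.eq_zero_or_pos (d - i) with h2 | h2
      · rw [h2, (cp_FD (Sym_DD h'.1)).1 h'.2.1 0 one_pos, lie_zero]; exact zero_mem _
      have := K4_lie h1 h2 (h.2.2 i (by omega)) (h'.2.2 (d - i) (by omega))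
      rwa [show i + (d - i) = d by omega] at this⟩

lemma KK_DD {D : E17} (h : D ∈ KK) : D ∈ DD X 17 := h.1.1.1

lemma KK_eu {D : E17} (h : D ∈ KK) : ⁅eu X 17, D⁆ ∈ KK :=
  ⟨Sym_eu h.1, FD_mono (by omega) (FD_lie (DD_FD0 eu_DD) h.2.1), fun d hd => by
    rw [cp_eu_lie (KK_DD h)]; exact smul_mem _ _ (h.2.2 d hd)⟩

lemma KK_of_eu {D : E17} (h : D ∈ DD X 17) (h1 : D ∈ FD X 17 1) (e : ⁅eu X 17, D⁆ ∈ KK) :
    D ∈ KK := by
  have key : ∀ d : ℕ, cp 17 d D = (d : ℚ)⁻¹ • cp 17 d ⁅eu X 17, D⁆ := fun d => by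
    rcases Nat.eq_zero_or_pos d with rfl | hd
    · rw [(cp_FD h).1 h1 0 one_pos]; simp
    · rw [cp_eu_lie h, smul_smul, inv_mul_cancel₀ (by positivity), one_smul]
  refine ⟨?_, h1, fun d hd => ?_⟩
  · rw [← sum_cp h]
    refine sum_mem fun d _ => ?_
    rw [key, map_smul]
    exact Sym.smul_mem _ (Sym_desc e.1 d)
  · rw [key]
    exact smul_mem _ _ (e.2.2 d hd)

lemma KK_fT (w : F5) {D : E17} (h : D ∈ KK) : (Ad (fT w)).1 D ∈ KK :=
  ⟨Sym_fT w h.1, FD_Ad (fT_FD w) h.2.1, fun d hd => by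
    rw [cp_fT w (KK_DD h)]; exact K4_cj w (h.2.2 d hd)⟩

lemma KK_dmT {I : Set (Fin 5)} {f : Matrix X X ℚ} (hf : f ∈ SS I) {D : E17} (h : D ∈ KK) :
    ⁅dmT 17 f, D⁆ ∈ KK := lie_mem_of_fT (P := KK.toSubmodule) (fun _ _ _ => KK_fT _) hf h

lemma kpp_lie_gen {M : Type} [AddCommGroup M] [Module ℚ M] {K : LieSubalgebra ℚ (Module.End ℚ M)}
    {u D D' : Module.End ℚ M} (hu : ∀ D ∈ K, ⁅u, D⁆ ∈ K) {c c' : ℚ} (h : D - c • u ∈ K)
    (h' : D' - c' • u ∈ K) : ⁅D, D'⁆ ∈ K := by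
  have e : ⁅D, D'⁆ = ⁅D - c • u, D' - c' • u⁆ + c • ⁅u, D' - c' • u⁆ - c' • ⁅u, D - c • u⁆ := by
    simp only [sub_lie, lie_sub, smul_lie, lie_smul, lie_self, smul_zero, sub_zero,
      ← lie_skew D u, smul_neg]
    abel
  rw [e]
  exact K.sub_mem (K.add_mem (K.lie_mem h h') (K.smul_mem c (hu _ h'))) (K.smul_mem c' (hu _ h))

lemma kpp_lie {D D' : E17} {c c' : ℚ} (h : D - c • eu X 17 ∈ KK) (h' : D' - c' • eu X 17 ∈ KK) :
    ⁅D, D'⁆ ∈ KK := kpp_lie_gen (K := KK) (fun _ => KK_eu) h h'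

/-- The positive part with the Euler derivation. -/
noncomputable def WW : LieSubalgebra ℚ E17 where
  carrier := {D | ∃ c : ℚ, D - c • eu X 17 ∈ KK}
  add_mem' := by
    rintro D D' ⟨c, h⟩ ⟨c', h'⟩
    refine ⟨c + c', ?_⟩
    rw [add_smul, add_sub_add_comm]
    exact add_mem h h'
  zero_mem' := ⟨0, by simp⟩
  smul_mem' := by
    rintro a D ⟨c, h⟩
    refine ⟨a * c, ?_⟩
    rw [mul_smul, ← smul_sub]
    exact KK.smul_mem a h
  lie_mem' := by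
    rintro D D' ⟨c, h⟩ ⟨c', h'⟩
    exact ⟨0, by simpa using kpp_lie h h'⟩

lemma eu_WW : eu X 17 ∈ WW := ⟨1, by simp⟩

lemma KK_WW {D : E17} (h : D ∈ KK) : D ∈ WW := ⟨0, by simpa using h⟩

lemma WW_PJ {D : E17} (h : D ∈ WW) : D ∈ PJ := by
  obtain ⟨c, h⟩ := h
  rw [← sub_add_cancel D (c • eu X 17)]
  exact add_mem (Sym_PJ h.1) (PJ.smul_mem c eu_PJ)

lemma WW_lie {D D' : E17} (h : D ∈ WW) (h' : D' ∈ WW) : ⁅D, D'⁆ ∈ KK := by
  obtain ⟨c, h⟩ := h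
  obtain ⟨c', h'⟩ := h'
  exact kpp_lie h h'

lemma KK_of_WW {D : E17} (h : D ∈ WW) (h1 : D ∈ FD X 17 1) : D ∈ KK :=
  KK_of_eu (WW_PJ h).1 h1 (WW_lie eu_WW h)

lemma WW_fT (w : F5) {D : E17} (h : D ∈ WW) : (Ad (fT w)).1 D ∈ WW := by
  obtain ⟨c, h⟩ := h
  have := KK_fT w h
  rw [map_sub, map_smul, fT_eu] at this
  exact ⟨c, this⟩

/-- The elements that are inner modulo the ideal in degrees below sixteen. -/
noncomputable def JS : Submodule ℚ E17 where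
  carrier := {D | D ∈ KK ∧ ∀ d ≤ 15, cp 17 d D ∈ IIc}
  add_mem' h h' := ⟨add_mem h.1 h'.1, fun d hd => by
    rw [map_add]; exact add_mem (h.2 d hd) (h'.2 d hd)⟩
  zero_mem' := ⟨zero_mem _, fun d _ => by rw [map_zero]; exact zero_mem _⟩
  smul_mem' c _ h := ⟨KK.smul_mem c h.1, fun d hd => by
    rw [map_smul]; exact smul_mem _ c (h.2 d hd)⟩

lemma JS_lie {D D' : E17} (h : D ∈ WW) (h' : D' ∈ JS) : ⁅D, D'⁆ ∈ JS := by
  refine ⟨WW_lie h (KK_WW h'.1), fun d hd => ?_⟩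
  obtain ⟨c, h⟩ := h
  rw [← sub_add_cancel D (c • eu X 17), add_lie, smul_lie, map_add, map_smul,
    cp_eu_lie (KK_DD h'.1), cp_lie (KK_DD h) (KK_DD h'.1) (by omega)]
  refine add_mem (sum_mem fun i hi => ?_) (smul_mem _ _ (smul_mem _ _ (h'.2 d hd)))
  have hi := mem_range.1 hi
  exact IIc_lie (cp_der _ _) (Sym_cp h.1 (by omega)).2.2 (h'.2 _ (by omega))

lemma JS_fT (w : F5) {D : E17} (h : D ∈ JS) : (Ad (fT w)).1 D ∈ JS :=
  ⟨KK_fT w h.1, fun d hd => by rw [cp_fT w (KK_DD h.1)]; exact IIc_cj w (h.2 d hd)⟩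

lemma JS_dmT {I : Set (Fin 5)} {f : Matrix X X ℚ} (hf : f ∈ SS I) {D : E17} (h : D ∈ JS) :
    ⁅dmT 17 f, D⁆ ∈ JS := lie_mem_of_fT (fun _ _ _ => JS_fT _) hf h

/-- The elements whose Hamiltonians vanish on the Lagrangians adapted to the handles. -/
noncomputable def MM : LieSubalgebra ℚ E17 where
  carrier := {D | D ∈ KK ∧ ∀ d ≤ 15, ∀ w ∈ HH, hh (cj w (cp 17 d D)) ∈ Cm (Fin 2)}
  add_mem' h h' := ⟨add_mem h.1 h'.1, fun d hd w hw => by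
    rw [map_add, map_add, map_add]; exact add_mem (h.2 d hd w hw) (h'.2 d hd w hw)⟩
  zero_mem' := ⟨zero_mem _, fun d _ w _ => by
    rw [map_zero, map_zero, map_zero]; exact zero_mem _⟩
  smul_mem' c _ h := ⟨KK.smul_mem c h.1, fun d hd w hw => by
    rw [map_smul, map_smul, map_smul]; exact smul_mem _ c (h.2 d hd w hw)⟩
  lie_mem' {D D'} h h' := ⟨KK.lie_mem h.1 h'.1, fun d hd w hw => by
    rw [cp_lie (KK_DD h.1) (KK_DD h'.1) (by omega), map_sum, map_sum]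
    refine sum_mem fun i hi => ?_
    have hi := mem_range.1 hi
    have h1 := hh_lie0 (Sy0_cj w (Sym_cp h.1.1 (d := i) (by omega)))
      (Sy0_cj w (Sym_cp h'.1.1 (d := d - i) (by omega)))
    rw [cj_lie]
    exact (sub_mem_iff_left _ (sub_mem ((isDer_del _).cm (h'.2 _ (by omega) w hw))
      ((isDer_del _).cm (h.2 _ (by omega) w hw)))).1 h1⟩

lemma MM_eu {D : E17} (h : D ∈ MM) : ⁅eu X 17, D⁆ ∈ MM :=
  ⟨KK_eu h.1, fun d hd w hw => by
    rw [cp_eu_lie (KK_DD h.1), map_smul, map_smul]; exact smul_mem _ _ (h.2 d hd w hw)⟩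

lemma MM_fT {w : F5} (hw : w ∈ HH) {D : E17} (h : D ∈ MM) : (Ad (fT w)).1 D ∈ MM :=
  ⟨KK_fT w h.1, fun d hd w' hw' => by
    rw [cp_fT w (KK_DD h.1), ← cj_mul]; exact h.2 d hd _ (HH.mul_mem hw' hw)⟩

lemma kpp_fm_SS {I : Set (Fin 5)} {i : Fin 5} (h : i ∈ I) : fm i ∈ SS I :=
  LieSubalgebra.subset_lieSpan ⟨i, h, rfl⟩

/-- The centralizer of a Lie algebra of matrices. -/
noncomputable def kppC (I : Set (Fin 5)) : Submodule ℚ E17 where
  carrier := {D | ∀ f ∈ SS I, ⁅dmT 17 f, D⁆ = 0}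
  add_mem' h h' f hf := by rw [lie_add, h f hf, h' f hf, add_zero]
  zero_mem' _ _ := lie_zero _
  smul_mem' c _ h f hf := by rw [lie_smul, h f hf, smul_zero]

lemma kpp_comm {I : Set (Fin 5)} {j : Fin 2} (hj : hc j ∈ SS I)
    (hI : ∀ i, i ≠ 2 → i ∈ I ∨ ∀ f ∈ SS I, ⁅f, fm i⁆ = 0) {D : E17} (h : D ∈ KK)
    (e : D ∈ kppC I) : D ∈ MM := by
  refine ⟨h, fun d hd w hw => ?_⟩
  have h1 : (Ad (fT w)).1 D ∈ kppC I := by
    refine Ad_fT_mem (I := {i | i ≠ 2}) (fun i hi D hD => ?_) hw e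
    rcases hI i hi with h2 | h2
    · rw [hD _ (kpp_fm_SS h2)]; exact zero_mem _
    · intro f hf
      rw [leibniz_lie, ← LieHom.map_lie, h2 f hf, hD f hf, map_zero, zero_lie, lie_zero, add_zero]
  have h2 := KK_fT w h
  rw [← cp_fT w (KK_DD h)]
  rcases d with _ | d
  · rw [(cp_FD (KK_DD h2)).1 h2.2.1 0 one_pos, map_zero]; exact zero_mem _
  · rw [hh_of_comm j (cp_der _ _) (Sym_cp h2.1 hd).2.1 (by
      rw [← cp_dmT_lie _ (KK_DD h2), h1 _ hj, map_zero])]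
    exact zero_mem _

lemma MM_of_comm_one {D : E17} (h : D ∈ KK) (e : ∀ f ∈ SS {0, 1}, ⁅dmT 17 f, D⁆ = 0) : D ∈ MM :=
  kpp_comm hc_zero (fun i hi => by
    have : i ∈ ({0, 1} : Set (Fin 5)) ∨ i ∈ ({3, 4} : Set (Fin 5)) := by
      fin_cases i <;> simp at hi ⊢
    exact this.imp id fun h f hf => SS_comm hf (kpp_fm_SS h)) h e

lemma MM_of_comm_two {D : E17} (h : D ∈ KK) (e : ∀ f ∈ SS {3, 4}, ⁅dmT 17 f, D⁆ = 0) : D ∈ MM :=
  kpp_comm hc_one (fun i hi => by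
    have : i ∈ ({3, 4} : Set (Fin 5)) ∨ i ∈ ({0, 1} : Set (Fin 5)) := by
      fin_cases i <;> simp at hi ⊢
    exact this.imp id fun h f hf => by
      rw [← lie_skew, SS_comm (kpp_fm_SS h) hf, neg_zero]) h e

end Pool.Agent.Lib.MP_f9c34c_al.G
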