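import Mathlib.Data.Nat.Choose.Basic

/-! A checker for ranks modulo 13: many covectors are packed in the digits of natural numbers. -/

namespace Pool.Agent.Lib.MP_f9c34c_al.G.LA

/-- Evaluate a number, then continue. -/
noncomputable def frc (n : ℕ) (k : ℕ → Bool) : Bool :=
  Nat.rec (motive := fun _ => Bool) true (fun m _ => k m) (Nat.add n 1)

/-- Tabulate a function. -/
noncomputable def tab {α : Type} (n : ℕ) (f : ℕ → (α → Bool) → Bool) (k : List α → Bool) : Bool :=
  Nat.rec (motive := fun _ => List α → Bool) k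
    (fun m ih acc => f m fun x => ih (List.cons x acc)) n List.nil

/-- List access with a default. -/
noncomputable def nth {α : Type} (d : α) (i : ℕ) : List α → α :=
  Nat.rec (motive := fun _ => List α → α)
    (fun l => List.rec (motive := fun _ => α) d (fun a _ _ => a) l)
    (fun _ ih l => List.rec (motive := fun _ => α) d (fun _ t _ => ih t) l) i

/-- Test all entries of a list. -/
noncomputable def allL (f : ℕ → Bool) (l : List ℕ) : Bool :=
  List.rec (motive := fun _ => Bool) true
    (fun x _ ih => Bool.rec (motive := fun _ => Bool) false ih (f x)) l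

/-- Tables for one level. -/
abbrev L3 : Type := List (List (List ℕ))

/-- Tables for several levels. -/
abbrev Vec : Type := List L3

/-- An entry of a level. -/
noncomputable def get3 (x : L3) (a b c : ℕ) : ℕ := nth 0 c (nth [] b (nth [] a x))

/-- An entry of a table. -/
noncomputable def get (t : Vec) (e a b c : ℕ) : ℕ := nth 0 c (nth [] b (nth [] a (nth [] e t)))

/-- Tabulate a level. -/
noncomputable def tab3 (r : ℕ) (f : ℕ → ℕ → ℕ → ℕ → ℕ) (k : L3 → Bool) : Bool :=
  tab (Nat.succ r) (fun a k => frc (Nat.sub r a) fun r => tab (Nat.succ r) (fun b k =>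
    frc (Nat.sub r b) fun r => tab (Nat.succ r) (fun c k =>
      frc (Nat.sub r c) fun z => frc (f z a b c) k) k) k) k

/-- Tabulate the first `K` levels. -/
noncomputable def tab4 (K : ℕ) (f : ℕ → ℕ → ℕ → ℕ → ℕ → ℕ) (k : Vec → Bool) : Bool :=
  tab K (fun e k => frc (Nat.sub 10 e) fun r => tab3 r (fun z a b c => f z a b c e) k) k

/-- A binomial sum with coefficients from a table. -/
noncomputable def lsum (tb : List (List ℕ)) (g : ℕ → ℕ → ℕ) (n m : ℕ) : ℕ :=
  Nat.rec (motive := fun _ => List ℕ → ℕ → ℕ → ℕ) (fun _ _ s => s)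
    (fun i ih cs m s => List.rec (motive := fun _ => ℕ) s (fun c cs _ =>
      Nat.rec (motive := fun _ => ℕ) 0 (fun m _ => ih cs m (Nat.add s (Nat.mul c (g i m))))
        (Nat.add m 2)) cs)
    n (nth [] n tb) m (g n m)

/-- Binomial coefficients modulo 13. -/
def tbP : List (List ℕ) :=
  [[], [1], [2, 1], [3, 3, 1], [4, 6, 4, 1], [5, 10, 10, 5, 1], [6, 2, 7, 2, 6, 1], [7, 8, 9, 9,
    8, 7, 1], [8, 2, 4, 5, 4, 2, 8, 1], [9, 10, 6, 9, 9, 6, 10, 9, 1], [10, 6, 3, 2, 5, 2, 3, 6,
    10, 1]]

/-- Binomial coefficients with signs modulo 13. -/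
def tbM : List (List ℕ) :=
  [[], [12], [11, 1], [10, 3, 12], [9, 6, 9, 1], [8, 10, 3, 5, 12], [7, 2, 6, 2, 7, 1], [6, 8,
    4, 9, 5, 7, 12], [5, 2, 9, 5, 9, 2, 5, 1], [4, 10, 7, 9, 4, 6, 3, 9, 12], [3, 6, 10, 2, 8,
    2, 10, 6, 3, 1]]

/-- Binomial coefficients with powers of two modulo 13. -/
def tb2 : List (List ℕ) :=
  [[], [2], [4, 4], [6, 12, 8], [8, 11, 6, 3], [10, 1, 2, 2, 6], [12, 8, 4, 6, 10, 12], [1, 6,
    7, 1, 9, 6, 11], [3, 8, 6, 2, 11, 11, 10, 9], [5, 1, 9, 1, 2, 7, 6, 3, 5], [7, 11, 11, 6, 4,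
    11, 7, 2, 11, 10]]

/-- The shear of coordinate 2 by coordinate 0. -/
noncomputable def sh20 (t : Vec) (k : Vec → Bool) : Bool :=
  tab4 2 (fun z a b c e => lsum tbP (fun b _ => get t e a b c) b z) k

/-- The shear of coordinate 3 by coordinate 1. -/
noncomputable def sh31 (t : Vec) (k : Vec → Bool) : Bool :=
  tab4 2 (fun _ a b c e => lsum tbP (fun c a => get t e a b c) c a) k

/-- The shear of coordinate 0 by coordinate 2. -/
noncomputable def sh02 (t : Vec) (k : Vec → Bool) : Bool :=
  tab4 2 (fun z a b c e => lsum tbM (fun _ b => get t e a b c) z b) k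

/-- The shear of coordinate 1 by coordinate 3. -/
noncomputable def sh13 (t : Vec) (k : Vec → Bool) : Bool :=
  tab4 2 (fun _ a b c e => lsum tbM (fun a c => get t e a b c) a c) k

/-- The shear of coordinate 0 by coordinate 1. -/
noncomputable def sh01 (t : Vec) (k : Vec → Bool) : Bool :=
  tab4 2 (fun z a b c e => lsum tbM (fun _ a => get t e a b c) z a) k

/-- The shear of coordinate 2 by coordinate 3. -/
noncomputable def sh23 (t : Vec) (k : Vec → Bool) : Bool :=
  tab4 2 (fun _ a b c e => lsum tbM (fun b c => get t e a b c) b c) k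

/-- The shear of coordinate 1 by coordinate 0. -/
noncomputable def sh10 (t : Vec) (k : Vec → Bool) : Bool :=
  tab4 2 (fun z a b c e => lsum tbP (fun a _ => get t e a b c) a z) k

/-- The shear of coordinate 3 by coordinate 2. -/
noncomputable def sh32 (t : Vec) (k : Vec → Bool) : Bool :=
  tab4 2 (fun _ a b c e => lsum tbP (fun c b => get t e a b c) c b) k

/-- The shear of coordinate 3 by coordinate 4. -/
noncomputable def sh34 (t : Vec) (k : Vec → Bool) : Bool :=
  tab4 2 (fun _ a b c e => lsum tb2 (fun c e => get t e a b c) c e) k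

/-- The shear of coordinate 4 by coordinate 0. -/
noncomputable def sh40 (t : Vec) (k : Vec → Bool) : Bool :=
  tab4 2 (fun z a b c e => lsum tbM (fun e _ => get t e a b c) e z) k

/-- Further levels from two consecutive ones. -/
noncomputable def extP (n : ℕ) : L3 → L3 → (Vec → Bool) → Bool :=
  Nat.rec (motive := fun _ => L3 → L3 → (Vec → Bool) → Bool) (fun x y k => k [x, y])
    (fun m ih x y k => tab3 m (fun _ a b c => Nat.add (get3 x (Nat.succ a) (Nat.succ b) c)
      (Nat.mul 12 (get3 x a b (Nat.succ c)))) fun w => ih y w fun L => k (List.cons x L)) n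

/-- The transposed action of a generator. -/
noncomputable def op (i : Fin 5) : Vec → (Vec → Bool) → Bool :=
  nth (fun t k => k t) i.val [fun t k => sh20 t fun t => sh31 t k,
    fun t k => sh02 t fun t => sh13 t k,
    fun t k => extP 9 (nth [] 0 t) (nth [] 1 t) fun t => sh34 t fun t => sh31 t fun t =>
      sh32 t fun t => sh10 t fun t => sh20 t fun t => sh40 t k,
    fun t k => sh01 t fun t => sh23 t k, fun t k => sh10 t fun t => sh32 t k]

/-- Expressions for covectors. -/
inductive Ex : Type
  | zero : Ex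
  | cov (s : Bool) (c : ℕ) : Ex
  | app (i : Fin 5) (E : Ex) : Ex
  | add (E F : Ex) : Ex

/-- Positions of the monomials in the data. -/
def bs : L3 :=
  [[[0, 11, 21, 30, 38, 45, 51, 56, 60, 63, 65], [66, 76, 85, 93, 100, 106, 111, 115, 118, 120],
    [121, 130, 138, 145, 151, 156, 160, 163, 165], [166, 174, 181, 187, 192, 196, 199, 201],
    [202, 209, 215, 220, 224, 227, 229], [230, 236, 241, 245, 248, 250], [251, 256, 260, 263,
    265], [266, 270, 273, 275], [276, 279, 281], [282, 284], [285]], [[286, 296, 305, 313, 320,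
    326, 331, 335, 338, 340], [341, 350, 358, 365, 371, 376, 380, 383, 385], [386, 394, 401,
    407, 412, 416, 419, 421], [422, 429, 435, 440, 444, 447, 449], [450, 456, 461, 465, 468,
    470], [471, 476, 480, 483, 485], [486, 490, 493, 495], [496, 499, 501], [502, 504], [505]]]

/-- An entry read from the data. -/
noncomputable def ud (n M T : ℕ) (D : List ℕ) (e a b c : ℕ) : ℕ :=
  Nat.add (Nat.land (Nat.shiftRight (nth 0 (Nat.div (Nat.add (get3 bs e a b) c) n) D)
    (Nat.mul 4 (Nat.mod (Nat.add (get3 bs e a b) c) n))) M) T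

/-- Evaluation of an expression. -/
noncomputable def ev (n M T : ℕ) (D : List (List ℕ)) (E : Ex) : (Option Vec → Bool) → Bool :=
  Ex.rec (motive := fun _ => (Option Vec → Bool) → Bool) (fun k => k none)
    (fun s j k => List.rec (motive := fun _ => Bool) (k none) (fun x xs _ =>
      tab4 2 (fun _ a b c e => Nat.mul (Bool.rec (motive := fun _ => ℕ) 12 1 s)
        (ud n M T (List.cons x xs) e a b c)) fun t => k (some t)) (nth [] j D))
    (fun i _ ih k => ih fun o => Option.rec (motive := fun _ => Bool) (k none)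
      (fun t => op i t fun t => k (some t)) o)
    (fun _ _ ih ih' k => ih fun o => ih' fun o' => Option.rec (motive := fun _ => Bool) (k o')
      (fun x => Option.rec (motive := fun _ => Bool) (k (some x)) (fun y =>
        tab4 2 (fun _ a b c e => Nat.add (get x e a b c) (get y e a b c)) fun t => k (some t)) o')
      o) E

/-- The number with `m` equal digits. -/
noncomputable def rpt (B v m : ℕ) : ℕ :=
  Nat.rec (motive := fun _ => ℕ) 0 (fun _ s => Nat.add v (Nat.mul B s)) m

/-- An entry on the first three levels. -/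
noncomputable def getx (t : Vec) (e a b c : ℕ) : ℕ :=
  Bool.rec (motive := fun _ => ℕ)
    (Nat.add (get t 0 (Nat.succ a) (Nat.succ b) c) (Nat.mul 12 (get t 0 a b (Nat.succ c))))
    (get t e a b c) (Nat.ble e 1)

/-- The digits of `x` are those of `E` modulo 13. -/
noncomputable def tst (Bm B1 mk E x : ℕ) : Bool :=
  Bool.rec (motive := fun _ => Bool) false
    (Nat.beq x (Nat.add (Nat.add (Nat.mul 13 (Nat.land (Nat.div (Nat.sub (Nat.mod x Bm) E) 13) mk))
      E) (Nat.mul (Nat.div x Bm) Bm))) (Nat.ble (Nat.add x 1) B1)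

/-- The position of a pivot. -/
def key (x : ℕ) : ℕ := Nat.div x 65536

/-- A hexadecimal digit. -/
def dg (x i : ℕ) : ℕ := Nat.mod (Nat.shiftRight x i) 16

/-- The test for one pivot. -/
noncomputable def pvt (k0 m B Bm B1 mk : ℕ) (t : Vec) (x : ℕ) : Bool :=
  frc (key x) fun q => Bool.rec (motive := fun _ => Bool) true
    (frc (dg x 12) fun e => frc (dg x 8) fun a => frc (dg x 4) fun b => frc (dg x 0) fun c =>
      frc (getx t e a b c) fun v =>
      frc (Bool.rec (motive := fun _ => ℕ) (Nat.pow B (Nat.sub q k0)) 0 (Nat.ble (Nat.add k0 m) q))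
        fun E => tst Bm B1 mk E v) (Nat.ble k0 q)

/-- The test for one block. -/
noncomputable def blk (tbl : List Ex) (P : List (List ℕ)) (k0 m : ℕ) (D : List (List ℕ))
    (B Bm B1 M mk T n r : ℕ) : Bool :=
  Bool.rec (motive := fun _ => Bool)
    (ev n M T D (nth .zero r tbl) fun o => Option.rec (motive := fun _ => Bool)
      (allL (pvt k0 m B Bm B1 mk []) (nth [] r P))
      (fun t => allL (pvt k0 m B Bm B1 mk t) (nth [] r P)) o)
    true (allL (fun x => Nat.ble (Nat.add (key x) 1) k0) (nth [] r P))

/-- The test for one stage, on a list of blocks. -/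
noncomputable def stg (tbl : List Ex) (P : List (List ℕ)) (k0 m w : ℕ) (D : List (List ℕ))
    (rs : List ℕ) : Bool :=
  frc (Nat.pow 2 w) fun B => frc (Nat.pow B m) fun Bm => frc (Nat.mul Bm B) fun B1 =>
    frc (rpt B 15 m) fun M => frc (rpt B (Nat.sub (Nat.pow 2 (Nat.sub w 4)) 1) m) fun mk =>
      frc (Nat.mul 15 Bm) fun T => frc (Nat.div w 4) fun n =>
        allL (blk tbl P k0 m D B Bm B1 M mk T n) rs

/-- The set of positions of pivots, as a bit mask. -/
noncomputable def cvr (P : List (List ℕ)) : ℕ :=
  List.rec (motive := fun _ => ℕ) 0 (fun l _ s => List.rec (motive := fun _ => ℕ) s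
    (fun x _ s => Nat.lor (Nat.pow 2 (key x)) s) l) P

/-- The pivots in a block are monomials of degree ten on the levels from `j` to two. -/
noncomputable def okx (j x : ℕ) : Bool :=
  Bool.rec (motive := fun _ => Bool) false (Bool.rec (motive := fun _ => Bool) false
    (Nat.ble (dg x 12 + dg x 8 + dg x 4 + dg x 0) 10) (Nat.ble (dg x 12) 2)) (Nat.ble j (dg x 12))

/-- The transposed first differential. -/
def tbl1 : List Ex :=
  [.add (.cov true 0) (.add (.cov true 1) (.add (.cov true 2) (.add (.cov true 3) (.add (.app 1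
    (.add (.cov false 0) (.app 0 (.cov true 0)))) (.add (.app 2 (.cov false 1)) (.add (.app 3
    (.cov false 2)) (.app 4 (.cov false 3)))))))), .add (.cov false 0) (.add (.cov true 4) (.add
    (.cov true 5) (.add (.cov true 6) (.add (.app 0 (.add (.cov true 0) (.app 1 (.cov false
    0)))) (.add (.app 2 (.add (.cov false 4) (.app 1 (.cov true 4)))) (.add (.app 3 (.cov false
    5)) (.app 4 (.cov false 6)))))))), .add (.cov false 1) (.add (.cov false 4) (.add (.cov true
    7) (.add (.cov true 8) (.add (.app 0 (.cov true 1)) (.add (.app 1 (.add (.cov true 4) (.app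
    2 (.cov false 4)))) (.add (.app 3 (.add (.cov false 7) (.app 2 (.cov true 7)))) (.app 4
    (.cov false 8)))))))), .add (.cov false 2) (.add (.cov false 5) (.add (.cov false 7) (.add
    (.cov true 9) (.add (.app 0 (.cov true 2)) (.add (.app 1 (.cov true 5)) (.add (.app 2 (.add
    (.cov true 7) (.app 3 (.cov false 7)))) (.app 4 (.add (.cov false 9) (.app 3 (.cov true
    9)))))))))), .add (.cov false 3) (.add (.cov false 6) (.add (.cov false 8) (.add (.cov false
    9) (.add (.app 0 (.cov true 3)) (.add (.app 1 (.cov true 6)) (.add (.app 2 (.cov true 8))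
    (.app 3 (.add (.cov true 9) (.app 4 (.cov false 9))))))))))]

/-- The transposed second differential. -/
def tbl2 : List Ex :=
  [.add (.cov true 0) (.add (.cov true 1) (.add (.cov true 2) (.add (.app 2 (.add (.cov false 0)
    (.app 1 (.add (.cov true 0) (.app 0 (.cov false 0)))))) (.add (.app 3 (.cov false 1)) (.app
    4 (.cov false 2)))))), .add (.cov false 0) (.add (.cov true 3) (.add (.cov true 4) (.add
    (.app 1 (.add (.cov true 0) (.add (.app 0 (.add (.cov false 0) (.app 2 (.app 1 (.cov false
    0))))) (.app 2 (.add (.cov false 0) (.app 0 (.cov true 0))))))) (.add (.app 3 (.add (.cov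
    false 3) (.app 2 (.cov true 3)))) (.app 4 (.cov false 4)))))), .add (.cov false 1) (.add
    (.cov false 3) (.add (.cov true 5) (.add (.app 1 (.add (.cov true 1) (.app 0 (.cov false
    1)))) (.add (.app 2 (.add (.cov true 3) (.app 3 (.cov false 3)))) (.app 4 (.add (.cov false
    5) (.app 3 (.cov true 5)))))))), .add (.cov false 2) (.add (.cov false 4) (.add (.cov false
    5) (.add (.app 1 (.add (.cov true 2) (.app 0 (.cov false 2)))) (.add (.app 2 (.cov true 4))
    (.app 3 (.add (.cov true 5) (.app 4 (.cov false 5)))))))), .add (.cov true 0) (.add (.cov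
    true 6) (.add (.cov true 7) (.add (.app 0 (.add (.cov false 0) (.app 1 (.add (.cov true 0)
    (.app 2 (.cov false 0)))))) (.add (.app 3 (.add (.cov false 6) (.app 2 (.add (.cov true 6)
    (.app 1 (.cov false 6)))))) (.app 4 (.cov false 7)))))), .add (.cov true 1) (.add (.cov
    false 6) (.add (.cov true 8) (.add (.app 0 (.add (.cov false 1) (.app 1 (.cov true 1))))
    (.add (.app 2 (.add (.cov true 6) (.add (.app 1 (.add (.cov false 6) (.app 3 (.app 2 (.cov
    false 6))))) (.app 3 (.add (.cov false 6) (.app 1 (.cov true 6))))))) (.app 4 (.add (.cov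
    false 8) (.app 3 (.cov true 8)))))))), .add (.cov true 2) (.add (.cov false 7) (.add (.cov
    false 8) (.add (.app 0 (.add (.cov false 2) (.app 1 (.cov true 2)))) (.add (.app 2 (.add
    (.cov true 7) (.app 1 (.cov false 7)))) (.app 3 (.add (.cov true 8) (.app 4 (.cov false
    8)))))))), .add (.cov true 3) (.add (.cov true 6) (.add (.cov true 9) (.add (.app 0 (.cov
    false 3)) (.add (.app 1 (.add (.cov false 6) (.app 2 (.add (.cov true 6) (.app 3 (.cov false
    6)))))) (.app 4 (.add (.cov false 9) (.app 3 (.add (.cov true 9) (.app 2 (.cov false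
    9)))))))))), .add (.cov true 4) (.add (.cov true 7) (.add (.cov false 9) (.add (.app 0 (.cov
    false 4)) (.add (.app 1 (.add (.cov false 7) (.app 2 (.cov true 7)))) (.app 3 (.add (.cov
    true 9) (.add (.app 2 (.add (.cov false 9) (.app 4 (.app 3 (.cov false 9))))) (.app 4 (.add
    (.cov false 9) (.app 2 (.cov true 9))))))))))), .add (.cov true 5) (.add (.cov true 8) (.add
    (.cov true 9) (.add (.app 0 (.cov false 5)) (.add (.app 1 (.cov false 8)) (.app 2 (.add
    (.cov false 9) (.app 3 (.add (.cov true 9) (.app 4 (.cov false 9))))))))))]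

end Pool.Agent.Lib.MP_f9c34c_al.G.LA
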