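import Mathlib
import Pool.Agent.Lib.MP_f9c34c_al.G.LAChk

/-! Tables and digits: the meaning of the basic steps of the checker. -/

namespace Pool.Agent.Lib.MP_f9c34c_al.G.LA

open Finset

lemma frc_eq (n : ℕ) (k : ℕ → Bool) : frc n k = k n := rfl

lemma tab_eq {α : Type} (n : ℕ) (f : ℕ → (α → Bool) → Bool) (F : ℕ → α)
    (h : ∀ m k, f m k = k (F m)) (k : List α → Bool) :
    tab n f k = k ((List.range n).map F) := by
  have key : ∀ (n : ℕ) (acc : List α), Nat.rec (motive := fun _ => List α → Bool) k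
      (fun m ih acc => f m fun x => ih (List.cons x acc)) n acc =
      k ((List.range n).map F ++ acc) := by
    intro n
    induction n with
    | zero => intro acc; rfl
    | succ n ih =>
      intro acc
      show (f n fun x => _) = _
      rw [h, ih]
      simp [List.range_succ]
  simpa [tab] using key n []

lemma nth_eq {α : Type} (d : α) (i : ℕ) (l : List α) : nth d i l = l.getD i d := by
  induction i generalizing l with
  | zero => cases l <;> rfl
  | succ i ih =>
    cases l with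
    | nil => rfl
    | cons a t => exact ih t

lemma nth_map {α : Type} (d : α) {i n : ℕ} (h : i < n) (F : ℕ → α) :
    nth d i ((List.range n).map F) = F i := by
  simp [nth_eq, List.getD_eq_getElem?_getD, h]

lemma nth_nil {α : Type} (d : α) (i : ℕ) : nth d i [] = d := by simp [nth_eq]

lemma get_nil (e a b c : ℕ) : get [] e a b c = 0 := by simp [get, nth_nil]

lemma get_eq (t : Vec) (e a b c : ℕ) : get t e a b c = get3 (nth [] e t) a b c := rfl

lemma allL_iff (f : ℕ → Bool) (l : List ℕ) : allL f l = true ↔ ∀ x ∈ l, f x = true := by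
  induction l with
  | nil => simp [allL]
  | cons x l ih =>
    have : allL f (x :: l) = Bool.rec (motive := fun _ => Bool) false (allL f l) (f x) := rfl
    rw [this, List.forall_mem_cons, ← ih]
    cases f x <;> simp

lemma tab3_spec (r : ℕ) (f : ℕ → ℕ → ℕ → ℕ → ℕ) :
    ∃ X : L3, (∀ z a b c, z + a + b + c = r → get3 X a b c = f z a b c) ∧
      ∀ k, tab3 r f k = k X := by
  refine ⟨(List.range (r + 1)).map fun a => (List.range (r - a + 1)).map fun b =>
    (List.range (r - a - b + 1)).map fun c => f (r - a - b - c) a b c, fun z a b c h => ?_,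
    fun k => ?_⟩
  · rw [get3, nth_map _ (by omega), nth_map _ (by omega), nth_map _ (by omega)]
    congr 1
    omega
  · refine tab_eq _ _ _ (fun a k => ?_) k
    rw [frc_eq]
    refine tab_eq _ _ _ (fun b k => ?_) k
    rw [frc_eq]
    exact tab_eq _ _ _ (fun c k => rfl) k

lemma tab4_spec (K : ℕ) (f : ℕ → ℕ → ℕ → ℕ → ℕ → ℕ) :
    ∃ X : Vec, (∀ z a b c e, e < K → z + a + b + c + e = 10 → get X e a b c = f z a b c e) ∧
      ∀ k, tab4 K f k = k X := by
  choose X hX hk using fun e => tab3_spec (10 - e) fun z a b c => f z a b c e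
  refine ⟨(List.range K).map X, fun z a b c e he h => ?_, fun k => tab_eq _ _ _ (fun e k => hk e k) k⟩
  rw [get_eq, nth_map _ he]
  exact hX e z a b c (by omega)

lemma lsum_eq (tb : List (List ℕ)) (g : ℕ → ℕ → ℕ) (n m : ℕ) :
    lsum tb g n m = g n m + ∑ j ∈ range n, (tb.getD n []).getD j 0 * g (n - 1 - j) (m + 1 + j) := by
  have key : ∀ (n : ℕ) (cs : List ℕ) (m s : ℕ),
      Nat.rec (motive := fun _ => List ℕ → ℕ → ℕ → ℕ) (fun _ _ s => s)
      (fun i ih cs m s => List.rec (motive := fun _ => ℕ) s (fun c cs _ =>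
        Nat.rec (motive := fun _ => ℕ) 0 (fun m _ => ih cs m (Nat.add s (Nat.mul c (g i m))))
          (Nat.add m 2)) cs) n cs m s =
      s + ∑ j ∈ range n, cs.getD j 0 * g (n - 1 - j) (m + 1 + j) := by
    intro n
    induction n with
    | zero => intro cs m s; rfl
    | succ n ih =>
      intro cs m s
      cases cs with
      | nil => simp
      | cons c cs =>
        refine (ih cs (m + 1) (s + c * g n (m + 1))).trans ?_
        rw [sum_range_succ', add_assoc s, add_comm (c * _)]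
        congr 2
        refine sum_congr rfl fun j _ => ?_
        rw [List.getD_cons_succ]
        congr 2 <;> omega
  rw [lsum, key, nth_eq]

/-- The digits of `X` in base `B` represent the integers `c l` modulo 13, and the top digit
bounds the others. -/
def Rep (B m X : ℕ) (c : ℕ → ℚ) : Prop :=
  ∃ (d : ℕ → ℕ) (T : ℕ), X = ∑ l ∈ range m, d l * B ^ l + T * B ^ m ∧
    ∀ l < m, d l ≤ T ∧ ∃ k : ℤ, c l = d l + 13 * k

variable {B m : ℕ}

lemma Rep.zero : Rep B m 0 0 := ⟨0, 0, by simp, fun l _ => ⟨le_rfl, 0, by simp⟩⟩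

lemma Rep.add {X Y : ℕ} {c c' : ℕ → ℚ} (h : Rep B m X c) (h' : Rep B m Y c') :
    Rep B m (X + Y) (c + c') := by
  obtain ⟨d, T, rfl, h⟩ := h
  obtain ⟨d', T', rfl, h'⟩ := h'
  refine ⟨d + d', T + T', by simp only [Pi.add_apply, add_mul, sum_add_distrib]; ring,
    fun l hl => ?_⟩
  obtain ⟨h1, k, h2⟩ := h l hl
  obtain ⟨h3, k', h4⟩ := h' l hl
  exact ⟨add_le_add h1 h3, k + k', by simp only [Pi.add_apply, h2, h4]; push_cast; ring⟩

lemma Rep.smul {X : ℕ} {c : ℕ → ℚ} (h : Rep B m X c) (n : ℕ) (n' : ℤ) (e : (13 : ℤ) ∣ n' - n) :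
    Rep B m (n * X) (n' • c) := by
  obtain ⟨d, T, rfl, h⟩ := h
  obtain ⟨u, hu⟩ := e
  obtain rfl : n' = n + 13 * u := by omega
  refine ⟨fun l => n * d l, n * T, by simp only [mul_add, mul_sum, mul_assoc], fun l hl => ?_⟩
  obtain ⟨h1, k, h2⟩ := h l hl
  refine ⟨Nat.mul_le_mul_left n h1, n * k + u * d l + 13 * u * k, ?_⟩
  simp only [Pi.smul_apply, h2, zsmul_eq_mul]
  push_cast
  ring

lemma Rep.sum {X : ℕ → ℕ} {c : ℕ → ℕ → ℚ} (n : ℕ) (h : ∀ j < n, Rep B m (X j) (c j)) :
    Rep B m (∑ j ∈ range n, X j) (∑ j ∈ range n, c j) := by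
  induction n with
  | zero => exact Rep.zero
  | succ n ih =>
    rw [sum_range_succ, sum_range_succ]
    exact (ih fun j hj => h j (by omega)).add (h n (by omega))

lemma Rep.int {X : ℕ} {c : ℕ → ℚ} (h : Rep B m X c) {l : ℕ} (hl : l < m) : ∃ k : ℤ, c l = k := by
  obtain ⟨d, T, -, h⟩ := h
  obtain ⟨-, k, h⟩ := h l hl
  exact ⟨d l + 13 * k, by rw [h]; push_cast; ring⟩

lemma and_rpt {w v : ℕ} (hv : v < 2 ^ w) (m X : ℕ) :
    ∃ d : ℕ → ℕ, X &&& rpt (2 ^ w) v m = ∑ l ∈ range m, d l * (2 ^ w) ^ l ∧ ∀ l, d l ≤ v := by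
  induction m generalizing X with
  | zero => exact ⟨0, by simp [rpt], fun _ => Nat.zero_le _⟩
  | succ m ih =>
    obtain ⟨d, hd, hd'⟩ := ih (X / 2 ^ w)
    have e : rpt (2 ^ w) v (m + 1) = v + 2 ^ w * rpt (2 ^ w) v m := rfl
    refine ⟨fun l => Nat.casesOn l (X % 2 ^ w &&& v) d, ?_, fun l => ?_⟩
    · rw [← Nat.div_add_mod (X &&& _) (2 ^ w), Nat.and_div_two_pow, Nat.and_mod_two_pow, e,
        Nat.add_mul_div_left _ _ (by positivity), Nat.add_mul_mod_self_left, Nat.div_eq_of_lt hv,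
        Nat.mod_eq_of_lt hv, zero_add, hd, sum_range_succ', mul_sum]
      simp only [pow_zero, mul_one]
      exact congrArg₂ _ (sum_congr rfl fun l _ => by ring) rfl
    · cases l with
      | zero => exact Nat.and_le_right
      | succ l => exact hd' l

lemma digits_eq (m : ℕ) (d d' : ℕ → ℕ) (T T' : ℕ) (h : ∀ l < m, d l < B ∧ d' l < B)
    (e : ∑ l ∈ range m, d l * B ^ l + T * B ^ m = ∑ l ∈ range m, d' l * B ^ l + T' * B ^ m) :
    ∀ l < m, d l = d' l := by
  induction m generalizing T T' with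
  | zero => intro l hl; omega
  | succ m ih =>
    have h1 := ih (d m + T * B) (d' m + T' * B) (fun l hl => h l (by omega))
      (by rw [sum_range_succ, sum_range_succ] at e; linear_combination e)
    have h2 : ∑ l ∈ range m, d l * B ^ l = ∑ l ∈ range m, d' l * B ^ l :=
      sum_congr rfl fun l hl => by rw [h1 l (mem_range.1 hl)]
    obtain ⟨h3, h4⟩ := h m (by omega)
    have h5 : d m + T * B = d' m + T' * B := by
      refine Nat.eq_of_mul_eq_mul_right (pow_pos (by omega : 0 < B) m) ?_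
      rw [sum_range_succ, sum_range_succ, h2] at e
      have : (d m + T * B) * B ^ m + ∑ l ∈ range m, d' l * B ^ l =
        (d' m + T' * B) * B ^ m + ∑ l ∈ range m, d' l * B ^ l := by linear_combination e
      exact Nat.add_right_cancel this
    intro l hl
    rcases Nat.lt_succ_iff_lt_or_eq.1 hl with hl | rfl
    · exact h1 l hl
    · have := congrArg (· % B) h5
      simpa [Nat.mod_eq_of_lt h3, Nat.mod_eq_of_lt h4] using this

lemma tst_sound {w x : ℕ} (hw : 4 ≤ w) {c : ℕ → ℚ} (h : Rep (2 ^ w) m x c) (ε : ℕ → ℕ)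
    (hε : ∀ l, ε l ≤ 1)
    (ht : tst ((2 ^ w) ^ m) ((2 ^ w) ^ m * 2 ^ w) (rpt (2 ^ w) (2 ^ (w - 4) - 1) m)
      (∑ l ∈ range m, ε l * (2 ^ w) ^ l) x = true) {l : ℕ} (hl : l < m) :
    ∃ k : ℤ, c l = ε l + 13 * k := by
  obtain ⟨u, rfl⟩ : ∃ u, w = u + 4 := ⟨w - 4, by omega⟩
  have hp : 0 < 2 ^ u := by positivity
  have hB : 2 ^ (u + 4) = 16 * 2 ^ u := by ring
  obtain ⟨q, hq, hq'⟩ := and_rpt (w := u + 4) (v := 2 ^ u - 1) (by omega) m
    ((x % (2 ^ (u + 4)) ^ m - ∑ l ∈ range m, ε l * (2 ^ (u + 4)) ^ l) / 13)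
  rw [tst] at ht
  cases hb : Nat.ble (Nat.add x 1) ((2 ^ (u + 4)) ^ m * 2 ^ (u + 4)) with
  | false => rw [hb] at ht; cases ht
  | true =>
    rw [hb] at ht
    have h1 : x + 1 ≤ _ := Nat.le_of_ble_eq_true hb
    have h2 : x = 13 * (_ &&& rpt _ (2 ^ u - 1) m) + _ + x / _ * _ := Nat.eq_of_beq_eq_true ht
    have h3 := h2.trans (congrArg (fun y => 13 * y + _ + _) hq)
    obtain ⟨d, T, hx, h⟩ := h
    have hT : T < 2 ^ (u + 4) := by
      refine Nat.lt_of_mul_lt_mul_right (a := (2 ^ (u + 4)) ^ m) ?_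
      rw [mul_comm (2 ^ (u + 4))]
      omega
    have h4 := digits_eq (B := 2 ^ (u + 4)) m d (fun l => 13 * q l + ε l) T
      (x / (2 ^ (u + 4)) ^ m) (fun l hl => ⟨(h l hl).1.trans_lt hT, by
        have := hq' l
        have := hε l
        omega⟩) (by
        rw [← hx]
        refine h3.trans ?_
        simp only [add_mul, sum_add_distrib, mul_sum, mul_assoc]) l hl
    obtain ⟨-, k, hk⟩ := h l hl
    exact ⟨q l + k, by rw [hk, h4]; push_cast; ring⟩

lemma ud_rep {w : ℕ} (hw : 4 ≤ w) (n : ℕ) (D : List ℕ) (e a b c : ℕ) :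
    ∃ u, Rep (2 ^ w) m (ud n (rpt (2 ^ w) 15 m) (15 * (2 ^ w) ^ m) D e a b c) u := by
  obtain ⟨d, hd, hd'⟩ := and_rpt (w := w) (v := 15)
    (lt_of_lt_of_le (by norm_num) (Nat.pow_le_pow_right (by norm_num) hw)) m
    (Nat.shiftRight (nth 0 (Nat.div (Nat.add (get3 bs e a b) c) n) D)
      (Nat.mul 4 (Nat.mod (Nat.add (get3 bs e a b) c) n)))
  exact ⟨fun l => d l, d, 15, congrArg (· + _) hd, fun l _ => ⟨hd' l, 0, by simp⟩⟩

lemma cvr_mem (P : List (List ℕ)) (q : ℕ) (h : (cvr P).testBit q = true) :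
    ∃ r, r < P.length ∧ ∃ x ∈ nth [] r P, key x = q := by
  induction P with
  | nil => simp [cvr] at h
  | cons l P ih =>
    have key' : ∀ l : List ℕ, (List.rec (motive := fun _ => ℕ) (cvr P)
        (fun x _ s => Nat.lor (Nat.pow 2 (key x)) s) l).testBit q = true →
        (cvr P).testBit q = true ∨ ∃ x ∈ l, key x = q := by
      intro l
      induction l with
      | nil => exact Or.inl
      | cons x l ih =>
        intro h
        have h' : (2 ^ key x ||| _).testBit q = true := h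
        rw [Nat.testBit_or, Bool.or_eq_true, Nat.testBit_two_pow, decide_eq_true_eq] at h'
        rcases h' with h' | h'
        · exact Or.inr ⟨x, List.mem_cons_self, h'⟩
        · exact (ih h').imp id fun ⟨y, hy, e⟩ => ⟨y, List.mem_cons_of_mem _ hy, e⟩
    rcases key' l h with h | h
    · obtain ⟨r, hr, h⟩ := ih h
      exact ⟨r + 1, by simpa using hr, h⟩
    · exact ⟨0, by simp, h⟩

lemma tri {W : Type} [AddCommGroup W] [Module ℚ W] {N : ℕ} (w : Fin N → W)
    (h : ∀ α : Fin N, ∃ L : W →ₗ[ℚ] ℚ, ∀ κ : Fin N, ∃ k : ℤ, L (w κ) = k ∧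
      (α ≤ κ → (13 : ℤ) ∣ k - if κ = α then 1 else 0)) : LinearIndependent ℚ w := by
  choose L k hL hk using h
  let M : Matrix (Fin N) (Fin N) ℤ := Matrix.of k
  have h1 : ((Int.castRingHom (ZMod 13)).mapMatrix M).det = 1 := by
    have e : ∀ α κ, α ≤ κ → (k α κ : ZMod 13) = if κ = α then 1 else 0 := fun α κ h => by
      have := (ZMod.intCast_zmod_eq_zero_iff_dvd _ 13).2 (hk α κ h)
      split_ifs at this ⊢ <;> simpa [sub_eq_zero] using this
    rw [Matrix.det_of_isLowerTriangular]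
    · exact prod_eq_one fun α _ => by simpa [M] using e α α le_rfl
    · intro α κ h
      have h : α < κ := h
      simpa [M, h.ne'] using e α κ h.le
  have h2 : ((Int.castRingHom ℚ).mapMatrix M).det ≠ 0 := by
    rw [← RingHom.map_det] at h1 ⊢
    intro h
    have : M.det = 0 := by simpa using h
    rw [this] at h1
    exact absurd h1 (by decide)
  refine Fintype.linearIndependent_iff.2 fun c hc => congrFun
    (Matrix.eq_zero_of_mulVec_eq_zero h2 (funext fun α => ?_))
  have := congrArg (L α) hc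
  simp only [map_sum, map_smul, hL, map_zero, smul_eq_mul] at this
  simpa [Matrix.mulVec, dotProduct, M, mul_comm] using this

end Pool.Agent.Lib.MP_f9c34c_al.G.LA
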