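import Pool.Agent.Lib.MP_f9c34c_al.G.Cells
import Pool.Agent.Lib.MP_f9c34c_al.G.LARep

/-! The meaning of the tables: values of covectors on monomials. -/

namespace Pool.Agent.Lib.MP_f9c34c_al.G.LA

open Finset

/-- The table of binomial coefficients is correct modulo 13. -/
def TbOK (tb : List (List ℕ)) (t : ℤ) : Prop :=
  ∀ n < 11, ∀ j < n, (13 : ℤ) ∣ (n.choose (j + 1) * t ^ (j + 1) : ℤ) - ((tb.getD n []).getD j 0 : ℕ)

lemma okP : TbOK tbP 1 := by unfold TbOK; decide +kernel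

lemma okM : TbOK tbM (-1) := by unfold TbOK; decide +kernel

lemma okT : TbOK tb2 2 := by unfold TbOK; decide +kernel

variable {A : Type} [CommRing A] [Algebra ℚ A] {B m : ℕ}

lemma Rep.of_eq (g : A →ₗ[ℚ] ℕ → ℚ) {X : ℕ} {x y : A} (h : Rep B m X (g x)) (e : x = y) :
    Rep B m X (g y) := e ▸ h

lemma lsum_rep {tb : List (List ℕ)} {t : ℤ} (htb : TbOK tb t) (g : A →ₗ[ℚ] ℕ → ℚ) (x y r : A)
    (G : ℕ → ℕ → ℕ) (n k : ℕ) (hn : n < 11)
    (h : ∀ i j, i + j = n + k → i ≤ n → Rep B m (G i j) (g (x ^ i * y ^ j * r))) :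
    Rep B m (lsum tb G n k) (g ((x + t * y) ^ n * y ^ k * r)) := by
  have e : (x + t * y) ^ n * y ^ k * r = x ^ n * y ^ k * r + ∑ j ∈ range n,
      (n.choose (j + 1) * t ^ (j + 1) : ℤ) • (x ^ (n - 1 - j) * y ^ (k + 1 + j) * r) := by
    rw [add_comm x, add_pow, sum_range_succ', add_mul, add_mul, add_comm, sum_mul, sum_mul]
    refine congrArg₂ _ (by simp) (sum_congr rfl fun j _ => ?_)
    rw [zsmul_eq_mul, show n - (j + 1) = n - 1 - j by omega]
    push_cast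
    ring
  rw [e, lsum_eq, map_add, map_sum]
  refine (h n k rfl le_rfl).add (Rep.sum n fun j hj => ?_)
  rw [map_zsmul]
  exact (h _ _ (by omega) (by omega)).smul _ _ (htb n hn j hj)

/-- A monomial in five elements. -/
def mo (q0 q1 q2 q3 q4 : A) (z a b c e : ℕ) : A := q0 ^ z * q1 ^ a * q2 ^ b * q3 ^ c * q4 ^ e

/-- The table holds the values of the covectors `g` on the monomials of degree ten. -/
def Sem (B m K : ℕ) (t : Vec) (g : A →ₗ[ℚ] ℕ → ℚ) (q0 q1 q2 q3 q4 : A) : Prop :=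
  ∀ z a b c e, e < K → z + a + b + c + e = 10 →
    Rep B m (get t e a b c) (g (mo q0 q1 q2 q3 q4 z a b c e))

variable {t : Vec} {g : A →ₗ[ℚ] ℕ → ℚ} {q0 q1 q2 q3 q4 : A}

lemma tab4_sem {K : ℕ} {f : ℕ → ℕ → ℕ → ℕ → ℕ → ℕ} (h : ∀ z a b c e, e < K →
    z + a + b + c + e = 10 → Rep B m (f z a b c e) (g (mo q0 q1 q2 q3 q4 z a b c e))) :
    ∃ X, Sem B m K X g q0 q1 q2 q3 q4 ∧ ∀ k, tab4 K f k = k X := by
  obtain ⟨X, hX, hk⟩ := tab4_spec K f
  exact ⟨X, fun z a b c e he hs => hX z a b c e he hs ▸ h z a b c e he hs, hk⟩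

lemma sh20_sem (h : Sem B m 2 t g q0 q1 q2 q3 q4) :
    ∃ X, Sem B m 2 X g q0 q1 (q2 + q0) q3 q4 ∧ ∀ k, sh20 t k = k X :=
  tab4_sem fun z a b c e he hs => (lsum_rep okP g q2 q0 (q1 ^ a * q3 ^ c * q4 ^ e)
    (fun b _ => get t e a b c) b z (by omega) fun i j hij hi =>
      (h j a i c e (by omega) (by omega)).of_eq g (by simp only [mo]; ring)).of_eq g
    (by simp only [mo]; push_cast; ring)

lemma sh31_sem (h : Sem B m 2 t g q0 q1 q2 q3 q4) :
    ∃ X, Sem B m 2 X g q0 q1 q2 (q3 + q1) q4 ∧ ∀ k, sh31 t k = k X :=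
  tab4_sem fun z a b c e he hs => (lsum_rep okP g q3 q1 (q0 ^ z * q2 ^ b * q4 ^ e)
    (fun c a => get t e a b c) c a (by omega) fun i j hij hi =>
      (h z j b i e (by omega) (by omega)).of_eq g (by simp only [mo]; ring)).of_eq g
    (by simp only [mo]; push_cast; ring)

lemma sh02_sem (h : Sem B m 2 t g q0 q1 q2 q3 q4) :
    ∃ X, Sem B m 2 X g (q0 - q2) q1 q2 q3 q4 ∧ ∀ k, sh02 t k = k X :=
  tab4_sem fun z a b c e he hs => (lsum_rep okM g q0 q2 (q1 ^ a * q3 ^ c * q4 ^ e)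
    (fun _ b => get t e a b c) z b (by omega) fun i j hij hi =>
      (h i a j c e (by omega) (by omega)).of_eq g (by simp only [mo]; ring)).of_eq g
    (by simp only [mo]; push_cast; ring)

lemma sh13_sem (h : Sem B m 2 t g q0 q1 q2 q3 q4) :
    ∃ X, Sem B m 2 X g q0 (q1 - q3) q2 q3 q4 ∧ ∀ k, sh13 t k = k X :=
  tab4_sem fun z a b c e he hs => (lsum_rep okM g q1 q3 (q0 ^ z * q2 ^ b * q4 ^ e)
    (fun a c => get t e a b c) a c (by omega) fun i j hij hi =>
      (h z i b j e (by omega) (by omega)).of_eq g (by simp only [mo]; ring)).of_eq g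
    (by simp only [mo]; push_cast; ring)

lemma sh01_sem (h : Sem B m 2 t g q0 q1 q2 q3 q4) :
    ∃ X, Sem B m 2 X g (q0 - q1) q1 q2 q3 q4 ∧ ∀ k, sh01 t k = k X :=
  tab4_sem fun z a b c e he hs => (lsum_rep okM g q0 q1 (q2 ^ b * q3 ^ c * q4 ^ e)
    (fun _ a => get t e a b c) z a (by omega) fun i j hij hi =>
      (h i j b c e (by omega) (by omega)).of_eq g (by simp only [mo]; ring)).of_eq g
    (by simp only [mo]; push_cast; ring)

lemma sh23_sem (h : Sem B m 2 t g q0 q1 q2 q3 q4) :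
    ∃ X, Sem B m 2 X g q0 q1 (q2 - q3) q3 q4 ∧ ∀ k, sh23 t k = k X :=
  tab4_sem fun z a b c e he hs => (lsum_rep okM g q2 q3 (q0 ^ z * q1 ^ a * q4 ^ e)
    (fun b c => get t e a b c) b c (by omega) fun i j hij hi =>
      (h z a i j e (by omega) (by omega)).of_eq g (by simp only [mo]; ring)).of_eq g
    (by simp only [mo]; push_cast; ring)

lemma sh10_sem (h : Sem B m 2 t g q0 q1 q2 q3 q4) :
    ∃ X, Sem B m 2 X g q0 (q1 + q0) q2 q3 q4 ∧ ∀ k, sh10 t k = k X :=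
  tab4_sem fun z a b c e he hs => (lsum_rep okP g q1 q0 (q2 ^ b * q3 ^ c * q4 ^ e)
    (fun a _ => get t e a b c) a z (by omega) fun i j hij hi =>
      (h j i b c e (by omega) (by omega)).of_eq g (by simp only [mo]; ring)).of_eq g
    (by simp only [mo]; push_cast; ring)

lemma sh32_sem (h : Sem B m 2 t g q0 q1 q2 q3 q4) :
    ∃ X, Sem B m 2 X g q0 q1 q2 (q3 + q2) q4 ∧ ∀ k, sh32 t k = k X :=
  tab4_sem fun z a b c e he hs => (lsum_rep okP g q3 q2 (q0 ^ z * q1 ^ a * q4 ^ e)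
    (fun c b => get t e a b c) c b (by omega) fun i j hij hi =>
      (h z a j i e (by omega) (by omega)).of_eq g (by simp only [mo]; ring)).of_eq g
    (by simp only [mo]; push_cast; ring)

lemma sh34_sem (h : Sem B m 11 t g q0 q1 q2 q3 q4) :
    ∃ X, Sem B m 2 X g q0 q1 q2 (q3 + 2 * q4) q4 ∧ ∀ k, sh34 t k = k X :=
  tab4_sem fun z a b c e he hs => (lsum_rep okT g q3 q4 (q0 ^ z * q1 ^ a * q2 ^ b)
    (fun c e => get t e a b c) c e (by omega) fun i j hij hi =>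
      (h z a b i j (by omega) (by omega)).of_eq g (by simp only [mo]; ring)).of_eq g
    (by simp only [mo]; push_cast; ring)

lemma sh40_sem (h : Sem B m 2 t g q0 q1 q2 q3 q4) :
    ∃ X, Sem B m 2 X g q0 q1 q2 q3 (q4 - q0) ∧ ∀ k, sh40 t k = k X :=
  tab4_sem fun z a b c e he hs => (lsum_rep okM g q4 q0 (q1 ^ a * q2 ^ b * q3 ^ c)
    (fun e _ => get t e a b c) e z (by omega) fun i j hij hi =>
      (h j a b c i (by omega) (by omega)).of_eq g (by simp only [mo]; ring)).of_eq g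
    (by simp only [mo]; push_cast; ring)

lemma Rep.lev (hq : q1 * q2 = q0 * q3 + q4 ^ 2) {z a b c e X Y : ℕ}
    (h : Rep B m X (g (mo q0 q1 q2 q3 q4 z (a + 1) (b + 1) c e)))
    (h' : Rep B m Y (g (mo q0 q1 q2 q3 q4 (z + 1) a b (c + 1) e))) :
    Rep B m (X + 12 * Y) (g (mo q0 q1 q2 q3 q4 z a b c (e + 2))) := by
  have := h.add (h'.smul 12 (-1) (by decide))
  rw [← map_zsmul, ← map_add] at this
  refine this.of_eq g ?_
  simp only [mo, neg_smul, one_smul]
  linear_combination (q0 ^ z * q1 ^ a * q2 ^ b * q3 ^ c * q4 ^ e) * hq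

lemma extP_sem (hq : q1 * q2 = q0 * q3 + q4 ^ 2) (n d : ℕ) (hd : d + n = 9) (x y : L3)
    (hx : ∀ z a b c, z + a + b + c + d = 10 →
      Rep B m (get3 x a b c) (g (mo q0 q1 q2 q3 q4 z a b c d)))
    (hy : ∀ z a b c, z + a + b + c + (d + 1) = 10 →
      Rep B m (get3 y a b c) (g (mo q0 q1 q2 q3 q4 z a b c (d + 1)))) :
    ∃ L : Vec, (∀ j < n + 2, ∀ z a b c, z + a + b + c + (d + j) = 10 →
      Rep B m (get L j a b c) (g (mo q0 q1 q2 q3 q4 z a b c (d + j)))) ∧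
      ∀ k, extP n x y k = k L := by
  induction n generalizing d x y with
  | zero =>
    refine ⟨[x, y], fun j hj => ?_, fun k => rfl⟩
    interval_cases j
    exacts [hx, hy]
  | succ n ih =>
    obtain ⟨w, hw, hk⟩ := tab3_spec n fun _ a b c => Nat.add (get3 x (Nat.succ a) (Nat.succ b) c)
      (Nat.mul 12 (get3 x a b (Nat.succ c)))
    obtain ⟨L, hL, hk'⟩ := ih (d + 1) (by omega) y w hy fun z a b c hs => by
      rw [hw z a b c (by omega)]
      exact Rep.lev hq (hx _ _ _ _ (by omega)) (hx _ _ _ _ (by omega))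
    refine ⟨x :: L, fun j hj => ?_, fun k => (hk _).trans (hk' _)⟩
    cases j with
    | zero => exact hx
    | succ j =>
      have := hL j (by omega)
      rwa [show d + 1 + j = d + (j + 1) by omega] at this

lemma getx_rep (hq : q1 * q2 = q0 * q3 + q4 ^ 2) (h : Sem B m 2 t g q0 q1 q2 q3 q4)
    {z a b c e : ℕ} (he : e ≤ 2) (hs : z + a + b + c + e = 10) :
    Rep B m (getx t e a b c) (g (mo q0 q1 q2 q3 q4 z a b c e)) := by
  interval_cases e
  · exact h _ _ _ _ _ (by omega) hs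
  · exact h _ _ _ _ _ (by omega) hs
  · exact Rep.lev (e := 0) hq (h _ _ _ _ _ (by omega) (by omega))
      (h _ _ _ _ _ (by omega) (by omega))

variable {p : Fin 5 → A} {φ : Fin 5 → A →ₐ[ℚ] A}

lemma op_sem (hrel : p 1 * p 2 = p 0 * p 3 + p 4 ^ 2)
    (hφ : ∀ i c, φ i (p c) = ∑ c', (Wm i c c' : ℚ) • p c') (i : Fin 5)
    (h : Sem B m 2 t g (p 0) (p 1) (p 2) (p 3) (p 4)) :
    ∃ X, Sem B m 2 X (g ∘ₗ (φ i).toLinearMap) (p 0) (p 1) (p 2) (p 3) (p 4) ∧
      ∀ k, op i t k = k X := by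
  have key : ∀ {X : Vec} {q0 q1 q2 q3 q4 : A}, Sem B m 2 X g q0 q1 q2 q3 q4 → φ i (p 0) = q0 →
      φ i (p 1) = q1 → φ i (p 2) = q2 → φ i (p 3) = q3 → φ i (p 4) = q4 →
      Sem B m 2 X (g ∘ₗ (φ i).toLinearMap) (p 0) (p 1) (p 2) (p 3) (p 4) := by
    rintro X _ _ _ _ _ h rfl rfl rfl rfl rfl z a b c e he hs
    exact (h z a b c e he hs).of_eq g (by simp [mo])
  have h2 : ∀ x : A, (2 : ℚ) • x = 2 * x := fun x => by rw [two_smul, two_mul]
  fin_cases i
  · obtain ⟨X, h, e1⟩ := sh20_sem h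
    obtain ⟨X, h, e2⟩ := sh31_sem h
    refine ⟨X, key h ?_ ?_ ?_ ?_ ?_, fun k => by
      simp only [op, nth_eq, List.getD_cons_zero, e1, e2]⟩ <;>
      (rw [hφ]; simp [Wm, Fin.sum_univ_five, add_comm])
  · obtain ⟨X, h, e1⟩ := sh02_sem h
    obtain ⟨X, h, e2⟩ := sh13_sem h
    refine ⟨X, key h ?_ ?_ ?_ ?_ ?_, fun k => by
      simp only [op, nth_eq, List.getD_cons_succ, List.getD_cons_zero, e1, e2]⟩ <;>
      (rw [hφ]; simp [Wm, Fin.sum_univ_five, sub_eq_add_neg])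
  · obtain ⟨X, h, e0⟩ := extP_sem hrel 9 0 rfl (nth [] 0 t) (nth [] 1 t)
      (fun z a b c => h z a b c 0 (by omega)) fun z a b c => h z a b c 1 (by omega)
    have h : Sem B m 11 X g (p 0) (p 1) (p 2) (p 3) (p 4) := fun z a b c e he hs => by
      simpa using h e he z a b c (by omega)
    obtain ⟨X, h, e1⟩ := sh34_sem h
    obtain ⟨X, h, e2⟩ := sh31_sem h
    obtain ⟨X, h, e3⟩ := sh32_sem h
    obtain ⟨X, h, e4⟩ := sh10_sem h
    obtain ⟨X, h, e5⟩ := sh20_sem h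
    obtain ⟨X, h, e6⟩ := sh40_sem h
    refine ⟨X, key h ?_ ?_ ?_ ?_ ?_, fun k => by
      simp only [op, nth_eq (α := Vec → (Vec → Bool) → Bool), List.getD_cons_succ,
        List.getD_cons_zero, e0, e1, e2, e3, e4, e5, e6]⟩ <;>
      (rw [hφ]; simp [Wm, Fin.sum_univ_five, h2] <;> ring)
  · obtain ⟨X, h, e1⟩ := sh01_sem h
    obtain ⟨X, h, e2⟩ := sh23_sem h
    refine ⟨X, key h ?_ ?_ ?_ ?_ ?_, fun k => by
      simp only [op, nth_eq, List.getD_cons_succ, List.getD_cons_zero, e1, e2]⟩ <;>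
      (rw [hφ]; simp [Wm, Fin.sum_univ_five, sub_eq_add_neg])
  · obtain ⟨X, h, e1⟩ := sh10_sem h
    obtain ⟨X, h, e2⟩ := sh32_sem h
    refine ⟨X, key h ?_ ?_ ?_ ?_ ?_, fun k => by
      simp only [op, nth_eq, List.getD_cons_succ, List.getD_cons_zero, e1, e2]⟩ <;>
      (rw [hφ]; simp [Wm, Fin.sum_univ_five, add_comm])

/-- The covectors described by an expression. -/
def semA (φ : Fin 5 → A →ₐ[ℚ] A) (l : ℕ → A →ₗ[ℚ] ℕ → ℚ) : Ex → A →ₗ[ℚ] ℕ → ℚ
  | .zero => 0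
  | .cov s c => if s then l c else -l c
  | .app i E => semA φ l E ∘ₗ (φ i).toLinearMap
  | .add E F => semA φ l E + semA φ l F

/-- An optional table; the missing table stands for zero. -/
def SemO (B m : ℕ) (p : Fin 5 → A) (g : A →ₗ[ℚ] ℕ → ℚ) : Option Vec → Prop
  | none => g = 0
  | some t => Sem B m 2 t g (p 0) (p 1) (p 2) (p 3) (p 4)

lemma ev_sem (hrel : p 1 * p 2 = p 0 * p 3 + p 4 ^ 2)
    (hφ : ∀ i c, φ i (p c) = ∑ c', (Wm i c c' : ℚ) • p c') {n M T : ℕ} {D : List (List ℕ)}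
    {l : ℕ → A →ₗ[ℚ] ℕ → ℚ} (h0 : ∀ j, nth [] j D = [] → l j = 0)
    (hl : ∀ j, nth [] j D ≠ [] → ∀ z a b c e, e < 2 → z + a + b + c + e = 10 →
      Rep B m (ud n M T (nth [] j D) e a b c) (l j (mo (p 0) (p 1) (p 2) (p 3) (p 4) z a b c e)))
    (E : Ex) : ∃ o, SemO B m p (semA φ l E) o ∧ ∀ k, ev n M T D E k = k o := by
  induction E with
  | zero => exact ⟨none, rfl, fun k => rfl⟩
  | cov s j =>
    have h0 := h0 j
    have hl := hl j
    simp only [ev]
    cases hD : nth [] j D with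
    | nil => exact ⟨none, by simp [SemO, semA, h0 hD], fun k => rfl⟩
    | cons x xs =>
      rw [hD] at hl
      obtain ⟨X, hX, hk⟩ := tab4_sem (g := semA φ l (.cov s j)) (K := 2)
        (f := fun _ a b c e => Nat.mul (Bool.rec (motive := fun _ => ℕ) 12 1 s)
          (ud n M T (List.cons x xs) e a b c)) fun z a b c e he hs => by
          cases s
          · simpa [semA] using (hl (by simp) z a b c e he hs).smul 12 (-1) (by decide)
          · simpa [semA] using (hl (by simp) z a b c e he hs).smul 1 1 (by decide)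
      exact ⟨some X, hX, fun k => hk _⟩
  | app i E ih =>
    obtain ⟨o, ho, hk⟩ := ih
    cases o with
    | none => exact ⟨none, by rw [SemO] at ho ⊢; simp [semA, ho], fun k => hk _⟩
    | some t =>
      obtain ⟨X, hX, hk'⟩ := op_sem hrel hφ i ho
      exact ⟨some X, hX, fun k => (hk _).trans (hk' _)⟩
  | add E F ih ih' =>
    obtain ⟨o, ho, hk⟩ := ih
    obtain ⟨o', ho', hk'⟩ := ih'
    cases o with
    | none =>
      rw [SemO] at ho
      exact ⟨o', by simpa [semA, ho] using ho', fun k => (hk _).trans (hk' _)⟩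
    | some x =>
      cases o' with
      | none =>
        rw [SemO] at ho'
        exact ⟨some x, by simpa [semA, ho'] using ho, fun k => (hk _).trans (hk' _)⟩
      | some y =>
        obtain ⟨X, hX, hk''⟩ := tab4_sem (g := semA φ l (.add E F)) (K := 2)
          (f := fun _ a b c e => Nat.add (get x e a b c) (get y e a b c))
          fun z a b c e he hs => (ho z a b c e he hs).add (ho' z a b c e he hs)
        exact ⟨some X, hX, fun k => (hk _).trans ((hk' _).trans (hk'' _))⟩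

omit [Algebra ℚ A] in
lemma mon_mo (z a b c e : ℕ) :
    mon p ![z, a, b, c, e] = mo (p 0) (p 1) (p 2) (p 3) (p 4) z a b c e := by
  simp [mon, mo, Fin.prod_univ_five]

lemma exists_cov
    (hind : LinearIndependent ℚ fun e : {e : Fin 5 → ℕ // ∑ c, e c = 10 ∧ e 4 ≤ 1} => mon p e.1)
    (u : ℕ → ℕ → ℕ → ℕ → ℕ → ℚ) : ∃ g : A →ₗ[ℚ] ℕ → ℚ, ∀ z a b c e, e < 2 →
      z + a + b + c + e = 10 → g (mo (p 0) (p 1) (p 2) (p 3) (p 4) z a b c e) = u e a b c := by
  obtain ⟨g, hg⟩ := LinearMap.exists_extend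
    ((Module.Basis.span hind).constr ℚ fun e => u (e.1 4) (e.1 1) (e.1 2) (e.1 3))
  refine ⟨g, fun z a b c e he hs => ?_⟩
  have := LinearMap.congr_fun hg (Module.Basis.span hind
    ⟨![z, a, b, c, e], by simpa [Fin.sum_univ_five] using hs, by simpa using Nat.le_of_lt_succ he⟩)
  rw [Module.Basis.constr_basis] at this
  simpa [mon_mo] using this

/-- The monomial of a pivot. -/
def mx (p : Fin 5 → A) (x : ℕ) : A := mo (p 0) (p 1) (p 2) (p 3) (p 4)
  (10 - (dg x 12 + dg x 8 + dg x 4 + dg x 0)) (dg x 8) (dg x 4) (dg x 0) (dg x 12)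

/-- There is a covector with integer values on the pivots that is one on the pivot `α` and zero
on the later pivots, modulo 13. -/
def Good (p : Fin 5 → A) (φ : Fin 5 → A →ₐ[ℚ] A) (tbl : List Ex) (P : List (List ℕ)) (α : ℕ) :
    Prop :=
  ∃ (l : ℕ → A →ₗ[ℚ] ℕ → ℚ) (j : ℕ), ∀ r < P.length, ∀ x ∈ nth [] r P, okx 0 x = true →
    ∃ k : ℤ, semA φ l (nth .zero r tbl) (mx p x) j = k ∧
      (α ≤ key x → (13 : ℤ) ∣ k - if key x = α then 1 else 0)

lemma okx_iff (j x : ℕ) : okx j x = true ↔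
    j ≤ dg x 12 ∧ dg x 12 ≤ 2 ∧ dg x 12 + dg x 8 + dg x 4 + dg x 0 ≤ 10 := by
  rw [okx, ← Nat.ble_eq, ← Nat.ble_eq, ← Nat.ble_eq]
  cases Nat.ble j (dg x 12) <;> cases Nat.ble (dg x 12) 2 <;> simp

lemma pvt_sound {w k0 x : ℕ} (hw : 4 ≤ w) {u : ℕ → ℚ}
    (h : Rep (2 ^ w) m (getx t (dg x 12) (dg x 8) (dg x 4) (dg x 0)) u)
    (ht : pvt k0 m (2 ^ w) ((2 ^ w) ^ m) ((2 ^ w) ^ m * 2 ^ w) (rpt (2 ^ w) (2 ^ (w - 4) - 1) m)
      t x = true) (hk : k0 ≤ key x) {j : ℕ} (hj : j < m) :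
    ∃ k : ℤ, u j = ((if key x = k0 + j then 1 else 0 : ℕ) : ℚ) + 13 * k := by
  simp only [pvt, frc_eq, Nat.ble_eq_true_of_le hk] at ht
  refine tst_sound hw h (fun j => if key x = k0 + j then 1 else 0)
    (fun j => by split_ifs <;> omega) (Eq.trans ?_ ht) hj
  congr 1
  cases hb : Nat.ble (Nat.add k0 m) (key x) with
  | true =>
    have : k0 + m ≤ key x := Nat.le_of_ble_eq_true hb
    exact sum_eq_zero fun j hj => by rw [if_neg (by have := mem_range.1 hj; omega), zero_mul]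
  | false =>
    have : ¬k0 + m ≤ key x := fun h => by rw [← Nat.ble_eq] at h; cases hb.symm.trans h
    rw [sum_eq_single (key x - k0) (fun j _ hj => by rw [if_neg (by omega), zero_mul])
      fun h => absurd (mem_range.2 (by omega)) h, if_pos (by omega), one_mul]
    rfl

theorem stg_sound (hrel : p 1 * p 2 = p 0 * p 3 + p 4 ^ 2)
    (hind : LinearIndependent ℚ fun e : {e : Fin 5 → ℕ // ∑ c, e c = 10 ∧ e 4 ≤ 1} => mon p e.1)
    (hφ : ∀ i c, φ i (p c) = ∑ c', (Wm i c c' : ℚ) • p c') {tbl : List Ex} {P : List (List ℕ)}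
    {k0 m w : ℕ} {D : List (List ℕ)} (hw : 4 ≤ w)
    (h : ∀ r < P.length, ∃ rs, r ∈ rs ∧ stg tbl P k0 m w D rs = true) {α : ℕ} (h1 : k0 ≤ α)
    (h2 : α < k0 + m) : Good p φ tbl P α := by
  choose u hu using fun j e a b c => ud_rep (m := m) hw (w / 4) (nth [] j D) e a b c
  choose g hg using fun j => exists_cov hind (u j)
  refine ⟨fun j => if nth [] j D = [] then 0 else g j, α - k0, fun r hr x hx ok => ?_⟩
  obtain ⟨o, ho, hk⟩ := ev_sem (B := 2 ^ w) (m := m) (n := w / 4) (M := rpt (2 ^ w) 15 m)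
    (T := 15 * (2 ^ w) ^ m) (D := D) (l := fun j => if nth [] j D = [] then 0 else g j) hrel hφ
    (fun j hj => if_pos hj) (fun j hj z a b c e he hs => by
      rw [if_neg hj, hg j z a b c e he hs]
      exact hu j e a b c) (nth .zero r tbl)
  obtain ⟨rs, hrs, h⟩ := h r hr
  have h := (allL_iff _ _).1 h r hrs
  obtain ⟨-, o1, o2⟩ := (okx_iff _ _).1 ok
  obtain ⟨t, ht, e⟩ : ∃ t, Sem (2 ^ w) m 2 t (semA φ (fun j => if nth [] j D = [] then 0 else g j)
      (nth .zero r tbl)) (p 0) (p 1) (p 2) (p 3) (p 4) ∧ ∀ f : Vec → Bool,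
      Option.rec (motive := fun _ => Bool) (f []) f o = f t := by
    cases o with
    | none =>
      rw [SemO] at ho
      exact ⟨[], fun z a b c e _ _ => by rw [ho, get_nil]; exact Rep.zero, fun f => rfl⟩
    | some t => exact ⟨t, ho, fun f => rfl⟩
  have hR := getx_rep hrel ht o1 (z := 10 - (dg x 12 + dg x 8 + dg x 4 + dg x 0))
    (a := dg x 8) (b := dg x 4) (c := dg x 0) (by omega)
  obtain ⟨k, hk0⟩ := hR.int (l := α - k0) (by omega)
  refine ⟨k, hk0, fun hα => ?_⟩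
  rw [blk] at h
  cases hb : allL (fun x => Nat.ble (Nat.add (key x) 1) k0) (nth [] r P) with
  | true =>
    have : key x + 1 ≤ k0 := Nat.le_of_ble_eq_true ((allL_iff _ _).1 hb x hx)
    omega
  | false =>
    rw [hb] at h
    have h := ((hk _).trans (e fun t => allL (pvt _ _ _ _ _ _ t) (nth [] r P))).symm.trans h
    obtain ⟨k', hk'⟩ := pvt_sound hw hR ((allL_iff _ _).1 h x hx) (by omega) (j := α - k0)
      (by omega)
    rw [hk0, show k0 + (α - k0) = α by omega] at hk'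
    refine ⟨k', ?_⟩
    split_ifs at hk' ⊢
    · exact_mod_cast (by push_cast at hk'; linarith : (k : ℚ) - 1 = 13 * k')
    · exact_mod_cast (by push_cast at hk'; linarith : (k : ℚ) - 0 = 13 * k')

end Pool.Agent.Lib.MP_f9c34c_al.G.LA
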