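import Pool.Agent.Lib.MP_f9c34c_al.G.Ext
import Pool.Agent.Lib.MP_f9c34c_al.G.Cells

/-! Lifting automorphisms to the extension. -/

namespace Pool.Agent.Lib.MP_f9c34c_al.G

attribute [local instance 100] LieRing.ofAssociativeRing

variable {W V : Type} [LieRing W] [LieAlgebra ℚ W] [AddCommGroup V] [Module ℚ V]

/-- An action `α` on a graded Lie algebra, its graded action `F`, and an action on the kernel of
the extension. -/
structure Act (c : Cyc W V) (e : W) (α F : F5 →* Module.End ℚ W) (ρ : F5 →* Module.End ℚ V) :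
    Prop where
  gd : c.Gd e
  zero : ∀ x ∈ eig e 0, ∃ t : ℚ, x = t • e
  aL : ∀ w, IsL (α w)
  fL : ∀ w, IsL (F w)
  fe : ∀ w, F w e = e
  aF : ∀ w, α w - F w ∈ Raise e 1
  ch : ∀ w a b, c.ch (F w a) (F w b) = ρ w (c.ch a b)

/-- `φ` lifts the action of `w`. -/
structure Lf (c : Cyc W V) (e : W) (α F : F5 →* Module.End ℚ W) (ρ : F5 →* Module.End ℚ V)
    (w : F5) (φ : Module.End ℚ (Ext c)) : Prop where
  isL : IsL φ
  cov : ∀ x, p1 c (φ x) = α w (p1 c x)
  gr : φ - blk c (F w) (ρ w) ∈ Raise (mkE c e 0) 1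

variable {c : Cyc W V} {e : W} {α F : F5 →* Module.End ℚ W} {ρ : F5 →* Module.End ℚ V}

lemma Act.ep_F (h : Act c e α F ρ) (w : F5) (a : W) : c.ep (F w a) = c.ep a := by
  have ha : a ∈ eig e 0 ⊔ GF e (0 + 1) := by
    rw [← GF_succ (by norm_num), h.gd.top]; trivial
  obtain ⟨y, hy, z, hz, rfl⟩ := Submodule.mem_sup.1 ha
  obtain ⟨t, rfl⟩ := h.zero y hy
  have hz' : F w z ∈ GF e 1 := (h.fL w).raise (h.fe w) 1 z hz
  rw [map_add, map_smul, h.fe, map_add, map_add, ep_GF hz', ep_GF hz]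

lemma Act.ep_a (h : Act c e α F ρ) (w : F5) (a : W) : c.ep (α w a) = c.ep a := by
  have ha : (α w - F w) a ∈ GF e 1 := h.aF w 0 a (by rw [h.gd.top]; trivial)
  have := ep_GF (c := c) ha
  rw [LinearMap.sub_apply, map_sub, sub_eq_zero] at this
  rw [this, h.ep_F]

lemma Act.blk_isL (h : Act c e α F ρ) (w : F5) : IsL (blk c (F w) (ρ w)) :=
  fun x y => by
  refine Ext_ext c ?_ ?_
  · rw [p1_blk, p1_lie, p1_lie, p1_blk, p1_blk, h.fL]
  · simp only [p2_blk, p2_lie, p1_blk, h.ep_F, h.ch, map_add, map_sub, map_smul]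

lemma Act.blk_raise (h : Act c e α F ρ) (w : F5) : blk c (F w) (ρ w) ∈ Raise (mkE c e 0) 0 :=
  (h.blk_isL w).raise (Ext_ext c (by simp [h.fe]) (by simp))

lemma Lf.raise0 (h : Act c e α F ρ) {w : F5} {φ : Module.End ℚ (Ext c)} (a : Lf c e α F ρ w φ) :
    φ ∈ Raise (mkE c e 0) 0 := by
  have := add_mem (Raise_mono zero_le_one a.gr) (h.blk_raise w)
  rwa [sub_add_cancel] at this

/-- The block diagonal operator of a word as a unit. -/
def blkU (c : Cyc W V) (F : F5 →* Module.End ℚ W) (ρ : F5 →* Module.End ℚ V) (w : F5) :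
    (Module.End ℚ (Ext c))ˣ :=
  ⟨blk c (F w) (ρ w), blk c (F w⁻¹) (ρ w⁻¹),
    by rw [← blk_mul, ← map_mul, ← map_mul, mul_inv_cancel, map_one, map_one, blk_one],
    by rw [← blk_mul, ← map_mul, ← map_mul, inv_mul_cancel, map_one, map_one, blk_one]⟩

lemma Lf.mul (h : Act c e α F ρ) {w w' : F5} {φ φ' : Module.End ℚ (Ext c)}
    (a : Lf c e α F ρ w φ) (a' : Lf c e α F ρ w' φ') : Lf c e α F ρ (w * w') (φ * φ') := by
  refine ⟨a.isL.mul a'.isL, fun x => ?_, ?_⟩
  · rw [Module.End.mul_apply, a.cov, a'.cov, map_mul, Module.End.mul_apply]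
  · have := add_mem (Raise_mul a.gr (a'.raise0 h))
      (Raise_mono (by norm_num : 1 + 0 ≤ 0 + 1) (Raise_mul (h.blk_raise w) a'.gr))
    rw [map_mul, map_mul, blk_mul]
    convert this using 1
    noncomm_ring

lemma Lf.inv (h : Act c e α F ρ) {w : F5} {φ : (Module.End ℚ (Ext c))ˣ}
    (a : Lf c e α F ρ w φ.1) : Lf c e α F ρ w⁻¹ (φ⁻¹).1 := by
  refine ⟨a.isL.inv, fun x => ?_, Raise_inv (GF_ext_top h.gd) (ψ := blkU c F ρ w) a.gr
    (h.blk_raise w) (h.blk_raise w⁻¹)⟩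
  have := a.cov ((φ⁻¹).1 x)
  rw [← Module.End.mul_apply, Units.mul_inv, Module.End.one_apply] at this
  rw [this, ← Module.End.mul_apply, ← map_mul, inv_mul_cancel, map_one, Module.End.one_apply]

lemma Lf.tau_mul (h : Act c e α F ρ) {w : F5} {φ : Module.End ℚ (Ext c)}
    (a : Lf c e α F ρ w φ) (v : V) : Lf c e α F ρ w (tau c v * φ) := by
  refine ⟨(tau_isL v).mul a.isL, fun x => ?_, ?_⟩
  · rw [Module.End.mul_apply, p1_tau, a.cov]
  · have := add_mem (Raise_mul (tau_raise h.gd v) (a.raise0 h)) a.gr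
    convert this using 1
    noncomm_ring

lemma Lf.mul_tau (h : Act c e α F ρ) {w : F5} {φ : Module.End ℚ (Ext c)}
    (a : Lf c e α F ρ w φ) (v : V) : φ * tau c v = tau c (ρ w v) * φ := by
  have e1 : φ (mkE c 0 v) = mkE c 0 (ρ w v) := by
    have := a.gr 16 (mkE c 0 v) ((mem_GF_ext h.gd le_rfl).2 (by simp))
    rw [GF_top le_rfl, Submodule.mem_bot, LinearMap.sub_apply, sub_eq_zero] at this
    rw [this]
    exact Ext_ext c (by simp) (by simp)
  refine LinearMap.ext fun x => ?_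
  simp only [tau, Module.End.mul_apply, LinearMap.add_apply, Module.End.one_apply,
    LieAlgebra.ad_apply, map_add]
  rw [a.isL, e1]

/-- Lifts of the generators give lifts of all words. -/
lemma Lf.all (h : Act c e α F ρ) (a : F5 →* Module.End ℚ (Ext c))
    (ha : ∀ i, Lf c e α F ρ (FreeGroup.of i) (a (FreeGroup.of i))) (w : F5) :
    Lf c e α F ρ w (a w) := by
  induction w using FreeGroup.induction_on with
  | C1 =>
    rw [map_one]
    refine ⟨fun _ _ => rfl, fun x => by rw [map_one]; rfl, ?_⟩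
    rw [map_one, map_one, blk_one, sub_self]
    exact zero_mem _
  | of i => exact ha i
  | inv_of i hi =>
    have := Lf.inv h (φ := a.toHomUnits (FreeGroup.of i)) hi
    rwa [← map_inv] at this
  | mul x y hx hy => rw [map_mul]; exact hx.mul h hy

/-- Two words with the same action have lifts differing by an element of the kernel. -/
lemma Lf.diff (h : Act c e α F ρ) (a : F5 →* Module.End ℚ (Ext c))
    (ha : ∀ w, Lf c e α F ρ w (a w)) {w w' : F5} (e1 : α w = α w') (e2 : F w = F w')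
    (e3 : ρ w = ρ w') : ∃ z, a w = tau c z * a w' := by
  have b := ha (w * w'⁻¹)
  have g := b.gr
  rw [F.map_mul, ρ.map_mul, e2, e3, ← F.map_mul, ← ρ.map_mul, mul_inv_cancel, map_one, map_one,
    blk_one] at g
  obtain ⟨z, hz⟩ := eq_tau h.gd b.isL g fun x => by
    rw [b.cov, α.map_mul, e1, ← α.map_mul, mul_inv_cancel, map_one, Module.End.one_apply]
  exact ⟨z, by rw [← hz, ← map_mul, inv_mul_cancel_right]⟩

lemma expL_ad {L : Type} [LieRing L] [LieAlgebra ℚ L] {e : L} (hG : GF e 0 = ⊤) {ys : List L}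
    (h : ∀ y ∈ ys, y ∈ GF e 1) : IsL (expL (ys.map (LieAlgebra.ad ℚ L))).1 ∧
      (expL (ys.map (LieAlgebra.ad ℚ L))).1 - 1 ∈ Raise e 1 := by
  induction ys with
  | nil =>
    refine ⟨fun _ _ => rfl, ?_⟩
    rw [List.map_nil, expL_nil, Units.val_one, sub_self]
    exact zero_mem _
  | cons y ys ih =>
    obtain ⟨i1, i2⟩ := ih fun z hz => h z (List.mem_cons_of_mem _ hz)
    have r := Raise_ad hG (h y List.mem_cons_self)
    rw [List.map_cons, expL_cons, Units.val_mul, expU_val (Raise_nil hG r)]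
    refine ⟨((isD_ad y).exp (Raise_nil hG r)).mul i1, ?_⟩
    have r2 := Raise_exp hG r
    have := add_mem (add_mem (Raise_mono (by norm_num : 1 ≤ 1 + 1) (Raise_mul r2 i2)) r2) i2
    convert this using 1
    noncomm_ring

lemma Cyc.ch_skew (c : Cyc W V) (a b : W) : c.ch a b = -c.ch b a := by
  have := c.ch_self (a + b)
  rw [map_add, map_add, LinearMap.add_apply, LinearMap.add_apply, c.ch_self, c.ch_self, zero_add,
    add_zero] at this
  exact eq_neg_of_add_eq_zero_right this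

lemma expL_ext (h : c.Gd e) {M : Submodule ℚ W} {V1 : Submodule ℚ V}
    (h1 : M ≤ GF e 1) (hl : ∀ x ∈ M, ∀ y ∈ M, ⁅x, y⁆ ∈ M) (he : ∀ x ∈ M, ⁅e, x⁆ ∈ M)
    (hc : ∀ x ∈ M, ∀ y ∈ M, c.ch x y ∈ V1) {ys : List W} (hy : ∀ y ∈ ys, y ∈ M) (x : Ext c) :
    p1 c ((expL ((ys.map fun y => mkE c y 0).map (LieAlgebra.ad ℚ (Ext c)))).1 x) =
      (expL (ys.map (LieAlgebra.ad ℚ W))).1 (p1 c x) ∧ (p1 c x - e ∈ M → p2 c x ∈ V1 →
      p1 c ((expL ((ys.map fun y => mkE c y 0).map (LieAlgebra.ad ℚ (Ext c)))).1 x) - e ∈ M ∧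
      p2 c ((expL ((ys.map fun y => mkE c y 0).map (LieAlgebra.ad ℚ (Ext c)))).1 x) ∈ V1) := by
  induction ys with
  | nil => exact ⟨rfl, fun a b => ⟨a, b⟩⟩
  | cons y ys ih =>
    obtain ⟨i1, i2⟩ := ih fun z hz => hy z (List.mem_cons_of_mem _ hz)
    have hyM := hy y List.mem_cons_self
    have n1 := Raise_nil h.top (Raise_ad h.top (h1 hyM))
    have n2 := Raise_nil (GF_ext_top h) (Raise_ad (GF_ext_top h)
      ((mem_GF_ext h (k := 1) (x := mkE c y 0) (by norm_num)).2 (h1 hyM)))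
    simp only [List.map_cons, expL_cons, Units.val_mul, expU_val n1, expU_val n2,
      Module.End.mul_apply]
    refine ⟨by rw [exp_nat n2 n1 (p1 c) fun _ => rfl, i1], fun a b => ?_⟩
    obtain ⟨j1, j2⟩ := i2 a b
    generalize (expL ((ys.map fun y => mkE c y 0).map (LieAlgebra.ad ℚ (Ext c)))).1 x = u
      at j1 j2 ⊢
    have key : ∀ z : Ext c, ⁅y, p1 c z⁆ ∈ M → c.ch y (p1 c z) ∈ V1 → p2 c z ∈ V1 →
        LieAlgebra.ad ℚ (Ext c) (mkE c y 0) z ∈ M.comap (p1 c) ⊓ V1.comap (p2 c) :=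
      fun z z1 z2 z3 => ⟨z1, by
        rw [SetLike.mem_coe, Submodule.mem_comap, LieAlgebra.ad_apply, p2_lie, p1_mk, p2_mk,
          smul_zero, sub_zero]
        exact add_mem z2 (V1.smul_mem _ z3)⟩
    have := exp_sub_mem n2 (S := M.comap (p1 c) ⊓ V1.comap (p2 c))
      (fun z hz => key z (hl _ hyM _ hz.1) (hc _ hyM _ hz.1) hz.2) (x := u) (key u (by
        have := sub_mem (hl _ hyM _ j1) (he _ hyM)
        rwa [lie_sub, ← lie_skew e y, sub_neg_eq_add, sub_add_cancel] at this) (by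
        have := hc _ hyM _ j1
        rwa [map_sub, c.ch_skew y e, h.ch_e, neg_zero, sub_zero] at this) j2)
    obtain ⟨t1, t2⟩ := this
    rw [SetLike.mem_coe, Submodule.mem_comap, map_sub] at t1 t2
    refine ⟨?_, ?_⟩
    · have := add_mem t1 j1
      rwa [sub_add_sub_cancel] at this
    · have := add_mem t2 j2
      rwa [sub_add_cancel] at this

/-- Existence of a lift, respecting a graded subalgebra on which the cocycle has values in
`V1`. -/
theorem exists_lf (h : Act c e α F ρ) (w : F5) {M : Submodule ℚ W} {V1 : Submodule ℚ V}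
    (h1 : M ≤ GF e 1) (hl : ∀ x ∈ M, ∀ y ∈ M, ⁅x, y⁆ ∈ M) (he : ∀ x ∈ M, ⁅e, x⁆ ∈ M)
    (hc : ∀ x ∈ M, ∀ y ∈ M, c.ch x y ∈ V1) (hF : ∀ x ∈ M, F w x ∈ M) (hρ : ∀ v ∈ V1, ρ w v ∈ V1)
    (ha : α w e - e ∈ M) : ∃ φ : (Module.End ℚ (Ext c))ˣ, Lf c e α F ρ w φ.1 ∧
      ∀ x, p1 c x - e ∈ M → p2 c x ∈ V1 → p1 c (φ.1 x) - e ∈ M ∧ p2 c (φ.1 x) ∈ V1 := by
  obtain ⟨ys, hy, hU⟩ := transit h.gd.top h1 hl he ha
  obtain ⟨u1, u2⟩ := expL_ad h.gd.top fun y hy' => h1 (hy y hy')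
  obtain ⟨v1, v2⟩ := expL_ad (GF_ext_top h.gd) (ys := ys.map fun y => mkE c y 0) fun y hy' => by
    obtain ⟨z, hz, rfl⟩ := List.mem_map.1 hy'
    exact (mem_GF_ext h.gd (by norm_num)).2 (h1 (hy z hz))
  have k := expL_ext h.gd h1 hl he hc hy
  generalize (expL (ys.map (LieAlgebra.ad ℚ W))).1 = U at hU u1 u2 k
  generalize expL ((ys.map fun y => mkE c y 0).map (LieAlgebra.ad ℚ (Ext c))) = U' at v1 v2 k
  have f0 := (h.fL w).raise (h.fe w)
  have a0 : α w⁻¹ ∈ Raise e 0 := by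
    have := add_mem (Raise_mono zero_le_one (h.aF w⁻¹)) ((h.fL w⁻¹).raise (h.fe w⁻¹))
    rwa [sub_add_cancel] at this
  have e1 : α w⁻¹ * U * F w = 1 := by
    refine rigid h.gd.top (((h.aL _).mul u1).mul (h.fL w)) ?_ ?_
    · have := add_mem (Raise_mul (Raise_mul a0 u2) f0) (Raise_mul (h.aF w⁻¹) f0)
      have e2 : F w⁻¹ * F w = 1 := by rw [← map_mul, inv_mul_cancel, map_one]
      convert this using 1
      rw [sub_mul (α w⁻¹), e2]
      noncomm_ring
    · rw [Module.End.mul_apply, Module.End.mul_apply, h.fe, hU, add_sub_cancel,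
        ← Module.End.mul_apply, ← map_mul, inv_mul_cancel, map_one, Module.End.one_apply]
  have e2 : α w = U * F w := by
    have := congrArg (α w * ·) e1
    simp only [← mul_assoc, ← map_mul, mul_inv_cancel, map_one, one_mul, mul_one] at this
    exact this.symm
  refine ⟨U' * blkU c F ρ w, ⟨v1.mul (h.blk_isL w), fun x => ?_, ?_⟩, fun x x1 x2 => ?_⟩
  · exact (k _).1.trans (by rw [e2]; rfl)
  · have := Raise_mul v2 (h.blk_raise w)
    rwa [sub_mul, one_mul] at this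
  · refine (k (blk c (F w) (ρ w) x)).2 ?_ (hρ _ x2)
    have := hF _ x1
    rwa [map_sub, h.fe] at this

end Pool.Agent.Lib.MP_f9c34c_al.G
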