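import Pool.Agent.Lib.MP_f9c34c_al.G.Trunc

/-! The infinitesimal generators of Nielsen moves. -/

namespace Pool.Agent.Lib.MP_f9c34c_al.G

open Submodule Finset IsNilpotent

attribute [local instance 100] LieRing.ofAssociativeRing

variable {Y : Type} {N : ℕ}

/-- A power series in the adjoint operator. -/
noncomputable def ser (c : ℕ → ℚ) (b a : TT Y N) : TT Y N :=
  ∑ k ∈ range (N + 1), (c k / k.factorial) • (LieAlgebra.ad ℚ (TT Y N) b ^ k) a

lemma ser_LT (c : ℕ → ℚ) {a b : TT Y N} (hb : b ∈ LT Y N) (ha : a ∈ LT Y N) :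
    ser c b a ∈ LT Y N := by
  refine sum_mem fun k hk => smul_mem _ _ ?_
  clear hk
  induction k with
  | zero => exact ha
  | succ k ih => rw [pow_succ', Module.End.mul_apply, LieAlgebra.ad_apply]; exact LT_lie hb ih

lemma niel_cauchy {R : Type*} [Ring R] {a b : ℕ → R} {M : ℕ}
    (h : ∀ i j, M ≤ i + j → a i * b j = 0) :
    (∑ i ∈ range M, a i) * ∑ j ∈ range M, b j =
      ∑ n ∈ range M, ∑ k ∈ antidiagonal n, a k.1 * b k.2 := by
  simp only [Nat.sum_antidiagonal_eq_sum_range_succ fun i j => a i * b j]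
  rw [sum_range_diag_flip M fun i j => a i * b j, sum_mul_sum]
  refine sum_congr rfl fun i _ => (sum_subset (range_subset_range.2 (Nat.sub_le _ _))
    fun j _ hj => h i j ?_).symm
  have := mt mem_range.2 hj
  omega

lemma niel_ad_pow {z : TT Y N} (hz : z ∈ FT Y N 1) {j : ℕ} {u : TT Y N} (hu : u ∈ FT Y N j)
    (k : ℕ) : (LieAlgebra.ad ℚ (TT Y N) z ^ k) u ∈ FT Y N (j + k) := by
  induction k with
  | zero => exact hu
  | succ k ih =>
    rw [pow_succ', Module.End.mul_apply, LieAlgebra.ad_apply, Ring.lie_def]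
    exact sub_mem (by simpa only [add_comm 1, add_assoc] using FT_mul hz ih)
      (by simpa only [add_assoc] using FT_mul ih hz)

lemma niel_ad_zero {z : TT Y N} (hz : z ∈ FT Y N 1) {k : ℕ} (hk : N + 1 ≤ k) :
    LieAlgebra.ad ℚ (TT Y N) z ^ k = 0 := by
  refine LinearMap.ext fun u => ?_
  have := niel_ad_pow hz (j := 0) (u := u) (by rw [FT_zero]; trivial) k
  rwa [FT_top (by omega), mem_bot] at this

lemma niel_pow_mem {z : TT Y N} (hz : z ∈ FT Y N 1) (k : ℕ) : z ^ k ∈ FT Y N k := by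
  induction k with
  | zero => rw [FT_zero]; trivial
  | succ k ih => rw [_root_.pow_succ]; exact FT_mul ih hz

lemma ser_zero (c : ℕ → ℚ) (b : TT Y N) : ser c b 0 = 0 := by simp [ser]

lemma ser_ser (c d : ℕ → ℚ) {z : TT Y N} (hz : z ∈ FT Y N 1) (a : TT Y N) :
    ser c z (ser d z a) =
      ser (fun n => ∑ k ∈ antidiagonal n, ((k.1 + k.2).choose k.2 : ℚ) * c k.2 * d k.1) z a := by
  have e : ∀ (c : ℕ → ℚ) (a : TT Y N), ser c z a =
      (∑ k ∈ range (N + 1), (c k / k.factorial) • LieAlgebra.ad ℚ (TT Y N) z ^ k) a :=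
    fun c a => by simp only [ser, LinearMap.sum_apply, LinearMap.smul_apply]
  rw [e, e, e, ← Module.End.mul_apply, niel_cauchy fun i j h => by
    rw [smul_mul_smul_comm, ← pow_add, niel_ad_zero hz h, smul_zero]]
  congr 1
  refine sum_congr rfl fun n _ => ?_
  rw [sum_div, sum_smul, ← Nat.sum_antidiagonal_swap]
  refine sum_congr rfl fun k hk => ?_
  have hn := mem_antidiagonal.1 hk
  rw [Prod.fst_swap, Prod.snd_swap, smul_mul_smul_comm, ← pow_add, add_comm k.2, hn]
  congr 1
  rw [← hn, ← Nat.choose_symm_add, Nat.cast_add_choose]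
  have := k.1.factorial_ne_zero
  have := k.2.factorial_ne_zero
  have := (k.1 + k.2).factorial_ne_zero
  field_simp

lemma niel_der_pow {D : Module.End ℚ (TT Y N)} (h : D ∈ DD Y N) (z : TT Y N) (g : ℕ → TT Y N)
    (g0 : g 0 = 0) (g1 : ∀ k, g (k + 1) = (LieAlgebra.ad ℚ (TT Y N) z ^ k) (D z)) (n : ℕ) :
    D (z ^ n) = ∑ k ∈ antidiagonal n, n.choose k.1 • (g k.1 * z ^ k.2) := by
  induction n with
  | zero => simp [g0, der_one h.1]
  | succ n ih =>
    rw [sum_antidiagonal_choose_succ_nsmul (fun i j => g i * z ^ j) n, pow_succ', h.1, ih, mul_sum]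
    have e : ∀ k ∈ antidiagonal n, z * n.choose k.1 • (g k.1 * z ^ k.2) =
        n.choose k.1 • (g k.1 * z ^ (k.2 + 1)) + (n.choose k.2 • (g (k.1 + 1) * z ^ k.2) -
          if k = (0, n) then D z * z ^ n else 0) := fun k hk => by
      obtain ⟨i, j⟩ := k
      have hn : i + j = n := mem_antidiagonal.1 hk
      rcases i with _ | i
      · obtain rfl : j = n := by omega
        simp [g0, g1]
      · rw [if_neg (by simp), sub_zero, ← Nat.choose_symm_of_eq_add hn.symm, mul_smul_comm,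
          ← smul_add, g1 (i + 1), pow_succ' (LieAlgebra.ad ℚ (TT Y N) z), Module.End.mul_apply,
          ← g1, LieAlgebra.ad_apply, Ring.lie_def, pow_succ' z]
        congr 1
        noncomm_ring
    rw [sum_congr rfl e, sum_add_distrib, sum_sub_distrib, sum_ite_eq', if_pos (by simp)]
    abel

/-- The derivative of the exponential. -/
lemma der_exp {D : Module.End ℚ (TT Y N)} (h : D ∈ DD Y N) {z : TT Y N} (hz : z ∈ FT Y N 1) :
    D (exp z) = ser (fun k => 1 / (k + 1)) z (D z) * exp z := by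
  have hz2 : z ^ (N + 2) = 0 := by rw [_root_.pow_succ, FT_pow hz, zero_mul]
  obtain ⟨g, g0, g1⟩ : ∃ g : ℕ → TT Y N, g 0 = 0 ∧
      ∀ k, g (k + 1) = (LieAlgebra.ad ℚ (TT Y N) z ^ k) (D z) :=
    ⟨fun k => Nat.casesOn k 0 fun k => (LieAlgebra.ad ℚ (TT Y N) z ^ k) (D z), rfl, fun _ => rfl⟩
  have e1 : ser (fun k => 1 / (k + 1)) z (D z) =
      ∑ k ∈ range (N + 2), (k.factorial : ℚ)⁻¹ • g k := by
    rw [sum_range_succ', g0, smul_zero, add_zero]
    refine sum_congr rfl fun k _ => ?_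
    rw [g1, Nat.factorial_succ]
    congr 1
    have := k.factorial_ne_zero
    push_cast
    field_simp
  rw [e1, exp_eq_sum hz2, map_sum, niel_cauchy fun i j hij => ?_]
  · refine sum_congr rfl fun n _ => ?_
    rw [map_smul, niel_der_pow h z g g0 g1, smul_sum]
    refine sum_congr rfl fun k hk => ?_
    rw [smul_mul_smul_comm, ← Nat.cast_smul_eq_nsmul ℚ, smul_smul, ← mem_antidiagonal.1 hk,
      Nat.cast_add_choose]
    congr 1
    have := k.1.factorial_ne_zero
    have := k.2.factorial_ne_zero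
    have := (k.1 + k.2).factorial_ne_zero
    field_simp
  · rcases i with _ | i
    · rw [g0, smul_zero, zero_mul]
    · have := FT_mul (niel_ad_pow hz (j := 0) (u := D z) (by rw [FT_zero]; trivial) i)
        (niel_pow_mem hz j)
      rw [FT_top (by omega), mem_bot] at this
      rw [smul_mul_smul_comm, g1, this, smul_zero]

lemma ser_bern {z : TT Y N} (hz : z ∈ FT Y N 1) (a : TT Y N) :
    ser (fun k => 1 / (k + 1)) z (ser bernoulli z a) = a := by
  rw [ser_ser _ _ hz]
  simp only [mul_one_div, bernoulli_spec']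
  rw [ser, sum_eq_single 0 (fun k _ hk => by simp [hk]) (by simp)]
  simp

lemma ser_bern' {z : TT Y N} (hz : z ∈ FT Y N 1) (a : TT Y N) :
    ser (fun k => 1 / (k + 1)) z (ser bernoulli' z a) * exp z = exp z * a := by
  rw [ser_ser _ _ hz]
  simp only [mul_one_div, bernoulli'_spec']
  have e : ser (fun _ => 1) z a = exp (LieAlgebra.ad ℚ (TT Y N) z) a := by
    rw [exp_eq_sum (niel_ad_zero hz le_rfl)]
    simp only [ser, LinearMap.sum_apply, LinearMap.smul_apply, one_div]
  rw [e, ← Ad_expU (FT_nil hz), Ad_apply, ← expU_val (FT_nil hz), Units.inv_mul_cancel_right]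

lemma der_ser {D : Module.End ℚ (TT Y N)} (h : D ∈ DD Y N) (c : ℕ → ℚ) {a b : TT Y N}
    (hb : D b = 0) (ha : D a = 0) : D (ser c b a) = 0 := by
  rw [ser, map_sum]
  refine sum_eq_zero fun k hk => ?_
  rw [map_smul]
  refine smul_eq_zero_of_right _ ?_
  clear hk
  induction k with
  | zero => exact ha
  | succ k ih =>
    rw [pow_succ', Module.End.mul_apply, LieAlgebra.ad_apply, DD_lie h, hb, ih, zero_lie, lie_zero,
      add_zero]

lemma sec_ser (hN : 0 < N) (c : ℕ → ℚ) (hc : c 0 = 1) (b a : Y) :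
    sec N 1 (ser c (xx N b) (xx N a)) = gx a := by
  rw [ser, map_sum, sum_eq_single 0 (fun k _ hk => ?_) (by simp), hc, pow_zero, Module.End.one_apply,
    map_smul, xx, sec_mk hN, pj_hom _ (gx_mem a)]
  · simp
  · rw [map_smul, mem_FT.1 (niel_ad_pow (xx_mem b) (xx_mem a) k) 1 (by omega), smul_zero]

lemma niel_der_pow_zero {D : Module.End ℚ (TT Y N)} (h : D ∈ DD Y N) {y : TT Y N} (hy : D y = 0)
    (k : ℕ) : D (y ^ k) = 0 := by
  induction k with
  | zero => rw [pow_zero, der_one h.1]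
  | succ k ih => rw [_root_.pow_succ, h.1, ih, hy, zero_mul, mul_zero, add_zero]

lemma niel_exp {D : Module.End ℚ (TT Y N)} (hn : IsNilpotent D) {y E : TT Y N}
    (hy : y ∈ FT Y N 1) (φ : Module.End ℚ (TT Y N)) (e0 : φ 1 = E)
    (e : ∀ k, D (φ (y ^ k)) = φ (y ^ (k + 1))) : exp D E = φ (exp y) := by
  obtain ⟨K, hK⟩ := hn
  have h1 : D ^ (K + (N + 1)) = 0 := by rw [pow_add, hK, zero_mul]
  have h2 : y ^ (K + (N + 1)) = 0 := by rw [pow_add, FT_pow hy, mul_zero]
  have h3 : ∀ k, (D ^ k) E = φ (y ^ k) := fun k => by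
    induction k with
    | zero => rw [pow_zero, pow_zero, e0, Module.End.one_apply]
    | succ k ih => rw [pow_succ', Module.End.mul_apply, ih, e]
  rw [exp_eq_sum h1, exp_eq_sum h2, LinearMap.sum_apply, map_sum]
  exact sum_congr rfl fun k _ => by rw [LinearMap.smul_apply, map_smul, h3]

variable [Fintype Y] [DecidableEq Y]

/-- The generator of the move `b ↦ a b`. -/
noncomputable def NL (N : ℕ) (b a : Y) : Module.End ℚ (TT Y N) :=
  dT fun x => if x = b then ser bernoulli (xx N b) (xx N a) else 0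

/-- The generator of the move `b ↦ b a`. -/
noncomputable def NR (N : ℕ) (b a : Y) : Module.End ℚ (TT Y N) :=
  dT fun x => if x = b then ser bernoulli' (xx N b) (xx N a) else 0

omit [Fintype Y] in
lemma niel_LT (c : ℕ → ℚ) (b a x : Y) :
    (if x = b then ser c (xx N b) (xx N a) else 0) ∈ LT Y N := by
  split_ifs
  exacts [ser_LT c (LT_xx b) (LT_xx a), zero_mem _]

omit [Fintype Y] in
lemma niel_xx (c : ℕ → ℚ) (b a x : Y) :
    dT (fun x => if x = b then ser c (xx N b) (xx N a) else 0) (xx N x) =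
      if x = b then ser c (xx N b) (xx N a) else 0 :=
  dT_xx (fun x => LT_le (niel_LT c b a x)) x

omit [Fintype Y] in
lemma niel_LD (c : ℕ → ℚ) (b a : Y) :
    dT (fun x => if x = b then ser c (xx N b) (xx N a) else 0) ∈ LD Y N :=
  ⟨dT_DD fun x => LT_le (niel_LT c b a x), fun x => by rw [niel_xx]; exact niel_LT c b a x⟩

lemma niel_cp (hN : 0 < N) (c : ℕ → ℚ) (hc : c 0 = 1) (b a : Y) :
    cp N 0 (dT fun x => if x = b then ser c (xx N b) (xx N a) else 0) =
      dm (Matrix.single a b 1) := by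
  refine (cp_der _ _).ext (dm_der _) fun x => ?_
  rw [cp_gx, niel_xx, dm_gx, sum_eq_single a (fun y _ hy => by simp [hy.symm])
    (by simp)]
  by_cases hx : x = b
  · rw [if_pos hx, zero_add, sec_ser hN c hc, hx, Matrix.single_apply_same, one_smul]
  · rw [if_neg hx, map_zero, Matrix.single_apply_of_col_ne _ _ (Ne.symm hx), zero_smul]

lemma niel_nil (c : ℕ → ℚ) (hc : c 0 = 1) {b a : Y} (h : a ≠ b) :
    IsNilpotent (dT fun x => if x = b then ser c (xx N b) (xx N a) else 0) := by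
  rcases N.eq_zero_or_pos with rfl | hN
  · rw [DD_top (niel_LD c b a).1 (DD_FD0 (niel_LD c b a).1)]
    exact IsNilpotent.zero
  · exact nil_of_cp (niel_LD c b a).1 (niel_cp hN c hc b a)
      ⟨2, by rw [pow_two, Matrix.single_mul_single_of_ne _ _ _ _ h.symm]⟩

lemma NL_LD (b a : Y) : NL N b a ∈ LD Y N := niel_LD _ b a

lemma NR_LD (b a : Y) : NR N b a ∈ LD Y N := niel_LD _ b a

lemma NL_xx (b a x : Y) :
    NL N b a (xx N x) = if x = b then ser bernoulli (xx N b) (xx N a) else 0 :=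
  niel_xx _ b a x

lemma NR_xx (b a x : Y) :
    NR N b a (xx N x) = if x = b then ser bernoulli' (xx N b) (xx N a) else 0 :=
  niel_xx _ b a x

lemma cp_NL (hN : 0 < N) (b a : Y) : cp N 0 (NL N b a) = dm (Matrix.single a b 1) :=
  niel_cp hN _ bernoulli_zero b a

lemma cp_NR (hN : 0 < N) (b a : Y) : cp N 0 (NR N b a) = dm (Matrix.single a b 1) :=
  niel_cp hN _ bernoulli'_zero b a

lemma NL_nil {b a : Y} (h : a ≠ b) : IsNilpotent (NL N b a) := niel_nil _ bernoulli_zero h

lemma NR_nil {b a : Y} (h : a ≠ b) : IsNilpotent (NR N b a) := niel_nil _ bernoulli'_zero h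

lemma NL_exp (b a x : Y) :
    NL N b a (exp (xx N x)) = if x = b then xx N a * exp (xx N b) else 0 := by
  rw [der_exp (NL_LD b a).1 (xx_mem x), NL_xx]
  split_ifs with hx
  · rw [hx, ser_bern (xx_mem b)]
  · rw [ser_zero, zero_mul]

lemma NR_exp (b a x : Y) :
    NR N b a (exp (xx N x)) = if x = b then exp (xx N b) * xx N a else 0 := by
  rw [der_exp (NR_LD b a).1 (xx_mem x), NR_xx]
  split_ifs with hx
  · rw [hx, ser_bern' (xx_mem b)]
  · rw [ser_zero, zero_mul]

lemma exp_NL {b a : Y} (h : a ≠ b) (c : ℚ) (x : Y) : exp (c • NL N b a) (exp (xx N x)) =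
    if x = b then exp (c • xx N a) * exp (xx N b) else exp (xx N x) := by
  have hn := (NL_nil (N := N) h).smul c
  split_ifs with hx
  · have h0 : NL N b a (c • xx N a) = 0 := by rw [map_smul, NL_xx, if_neg h, smul_zero]
    rw [hx]
    refine niel_exp hn (smul_mem _ c (xx_mem a)) (LinearMap.mulRight ℚ (exp (xx N b)))
      (one_mul _) fun k => ?_
    rw [LinearMap.mulRight_apply, LinearMap.mulRight_apply, LinearMap.smul_apply, (NL_LD b a).1.1,
      niel_der_pow_zero (NL_LD b a).1 h0, NL_exp, if_pos rfl, zero_mul, zero_add, _root_.pow_succ,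
      mul_assoc, smul_mul_assoc, mul_smul_comm]
  · rw [exp_fix hn, LinearMap.smul_apply, NL_exp, if_neg hx, smul_zero]

lemma exp_NR {b a : Y} (h : a ≠ b) (c : ℚ) (x : Y) : exp (c • NR N b a) (exp (xx N x)) =
    if x = b then exp (xx N b) * exp (c • xx N a) else exp (xx N x) := by
  have hn := (NR_nil (N := N) h).smul c
  split_ifs with hx
  · have h0 : NR N b a (c • xx N a) = 0 := by rw [map_smul, NR_xx, if_neg h, smul_zero]
    rw [hx]
    refine niel_exp hn (smul_mem _ c (xx_mem a)) (LinearMap.mulLeft ℚ (exp (xx N b)))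
      (mul_one _) fun k => ?_
    rw [LinearMap.mulLeft_apply, LinearMap.mulLeft_apply, LinearMap.smul_apply, (NR_LD b a).1.1,
      niel_der_pow_zero (NR_LD b a).1 h0, NR_exp, if_pos rfl, mul_zero, add_zero, pow_succ',
      mul_assoc, smul_mul_assoc, mul_smul_comm]
  · rw [exp_fix hn, LinearMap.smul_apply, NR_exp, if_neg hx, smul_zero]

lemma NR_NL_comm {a b b' : Y} (h : a ≠ b) (h' : a ≠ b') (e : b ≠ b') :
    Commute (NR N b a) (NL N b' a) := by
  have h1 : ∀ x, NR N b a (NL N b' a (xx N x)) = 0 := fun x => by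
    rw [NL_xx]
    split_ifs
    · exact der_ser (NR_LD b a).1 _ (by rw [NR_xx, if_neg e.symm]) (by rw [NR_xx, if_neg h])
    · exact map_zero _
  have h2 : ∀ x, NL N b' a (NR N b a (xx N x)) = 0 := fun x => by
    rw [NR_xx]
    split_ifs
    · exact der_ser (NL_LD b' a).1 _ (by rw [NL_xx, if_neg e]) (by rw [NL_xx, if_neg h'])
    · exact map_zero _
  have := DD_ext (LieSubalgebra.lie_mem _ (NR_LD (N := N) b a).1 (NL_LD b' a).1) (zero_mem _)
    fun x => by
      rw [Ring.lie_def, LinearMap.sub_apply, Module.End.mul_apply, Module.End.mul_apply, h1, h2,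
        sub_zero, LinearMap.zero_apply]
  exact sub_eq_zero.1 this

end Pool.Agent.Lib.MP_f9c34c_al.G
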