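import Mathlib

namespace Pool.Agent.Lib.MP_f9c34c_al.G

open FreeGroup

/-- The letters `a i = (i, false)` and `b i = (i, true)`. -/
abbrev X : Type := Fin 2 × Bool

/-- The generators `a 0, a 1` of the free group. -/
def fa (i : Fin 2) : FreeGroup X := of (i, false)

/-- The generators `b 0, b 1` of the free group. -/
def fb (i : Fin 2) : FreeGroup X := of (i, true)

/-- The surface relator, the product of the two commutators. -/
def zeta : FreeGroup X :=
  fa 0 * fb 0 * (fa 0)⁻¹ * (fb 0)⁻¹ * (fa 1 * fb 1 * (fa 1)⁻¹ * (fb 1)⁻¹)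

/-- The loop along the middle curve of the chain. -/
def mid : FreeGroup X := fb 0 * (fa 0)⁻¹ * (fb 0)⁻¹ * fa 1

/-- The `e`-th power of the Dehn twist number `i` along the chain `a 0, b 0, mid, b 1, a 1`,
on the generators. -/
def twF (e : ℤ) : Fin 5 → X → FreeGroup X
  | 0, (0, true) => fb 0 * fa 0 ^ e
  | 1, (0, false) => fa 0 * fb 0 ^ (-e)
  | 2, (0, true) => mid ^ (-e) * fb 0
  | 2, (1, false) => mid ^ (-e) * fa 1 * mid ^ e
  | 2, (1, true) => fb 1 * mid ^ e
  | 3, (1, false) => fa 1 * fb 1 ^ (-e)
  | 4, (1, true) => fb 1 * fa 1 ^ e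
  | _, x => of x

lemma twF_inv : ∀ i x, lift (twF 1 i) (twF (-1) i x) = of x ∧
    lift (twF (-1) i) (twF 1 i x) = of x := by
  decide +kernel

/-- The twists as automorphisms of the free group. -/
def twA (i : Fin 5) : MulAut (FreeGroup X) :=
  MonoidHom.toMulEquiv (lift (twF 1 i)) (lift (twF (-1) i))
    (ext_hom _ _ fun x => by simpa using (twF_inv i x).2)
    (ext_hom _ _ fun x => by simpa using (twF_inv i x).1)

/-- The action of words in the twists on the free group. -/
def al : FreeGroup (Fin 5) →* MulAut (FreeGroup X) := lift twA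

/-- The chain word `s 0 * s 1 * s 2 * s 3 * s 4`. -/
def chain : FreeGroup (Fin 5) := of 0 * of 1 * of 2 * of 3 * of 4

/-- The hyperelliptic word. -/
def hyp : FreeGroup (Fin 5) := chain * (of 4 * of 3 * of 2 * of 1 * of 0)

/-- The braid relator of the generators `i < j`. -/
def brd (i j : Fin 5) : FreeGroup (Fin 5) :=
  if i.val + 1 = j.val then of i * of j * of i * (of j * of i * of j)⁻¹
  else of i * of j * (of j * of i)⁻¹

/-- The relators of the Birman-Hilden presentation of the mapping class group of genus two. -/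
def rels : Set (FreeGroup (Fin 5)) :=
  {r | (∃ i j, i < j ∧ r = brd i j) ∨ r = chain ^ 6 ∨ r = hyp ^ 2 ∨
    ∃ i, r = hyp * of i * (of i * hyp)⁻¹}

lemma twA_zeta : ∀ i, twA i zeta = zeta := by
  decide +kernel

lemma al_zeta (w : FreeGroup (Fin 5)) : al w zeta = zeta := by
  induction w using FreeGroup.induction_on with
  | C1 => simp
  | of i => simpa [al] using twA_zeta i
  | inv_of i h => rw [_root_.map_inv]; exact (MulEquiv.symm_apply_eq _).2 h.symm
  | mul x y hx hy => rw [_root_.map_mul, MulAut.mul_apply, hy, hx]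

/-- Apply a list of twists to a word, reducing after each step. -/
def app : List (Fin 5 × Bool) → FreeGroup X → FreeGroup X
  | [], x => x
  | (i, s) :: w, x => mk (lift (twF (if s then 1 else -1) i) (app w x)).toWord

lemma app_eq : ∀ (w : List (Fin 5 × Bool)) (x : FreeGroup X), al (mk w) x = app w x
  | [], x => by rw [← one_eq_mk, _root_.map_one]; rfl
  | (i, s) :: w, x => by
    rw [app, mk_toWord, ← app_eq w x, ← List.singleton_append, ← mul_mk, _root_.map_mul,
      MulAut.mul_apply]
    cases s
    · rw [show (mk [(i, false)] : FreeGroup (Fin 5)) = (of i)⁻¹ from rfl, _root_.map_inv, al,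
        lift_apply_of]
      rfl
    · rw [show (mk [(i, true)] : FreeGroup (Fin 5)) = of i from rfl, al, lift_apply_of]
      rfl

lemma app_eq' (w : FreeGroup (Fin 5)) (x : FreeGroup X) : al w x = app w.toWord x := by
  rw [← app_eq, mk_toWord]

lemma al_brd : ∀ i j, i < j → ∀ x, al (brd i j) (of x) = of x := by
  simp only [app_eq']
  decide +kernel

lemma al_chain : ∀ x, al (chain ^ 6) (of x) = zeta⁻¹ * of x * zeta := by
  simp only [app_eq']
  decide +kernel

lemma al_hyp : ∀ x, al (hyp ^ 2) (of x) = zeta⁻¹ * of x * zeta := by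
  simp only [app_eq']
  decide +kernel

lemma al_hypc : ∀ i, i ≠ 0 → ∀ x, al (hyp * of i * (of i * hyp)⁻¹) (of x) = of x := by
  simp only [app_eq']
  decide +kernel

lemma al_hyp0 : ∀ x, al (hyp * of 0 * (of 0 * hyp)⁻¹) (of x) =
    if x = (0, false) then of x else if x = (0, true) then zeta⁻¹ * (fa 0 * of x * (fa 0)⁻¹)
    else zeta⁻¹ * (fa 0 * of x * (fa 0)⁻¹) * zeta := by
  simp only [app_eq']
  decide +kernel

end Pool.Agent.Lib.MP_f9c34c_al.G
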