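import Pool.Agent.Lib.MP_f9c34c_al.G.Trunc
import Pool.Agent.Lib.MP_f9c34c_al.G.Tw
import Pool.Agent.Lib.MP_f9c34c_al.G.Gr

/-! Quotients of Lie algebras of derivations containing the Euler derivation. -/

namespace Pool.Agent.Lib.MP_f9c34c_al.G

attribute [local instance 100] LieRing.ofAssociativeRing

/-- An invariant subspace containing a sum of eigenvectors contains each of them. -/
lemma quo_eig_mem {M : Type} [AddCommGroup M] [Module ℚ M] (f : M →ₗ[ℚ] M) {S : Submodule ℚ M}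
    (hS : ∀ x ∈ S, f x ∈ S) (s : Finset ℕ) : ∀ (v : ℕ → M), (∀ d ∈ s, f (v d) = (d : ℚ) • v d) →
      ∑ d ∈ s, v d ∈ S → ∀ d ∈ s, v d ∈ S := by
  induction s using Finset.induction_on with
  | empty => intro v _ _ d hd; simp at hd
  | insert j s hj ih =>
    intro v hv hsum
    have h1 : ∑ d ∈ s, ((d : ℚ) - j) • v d ∈ S := by
      have h2 := S.sub_mem (hS _ hsum) (S.smul_mem (j : ℚ) hsum)
      rw [map_sum, Finset.smul_sum, ← Finset.sum_sub_distrib, Finset.sum_insert hj,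
        hv j (Finset.mem_insert_self j s), sub_self, zero_add] at h2
      convert h2 using 1
      refine Finset.sum_congr rfl fun d hd => ?_
      rw [hv d (Finset.mem_insert_of_mem hd), sub_smul]
    have h3 : ∀ d ∈ s, v d ∈ S := fun d hd => by
      have h4 := ih (fun d => ((d : ℚ) - j) • v d) (fun d hd => by
        rw [map_smul, hv d (Finset.mem_insert_of_mem hd), smul_comm]) h1 d hd
      have h5 : (d : ℚ) - j ≠ 0 := by
        rw [sub_ne_zero, Ne, Nat.cast_inj]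
        rintro rfl
        exact hj hd
      exact (S.smul_mem_iff h5).1 h4
    intro d hd
    rcases Finset.mem_insert.1 hd with rfl | hd
    · rw [Finset.sum_insert hj] at hsum
      exact (S.add_mem_iff_left (S.sum_mem h3)).1 hsum
    · exact h3 d hd

lemma quo_cp_desc (D : Module.End ℚ (TT X 17)) (d : ℕ) {j : ℕ} (hj : j < 17) :
    cp 17 j (desc 17 (cp 17 d D)) = if d = j then cp 17 d D else 0 :=
  cp_desc (cp_der d D) (cp_hom d D) hj

lemma quo_eu_desc (D : Module.End ℚ (TT X 17)) (d : ℕ) :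
    ⁅eu X 17, desc 17 (cp 17 d D)⁆ = (d : ℚ) • desc 17 (cp 17 d D) := by
  have h := desc_DD (N := 17) (cp_der d D) (cp_Fl d D)
  refine cp_ext ((DD X 17).lie_mem eu_DD h) ((DD X 17).smul_mem _ h) fun j hj => ?_
  rw [cp_eu_lie h, map_smul, quo_cp_desc D d hj]
  split_ifs with e
  · rw [e]
  · rw [smul_zero, smul_zero]

/-- A Lie algebra of derivations containing the Euler derivation, with an ideal. -/
structure QD where
  /-- The Lie algebra. -/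
  a : LieSubalgebra ℚ (Module.End ℚ (TT X 17))
  /-- The ideal. -/
  j : Submodule ℚ (Module.End ℚ (TT X 17))
  dd : ∀ D ∈ a, D ∈ DD X 17
  eu : eu X 17 ∈ a
  lie : ∀ D ∈ a, ∀ D' ∈ a, D' ∈ j → ⁅D, D'⁆ ∈ j

namespace QD
variable (q : QD)

/-- The ideal. -/
noncomputable def idl : LieIdeal ℚ q.a where
  toSubmodule := q.j.comap q.a.toSubmodule.subtype
  lie_mem {x m} hm := q.lie x x.2 m m.2 hm

/-- The quotient. -/
def Q : Type := q.a ⧸ q.idl

noncomputable instance Q_lie : LieRing q.Q := inferInstanceAs (LieRing (q.a ⧸ q.idl))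

noncomputable instance Q_alg : LieAlgebra ℚ q.Q := inferInstanceAs (LieAlgebra ℚ (q.a ⧸ q.idl))

/-- The quotient map. -/
noncomputable def pr : q.a →ₗ⁅ℚ⁆ q.Q :=
  { q.idl.toSubmodule.mkQ with map_lie' := fun {x y} => LieSubmodule.Quotient.mk_bracket q.idl x y }

lemma pr_surj : Function.Surjective q.pr := Submodule.mkQ_surjective _

lemma pr_eq_zero {x : q.a} : q.pr x = 0 ↔ x.1 ∈ q.j := LieSubmodule.Quotient.mk_eq_zero'

lemma pr_eq {x y : q.a} : q.pr x = q.pr y ↔ x.1 - y.1 ∈ q.j := by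
  rw [← sub_eq_zero, ← map_sub, pr_eq_zero]; rfl

instance Q_fin : FiniteDimensional ℚ q.Q :=
  haveI : FiniteDimensional ℚ q.a := inferInstanceAs (FiniteDimensional ℚ q.a.toSubmodule)
  Module.Finite.of_surjective q.pr.toLinearMap q.pr_surj

/-- The grading element. -/
noncomputable def e : q.Q := q.pr ⟨G.eu X 17, q.eu⟩

lemma desc_mem {D : Module.End ℚ (TT X 17)} (h : D ∈ q.a) (d : ℕ) :
    desc 17 (cp 17 d D) ∈ q.a := by
  rcases lt_or_ge d 17 with hd | hd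
  · refine quo_eig_mem (LieAlgebra.ad ℚ _ (G.eu X 17)) (S := q.a.toSubmodule)
      (fun x hx => q.a.lie_mem q.eu hx) (Finset.range 17) (fun d => desc 17 (cp 17 d D))
      (fun d _ => quo_eu_desc D d) ?_ d (Finset.mem_range.2 hd)
    rw [sum_cp (q.dd D h)]
    exact h
  · rw [cp_top hd, map_zero]
    exact q.a.zero_mem

lemma desc_eig {D : Module.End ℚ (TT X 17)} (h : D ∈ q.a) (d : ℕ) :
    q.pr ⟨_, q.desc_mem h d⟩ ∈ eig q.e d := by
  change ⁅q.pr _, q.pr _⁆ = (d : ℚ) • q.pr _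
  rw [← LieHom.map_lie, ← map_smul]
  exact congrArg q.pr (Subtype.ext (quo_eu_desc D d))

lemma pr_sum (x : q.a) : q.pr x = ∑ d ∈ Finset.range 17, q.pr ⟨_, q.desc_mem x.2 d⟩ := by
  rw [← map_sum]
  refine congrArg q.pr (Subtype.ext ?_)
  rw [AddSubmonoidClass.coe_finsetSum]
  exact (sum_cp (q.dd _ x.2)).symm

lemma pr_GF {k : ℕ} {x : q.a} (h : x.1 ∈ FD X 17 k) : q.pr x ∈ GF q.e k := by
  rw [pr_sum]
  refine Submodule.sum_mem _ fun d hd => ?_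
  rcases lt_or_ge d k with hk | hk
  · have h1 : (⟨_, q.desc_mem x.2 d⟩ : q.a) = 0 := Subtype.ext (by
      change desc 17 (cp 17 d x.1) = 0
      rw [(cp_FD (q.dd _ x.2)).1 h d hk, map_zero])
    rw [h1, map_zero]
    exact Submodule.zero_mem _
  · exact eig_le_GF hk (Finset.mem_range.1 hd) (q.desc_eig x.2 d)

lemma GF_zero : GF q.e 0 = ⊤ := by
  refine eq_top_iff.2 fun y _ => ?_
  obtain ⟨x, rfl⟩ := q.pr_surj y
  exact q.pr_GF (DD_FD0 (q.dd _ x.2))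

lemma eq_of_eig {d : ℕ} (hd : d < 17) (x : q.a) (h : q.pr x ∈ eig q.e d) :
    q.pr ⟨_, q.desc_mem x.2 d⟩ = q.pr x := by
  have h1 := quo_eig_mem (LieAlgebra.ad ℚ _ q.e) (S := ⊥)
    (fun y hy => by rw [(Submodule.mem_bot ℚ).1 hy, map_zero]; exact Submodule.zero_mem _)
    (Finset.range 17) (fun j => q.pr ⟨_, q.desc_mem x.2 j⟩ - if j = d then q.pr x else 0)
    (fun j _ => by
      have h2 : ⁅q.e, q.pr ⟨_, q.desc_mem x.2 j⟩⁆ = (j : ℚ) • q.pr ⟨_, q.desc_mem x.2 j⟩ :=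
        q.desc_eig x.2 j
      have h3 : ⁅q.e, q.pr x⁆ = (d : ℚ) • q.pr x := h
      rw [LieAlgebra.ad_apply, lie_sub, h2, smul_sub]
      split_ifs with e
      · rw [h3, e]
      · rw [lie_zero, smul_zero])
    (by
      rw [Finset.sum_sub_distrib, ← pr_sum, Finset.sum_ite_eq' (Finset.range 17) d,
        if_pos (Finset.mem_range.2 hd), sub_self]
      exact Submodule.zero_mem _) d (Finset.mem_range.2 hd)
  rw [Submodule.mem_bot, if_pos rfl] at h1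
  exact sub_eq_zero.1 h1

lemma exists_of_GF {k : ℕ} {y : q.Q} (h : y ∈ GF q.e k) :
    ∃ x : q.a, x.1 ∈ FD X 17 k ∧ q.pr x = y := by
  have h1 : GF q.e k ≤ ((FD X 17 k).comap q.a.toSubmodule.subtype).map q.pr.toLinearMap := by
    refine iSup₂_le fun d hd y hy => ?_
    obtain ⟨x, rfl⟩ := q.pr_surj y
    rw [Finset.mem_Ico] at hd
    refine ⟨⟨_, q.desc_mem x.2 d⟩, ?_, q.eq_of_eig hd.2 x hy⟩
    refine (cp_FD (desc_DD (cp_der d x.1) (cp_Fl d x.1))).2 fun j hj => ?_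
    rw [quo_cp_desc x.1 d (by omega), if_neg (by omega)]
  obtain ⟨x, hx, e⟩ := h1 h
  exact ⟨x, hx, e⟩

lemma exists_of_eig {d : ℕ} {y : q.Q} (h : y ∈ eig q.e d) :
    ∃ x : q.a, x.1 = desc 17 (cp 17 d x.1) ∧ q.pr x = y := by
  rcases lt_or_ge d 17 with hd | hd
  · obtain ⟨x, rfl⟩ := q.pr_surj y
    refine ⟨⟨_, q.desc_mem x.2 d⟩, ?_, q.eq_of_eig hd x h⟩
    change desc 17 (cp 17 d x.1) = desc 17 (cp 17 d (desc 17 (cp 17 d x.1)))
    rw [quo_cp_desc x.1 d hd, if_pos rfl]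
  · rw [eig_top q.GF_zero hd, Submodule.mem_bot] at h
    refine ⟨0, ?_, by rw [h, map_zero]⟩
    rw [cp_top hd, map_zero]
    rfl

/-- `φ` is induced by `f`. -/
def Ind (f : Module.End ℚ (Module.End ℚ (TT X 17))) (φ : Module.End ℚ q.Q) : Prop :=
  ∀ x : q.a, ∃ h : f x.1 ∈ q.a, φ (q.pr x) = q.pr ⟨f x.1, h⟩

lemma exists_ind_one (f : Module.End ℚ (Module.End ℚ (TT X 17))) (h : ∀ D ∈ q.a, f D ∈ q.a)
    (h' : ∀ D ∈ q.a, D ∈ q.j → f D ∈ q.j) : ∃ φ, q.Ind f φ := by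
  obtain ⟨s, hs⟩ := q.pr.toLinearMap.exists_rightInverse_of_surjective
    (LinearMap.range_eq_top.2 q.pr_surj)
  refine ⟨q.pr.toLinearMap ∘ₗ (f.restrict (p := q.a.toSubmodule) (q := q.a.toSubmodule) h) ∘ₗ s,
    fun x => ⟨h _ x.2, ?_⟩⟩
  have h1 : q.pr (s (q.pr x)) = q.pr x := LinearMap.congr_fun hs (q.pr x)
  refine q.pr_eq.2 ?_
  change f (s (q.pr x)).1 - f x.1 ∈ q.j
  rw [← map_sub]
  exact h' _ (q.a.sub_mem (s (q.pr x)).2 x.2) (q.pr_eq.1 h1)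

theorem exists_ind {Γ : Type} [Group Γ] (σ : Γ →* (Module.End ℚ (TT X 17))ˣ)
    (h : ∀ w, ∀ D ∈ q.a, (Ad (σ w)).1 D ∈ q.a)
    (h' : ∀ w, ∀ D ∈ q.a, D ∈ q.j → (Ad (σ w)).1 D ∈ q.j) :
    ∃ α : Γ →* Module.End ℚ q.Q, ∀ w, q.Ind (Ad (σ w)).1 (α w) := by
  choose α hα using fun w => q.exists_ind_one (Ad (σ w)).1 (h w) (h' w)
  refine ⟨⟨⟨α, LinearMap.ext fun y => ?_⟩, fun v w => LinearMap.ext fun y => ?_⟩, hα⟩
  · obtain ⟨x, rfl⟩ := q.pr_surj y
    obtain ⟨_, e⟩ := hα 1 x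
    rw [e, Module.End.one_apply]
    refine congrArg q.pr (Subtype.ext ?_)
    change (Ad (σ 1)).1 x.1 = x.1
    rw [map_one σ, Ad_one]
  · obtain ⟨x, rfl⟩ := q.pr_surj y
    obtain ⟨_, e⟩ := hα (v * w) x
    obtain ⟨h2, e2⟩ := hα w x
    obtain ⟨_, e3⟩ := hα v ⟨_, h2⟩
    change α (v * w) (q.pr x) = α v (α w (q.pr x))
    rw [e, e2, e3]
    refine congrArg q.pr (Subtype.ext ?_)
    change (Ad (σ (v * w))).1 x.1 = (Ad (σ v)).1 ((Ad (σ w)).1 x.1)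
    rw [map_mul σ, Ad_mul]

variable {q}

lemma Ind.isL {g : (Module.End ℚ (TT X 17))ˣ} {φ : Module.End ℚ q.Q} (h : q.Ind (Ad g).1 φ) :
    IsL φ := fun y y' => by
  obtain ⟨x, rfl⟩ := q.pr_surj y
  obtain ⟨x', rfl⟩ := q.pr_surj y'
  obtain ⟨_, e⟩ := h ⁅x, x'⁆
  obtain ⟨_, e1⟩ := h x
  obtain ⟨_, e2⟩ := h x'
  rw [← LieHom.map_lie, e, e1, e2, ← LieHom.map_lie]
  exact congrArg q.pr (Subtype.ext (Ad_lie g x.1 x'.1))

lemma Ind.raise {f f' : Module.End ℚ (Module.End ℚ (TT X 17))} {φ φ' : Module.End ℚ q.Q}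
    (h : q.Ind f φ) (h' : q.Ind f' φ')
    (e : ∀ d, ∀ D ∈ q.a, D ∈ FD X 17 d → f D - f' D ∈ FD X 17 (d + 1)) : φ - φ' ∈ Raise q.e 1 :=
  fun d y hy => by
    obtain ⟨x, hx, rfl⟩ := q.exists_of_GF hy
    obtain ⟨_, e1⟩ := h x
    obtain ⟨_, e2⟩ := h' x
    rw [LinearMap.sub_apply, e1, e2, ← map_sub]
    exact q.pr_GF (e d x.1 x.2 hx)

lemma Ind.eq_one {f : Module.End ℚ (Module.End ℚ (TT X 17))} {φ : Module.End ℚ q.Q}
    (h : q.Ind f φ) (e : ∀ D ∈ q.a, f D - D ∈ q.j) : φ = 1 := by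
  refine LinearMap.ext fun y => ?_
  obtain ⟨x, rfl⟩ := q.pr_surj y
  obtain ⟨_, e1⟩ := h x
  rw [e1, Module.End.one_apply]
  exact q.pr_eq.2 (e x.1 x.2)

/-- The logarithm of the operator induced by an exponential. -/
lemma Ind.lg {z : Module.End ℚ (TT X 17)} (hz : IsNilpotent z) {φ : Module.End ℚ q.Q}
    (h : q.Ind (Ad (expU z)).1 φ) (x : q.a) :
    ∃ h' : ⁅z, x.1⁆ ∈ q.a, lgp φ (q.pr x) = q.pr ⟨⁅z, x.1⁆, h'⟩ := by
  let R : Module.End ℚ q.a :=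
    (Ad (expU z)).1.restrict (p := q.a.toSubmodule) (q := q.a.toSubmodule) fun D hD => (h ⟨D, hD⟩).1
  let ι : q.a →ₗ[ℚ] Module.End ℚ (TT X 17) := q.a.toSubmodule.subtype
  have e1 : ∀ y : q.a, ι (R y) = IsNilpotent.exp (LieAlgebra.ad ℚ _ z) (ι y) := fun y => by
    rw [← Ad_expU hz]
    rfl
  have hU : UA R x := UA.of_inj ι Subtype.val_injective e1 (UA_exp (nil_ad hz) _)
  have h1 : (lgp R x).1 = ⁅z, x.1⁆ := (lgp_map ι e1 hU).trans (lgp_exp (nil_ad hz) _)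
  refine ⟨h1 ▸ (lgp R x).2, ?_⟩
  have h2 := lgp_map q.pr.toLinearMap (R' := φ) (fun y => (h y).2.symm) hU
  exact h2.symm.trans (congrArg q.pr (Subtype.ext h1))

end QD

end Pool.Agent.Lib.MP_f9c34c_al.G
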