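import Pool.Agent.Lib.MP_f9c34c_al.G.Kpp
import Pool.Agent.Lib.MP_f9c34c_al.G.Quo

/-! The hyperelliptic involution kills the odd components. -/

namespace Pool.Agent.Lib.MP_f9c34c_al.G

attribute [local instance 100] LieRing.ofAssociativeRing

set_option maxRecDepth 4000

/-- Derivations preserving the ideal, modulo the inner ones. -/
noncomputable def qP : QD where
  a := PJ
  j := IT
  dd _ h := h.1
  eu := eu_PJ
  lie _ h _ _ h' := IT_lie h h'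

lemma par_dmT_PJ {f : Matrix X X ℚ} (hf : f ∈ SS Set.univ) : dmT 17 f ∈ PJ :=
  Sym_PJ (dmT_Sym hf)

lemma par_closure (w : F5) :
    w ∈ Subgroup.closure {x : F5 | ∃ i ∈ (Set.univ : Set (Fin 5)), x = FreeGroup.of i} := by
  have h : {x : F5 | ∃ i ∈ (Set.univ : Set (Fin 5)), x = FreeGroup.of i} =
      Set.range FreeGroup.of := by
    ext x
    simp [eq_comm]
  rw [h, FreeGroup.closure_range_of]
  exact Subgroup.mem_top w

lemma par_PJ_fT (w : F5) {D : E17} (h : D ∈ PJ) : (Ad (fT w)).1 D ∈ PJ :=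
  Ad_fT_mem (I := Set.univ) (P := PJ.toSubmodule)
    (fun _ hi _ hD => PJ.lie_mem (par_dmT_PJ (lin_gen_mem hi)) hD) (par_closure w) h

lemma par_IT_fT (w : F5) {D : E17} (h : D ∈ IT) : (Ad (fT w)).1 D ∈ IT :=
  Ad_fT_mem (I := Set.univ) (P := IT)
    (fun _ hi _ hD => IT_lie (par_dmT_PJ (lin_gen_mem hi)) hD) (par_closure w) h

lemma par_cp_hyp {D : E17} (h : D ∈ DD X 17) (d : ℕ) :
    cp 17 d ((Ad (fT hyp)).1 D) = (-1 : ℚ) ^ d • cp 17 d D := by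
  rw [cp_fT hyp h, cj_hyp (cp_der d D) (cp_hom d D)]

namespace Real
variable (R : Real)

/-- The Lie algebra generated by some of the logarithms. -/
noncomputable def gen (I : Set (Fin 5)) : LieSubalgebra ℚ E17 :=
  LieSubalgebra.lieSpan ℚ _ (R.e '' I)

lemma gen_Sym {I : Set (Fin 5)} {D : E17} (h : D ∈ R.gen I) : D ∈ Sym := by
  have h1 : R.gen I ≤ Sym := LieSubalgebra.lieSpan_le.2 (by
    rintro _ ⟨i, -, rfl⟩
    exact R.eS i)
  exact h1 h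

lemma gen_AA {I : Set (Fin 5)} {D : E17} (h : D ∈ R.gen I) : D ∈ AA R.r := by
  have h1 : R.gen I ≤ AA R.r := LieSubalgebra.lieSpan_le.2 (by
    rintro _ ⟨i, -, rfl⟩
    exact R.eA i)
  exact h1 h

lemma gen_cp {I : Set (Fin 5)} {D : E17} (h : D ∈ R.gen I) :
    ∃ f ∈ SS I, cp 17 0 D = dm f := by
  induction h using LieSubalgebra.lieSpan_induction with
  | mem x hx =>
    obtain ⟨i, hi, rfl⟩ := hx
    exact ⟨fm i, lin_gen_mem hi, R.e0 i⟩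
  | zero => exact ⟨0, zero_mem _, by rw [map_zero, map_zero]⟩
  | add x y _ _ hx hy =>
    obtain ⟨f, f1, f2⟩ := hx
    obtain ⟨g, g1, g2⟩ := hy
    exact ⟨f + g, add_mem f1 g1, by rw [map_add, map_add, f2, g2]⟩
  | smul c x _ hx =>
    obtain ⟨f, f1, f2⟩ := hx
    exact ⟨c • f, (SS I).smul_mem c f1, by rw [map_smul, map_smul, f2]⟩
  | lie x y mx my hx hy =>
    obtain ⟨f, f1, f2⟩ := hx
    obtain ⟨g, g1, g2⟩ := hy
    have dx := Sym_DD (R.gen_Sym mx)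
    have dy := Sym_DD (R.gen_Sym my)
    refine ⟨⁅f, g⁆, (SS I).lie_mem f1 g1, ?_⟩
    have h1 := cp_lie_lead dx dy (DD_FD0 dx) (DD_FD0 dy) (by norm_num)
    rw [f2, g2, ← LieHom.map_lie] at h1
    exact h1

lemma par_Ad_apply (w : F5) (D : E17) (s : T17) :
    (Ad (R.sig w)).1 D s = (R.sig w).1 (D ((R.sig w⁻¹).1 s)) := by
  rw [Ad_apply, map_inv]
  rfl

lemma PJ_sig (w : F5) {D : E17} (h : D ∈ PJ) : (Ad (R.sig w)).1 D ∈ PJ :=
  ⟨DD_Ad (R.sig_isA w) (R.sig_FD w) h.1, fun x hx => by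
    rw [par_Ad_apply]
    exact R.sig_JT w (h.2 _ (R.sig_JT w⁻¹ hx))⟩

lemma IT_sig (w : F5) {D : E17} (h : D ∈ IT) : (Ad (R.sig w)).1 D ∈ IT := by
  obtain ⟨l, hl⟩ := h
  refine ⟨(R.sig w).1 l, fun s => ?_⟩
  have h1 := R.sig_JT w (hl ((R.sig w⁻¹).1 s))
  have h2 : (R.sig w).1 ((R.sig w⁻¹).1 s) = s := by
    rw [map_inv]
    exact unit_apply_inv _ s
  rw [map_sub, Ring.lie_def, map_sub, (R.sig_isA w).2, (R.sig_isA w).2, h2] at h1
  rw [par_Ad_apply, Ring.lie_def]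
  exact h1

lemma par_ind : ∃ α : F5 →* Module.End ℚ qP.Q, ∀ w, qP.Ind (Ad (R.sig w)).1 (α w) :=
  qP.exists_ind R.sig (fun w _ h => R.PJ_sig w h) fun w _ _ h => R.IT_sig w h

lemma hyp_e (i : Fin 5) : (Ad (R.sig hyp)).1 (R.e i) - R.e i ∈ IT := by
  obtain ⟨α, hα⟩ := R.par_ind
  have r1 : α (hyp * FreeGroup.of i * (FreeGroup.of i * hyp)⁻¹) = 1 :=
    (hα _).eq_one fun D hD => (R.sig_rel (Or.inr (Or.inr (Or.inr ⟨i, rfl⟩)))).Ad_sub hD
  have r2 : α (hyp * FreeGroup.of i * hyp⁻¹) = α (FreeGroup.of i) := by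
    have e : hyp * FreeGroup.of i * hyp⁻¹ =
        hyp * FreeGroup.of i * (FreeGroup.of i * hyp)⁻¹ * FreeGroup.of i := by group
    rw [e, map_mul, r1, one_mul]
  have hn := R.e_nil i
  have i1 := hα (FreeGroup.of i)
  have i2 := hα (hyp * FreeGroup.of i * hyp⁻¹)
  rw [R.sig_of] at i1
  rw [r2, map_mul R.sig, map_mul R.sig, map_inv R.sig, R.sig_of, ← expU_Ad _ hn] at i2
  obtain ⟨m1, e1⟩ := i1.lg hn ⟨_, eu_PJ⟩
  obtain ⟨m2, e2⟩ := i2.lg (nil_Ad _ hn) ⟨_, eu_PJ⟩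
  have p1 : R.e i ∈ PJ := Sym_PJ (R.eS i)
  have p2 : (Ad (R.sig hyp)).1 (R.e i) ∈ PJ := R.PJ_sig hyp p1
  have p3 : (Ad (R.sig hyp)).1 (R.e i) - R.e i ∈ qP.a := PJ.sub_mem p2 p1
  have h1 : qP.pr ⟨_, p3⟩ ∈ eig qP.e 0 := by
    change ⁅qP.pr _, qP.pr _⁆ = ((0 : ℕ) : ℚ) • qP.pr _
    rw [Nat.cast_zero, zero_smul, ← LieHom.map_lie, qP.pr_eq_zero]
    have h2 := qP.pr_eq.1 (e1.symm.trans e2)
    change ⁅eu X 17, (Ad (R.sig hyp)).1 (R.e i) - R.e i⁆ ∈ IT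
    rw [lie_sub, ← lie_skew (eu X 17), ← lie_skew (eu X 17) (R.e i), neg_sub_neg]
    exact h2
  have h3 : (Ad (R.sig hyp)).1 (R.e i) - R.e i ∈ FD X 17 1 := by
    refine (cp_FD p3.1).2 fun d hd => ?_
    obtain rfl : d = 0 := by omega
    rw [map_sub, (cp_lead hyp (R.sig_isA hyp) (R.sig_fT hyp) p1.1 (DD_FD0 p1.1)).2,
      cj_hyp (cp_der 0 _) (cp_hom 0 _), pow_zero, one_smul, sub_self]
  exact qP.pr_eq_zero.1 (eig_inf_GF (by norm_num) h1 (qP.pr_GF (x := ⟨_, p3⟩) h3))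

lemma hyp_gen {D : E17} (h : D ∈ R.gen Set.univ) : (Ad (R.sig hyp)).1 D - D ∈ IT := by
  induction h using LieSubalgebra.lieSpan_induction with
  | mem x hx =>
    obtain ⟨i, -, rfl⟩ := hx
    exact R.hyp_e i
  | zero =>
    rw [map_zero, sub_zero]
    exact zero_mem _
  | add x y _ _ hx hy =>
    rw [map_add, add_sub_add_comm]
    exact add_mem hx hy
  | smul c x _ hx =>
    rw [map_smul, ← smul_sub]
    exact IT.smul_mem c hx
  | lie x y mx my hx hy =>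
    have px := R.PJ_sig hyp (Sym_PJ (R.gen_Sym mx))
    have py := Sym_PJ (R.gen_Sym my)
    have h1 := sub_mem (IT_lie px hy) (IT_lie py hx)
    rw [lie_sub, lie_sub, ← lie_skew y, ← lie_skew y x, neg_sub_neg, sub_sub_sub_cancel_right]
      at h1
    rw [Ad_lie]
    exact h1

theorem odd_IIc (hS : ∀ f ∈ SS Set.univ, dmT 17 f ∈ R.gen Set.univ) {D : E17}
    (h : D ∈ R.gen Set.univ) {d : ℕ} (hd : Odd d) : cp 17 d D ∈ IIc := by
  obtain ⟨α, hα⟩ := R.par_ind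
  obtain ⟨F, hF⟩ := qP.exists_ind fT (fun w _ h => par_PJ_fT w h) fun w _ _ h => par_IT_fT w h
  have fix : ∀ {D : E17} (h : D ∈ R.gen Set.univ) (p : D ∈ qP.a),
      α hyp (qP.pr ⟨D, p⟩) = qP.pr ⟨D, p⟩ := fun h p => by
    obtain ⟨_, e⟩ := hα hyp ⟨_, p⟩
    rw [e]
    exact qP.pr_eq.2 (R.hyp_gen h)
  have hP : ∀ d, ∀ x ∈ eig qP.e d, F hyp x = (-1 : ℚ) ^ d • x := fun d x hx => by
    obtain ⟨y, y1, rfl⟩ := qP.exists_of_eig hx
    obtain ⟨m, e⟩ := hF hyp y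
    rw [e, ← map_smul]
    refine congrArg qP.pr (Subtype.ext ?_)
    change (Ad (fT hyp)).1 y.1 = (-1 : ℚ) ^ d • y.1
    refine cp_ext m.1 ((DD X 17).smul_mem _ y.2.1) fun j hj => ?_
    rw [par_cp_hyp y.2.1, map_smul]
    by_cases c : d = j
    · rw [c]
    · rw [y1, quo_cp_desc _ _ hj, if_neg c, smul_zero, smul_zero]
  have hR : α hyp - F hyp ∈ Raise qP.e 1 := (hα hyp).raise (hF hyp) fun d D hD h1 =>
    (cp_lead hyp (R.sig_isA hyp) (R.sig_fT hyp) hD.1 h1).1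
  have he : F hyp (α hyp qP.e) = α hyp qP.e := by
    obtain ⟨y, hy⟩ := qP.pr_surj (α hyp qP.e)
    have g : ∀ i, F (FreeGroup.of i) (qP.pr y) = qP.pr y := fun i => by
      have s1 : fm i ∈ SS Set.univ := lin_gen_mem (Set.mem_univ i)
      have p : dmT 17 (fm i) ∈ qP.a := par_dmT_PJ s1
      have c1 : ⁅qP.pr ⟨_, p⟩, qP.e⁆ = 0 := by
        rw [← lie_skew, neg_eq_zero, QD.e, ← LieHom.map_lie, qP.pr_eq_zero]
        change ⁅eu X 17, dmT 17 (fm i)⁆ ∈ IT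
        rw [eu_dmT]
        exact zero_mem _
      have c2 : ⁅qP.pr ⟨_, p⟩, qP.pr y⁆ = 0 := by
        rw [hy, ← fix (hS _ s1) p, ← (hα hyp).isL, c1, map_zero]
      rw [← LieHom.map_lie, qP.pr_eq_zero] at c2
      obtain ⟨_, e⟩ := hF (FreeGroup.of i) y
      rw [e]
      refine qP.pr_eq.2 ?_
      change (Ad (fT (FreeGroup.of i))).1 y.1 - y.1 ∈ IT
      rw [fT_of, Ad_expU (dmT_nil i)]
      exact exp_sub_mem (nil_ad (dmT_nil i)) (fun z hz => IT_lie p hz) c2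
    rw [← hy]
    simp only [hyp, chain, map_mul, Module.End.mul_apply, g]
  have p : D ∈ qP.a := Sym_PJ (R.gen_Sym h)
  have key : F hyp (qP.pr ⟨D, p⟩) = qP.pr ⟨D, p⟩ :=
    parity (φ := α.toHomUnits hyp) (P := F.toHomUnits hyp) qP.GF_zero (hα hyp).isL hP hR he
      (fix h p)
  obtain ⟨m, e⟩ := hF hyp ⟨D, p⟩
  rw [e] at key
  have k1 : (Ad (fT hyp)).1 D - D ∈ IT := qP.pr_eq.1 key
  have k2 := (mem_IT ((DD X 17).sub_mem m.1 p.1)).1 k1 d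
  rw [map_sub, par_cp_hyp p.1, hd.neg_one_pow] at k2
  have k3 := IIc.smul_mem (-1 / 2 : ℚ) k2
  rwa [show (-1 / 2 : ℚ) • ((-1 : ℚ) • cp 17 d D - cp 17 d D) = cp 17 d D by module] at k3

end Real

end Pool.Agent.Lib.MP_f9c34c_al.G
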