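import Pool.Agent.Lib.MP_f9c34c_al.G.Defs

namespace Pool.Agent.Lib.MP_f9c34c_al.St

/-- The algebra of functions generated by the functions in `S`. -/
inductive Alg {T : Type} (S : (T → ℚ) → Prop) : (T → ℚ) → Prop
  | gen (f : T → ℚ) : S f → Alg S f
  | const (c : ℚ) : Alg S fun _ => c
  | add (f g : T → ℚ) : Alg S f → Alg S g → Alg S fun x => f x + g x
  | mul (f g : T → ℚ) : Alg S f → Alg S g → Alg S fun x => f x * g x

section Completion

variable {Γ : Type} [Group Γ]

/-- A matrix representation that is block triangular with diagonal blocks having entries in `A`.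
For `A` the polynomial functions in the entries of a Zariski dense representation to a reductive
group `R`, these are the iterated extensions of algebraic representations of `R`. -/
def RelUni (A : (Γ → ℚ) → Prop) {n : ℕ} (σ : Γ →* Matrix (Fin n) (Fin n) ℚ) : Prop :=
  ∃ b : Fin n → ℕ, (∀ g, (σ g).BlockTriangular b) ∧ ∀ i j, b i = b j → A fun g => σ g i j

/-- The coordinate ring of the relative completion, as an algebra of functions on the group. -/
def OG (A : (Γ → ℚ) → Prop) : (Γ → ℚ) → Prop :=
  Alg fun f => ∃ (n : ℕ) (σ : Γ →* Matrix (Fin n) (Fin n) ℚ), RelUni A σ ∧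
    ∃ i j, f = fun g => σ g i j

/-- `D` restricts to a left invariant derivation of `OG A` that vanishes on `A`: it gives an
element of the Lie algebra of the prounipotent radical of the relative completion. -/
structure InU (A : (Γ → ℚ) → Prop) (D : (Γ → ℚ) → Γ → ℚ) : Prop where
  mem : ∀ f, OG A f → OG A (D f)
  add : ∀ f g, OG A f → OG A g → ∀ x, D (fun y => f y + g y) x = D f x + D g x
  smul : ∀ (c : ℚ) f, OG A f → ∀ x, D (fun y => c * f y) x = c * D f x
  leibniz : ∀ f g, OG A f → OG A g →
    ∀ x, D (fun y => f y * g y) x = f x * D g x + g x * D f x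
  left : ∀ (γ : Γ) f, OG A f → OG A (fun y => f (γ * y)) →
    ∀ x, D (fun y => f (γ * y)) x = D f (γ * x)
  kill : ∀ f, OG A f → A f → ∀ x, D f x = 0

/-- The lower central series of that Lie algebra: `Lcs A n` is the span of the iterated brackets
of `n + 1` of its elements. -/
inductive Lcs (A : (Γ → ℚ) → Prop) : ℕ → ((Γ → ℚ) → Γ → ℚ) → Prop
  | base (D : (Γ → ℚ) → Γ → ℚ) : InU A D → Lcs A 0 D
  | lie (n : ℕ) (D E : (Γ → ℚ) → Γ → ℚ) : InU A D → Lcs A n E →
      Lcs A (n + 1) fun f x => D (E f) x - E (D f) x
  | zero (n : ℕ) : Lcs A n fun _ _ => 0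
  | add (n : ℕ) (D E : (Γ → ℚ) → Γ → ℚ) : Lcs A n D → Lcs A n E →
      Lcs A n fun f x => D f x + E f x
  | smul (n : ℕ) (c : ℚ) (D : (Γ → ℚ) → Γ → ℚ) : Lcs A n D → Lcs A n fun f x => c * D f x

end Completion

section Outer

theorem inner_normal (P : Type) [Group P] : (MulAut.conj : P →* MulAut P).range.Normal :=
  G.inner_normal P

/-- The outer automorphism group. -/
def Out (P : Type) [Group P] : Type := MulAut P ⧸ (MulAut.conj : P →* MulAut P).range

/-- The group structure of the outer automorphism group. -/
instance outGroup (P : Type) [Group P] : Group (Out P) :=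
  @QuotientGroup.Quotient.group _ _ _ (inner_normal P)

/-- The class of an automorphism. -/
def cls {P : Type} [Group P] (α : MulAut P) : Out P := QuotientGroup.mk α

/-- The augmentation ideal of the rational group algebra. -/
noncomputable def aug (P : Type) [Group P] : Submodule ℚ (MonoidAlgebra ℚ P) :=
  Submodule.span ℚ {y | ∃ g : P, y = MonoidAlgebra.single g 1 - 1}

/-- Polynomials in the matrix coefficients of the action of the automorphisms of `P` on the
group algebra modulo the power `m + 1` of the augmentation ideal. -/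
def coef (P : Type) [Group P] (m : ℕ) : (MulAut P → ℚ) → Prop :=
  Alg fun F => ∃ (g : P) (l : MonoidAlgebra ℚ P →ₗ[ℚ] ℚ),
    (∀ y ∈ aug P ^ (m + 1), l y = 0) ∧ F = fun α => l (MonoidAlgebra.single (α g) 1)

/-- For an outer action `ρ`, the functions that are given by such a polynomial on all
automorphisms representing the image under `ρ`: the coordinate ring of the Zariski closure of the
image in the outer automorphism group of the Malcev completion of nilpotency class `m`. -/
def JF {Γ P : Type} [Group Γ] [Group P] (ρ : Γ →* Out P) (m : ℕ) (f : Γ → ℚ) : Prop :=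
  ∃ F, coef P m F ∧ ∀ γ α, cls α = ρ γ → f γ = F α

/-- The endomorphism of a one relator group induced by an automorphism of the free group that
fixes the relator. -/
def indE {ι : Type} (z : FreeGroup ι) (φ : MulAut (FreeGroup ι)) (h : φ z = z) :
    PresentedGroup {z} →* PresentedGroup {z} :=
  PresentedGroup.toGroup (f := fun x => PresentedGroup.mk {z} (φ (FreeGroup.of x))) (by
    intro r hr
    have : FreeGroup.lift (fun x => PresentedGroup.mk {z} (φ (FreeGroup.of x))) =
        (PresentedGroup.mk {z}).comp φ.toMonoidHom := FreeGroup.ext_hom _ _ fun x => by simp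
    rw [this, Set.mem_singleton_iff.1 hr]
    simpa [h] using PresentedGroup.one_of_mem (rels := {z}) rfl)

theorem indE_mk {ι : Type} (z : FreeGroup ι) (φ : MulAut (FreeGroup ι)) (h : φ z = z)
    (x : FreeGroup ι) :
    indE z φ h (PresentedGroup.mk {z} x) = PresentedGroup.mk {z} (φ x) :=
  DFunLike.congr_fun (FreeGroup.ext_hom ((indE z φ h).comp (PresentedGroup.mk {z}))
    ((PresentedGroup.mk {z}).comp φ.toMonoidHom)
    fun a => by
      rw [MonoidHom.comp_apply, indE]
      exact PresentedGroup.toGroup.of _) x

/-- The induced automorphism. -/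
def indA {ι : Type} (z : FreeGroup ι) (φ : MulAut (FreeGroup ι)) (h : φ z = z) :
    MulAut (PresentedGroup {z}) :=
  MonoidHom.toMulEquiv (indE z φ h) (indE z φ⁻¹ ((MulEquiv.symm_apply_eq φ).2 h.symm))
    (MonoidHom.ext fun x => by
      obtain ⟨x, rfl⟩ := PresentedGroup.mk_surjective _ x
      simp [indE_mk])
    (MonoidHom.ext fun x => by
      obtain ⟨x, rfl⟩ := PresentedGroup.mk_surjective _ x
      simp [indE_mk])

/-- The classes of the automorphisms `t i` satisfy the relations `R`. -/
def Holds {ι P : Type} [Group P] (R : Set (FreeGroup ι)) (t : ι → MulAut P) : Prop :=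
  ∀ r ∈ R, FreeGroup.lift (fun i => cls (t i)) r = 1

/-- The outer action of a presented group with the generator `i` acting by the class of `t i`. -/
def outAct {ι P : Type} [Group P] (R : Set (FreeGroup ι)) (t : ι → MulAut P) (h : Holds R t) :
    PresentedGroup R →* Out P :=
  PresentedGroup.toGroup (f := fun i => cls (t i)) h

end Outer

open G (zeta twA twA_zeta rels)

/-- The five Dehn twists as automorphisms of the surface group. -/
def tw (i : Fin 5) : MulAut (PresentedGroup {zeta}) := indA zeta (twA i) (twA_zeta i)

theorem tw_eq (i : Fin 5) : tw i = G.alP (FreeGroup.of i) :=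
  MulEquiv.ext fun x => by
    obtain ⟨x, rfl⟩ := PresentedGroup.mk_surjective _ x
    rw [G.alP_mk, G.al, FreeGroup.lift_apply_of]
    exact indE_mk _ _ (twA_zeta i) x

theorem holds : Holds rels tw := by
  intro r hr
  have : FreeGroup.lift (fun i => cls (tw i)) =
      (QuotientGroup.mk' _).comp G.alP := FreeGroup.ext_hom _ _ fun x => by
    rw [FreeGroup.lift_apply_of, tw_eq]; rfl
  obtain ⟨g, hg⟩ := G.alP_rel hr
  rw [this]
  exact (QuotientGroup.eq_one_iff _).2 ⟨g, hg.symm⟩

/-- The coordinate rings for the outer action of the mapping class group of genus two, given by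
the Birman-Hilden presentation, on the surface group. -/
def J (m : ℕ) : (PresentedGroup rels → ℚ) → Prop := JF (outAct rels tw holds) m

end Pool.Agent.Lib.MP_f9c34c_al.St
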