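import Pool.Agent.Lib.MP_f9c34c_al.G.Bch
import Pool.Agent.Lib.MP_f9c34c_al.G.Aff
import Pool.Agent.Lib.MP_f9c34c_al.G.Sub

/-! Realizations of the twists as exponentials of symplectic derivations. -/

namespace Pool.Agent.Lib.MP_f9c34c_al.G

open Submodule Finset IsNilpotent

attribute [local instance 100] LieRing.ofAssociativeRing

/-- The symplectic element in the truncated algebra. -/
noncomputable def omT : T17 := mkT 17 om

/-- Symplectic Lie derivations. -/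
noncomputable def Sym : LieSubalgebra ℚ E17 where
  carrier := {D | D ∈ LD X 17 ∧ D omT = 0}
  add_mem' h h' := ⟨add_mem h.1 h'.1, by simp [h.2, h'.2]⟩
  zero_mem' := ⟨zero_mem _, rfl⟩
  smul_mem' c _ h := ⟨(LD X 17).smul_mem c h.1, by simp [h.2]⟩
  lie_mem' h h' := ⟨(LD X 17).lie_mem h.1 h'.1, by simp [Ring.lie_def, h.2, h'.2]⟩

lemma Sym_DD {D : E17} (h : D ∈ Sym) : D ∈ DD X 17 := h.1.1

lemma dmT_Sym {I : Set (Fin 5)} {f : Matrix X X ℚ} (hf : f ∈ SS I) : dmT 17 f ∈ Sym :=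
  ⟨dmT_LD f, by rw [omT, dmT_mk, dm_om hf, map_zero]⟩

/-- A symplectic expansion `u ∘ th0` with the logarithms `e i` of the twists. -/
structure Real where
  /-- The correction of the expansion. -/
  u : E17ˣ
  /-- The logarithms of the twists. -/
  e : Fin 5 → E17
  /-- The potential of the divergence. -/
  r : T17
  uA : IsA u.1
  u1 : u.1 - 1 ∈ FD X 17 1
  uz : u.1 (th0 17 zeta).1 = exp omT
  eS : ∀ i, e i ∈ Sym
  e0 : ∀ i, cp 17 0 (e i) = dm (fm i)
  eA : ∀ i, e i ∈ AA r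
  act : ∀ i x, exp (e i) (u.1 (th0 17 x).1) = u.1 (th0 17 (twA i x)).1

/-- The operator `g` has linear part `m`. -/
def ThLead (g : E17) (m : Matrix X X ℚ) : Prop :=
  g ∈ FD X 17 0 ∧ ∀ a, g (xx 17 a) - ∑ b, m b a • xx 17 b ∈ FT X 17 2

lemma th_dmT_xx (m : Matrix X X ℚ) (a : X) : dmT 17 m (xx 17 a) = ∑ b, m b a • xx 17 b := by
  simp only [xx, dmT_mk, dm_gx, map_sum, map_smul]

lemma th_lead_iff {D : E17} (h : D ∈ DD X 17) {m : Matrix X X ℚ} :
    ThLead D m ↔ cp 17 0 D = dm m := by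
  have h1 := sub_mem h (dmT_LD (N := 17) m).1
  have h2 := (DD_FD h1 (k := 1)).symm.trans (cp_FD h1)
  simp only [LinearMap.sub_apply, th_dmT_xx, Nat.lt_one_iff, forall_eq, map_sub,
    cp_dmT m (by norm_num : 0 < 17), if_true, sub_eq_zero] at h2
  exact (and_iff_right (DD_FD0 h)).trans h2

lemma ThLead.mul {g g' : E17} {m m' : Matrix X X ℚ} (h : ThLead g m) (h' : ThLead g' m') :
    ThLead (g * g') (m * m') := by
  refine ⟨fun j s hs => h.1 j _ (h'.1 j s hs), fun a => ?_⟩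
  have h1 := add_mem (h.1 2 _ (h'.2 a)) (sum_mem fun b (_ : b ∈ univ) => smul_mem _ (m' b a) (h.2 b))
  convert h1 using 1
  simp only [Module.End.mul_apply, map_sub, map_sum, map_smul, smul_sub, sum_sub_distrib,
    sub_add_sub_cancel, Matrix.mul_apply, sum_smul, smul_sum, smul_smul, sub_right_inj]
  rw [sum_comm]
  simp only [mul_comm]

lemma ThLead.exp {z : E17} {m : Matrix X X ℚ} (h : ThLead z m) (hn : IsNilpotent z)
    (hm : m * m = 0) : ThLead (exp z) (1 + m) := by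
  refine ⟨fun j s hs => exp_mem hn (h.1 j) hs, fun a => ?_⟩
  have h1 := (h.mul h).2 a
  simp only [hm, Matrix.zero_apply, zero_smul, sum_const_zero, sub_zero] at h1
  convert add_mem (exp_sub_sub_mem hn (h.1 2) h1) (h.2 a) using 1
  simp [add_smul, sum_add_distrib, Matrix.one_apply, sub_sub]
  abel

lemma th_lead_Ad {z D : E17} {m m' : Matrix X X ℚ} (hz : z ∈ DD X 17) (e : cp 17 0 z = dm m)
    (hm : m * m = 0) (h : ThLead D m') :
    ThLead ((Ad (expU z)).1 D) ((1 + m) * m' * (1 + -m)) := by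
  have hn := nil_of_cp hz e ⟨2, by rw [pow_two, hm]⟩
  rw [Ad_apply, expU_inv hn, expU_val hn, expU_val hn.neg]
  exact ((((th_lead_iff hz).2 e).exp hn hm).mul h).mul
    (((th_lead_iff (neg_mem hz)).2 (by rw [map_neg, e, map_neg])).exp hn.neg (by simp [hm]))

/-- The operator `g` induces `φ` on the free group. -/
def ThRe (g : E17) (φ : X → FreeGroup X) : Prop :=
  IsA g ∧ ∀ x, g (th0 17 x).1 = (th0 17 (FreeGroup.lift φ x)).1

lemma ThRe.of {g : E17} {φ : X → FreeGroup X} (h : IsA g)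
    (e : ∀ a, g (IsNilpotent.exp (xx 17 a)) = (th0 17 (φ a)).1) : ThRe g φ :=
  ⟨h, h.th _ _ fun a => by rw [th0_of, e, FreeGroup.lift_apply_of]⟩

lemma ThRe.mul {g g' : E17} {φ φ' : X → FreeGroup X} (h : ThRe g φ) (h' : ThRe g' φ') :
    ThRe (g * g') fun a => FreeGroup.lift φ (φ' a) :=
  .of (h.1.mul h'.1) fun a => by
    rw [← th0_of, Module.End.mul_apply, h'.2, h.2, FreeGroup.lift_apply_of]

lemma ThRe.congr {g : E17} {φ φ' : X → FreeGroup X} (h : ThRe g φ) (e : ∀ a, φ a = φ' a) :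
    ThRe g φ' := funext e ▸ h

lemma th_NL {b a : X} (h : a ≠ b) : ThRe (exp (NL 17 b a))
    (fun x => if x = b then .of a * .of b else .of x) ∧ ThRe (exp (-NL 17 b a))
    (fun x => if x = b then (FreeGroup.of a)⁻¹ * .of b else .of x) := by
  have h1 := (NL_LD (N := 17) b a).1
  refine ⟨.of (DD_exp h1 (NL_nil h)).1 fun x => ?_,
    .of (DD_exp (neg_mem h1) (NL_nil h).neg).1 fun x => ?_⟩
  · have := exp_NL (N := 17) h 1 x
    rw [one_smul, one_smul] at this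
    rw [this]
    split_ifs <;> simp only [map_mul, Units.val_mul, th0_of]
  · have := exp_NL (N := 17) h (-1) x
    rw [neg_one_smul, neg_one_smul] at this
    rw [this]
    split_ifs <;> simp only [map_mul, Units.val_mul, th0_of, th0_inv_of]

lemma th_NR {b a : X} (h : a ≠ b) : ThRe (exp (NR 17 b a))
    (fun x => if x = b then .of b * .of a else .of x) ∧ ThRe (exp (-NR 17 b a))
    (fun x => if x = b then .of b * (FreeGroup.of a)⁻¹ else .of x) := by
  have h1 := (NR_LD (N := 17) b a).1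
  refine ⟨.of (DD_exp h1 (NR_nil h)).1 fun x => ?_,
    .of (DD_exp (neg_mem h1) (NR_nil h).neg).1 fun x => ?_⟩
  · have := exp_NR (N := 17) h 1 x
    rw [one_smul, one_smul] at this
    rw [this]
    split_ifs <;> simp only [map_mul, Units.val_mul, th0_of]
  · have := exp_NR (N := 17) h (-1) x
    rw [neg_one_smul, neg_one_smul] at this
    rw [this]
    split_ifs <;> simp only [map_mul, Units.val_mul, th0_of, th0_inv_of]

lemma th_exp_Ad (u : E17ˣ) {D : E17} (h : IsNilpotent D) :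
    exp ((Ad u).1 D) = u.1 * exp D * (u⁻¹).1 := by
  rw [← expU_val (nil_Ad u h), expU_Ad u h, Units.val_mul, Units.val_mul, expU_val h]

lemma th_re_Ad {z D : E17} (hz : IsNilpotent z) (hD : IsNilpotent D) {φ φ' ψ : X → FreeGroup X}
    (h : ThRe (exp z) φ) (h' : ThRe (exp (-z)) φ') (h1 : ThRe (exp D) ψ) :
    ThRe (exp ((Ad (expU z)).1 D)) fun a => FreeGroup.lift φ (FreeGroup.lift ψ (φ' a)) := by
  rw [th_exp_Ad _ hD, expU_inv hz, expU_val hz, expU_val hz.neg, mul_assoc]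
  exact h.mul (h1.mul h')

lemma th_mid : ∃ e ∈ AA (r0 X 17), cp 17 0 e = dm (fm 2) ∧ ThRe (exp e) (twF 1 2) := by
  have c1 : ∀ b a : X, cp 17 0 (NL 17 b a) = dm (Matrix.single a b 1) := cp_NL (by norm_num)
  have c2 : ∀ b a : X, cp 17 0 (-NL 17 b a) = dm (-Matrix.single a b 1) := fun b a => by
    rw [map_neg, c1, map_neg]
  have p : b0 ≠ a1 := by decide
  have q : a0 ≠ a1 := by decide
  have r : a1 ≠ b1 := by decide
  have A : ∀ {z D : E17}, IsNilpotent z → z ∈ AA (r0 X 17) → D ∈ AA (r0 X 17) →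
      (Ad (expU z)).1 D ∈ AA (r0 X 17) := fun hn hz hD =>
    Ad_expU_mem (S := (AA (r0 X 17)).toSubmodule) hn (fun _ hb => (AA _).lie_mem hz hb) hD
  have n0 : NR 17 b1 a1 + -NL 17 b0 a1 ∈ AA (r0 X 17) :=
    add_mem (NR_AA r) (neg_mem (NL_AA p.symm))
  have cm := (NR_NL_comm (N := 17) r p.symm (by decide)).neg_right
  have n1 := cm.isNilpotent_add (NR_nil r) (NL_nil p.symm).neg
  have n2 := (th_NR r).1.mul (th_NL p.symm).2
  rw [← exp_add_of_commute cm (NR_nil r) (NL_nil p.symm).neg] at n2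
  have n3 := (th_lead_iff n0.1.1).2 (show _ = dm (Matrix.single a1 b1 1 + -Matrix.single a1 b0 1)
    by rw [map_add, c2, cp_NR (by norm_num), map_add])
  have k := A (NL_nil p).neg (neg_mem (NL_AA p))
    (A (NL_nil q).neg (neg_mem (NL_AA q)) (A (NL_nil p) (NL_AA p) n0))
  refine ⟨_, k, (th_lead_iff k.1.1).1 ?_, ?_⟩
  · convert th_lead_Ad (neg_mem (NL_LD a1 b0).1) (c2 _ _) (by decide +kernel)
      (th_lead_Ad (neg_mem (NL_LD a1 a0).1) (c2 _ _) (by decide +kernel)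
        (th_lead_Ad (NL_LD a1 b0).1 (c1 _ _) (by decide +kernel) n3)) using 1
    decide +kernel
  · refine (th_re_Ad (NL_nil p).neg (nil_Ad _ (nil_Ad _ n1)) (th_NL p).2
      (by rw [neg_neg]; exact (th_NL p).1) (th_re_Ad (NL_nil q).neg (nil_Ad _ n1) (th_NL q).2
        (by rw [neg_neg]; exact (th_NL q).1)
        (th_re_Ad (NL_nil p) n1 (th_NL p).1 (th_NL p).2 n2))).congr ?_
    decide +kernel

lemma exists_e0 : ∃ e : Fin 5 → E17, ∀ i, e i ∈ AA (r0 X 17) ∧ cp 17 0 (e i) = dm (fm i) ∧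
    ∀ x, exp (e i) (th0 17 x).1 = (th0 17 (twA i x)).1 := by
  have c1 : ∀ b a : X, cp 17 0 (NR 17 b a) = dm (Matrix.single a b 1) := cp_NR (by norm_num)
  have c2 : ∀ b a : X, cp 17 0 (-NR 17 b a) = dm (Matrix.single a b (-1)) := fun b a => by
    rw [map_neg, c1, ← map_neg, Matrix.single_neg]
  have key : ∀ i, ∃ e ∈ AA (r0 X 17), cp 17 0 e = dm (fm i) ∧ ThRe (exp e) (twF 1 i) := by
    intro i
    fin_cases i
    · exact ⟨_, NR_AA (by decide), c1 b0 a0, (th_NR (by decide)).1.congr (by decide +kernel)⟩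
    · exact ⟨_, neg_mem (NR_AA (by decide)), c2 a0 b0,
        (th_NR (by decide)).2.congr (by decide +kernel)⟩
    · exact th_mid
    · exact ⟨_, neg_mem (NR_AA (by decide)), c2 a1 b1,
        (th_NR (by decide)).2.congr (by decide +kernel)⟩
    · exact ⟨_, NR_AA (by decide), c1 b1 a1, (th_NR (by decide)).1.congr (by decide +kernel)⟩
  choose e h1 h2 h3 using key
  exact ⟨e, fun i => ⟨h1 i, h2 i, (h3 i).2⟩⟩

lemma th_omT : omT = ∑ i : Fin 2, ⁅xx 17 (i, false), xx 17 (i, true)⁆ := by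
  simp only [omT, om, map_sum, Ring.lie_def, map_sub, map_mul, xx]

lemma th_omT_LT : omT ∈ LT X 17 := th_omT ▸ sum_mem fun _ _ => LT_lie (LT_xx _) (LT_xx _)

lemma th_lie2 (a b : X) : ⁅xx 17 a, xx 17 b⁆ ∈ FT X 17 2 :=
  sub_mem (FT_mul (i := 1) (j := 1) (xx_mem a) (xx_mem b))
    (FT_mul (i := 1) (j := 1) (xx_mem b) (xx_mem a))

lemma th_omT_two : omT ∈ FT X 17 2 := by
  rw [th_omT]
  exact sum_mem fun _ _ => th_lie2 _ _

lemma th_zeta : ∃ z ∈ LT X 17, (th0 17 zeta).1 = exp z ∧ z - omT ∈ FT X 17 3 := by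
  obtain ⟨z, hz, e⟩ := th0_log (N := 17) zeta
  refine ⟨z, hz, e, log_lead (LT_le hz) th_omT_two ?_⟩
  have h1 : ∀ a : X, (th0 17 (FreeGroup.of a)).1 - 1 - xx 17 a ∈ FT X 17 2 := fun a => by
    have hn := FT_nil (xx_mem (N := 17) a)
    have := exp_sub_sub_mem ((LinearMap.isNilpotent_mulLeft_iff ℚ _).2 hn) (S := FT X 17 2)
      (x := 1) (fun y hy => FT_mono (j := 1 + 2) (by norm_num) (FT_mul (xx_mem a) hy))
      (by simpa using FT_mul (xx_mem (N := 17) a) (xx_mem a))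
    simpa [exp_mulLeft hn, th0_of] using this
  have h2 := fun i : Fin 2 => comm_lead (xx_mem _) (xx_mem _) (h1 (i, false)) (h1 (i, true))
  have h3 := fun i : Fin 2 => add_mem (FT_mono (Nat.le_succ 2) (h2 i)) (th_lie2 (i, false) (i, true))
  simp only [sub_add_cancel] at h3
  have h4 := add_mem (add_mem (h2 0) (h2 1)) (FT_mono (j := 2 + 2) (Nat.le_succ 3) (FT_mul (h3 0) (h3 1)))
  rw [← e, zeta, map_mul, Units.val_mul, th_omT, Fin.sum_univ_two]
  convert h4 using 1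
  simp only [map_mul, map_inv, fa, fb]
  noncomm_ring

lemma th_kill {n : ℕ} {s : T4} (hs : s ∈ len gx (n + 1)) :
    ∃ D ∈ LD X 17, D ∈ FD X 17 n ∧ D omT = mkT 17 s := by
  have key : ∀ (x : X) (y : T17), y ∈ LT X 17 → y ∈ FT X 17 (n + 1) → ∃ D ∈ LD X 17,
      D ∈ FD X 17 n ∧ ∀ a, D (xx 17 a) = if a = x then y else 0 := fun x y h1 h2 => by
    have h3 : ∀ a, (if a = x then y else 0) ∈ LT X 17 := fun a => by
      split_ifs
      exacts [h1, zero_mem _]
    have h4 := fun a => LT_le (h3 a)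
    refine ⟨dT _, ⟨dT_DD h4, fun a => (dT_xx h4 a).symm ▸ h3 a⟩,
      (DD_FD (dT_DD h4)).2 fun a => ?_, dT_xx h4⟩
    rw [dT_xx h4]
    split_ifs
    exacts [h2, zero_mem _]
  suffices h : len gx (n + 1) ≤ (((LD X 17).toSubmodule ⊓ FD X 17 n).map
      (LinearMap.applyₗ omT)).comap (mkT 17).toLinearMap by
    obtain ⟨D, hD, e⟩ := h hs
    exact ⟨D, hD.1, hD.2, e⟩
  refine len_le fun x y hy => ?_
  have h1 := mk_LT (N := 17) hy
  have h2 := mk_FT (N := 17) (Hom_le_Fl le_rfl (len_Hom n hy))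
  have h3 : (mkT 17).toLinearMap ⁅gx x, y⁆ = ⁅xx 17 x, mkT 17 y⁆ := by simp [Ring.lie_def, xx]
  rw [mem_comap, h3]
  obtain ⟨i, _ | _⟩ := x
  · obtain ⟨D, d1, d2, d3⟩ := key (i, true) _ h1 h2
    refine ⟨D, ⟨d1, d2⟩, ?_⟩
    change D omT = _
    simp only [th_omT, map_sum, DD_lie d1.1, d3]
    fin_cases i <;> simp
  · obtain ⟨D, d1, d2, d3⟩ := key (i, false) _ (neg_mem h1) (neg_mem h2)
    refine ⟨D, ⟨d1, d2⟩, ?_⟩
    change D omT = _
    simp only [th_omT, map_sum, DD_lie d1.1, d3]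
    fin_cases i <;> simp

lemma th_sub_sec {k : ℕ} {s : T17} (hs : s ∈ FT X 17 k) :
    s - mkT 17 (sec 17 k s) ∈ FT X 17 (k + 1) := by
  refine mem_FT.2 fun j hj => ?_
  by_cases h : j ≤ 17
  · rw [map_sub, sec_mk h, pj_hom j (sec_mem k s)]
    split_ifs with e
    · rw [e, sub_self]
    · rw [mem_FT.1 hs j (by omega), sub_self]
  · exact sec_top (not_le.1 h) _

lemma exists_psi : ∃ zs : List E17, (∀ z ∈ zs, z ∈ LD X 17 ∧ z ∈ FD X 17 1) ∧
    (expL zs).1 (th0 17 zeta).1 = exp omT := by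
  have key : ∀ k, ∃ zs : List E17, (∀ z ∈ zs, z ∈ LD X 17 ∧ z ∈ FD X 17 1) ∧ ∃ z ∈ LT X 17,
      (expL zs).1 (th0 17 zeta).1 = exp z ∧ z - omT ∈ FT X 17 (k + 3) := fun k => by
    induction k with
    | zero => exact ⟨[], by simp, th_zeta⟩
    | succ k ih =>
      obtain ⟨zs, h1, z, h2, h3, h4⟩ := ih
      obtain ⟨D, d1, d2, d3⟩ :=
        th_kill (neg_mem ((mem_LT.1 (sub_mem h2 th_omT_LT)).2 (k + 1 + 1)))
      have d4 : D ∈ FD X 17 1 := FD_mono (by omega) d2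
      have hn := FD_nil d4
      have z2 : z ∈ FT X 17 2 := by
        have := add_mem (FT_mono (by omega : 2 ≤ k + 3) h4) th_omT_two
        rwa [sub_add_cancel] at this
      refine ⟨D :: zs, List.forall_mem_cons.2 ⟨⟨d1, d4⟩, h1⟩, exp D z,
        exp_mem hn (fun y hy => LD_LT d1 hy) h2, ?_, ?_⟩
      · rw [expL_cons, Units.val_mul, Module.End.mul_apply, h3, expU_val hn,
          (DD_exp d1.1 hn).1.exp (FT_nil (LT_le h2))]
      · have e1 := exp_sub_sub_mem hn (S := FT X 17 (k + 1 + 3)) (DD_FD0 d1.1 _)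
          (FT_mono (by omega) (d2 _ _ (d2 _ _ z2)))
        have e2 : D (z - omT) ∈ FT X 17 (k + 1 + 3) := FT_mono (by omega) (d2 _ _ h4)
        have e3 : _ ∈ FT X 17 (k + 1 + 3) := th_sub_sec h4
        convert add_mem (add_mem e1 e2) e3 using 1
        rw [map_sub D, d3, map_neg]
        abel
  obtain ⟨zs, h1, z, -, h3, h4⟩ := key 15
  rw [FT_top (by norm_num), mem_bot, sub_eq_zero] at h4
  exact ⟨zs, h1, h4 ▸ h3⟩

lemma th_one_add {u : E17} (h : u - 1 ∈ FD X 17 1) : u ∈ FD X 17 0 := by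
  have := add_mem (FD_mono zero_le_one h) one_FD
  rwa [sub_add_cancel] at this

lemma th_mul_one {u v : E17} (h : u - 1 ∈ FD X 17 1) (h' : v - 1 ∈ FD X 17 1) :
    u * v - 1 ∈ FD X 17 1 := by
  have h1 := FD_mul (th_one_add h) h'
  rw [zero_add] at h1
  have := add_mem h1 h
  rwa [mul_sub, mul_one, sub_add_sub_cancel] at this

lemma expL_isA {zs : List E17} (h : ∀ z ∈ zs, z ∈ DD X 17 ∧ z ∈ FD X 17 1) :
    IsA (expL zs).1 ∧ (expL zs).1 - 1 ∈ FD X 17 1 := by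
  induction zs with
  | nil => exact ⟨IsA.one, by simp [expL_nil]⟩
  | cons z zs ih =>
    obtain ⟨⟨h1, h2⟩, h3⟩ := List.forall_mem_cons.1 h
    have hn := FD_nil h2
    rw [expL_cons, Units.val_mul, expU_val hn]
    exact ⟨(DD_exp h1 hn).1.mul (ih h3).1, th_mul_one
      (fun j s hs => exp_sub_mem hn (DD_FD0 h1 _) (h2 j s hs)) (ih h3).2⟩

lemma AA_expL {zs : List E17} (h : ∀ z ∈ zs, z ∈ LD X 17 ∧ z ∈ FD X 17 1) (r : T17) :
    ∃ r', ∀ D ∈ AA r, (Ad (expL zs)).1 D ∈ AA r' := by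
  induction zs with
  | nil => exact ⟨r, fun D hD => by rwa [expL_nil, Ad_one]⟩
  | cons z zs ih =>
    obtain ⟨⟨h1, h2⟩, h3⟩ := List.forall_mem_cons.1 h
    obtain ⟨r1, e1⟩ := ih h3
    obtain ⟨r2, e2⟩ := AA_conj h1 (FD_nil h2) r1
    exact ⟨r2, fun D hD => by rw [expL_cons, Ad_mul]; exact e2 _ (e1 D hD)⟩

lemma th_mk {u : E17ˣ} {e : Fin 5 → E17} {r : T17} (uA : IsA u.1) (u1 : u.1 - 1 ∈ FD X 17 1)
    (e0 : ∀ i, cp 17 0 (e i) = dm (fm i)) (eA : ∀ i, e i ∈ AA r)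
    (act : ∀ i x, exp (e i) (u.1 (th0 17 x).1) = u.1 (th0 17 (twA i x)).1) {zs : List E17}
    (h : ∀ z ∈ zs, z ∈ LD X 17 ∧ z ∈ FD X 17 1)
    (hz : (expL zs).1 (u.1 (th0 17 zeta).1) = exp omT) :
    ∃ R' : Real, ∀ i, R'.e i = (Ad (expL zs)).1 (e i) := by
  obtain ⟨h1, h2⟩ := expL_isA fun z hz => ⟨(h z hz).1.1, (h z hz).2⟩
  obtain ⟨r', hr⟩ := AA_expL h r
  have hn := fun i => nil_of_cp (eA i).1.1 (e0 i) (fm_nil i)
  have h3 : ∀ i x, exp ((Ad (expL zs)).1 (e i)) ((expL zs * u).1 (th0 17 x).1) =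
      (expL zs * u).1 (th0 17 (twA i x)).1 := fun i x => by
    simp only [th_exp_Ad _ (hn i), Units.val_mul, Module.End.mul_apply, unit_inv_apply, act]
  refine ⟨⟨expL zs * u, _, r', h1.mul uA, th_mul_one h2 u1, hz,
    fun i => ⟨(hr _ (eA i)).1, ?_⟩, fun i => ?_, fun i => hr _ (eA i), h3⟩, fun _ => rfl⟩
  · have h4 := h3 i zeta
    have h5 := nil_Ad (expL zs) (hn i)
    have h6 := DD_exp (hr _ (eA i)).1.1 h5
    have h7 := LT_le th_omT_LT
    rw [twA_zeta, Units.val_mul, Module.End.mul_apply, hz, h6.1.exp (FT_nil h7)] at h4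
    exact (exp_fix h5).1 (exp_inj (FT_nil (h6.2 1 _ h7)) (FT_nil h7) h4)
  · rw [(cp_lead 1 h1 (by rwa [map_one]) (eA i).1.1 (DD_FD0 (eA i).1.1)).2, cj_triv (map_one _),
      e0]

theorem exists_real : Nonempty Real := by
  obtain ⟨e, he⟩ := exists_e0
  obtain ⟨zs, h1, h2⟩ := exists_psi
  obtain ⟨R, -⟩ := th_mk (u := 1) IsA.one (by simp) (fun i => (he i).2.1) (fun i => (he i).1)
    (fun i => (he i).2.2) h1 h2
  exact ⟨R⟩

theorem Real.conj (R : Real) {zs : List E17} (h : ∀ z ∈ zs, z ∈ Sym ∧ z ∈ FD X 17 1) :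
    ∃ R' : Real, ∀ i, R'.e i = (Ad (expL zs)).1 (R.e i) := by
  refine th_mk R.uA R.u1 R.e0 R.eA R.act (fun z hz => ⟨(h z hz).1.1, (h z hz).2⟩) ?_
  rw [R.uz, (expL_isA fun z hz => ⟨(h z hz).1.1.1, (h z hz).2⟩).1.exp (FT_nil (LT_le th_omT_LT))]
  congr 1
  induction zs with
  | nil => rfl
  | cons z zs ih =>
    obtain ⟨⟨h1, h2⟩, h3⟩ := List.forall_mem_cons.1 h
    rw [expL_cons, Units.val_mul, Module.End.mul_apply, ih h3, expU_val (FD_nil h2),
      (exp_fix (FD_nil h2)).2 h1.2]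

end Pool.Agent.Lib.MP_f9c34c_al.G
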