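import Pool.Agent.Lib.MP_f9c34c_al.Alg
import Pool.Agent.Lib.MP_f9c34c_al.G.Exp

/-! The truncated free associative algebra. -/

namespace Pool.Agent.Lib.MP_f9c34c_al.G

open Submodule Finset IsNilpotent

attribute [local instance 100] LieRing.ofAssociativeRing

variable {Y : Type}

/-- The span of the words of length at least `k`. -/
noncomputable def Fl (Y : Type) (k : ℕ) : Submodule ℚ (T Y) :=
  span ℚ {s | ∃ w : List Y, k ≤ w.length ∧ s = wd w}

/-- The projection to a homogeneous component. -/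
noncomputable def pj (k : ℕ) : Module.End ℚ (T Y) := lin fun w => if w.length = k then wd w else 0

lemma pj_wd (k : ℕ) (w : List Y) : pj k (wd w) = if w.length = k then wd w else 0 := lin_wd _ _

lemma pj_mem (k : ℕ) (s : T Y) : pj k s ∈ Hom Y k :=
  T_mem (fun w => by
    rw [pj_wd]
    split_ifs with h
    · exact wd_mem h
    · exact zero_mem _) s

lemma pj_hom (k : ℕ) {q : ℕ} {s : T Y} (hs : s ∈ Hom Y q) : pj k s = if q = k then s else 0 :=
  (Hom_ext (f := pj k) (g := if q = k then LinearMap.id else 0)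
    (fun w hw => by rw [pj_wd, hw]; split_ifs <;> rfl) hs).trans (by split_ifs <;> rfl)

lemma pj_mul (k : ℕ) (s t : T Y) : pj k (s * t) = ∑ i ∈ range (k + 1), pj i s * pj (k - i) t := by
  have key : ∀ u v : List Y,
      pj k (wd u * wd v) = ∑ i ∈ range (k + 1), pj i (wd u) * pj (k - i) (wd v) := by
    intro u v
    rw [← wd_append, pj_wd, List.length_append]
    simp only [pj_wd, ite_mul, zero_mul, sum_ite_eq, mem_range]
    by_cases h : u.length + v.length = k
    · rw [if_pos h, if_pos (by omega), if_pos (by omega), wd_append]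
    · rw [if_neg h]
      by_cases h' : u.length < k + 1
      · rw [if_pos h', if_neg (by omega), mul_zero]
      · rw [if_neg h']
  have k2 : ∀ u : List Y,
      pj k (wd u * t) = ∑ i ∈ range (k + 1), pj i (wd u) * pj (k - i) t := fun u =>
    (T_ext' (f := pj k ∘ₗ LinearMap.mulLeft ℚ (wd u))
      (g := ∑ i ∈ range (k + 1), LinearMap.mulLeft ℚ (pj i (wd u)) ∘ₗ pj (k - i))
      (fun v => by simpa using key u v) t).trans (by simp)
  exact (T_ext' (f := pj k ∘ₗ LinearMap.mulRight ℚ t)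
    (g := ∑ i ∈ range (k + 1), LinearMap.mulRight ℚ (pj (k - i) t) ∘ₗ pj i)
    (fun u => by simpa using k2 u) s).trans (by simp)

lemma pj_cm (k : ℕ) {s : T Y} (hs : s ∈ Cm Y) : pj k s ∈ Cm Y := by
  refine Cm_mem (fun a b => ?_) hs
  rw [map_sub, pj_mul, pj_mul, ← sum_range_reflect (fun i => pj i b * pj (k - i) a),
    ← sum_sub_distrib]
  refine sum_mem fun i hi => ?_
  rw [mem_range] at hi
  rw [show k + 1 - 1 - i = k - i by omega, show k - (k - i) = i by omega]
  exact cm_mem _ _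

lemma wd_Fl {k : ℕ} {w : List Y} (h : k ≤ w.length) : wd w ∈ Fl Y k := subset_span ⟨w, h, rfl⟩

lemma Fl_mem {M : Type*} [AddCommGroup M] [Module ℚ M] {S : Submodule ℚ M} {f : T Y →ₗ[ℚ] M}
    {k : ℕ} (h : ∀ w : List Y, k ≤ w.length → f (wd w) ∈ S) {s : T Y} (hs : s ∈ Fl Y k) :
    f s ∈ S :=
  (span_le.2 (by rintro _ ⟨w, hw, rfl⟩; exact h w hw) : Fl Y k ≤ S.comap f) hs

lemma sub_sum_pj' (k : ℕ) (s : T Y) : s - ∑ j ∈ range k, pj j s ∈ Fl Y k := by
  have := T_mem (S := Fl Y k) (f := LinearMap.id - ∑ j ∈ range k, pj j) (fun w => by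
    simp only [LinearMap.sub_apply, LinearMap.id_apply, LinearMap.sum_apply, pj_wd, sum_ite_eq,
      mem_range]
    split_ifs with h
    · rw [sub_self]; exact zero_mem _
    · rw [sub_zero]; exact wd_Fl (by omega)) s
  simpa using this

lemma mem_Fl {k : ℕ} {s : T Y} : s ∈ Fl Y k ↔ ∀ j < k, pj j s = 0 := by
  refine ⟨fun hs j hj => ?_, fun h => ?_⟩
  · exact Fl_mem (S := ⊥) (fun w hw => by rw [pj_wd, if_neg (by omega)]; exact zero_mem _) hs
  · have := sub_sum_pj' k s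
    rwa [sum_eq_zero fun j hj => h j (mem_range.1 hj), sub_zero] at this

lemma sub_sum_pj (k : ℕ) (s : T Y) : s - ∑ j ∈ range k, pj j s ∈ Fl Y k :=
  sub_sum_pj' k s

lemma exists_sum_pj (s : T Y) : ∃ k, s = ∑ j ∈ range k, pj j s := by
  let S : Submodule ℚ (T Y) :=
    { carrier := {s | ∃ k, ∀ m, k ≤ m → s = ∑ j ∈ range m, pj j s}
      zero_mem' := ⟨0, fun m _ => by simp⟩
      add_mem' := by
        rintro a b ⟨k, hk⟩ ⟨l, hl⟩
        refine ⟨max k l, fun m hm => ?_⟩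
        simp only [map_add, sum_add_distrib]
        rw [← hk m (le_of_max_le_left hm), ← hl m (le_of_max_le_right hm)]
      smul_mem' := by
        rintro c a ⟨k, hk⟩
        refine ⟨k, fun m hm => ?_⟩
        simp only [map_smul, ← smul_sum]
        rw [← hk m hm] }
  obtain ⟨k, hk⟩ : s ∈ S := T_mem (S := S) (f := LinearMap.id) (fun w => ⟨w.length + 1, fun m hm => by
    simp only [LinearMap.id_apply, pj_wd, sum_ite_eq, mem_range]
    rw [if_pos (by omega)]⟩) s
  exact ⟨k, hk k le_rfl⟩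

lemma Hom_le_Fl {k j : ℕ} (h : k ≤ j) : Hom Y j ≤ Fl Y k :=
  span_mono (by rintro _ ⟨w, hw, rfl⟩; exact ⟨w, by omega, rfl⟩)

lemma Fl_mono {k j : ℕ} (h : k ≤ j) : Fl Y j ≤ Fl Y k :=
  span_mono (by rintro _ ⟨w, hw, rfl⟩; exact ⟨w, by omega, rfl⟩)

lemma Fl_zero : Fl Y 0 = ⊤ :=
  eq_top_iff.2 fun _ _ => mem_Fl.2 fun _ hj => absurd hj (Nat.not_lt_zero _)

lemma Fl_mul {i j : ℕ} {s t : T Y} (hs : s ∈ Fl Y i) (ht : t ∈ Fl Y j) : s * t ∈ Fl Y (i + j) :=
  Fl_mem (f := LinearMap.mulRight ℚ t) (fun u hu => Fl_mem (f := LinearMap.mulLeft ℚ (wd u))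
    (fun v hv => by
      rw [LinearMap.mulLeft_apply, ← wd_append]
      exact wd_Fl (by rw [List.length_append]; omega)) ht) hs

/-- The words of length at least `k` span a two-sided ideal. -/
noncomputable def FI (Y : Type) (k : ℕ) : Ideal (T Y) where
  carrier := Fl Y k
  add_mem' := add_mem
  zero_mem' := zero_mem _
  smul_mem' a _ h := zero_add k ▸ Fl_mul (Fl_zero (Y := Y) ▸ mem_top (x := a)) h

instance FI_two (k : ℕ) : (FI Y k).IsTwoSided :=
  ⟨fun b h => Fl_mul (j := 0) h (Fl_zero (Y := Y) ▸ mem_top (x := b))⟩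

/-- The free algebra truncated above degree `N`. -/
def TT (Y : Type) (N : ℕ) : Type := T Y ⧸ FI Y (N + 1)

variable {N : ℕ}

noncomputable instance TT_ring : Ring (TT Y N) := inferInstanceAs (Ring (T Y ⧸ FI Y (N + 1)))

noncomputable instance TT_alg : Algebra ℚ (TT Y N) :=
  inferInstanceAs (Algebra ℚ (T Y ⧸ FI Y (N + 1)))

/-- The quotient map. -/
noncomputable def mkT (N : ℕ) : T Y →ₐ[ℚ] TT Y N := Ideal.Quotient.mkₐ ℚ _

lemma mkT_surj : Function.Surjective (mkT (Y := Y) N) := Ideal.Quotient.mkₐ_surjective ℚ _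

lemma mkT_eq_zero {s : T Y} : mkT N s = 0 ↔ s ∈ Fl Y (N + 1) := Ideal.Quotient.eq_zero_iff_mem

/-- The generators. -/
noncomputable def xx (N : ℕ) (a : Y) : TT Y N := mkT N (gx a)

/-- The filtration. -/
noncomputable def FT (Y : Type) (N k : ℕ) : Submodule ℚ (TT Y N) :=
  (Fl Y k).map (mkT N).toLinearMap

lemma FT_zero : FT Y N 0 = ⊤ := by
  rw [FT, Fl_zero, Submodule.map_top]
  exact LinearMap.range_eq_top.2 mkT_surj

lemma FT_top {k : ℕ} (h : N < k) : FT Y N k = ⊥ := by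
  refine eq_bot_iff.2 ?_
  rintro _ ⟨s, hs, rfl⟩
  exact mkT_eq_zero.2 (Fl_mono h hs)

lemma FT_mono {k j : ℕ} (h : k ≤ j) : FT Y N j ≤ FT Y N k := map_mono (Fl_mono h)

lemma FT_mul {i j : ℕ} {s t : TT Y N} (hs : s ∈ FT Y N i) (ht : t ∈ FT Y N j) :
    s * t ∈ FT Y N (i + j) := by
  obtain ⟨a, ha, rfl⟩ := hs
  obtain ⟨b, hb, rfl⟩ := ht
  exact ⟨a * b, Fl_mul ha hb, map_mul (mkT N) a b⟩

lemma xx_mem (a : Y) : xx N a ∈ FT Y N 1 := ⟨gx a, Hom_le_Fl le_rfl (gx_mem a), rfl⟩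

lemma FT_pow {s : TT Y N} (hs : s ∈ FT Y N 1) : s ^ (N + 1) = 0 := by
  have key : ∀ k, s ^ k ∈ FT Y N k := fun k => by
    induction k with
    | zero => rw [FT_zero]; exact mem_top
    | succ k ih => rw [_root_.pow_succ]; exact FT_mul ih hs
  have := key (N + 1)
  rwa [FT_top (Nat.lt_succ_self N), mem_bot] at this

lemma FT_nil {s : TT Y N} (hs : s ∈ FT Y N 1) : IsNilpotent s := ⟨_, FT_pow hs⟩

instance TT_fin [Finite Y] : FiniteDimensional ℚ (TT Y N) := by
  have hf : ((fun w : List Y => mkT N (wd w)) '' {w | w.length ≤ N}).Finite :=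
    (List.finite_length_le Y N).image _
  refine ⟨Submodule.fg_def.2 ⟨_, hf, eq_top_iff.2 fun s _ => ?_⟩⟩
  obtain ⟨t, rfl⟩ := mkT_surj s
  refine T_mem (f := (mkT N).toLinearMap) (fun w => ?_) t
  by_cases h : w.length ≤ N
  · exact subset_span ⟨w, h, rfl⟩
  · have : mkT N (wd w) = 0 := mkT_eq_zero.2 (wd_Fl (by omega))
    rw [AlgHom.toLinearMap_apply, this]
    exact zero_mem _

/-- The truncation of a representative. -/
noncomputable def tot (N : ℕ) : TT Y N →ₗ[ℚ] T Y :=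
  (∑ j ∈ range (N + 1), pj j : Module.End ℚ (T Y)) ∘ₗ
    Classical.choose ((mkT N).toLinearMap.exists_rightInverse_of_surjective
      (LinearMap.range_eq_top.2 mkT_surj))

lemma tot_mk (s : T Y) : tot N (mkT N s) = ∑ j ∈ range (N + 1), pj j s := by
  have h := LinearMap.congr_fun (Classical.choose_spec
    ((mkT (Y := Y) N).toLinearMap.exists_rightInverse_of_surjective
      (LinearMap.range_eq_top.2 mkT_surj))) (mkT N s)
  rw [LinearMap.comp_apply, LinearMap.id_apply, AlgHom.toLinearMap_apply, ← sub_eq_zero,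
    ← map_sub, mkT_eq_zero, mem_Fl] at h
  rw [tot, LinearMap.comp_apply, LinearMap.sum_apply]
  refine sum_congr rfl fun j hj => ?_
  have := h j (mem_range.1 hj)
  rwa [map_sub, sub_eq_zero] at this

lemma mk_tot (s : TT Y N) : mkT N (tot N s) = s := by
  obtain ⟨t, rfl⟩ := mkT_surj s
  rw [tot_mk, eq_comm, ← sub_eq_zero, ← map_sub]
  exact mkT_eq_zero.2 (sub_sum_pj _ _)

/-- The homogeneous components. -/
noncomputable def sec (N d : ℕ) : TT Y N →ₗ[ℚ] T Y := pj d ∘ₗ tot N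

lemma sec_mk {d : ℕ} (h : d ≤ N) (s : T Y) : sec N d (mkT N s) = pj d s := by
  rw [sec, LinearMap.comp_apply, tot_mk, map_sum]
  simp only [fun j => pj_hom d (pj_mem j s), sum_ite_eq', mem_range]
  rw [if_pos (by omega)]

lemma sec_mem (d : ℕ) (s : TT Y N) : sec N d s ∈ Hom Y d := pj_mem _ _

lemma mem_FT {k : ℕ} {s : TT Y N} : s ∈ FT Y N k ↔ ∀ j < k, sec N j s = 0 := by
  refine ⟨?_, fun h => ⟨tot N s, mem_Fl.2 h, mk_tot s⟩⟩
  rintro ⟨t, ht, rfl⟩ j hj
  rw [AlgHom.toLinearMap_apply, sec, LinearMap.comp_apply, tot_mk, map_sum]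
  simp only [fun i => pj_hom j (pj_mem i t), sum_ite_eq', mem_range]
  rw [mem_Fl.1 ht j hj, ite_self]

lemma sec_mul {d : ℕ} (h : d ≤ N) (s t : TT Y N) :
    sec N d (s * t) = ∑ i ∈ range (d + 1), sec N i s * sec N (d - i) t := by
  obtain ⟨a, rfl⟩ := mkT_surj s
  obtain ⟨b, rfl⟩ := mkT_surj t
  rw [← map_mul, sec_mk h, pj_mul]
  refine sum_congr rfl fun i hi => ?_
  rw [mem_range] at hi
  rw [sec_mk (by omega), sec_mk (by omega)]

/-- The universal property. -/
theorem exists_liftT {A : Type*} [Ring A] [Algebra ℚ A] (y : Y → A)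
    (h : ∀ w : List Y, w.length = N + 1 → (w.map y).prod = 0) :
    ∃ φ : TT Y N →ₐ[ℚ] A, ∀ a, φ (xx N a) = y a := by
  let ψ : T Y →ₐ[ℚ] A := MonoidAlgebra.lift ℚ A (FreeMonoid Y) (FreeMonoid.lift y)
  have hw : ∀ w : List Y, ψ (wd w) = (w.map y).prod := fun w => by
    simp [ψ, wd, FreeMonoid.lift_apply]
  have h0 : ∀ s ∈ FI Y (N + 1), ψ s = 0 := fun s hs =>
    Fl_mem (S := ⊥) (f := ψ.toLinearMap) (k := N + 1) (fun w hk => by
      rw [AlgHom.toLinearMap_apply, hw, ← List.take_append_drop (N + 1) w, List.map_append,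
        List.prod_append, h _ (by rw [List.length_take]; omega), zero_mul]
      exact zero_mem _) hs
  refine ⟨Ideal.Quotient.liftₐ (FI Y (N + 1)) ψ h0, fun a => ?_⟩
  have : ψ (gx a) = y a := by rw [gx, hw]; simp
  exact this

end Pool.Agent.Lib.MP_f9c34c_al.G
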