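import Pool.Agent.Lib.MP_f9c34c_al.G.Tr1

/-! Endomorphisms and derivations of the truncated algebra. -/

namespace Pool.Agent.Lib.MP_f9c34c_al.G

open Submodule Finset IsNilpotent

attribute [local instance 100] LieRing.ofAssociativeRing

variable {Y : Type} {N : ℕ}

lemma mk_wd_nil : mkT N (wd ([] : List Y)) = 1 := by rw [wd_nil, map_one]

lemma mk_wd_cons (a : Y) (w : List Y) : mkT N (wd (a :: w)) = xx N a * mkT N (wd w) := by
  rw [wd_cons, map_mul, xx]

lemma mk_wd_mem (w : List Y) : mkT N (wd w) ∈ FT Y N w.length :=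
  mem_map_of_mem (subset_span ⟨w, le_rfl, rfl⟩)

lemma FT_ind {M : Type*} [AddCommGroup M] [Module ℚ M] {S : Submodule ℚ M} {f : TT Y N →ₗ[ℚ] M}
    {k : ℕ} (h : ∀ w : List Y, k ≤ w.length → f (mkT N (wd w)) ∈ S) {s : TT Y N}
    (hs : s ∈ FT Y N k) : f s ∈ S := by
  obtain ⟨t, ht, rfl⟩ := hs
  exact (span_le.2 (by rintro _ ⟨w, hw, rfl⟩; exact h w hw) :
    Fl Y k ≤ S.comap (f ∘ₗ (mkT N).toLinearMap)) ht

lemma TT_ext {M : Type*} [AddCommGroup M] [Module ℚ M] {f g : TT Y N →ₗ[ℚ] M}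
    (h : ∀ w : List Y, f (mkT N (wd w)) = g (mkT N (wd w))) : f = g := by
  ext s
  obtain ⟨t, rfl⟩ := mkT_surj s
  exact T_ext' (f := f ∘ₗ (mkT N).toLinearMap) (g := g ∘ₗ (mkT N).toLinearMap) h t

/-- Algebra endomorphisms among the linear maps. -/
def IsA (g : Module.End ℚ (TT Y N)) : Prop := g 1 = 1 ∧ ∀ s t, g (s * t) = g s * g t

lemma IsA.ext {g g' : Module.End ℚ (TT Y N)} (h : IsA g) (h' : IsA g')
    (e : ∀ a, g (xx N a) = g' (xx N a)) : g = g' :=
  TT_ext fun w => by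
    induction w with
    | nil => rw [mk_wd_nil, h.1, h'.1]
    | cons a w ih => rw [mk_wd_cons, h.2, h'.2, ih, e]

lemma IsA.one : IsA (1 : Module.End ℚ (TT Y N)) := ⟨rfl, fun _ _ => rfl⟩

lemma IsA.mul {g g' : Module.End ℚ (TT Y N)} (h : IsA g) (h' : IsA g') : IsA (g * g') :=
  ⟨by rw [Module.End.mul_apply, h'.1, h.1], fun s t => by
    simp only [Module.End.mul_apply, h'.2, h.2]⟩

lemma unit_inv_apply (g : (Module.End ℚ (TT Y N))ˣ) (s : TT Y N) : (g⁻¹).1 (g.1 s) = s := by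
  rw [← Module.End.mul_apply, Units.inv_mul, Module.End.one_apply]

lemma unit_apply_inv (g : (Module.End ℚ (TT Y N))ˣ) (s : TT Y N) : g.1 ((g⁻¹).1 s) = s := by
  rw [← Module.End.mul_apply, Units.mul_inv, Module.End.one_apply]

lemma IsA.inv {g : (Module.End ℚ (TT Y N))ˣ} (h : IsA g.1) : IsA (g⁻¹).1 := by
  refine ⟨by simpa only [h.1] using unit_inv_apply g 1, fun s t => ?_⟩
  have := unit_inv_apply g ((g⁻¹).1 s * (g⁻¹).1 t)
  rwa [h.2, unit_apply_inv, unit_apply_inv] at this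

lemma IsA.exp {g : Module.End ℚ (TT Y N)} (h : IsA g) {s : TT Y N} (hs : IsNilpotent s) :
    g (exp s) = exp (g s) :=
  map_exp hs (AlgHom.ofLinearMap g h.1 h.2)

/-- Operators raising the filtration by `k`. -/
noncomputable def FD (Y : Type) (N k : ℕ) : Submodule ℚ (Module.End ℚ (TT Y N)) where
  carrier := {D | ∀ j, ∀ s ∈ FT Y N j, D s ∈ FT Y N (j + k)}
  add_mem' h h' j s hs := add_mem (h j s hs) (h' j s hs)
  zero_mem' _ _ _ := zero_mem _
  smul_mem' c _ h j s hs := smul_mem _ c (h j s hs)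

lemma FD_mul {i j : ℕ} {D D' : Module.End ℚ (TT Y N)} (h : D ∈ FD Y N i) (h' : D' ∈ FD Y N j) :
    D * D' ∈ FD Y N (i + j) := fun k s hs => by
  have := h _ _ (h' k s hs)
  rwa [add_assoc, add_comm j] at this

lemma FD_lie {i j : ℕ} {D D' : Module.End ℚ (TT Y N)} (h : D ∈ FD Y N i) (h' : D' ∈ FD Y N j) :
    ⁅D, D'⁆ ∈ FD Y N (i + j) :=
  sub_mem (FD_mul h h') (add_comm j i ▸ FD_mul h' h)

lemma FD_mono {k j : ℕ} (h : k ≤ j) : FD Y N j ≤ FD Y N k :=
  fun _ hD i s hs => FT_mono (Nat.add_le_add_left h i) (hD i s hs)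

lemma FD_nil {D : Module.End ℚ (TT Y N)} (h : D ∈ FD Y N 1) : IsNilpotent D := by
  have key : ∀ k, D ^ k ∈ FD Y N k := fun k => by
    induction k with
    | zero => exact fun _ _ h => h
    | succ k ih => exact _root_.pow_succ D k ▸ FD_mul ih h
  refine ⟨N + 1, LinearMap.ext fun s => ?_⟩
  have := key (N + 1) 0 s (FT_zero (Y := Y) (N := N) ▸ mem_top)
  rwa [FT_top (by omega), mem_bot] at this

lemma one_FD : (1 : Module.End ℚ (TT Y N)) ∈ FD Y N 0 := fun _ _ h => h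

/-- A unit preserving the filtration has an inverse preserving the filtration. -/
lemma FD_inv [Finite Y] {g : (Module.End ℚ (TT Y N))ˣ} (h : g.1 ∈ FD Y N 0) :
    (g⁻¹).1 ∈ FD Y N 0 := fun j s hs => by
  have hinj : Function.Injective (g.1.restrict (p := FT Y N j) (q := FT Y N j) (h j)) :=
    fun a b e => Subtype.ext (by
      have := congrArg (fun z : FT Y N j => (g⁻¹).1 z.1) e
      simpa only [LinearMap.restrict_apply, unit_inv_apply] using this)
  obtain ⟨t, ht⟩ := LinearMap.injective_iff_surjective.1 hinj ⟨s, hs⟩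
  obtain rfl : g.1 t.1 = s := congrArg Subtype.val ht
  rw [unit_inv_apply]
  exact t.2

lemma IsA.wd_mem {g : Module.End ℚ (TT Y N)} (h : IsA g) (e : ∀ a, g (xx N a) ∈ FT Y N 1)
    (w : List Y) : g (mkT N (wd w)) ∈ FT Y N w.length := by
  induction w with
  | nil => exact FT_zero (Y := Y) (N := N) ▸ mem_top
  | cons a w ih =>
    rw [mk_wd_cons, h.2, List.length_cons, add_comm]
    exact FT_mul (e a) ih

lemma IsA.mem_FD {g : Module.End ℚ (TT Y N)} (h : IsA g) (e : ∀ a, g (xx N a) ∈ FT Y N 1) :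
    g ∈ FD Y N 0 :=
  fun _ _ hs => FT_ind (fun w hw => FT_mono hw (h.wd_mem e w)) hs

/-- Two algebra endomorphisms that agree to first order on the generators. -/
lemma IsA.sub_FD {g g' : Module.End ℚ (TT Y N)} (h : IsA g) (h' : IsA g')
    (e' : ∀ a, g' (xx N a) ∈ FT Y N 1) (e : ∀ a, g (xx N a) - g' (xx N a) ∈ FT Y N 2) :
    g - g' ∈ FD Y N 1 := by
  have e1 : ∀ a, g (xx N a) ∈ FT Y N 1 := fun a => by
    simpa using add_mem (FT_mono one_le_two (e a)) (e' a)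
  refine fun j s hs => FT_ind (fun w hw => FT_mono (Nat.add_le_add_right hw 1) ?_) hs
  clear hw
  rw [LinearMap.sub_apply]
  induction w with
  | nil => rw [mk_wd_nil, h.1, h'.1, sub_self]; exact zero_mem _
  | cons a w ih =>
    have h1 := FT_mul (e a) (h.wd_mem e1 w)
    have h2 := FT_mul (e' a) ih
    rw [show 2 + w.length = (a :: w).length + 1 by simp; ring] at h1
    rw [show 1 + (w.length + 1) = (a :: w).length + 1 by simp; ring] at h2
    have h3 := add_mem h1 h2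
    rwa [sub_mul, mul_sub, sub_add_sub_cancel, ← h.2, ← h'.2, ← mk_wd_cons] at h3

lemma der_one {D : Module.End ℚ (TT Y N)} (h : ∀ s t, D (s * t) = D s * t + s * D t) :
    D 1 = 0 := by
  simpa using h 1 1

lemma der_FD {D : Module.End ℚ (TT Y N)} (h : ∀ s t, D (s * t) = D s * t + s * D t) {k : ℕ}
    (e : ∀ a, D (xx N a) ∈ FT Y N (k + 1)) : D ∈ FD Y N k := by
  refine fun j s hs => FT_ind (fun w hw => FT_mono (Nat.add_le_add_right hw k) ?_) hs
  clear hw
  induction w with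
  | nil => rw [mk_wd_nil, der_one h]; exact zero_mem _
  | cons a w ih =>
    have h1 := FT_mul (e a) (mk_wd_mem (N := N) w)
    have h2 := FT_mul (xx_mem a) ih
    rw [show k + 1 + w.length = (a :: w).length + k by simp; ring] at h1
    rw [show 1 + (w.length + k) = (a :: w).length + k by simp; ring] at h2
    rw [mk_wd_cons, h]
    exact add_mem h1 h2

/-- Derivations preserving the augmentation ideal. -/
noncomputable def DD (Y : Type) (N : ℕ) : LieSubalgebra ℚ (Module.End ℚ (TT Y N)) where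
  carrier := {D | (∀ s t, D (s * t) = D s * t + s * D t) ∧ ∀ a, D (xx N a) ∈ FT Y N 1}
  add_mem' h h' := ⟨fun s t => by
    simp only [LinearMap.add_apply, h.1 s t, h'.1 s t]; noncomm_ring,
    fun a => add_mem (h.2 a) (h'.2 a)⟩
  zero_mem' := ⟨fun s t => by simp, fun _ => zero_mem _⟩
  smul_mem' c _ h := ⟨fun s t => by
    simp only [LinearMap.smul_apply, h.1 s t, smul_add, smul_mul_assoc, mul_smul_comm],
    fun a => smul_mem _ c (h.2 a)⟩
  lie_mem' h h' := ⟨fun s t => by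
    simp only [Ring.lie_def, LinearMap.sub_apply, Module.End.mul_apply, map_add, h.1 _ _,
      h'.1 _ _]
    noncomm_ring,
    fun a => FD_lie (der_FD h.1 (k := 0) h.2) (der_FD h'.1 (k := 0) h'.2) 1 _ (xx_mem a)⟩

lemma DD_ext {D D' : Module.End ℚ (TT Y N)} (h : D ∈ DD Y N) (h' : D' ∈ DD Y N)
    (e : ∀ a, D (xx N a) = D' (xx N a)) : D = D' :=
  TT_ext fun w => by
    induction w with
    | nil => rw [mk_wd_nil, der_one h.1, der_one h'.1]
    | cons a w ih => rw [mk_wd_cons, h.1, h'.1, ih, e]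

lemma DD_FD {D : Module.End ℚ (TT Y N)} (h : D ∈ DD Y N) {k : ℕ} :
    D ∈ FD Y N k ↔ ∀ a, D (xx N a) ∈ FT Y N (k + 1) :=
  ⟨fun e a => add_comm 1 k ▸ e 1 _ (xx_mem a), der_FD h.1⟩

lemma DD_FD0 {D : Module.End ℚ (TT Y N)} (h : D ∈ DD Y N) : D ∈ FD Y N 0 := (DD_FD h).2 h.2

lemma DD_top {D : Module.End ℚ (TT Y N)} (h : D ∈ DD Y N) (h' : D ∈ FD Y N N) : D = 0 :=
  DD_ext h (zero_mem _) fun a => by
    have := (DD_FD h).1 h' a
    rwa [FT_top (Nat.lt_succ_self N), mem_bot] at this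

lemma DD_lie {D : Module.End ℚ (TT Y N)} (h : D ∈ DD Y N) (s t : TT Y N) :
    D ⁅s, t⁆ = ⁅D s, t⁆ + ⁅s, D t⁆ := by
  simp only [Ring.lie_def, map_sub, h.1 s t, h.1 t s]; abel

lemma DD_exp {D : Module.End ℚ (TT Y N)} (h : D ∈ DD Y N) (hn : IsNilpotent D) :
    IsA (exp D) ∧ exp D ∈ FD Y N 0 :=
  ⟨⟨(exp_fix hn).2 (der_one h.1), exp_bil hn (LinearMap.mul ℚ (TT Y N)) h.1⟩,
    fun j _ hs => exp_mem hn (S := FT Y N j) (DD_FD0 h j) hs⟩

lemma DD_Ad [Finite Y] {g : (Module.End ℚ (TT Y N))ˣ} (h : IsA g.1) (h0 : g.1 ∈ FD Y N 0)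
    {D : Module.End ℚ (TT Y N)} (hD : D ∈ DD Y N) : (Ad g).1 D ∈ DD Y N := by
  rw [Ad_apply]
  refine ⟨fun s t => ?_, fun a => h0 1 _ (DD_FD0 hD 1 _ (FD_inv h0 1 _ (xx_mem a)))⟩
  simp only [Module.End.mul_apply, h.inv.2, hD.1 _ _, map_add, h.2, unit_apply_inv]

lemma FD_Ad [Finite Y] {g : (Module.End ℚ (TT Y N))ˣ} (h0 : g.1 ∈ FD Y N 0) {k : ℕ}
    {D : Module.End ℚ (TT Y N)} (hD : D ∈ FD Y N k) : (Ad g).1 D ∈ FD Y N k := by
  rw [Ad_apply]
  exact fun j s hs => h0 (j + k) _ (hD j _ (FD_inv h0 j s hs))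

end Pool.Agent.Lib.MP_f9c34c_al.G
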