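import Pool.Agent.Lib.MP_f9c34c_al.G.Tr2

/-! Homogeneous components of derivations. -/

namespace Pool.Agent.Lib.MP_f9c34c_al.G

open Submodule Finset IsNilpotent

attribute [local instance 100] LieRing.ofAssociativeRing

variable {Y : Type} {N : ℕ}

/-- The operator induced by an operator on the free algebra. -/
noncomputable def desc (N : ℕ) : Module.End ℚ (T Y) →ₗ[ℚ] Module.End ℚ (TT Y N) :=
  (LinearMap.llcomp ℚ _ _ _ (mkT N).toLinearMap) ∘ₗ (LinearMap.llcomp ℚ _ _ _).flip (tot N)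

lemma desc_apply (E : Module.End ℚ (T Y)) (s : TT Y N) : desc N E s = mkT N (E (tot N s)) := rfl

lemma mk_FT {k : ℕ} {s : T Y} (h : s ∈ Fl Y k) : mkT N s ∈ FT Y N k := ⟨s, h, rfl⟩

lemma sec_top {d : ℕ} (h : N < d) (s : TT Y N) : sec N d s = 0 := by
  obtain ⟨s, rfl⟩ := mkT_surj s
  rw [sec, LinearMap.comp_apply, tot_mk, map_sum]
  refine sum_eq_zero fun j hj => ?_
  rw [pj_hom d (pj_mem j s), if_neg (by have := mem_range.1 hj; omega)]

lemma tot_eq (s : TT Y N) : tot N s = ∑ j ∈ range (N + 1), sec N j s := by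
  obtain ⟨s, rfl⟩ := mkT_surj s
  rw [tot_mk]
  exact sum_congr rfl fun j hj => (sec_mk (by have := mem_range.1 hj; omega) s).symm

lemma tot_Fl {k : ℕ} {s : TT Y N} (h : s ∈ FT Y N k) : tot N s ∈ Fl Y k := by
  rw [tot_eq]
  refine sum_mem fun j _ => ?_
  rcases lt_or_ge j k with hj | hj
  · rw [mem_FT.1 h j hj]; exact zero_mem _
  · exact Hom_le_Fl hj (sec_mem j s)

lemma der_Fl {E : Module.End ℚ (T Y)} (h : IsDer E) {m : ℕ} (hm : ∀ a, E (gx a) ∈ Fl Y (m + 1))
    {p : ℕ} {s : T Y} (hs : s ∈ Fl Y p) : E s ∈ Fl Y (p + m) := by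
  have key : ∀ w : List Y, E (wd w) ∈ Fl Y (w.length + m) := fun w => by
    induction w with
    | nil => rw [wd_nil, h.one]; exact zero_mem _
    | cons x w ih =>
      rw [wd_cons, h]
      refine add_mem ?_ ?_
      · have := Fl_mul (hm x) (Hom_le_Fl le_rfl (wd_mem (w := w) rfl))
        rwa [show m + 1 + w.length = (x :: w).length + m by simp; ring] at this
      · have := Fl_mul (Hom_le_Fl le_rfl (gx_mem x)) ih
        rwa [show 1 + (w.length + m) = (x :: w).length + m by simp; ring] at this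
  refine (span_le.2 ?_ : Fl Y p ≤ (Fl Y (p + m)).comap E) hs
  rintro _ ⟨w, hw, rfl⟩
  exact Fl_mono (by omega) (key w)

lemma der_sum {ι : Type*} {S : Finset ι} {E : ι → Module.End ℚ (T Y)}
    (h : ∀ i ∈ S, IsDer (E i)) : IsDer (∑ i ∈ S, E i) :=
  sum_induction E IsDer (fun _ _ => IsDer.add) IsDer.zero h

lemma pj_der {E : Module.End ℚ (T Y)} (h : IsDer E) {e : ℕ} (h1 : ∀ a, E (gx a) ∈ Hom Y (e + 1))
    (d : ℕ) (s : T Y) : pj d (E s) = if e ≤ d then E (pj (d - e) s) else 0 := by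
  refine (T_ext' (f := pj d ∘ₗ E) (g := if e ≤ d then E ∘ₗ pj (d - e) else 0) (fun w => ?_) s).trans
    (by split_ifs <;> rfl)
  rw [LinearMap.comp_apply, pj_hom d (h.hom h1 (wd_mem (w := w) rfl))]
  by_cases he : e ≤ d
  · rw [if_pos he, LinearMap.comp_apply, pj_hom _ (wd_mem (w := w) rfl)]
    by_cases hw : w.length + e = d
    · rw [if_pos hw, if_pos (by omega)]
    · rw [if_neg hw, if_neg (by omega), map_zero]
  · rw [if_neg he, if_neg (by omega), LinearMap.zero_apply]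

lemma desc_mk {E : Module.End ℚ (T Y)} (h : IsDer E) (h1 : ∀ a, E (gx a) ∈ Fl Y 1) (s : T Y) :
    desc N E (mkT N s) = mkT N (E s) := by
  rw [desc_apply, tot_mk, eq_comm, ← sub_eq_zero, ← map_sub, ← map_sub, mkT_eq_zero]
  exact der_Fl (m := 0) h h1 (sub_sum_pj (N + 1) s)

lemma desc_DD {E : Module.End ℚ (T Y)} (h : IsDer E) (h1 : ∀ a, E (gx a) ∈ Fl Y 1) :
    desc N E ∈ DD Y N := by
  refine ⟨fun s t => ?_, fun a => ?_⟩
  · obtain ⟨s, rfl⟩ := mkT_surj s
    obtain ⟨t, rfl⟩ := mkT_surj t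
    rw [← map_mul, desc_mk h h1, desc_mk h h1, desc_mk h h1, h, map_add, map_mul, map_mul]
  · rw [xx, desc_mk h h1]
    exact mk_FT (h1 a)

lemma desc_lie {E E' : Module.End ℚ (T Y)} (h : IsDer E) (h1 : ∀ a, E (gx a) ∈ Fl Y 1)
    (h' : IsDer E') (h1' : ∀ a, E' (gx a) ∈ Fl Y 1) : desc N ⁅E, E'⁆ = ⁅desc N E, desc N E'⁆ := by
  refine LinearMap.ext fun s => ?_
  obtain ⟨s, rfl⟩ := mkT_surj s
  rw [desc_mk (h.lie h') fun a =>
    sub_mem (der_Fl (m := 0) h h1 (h1' a)) (der_Fl (m := 0) h' h1' (h1 a))]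
  simp only [Ring.lie_def, LinearMap.sub_apply, Module.End.mul_apply, desc_mk h h1, desc_mk h' h1',
    map_sub]

/-- The derivation with given values on the generators. -/
noncomputable def dT (f : Y → TT Y N) : Module.End ℚ (TT Y N) := desc N (der fun a => tot N (f a))

lemma dT_DD {f : Y → TT Y N} (h : ∀ a, f a ∈ FT Y N 1) : dT f ∈ DD Y N :=
  desc_DD (isDer_der _) fun a => by rw [der_gx]; exact tot_Fl (h a)

lemma dT_xx {f : Y → TT Y N} (h : ∀ a, f a ∈ FT Y N 1) (a : Y) : dT f (xx N a) = f a := by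
  rw [dT, xx, desc_mk (isDer_der _) fun a => by rw [der_gx]; exact tot_Fl (h a), der_gx, mk_tot]

/-- The homogeneous component of degree `d` of a derivation, as a derivation of the free
algebra. -/
noncomputable def cp (N d : ℕ) : Module.End ℚ (TT Y N) →ₗ[ℚ] Module.End ℚ (T Y) :=
  derl ∘ₗ LinearMap.pi fun a => sec N (d + 1) ∘ₗ LinearMap.applyₗ (xx N a)

lemma cp_gx (d : ℕ) (D : Module.End ℚ (TT Y N)) (a : Y) :
    cp N d D (gx a) = sec N (d + 1) (D (xx N a)) := der_gx _ _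

lemma cp_der (d : ℕ) (D : Module.End ℚ (TT Y N)) : IsDer (cp N d D) := isDer_der _

lemma cp_hom (d : ℕ) (D : Module.End ℚ (TT Y N)) (a : Y) : cp N d D (gx a) ∈ Hom Y (d + 1) :=
  cp_gx d D a ▸ sec_mem _ _

lemma cp_top {d : ℕ} (h : N ≤ d) (D : Module.End ℚ (TT Y N)) : cp N d D = 0 :=
  (cp_der d D).ext IsDer.zero fun a => by rw [cp_gx, sec_top (by omega), LinearMap.zero_apply]

lemma cp_Fl (d : ℕ) (D : Module.End ℚ (TT Y N)) (a : Y) : cp N d D (gx a) ∈ Fl Y 1 :=
  Hom_le_Fl (by omega) (cp_hom d D a)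

lemma cp_desc {E : Module.End ℚ (T Y)} (h : IsDer E) {e : ℕ} (h1 : ∀ a, E (gx a) ∈ Hom Y (e + 1))
    {d : ℕ} (hd : d < N) : cp N d (desc N E) = if e = d then E else 0 := by
  refine (cp_der _ _).ext (by split_ifs; exacts [h, IsDer.zero]) fun a => ?_
  rw [cp_gx, xx, desc_mk h fun a => Hom_le_Fl (by omega) (h1 a), sec_mk (by omega),
    pj_hom _ (h1 a)]
  by_cases he : e = d
  · rw [if_pos he, if_pos (by omega)]
  · rw [if_neg he, if_neg (by omega), LinearMap.zero_apply]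

lemma sum_cp {D : Module.End ℚ (TT Y N)} (h : D ∈ DD Y N) :
    ∑ d ∈ range N, desc N (cp N d D) = D := by
  refine DD_ext (sum_mem fun d _ => desc_DD (cp_der d D) (cp_Fl d D)) h fun a => ?_
  rw [LinearMap.sum_apply]
  conv_rhs => rw [← mk_tot (D (xx N a)), tot_eq, sum_range_succ', mem_FT.1 (h.2 a) 0 one_pos,
    add_zero, map_sum]
  exact sum_congr rfl fun d _ => by rw [xx, desc_mk (cp_der d D) (cp_Fl d D), cp_gx, xx]

lemma cp_ext {D D' : Module.End ℚ (TT Y N)} (h : D ∈ DD Y N) (h' : D' ∈ DD Y N)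
    (e : ∀ d < N, cp N d D = cp N d D') : D = D' := by
  rw [← sum_cp h, ← sum_cp h']
  exact sum_congr rfl fun d hd => by rw [e d (mem_range.1 hd)]

lemma cp_FD {D : Module.End ℚ (TT Y N)} (h : D ∈ DD Y N) {k : ℕ} :
    D ∈ FD Y N k ↔ ∀ d < k, cp N d D = 0 := by
  rw [DD_FD h]
  refine ⟨fun e d hd => (cp_der d D).ext IsDer.zero fun a => ?_, fun e a => mem_FT.2 fun j hj => ?_⟩
  · rw [cp_gx, mem_FT.1 (e a) _ (by omega), LinearMap.zero_apply]
  · rcases j with _ | j
    · exact mem_FT.1 (h.2 a) 0 one_pos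
    · rw [← cp_gx, e j (by omega), LinearMap.zero_apply]

lemma sec_apply {D : Module.End ℚ (TT Y N)} (h : D ∈ DD Y N) {d : ℕ} (hd : d ≤ N) (s : TT Y N) :
    sec N d (D s) = ∑ i ∈ range (d + 1), cp N i D (sec N (d - i) s) := by
  obtain ⟨s, rfl⟩ := mkT_surj s
  have e : ∀ i, sec N d (desc N (cp N i D) (mkT N s)) =
      if i ≤ d then cp N i D (sec N (d - i) (mkT N s)) else 0 := fun i => by
    rw [desc_mk (cp_der i D) (cp_Fl i D), sec_mk hd, sec_mk (by omega),
      pj_der (cp_der i D) (cp_hom i D)]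
  conv_lhs => rw [← sum_cp h, LinearMap.sum_apply, map_sum]
  simp only [e]
  have e2 := sum_range_succ (fun i => if i ≤ d then cp N i D (sec N (d - i) (mkT N s)) else 0) N
  rw [cp_top le_rfl, LinearMap.zero_apply, ite_self, add_zero] at e2
  rw [← e2, ← sum_filter]
  refine sum_congr ?_ fun _ _ => rfl
  ext i
  simp only [mem_filter, mem_range]
  omega

lemma sec_comp {D D' : Module.End ℚ (TT Y N)} (h : D ∈ DD Y N) (h' : D' ∈ DD Y N) {d : ℕ}
    (hd : d < N) (a : Y) : sec N (d + 1) (D (D' (xx N a))) =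
      ∑ i ∈ range (d + 1), cp N i D (cp N (d - i) D' (gx a)) := by
  rw [sec_apply h hd, sum_range_succ, Nat.sub_self, mem_FT.1 (h'.2 a) 0 one_pos, map_zero, add_zero]
  refine sum_congr rfl fun i hi => ?_
  rw [cp_gx, show d + 1 - i = d - i + 1 by have := mem_range.1 hi; omega]

lemma cp_lie {D D' : Module.End ℚ (TT Y N)} (h : D ∈ DD Y N) (h' : D' ∈ DD Y N) {d : ℕ}
    (hd : d < N) : cp N d ⁅D, D'⁆ = ∑ i ∈ range (d + 1), ⁅cp N i D, cp N (d - i) D'⁆ := by
  refine (cp_der _ _).ext (der_sum fun i _ => (cp_der _ _).lie (cp_der _ _)) fun a => ?_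
  rw [cp_gx, Ring.lie_def, LinearMap.sub_apply, map_sub, Module.End.mul_apply, Module.End.mul_apply,
    sec_comp h h' hd, sec_comp h' h hd, LinearMap.sum_apply,
    ← sum_range_reflect (fun i => cp N i D' (cp N (d - i) D (gx a))), ← sum_sub_distrib]
  refine sum_congr rfl fun i hi => ?_
  have := mem_range.1 hi
  rw [show d + 1 - 1 - i = d - i by omega, show d - (d - i) = i by omega]
  rfl

/-- Leading terms of a bracket. -/
lemma cp_lie_lead {D D' : Module.End ℚ (TT Y N)} (h : D ∈ DD Y N) (h' : D' ∈ DD Y N) {i j : ℕ}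
    (hi : D ∈ FD Y N i) (hj : D' ∈ FD Y N j) (hd : i + j < N) :
    cp N (i + j) ⁅D, D'⁆ = ⁅cp N i D, cp N j D'⁆ := by
  rw [cp_lie h h' hd, sum_eq_single i, Nat.add_sub_cancel_left]
  · intro k hk hki
    have := mem_range.1 hk
    rcases lt_or_gt_of_ne hki with hl | hl
    · rw [(cp_FD h).1 hi k hl, zero_lie]
    · rw [(cp_FD h').1 hj (i + j - k) (by omega), lie_zero]
  · intro hk
    exact absurd (mem_range.2 (by omega)) hk

/-- The Euler derivation. -/
noncomputable def eu (Y : Type) (N : ℕ) : Module.End ℚ (TT Y N) := desc N (der gx)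

lemma eu_gx (a : Y) : der gx (gx a) ∈ Hom Y (0 + 1) := by rw [der_gx]; exact gx_mem a

lemma eu_hom {p : ℕ} {s : T Y} (hs : s ∈ Hom Y p) : der gx s = (p : ℚ) • s := by
  refine Hom_ext (f := der gx) (g := (p : ℚ) • LinearMap.id) (fun w hw => ?_) hs
  subst hw
  clear hs
  rw [LinearMap.smul_apply, LinearMap.id_apply]
  induction w with
  | nil => simp [wd_nil, (isDer_der gx).one]
  | cons x w ih =>
    rw [wd_cons, isDer_der, der_gx, ih, List.length_cons, mul_smul_comm]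
    push_cast
    module

lemma eu_DD : eu Y N ∈ DD Y N :=
  desc_DD (isDer_der _) fun a => Hom_le_Fl le_rfl (eu_gx a)

lemma eu_xx (a : Y) : eu Y N (xx N a) = xx N a := by
  rw [eu, xx, desc_mk (isDer_der _) fun a => Hom_le_Fl le_rfl (eu_gx a), der_gx]

lemma cp_eu_lie {D : Module.End ℚ (TT Y N)} (h : D ∈ DD Y N) (d : ℕ) :
    cp N d ⁅eu Y N, D⁆ = (d : ℚ) • cp N d D := by
  rcases le_or_gt N d with hd | hd
  · rw [cp_top hd, cp_top hd, smul_zero]
  have e : ∀ i ∈ range (d + 1), cp N i (eu Y N) = if 0 = i then der gx else 0 := fun i hi =>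
    cp_desc (isDer_der _) eu_gx (by have := mem_range.1 hi; omega)
  rw [cp_lie eu_DD h hd, sum_eq_single 0, e 0 (mem_range.2 (by omega)), if_pos rfl, Nat.sub_zero]
  · refine ((isDer_der _).lie (cp_der _ _)).ext ((cp_der _ _).smul _) fun a => ?_
    rw [Ring.lie_def, LinearMap.sub_apply, Module.End.mul_apply, Module.End.mul_apply, der_gx,
      eu_hom (cp_hom d D a), LinearMap.smul_apply]
    push_cast
    module
  · intro k hk hk0
    rw [e k hk, if_neg hk0.symm, zero_lie]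
  · intro hk
    exact absurd (mem_range.2 (by omega)) hk

end Pool.Agent.Lib.MP_f9c34c_al.G
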