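import Mathlib

/-! The first Whitehead lemma for Lie algebras of matrices closed under transposition. -/

namespace Pool.Agent.Lib.MP_f9c34c_al.G

open Matrix

attribute [local instance 100] LieRing.ofAssociativeRing

variable {Y : Type} [Fintype Y] [DecidableEq Y]

/-- Perfect Lie algebras of matrices closed under transposition. -/
def Red (S : LieSubalgebra ℚ (Matrix Y Y ℚ)) : Prop :=
  (∀ f ∈ S, fᵀ ∈ S) ∧ ∀ f ∈ S, f ∈ Submodule.span ℚ {x | ∃ g ∈ S, ∃ g' ∈ S, x = ⁅g, g'⁆}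

/-- the trace form -/
noncomputable def whB : LinearMap.BilinForm ℚ (Matrix Y Y ℚ) :=
  LinearMap.mk₂ ℚ (fun f g => trace (fᵀ * g))
    (fun a b c => by simp [transpose_add, Matrix.add_mul])
    (fun a b c => by simp [transpose_smul])
    (fun a b c => by simp [Matrix.mul_add])
    (fun a b c => by simp)

lemma whB_apply (f g : Matrix Y Y ℚ) : whB f g = trace (fᵀ * g) := rfl

lemma whB_symm (f g : Matrix Y Y ℚ) : whB f g = whB g f := by
  rw [whB_apply, whB_apply, ← trace_transpose, transpose_mul, transpose_transpose]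

lemma whB_self {f : Matrix Y Y ℚ} (h : whB f f = 0) : f = 0 := by
  rw [whB_apply] at h
  simp only [trace, diag, mul_apply, transpose_apply] at h
  ext i j
  have h1 := (Finset.sum_eq_zero_iff_of_nonneg (fun j _ =>
    Finset.sum_nonneg fun i _ => mul_self_nonneg (f i j))).1 h j (Finset.mem_univ j)
  have h2 := (Finset.sum_eq_zero_iff_of_nonneg (fun i _ => mul_self_nonneg (f i j))).1 h1 i
    (Finset.mem_univ i)
  exact mul_self_eq_zero.1 h2

lemma whB_transpose (f g : Matrix Y Y ℚ) : whB f gᵀ = whB fᵀ g := by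
  rw [whB_apply, whB_apply, transpose_transpose, ← transpose_mul, trace_transpose, trace_mul_comm]

lemma whB_lie (s g h : Matrix Y Y ℚ) : whB s ⁅g, h⁆ = whB ⁅gᵀ, s⁆ h := by
  rw [whB_apply, whB_apply, LieRing.of_associative_ring_bracket,
    LieRing.of_associative_ring_bracket, transpose_sub, transpose_mul, transpose_mul,
    transpose_transpose, Matrix.mul_sub, Matrix.sub_mul, trace_sub, trace_sub,
    Matrix.mul_assoc, ← Matrix.mul_assoc sᵀ h g, trace_mul_cycle sᵀ h g]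

lemma wh_proj {S : LieSubalgebra ℚ (Matrix Y Y ℚ)} (hS : ∀ f ∈ S, fᵀ ∈ S) :
    ∃ P : Matrix Y Y ℚ →ₗ[ℚ] Matrix Y Y ℚ, (∀ f, P f ∈ S) ∧ (∀ f ∈ S, P f = f) ∧
      (∀ f, P fᵀ = (P f)ᵀ) ∧ ∀ g ∈ S, ∀ f, P ⁅g, f⁆ = ⁅g, P f⁆ := by
  have hrefl : (whB (Y := Y)).IsRefl := fun f g h => by rw [whB_symm, h]
  have hc : IsCompl S.toSubmodule (whB.orthogonal S.toSubmodule) := by
    rw [LinearMap.BilinForm.isCompl_orthogonal_iff_disjoint hrefl, Submodule.disjoint_def]
    intro f h1 h2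
    exact whB_self (h2 f h1)
  let P : Matrix Y Y ℚ →ₗ[ℚ] Matrix Y Y ℚ := S.toSubmodule.subtype ∘ₗ
    Submodule.projectionOnto S.toSubmodule _ hc
  have h1 : ∀ f, P f ∈ S := fun f => (Submodule.projectionOnto S.toSubmodule _ hc f).2
  have h2 : ∀ f ∈ S, P f = f := by
    intro f hf
    have := Submodule.projectionOnto_apply_left hc ⟨f, hf⟩
    exact congrArg Subtype.val this
  have h3 : ∀ f, (∀ s ∈ S, whB s f = 0) → P f = 0 := by
    intro f hf
    have := Submodule.projectionOnto_apply_right hc ⟨f, hf⟩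
    exact congrArg Subtype.val this
  have h4 : ∀ f, ∀ s ∈ S, whB s (f - P f) = 0 := by
    intro f
    obtain ⟨a, ha, b, hb, rfl⟩ := Submodule.mem_sup.1
      (hc.sup_eq_top ▸ (Submodule.mem_top : f ∈ ⊤))
    rw [map_add, h2 a ha, h3 b hb, add_zero, add_sub_cancel_left]
    exact hb
  refine ⟨P, h1, h2, fun f => ?_, fun g hg f => ?_⟩
  · have h5 : P (f - P f)ᵀ = 0 := h3 _ fun s hs => by
      rw [whB_transpose]
      exact h4 f _ (hS s hs)
    rw [transpose_sub, map_sub, h2 _ (hS _ (h1 f)), sub_eq_zero] at h5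
    exact h5
  · have h5 : P ⁅g, f - P f⁆ = 0 := h3 _ fun s hs => by
      rw [whB_lie]
      exact h4 f _ (S.lie_mem (hS g hg) hs)
    rw [lie_sub, map_sub, h2 _ (S.lie_mem hg (h1 f)), sub_eq_zero] at h5
    exact h5

lemma wh_mul_single (g : Matrix Y Y ℚ) (j i : Y) :
    g * single j i (1 : ℚ) = ∑ k, g k j • single k i (1 : ℚ) := by
  ext a b
  simp only [mul_apply, single_apply, Matrix.sum_apply, Matrix.smul_apply, smul_eq_mul]
  by_cases h : i = b <;> simp [h]

lemma wh_single_mul (g : Matrix Y Y ℚ) (j i : Y) :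
    single j i (1 : ℚ) * g = ∑ k, g i k • single j k (1 : ℚ) := by
  ext a b
  simp only [mul_apply, single_apply, Matrix.sum_apply, Matrix.smul_apply, smul_eq_mul]
  by_cases h : j = a <;> simp [h]

lemma wh_inv {W : Type} [AddCommGroup W] [Module ℚ W]
    (β : Matrix Y Y ℚ →ₗ[ℚ] Matrix Y Y ℚ →ₗ[ℚ] W) (g : Matrix Y Y ℚ) :
    ∑ i, ∑ j, (β ⁅g, single j i 1⁆ (single i j 1) + β (single j i 1) ⁅g, single i j 1⁆) = 0 := by
  have hA : ∑ i, ∑ j, β (g * single j i 1) (single i j 1) =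
      ∑ i, ∑ j, β (single j i 1) (single i j 1 * g) := by
    refine Finset.sum_congr rfl fun i _ => ?_
    simp only [wh_mul_single, wh_single_mul, map_sum, map_smul, LinearMap.sum_apply,
      LinearMap.smul_apply]
    exact Finset.sum_comm
  have hB : ∑ i, ∑ j, β (single j i 1 * g) (single i j 1) =
      ∑ i, ∑ j, β (single j i 1) (g * single i j 1) := by
    rw [Finset.sum_comm, Finset.sum_comm (f := fun i j => β (single j i 1) (g * single i j 1))]
    refine Finset.sum_congr rfl fun j _ => ?_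
    simp only [wh_mul_single, wh_single_mul, map_sum, map_smul, LinearMap.sum_apply,
      LinearMap.smul_apply]
    exact Finset.sum_comm
  simp only [LieRing.of_associative_ring_bracket, map_sub, LinearMap.sub_apply,
    Finset.sum_add_distrib, Finset.sum_sub_distrib, hA, hB]
  abel

lemma wh_range {Z : Type} [AddCommGroup Z] [Module ℚ Z] (C : Module.End ℚ Z)
    (hC : ∀ x, C (C x) = 0 → C x = 0) (U : Submodule ℚ Z) [FiniteDimensional ℚ U]
    (hU : ∀ x ∈ U, C x ∈ U) {u : Z} (hu : u ∈ U) : ∃ y ∈ U, C (u - C y) = 0 := by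
  let T : U →ₗ[ℚ] U := C.restrict hU
  have hk : LinearMap.ker (T ∘ₗ T) = LinearMap.ker T := by
    ext x
    simp only [LinearMap.mem_ker, LinearMap.comp_apply]
    constructor
    · intro h
      exact Subtype.ext (hC x (congrArg Subtype.val h))
    · intro h
      rw [h, map_zero]
  have hr : LinearMap.range (T ∘ₗ T) = LinearMap.range T := by
    apply Submodule.eq_of_le_of_finrank_eq (LinearMap.range_comp_le_range _ _)
    have h1 := LinearMap.finrank_range_add_finrank_ker (T ∘ₗ T)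
    have h2 := LinearMap.finrank_range_add_finrank_ker T
    rw [hk] at h1
    omega
  obtain ⟨y, hy⟩ : T ⟨u, hu⟩ ∈ LinearMap.range (T ∘ₗ T) := hr ▸ ⟨_, rfl⟩
  refine ⟨y, y.2, ?_⟩
  have h3 : C (C y) = C u := congrArg Subtype.val hy
  rw [map_sub, h3, sub_self]

theorem whitehead {S : LieSubalgebra ℚ (Matrix Y Y ℚ)} (hS : Red S) {Z : Type} [AddCommGroup Z]
    [Module ℚ Z] (ip : Z →ₗ[ℚ] Z →ₗ[ℚ] ℚ) (hs : ∀ x y, ip x y = ip y x) (hp : ∀ x, 0 ≤ ip x x)
    (hz : ∀ x, ip x x = 0 → x = 0) (act : Matrix Y Y ℚ →ₗ[ℚ] Module.End ℚ Z)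
    (hl : ∀ f g, act ⁅f, g⁆ = ⁅act f, act g⁆) (ht : ∀ f x y, ip (act f x) y = ip x (act fᵀ y))
    {Z0 Z1 : Submodule ℚ Z} [FiniteDimensional ℚ Z0] (h10 : Z1 ≤ Z0)
    (h0 : ∀ f ∈ S, ∀ x ∈ Z0, act f x ∈ Z0) (h1 : ∀ f ∈ S, ∀ x ∈ Z1, act f x ∈ Z1)
    (c : Matrix Y Y ℚ →ₗ[ℚ] Z) (hc : ∀ f ∈ S, c f ∈ Z0)
    (hco : ∀ f ∈ S, ∀ g ∈ S, c ⁅f, g⁆ - (act f (c g) - act g (c f)) ∈ Z1) :
    ∃ z ∈ Z0, ∀ f ∈ S, c f - act f z ∈ Z1 := by
  obtain ⟨P, hP1, hP2, hP3, hP4⟩ := wh_proj hS.1
  have : FiniteDimensional ℚ Z1 := Submodule.finiteDimensional_of_le h10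
  let e : Y → Y → Matrix Y Y ℚ := fun i j => P (single i j 1)
  have he : ∀ i j, e i j ∈ S := fun i j => hP1 _
  have het : ∀ i j, (e i j)ᵀ = e j i := fun i j => by
    simp only [e]
    rw [← hP3, transpose_single]
  have hact : ∀ f g x, act f (act g x) = act ⁅f, g⁆ x + act g (act f x) := by
    intro f g x
    rw [hl, LieRing.of_associative_ring_bracket]
    simp
  let C : Module.End ℚ Z := ∑ i, ∑ j, act (e j i) * act (e i j)
  have hCa : ∀ x, C x = ∑ i, ∑ j, act (e j i) (act (e i j) x) := by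
    intro x
    simp only [C, LinearMap.sum_apply, Module.End.mul_apply]
  -- the basic identity
  have key : ∀ (d : Matrix Y Y ℚ →ₗ[ℚ] Z), ∀ g ∈ S,
      act g (∑ i, ∑ j, act (e j i) (d (e i j))) - C (d g) =
        -∑ i, ∑ j, act (e j i) (d ⁅g, e i j⁆ - (act g (d (e i j)) - act (e i j) (d g))) := by
    intro d g hg
    have h2 := wh_inv ((act ∘ₗ P).compl₂ (d ∘ₗ P)) g
    simp only [LinearMap.compl₂_apply, LinearMap.comp_apply, hP4 g hg] at h2
    rw [hCa, map_sum, eq_neg_iff_add_eq_zero, ← h2, ← Finset.sum_sub_distrib,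
      ← Finset.sum_add_distrib]
    refine Finset.sum_congr rfl fun i _ => ?_
    rw [map_sum, ← Finset.sum_sub_distrib, ← Finset.sum_add_distrib]
    refine Finset.sum_congr rfl fun j _ => ?_
    rw [hact g (e j i), map_sub, map_sub]
    abel
  have hcomm : ∀ g ∈ S, ∀ x, act g (C x) = C (act g x) := by
    intro g hg x
    have h2 := key (act.flip x) g hg
    simp only [LinearMap.flip_apply] at h2
    rw [← hCa] at h2
    rw [← sub_eq_zero, h2, neg_eq_zero]
    refine Finset.sum_eq_zero fun i _ => Finset.sum_eq_zero fun j _ => ?_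
    rw [hact g (e i j) x, add_sub_cancel_right, sub_self, map_zero]
  have hip : ∀ x y, ip (C x) y = ∑ i, ∑ j, ip (act (e i j) x) (act (e i j) y) := by
    intro x y
    rw [hCa]
    simp only [map_sum, LinearMap.sum_apply]
    refine Finset.sum_congr rfl fun i _ => Finset.sum_congr rfl fun j _ => ?_
    rw [ht, het]
  have hCC : ∀ x, C (C x) = 0 → C x = 0 := by
    intro x hx
    apply hz
    have h2 : ip (C x) (C x) = ip (C (C x)) x := by
      rw [hip x, hip (C x)]
      refine Finset.sum_congr rfl fun i _ => Finset.sum_congr rfl fun j _ => hs _ _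
    rw [h2, hx, map_zero, LinearMap.zero_apply]
  have hker : ∀ x, C x = 0 → ∀ f ∈ S, act f x = 0 := by
    intro x hx f hf
    have h2 := hip x x
    rw [hx, map_zero, LinearMap.zero_apply] at h2
    have h3 : ∀ i j, act (e i j) x = 0 := by
      intro i j
      have h4 := (Finset.sum_eq_zero_iff_of_nonneg (fun i _ =>
        Finset.sum_nonneg fun j _ => hp (act (e i j) x))).1 h2.symm i (Finset.mem_univ i)
      exact hz _ ((Finset.sum_eq_zero_iff_of_nonneg (fun j _ => hp (act (e i j) x))).1 h4 j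
        (Finset.mem_univ j))
    have h4 : f = ∑ i, ∑ j, f i j • e i j := by
      conv_lhs => rw [← hP2 f hf, matrix_eq_sum_single f]
      simp only [map_sum, e, ← map_smul, smul_single, smul_eq_mul, mul_one]
    rw [h4]
    simp only [map_sum, map_smul, LinearMap.sum_apply, LinearMap.smul_apply, h3, smul_zero,
      Finset.sum_const_zero]
  have hC0 : ∀ x ∈ Z0, C x ∈ Z0 := fun x hx => by
    rw [hCa]
    exact Submodule.sum_mem _ fun i _ => Submodule.sum_mem _ fun j _ =>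
      h0 _ (he j i) _ (h0 _ (he i j) _ hx)
  have hC1 : ∀ x ∈ Z1, C x ∈ Z1 := fun x hx => by
    rw [hCa]
    exact Submodule.sum_mem _ fun i _ => Submodule.sum_mem _ fun j _ =>
      h1 _ (he j i) _ (h1 _ (he i j) _ hx)
  have hmod : ∀ x, C x ∈ Z1 → ∀ f ∈ S, act f x ∈ Z1 := by
    intro x hx f hf
    obtain ⟨y, hy, h2⟩ := wh_range C hCC Z1 hC1 hx
    rw [← map_sub] at h2
    have h3 := hker _ (hCC _ h2) f hf
    rw [map_sub, sub_eq_zero] at h3
    rw [h3]
    exact h1 f hf y hy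
  have hz0 : (∑ i, ∑ j, act (e j i) (c (e i j))) ∈ Z0 :=
    Submodule.sum_mem _ fun i _ => Submodule.sum_mem _ fun j _ =>
      h0 _ (he j i) _ (hc _ (he i j))
  obtain ⟨z, hzZ, hzz⟩ := wh_range C hCC Z0 hC0 hz0
  have h5 : ∀ g ∈ S, ∀ f ∈ S, act f (c g - act g z) ∈ Z1 := by
    intro g hg
    apply hmod
    have h2 := hker _ hzz g hg
    rw [map_sub, sub_eq_zero, hcomm g hg] at h2
    have h3 := key c g hg
    rw [h2] at h3
    rw [map_sub, ← neg_sub, h3, neg_neg]
    exact Submodule.sum_mem _ fun i _ => Submodule.sum_mem _ fun j _ =>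
      h1 _ (he j i) _ (hco g hg _ (he i j))
  refine ⟨z, hzZ, fun f hf => ?_⟩
  have h6 : Submodule.span ℚ {x | ∃ g ∈ S, ∃ g' ∈ S, x = ⁅g, g'⁆} ≤
      Z1.comap (c - act.flip z) := by
    rw [Submodule.span_le]
    rintro _ ⟨g, hg, g', hg', rfl⟩
    have h7 := Z1.add_mem (hco g hg g' hg') (Z1.sub_mem (h5 g' hg' g hg) (h5 g hg g' hg'))
    simp only [SetLike.mem_coe, Submodule.mem_comap, LinearMap.sub_apply, LinearMap.flip_apply]
    have h8 : c ⁅g, g'⁆ - act ⁅g, g'⁆ z = c ⁅g, g'⁆ - (act g (c g') - act g' (c g)) +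
        (act g (c g' - act g' z) - act g' (c g - act g z)) := by
      rw [map_sub, map_sub, hact g g' z]
      abel
    rw [h8]
    exact h7
  exact h6 (hS.2 f hf)

end Pool.Agent.Lib.MP_f9c34c_al.G
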