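import Pool.Agent.Lib.MP_f9c34c_al.G.Coc
import Pool.Agent.Lib.MP_f9c34c_al.G.Kpp
import Pool.Agent.Lib.MP_f9c34c_al.G.Quo
import Pool.Agent.Lib.MP_f9c34c_al.G.Ext

/-! The quotient Lie algebra and its cocycle. -/

namespace Pool.Agent.Lib.MP_f9c34c_al.G

open Submodule Finset

attribute [local instance 100] LieRing.ofAssociativeRing

set_option maxRecDepth 4000

attribute [local irreducible] Bf cp desc

/-- The cocycle on derivations of the truncated algebra. -/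
noncomputable def Cf : E17 →ₗ[ℚ] E17 →ₗ[ℚ] F5 → ℚ :=
  ∑ d ∈ range 17, Bf.compl₁₂ (cp 17 d) (cp 17 (16 - d))

lemma Cf_apply (D D' : E17) :
    Cf D D' = ∑ d ∈ range 17, Bf (cp 17 d D) (cp 17 (16 - d) D') := by
  simp [Cf, LinearMap.sum_apply]

attribute [local irreducible] Cf

lemma wq_eu {d : ℕ} (hd : d < 17) : cp 17 d (eu X 17) = if 0 = d then der gx else 0 :=
  cp_desc (isDer_der _) eu_gx hd

lemma wq_KK {D : E17} (h : D ∈ KK) : cp 17 0 D = 0 := (cp_FD (KK_DD h)).1 h.2.1 0 one_pos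

lemma wq_zero {D : E17} {c : ℚ} (h : D - c • eu X 17 ∈ KK) : cp 17 0 D = c • der gx := by
  have := wq_KK h
  rwa [map_sub, map_smul, wq_eu (by norm_num), if_pos rfl, sub_eq_zero] at this

lemma wq_K4 {D : E17} (h : D ∈ WW) {d : ℕ} (h1 : 1 ≤ d) (h2 : d ≤ 15) : cp 17 d D ∈ K4 d := by
  obtain ⟨c, h⟩ := h
  have := h.2.2 d h2
  rwa [map_sub, map_smul, wq_eu (by omega), if_neg (by omega), smul_zero, sub_zero] at this

lemma wq_left {D : E17} (h : D ∈ WW) (E : Module.End ℚ T4) : Bf (cp 17 0 D) E = 0 := by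
  obtain ⟨c, h⟩ := h
  rw [wq_zero h, map_smul, LinearMap.smul_apply, Bf_eu, smul_zero]

lemma wq_right {D : E17} (h : D ∈ WW) (E : Module.End ℚ T4) : Bf E (cp 17 0 D) = 0 := by
  rw [Bf_skew, wq_left h, neg_zero]

lemma Cf_skew (D D' : E17) : Cf D D' = -Cf D' D := by
  rw [Cf_apply, Cf_apply, ← sum_neg_distrib, ← sum_range_reflect]
  refine sum_congr rfl fun d hd => ?_
  rw [mem_range] at hd
  rw [Bf_skew, show 16 - (17 - 1 - d) = d by omega]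

lemma wq_Cf_eu (D : E17) : Cf (eu X 17) D = 0 := by
  rw [Cf_apply]
  refine sum_eq_zero fun d hd => ?_
  rw [wq_eu (mem_range.1 hd)]
  split_ifs
  · exact Bf_eu _
  · rw [map_zero, LinearMap.zero_apply]

lemma Cf_eu {D : E17} (h : D ∈ WW) : Cf (eu X 17) D = 0 := (fun _ => wq_Cf_eu D) h

lemma Cf_mem {D D' : E17} (h : D ∈ WW) (h' : D' ∈ WW) : Cf D D' ∈ Vn pl 10 := by
  rw [Cf_apply]
  refine sum_mem fun d hd => ?_
  rw [mem_range] at hd
  obtain rfl | rfl | h1 : d = 0 ∨ d = 16 ∨ 1 ≤ d ∧ d ≤ 15 := by omega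
  · rw [wq_left h]
    exact zero_mem _
  · rw [Nat.sub_self, wq_right h']
    exact zero_mem _
  · exact Bf_mem h1.1 (by omega) (by omega) (wq_K4 h h1.1 h1.2) (wq_K4 h' (by omega) (by omega))

lemma Cf_JS {D D' : E17} (h : D ∈ JS) (h' : D' ∈ WW) : Cf D D' = 0 := by
  rw [Cf_apply]
  refine sum_eq_zero fun d hd => ?_
  rw [mem_range] at hd
  obtain rfl | h1 : d = 16 ∨ d ≤ 15 := by omega
  · rw [Nat.sub_self, wq_right h']
  · exact Bf_II (h.2 d h1) _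

lemma Cf_deg {D D' : E17} (h : D ∈ DD X 17) (h' : D' ∈ DD X 17) :
    Cf ⁅eu X 17, D⁆ D' + Cf D ⁅eu X 17, D'⁆ = (16 : ℚ) • Cf D D' := by
  simp only [Cf_apply, cp_eu_lie h, cp_eu_lie h', map_smul, LinearMap.smul_apply, smul_sum,
    ← sum_add_distrib, ← add_smul]
  refine sum_congr rfl fun d hd => ?_
  rw [mem_range] at hd
  rw [← Nat.cast_add, show d + (16 - d) = 16 by omega, Nat.cast_ofNat]

lemma Cf_jac {D D' D'' : E17} (h : D ∈ KK) (h' : D' ∈ KK) (h'' : D'' ∈ KK) :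
    Cf D ⁅D', D''⁆ = Cf ⁅D, D'⁆ D'' + Cf D' ⁅D, D''⁆ := by
  have e1 : ∀ {A B C : E17}, B ∈ KK → C ∈ KK → Cf A ⁅B, C⁆ = ∑ i ∈ range 17, ∑ j ∈ range (17 - i),
      Bf (cp 17 i A) ⁅cp 17 j B, cp 17 (16 - (i + j)) C⁆ := fun hB hC => by
    rw [Cf_apply]
    refine sum_congr rfl fun i hi => ?_
    rw [mem_range] at hi
    simp only [cp_lie (KK_DD hB) (KK_DD hC) (show 16 - i < 17 by omega), map_sum, Nat.sub_sub,
      show 16 - i + 1 = 17 - i by omega]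
  have e2 : Cf ⁅D, D'⁆ D'' = ∑ i ∈ range 17, ∑ j ∈ range (17 - i),
      Bf ⁅cp 17 i D, cp 17 j D'⁆ (cp 17 (16 - (i + j)) D'') := by
    rw [Cf_apply, ← sum_range_diag_flip 17 fun i j =>
      Bf ⁅cp 17 i D, cp 17 j D'⁆ (cp 17 (16 - (i + j)) D'')]
    refine sum_congr rfl fun d hd => ?_
    rw [cp_lie (KK_DD h) (KK_DD h') (mem_range.1 hd), map_sum, LinearMap.sum_apply]
    exact sum_congr rfl fun i hi => by rw [Nat.add_sub_cancel' (Nat.lt_succ_iff.1 (mem_range.1 hi))]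
  rw [e1 h' h'', e2, e1 h h'', sum_comm' (s := range 17) (t := fun i => range (17 - i))
    (t' := range 17) (s' := fun i => range (17 - i)) (f := fun i j => Bf (cp 17 i D')
      ⁅cp 17 j D, cp 17 (16 - (i + j)) D''⁆) fun i j => by simp only [mem_range]; omega,
    ← sum_add_distrib]
  refine sum_congr rfl fun i hi => ?_
  rw [← sum_add_distrib]
  refine sum_congr rfl fun j hj => ?_
  rw [mem_range] at hi hj
  rw [add_comm j i]
  obtain e | e | e | e : i = 0 ∨ j = 0 ∨ 16 - (i + j) = 0 ∨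
      1 ≤ i ∧ 1 ≤ j ∧ 1 ≤ 16 - (i + j) := by omega
  · simp only [e, wq_KK h, map_zero, LinearMap.zero_apply, zero_lie, add_zero]
  · simp only [e, wq_KK h', map_zero, LinearMap.zero_apply, zero_lie, lie_zero, add_zero]
  · simp only [e, wq_KK h'', map_zero, lie_zero, add_zero]
  · have := Bf_jac e.1 e.2.1 e.2.2 (by omega) (h.2.2 _ (by omega)) (h'.2.2 _ (by omega))
      (h''.2.2 _ (by omega))
    with_reducible exact this

lemma Cf_fT (w : F5) {D D' : E17} (h : D ∈ DD X 17) (h' : D' ∈ DD X 17) :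
    Cf ((Ad (fT w)).1 D) ((Ad (fT w)).1 D') = Rt w (Cf D D') := by
  simp only [Cf_apply, cp_fT w h, cp_fT w h', Bf_cj, map_sum]

lemma Cf_MM {D D' : E17} (h : D ∈ MM) (h' : D' ∈ MM) : Cf D D' ∈ Vp pl 10 := by
  refine mem_Vp (Cf_mem (KK_WW h.1) (KK_WW h'.1)) fun w hw => ?_
  rw [Cf_apply, Finset.sum_apply]
  refine sum_eq_zero fun d hd => ?_
  rw [mem_range] at hd
  obtain rfl | h1 : d = 16 ∨ d ≤ 15 := by omega
  · rw [Bf_apply, B_cm' _ (h'.2 _ (by omega) w hw)]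
  · rw [Bf_apply, B_cm (h.2 d h1 w hw)]

lemma Cf_lead {D D' : E17} (h : D ∈ DD X 17) (h' : D' ∈ DD X 17) (e : D ∈ FD X 17 8)
    (e' : D' ∈ FD X 17 8) : Cf D D' 1 = B (hh (cp 17 8 D)) (hh (cp 17 8 D')) := by
  rw [Cf_apply, sum_eq_single_of_mem 8 (by simp) fun d _ hd => ?_, Bf_apply, cj_triv (map_one _),
    cj_triv (map_one _)]
  rcases lt_or_gt_of_ne hd with h1 | h1
  · rw [(cp_FD h).1 e d h1, map_zero, LinearMap.zero_apply]
  · rw [(cp_FD h').1 e' _ (by omega), map_zero]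

/-- The Lie algebra with its ideal. -/
noncomputable def qW : QD :=
  ⟨WW, JS, fun _ h => (WW_PJ h).1, eu_WW, fun _ h _ _ h' => JS_lie h h'⟩

lemma qW_zero {x : qW.Q} (h : x ∈ eig qW.e 0) : ∃ t : ℚ, x = t • qW.e := by
  obtain ⟨y, h1, rfl⟩ := qW.exists_of_eig h
  obtain ⟨c, hc⟩ := y.2
  rw [wq_zero hc, map_smul] at h1
  exact ⟨c, by rw [QD.e, ← map_smul]; exact congrArg qW.pr (Subtype.ext h1)⟩

lemma qW_odd {d : ℕ} (hd : Odd d) : eig qW.e d = ⊥ := by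
  refine eq_bot_iff.2 fun x h => ?_
  obtain ⟨y, h1, rfl⟩ := qW.exists_of_eig h
  have h2 : ∀ j < 17, cp 17 j y.1 = if d = j then cp 17 d y.1 else 0 := fun j hj =>
    (congrArg (cp 17 j) h1).trans (quo_cp_desc y.1 d hj)
  have h3 : y.1 ∈ KK := KK_of_WW y.2 ((cp_FD (qW.dd _ y.2)).2 fun j hj => by
    rw [h2 j (by omega), if_neg (by have := hd.pos; omega)])
  refine qW.pr_eq_zero.2 ⟨h3, fun j hj => ?_⟩
  rw [h2 j (by omega)]
  split_ifs with e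
  · exact (h3.2.2 d (by omega)).2.1 hd
  · exact zero_mem _

lemma wq_abs {L V : Type} [LieRing L] [LieAlgebra ℚ L] [AddCommGroup V] [Module ℚ V]
    (C : L →ₗ[ℚ] L →ₗ[ℚ] V) {e x y z : L} {α β γ : ℚ} (hs : ∀ a b, C a b = -C b a)
    (he : ∀ a, C e a = 0)
    (a1 : C (x - α • e) ⁅y - β • e, z - γ • e⁆ =
      C ⁅x - α • e, y - β • e⁆ (z - γ • e) + C (y - β • e) ⁅x - α • e, z - γ • e⁆)
    (a2 : C ⁅e, y - β • e⁆ (z - γ • e) + C (y - β • e) ⁅e, z - γ • e⁆ =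
      (16 : ℚ) • C (y - β • e) (z - γ • e))
    (a3 : C ⁅e, x - α • e⁆ (z - γ • e) + C (x - α • e) ⁅e, z - γ • e⁆ =
      (16 : ℚ) • C (x - α • e) (z - γ • e))
    (a4 : C ⁅e, x - α • e⁆ (y - β • e) + C (x - α • e) ⁅e, y - β • e⁆ =
      (16 : ℚ) • C (x - α • e) (y - β • e)) :
    C x ⁅y, z⁆ + (16 * α) • C y z =
      C ⁅x, y⁆ z - (16 * γ) • C x y + (C y ⁅x, z⁆ + (16 * β) • C x z) := by
  have he' : ∀ a, C a e = 0 := fun a => by rw [hs, he, neg_zero]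
  rw [hs ⁅e, x - α • e⁆] at a4
  simp only [sub_lie, lie_sub, smul_lie, lie_smul, lie_self, ← lie_skew _ e, map_sub, map_smul,
    map_neg, LinearMap.sub_apply, LinearMap.smul_apply, LinearMap.neg_apply, he, he', smul_zero,
    sub_zero] at a1 a2 a3 a4
  linear_combination (norm := module) a1 - α • a2 + β • a3 - γ • a4

theorem exists_cyc : ∃ c : Cyc qW.Q (Vn pl 10), c.Gd qW.e ∧
    ∀ x y : qW.a, (c.ch (qW.pr x) (qW.pr y)).1 = Cf x.1 y.1 := by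
  have := And.intro (And.intro (And.intro @Cf_mem @Cf_JS) (And.intro Cf_skew wq_Cf_eu))
    (And.intro @Cf_jac @Cf_deg)
  revert this
  generalize Cf = C
  rintro ⟨⟨⟨c1, c2⟩, c3, c4⟩, c5, c6⟩
  obtain ⟨s, hs⟩ := qW.pr.toLinearMap.exists_rightInverse_of_surjective
    (LinearMap.range_eq_top.2 qW.pr_surj)
  have h1 : ∀ x : qW.a, (s (qW.pr x)).1 - x.1 ∈ JS := fun x =>
    qW.pr_eq.1 (LinearMap.congr_fun hs (qW.pr x))
  obtain ⟨l, hl⟩ := Module.Projective.exists_dual_eq_one ℚ (x := (der gx : Module.End ℚ T4))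
    fun h => by
      have := LinearMap.congr_fun h (gx (0, false))
      rw [der_gx, LinearMap.zero_apply] at this
      simpa [gx, lin_wd] using congrArg (lin fun _ => (1 : ℚ)) this
  obtain ⟨m, hm⟩ : ∃ m : E17 →ₗ[ℚ] ℚ, ∀ D (c : ℚ), D - c • eu X 17 ∈ KK → m D = c :=
    ⟨l ∘ₗ cp 17 0, fun D c h => by
      rw [LinearMap.comp_apply, wq_zero h, map_smul, hl, smul_eq_mul, mul_one]⟩
  let ep : qW.Q →ₗ[ℚ] ℚ := m ∘ₗ qW.a.toSubmodule.subtype ∘ₗ s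
  have h2 : ∀ (x : qW.a) (c : ℚ), x.1 - c • eu X 17 ∈ KK → ep (qW.pr x) = c := fun x c h =>
    hm (s (qW.pr x)).1 c (sub_add_sub_cancel (s (qW.pr x)).1 x.1 _ ▸ add_mem (h1 x).1 h)
  let ch : qW.Q →ₗ[ℚ] qW.Q →ₗ[ℚ] Vn pl 10 := LinearMap.mk₂ ℚ
    (fun a b => ⟨C (s a).1 (s b).1, c1 (s a).2 (s b).2⟩) (fun _ _ _ => Subtype.ext (by simp))
    (fun _ _ _ => Subtype.ext (by simp)) (fun _ _ _ => Subtype.ext (by simp))
    fun _ _ _ => Subtype.ext (by simp)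
  have h3 : ∀ x y : qW.a, (ch (qW.pr x) (qW.pr y)).1 = C x.1 y.1 := fun x y => by
    have a1 := c2 (h1 x) (s (qW.pr y)).2
    have a2 := c2 (h1 y) x.2
    rw [c3, neg_eq_zero, map_sub, sub_eq_zero] at a2
    rw [map_sub, LinearMap.sub_apply, sub_eq_zero] at a1
    exact a1.trans a2
  refine ⟨⟨ep, ch, fun a b => ?_, fun a => ?_, fun a b c => ?_⟩,
    ⟨qW.GF_zero, h2 _ 1 (by simp), fun b => ?_⟩, h3⟩
  · obtain ⟨x, rfl⟩ := qW.pr_surj a
    obtain ⟨y, rfl⟩ := qW.pr_surj b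
    rw [← LieHom.map_lie]
    exact h2 _ 0 (by simpa using WW_lie x.2 y.2)
  · obtain ⟨x, rfl⟩ := qW.pr_surj a
    refine Subtype.ext ((h3 x x).trans (funext fun w => ?_))
    have := congrFun (c3 x.1 x.1) w
    rw [Pi.neg_apply] at this
    change C x.1 x.1 w = 0
    linarith
  · obtain ⟨x, rfl⟩ := qW.pr_surj a
    obtain ⟨y, rfl⟩ := qW.pr_surj b
    obtain ⟨z, rfl⟩ := qW.pr_surj c
    obtain ⟨α, hx⟩ := x.2
    obtain ⟨β, hy⟩ := y.2
    obtain ⟨γ, hz⟩ := z.2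
    refine Subtype.ext ?_
    simp only [← LieHom.map_lie, h2 _ _ hx, h2 _ _ hy, h2 _ _ hz, Submodule.coe_add,
      Submodule.coe_sub, Submodule.coe_smul, h3, LieSubalgebra.coe_bracket]
    exact wq_abs C c3 c4 (c5 hx hy hz) (c6 (KK_DD hy) (KK_DD hz)) (c6 (KK_DD hx) (KK_DD hz))
      (c6 (KK_DD hx) (KK_DD hy))
  · obtain ⟨y, rfl⟩ := qW.pr_surj b
    exact Subtype.ext ((h3 _ y).trans (c4 _))

end Pool.Agent.Lib.MP_f9c34c_al.G
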